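import Mathlib

/-!
# Summability over integer vectors (helper of SER, COHD, COHF, KRO)
-/

set_option autoImplicit false

open Set MeasureTheory Filter Topology Metric
open scoped ContDiff

namespace Pool.Agent.PalT.H21Sum_

/-- The real vector of an integer vector. -/
def rv {d : ℕ} (k : Fin d → ℤ) : Fin d → ℝ := fun i => (k i : ℝ)

theorem norm_rv {d : ℕ} (k : Fin d → ℤ) : ‖rv k‖ = ‖k‖ := by
  apply le_antisymm
  · rw [pi_norm_le_iff_of_nonneg (norm_nonneg _)]
    intro i
    have := norm_le_pi_norm k i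
    rw [Int.norm_eq_abs] at this
    rw [Real.norm_eq_abs]
    exact this
  · rw [pi_norm_le_iff_of_nonneg (norm_nonneg _)]
    intro i
    have := norm_le_pi_norm (rv k) i
    rw [Real.norm_eq_abs] at this
    rw [Int.norm_eq_abs]
    exact this

theorem rv_inj {d : ℕ} : Function.Injective (rv (d := d)) := by
  intro k l h
  funext i
  have := congrFun h i
  simp only [rv] at this
  exact_mod_cast this

theorem mem_span {d : ℕ} (k : Fin d → ℤ) :
    rv k ∈ Submodule.span ℤ (Set.range (Pi.basisFun ℝ (Fin d))) := by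
  rw [Module.Basis.mem_span_iff_repr_mem]
  intro i
  simp only [Pi.basisFun_repr]
  exact ⟨k i, by simp [rv]⟩

theorem summable_inv {d : ℕ} : Summable fun k : Fin d → ℤ => ‖k‖⁻¹ ^ (d + 1) := by
  have h := ZLattice.summable_norm_pow_inv
    (L := Submodule.span ℤ (Set.range (Pi.basisFun ℝ (Fin d)))) (d + 1) (by
      have : Module.finrank ℤ (Submodule.span ℤ (Set.range (Pi.basisFun ℝ (Fin d)))) =
        Module.finrank ℝ (Fin d → ℝ) := ZLattice.rank ℝ _
      rw [this]
      simp)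
  have h2 := h.comp_injective (i := fun k : Fin d → ℤ => ⟨rv k, mem_span k⟩) (by
    intro k l hkl
    exact rv_inj (Subtype.ext_iff.mp hkl))
  refine h2.congr fun k => ?_
  simp only [Function.comp]
  have : ‖(⟨rv k, mem_span k⟩ : Submodule.span ℤ (Set.range (Pi.basisFun ℝ (Fin d))))‖ = ‖k‖ := by
    rw [← norm_rv k]; rfl
  rw [this]

/-- Rapidly decreasing families are summable against powers. -/
theorem summable_rapid {d : ℕ} {g : (Fin d → ℤ) → ℝ} (hg0 : ∀ k, 0 ≤ g k)
    (hg : ∀ p : ℕ, ∃ C : ℝ, ∀ k, ‖k‖ ^ p * g k ≤ C) (n : ℕ) :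
    Summable fun k => ‖k‖ ^ n * g k := by
  obtain ⟨C, hC⟩ := hg (n + (d + 1))
  have h1 : Summable fun k : Fin d → ℤ => C * ‖k‖⁻¹ ^ (d + 1) := summable_inv.mul_left C
  have h2 : Summable fun k : Fin d → ℤ => if k = 0 then ‖k‖ ^ n * g k else 0 := by
    apply summable_of_ne_finset_zero (s := {0})
    intro k hk
    rw [if_neg]
    simpa using hk
  refine Summable.of_nonneg_of_le (fun k => by have := hg0 k; positivity) ?_ (h1.add h2)
  intro k
  by_cases hk : k = 0
  · subst hk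
    simp
  · rw [if_neg hk, add_zero]
    have hpos : 0 < ‖k‖ := norm_pos_iff.mpr hk
    rw [inv_pow, ← div_eq_mul_inv, le_div_iff₀ (by positivity)]
    calc ‖k‖ ^ n * g k * ‖k‖ ^ (d + 1) = ‖k‖ ^ (n + (d + 1)) * g k := by rw [pow_add]; ring
      _ ≤ C := hC k

/-- The exponential. -/
noncomputable def ex {d : ℕ} (k : Fin d → ℤ) (x : Fin d → ℝ) : ℂ :=
  Complex.exp (2 * Real.pi * Complex.I * ((∑ i, (k i : ℝ) * x i : ℝ) : ℂ))

theorem norm_exp_I (t : ℝ) : ‖Complex.exp (2 * Real.pi * Complex.I * (t : ℂ))‖ = 1 := by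
  rw [Complex.norm_exp]
  simp

theorem norm_ex {d : ℕ} (k : Fin d → ℤ) (x : Fin d → ℝ) : ‖ex k x‖ = 1 := norm_exp_I _

theorem ex_add {d : ℕ} (k : Fin d → ℤ) (x y : Fin d → ℝ) : ex k (x + y) = ex k x * ex k y := by
  rw [ex, ex, ex, ← Complex.exp_add]
  congr 1
  simp only [Pi.add_apply, mul_add, Finset.sum_add_distrib]
  push_cast
  ring

theorem ex_int {d : ℕ} (k l : Fin d → ℤ) : ex k (fun i => (l i : ℝ)) = 1 := by
  rw [ex, Complex.exp_eq_one_iff]
  refine ⟨∑ i, k i * l i, ?_⟩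
  push_cast
  ring

end Pool.Agent.PalT.H21Sum_
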