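import Pool.Agent.PalT.Targets
import Pool.Agent.PalT.H21Sum

set_option autoImplicit false

open Set MeasureTheory Filter Topology Metric
open scoped ContDiff

namespace Pool.Agent.PalT

namespace COHD_

open H21Sum_

theorem norm_exp_sub_one (t : ℝ) (l : ℤ) (h : |t - l| ≤ 1 / 2) :
    4 * |t - l| ≤ ‖Complex.exp (2 * Real.pi * Complex.I * (t : ℂ)) - 1‖ := by
  have h0 : Complex.exp (2 * Real.pi * Complex.I * (t : ℂ)) =
      Complex.exp (Complex.I * ((2 * Real.pi * (t - l) : ℝ) : ℂ)) := by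
    rw [show (2 * Real.pi * Complex.I * (t : ℂ)) =
      Complex.I * ((2 * Real.pi * (t - l) : ℝ) : ℂ) + l * (2 * Real.pi * Complex.I) by
        push_cast; ring, Complex.exp_add, Complex.exp_int_mul_two_pi_mul_I, mul_one]
  rw [h0, Complex.norm_exp_I_mul_ofReal_sub_one]
  set s := t - l with hs
  have h1 : 2 * Real.pi * s / 2 = Real.pi * s := by ring
  rw [h1, Real.norm_eq_abs, abs_mul, abs_two]
  have h2 : |Real.sin (Real.pi * s)| = |Real.sin (Real.pi * |s|)| := by
    rcases abs_cases s with ⟨h, _⟩ | ⟨h, _⟩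
    · rw [h]
    · rw [h, mul_neg, Real.sin_neg, abs_neg]
  rw [h2]
  have h3 : 2 / Real.pi * (Real.pi * |s|) ≤ Real.sin (Real.pi * |s|) := by
    apply Real.mul_le_sin
    · have := Real.pi_pos
      positivity
    · have := Real.pi_pos
      nlinarith
  have h4 : 2 / Real.pi * (Real.pi * |s|) = 2 * |s| := by
    have := Real.pi_pos.ne'
    field_simp
  rw [h4] at h3
  have h5 := le_abs_self (Real.sin (Real.pi * |s|))
  linarith

end COHD_

open COHD_ H21Sum_ in
theorem cohd (h1 : T_FOU) (h2 : T_SER) : T_COHD := by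
  intro d α b hα hb hper hmean
  obtain ⟨c, τ, hc, hD⟩ := hα
  obtain ⟨β, hβ, hβ0, hsum⟩ := h1 d b hb hper
  rw [hmean] at hβ0
  simp only [Complex.ofReal_zero] at hβ0
  set γ : (Fin d → ℤ) → ℂ := fun k => if k = 0 then 0 else β k / (ex k α - 1) with hγ
  have hlow : ∀ k : Fin d → ℤ, k ≠ 0 → 4 * c ≤ ‖k‖ ^ τ * ‖ex k α - 1‖ := by
    intro k hk
    have h3 := hD k hk (round (∑ i, (k i : ℝ) * α i))
    have h4 := norm_exp_sub_one (∑ i, (k i : ℝ) * α i) (round (∑ i, (k i : ℝ) * α i))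
      (abs_sub_round _)
    have h5 : 4 * |∑ i, (k i : ℝ) * α i - (round (∑ i, (k i : ℝ) * α i) : ℤ)| ≤
      ‖ex k α - 1‖ := h4
    calc 4 * c ≤ 4 * (‖k‖ ^ τ * |∑ i, (k i : ℝ) * α i -
          (round (∑ i, (k i : ℝ) * α i) : ℤ)|) := by linarith
      _ = ‖k‖ ^ τ * (4 * |∑ i, (k i : ℝ) * α i -
          (round (∑ i, (k i : ℝ) * α i) : ℤ)|) := by ring
      _ ≤ _ := by gcongr
  have hne : ∀ k : Fin d → ℤ, k ≠ 0 → ex k α - 1 ≠ 0 := by
    intro k hk h
    have := hlow k hk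
    rw [h, norm_zero, mul_zero] at this
    linarith
  have hγdec : ∀ p : ℕ, ∃ C : ℝ, ∀ k, ‖k‖ ^ p * ‖γ k‖ ≤ C := by
    intro p
    obtain ⟨C, hC⟩ := hβ (p + τ)
    have hC0 : 0 ≤ C := le_trans (by positivity) (hC 0)
    refine ⟨C / (4 * c), fun k => ?_⟩
    by_cases hk : k = 0
    · simp only [hγ, hk, if_true, norm_zero, mul_zero]
      positivity
    · simp only [hγ, if_neg hk]
      rw [norm_div, ← mul_div_assoc, div_le_div_iff₀ (norm_pos_iff.mpr (hne k hk)) (by positivity)]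
      calc ‖k‖ ^ p * ‖β k‖ * (4 * c) ≤ ‖k‖ ^ p * ‖β k‖ * (‖k‖ ^ τ * ‖ex k α - 1‖) := by
            have := hlow k hk
            gcongr
        _ = (‖k‖ ^ (p + τ) * ‖β k‖) * ‖ex k α - 1‖ := by rw [pow_add]; ring
        _ ≤ C * ‖ex k α - 1‖ := by
            have := hC k
            gcongr
  obtain ⟨c0, hc0, hc0per, hc0sum⟩ := h2 d γ hγdec
  refine ⟨fun x => (c0 x).re, ?_, ?_, ?_⟩
  · exact Complex.reCLM.contDiff.comp hc0
  · intro x k
    simp only [hc0per x k]
  · intro x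
    have h3 := (hc0sum (x + α)).sub (hc0sum x)
    have h4 : HasSum (fun k : Fin d → ℤ => β k * ex k x) (c0 (x + α) - c0 x) := by
      have hf : (fun k : Fin d → ℤ => β k * ex k x) =
        fun k => γ k * ex k (x + α) - γ k * ex k x := ?_
      · rw [hf]
        exact h3
      funext k
      rw [ex_add]
      by_cases hk : k = 0
      · simp only [hγ, hk, if_true, hβ0, zero_mul, sub_zero]
      · simp only [hγ, if_neg hk]
        have := hne k hk
        field_simp
    have h5 := h4.unique (hsum x)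
    rw [← Complex.sub_re, h5, Complex.ofReal_re]

end Pool.Agent.PalT
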