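import Pool.Agent.PalT.TargetsF
import Pool.Agent.PalT.H21Sum

set_option autoImplicit false

open Set MeasureTheory Filter Topology Metric
open scoped ContDiff

namespace Pool.Agent.PalT

open Pool.Agent.PalT.H21Sum_ in
theorem cohf (h1 : T_FOU) (h2 : T_SER) : T_COHF := by
  intro d om b hα hb hper hmean
  obtain ⟨c, τ, hc, hD⟩ := hα
  obtain ⟨β, hβ, hβ0, hsum⟩ := h1 d b hb hper
  rw [hmean] at hβ0
  simp only [Complex.ofReal_zero] at hβ0
  set D : (Fin d → ℤ) → ℂ := fun k =>
    2 * Real.pi * Complex.I * ((∑ i, (k i : ℝ) * om i : ℝ) : ℂ) with hDdef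
  set γ : (Fin d → ℤ) → ℂ := fun k => if k = 0 then 0 else β k / D k with hγ
  have hpi := Real.pi_pos
  have hnD : ∀ k, ‖D k‖ = 2 * Real.pi * |∑ i, (k i : ℝ) * om i| := by
    intro k
    simp only [hDdef, norm_mul, Complex.norm_I, mul_one, Complex.norm_real, Real.norm_eq_abs,
      abs_of_pos hpi]
    simp
  have hlow : ∀ k : Fin d → ℤ, k ≠ 0 → 2 * Real.pi * c ≤ ‖k‖ ^ τ * ‖D k‖ := by
    intro k hk
    have h3 := hD k hk
    rw [hnD k]
    calc 2 * Real.pi * c ≤ 2 * Real.pi * (‖k‖ ^ τ * |∑ i, (k i : ℝ) * om i|) := by gcongr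
      _ = _ := by ring
  have hne : ∀ k : Fin d → ℤ, k ≠ 0 → D k ≠ 0 := by
    intro k hk h
    have := hlow k hk
    rw [h, norm_zero, mul_zero] at this
    have : 0 < 2 * Real.pi * c := by positivity
    linarith
  have hγdec : ∀ p : ℕ, ∃ C : ℝ, ∀ k, ‖k‖ ^ p * ‖γ k‖ ≤ C := by
    intro p
    obtain ⟨C, hC⟩ := hβ (p + τ)
    have hC0 : 0 ≤ C := le_trans (by positivity) (hC 0)
    refine ⟨C / (2 * Real.pi * c), fun k => ?_⟩
    by_cases hk : k = 0
    · simp only [hγ, hk, if_true, norm_zero, mul_zero]
      positivity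
    · simp only [hγ, if_neg hk]
      rw [norm_div, ← mul_div_assoc, div_le_div_iff₀ (norm_pos_iff.mpr (hne k hk)) (by positivity)]
      calc ‖k‖ ^ p * ‖β k‖ * (2 * Real.pi * c) ≤ ‖k‖ ^ p * ‖β k‖ * (‖k‖ ^ τ * ‖D k‖) := by
            have := hlow k hk
            gcongr
        _ = (‖k‖ ^ (p + τ) * ‖β k‖) * ‖D k‖ := by rw [pow_add]; ring
        _ ≤ C * ‖D k‖ := by
            have := hC k
            gcongr
  obtain ⟨c0, hc0, hc0per, hc0sum⟩ := h2 d γ hγdec
  have hgs : Summable fun k => ‖β k‖ := by
    refine (summable_rapid (fun k => norm_nonneg (β k)) hβ 0).congr fun k => ?_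
    rw [pow_zero, one_mul]
  refine ⟨fun x => (c0 x).re, ?_, ?_, ?_⟩
  · exact Complex.reCLM.contDiff.comp hc0
  · intro x k
    simp only [hc0per x k]
  · intro x
    -- the derivative of the series along the line
    have hline : ∀ t : ℝ, c0 (x + t • om) = ∑' k, γ k * ex k (x + t • om) := fun t =>
      ((hc0sum (x + t • om)).tsum_eq).symm
    have hg : ∀ (k : Fin d → ℤ) (t : ℝ), HasDerivAt (fun t : ℝ => γ k * ex k (x + t • om))
        (β k * ex k (x + t • om)) t := by
      intro k t
      have h5 : (fun t : ℝ => γ k * ex k (x + t • om)) =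
          fun t : ℝ => γ k * (ex k x * Complex.exp ((t : ℂ) * D k)) := by
        funext t
        rw [ex_add]
        congr 2
        simp only [ex, hDdef]
        congr 1
        simp only [Pi.smul_apply, smul_eq_mul]
        have : ∑ i, (k i : ℝ) * (t * om i) = t * ∑ i, (k i : ℝ) * om i := by
          rw [Finset.mul_sum]
          exact Finset.sum_congr rfl fun i _ => by ring
        rw [this]
        push_cast
        ring
      have h6 : β k * ex k (x + t • om) =
          γ k * (ex k x * (Complex.exp ((t : ℂ) * D k) * (1 * D k))) := by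
        by_cases hk : k = 0
        · simp only [hγ, hk, if_true, hβ0, zero_mul]
        · have h9 : β k = γ k * D k := by
            simp only [hγ, if_neg hk]
            rw [div_mul_cancel₀ _ (hne k hk)]
          have h10 : ex k (x + t • om) = ex k x * Complex.exp ((t : ℂ) * D k) := by
            rw [ex_add]
            congr 1
            simp only [ex, hDdef]
            congr 1
            simp only [Pi.smul_apply, smul_eq_mul]
            have : ∑ i, (k i : ℝ) * (t * om i) = t * ∑ i, (k i : ℝ) * om i := by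
              rw [Finset.mul_sum]
              exact Finset.sum_congr rfl fun i _ => by ring
            rw [this]
            push_cast
            ring
          rw [h9, h10]
          ring
      rw [h5, h6]
      have h0 : HasDerivAt (fun t : ℝ => (t : ℂ)) 1 t := Complex.ofRealCLM.hasDerivAt
      exact (((h0.mul_const (D k)).cexp).const_mul _).const_mul _
    have hder : HasDerivAt (fun t : ℝ => ∑' k, γ k * ex k (x + t • om))
        (∑' k, β k * ex k (x + (0 : ℝ) • om)) 0 := by
      apply hasDerivAt_tsum hgs hg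
      · intro k t
        rw [norm_mul, norm_ex, mul_one]
      · exact (hc0sum (x + (0 : ℝ) • om)).summable
    have hval : ∑' k, β k * ex k (x + (0 : ℝ) • om) = (b x : ℂ) := by
      rw [zero_smul, add_zero]
      exact (hsum x).tsum_eq
    rw [hval] at hder
    have hder2 : HasDerivAt (fun t : ℝ => (c0 (x + t • om)).re) (b x) 0 := by
      have h3 : HasDerivAt (fun t : ℝ => c0 (x + t • om)) (b x : ℂ) 0 := by
        have : (fun t : ℝ => c0 (x + t • om)) = fun t : ℝ => ∑' k, γ k * ex k (x + t • om) :=
          funext hline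
        rw [this]
        exact hder
      have h4 := Complex.reCLM.hasFDerivAt.comp_hasDerivAt (0 : ℝ) h3
      rw [Complex.reCLM_apply, Complex.ofReal_re] at h4
      exact h4
    have hdiff : DifferentiableAt ℝ (fun x => (c0 x).re) x :=
      (Complex.reCLM.contDiff.comp hc0 : ContDiff ℝ ∞ fun x => (c0 x).re).contDiffAt.differentiableAt
        (by simp)
    have hl : HasDerivAt (fun t : ℝ => x + t • om) om 0 := by
      have h3 : HasDerivAt (fun t : ℝ => t • om) ((1 : ℝ) • om) 0 :=
        (hasDerivAt_id (0 : ℝ)).smul_const om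
      have h4 := h3.const_add x
      rwa [one_smul] at h4
    have hcomp : HasDerivAt (fun t : ℝ => (c0 (x + t • om)).re)
        (fderiv ℝ (fun x => (c0 x).re) x om) 0 := by
      have h3 : HasFDerivAt (fun x => (c0 x).re) (fderiv ℝ (fun x => (c0 x).re) x)
          (x + (0 : ℝ) • om) := by
        rw [zero_smul, add_zero]
        exact hdiff.hasFDerivAt
      exact h3.comp_hasDerivAt (0 : ℝ) hl
    exact hcomp.unique hder2

end Pool.Agent.PalT
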