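import Pool.Agent.PalT.Targets

/-!
# Tori of codimension one: COLL, basic facts about collars
-/

set_option autoImplicit false

open Set MeasureTheory Filter Topology Metric Asymptotics
open scoped Manifold ContDiff

namespace Pool.Agent.PalT

open Pool.Agent.Pal

namespace COLL_

lemma abs_coord_le {n : ℕ} (x : E n) (i : Fin n) : |x i| ≤ ‖x‖ := by
  have := EuclideanSpace.norm_eq x
  rw [this, ← Real.norm_eq_abs]
  refine Real.le_sqrt_of_sq_le ?_
  exact Finset.single_le_sum (f := fun i => ‖x i‖ ^ 2) (fun j _ => by positivity)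
    (Finset.mem_univ i)

lemma isOpen_strip (d : ℕ) (w : ℝ) : IsOpen (Strip d w) := by
  unfold Strip
  exact isOpen_lt (by fun_prop) continuous_const

lemma mem_strip_of_ball {d : ℕ} {w w' ε : ℝ} {x z : E (d + 1)} (hx : |x 0| ≤ w')
    (hz : z ∈ ball x ε) (hε : w' + ε ≤ w) : z ∈ Strip d w := by
  rw [mem_ball, dist_eq_norm] at hz
  have h1 : |z 0 - x 0| ≤ ‖z - x‖ := by
    have := abs_coord_le (z - x) 0
    simpa using this
  show |z 0| < w
  have h2 : |z 0| ≤ |z 0 - x 0| + |x 0| := by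
    have := abs_add_le (z 0 - x 0) (x 0)
    simpa using this
  linarith

lemma lat_small {d : ℕ} {v : E (d + 1)} (hv : v ∈ Lat d) (h : ‖v‖ < 1) : v = 0 := by
  ext i
  refine Fin.cases ?_ (fun i => ?_) i
  · exact hv.1
  · obtain ⟨k, hk⟩ := hv.2 i.succ
    have h1 := abs_coord_le v i.succ
    rw [hk] at h1
    have h2 : |(k : ℝ)| < 1 := lt_of_le_of_lt h1 h
    have h3 : |k| < 1 := by exact_mod_cast h2
    have h4 : k = 0 := Int.abs_lt_one_iff.1 h3
    rw [hk, h4]
    simp

section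

variable {d : ℕ} {M : Type} [TopologicalSpace M] [ChartedSpace (E (d + 1)) M]
  {w : ℝ} {T : E (d + 1) → M}

lemma map_nhds (h : Collar w T) {x : E (d + 1)} (hx : x ∈ Strip d w) :
    map T (𝓝 x) = 𝓝 (T x) := by
  obtain ⟨e, -, hxe, hT⟩ := h.2.1 x hx
  have h1 : T =ᶠ[𝓝 x] e.symm := hT
  rw [Filter.map_congr h1, h1.eq_of_nhds]
  exact e.symm.map_nhds_eq hxe

lemma contAt (h : Collar w T) {x : E (d + 1)} (hx : x ∈ Strip d w) : ContinuousAt T x :=
  (map_nhds h hx).le

lemma open_map (h : Collar w T) {O : Set (E (d + 1))} (hO : O ⊆ Strip d w) (hOo : IsOpen O) :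
    IsOpen (T '' O) := by
  rw [isOpen_iff_mem_nhds]
  rintro _ ⟨x, hx, rfl⟩
  rw [← map_nhds h (hO hx)]
  exact image_mem_map (hOo.mem_nhds hx)

/-- the translation of the angles to the unit cube -/
noncomputable def tr (d : ℕ) (x : E (d + 1)) : E (d + 1) :=
  WithLp.toLp 2 (Fin.cons 0 fun i : Fin d => -(⌊x i.succ⌋ : ℝ))

lemma tr_zero (x : E (d + 1)) : tr d x 0 = 0 := rfl

lemma tr_succ (x : E (d + 1)) (i : Fin d) : tr d x i.succ = -(⌊x i.succ⌋ : ℝ) := rfl

lemma tr_mem (x : E (d + 1)) : tr d x ∈ Lat d := by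
  refine ⟨tr_zero x, fun i => ?_⟩
  refine Fin.cases ⟨0, ?_⟩ (fun i => ⟨-⌊x i.succ⌋, ?_⟩) i
  · rw [tr_zero]
    simp
  · rw [tr_succ]
    simp

lemma compact_image (h : Collar w T) {w' : ℝ} (hw : w' < w) {C : Set (E (d + 1))}
    (hC : IsClosed C) (hCw : ∀ x ∈ C, |x 0| ≤ w') (hCl : ∀ x ∈ C, ∀ v ∈ Lat d, x + v ∈ C) :
    IsCompact (T '' C) := by
  set B : Set (E (d + 1)) := {x | ∀ i : Fin d, 0 ≤ x i.succ ∧ x i.succ ≤ 1} with hB
  have hBc : IsClosed B := by
    have : B = ⋂ i : Fin d, {x : E (d + 1) | 0 ≤ x i.succ} ∩ {x | x i.succ ≤ 1} := by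
      ext x
      simp [hB]
    rw [this]
    exact isClosed_iInter fun i =>
      (isClosed_le continuous_const (by fun_prop)).inter (isClosed_le (by fun_prop) continuous_const)
  have hCB : IsCompact (C ∩ B) := by
    rw [isCompact_iff_isClosed_bounded]
    refine ⟨hC.inter hBc, ?_⟩
    rw [isBounded_iff_forall_norm_le]
    refine ⟨√(w' ^ 2 + d), fun x hx => ?_⟩
    rw [EuclideanSpace.norm_eq]
    refine Real.sqrt_le_sqrt ?_
    rw [Fin.sum_univ_succ]
    refine add_le_add ?_ ?_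
    · rw [Real.norm_eq_abs]
      exact pow_le_pow_left₀ (abs_nonneg _) (hCw x hx.1) 2
    · calc ∑ i : Fin d, ‖x i.succ‖ ^ 2 ≤ ∑ _i : Fin d, (1 : ℝ) := by
            refine Finset.sum_le_sum fun i _ => ?_
            have h1 := hx.2 i
            rw [Real.norm_eq_abs, sq_abs]
            nlinarith [h1.1, h1.2]
        _ = d := by simp
  have h2 : T '' C = T '' (C ∩ B) := by
    refine subset_antisymm ?_ (image_mono inter_subset_left)
    rintro _ ⟨x, hx, rfl⟩
    have hx' : x + tr d x ∈ C := hCl x hx _ (tr_mem x)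
    refine ⟨x + tr d x, ⟨hx', fun i => ?_⟩, ?_⟩
    · rw [PiLp.add_apply, tr_succ]
      have h3 := Int.floor_le (x i.succ)
      have h4 := Int.lt_floor_add_one (x i.succ)
      constructor <;> linarith
    · refine (h.2.2 _ (lt_of_le_of_lt (hCw _ hx') hw) _ (lt_of_le_of_lt (hCw _ hx) hw)).2 ?_
      rw [add_sub_cancel_left]
      exact tr_mem x
  rw [h2]
  refine hCB.image_of_continuousOn fun x hx => ?_
  exact (contAt h (lt_of_le_of_lt (hCw x hx.1) hw)).continuousWithinAt

lemma inj_ball (h : Collar w T) {x : E (d + 1)} {ε : ℝ} (hε : ε ≤ 1 / 4)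
    (hb : ball x ε ⊆ Strip d w) : InjOn T (ball x ε) := by
  intro z hz z' hz' he
  have h1 := (h.2.2 z (hb hz) z' (hb hz')).1 he
  have h2 : ‖z - z'‖ < 1 := by
    have h3 := dist_triangle_right z z' x
    rw [mem_ball] at hz hz'
    rw [← dist_eq_norm]
    linarith
  exact sub_eq_zero.1 (lat_small h1 h2)

/-- the chart -/
lemma chart_ball [IsManifold 𝓘(ℝ, E (d + 1)) ∞ M] (h : Collar w T) {x : E (d + 1)} {ε : ℝ}
    (hb : ball x ε ⊆ Strip d w) (hi : InjOn T (ball x ε)) :
    ∃ e ∈ Ch (d + 1) M, e.target = ball x ε ∧ ∀ z ∈ ball x ε, T z = e.symm z := by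
  have hc : ContinuousOn T (ball x ε) := fun z hz => (contAt h (hb hz)).continuousWithinAt
  let P : PartialEquiv (E (d + 1)) M := hi.toPartialEquiv T (ball x ε)
  have hPs : P.source = ball x ε := rfl
  have hPt : ∀ z, P z = T z := fun z => rfl
  have ho : IsOpenMap (P.source.domRestrict P) := by
    intro O hO
    have h1 : P.source.domRestrict P '' O = T '' (Subtype.val '' O) := by
      rw [image_image]
      rfl
    rw [h1]
    refine open_map h ?_ ?_
    · rintro _ ⟨z, -, rfl⟩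
      exact hb z.2
    · exact (isOpen_ball : IsOpen (ball x ε)).isOpenMap_subtype_val O hO
  let f : OpenPartialHomeomorph (E (d + 1)) M :=
    OpenPartialHomeomorph.ofContinuousOpenRestrict P hc ho isOpen_ball
  have hfs : f.source = ball x ε := rfl
  have hft : ∀ z, f z = T z := fun z => rfl
  refine ⟨f.symm, ?_, hfs, fun z _ => rfl⟩
  refine OpenPartialHomeomorph.mem_maximalAtlas_of_contMDiffOn f.symm ?_ ?_
  · intro p hp
    have hp' : p ∈ f.target := hp
    set z : E (d + 1) := f.symm p with hz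
    have hzb : z ∈ ball x ε := f.map_target hp'
    have hTz : T z = p := f.right_inv hp'
    obtain ⟨e, he, hze, hT⟩ := h.2.1 z (hb hzb)
    have hpe : e.symm z = p := by rw [← hT.self_of_nhds, hTz]
    have hpes : p ∈ e.source := by
      rw [← hpe]
      exact e.map_target hze
    have hez : e p = z := by rw [← hpe, e.right_inv hze]
    have h1 : ContMDiffAt 𝓘(ℝ, E (d + 1)) 𝓘(ℝ, E (d + 1)) ∞ e p :=
      contMDiffAt_of_mem_maximalAtlas he hpes
    refine (h1.congr_of_eventuallyEq ?_).contMDiffWithinAt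
    have h2 : ∀ᶠ q in 𝓝 p, e q ∈ ball x ε ∧ T (e q) = e.symm (e q) := by
      have h3 : Tendsto e (𝓝 p) (𝓝 z) := by
        have := e.continuousAt hpes
        rw [ContinuousAt, hez] at this
        exact this
      have h4 : ∀ᶠ y in 𝓝 z, y ∈ ball x ε := isOpen_ball.mem_nhds hzb
      exact h3.eventually (h4.and hT)
    filter_upwards [h2, e.open_source.mem_nhds hpes] with q hq hqs
    have h4 : f (e q) = q := by
      rw [hft, hq.2, e.left_inv hqs]
    have h5 := f.left_inv (x := e q) hq.1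
    rw [h4] at h5
    exact h5
  · intro z hz
    have hz' : z ∈ ball x ε := hz
    obtain ⟨e, he, hze, hT⟩ := h.2.1 z (hb hz')
    have h1 : ContMDiffAt 𝓘(ℝ, E (d + 1)) 𝓘(ℝ, E (d + 1)) ∞ e.symm z :=
      contMDiffAt_symm_of_mem_maximalAtlas he hze
    exact (h1.congr_of_eventuallyEq hT).contMDiffWithinAt

end

end COLL_

open COLL_

theorem coll : T_COLL := by
  intro d M _ _ _ _ w T h
  refine ⟨fun x hx => (contAt h hx).continuousWithinAt, fun O hO hOo => open_map h hO hOo,
    fun w' hw C hC hCw hCl => compact_image h hw hC hCw hCl, fun w' hw => ?_⟩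
  refine ⟨min (1 / 4) (w - w'), lt_min (by norm_num) (by linarith), fun x hx => ?_⟩
  have hb : ball x (min (1 / 4) (w - w')) ⊆ Strip d w := fun z hz =>
    mem_strip_of_ball hx hz (by linarith [min_le_right (1 / 4) (w - w')])
  obtain ⟨e, he, het, heT⟩ := chart_ball h hb (inj_ball h (min_le_left _ _) hb)
  exact ⟨e, he, het, hb, heT⟩

end Pool.Agent.PalT
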