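import Pool.Agent.PalT.Targets

/-!
# KT-CONE: cone argument, null sets by disjoint translates
-/

set_option autoImplicit false

open Set MeasureTheory Filter Topology Metric

namespace Pool.Agent.PalT

open Pool.Agent.Pal

namespace CONE_

theorem closed {n : ℕ} (B : Set (E n)) (H : E n → E n) (hB : IsClosed B)
    (hH : ContinuousOn H B) (k : ℕ) : IsClosed {x | ∀ j ≤ k, H^[j] x ∈ B} := by
  induction k with
  | zero =>
    have : {x | ∀ j ≤ 0, H^[j] x ∈ B} = B := by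
      ext x
      simp
    rw [this]
    exact hB
  | succ k ih =>
    have : {x | ∀ j ≤ k + 1, H^[j] x ∈ B} = B ∩ H ⁻¹' {x | ∀ j ≤ k, H^[j] x ∈ B} := by
      ext x
      constructor
      · intro h
        refine ⟨h 0 (Nat.zero_le _), fun j hj => ?_⟩
        have := h (j + 1) (by omega)
        rwa [Function.iterate_succ_apply] at this
      · rintro ⟨h0, h1⟩ j hj
        rcases j with _ | j
        · exact h0
        · rw [Function.iterate_succ_apply]
          exact h1 j (by omega)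
    rw [this]
    exact hH.preimage_isClosed_of_isClosed hB ih

end CONE_

theorem cone : T_CONE := by
  intro n A hA
  obtain ⟨Pu, Ps, c, μ, lam, κ, v₀, hc, hκ, hlam, hμ, hv₀, hs₀, hnorm, hu, hsb⟩ := hA
  set g : ℝ := μ - κ - 1 with hg
  have hg0 : 0 < g := by rw [hg]; linarith
  set R : ℝ := ‖Pu‖ + ‖Ps‖ + 1 with hR
  have hR0 : 0 < R := by positivity
  have hPuR : ‖Pu‖ ≤ R := by rw [hR]; linarith [norm_nonneg Ps]
  have hPsR : ‖Ps‖ ≤ R := by rw [hR]; linarith [norm_nonneg Pu]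
  refine ⟨g * c / (4 * R), by positivity, fun B H hB hH hlip => ?_⟩
  set ε : ℝ := g * c / (4 * R) with hε
  have hε0 : 0 < ε := by positivity
  set θ : ℝ := 1 + g / 2 with hθ
  -- one step
  have step : ∀ x ∈ B, ∀ x' ∈ B, ‖Ps (x - x')‖ ≤ ‖Pu (x - x')‖ →
      ‖Ps (H x - H x')‖ ≤ ‖Pu (H x - H x')‖ ∧ θ * ‖Pu (x - x')‖ ≤ ‖Pu (H x - H x')‖ := by
    intro x hx x' hx' hcone
    set v := x - x' with hv
    set e := H x - H x' - A v with he
    have hw : H x - H x' = A v + e := by rw [he]; abel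
    have hv1 : c * ‖v‖ ≤ 2 * ‖Pu v‖ := by
      have := hnorm v
      linarith
    have he1 : ‖e‖ ≤ ε * ‖v‖ := hlip x hx x' hx'
    have he2 : R * ‖e‖ ≤ g / 2 * ‖Pu v‖ := by
      have h1 : R * ‖e‖ ≤ R * (ε * ‖v‖) := mul_le_mul_of_nonneg_left he1 hR0.le
      have h2 : R * (ε * ‖v‖) = g / 4 * (c * ‖v‖) := by
        rw [hε]
        field_simp
      have h3 : g / 4 * (c * ‖v‖) ≤ g / 4 * (2 * ‖Pu v‖) :=
        mul_le_mul_of_nonneg_left hv1 (by positivity)
      linarith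
    have hPe : ‖Pu e‖ ≤ R * ‖e‖ := (Pu.le_opNorm e).trans
      (mul_le_mul_of_nonneg_right hPuR (norm_nonneg _))
    have hSe : ‖Ps e‖ ≤ R * ‖e‖ := (Ps.le_opNorm e).trans
      (mul_le_mul_of_nonneg_right hPsR (norm_nonneg _))
    have hPv := norm_nonneg (Pu v)
    have hSv := norm_nonneg (Ps v)
    have h1 : μ * ‖Pu v‖ - κ * ‖Ps v‖ - R * ‖e‖ ≤ ‖Pu (H x - H x')‖ := by
      rw [hw, map_add]
      have := norm_sub_le (Pu (A v) + Pu e) (Pu e)
      rw [add_sub_cancel_right] at this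
      linarith [hu v]
    have h2 : ‖Ps (H x - H x')‖ ≤ ‖Ps v‖ + R * ‖e‖ := by
      rw [hw, map_add]
      refine (norm_add_le _ _).trans (add_le_add ?_ hSe)
      refine (hsb v).trans ?_
      have := mul_le_mul_of_nonneg_right hlam hSv
      linarith
    have h3 : κ * ‖Ps v‖ ≤ κ * ‖Pu v‖ := mul_le_mul_of_nonneg_left hcone hκ
    have h4 : θ * ‖Pu v‖ ≤ ‖Pu (H x - H x')‖ := by
      have : μ * ‖Pu v‖ - κ * ‖Pu v‖ - g / 2 * ‖Pu v‖ = θ * ‖Pu v‖ := by
        rw [hθ, hg]; ring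
      linarith
    have h5 : ‖Ps v‖ + R * ‖e‖ ≤ θ * ‖Pu v‖ := by
      have : θ * ‖Pu v‖ = ‖Pu v‖ + g / 2 * ‖Pu v‖ := by rw [hθ]; ring
      linarith
    exact ⟨by linarith, h4⟩
  have hθ1 : 1 < θ := by rw [hθ]; linarith
  -- iteration
  have iter : ∀ x x' : E n, (∀ k : ℕ, H^[k] x ∈ B) → (∀ k : ℕ, H^[k] x' ∈ B) →
      ‖Ps (x - x')‖ ≤ ‖Pu (x - x')‖ → ∀ k : ℕ,
      ‖Ps (H^[k] x - H^[k] x')‖ ≤ ‖Pu (H^[k] x - H^[k] x')‖ ∧
        θ ^ k * ‖Pu (x - x')‖ ≤ ‖Pu (H^[k] x - H^[k] x')‖ := by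
    intro x x' hx hx' hcone k
    induction k with
    | zero => exact ⟨hcone, by simp⟩
    | succ k ih =>
      obtain ⟨h1, h2⟩ := step _ (hx k) _ (hx' k) ih.1
      rw [Function.iterate_succ_apply', Function.iterate_succ_apply']
      refine ⟨h1, ?_⟩
      rw [pow_succ, mul_comm (θ ^ k) θ, mul_assoc]
      exact (mul_le_mul_of_nonneg_left ih.2 (by linarith)).trans h2
  obtain ⟨D, hD⟩ := hB.isBounded.exists_norm_le
  have uniq : ∀ x x' : E n, (∀ k : ℕ, H^[k] x ∈ B) → (∀ k : ℕ, H^[k] x' ∈ B) →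
      ‖Ps (x - x')‖ ≤ ‖Pu (x - x')‖ → x = x' := by
    intro x x' hx hx' hcone
    have hb : ∀ k : ℕ, θ ^ k * ‖Pu (x - x')‖ ≤ R * (2 * D) := by
      intro k
      refine (iter x x' hx hx' hcone k).2.trans ((Pu.le_opNorm _).trans ?_)
      refine mul_le_mul hPuR ?_ (norm_nonneg _) hR0.le
      refine (norm_sub_le _ _).trans ?_
      linarith [hD _ (hx k), hD _ (hx' k)]
    have hzero : ‖Pu (x - x')‖ = 0 := by
      by_contra hne
      have hpos : 0 < ‖Pu (x - x')‖ := lt_of_le_of_ne (norm_nonneg _) (Ne.symm hne)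
      obtain ⟨k, hk⟩ := pow_unbounded_of_one_lt (R * (2 * D) / ‖Pu (x - x')‖) hθ1
      rw [div_lt_iff₀ hpos] at hk
      exact absurd (hb k) (not_le.2 hk)
    have h1 := hnorm (x - x')
    have h2 : ‖x - x'‖ = 0 := by
      have h3 : c * ‖x - x'‖ ≤ 0 := by linarith
      have h4 := norm_nonneg (x - x')
      nlinarith
    exact sub_eq_zero.1 (norm_eq_zero.1 h2)
  -- the null set
  set S : Set (E n) := {x | ∀ k : ℕ, H^[k] x ∈ B} with hS
  have hSeq : S = ⋂ k : ℕ, {x | ∀ j ≤ k, H^[j] x ∈ B} := by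
    ext x
    simp only [hS, mem_ofPred_eq, mem_iInter]
    exact ⟨fun h k j _ => h j, fun h k => h k k le_rfl⟩
  have hSc : IsClosed S := by
    rw [hSeq]
    exact isClosed_iInter fun k => CONE_.closed B H hB.isClosed hH k
  refine Measure.addHaar_eq_zero_of_disjoint_translates volume
    (fun m : ℕ => ((1 : ℝ) / (m + 1)) • v₀) ?_ ?_ hSc.measurableSet
  · refine (isBounded_iff_forall_norm_le.2 ⟨‖v₀‖, ?_⟩)
    rintro _ ⟨m, rfl⟩
    rw [norm_smul, Real.norm_of_nonneg (by positivity)]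
    have h1 : (1 : ℝ) / (m + 1) ≤ 1 := by
      rw [div_le_one (by positivity)]
      have : (0 : ℝ) ≤ m := Nat.cast_nonneg m
      linarith
    nlinarith [norm_nonneg v₀]
  · intro i j hij
    rw [Function.onFun, Set.disjoint_left]
    intro z hz1 hz2
    rw [singleton_add, mem_image] at hz1 hz2
    obtain ⟨x, hx, rfl⟩ := hz1
    obtain ⟨x', hx', hxx⟩ := hz2
    have h1 : x - x' = ((1 : ℝ) / (j + 1) - 1 / (i + 1)) • v₀ := by
      rw [sub_smul]
      have h2 : x = ((1 : ℝ) / (j + 1)) • v₀ + x' - ((1 : ℝ) / (i + 1)) • v₀ := by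
        rw [hxx]; abel
      rw [h2]; abel
    have h2 : x = x' := by
      refine uniq x x' hx hx' ?_
      rw [h1, map_smul, hs₀, smul_zero, norm_zero]
      exact norm_nonneg _
    rw [h2, sub_self] at h1
    have h3 := (smul_eq_zero.1 h1.symm).resolve_right hv₀
    rw [sub_eq_zero] at h3
    have h4 : ((j : ℝ) + 1) = i + 1 := by
      have hi : ((i : ℝ) + 1) ≠ 0 := by positivity
      have hj : ((j : ℝ) + 1) ≠ 0 := by positivity
      field_simp at h3
      linarith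
    have h5 : (j : ℝ) = i := by linarith
    exact hij (Nat.cast_injective h5).symm

end Pool.Agent.PalT
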