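import Pool.Agent.PalT.TargetsF

/-!
# Straight lines on the torus are integral curves (target CURV)
-/

set_option autoImplicit false

open scoped Manifold ContDiff Topology
open MeasureTheory Set Filter Bundle Asymptotics Metric

namespace Pool.Agent.PalT

open Pool.Agent.Pal Pool.Agent.Palis Pool.Agent.PalF

namespace CURV_

variable {d : ℕ} {M : Type} [TopologicalSpace M] [ChartedSpace (E (d + 1)) M]

lemma mdiff {w : ℝ} {T : E (d + 1) → M} (hT : Collar w T) {x : E (d + 1)} (hx : x 0 = 0) :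
    MDifferentiableAt 𝓘(ℝ, E (d + 1)) 𝓘(ℝ, E (d + 1)) T x := by
  have hxs : x ∈ Strip d w := by
    show |x 0| < w
    rw [hx, abs_zero]
    exact hT.1
  obtain ⟨e, he, hxe, hTe⟩ := hT.2.1 x hxs
  have h1 : ContMDiffOn 𝓘(ℝ, E (d + 1)) 𝓘(ℝ, E (d + 1)) ∞ e.symm e.target :=
    contMDiffOn_symm_of_mem_maximalAtlas he
  have h2 : ContMDiffAt 𝓘(ℝ, E (d + 1)) 𝓘(ℝ, E (d + 1)) ∞ e.symm x :=
    h1.contMDiffAt (e.open_target.mem_nhds hxe)
  have h3 : MDifferentiableAt 𝓘(ℝ, E (d + 1)) 𝓘(ℝ, E (d + 1)) e.symm x :=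
    h2.mdifferentiableAt (by norm_num)
  exact h3.congr_of_eventuallyEq hTe

lemma line (x om : E (d + 1)) (t : ℝ) :
    HasMFDerivAt 𝓘(ℝ, ℝ) 𝓘(ℝ, E (d + 1)) (fun t : ℝ => x + t • om) t
      ((1 : ℝ →L[ℝ] ℝ).smulRight om) := by
  apply HasFDerivAt.hasMFDerivAt
  have h := ((hasDerivAt_id t).smul_const om).const_add x
  have h2 := h.hasFDerivAt
  simp only [one_smul, id] at h2
  exact h2

lemma curve {w : ℝ} {T : E (d + 1) → M} (hT : Collar w T) {x om : E (d + 1)} (hx : x 0 = 0)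
    (ho : om 0 = 0) (t : ℝ) :
    HasMFDerivAt 𝓘(ℝ, ℝ) 𝓘(ℝ, E (d + 1)) (fun t : ℝ => T (x + t • om)) t
      ((1 : ℝ →L[ℝ] ℝ).smulRight (dT T (x + t • om) om)) := by
  have hy : (x + t • om) 0 = 0 := by
    simp [hx, ho]
  have h1 := (mdiff hT hy).hasMFDerivAt
  have h2 := HasMFDerivAt.comp t h1 (line x om t)
  have h3 : ((mfderiv 𝓘(ℝ, E (d + 1)) 𝓘(ℝ, E (d + 1)) T (x + t • om)).comp
      ((1 : ℝ →L[ℝ] ℝ).smulRight om : ℝ →L[ℝ] E (d + 1))) =
      ((1 : ℝ →L[ℝ] ℝ).smulRight (dT T (x + t • om) om)) := by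
    ext
    have h4 : ((ContinuousLinearMap.smulRight (1 : ℝ →L[ℝ] ℝ) om) : ℝ →L[ℝ] E (d + 1)) 1 = om := by
      rw [ContinuousLinearMap.smulRight_apply]
      simp
    have h5 : ((1 : ℝ →L[ℝ] ℝ).smulRight (dT T (x + t • om) om : E (d + 1)) : ℝ →L[ℝ] E (d + 1)) 1 =
        dT T (x + t • om) om := by
      rw [ContinuousLinearMap.smulRight_apply]
      simp
    refine Eq.trans ?_ h5.symm
    exact congrArg (fun v => (mfderiv 𝓘(ℝ, E (d + 1)) 𝓘(ℝ, E (d + 1)) T (x + t • om)) v) h4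
  exact h3 ▸ h2

end CURV_

theorem curv (_h1 : T_COLL) : T_CURV := by
  intro d M _ _ _ _ w T X om hT ho
  constructor
  · intro h x hx
    have h1 := h x hx 0
    have h2 := CURV_.curve hT hx ho 0
    have h3 := hasMFDerivAt_unique h1 h2
    have h4 := congrArg (fun L : ℝ →L[ℝ] E (d + 1) => L 1) h3
    have key : ∀ y : E (d + 1), y = x → (X (T y) : E (d + 1)) = dT T y om →
        (X (T x) : E (d + 1)) = dT T x om := by
      intro y hy h
      subst hy
      exact h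
    refine key (x + (0 : ℝ) • om) (by simp) ?_
    have h5 : ((1 : ℝ →L[ℝ] ℝ).smulRight (X (T (x + (0 : ℝ) • om)) : E (d + 1)) : ℝ →L[ℝ] E (d + 1)) 1 =
        ((1 : ℝ →L[ℝ] ℝ).smulRight (dT T (x + (0 : ℝ) • om) om : E (d + 1)) : ℝ →L[ℝ] E (d + 1)) 1 := h4
    rw [ContinuousLinearMap.smulRight_apply, ContinuousLinearMap.smulRight_apply] at h5
    simp only [one_apply_eq_self, one_smul] at h5
    exact h5
  · intro h x hx t
    have hy : (x + t • om) 0 = 0 := by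
      simp [hx, ho]
    have h2 := CURV_.curve hT hx ho t
    rw [← h (x + t • om) hy] at h2
    exact h2

end Pool.Agent.PalT
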