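import Pool.Agent.PalT.Targets

/-!
# DER1: the composition of the lifted map and its perturbations on the torus
-/

set_option autoImplicit false

open Set MeasureTheory Filter Topology Metric Asymptotics
open scoped Manifold ContDiff

namespace Pool.Agent.PalT

open Pool.Agent.Pal

namespace DER1_

lemma strip_open (d : ℕ) (w : ℝ) : IsOpen (Strip d w) := by
  have h : Continuous fun x : E (d + 1) => |x 0| := by fun_prop
  exact isOpen_lt h continuous_const

/-- the coordinates -/
noncomputable abbrev pr (d : ℕ) (j : Fin (d + 1)) : E (d + 1) →L[ℝ] ℝ := EuclideanSpace.proj j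

/-- the derivative of a lifted map along the torus -/
lemma der_tan {d : ℕ} {w : ℝ} {α : E (d + 1)} {F : E (d + 1) → E (d + 1)}
    (hL : LiftMap d w α F) {x : E (d + 1)} (hx : x 0 = 0) {D : E (d + 1) →L[ℝ] E (d + 1)}
    (hF : HasFDerivAt F D x) {v : E (d + 1)} (hv : v 0 = 0) : D v = v := by
  have h1 : HasDerivAt (fun t : ℝ => F (x + t • v)) (D v) 0 := by
    have h2 : HasDerivAt (fun t : ℝ => x + t • v) v 0 := by
      simpa using ((hasDerivAt_id (0 : ℝ)).smul_const v).const_add x
    have h3 : HasFDerivAt F D (x + (0 : ℝ) • v) := by simpa using hF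
    exact h3.comp_hasDerivAt 0 h2
  have h4 : (fun t : ℝ => F (x + t • v)) = fun t : ℝ => x + t • v + α :=
    funext fun t => hL.zero _ (by simp [hx, hv])
  rw [h4] at h1
  have h5 : HasDerivAt (fun t : ℝ => x + t • v + α) v 0 := by
    simpa using (((hasDerivAt_id (0 : ℝ)).smul_const v).const_add x).add_const α
  exact h1.unique h5

/-- the normal derivative of a lifted map -/
lemma der_nor {d : ℕ} {w' s C : ℝ} {F : E (d + 1) → E (d + 1)} (hw' : 0 < w')
    (hs : ∀ x ∈ Strip d w', |F x 0 - s * x 0| ≤ C * x 0 ^ 2) {x : E (d + 1)} (hx : x 0 = 0)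
    {D : E (d + 1) →L[ℝ] E (d + 1)} (hF : HasFDerivAt F D x) :
    (D (EuclideanSpace.single 0 (1 : ℝ))) 0 = s := by
  set e : E (d + 1) := EuclideanSpace.single 0 (1 : ℝ) with he
  have he0 : e 0 = 1 := by simp [he]
  have h1 : HasDerivAt (fun t : ℝ => F (x + t • e)) (D e) 0 := by
    have h2 : HasDerivAt (fun t : ℝ => x + t • e) e 0 := by
      simpa using ((hasDerivAt_id (0 : ℝ)).smul_const e).const_add x
    have h3 : HasFDerivAt F D (x + (0 : ℝ) • e) := by simpa using hF
    exact h3.comp_hasDerivAt 0 h2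
  have h2 : HasDerivAt (fun t : ℝ => F (x + t • e) 0) ((D e) 0) 0 := by
    have h3 := (pr d 0).hasFDerivAt.comp_hasDerivAt (0 : ℝ) h1
    exact h3
  have h3 : HasDerivAt (fun t : ℝ => F (x + t • e) 0 - s * t) ((D e) 0 - s) 0 := by
    have h4 : HasDerivAt (fun t : ℝ => s * t) s 0 := by
      simpa using (hasDerivAt_id (0 : ℝ)).const_mul s
    exact h2.sub h4
  have h5 : (fun t : ℝ => F (x + t • e) 0 - s * t) =O[𝓝 0] fun t : ℝ => ‖t - 0‖ ^ 2 := by
    refine IsBigO.of_bound C ?_
    have h6 : ∀ᶠ t : ℝ in 𝓝 0, |t| < w' := by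
      have := Metric.ball_mem_nhds (0 : ℝ) hw'
      filter_upwards [this] with t ht
      simpa using ht
    filter_upwards [h6] with t ht
    have h7 : (x + t • e) 0 = t := by simp [hx, he0]
    have h8 := hs (x + t • e) (by
      show |(x + t • e) 0| < w'
      rw [h7]
      exact ht)
    rw [h7] at h8
    rw [Real.norm_eq_abs, sub_zero, norm_pow, norm_norm, Real.norm_eq_abs, sq_abs]
    exact h8
  have h6 : HasDerivAt (fun t : ℝ => F (x + t • e) 0 - s * t) 0 0 := by
    have h7 := (h5.hasFDerivAt (by norm_num : (1 : ℕ) < 2)).hasDerivAt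
    simpa using h7
  have h7 := h3.unique h6
  linarith

lemma radT_zero {d : ℕ} (a : ℝ → ℝ) (κ ρ : ℝ) (x : E (d + 1)) :
    (radT a κ ρ x) 0 = x 0 - κ * a (x 0 ^ 2 / ρ ^ 2) * x 0 := by
  simp [radT]

lemma radT_succ {d : ℕ} (a : ℝ → ℝ) (κ ρ : ℝ) (x : E (d + 1)) (i : Fin d) :
    (radT a κ ρ x) i.succ = x i.succ := by
  simp [radT, Fin.succ_ne_zero]

lemma radT_diff {d : ℕ} {a : ℝ → ℝ} (ha : ContDiff ℝ ∞ a) (κ ρ : ℝ) :
    Differentiable ℝ (radT (d := d) a κ ρ) := by
  have h1 : Differentiable ℝ a := ha.differentiable (by simp)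
  have h0 : Differentiable ℝ fun x : E (d + 1) => x 0 := by fun_prop
  have h2 : Differentiable ℝ fun x : E (d + 1) => x 0 ^ 2 / ρ ^ 2 := by fun_prop
  have h3 : Differentiable ℝ fun x : E (d + 1) => a (x 0 ^ 2 / ρ ^ 2) := h1.comp h2
  unfold radT
  exact differentiable_id.sub (((h3.const_mul _).mul h0).smul_const _)

end DER1_

open DER1_

theorem der1 : T_DER1 := by
  intro d w s ρ κ α F a c κ₀ q p η Q hL hs hsx hP hκ hκ₀ hρ hM x hx
  obtain ⟨C, w', hw', hC⟩ := hsx
  have hxs : x ∈ Strip d w := by
    show |x 0| < w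
    rw [hx, abs_zero]
    exact hL.pos
  have hFx : F x = x + α := hL.zero x hx
  have hFx0 : F x 0 = 0 := by rw [hFx]; simp [hx, hL.alpha]
  have hFxi : ∀ i : Fin d, F x i.succ - α i.succ = x i.succ := fun i => by rw [hFx]; simp
  set D := fderiv ℝ F x with hD
  have hFd : DifferentiableAt ℝ F x :=
    (hL.smooth.differentiableOn (by simp)).differentiableAt ((strip_open d w).mem_nhds hxs)
  have hFD : HasFDerivAt F D x := hFd.hasFDerivAt
  have hqpos : ∀ i, (0 : ℝ) < q i := fun i => by
    have := hM.two_le i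
    exact_mod_cast (by omega : 0 < q i)
  -- the coordinates
  have hG0 : ∀ y, (radT a κ ρ (Q (F y))) 0 =
      F y 0 - κ * a (F y 0 ^ 2 / ρ ^ 2) * F y 0 := fun y => by
    rw [radT_zero, hM.zero]
  have hGi : ∀ y, |F y 0| ≤ ρ / 4 → ∀ i : Fin d, (radT a κ ρ (Q (F y))) i.succ =
      F y i.succ + (p i / q i - α i.succ) -
      η / (2 * Real.pi * q i) * Real.sin (2 * Real.pi * q i * (F y i.succ - α i.succ)) :=
    fun y hy i => by rw [radT_succ, hM.near _ hy]
  refine ⟨?_, ?_, ?_⟩
  · rw [hG0, hFx0]
    ring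
  · intro i
    rw [hGi x (by rw [hFx0, abs_zero]; positivity) i, hFxi]
    have : F x i.succ = x i.succ + α i.succ := by rw [hFx]; simp
    rw [this]
    ring
  · set G : E (d + 1) → E (d + 1) := fun y => radT a κ ρ (Q (F y)) with hGdef
    have hQd : Differentiable ℝ Q := hM.mod.1.differentiable (by simp)
    have hGd : DifferentiableAt ℝ G x :=
      (radT_diff hP.smooth κ ρ).differentiableAt.comp x (hQd.differentiableAt.comp x hFd)
    set A := fderiv ℝ G x with hA
    have hGA : HasFDerivAt G A x := hGd.hasFDerivAt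
    have hF0 : HasFDerivAt (fun y => F y 0)
        ((pr d 0).comp D) x :=
      (pr d 0).hasFDerivAt.comp x hFD
    have hFi : ∀ i : Fin d, HasFDerivAt (fun y => F y i.succ)
        ((pr d i.succ).comp D) x :=
      fun i => (pr d i.succ).hasFDerivAt.comp x hFD
    -- the component 0
    have h0 : ∀ v, (A v) 0 = (1 - κ * a 0) * (D v) 0 := by
      have had : DifferentiableAt ℝ a 0 := (hP.smooth.differentiable (by simp)) 0
      have hφ : HasDerivAt (fun t : ℝ => t - κ * a (t ^ 2 / ρ ^ 2) * t) (1 - κ * a 0) 0 := by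
        have h1 : HasDerivAt (fun t : ℝ => t ^ 2 / ρ ^ 2) 0 0 := by
          simpa using ((hasDerivAt_id (0 : ℝ)).pow 2).div_const (ρ ^ 2)
        have h2 : HasDerivAt (fun t : ℝ => a (t ^ 2 / ρ ^ 2)) 0 0 := by
          have h3 : HasDerivAt a (deriv a 0) ((0 : ℝ) ^ 2 / ρ ^ 2) := by
            simpa using had.hasDerivAt
          have h4 := h3.comp (0 : ℝ) h1
          rw [mul_zero] at h4
          exact h4
        have h4 : HasDerivAt (fun t : ℝ => t - κ * a (t ^ 2 / ρ ^ 2) * t)
            (1 - (κ * 0 * (0 : ℝ) + κ * a ((0 : ℝ) ^ 2 / ρ ^ 2) * 1)) 0 :=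
          (hasDerivAt_id (0 : ℝ)).sub ((h2.const_mul κ).mul (hasDerivAt_id (0 : ℝ)))
        have e : (1 - (κ * 0 * (0 : ℝ) + κ * a ((0 : ℝ) ^ 2 / ρ ^ 2) * 1)) = 1 - κ * a 0 := by
          norm_num
        rwa [e] at h4
      have h1 : HasFDerivAt (fun y => F y 0 - κ * a (F y 0 ^ 2 / ρ ^ 2) * F y 0)
          ((1 - κ * a 0) • (pr d 0).comp D) x := by
        have h2 : HasDerivAt (fun t : ℝ => t - κ * a (t ^ 2 / ρ ^ 2) * t) (1 - κ * a 0)
            (F x 0) := by
          rw [hFx0]
          exact hφ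
        exact h2.comp_hasFDerivAt x hF0
      have h2 : HasFDerivAt (fun y => G y 0)
          ((pr d 0).comp A) x :=
        (pr d 0).hasFDerivAt.comp x hGA
      have h3 : (fun y => G y 0) = fun y => F y 0 - κ * a (F y 0 ^ 2 / ρ ^ 2) * F y 0 :=
        funext hG0
      rw [h3] at h2
      have h4 := h2.unique h1
      intro v
      have h5 := congrArg (fun B => B v) h4
      simpa using h5
    -- the other components
    have hi : ∀ (i : Fin d) v, (A v) i.succ =
        (1 - η * Real.cos (2 * Real.pi * q i * x i.succ)) * (D v) i.succ := by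
      intro i
      set μ : ℝ := 2 * Real.pi * q i with hμ
      have hμ0 : μ ≠ 0 := by
        have := hqpos i
        positivity
      have hψ : HasDerivAt (fun t : ℝ => t + (p i / q i - α i.succ) -
          η / μ * Real.sin (μ * (t - α i.succ))) (1 - η * Real.cos (μ * x i.succ))
          (F x i.succ) := by
        have h1 : HasDerivAt (fun t : ℝ => μ * (t - α i.succ)) μ (F x i.succ) := by
          simpa using ((hasDerivAt_id (F x i.succ)).sub_const (α i.succ)).const_mul μ
        have h2 := ((Real.hasDerivAt_sin (μ * (F x i.succ - α i.succ))).comp (F x i.succ)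
          h1).const_mul (η / μ)
        have h3 := ((hasDerivAt_id (F x i.succ)).add_const (p i / q i - α i.succ)).sub h2
        rw [hFxi] at h3
        have e : η / μ * (Real.cos (μ * x i.succ) * μ) = η * Real.cos (μ * x i.succ) := by
          field_simp
        rw [e] at h3
        exact h3
      have h1 := hψ.comp_hasFDerivAt x (hFi i)
      have h2 : HasFDerivAt (fun y => G y i.succ)
          ((pr d i.succ).comp A) x :=
        (pr d i.succ).hasFDerivAt.comp x hGA
      have h3 : (fun y => G y i.succ) =ᶠ[𝓝 x] ((fun t : ℝ => t + (p i / q i - α i.succ) -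
          η / μ * Real.sin (μ * (t - α i.succ))) ∘ fun y => F y i.succ) := by
        have h4 : ∀ᶠ y in 𝓝 x, |F y 0| < ρ / 4 := by
          have h5 : ContinuousAt (fun y => |F y 0|) x := hF0.continuousAt.abs
          refine h5.eventually_lt continuousAt_const ?_
          rw [hFx0, abs_zero]
          positivity
        filter_upwards [h4] with y hy
        exact hGi y hy.le i
      have h4 := (h2.congr_of_eventuallyEq h3.symm).unique h1
      intro v
      have h5 := congrArg (fun B => B v) h4
      simpa using h5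
    have hdec : ∀ v : E (d + 1), (D v) 0 = s * v 0 ∧ ∀ i : Fin d, (D v) i.succ =
        v i.succ + (D (EuclideanSpace.single 0 (1 : ℝ))) i.succ * v 0 := by
      intro v
      set e : E (d + 1) := EuclideanSpace.single 0 (1 : ℝ) with he
      have he0 : e 0 = 1 := by simp [he]
      have hei : ∀ i : Fin d, e i.succ = 0 := fun i => by simp [he, Fin.succ_ne_zero]
      have h1 : D (v - v 0 • e) = v - v 0 • e := der_tan hL hx hFD (by simp [he0])
      have h2 : D v = v - v 0 • e + v 0 • D e := by
        rw [map_sub, map_smul] at h1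
        rw [← h1]
        abel
      have h3 : (D e) 0 = s := der_nor hw' hC hx hFD
      constructor
      · rw [h2]
        simp [he0, h3]
        ring
      · intro i
        rw [h2]
        simp [hei]
        ring
    refine ⟨A, hGA, fun i => (1 - η * Real.cos (2 * Real.pi * q i * x i.succ)) *
      (D (EuclideanSpace.single 0 (1 : ℝ))) i.succ, fun v => ⟨?_, fun i => ?_⟩⟩
    · rw [h0, (hdec v).1]
      ring
    · rw [hi, (hdec v).2 i]
      ring

end Pool.Agent.PalT
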