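import Pool.Agent.PalT.Targets

set_option autoImplicit false

open Set MeasureTheory Filter Topology
open scoped Manifold ContDiff

namespace Pool.Agent.PalT

open Pool.Agent.Pal

namespace DERE_

lemma tri_comp {d : ℕ} {A B : E (d + 1) →L[ℝ] E (d + 1)} {lam lam' : ℝ} {mu mu' : Fin d → ℝ}
    (hA : Tri A lam mu) (hB : Tri B lam' mu') :
    Tri (B.comp A) (lam' * lam) (fun i => mu' i * mu i) := by
  obtain ⟨c, hc⟩ := hA
  obtain ⟨c', hc'⟩ := hB
  refine ⟨fun i => mu' i * c i + c' i * lam, fun v => ⟨?_, fun i => ?_⟩⟩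
  · rw [ContinuousLinearMap.comp_apply, (hc' _).1, (hc v).1]
    ring
  · rw [ContinuousLinearMap.comp_apply, (hc' _).2 i, (hc v).1, (hc v).2 i]
    ring

lemma tri_id {d : ℕ} : Tri (ContinuousLinearMap.id ℝ (E (d + 1))) 1 (fun _ : Fin d => 1) :=
  ⟨fun _ => 0, fun v => ⟨by simp, fun i => by simp⟩⟩

end DERE_

open DERE_ in
theorem dere (h1 : T_DER1) : T_DERE := by
  intro d w s ρ κ α F a c κ₀ q p η Q hF hs hC ha hκ hκ' hρ hQ G hG x hx
  have hD := h1 d w s ρ κ α F a c κ₀ q p η Q hF hs hC ha hκ hκ' hρ hQ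
  have hG0 : ∀ y : E (d + 1), y 0 = 0 → (G y) 0 = 0 := by
    intro y hy
    rw [hG]
    exact (hD y hy).1
  have hGi : ∀ y : E (d + 1), y 0 = 0 → ∀ i : Fin d, (G y) i.succ = y i.succ + p i / q i -
      η / (2 * Real.pi * q i) * Real.sin (2 * Real.pi * q i * y i.succ) := by
    intro y hy
    rw [hG]
    exact (hD y hy).2.1
  have hGA : ∀ y : E (d + 1), y 0 = 0 → ∃ A : E (d + 1) →L[ℝ] E (d + 1), HasFDerivAt G A y ∧
      Tri A (s * (1 - κ * a 0)) (fun i => 1 - η * Real.cos (2 * Real.pi * q i * y i.succ)) := by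
    intro y hy
    rw [hG]
    exact (hD y hy).2.2
  have hqpos : ∀ i, 0 < q i := fun i => lt_of_lt_of_le (by norm_num) (hQ.two_le i)
  have hq0 : ∀ i, (q i : ℝ) ≠ 0 := fun i => by
    have := hqpos i
    positivity
  -- one step
  have hsin : ∀ y ∈ MSPt d q, ∀ i : Fin d, Real.sin (2 * Real.pi * q i * y i.succ) = 0 := by
    intro y hy i
    obtain ⟨k, hk⟩ := hy.2 i
    have e : 2 * Real.pi * q i * y i.succ = k * Real.pi := by
      rw [← hk]
      ring
    rw [e]
    exact Real.sin_int_mul_pi k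
  have hstep : ∀ y ∈ MSPt d q, ∀ i : Fin d, (G y) i.succ = y i.succ + p i / q i := by
    intro y hy i
    rw [hGi y hy.1 i, hsin y hy i, mul_zero, sub_zero]
  have hmem : ∀ y ∈ MSPt d q, G y ∈ MSPt d q := by
    intro y hy
    refine ⟨hG0 y hy.1, fun i => ?_⟩
    obtain ⟨k, hk⟩ := hy.2 i
    refine ⟨k + 2 * p i, ?_⟩
    rw [hstep y hy i]
    push_cast
    rw [← hk]
    have := hq0 i
    field_simp
  have hit : ∀ k : ℕ, G^[k] x ∈ MSPt d q ∧
      ∀ i : Fin d, (G^[k] x) i.succ = x i.succ + k * (p i / q i) := by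
    intro k
    induction k with
    | zero => exact ⟨hx, fun i => by simp⟩
    | succ k ih =>
      rw [Function.iterate_succ_apply']
      refine ⟨hmem _ ih.1, fun i => ?_⟩
      rw [hstep _ ih.1 i, ih.2 i]
      push_cast
      ring
  have hcos : ∀ (k : ℕ) (i : Fin d), Real.cos (2 * Real.pi * q i * (G^[k] x) i.succ)
      = Real.cos (2 * Real.pi * q i * x i.succ) := by
    intro k i
    have e : 2 * Real.pi * q i * (G^[k] x) i.succ
        = 2 * Real.pi * q i * x i.succ + ((k : ℤ) * p i : ℤ) * (2 * Real.pi) := by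
      rw [(hit k).2 i]
      have := hq0 i
      push_cast
      field_simp
    rw [e, Real.cos_add_int_mul_two_pi]
  have hder : ∀ k : ℕ, ∃ A : E (d + 1) →L[ℝ] E (d + 1), HasFDerivAt G^[k] A x ∧
      Tri A ((s * (1 - κ * a 0)) ^ k)
        (fun i => (1 - η * Real.cos (2 * Real.pi * q i * x i.succ)) ^ k) := by
    intro k
    induction k with
    | zero =>
      refine ⟨ContinuousLinearMap.id ℝ _, hasFDerivAt_id x, ?_⟩
      simpa using tri_id
    | succ k ih =>
      obtain ⟨A, hA, hA'⟩ := ih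
      obtain ⟨B, hB, hB'⟩ := hGA (G^[k] x) (hit k).1.1
      refine ⟨B.comp A, ?_, ?_⟩
      · rw [Function.iterate_succ']
        exact hB.comp x hA
      · have h2 := tri_comp hA' hB'
        rw [pow_succ']
        convert h2 using 2 with i
        rw [hcos k i, pow_succ']
  set N : ℕ := ∏ i, q i with hN
  have hNpos : 0 < N := Finset.prod_pos fun i _ => hqpos i
  refine ⟨hmem x hx, ⟨G^[N] x - x, ?_, by abel⟩, fun k => (hit k).1.1, ?_, ?_⟩
  · refine ⟨?_, ?_⟩
    · show (G^[N] x) 0 - x 0 = 0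
      rw [(hit N).1.1, hx.1, sub_zero]
    · intro i
      refine Fin.cases ?_ (fun i => ?_) i
      · refine ⟨0, ?_⟩
        show (G^[N] x) 0 - x 0 = _
        rw [(hit N).1.1, hx.1]
        simp
      · obtain ⟨t, ht⟩ : q i ∣ N := Finset.dvd_prod_of_mem q (Finset.mem_univ i)
        refine ⟨t * p i, ?_⟩
        show (G^[N] x) i.succ - x i.succ = _
        rw [(hit N).2 i, ht]
        have := hq0 i
        push_cast
        field_simp
        ring
  · obtain ⟨A, hA, hA'⟩ := hder N
    refine ⟨A, _, hA, ?_, hA'⟩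
    rw [abs_pow, abs_mul]
    have hs1 : |s| = 1 := by
      rcases hs with h | h <;> rw [h] <;> simp
    rw [hs1, one_mul]
    have ha0 : 0 < a 0 := lt_of_lt_of_le ha.c_pos (ha.low 0 (by norm_num))
    have ha1 : a 0 ≤ 1 := ha.le_one 0
    have hk1 : κ ≤ 1 / 2 := hκ'.trans ha.κ_le
    have h2 : 0 < κ * a 0 := mul_pos hκ ha0
    have h3 : κ * a 0 ≤ 1 / 2 := by nlinarith
    have h4 : |1 - κ * a 0| < 1 := by
      rw [abs_lt]
      constructor <;> linarith
    exact pow_lt_one₀ (abs_nonneg _) h4 hNpos.ne'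
  · intro hc1
    have hn : ∀ i : Fin d, ∃ n : ℤ, x i.succ = n / q i := by
      intro i
      obtain ⟨n, hn⟩ := (Real.cos_eq_one_iff _).1 (hc1 i)
      refine ⟨n, ?_⟩
      rw [eq_div_iff (hq0 i)]
      have hpi := Real.pi_pos
      have e : (2 * Real.pi) * (x i.succ * q i) = (2 * Real.pi) * n := by
        linarith
      exact mul_left_cancel₀ (by positivity) e
    choose n hn using hn
    have hu : ∀ i : Fin d, ∃ m : ℕ, (q i : ℤ) ∣ n i + m * p i := by
      intro i
      obtain ⟨u, v, huv⟩ := hQ.unit i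
      have hqz : (0 : ℤ) < q i := by exact_mod_cast hqpos i
      refine ⟨((-(u * n i)) % (q i : ℤ)).toNat, ?_⟩
      rw [Int.toNat_of_nonneg (Int.emod_nonneg _ hqz.ne')]
      have h5 : (-(u * n i)) % (q i : ℤ) = -(u * n i) - q i * (-(u * n i) / q i) := by
        have := Int.emod_add_mul_ediv (-(u * n i)) (q i : ℤ)
        linarith
      rw [h5]
      refine ⟨v * n i - p i * (-(u * n i) / q i), ?_⟩
      have h6 : n i = n i * (u * p i + v * q i) := by rw [huv, mul_one]
      linear_combination h6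
    choose m hm using hu
    obtain ⟨k, hk⟩ := Nat.chineseRemainderOfFinset m q Finset.univ (fun i _ => (hqpos i).ne')
      (fun i _ j _ hij => hQ.coprime i j hij)
    refine ⟨k, (hit k).1.1, ?_⟩
    intro i
    refine Fin.cases ?_ (fun i => ?_) i
    · exact ⟨0, by rw [(hit k).1.1]; simp⟩
    · have h7 : (q i : ℤ) ∣ n i + k * p i := by
        have h8 := hk i (Finset.mem_univ i)
        have h9 : (q i : ℤ) ∣ (k : ℤ) - m i := by
          have := (Nat.modEq_iff_dvd.1 h8.symm)
          exact this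
        have e : n i + k * p i = (n i + m i * p i) + (k - m i) * p i := by ring
        rw [e]
        exact dvd_add (hm i) (h9.mul_right _)
      obtain ⟨t, ht⟩ := h7
      refine ⟨t, ?_⟩
      rw [(hit k).2 i, hn i]
      have h10 : (n i : ℝ) + k * p i = q i * t := by exact_mod_cast ht
      have := hq0 i
      field_simp
      linarith

end Pool.Agent.PalT
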