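import Pool.Agent.PalT.Targets

/-!
# Tori of codimension one: DIO, Diophantine vectors are dense
-/

set_option autoImplicit false

open Set MeasureTheory Filter Topology Metric Asymptotics
open scoped Manifold ContDiff

namespace Pool.Agent.PalT

open Pool.Agent.Pal

namespace DIO_

/-! ### summable weights on `ℤ ^ d` -/

/-- the weights in one variable -/
noncomputable def wt1 (n : ℤ) : ℝ := ((1 + |(n : ℝ)|) ^ 2)⁻¹

lemma wt1_pos (n : ℤ) : 0 < wt1 n := by
  unfold wt1
  positivity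

lemma wt1_summable : Summable wt1 := by
  have h1 : Summable fun n : ℕ => (((n : ℝ) + 1) ^ 2)⁻¹ := by
    have h2 : Summable fun n : ℕ => (((n : ℕ) : ℝ) ^ 2)⁻¹ := by
      have := Real.summable_nat_pow_inv (p := 2)
      exact this.2 (by norm_num)
    have h3 := (summable_nat_add_iff 1).2 h2
    refine h3.congr fun n => ?_
    push_cast
    rfl
  refine Summable.of_nat_of_neg ?_ ?_
  · refine h1.congr fun n => ?_
    unfold wt1
    rw [Int.cast_natCast, abs_of_nonneg (Nat.cast_nonneg n), add_comm]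
  · refine h1.congr fun n => ?_
    unfold wt1
    rw [Int.cast_neg, abs_neg, Int.cast_natCast, abs_of_nonneg (Nat.cast_nonneg n), add_comm]

/-- the weights -/
noncomputable def wt {d : ℕ} (k : Fin d → ℤ) : ℝ := ∏ i, wt1 (k i)

lemma wt_pos {d : ℕ} (k : Fin d → ℤ) : 0 < wt k := Finset.prod_pos fun i _ => wt1_pos (k i)

lemma wt_summable (d : ℕ) : Summable (wt : (Fin d → ℤ) → ℝ) := by
  induction d with
  | zero => exact Summable.of_finite
  | succ d ih =>
    have h1 : Summable fun p : ℤ × (Fin d → ℤ) => wt1 p.1 * wt p.2 :=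
      wt1_summable.mul_of_nonneg ih (fun n => (wt1_pos n).le) fun k => (wt_pos k).le
    rw [← (Fin.consEquiv (fun _ : Fin (d + 1) => ℤ)).summable_iff]
    refine h1.congr fun p => ?_
    unfold wt
    rw [Function.comp_apply, Fin.prod_univ_succ]
    rfl

/-- lower bound of the weights -/
lemma wt_lower {d : ℕ} {k : Fin d → ℤ} (hk : k ≠ 0) : 1 ≤ (4 : ℝ) ^ d * ‖k‖ ^ (2 * d) * wt k := by
  have hn : 1 ≤ ‖k‖ := by
    obtain ⟨i, hi⟩ := Function.ne_iff.1 hk
    have h1 : ‖k i‖ ≤ ‖k‖ := norm_le_pi_norm k i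
    have h2 : (1 : ℝ) ≤ ‖k i‖ := by
      rw [Int.norm_eq_abs, ← Int.cast_abs]
      exact_mod_cast Int.one_le_abs hi
    exact h2.trans h1
  have h3 : ∀ i, (4 * ‖k‖ ^ 2)⁻¹ ≤ wt1 (k i) := by
    intro i
    unfold wt1
    refine inv_anti₀ (by positivity) ?_
    have h1 : |(k i : ℝ)| ≤ ‖k‖ := by
      have := norm_le_pi_norm k i
      rwa [Int.norm_eq_abs] at this
    have h2 : 1 + |(k i : ℝ)| ≤ 2 * ‖k‖ := by linarith
    calc (1 + |(k i : ℝ)|) ^ 2 ≤ (2 * ‖k‖) ^ 2 := pow_le_pow_left₀ (by positivity) h2 2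
      _ = 4 * ‖k‖ ^ 2 := by ring
  have h4 : ((4 * ‖k‖ ^ 2)⁻¹) ^ d ≤ wt k := by
    unfold wt
    calc ((4 * ‖k‖ ^ 2)⁻¹) ^ d = ∏ _i : Fin d, (4 * ‖k‖ ^ 2)⁻¹ := by simp
      _ ≤ ∏ i, wt1 (k i) := Finset.prod_le_prod (fun i _ => by positivity) fun i _ => h3 i
  have h5 : (4 : ℝ) ^ d * ‖k‖ ^ (2 * d) = (4 * ‖k‖ ^ 2) ^ d := by
    rw [mul_pow, pow_mul]
  rw [h5]
  calc (1 : ℝ) = (4 * ‖k‖ ^ 2) ^ d * ((4 * ‖k‖ ^ 2)⁻¹) ^ d := by
        rw [← mul_pow, mul_inv_cancel₀ (by positivity), one_pow]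
    _ ≤ _ := mul_le_mul_of_nonneg_left h4 (by positivity)

/-! ### characters of the torus -/

/-- the torus -/
abbrev TT (d : ℕ) : Type := Fin d → UnitAddCircle

/-- the character -/
noncomputable def chr {d : ℕ} (k : Fin d → ℤ) : TT d →+ UnitAddCircle where
  toFun x := ∑ i, k i • x i
  map_zero' := by simp
  map_add' x y := by simp [smul_add, Finset.sum_add_distrib]

lemma chr_apply {d : ℕ} (k : Fin d → ℤ) (x : TT d) : chr k x = ∑ i, k i • x i := rfl

lemma chr_cont {d : ℕ} (k : Fin d → ℤ) : Continuous (chr k) := by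
  have h : (chr k : TT d → UnitAddCircle) = fun x => ∑ i, k i • x i := rfl
  rw [h]
  exact continuous_finsetSum _ fun i _ => (continuous_apply i).zsmul (k i)

lemma chr_coe {d : ℕ} (k : Fin d → ℤ) (β : Fin d → ℝ) :
    chr k (fun i => (β i : UnitAddCircle)) = ((∑ i, (k i : ℝ) * β i : ℝ) : UnitAddCircle) := by
  have h : ∀ s : Finset (Fin d), ((∑ i ∈ s, (k i : ℝ) * β i : ℝ) : UnitAddCircle) =
      ∑ i ∈ s, k i • (β i : UnitAddCircle) := by
    intro s
    induction s using Finset.induction_on with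
    | empty => simp
    | insert a s ha ih =>
      rw [Finset.sum_insert ha, Finset.sum_insert ha, AddCircle.coe_add, ih, ← AddCircle.coe_zsmul,
        zsmul_eq_mul]
  rw [chr_apply, h]

lemma chr_surj {d : ℕ} {k : Fin d → ℤ} (hk : k ≠ 0) : Function.Surjective (chr k) := by
  obtain ⟨i, hi⟩ := Function.ne_iff.1 hk
  intro y
  obtain ⟨t, rfl⟩ := QuotientAddGroup.mk_surjective y
  refine ⟨fun j => (((if j = i then t / k i else 0 : ℝ)) : UnitAddCircle), ?_⟩
  rw [chr_coe]
  have h1 : ∑ j, (k j : ℝ) * (if j = i then t / k i else 0) = t := by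
    rw [Finset.sum_eq_single i]
    · rw [if_pos rfl, mul_div_cancel₀]
      exact_mod_cast hi
    · intro j _ hj
      rw [if_neg hj, mul_zero]
    · intro h
      exact absurd (Finset.mem_univ i) h
  rw [h1]

lemma bad_measure {d : ℕ} {k : Fin d → ℤ} (hk : k ≠ 0) (δ : ℝ) :
    volume {x : TT d | ‖chr k x‖ ≤ δ} ≤ ENNReal.ofReal (2 * δ) := by
  have hmp : MeasurePreserving (chr k) (volume : Measure (TT d))
      (volume : Measure UnitAddCircle) := by
    refine AddMonoidHom.measurePreserving (chr_cont k) (chr_surj hk) ?_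
    rw [UnitAddCircle.measure_univ, volume_pi, Measure.pi_univ]
    simp
  have h1 : {x : TT d | ‖chr k x‖ ≤ δ} = chr k ⁻¹' closedBall (0 : UnitAddCircle) δ := by
    ext x
    simp
  rw [h1, hmp.measure_preimage measurableSet_closedBall.nullMeasurableSet,
    AddCircle.volume_closedBall]
  exact ENNReal.ofReal_le_ofReal (min_le_right _ _)

end DIO_

open DIO_

theorem dio : T_DIO := by
  intro d α ε hε
  set O : Set (TT d) := Set.pi univ fun i =>
    (fun t : ℝ => (t : UnitAddCircle)) '' ball (α i) ε with hO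
  have hOo : IsOpen O := by
    refine isOpen_set_pi finite_univ fun i _ => ?_
    exact QuotientAddGroup.isOpenMap_coe _ isOpen_ball
  have hOne : O.Nonempty := ⟨fun i => (α i : UnitAddCircle), fun i _ => ⟨α i, mem_ball_self hε, rfl⟩⟩
  have hOpos : 0 < volume O := hOo.measure_pos _ hOne
  set W : ℝ := ∑' k : Fin d → ℤ, wt k with hW
  have hWs := wt_summable d
  have hW0 : 0 < W := hWs.tsum_pos (fun k => (wt_pos k).le) 0 (wt_pos 0)
  -- the constant
  obtain ⟨c, hc, hcO⟩ : ∃ c : ℝ, 0 < c ∧ ENNReal.ofReal (2 * c * W) < volume O := by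
    obtain ⟨r, hr0, hr⟩ := ENNReal.lt_iff_exists_real_btwn.1 hOpos
    have hr1 : 0 < r := ENNReal.ofReal_pos.1 (by simpa using hr.1)
    refine ⟨r / (2 * W), by positivity, ?_⟩
    have h1 : 2 * (r / (2 * W)) * W = r := by field_simp
    rw [h1]
    exact hr.2
  have hbad : volume (⋃ k ∈ {k : Fin d → ℤ | k ≠ 0}, {x : TT d | ‖chr k x‖ ≤ c * wt k}) <
      volume O := by
    refine lt_of_le_of_lt ?_ hcO
    calc volume (⋃ k ∈ {k : Fin d → ℤ | k ≠ 0}, {x : TT d | ‖chr k x‖ ≤ c * wt k})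
        ≤ ∑' k : {k : Fin d → ℤ | k ≠ 0}, volume {x : TT d | ‖chr (k : Fin d → ℤ) x‖ ≤ c * wt (k : Fin d → ℤ)} :=
          measure_biUnion_le _ (to_countable _) _
      _ ≤ ∑' k : {k : Fin d → ℤ | k ≠ 0}, ENNReal.ofReal (2 * (c * wt (k : Fin d → ℤ))) :=
          ENNReal.tsum_le_tsum fun k => bad_measure k.2 _
      _ ≤ ∑' k : Fin d → ℤ, ENNReal.ofReal (2 * (c * wt k)) :=
          ENNReal.tsum_comp_le_tsum_of_injective Subtype.val_injective _
      _ = ENNReal.ofReal (2 * c * W) := by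
          rw [← ENNReal.ofReal_tsum_of_nonneg]
          · congr 1
            rw [hW, ← tsum_mul_left]
            exact tsum_congr fun k => by ring
          · intro k
            have := wt_pos k
            positivity
          · exact (hWs.mul_left c).mul_left 2
  obtain ⟨x, hxO, hxB⟩ := Set.not_subset.1 (fun h : O ⊆ _ => not_le.2 hbad (measure_mono h))
  choose β hβ using fun i => hxO i (mem_univ i)
  have hxβ : x = fun i => (β i : UnitAddCircle) := funext fun i => (hβ i).2.symm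
  refine ⟨β, ⟨c / 4 ^ d, 2 * d, by positivity, fun k hk l => ?_⟩, fun i => ?_⟩
  · have h1 : c * wt k < ‖chr k x‖ := by
      by_contra h
      exact hxB (mem_biUnion (show k ∈ {k : Fin d → ℤ | k ≠ 0} from hk) (not_lt.1 h))
    rw [hxβ, chr_coe, UnitAddCircle.norm_eq] at h1
    have h2 := h1.le.trans (round_le _ l)
    have h3 := wt_lower hk
    have h4 : c / 4 ^ d ≤ ‖k‖ ^ (2 * d) * (c * wt k) := by
      rw [div_le_iff₀ (by positivity)]
      nlinarith
    exact h4.trans (mul_le_mul_of_nonneg_left h2 (by positivity))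
  · have h1 := (hβ i).1
    rwa [mem_ball, Real.dist_eq] at h1

end Pool.Agent.PalT
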