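import Pool.Agent.Pal.Targets2

/-!
# Tori of codimension one: definitions
-/

set_option autoImplicit false

open Set MeasureTheory Filter Topology
open scoped Manifold ContDiff

namespace Pool.Agent.PalT

open Pool.Agent.Pal

/-! ## Statement level -/

/-- The vectors whose first coordinate is `0` and whose other coordinates are integers. -/
def Lat (d : ℕ) : Set (E (d + 1)) := {v | v 0 = 0 ∧ ∀ i, ∃ k : ℤ, v i = k}

/-- The points whose first coordinate is smaller than `w`. -/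
def Strip (d : ℕ) (w : ℝ) : Set (E (d + 1)) := {x | |x 0| < w}

/-- `T` is a collar of the torus `T '' {x | x 0 = 0}`: on the strip `|x 0| < w` it is locally the
inverse of a smooth chart, and `T x = T x'` if and only if `x - x'` is an integer vector with first
coordinate `0`. -/
def Collar {d : ℕ} {M : Type} [TopologicalSpace M] [ChartedSpace (E (d + 1)) M] (w : ℝ)
    (T : E (d + 1) → M) : Prop :=
  0 < w ∧ (∀ x ∈ Strip d w, ∃ e ∈ Ch (d + 1) M, x ∈ e.target ∧ ∀ᶠ z in 𝓝 x, T z = e.symm z) ∧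
    ∀ x ∈ Strip d w, ∀ x' ∈ Strip d w, (T x = T x' ↔ x - x' ∈ Lat d)

/-! ## Working definitions -/

/-- The angular coordinates. -/
def th {d : ℕ} (x : E (d + 1)) : Fin d → ℝ := fun i => x i.succ

/-- Functions with period lattice `Lat d`. -/
def Per (d : ℕ) {F : Type} (u : E (d + 1) → F) : Prop := ∀ x, ∀ v ∈ Lat d, u (x + v) = u x

/-- Smooth maps that commute with the translations in `Lat d` and are the identity off the strip
`|x 0| < w`. -/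
def ModT (d : ℕ) (w : ℝ) (L : E (d + 1) → E (d + 1)) : Prop :=
  ContDiff ℝ ∞ L ∧ (∀ x, ∀ v ∈ Lat d, L (x + v) = L x + v) ∧ ∀ x, w ≤ |x 0| → L x = x

/-- Diophantine translation vectors. -/
def Dio (d : ℕ) (α : Fin d → ℝ) : Prop :=
  ∃ (c : ℝ) (τ : ℕ), 0 < c ∧ ∀ k : Fin d → ℤ, k ≠ 0 → ∀ l : ℤ,
    c ≤ ‖k‖ ^ τ * |∑ i, (k i : ℝ) * α i - l|

/-- The fundamental domain of `Lat d` in the strip. -/
def Cell (d : ℕ) (w : ℝ) : Set (E (d + 1)) :=
  {x | |x 0| < w ∧ ∀ i : Fin d, 0 ≤ x i.succ ∧ x i.succ < 1}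

open Classical in
/-- The map of `M` that is `L` in the collar `T`. -/
noncomputable def extT {d : ℕ} {M : Type} (w : ℝ) (T : E (d + 1) → M)
    (L : E (d + 1) → E (d + 1)) : M → M :=
  fun p => if h : ∃ x ∈ Strip d w, T x = p then T (L (Classical.choose h)) else p

/-- In the collar `T` the measure `μ` is Lebesgue measure. -/
def UniT {d : ℕ} {M : Type} [MeasurableSpace M] (μ : Measure M) (w : ℝ) (T : E (d + 1) → M) :
    Prop :=
  ∀ A ⊆ Strip d w, MeasurableSet A → InjOn T A → μ (T '' A) = volume A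

/-- A conservative map near the torus, lifted to the strip. -/
structure LiftMap (d : ℕ) (w : ℝ) (α : E (d + 1)) (F : E (d + 1) → E (d + 1)) : Prop where
  pos : 0 < w
  smooth : ContDiffOn ℝ ∞ F (Strip d w)
  equi : ∀ x ∈ Strip d w, ∀ v ∈ Lat d, F (x + v) = F x + v
  alpha : α 0 = 0
  zero : ∀ x, x 0 = 0 → F x = x + α
  det : ∀ x ∈ Strip d w, |(fderiv ℝ F x).det| = 1
  low : ∃ c : ℝ, 0 < c ∧ ∀ x ∈ Strip d w, c * |x 0| ≤ |F x 0|
  vol : ∃ w₂ : ℝ, 0 < w₂ ∧ ∀ φ : E (d + 1) → ℝ, Continuous φ → Per d φ →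
    (∀ x, w₂ ≤ |x 0| → φ x = 0) → ∫ x in Cell d w, φ (F x) = ∫ x in Cell d w, φ x

/-- The contraction towards the torus. -/
noncomputable def radT {d : ℕ} (a : ℝ → ℝ) (κ ρ : ℝ) (x : E (d + 1)) : E (d + 1) :=
  x - (κ * a (x 0 ^ 2 / ρ ^ 2) * x 0) • EuclideanSpace.single 0 1

/-- The profile of the contraction. -/
structure ProfT (a : ℝ → ℝ) (c κ₀ : ℝ) : Prop where
  smooth : ContDiff ℝ ∞ a
  nonneg : ∀ t, 0 ≤ a t
  le_one : ∀ t, a t ≤ 1
  off : ∀ t, 64 ≤ t → a t = 0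
  c_pos : 0 < c
  low : ∀ t, t ≤ 16 → c ≤ a t
  κ_pos : 0 < κ₀
  κ_le : κ₀ ≤ 1 / 2
  det : ∀ (d : ℕ) (ρ κ : ℝ), 0 < ρ → 0 ≤ κ → κ ≤ κ₀ → ∀ x : E (d + 1), ρ ≤ |x 0| →
    1 ≤ (fderiv ℝ (radT a κ ρ) x).det

/-- The perturbation of the translation by `α` to a Morse-Smale map of the torus: near the torus
the composition of the translation and `Q` is the product of the circle maps
`t ↦ t + p i / q i - η / (2 π q i) sin (2 π q i t)`. -/
structure MSMap (d : ℕ) (α : E (d + 1)) (ρ : ℝ) (q : Fin d → ℕ) (p : Fin d → ℤ) (η : ℝ)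
    (Q : E (d + 1) → E (d + 1)) : Prop where
  two_le : ∀ i, 2 ≤ q i
  coprime : ∀ i j, i ≠ j → Nat.Coprime (q i) (q j)
  unit : ∀ i, IsCoprime (p i) (q i : ℤ)
  pos : 0 < η
  le : η ≤ 1 / 4
  mod : ModT d (ρ / 2) Q
  zero : ∀ x, Q x 0 = x 0
  near : ∀ x, |x 0| ≤ ρ / 4 → ∀ i : Fin d, Q x i.succ = x i.succ + (p i / q i - α i.succ) -
    η / (2 * Real.pi * q i) * Real.sin (2 * Real.pi * q i * (x i.succ - α i.succ))

/-- The periodic points of the Morse-Smale map. -/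
def MSPt (d : ℕ) (q : Fin d → ℕ) : Set (E (d + 1)) :=
  {x | x 0 = 0 ∧ ∀ i : Fin d, ∃ k : ℤ, 2 * q i * x i.succ = k}

/-- The Lyapunov function. -/
noncomputable def LyV (d : ℕ) (B : ℝ) (z : E (d + 1) → ℝ) (q : Fin d → ℕ) (x : E (d + 1)) : ℝ :=
  B * z x ^ 2 + ∑ i : Fin d, (1 - Real.cos (2 * Real.pi * q i * x i.succ))

/-- A function `z` that is almost invariant. -/
structure AlmInv (d N : ℕ) (w C s : ℝ) (α : E (d + 1)) (F : E (d + 1) → E (d + 1))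
    (z : E (d + 1) → ℝ) : Prop where
  sign : s = 1 ∨ s = -1
  pos : 0 < w
  C_pos : 0 < C
  smooth : ContDiff ℝ ∞ z
  per : Per d z
  first : ∀ x ∈ Strip d w, |z x - x 0| ≤ C * x 0 ^ 2
  inv : ∀ x ∈ Strip d w, |z (F x) - s * z x| ≤ C * |x 0| ^ (N + 1)
  lip : ∀ x ∈ Strip d w, ‖F x - (x + α)‖ ≤ C * |x 0|
  norm : ∀ x ∈ Strip d w, |F x 0 - s * x 0| ≤ C * x 0 ^ 2

/-- Lower triangular linear maps. -/
def Tri {d : ℕ} (A : E (d + 1) →L[ℝ] E (d + 1)) (lam : ℝ) (mu : Fin d → ℝ) : Prop :=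
  ∃ c : Fin d → ℝ, ∀ v : E (d + 1), A v 0 = lam * v 0 ∧
    ∀ i : Fin d, A v i.succ = mu i * v i.succ + c i * v 0

/-- Linear maps with a dominating expanding direction. -/
def HypU {n : ℕ} (A : E n →L[ℝ] E n) : Prop :=
  ∃ (Pu Ps : E n →L[ℝ] E n) (c μ lam κ : ℝ) (v₀ : E n), 0 < c ∧ 0 ≤ κ ∧ lam ≤ 1 ∧ 1 < μ - κ ∧
    v₀ ≠ 0 ∧ Ps v₀ = 0 ∧ (∀ v, c * ‖v‖ ≤ ‖Pu v‖ + ‖Ps v‖) ∧
    (∀ v, μ * ‖Pu v‖ - κ * ‖Ps v‖ ≤ ‖Pu (A v)‖) ∧ ∀ v, ‖Ps (A v)‖ ≤ lam * ‖Ps v‖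

/-- `p` is a fixed point of `h` whose derivative has a dominating expanding direction. -/
def Saddle (n : ℕ) {M : Type} [TopologicalSpace M] [ChartedSpace (E n) M] (h : M → M) (p : M) :
    Prop :=
  h p = p ∧ ∃ e ∈ Ch n M, p ∈ e.source ∧ HypU (fderiv ℝ (e ∘ h ∘ e.symm) (e p))

/-- A set of maps that is not left under small modifications in collars. -/
def RobT (d : ℕ) {M : Type} [TopologicalSpace M] [ChartedSpace (E (d + 1)) M] (s : ℕ∞) (r : ℕ)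
    (U : Set (M → M)) : Prop :=
  ∀ (w : ℝ) (T : E (d + 1) → M), Collar w T → ∀ w' : ℝ, w' < w → ∀ g ∈ U,
    IsDiffeo (d + 1) s g → ∃ δ : ℝ, 0 < δ ∧
      ∀ L, ModT d w' L → Near r δ L → (extT w T L ∘ g) ∈ U

end Pool.Agent.PalT
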