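import Pool.Agent.PalT.Targets

/-!
# Extension by zero of functions on a collar (EXT0)
-/

set_option autoImplicit false

open Set MeasureTheory Filter Topology Metric Asymptotics
open scoped Manifold ContDiff

namespace Pool.Agent.PalT

open Pool.Agent.Pal

theorem ext0 (h1 : T_COLL) : T_EXT0 := by
  intro d M _ _ _ _ _ w w' T φ hT hw hφ hper h0
  obtain ⟨_, hop, hcomp, _⟩ := h1 d M w T hT
  classical
  obtain ⟨Φ, hΦd⟩ : ∃ Φ : M → ℝ, Φ = fun y =>
    if h : ∃ x ∈ Strip d w, T x = y then φ (Classical.choose h) else 0 := ⟨_, rfl⟩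
  have hΦ : ∀ x ∈ Strip d w, Φ (T x) = φ x := by
    intro x hx
    have h : ∃ x' ∈ Strip d w, T x' = T x := ⟨x, hx, rfl⟩
    rw [hΦd]
    dsimp only
    rw [dif_pos h]
    obtain ⟨h2, h3⟩ := Classical.choose_spec h
    have h4 : Classical.choose h - x ∈ Lat d := (hT.2.2 _ h2 _ hx).1 h3
    have h5 := hper x _ h4
    rw [add_sub_cancel] at h5
    exact h5
  have hout : ∀ y, y ∉ T '' Strip d w → Φ y = 0 := by
    intro y hy
    rw [hΦd]
    dsimp only
    rw [dif_neg]
    rintro ⟨x, hx, rfl⟩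
    exact hy ⟨x, hx, rfl⟩
  have hco : Continuous fun x : E (d + 1) => |x 0| := by fun_prop
  have hcl : IsClosed (T '' {x : E (d + 1) | |x 0| ≤ w'}) := by
    apply IsCompact.isClosed
    apply hcomp w' hw _ (isClosed_le hco continuous_const) (fun x hx => hx)
    intro x hx v hv
    show |(x + v) 0| ≤ w'
    rw [PiLp.add_apply, hv.1, add_zero]
    exact hx
  have hout2 : ∀ y ∈ (T '' {x : E (d + 1) | |x 0| ≤ w'})ᶜ, Φ y = 0 := by
    intro y hy
    by_cases h : y ∈ T '' Strip d w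
    · obtain ⟨x, hx, rfl⟩ := h
      rw [hΦ x hx]
      apply h0
      by_contra h2
      exact hy ⟨x, (not_le.1 h2).le, rfl⟩
    · exact hout y h
  have hloc : ∀ x ∈ Strip d w, ∃ e ∈ Ch (d + 1) M, T x ∈ e.source ∧ Φ =ᶠ[𝓝 (T x)] φ ∘ e := by
    intro x hx
    obtain ⟨e, he, hxe, hTe⟩ := hT.2.1 x hx
    have h2 : T x = e.symm x := hTe.self_of_nhds
    have h3 : T x ∈ e.source := by
      rw [h2]
      exact e.map_target hxe
    have h4 : e (T x) = x := by
      rw [h2]
      exact e.right_inv hxe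
    refine ⟨e, he, h3, ?_⟩
    have h5 : Tendsto e (𝓝 (T x)) (𝓝 x) := by
      have := (e.continuousAt h3).tendsto
      rwa [h4] at this
    have h6 : ∀ᶠ z in 𝓝 x, z ∈ Strip d w :=
      (isOpen_lt hco continuous_const).mem_nhds hx
    filter_upwards [h5.eventually hTe, h5.eventually h6, e.open_source.mem_nhds h3] with y hy1 hy2 hy3
    have h7 : T (e y) = y := by
      rw [hy1]
      exact e.left_inv hy3
    have h8 := hΦ (e y) hy2
    rw [h7] at h8
    exact h8
  refine ⟨Φ, ?_, hout, hΦ, ?_⟩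
  · rw [continuous_iff_continuousAt]
    intro y
    by_cases h : y ∈ T '' {x : E (d + 1) | |x 0| ≤ w'}
    · obtain ⟨x, hx, rfl⟩ := h
      obtain ⟨e, he, h3, h4⟩ := hloc x (lt_of_le_of_lt hx hw)
      exact (hφ.continuousAt.comp (e.continuousAt h3)).congr h4.symm
    · have h5 : Φ =ᶠ[𝓝 y] fun _ => 0 := by
        filter_upwards [hcl.isOpen_compl.mem_nhds h] with z hz
        exact hout2 z hz
      exact continuousAt_const.congr h5.symm
  · intro hs y
    by_cases h : y ∈ T '' {x : E (d + 1) | |x 0| ≤ w'}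
    · obtain ⟨x, hx, rfl⟩ := h
      obtain ⟨e, he, h3, h4⟩ := hloc x (lt_of_le_of_lt hx hw)
      have h5 : ContMDiffAt 𝓘(ℝ, E (d + 1)) 𝓘(ℝ, E (d + 1)) ∞ e (T x) :=
        (contMDiffOn_of_mem_maximalAtlas he).contMDiffAt (e.open_source.mem_nhds h3)
      have h6 : ContMDiffAt 𝓘(ℝ, E (d + 1)) 𝓘(ℝ, ℝ) ∞ φ (e (T x)) := hs.contMDiff.contMDiffAt
      exact (h6.comp (T x) h5).congr_of_eventuallyEq h4
    · have h5 : Φ =ᶠ[𝓝 y] fun _ => 0 := by
        filter_upwards [hcl.isOpen_compl.mem_nhds h] with z hz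
        exact hout2 z hz
      exact contMDiffAt_const.congr_of_eventuallyEq h5

end Pool.Agent.PalT
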