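import Pool.Agent.PalT.Targets
import Pool.Agent.Pal.MOD

/-!
# Small modifications in a collar are diffeomorphisms
-/

set_option autoImplicit false

open Set MeasureTheory Filter Topology Metric
open scoped Manifold ContDiff NNReal

namespace Pool.Agent.PalT

open Pool.Agent.Pal

namespace EXTT_

/-- a smooth map whose difference to the identity is `1/2`-Lipschitz is a diffeomorphism -/
lemma inverse {n : ℕ} {L : E n → E n} (hs : ContDiff ℝ ∞ L) (hN : Near 1 (1 / 2) L) :
    ∃ L' : E n → E n, ContDiff ℝ ∞ L' ∧ (∀ x, L' (L x) = x) ∧ ∀ x, L (L' x) = x := by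
  set h : E n → E n := fun z => L z - z with hh
  have hds : ContDiff ℝ ∞ h := hs.sub contDiff_id
  have hdiff : Differentiable ℝ h := hds.differentiable (by simp)
  have hLd : Differentiable ℝ L := hs.differentiable (by simp)
  have hb : ∀ y, ‖fderiv ℝ h y‖ ≤ 1 / 2 := by
    intro y
    have := hN 1 le_rfl y
    rwa [norm_iteratedFDeriv_one] at this
  have hfd : ∀ y, fderiv ℝ L y = ContinuousLinearMap.id ℝ (E n) + fderiv ℝ h y := by
    intro y
    have e : L = fun z => z + h z := by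
      funext z; simp [hh]
    have e1 : HasFDerivAt (fun z => z + h z)
        (ContinuousLinearMap.id ℝ (E n) + fderiv ℝ h y) y :=
      (hasFDerivAt_id y).add (hdiff y).hasFDerivAt
    rw [← e] at e1
    exact e1.fderiv
  have hdet : ∀ y, 0 < (fderiv ℝ L y).det := by
    intro y
    rw [hfd y]
    exact MOD_.det_pos _ (hb y)
  have hlip : LipschitzWith (1 / 2 : ℝ≥0) h := by
    refine lipschitzWith_of_nnnorm_fderiv_le hdiff ?_
    intro y
    rw [← NNReal.coe_le_coe]
    simpa using hb y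
  have happ : ApproximatesLinearOn L
      ((ContinuousLinearEquiv.refl ℝ (E n) : E n ≃L[ℝ] E n) : E n →L[ℝ] E n) univ
      (1 / 2 : ℝ≥0) := by
    intro x _ y _
    have := hlip.dist_le_mul x y
    rw [dist_eq_norm, dist_eq_norm] at this
    have e : h x - h y = L x - L y - (x - y) := by
      simp only [hh]; abel
    rw [e] at this
    exact this
  have hcc : Subsingleton (E n) ∨ (1 / 2 : ℝ≥0) <
      ‖(((ContinuousLinearEquiv.refl ℝ (E n) : E n ≃L[ℝ] E n).symm :
        E n ≃L[ℝ] E n) : E n →L[ℝ] E n)‖₊⁻¹ := by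
    rcases subsingleton_or_nontrivial (E n) with hsub | hnt
    · exact Or.inl hsub
    · right
      have e : ‖(((ContinuousLinearEquiv.refl ℝ (E n) : E n ≃L[ℝ] E n).symm :
        E n ≃L[ℝ] E n) : E n →L[ℝ] E n)‖₊ = 1 := by
        apply NNReal.coe_injective
        rw [coe_nnnorm]
        exact ContinuousLinearMap.norm_id
      rw [e, inv_one]
      rw [← NNReal.coe_lt_coe]
      norm_num
  set F := happ.toHomeomorph L hcc with hF
  refine ⟨F.symm, ?_, fun x => F.symm_apply_apply x, fun x => F.apply_symm_apply x⟩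
  refine Homeomorph.contDiff_symm F
    (f₀' := fun a => (fderiv ℝ L a).toContinuousLinearEquivOfDetNeZero (hdet a).ne') ?_ ?_
  · intro a
    rw [ContinuousLinearMap.coe_toContinuousLinearEquivOfDetNeZero]
    exact (hLd a).hasFDerivAt
  · exact hs

lemma strip_open (d : ℕ) (w : ℝ) : IsOpen (Strip d w) :=
  isOpen_lt (by fun_prop) continuous_const

section

variable {d : ℕ} {w w' : ℝ} {L L' : E (d + 1) → E (d + 1)}

lemma maps (hL : ModT d w' L) (hinj : Function.Injective L) (hw : w' < w) {x : E (d + 1)}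
    (hx : x ∈ Strip d w) : L x ∈ Strip d w := by
  by_cases h : w' ≤ |x 0|
  · rw [hL.2.2 x h]
    exact hx
  · push Not at h
    by_contra hcon
    have h1 : w ≤ |L x 0| := not_lt.mp hcon
    have h2 : L (L x) = L x := hL.2.2 _ (hw.le.trans h1)
    have h3 : L x = x := hinj h2
    rw [h3] at h1
    linarith

lemma modT_inv (hL : ModT d w' L) (hs : ContDiff ℝ ∞ L') (h1 : ∀ x, L' (L x) = x)
    (h2 : ∀ x, L (L' x) = x) : ModT d w' L' := by
  refine ⟨hs, fun x v hv => ?_, fun x hx => ?_⟩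
  · have h3 : L (L' x + v) = x + v := by rw [hL.2.1 _ v hv, h2]
    rw [← h3, h1]
  · have h3 := hL.2.2 x hx
    calc L' x = L' (L x) := by rw [h3]
      _ = x := h1 x

variable {M : Type} [TopologicalSpace M] [ChartedSpace (E (d + 1)) M] {T : E (d + 1) → M}

lemma ext_in (hT : Collar w T) (hL : ModT d w' L) (hinj : Function.Injective L) (hw : w' < w)
    {x : E (d + 1)} (hx : x ∈ Strip d w) : extT w T L (T x) = T (L x) := by
  have h : ∃ x' ∈ Strip d w, T x' = T x := ⟨x, hx, rfl⟩
  have h1 : extT w T L (T x) = T (L (Classical.choose h)) := by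
    unfold extT
    rw [dif_pos h]
  obtain ⟨h2, h3⟩ := Classical.choose_spec h
  set x0 := Classical.choose h with hx0
  rw [h1]
  have h4 : x0 - x ∈ Lat d := (hT.2.2 x0 h2 x hx).mp h3
  have h5 : L x0 = L x + (x0 - x) := by
    rw [← hL.2.1 x _ h4]
    congr 1
    abel
  refine (hT.2.2 _ (maps hL hinj hw h2) _ (maps hL hinj hw hx)).mpr ?_
  rw [h5, add_sub_cancel_left]
  exact h4

omit [TopologicalSpace M] [ChartedSpace (E (d + 1)) M] in
lemma ext_out {y : M} (h : ¬ ∃ x ∈ Strip d w, T x = y) : extT w T L y = y := by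
  unfold extT
  rw [dif_neg h]

lemma ext_off (hT : Collar w T) (hL : ModT d w' L) (hinj : Function.Injective L) (hw : w' < w)
    {y : M} (hy : y ∉ T '' {x | |x 0| ≤ w'}) : extT w T L y = y := by
  by_cases h : ∃ x ∈ Strip d w, T x = y
  · obtain ⟨x, hx, rfl⟩ := h
    rw [ext_in hT hL hinj hw hx]
    have h1 : w' ≤ |x 0| := by
      by_contra hcon
      push Not at hcon
      exact hy ⟨x, hcon.le, rfl⟩
    rw [hL.2.2 x h1]
  · exact ext_out h

lemma ext_inv (hT : Collar w T) (hL : ModT d w' L) (hL' : ModT d w' L')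
    (hinj : Function.Injective L) (hinj' : Function.Injective L') (hw : w' < w)
    (h1 : ∀ x, L' (L x) = x) (y : M) : extT w T L' (extT w T L y) = y := by
  by_cases h : ∃ x ∈ Strip d w, T x = y
  · obtain ⟨x, hx, rfl⟩ := h
    rw [ext_in hT hL hinj hw hx, ext_in hT hL' hinj' hw (maps hL hinj hw hx), h1]
  · rw [ext_out h, ext_out h]

lemma ext_smooth (hC : T_COLL) [IsManifold 𝓘(ℝ, E (d + 1)) ∞ M] [T2Space M] (hT : Collar w T)
    (hL : ModT d w' L) (hinj : Function.Injective L) (hw : w' < w) :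
    ContMDiff 𝓘(ℝ, E (d + 1)) 𝓘(ℝ, E (d + 1)) ∞ (extT w T L) := by
  intro p
  by_cases h : ∃ x ∈ Strip d w, T x = p
  · obtain ⟨x, hx, rfl⟩ := h
    obtain ⟨e, he, hxe, hTe⟩ := hT.2.1 x hx
    obtain ⟨e2, he2, hxe2, hTe2⟩ := hT.2.1 (L x) (maps hL hinj hw hx)
    have hTx : T x = e.symm x := hTe.self_of_nhds
    have hps : T x ∈ e.source := by
      rw [hTx]
      exact e.map_target hxe
    have hex : e (T x) = x := by rw [hTx, e.right_inv hxe]
    have h1 : ContMDiffAt 𝓘(ℝ, E (d + 1)) 𝓘(ℝ, E (d + 1)) ∞ e (T x) :=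
      contMDiffAt_of_mem_maximalAtlas he hps
    have h2 : ContMDiffAt 𝓘(ℝ, E (d + 1)) 𝓘(ℝ, E (d + 1)) ∞ L (e (T x)) :=
      hL.1.contMDiff.contMDiffAt
    have h3 : ContMDiffAt 𝓘(ℝ, E (d + 1)) 𝓘(ℝ, E (d + 1)) ∞ e2.symm (L (e (T x))) := by
      rw [hex]
      exact contMDiffAt_symm_of_mem_maximalAtlas he2 hxe2
    have h4 : ContMDiffAt 𝓘(ℝ, E (d + 1)) 𝓘(ℝ, E (d + 1)) ∞ (e2.symm ∘ L ∘ e) (T x) :=
      ContMDiffAt.comp _ h3 (ContMDiffAt.comp _ h2 h1)
    refine h4.congr_of_eventuallyEq ?_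
    have hec : Tendsto e (𝓝 (T x)) (𝓝 x) := by
      have := e.continuousAt hps
      unfold ContinuousAt at this
      rwa [hex] at this
    have hLc : Tendsto (fun q => L (e q)) (𝓝 (T x)) (𝓝 (L x)) :=
      (hL.1.continuous.tendsto x).comp hec
    filter_upwards [e.open_source.mem_nhds hps, hec.eventually hTe,
      hec.eventually ((strip_open d w).mem_nhds hx), hLc.eventually hTe2] with q hq hq1 hq2 hq3
    have hq4 : T (e q) = q := by rw [hq1, e.left_inv hq]
    have hq5 := ext_in hT hL hinj hw hq2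
    rw [hq4] at hq5
    rw [hq5, hq3]
    rfl
  · have hcp : IsCompact (T '' {x | |x 0| ≤ w'}) := by
      refine ((hC d M w T hT).2.2.1 w' hw {x | |x 0| ≤ w'} ?_ (fun x hx => hx) ?_)
      · exact isClosed_le (by fun_prop) continuous_const
      · intro x hx v hv
        have h1 : (x + v) 0 = x 0 := by
          rw [PiLp.add_apply, hv.1, add_zero]
        change |(x + v) 0| ≤ w'
        rw [h1]
        exact hx
    have hp : p ∉ T '' {x | |x 0| ≤ w'} := by
      rintro ⟨x, hx, rfl⟩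
      have hx' : |x 0| ≤ w' := hx
      exact h ⟨x, lt_of_le_of_lt hx' hw, rfl⟩
    have h4 : ContMDiffAt 𝓘(ℝ, E (d + 1)) 𝓘(ℝ, E (d + 1)) ∞ (id : M → M) p := contMDiffAt_id
    refine h4.congr_of_eventuallyEq ?_
    filter_upwards [hcp.isClosed.isOpen_compl.mem_nhds hp] with z hz
    exact ext_off hT hL hinj hw hz

end

end EXTT_

open EXTT_

theorem extt (h1 : T_COLL) : T_EXTT := by
  intro d M _ _ _ _ w w' T L hT hw hL hN
  obtain ⟨L', hs', hl, hr⟩ := inverse hL.1 hN
  have hL' := modT_inv hL hs' hl hr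
  have hinj : Function.Injective L := Function.LeftInverse.injective hl
  have hinj' : Function.Injective L' := Function.LeftInverse.injective hr
  refine ⟨?_, fun x hx => ⟨maps hL hinj hw hx, ext_in hT hL hinj hw hx⟩,
    fun y hy => ext_off hT hL hinj hw hy⟩
  refine ⟨⟨⟨extT w T L, extT w T L', fun x => ext_inv hT hL hL' hinj hinj' hw hl x,
    fun x => ext_inv hT hL' hL hinj' hinj hw hr x⟩, ?_, ?_⟩, rfl⟩
  · exact ext_smooth h1 hT hL hinj hw
  · exact ext_smooth h1 hT hL' hinj' hw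

end Pool.Agent.PalT
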