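import Pool.Agent.PalT.TargetsF
import Pool.Agent.PalT.H21Sum

set_option autoImplicit false

open Set MeasureTheory Filter Topology Metric
open scoped ContDiff

namespace Pool.Agent.PalT

namespace KRO_

/-- The bump of one variable. -/
noncomputable def u (e y t : ℝ) : ℝ :=
  expNegInvGlue (Real.cos (2 * Real.pi * (t - y)) - Real.cos (2 * Real.pi * e))

theorem u_contDiff (e y : ℝ) : ContDiff ℝ ∞ (u e y) := by
  unfold u
  apply expNegInvGlue.contDiff.comp
  fun_prop

theorem u_nonneg (e y t : ℝ) : 0 ≤ u e y t := expNegInvGlue.nonneg _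

theorem u_per (e y t : ℝ) (k : ℤ) : u e y (t + k) = u e y t := by
  unfold u
  rw [show 2 * Real.pi * (t + k - y) = 2 * Real.pi * (t - y) + k * (2 * Real.pi) by ring,
    Real.cos_add_int_mul_two_pi]

theorem u_self {e y : ℝ} (he : 0 < e) (he2 : e ≤ 1 / 4) : 0 < u e y y := by
  unfold u
  apply expNegInvGlue.pos_of_pos
  rw [sub_self, mul_zero, Real.cos_zero, sub_pos, ← Real.cos_zero]
  have := Real.pi_pos
  apply Real.cos_lt_cos_of_nonneg_of_le_pi le_rfl
  · nlinarith
  · positivity

theorem u_supp {e y t : ℝ} (he : 0 < e) (he2 : e ≤ 1 / 4) (h : u e y t ≠ 0) :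
    ∃ k : ℤ, |t - y - k| < e := by
  refine ⟨round (t - y), ?_⟩
  by_contra hcon
  push Not at hcon
  apply h
  unfold u
  apply expNegInvGlue.zero_of_nonpos
  rw [sub_nonpos]
  have hpi := Real.pi_pos
  set s := t - y - round (t - y) with hs
  have h1 : |s| ≤ 1 / 2 := abs_sub_round _
  have h2 : Real.cos (2 * Real.pi * (t - y)) = Real.cos (2 * Real.pi * |s|) := by
    rw [show 2 * Real.pi * (t - y) = 2 * Real.pi * s + (round (t - y) : ℤ) * (2 * Real.pi) by
      rw [hs]; ring, Real.cos_add_int_mul_two_pi]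
    rw [← Real.cos_abs (2 * Real.pi * s), abs_mul, abs_of_pos (by positivity : 0 < 2 * Real.pi)]
  rw [h2]
  apply Real.cos_le_cos_of_nonneg_of_le_pi
  · positivity
  · nlinarith
  · gcongr

/-- A continuous nonnegative periodic function that is somewhere positive has positive mean. -/
theorem mean_pos {d : ℕ} (b : (Fin d → ℝ) → ℝ) (hb : Continuous b) (h0 : ∀ x, 0 ≤ b x)
    (hper : ∀ (x : Fin d → ℝ) (k : Fin d → ℤ), b (x + fun i => (k i : ℝ)) = b x)
    (y : Fin d → ℝ) (hy : b y ≠ 0) : 0 < ∫ x in Icc (0 : Fin d → ℝ) 1, b x := by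
  have hint : IntegrableOn b (Icc (0 : Fin d → ℝ) 1) := hb.continuousOn.integrableOn_compact
    isCompact_Icc
  rw [setIntegral_pos_iff_support_of_nonneg_ae (ae_of_all _ h0) hint]
  set O : Set (Fin d → ℝ) := Set.pi Set.univ fun _ => Ioo (0 : ℝ) 1 with hO
  have hOo : IsOpen O := isOpen_set_pi Set.finite_univ fun _ _ => isOpen_Ioo
  have hOc : closure O = Set.pi Set.univ fun _ => Icc (0 : ℝ) 1 := by
    rw [hO, closure_pi_set]
    simp only [closure_Ioo (zero_ne_one' ℝ)]
  set y' : Fin d → ℝ := fun i => Int.fract (y i) with hy'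
  have hby : b y' ≠ 0 := by
    rw [← hper y' fun i => ⌊y i⌋]
    have : (y' + fun i => ((⌊y i⌋ : ℤ) : ℝ)) = y := by
      funext i
      simp only [Pi.add_apply, hy']
      exact Int.fract_add_floor (y i)
    rw [this]
    exact hy
  have hmem : y' ∈ closure O := by
    rw [hOc]
    intro i _
    exact ⟨Int.fract_nonneg _, (Int.fract_lt_one _).le⟩
  have hso : IsOpen (Function.support b) := hb.isOpen_support
  obtain ⟨z, hz1, hz2⟩ := mem_closure_iff.mp hmem (Function.support b) hso hby
  refine lt_of_lt_of_le ((hso.inter hOo).measure_pos volume ⟨z, hz1, hz2⟩) (measure_mono ?_)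
  intro x hx
  refine ⟨hx.1, ?_⟩
  rw [mem_Icc, Pi.le_def, Pi.le_def]
  exact ⟨fun i => (hx.2 i (mem_univ i)).1.le, fun i => (hx.2 i (mem_univ i)).2.le⟩

/-- Continuous periodic functions are bounded. -/
theorem bdd {d : ℕ} (c : (Fin d → ℝ) → ℝ) (hc : Continuous c)
    (hper : ∀ (x : Fin d → ℝ) (k : Fin d → ℤ), c (x + fun i => (k i : ℝ)) = c x) :
    ∃ B : ℝ, ∀ x, |c x| ≤ B := by
  obtain ⟨B, hB⟩ := (isCompact_Icc (a := (0 : Fin d → ℝ)) (b := 1)).exists_bound_of_continuousOn
    hc.continuousOn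
  refine ⟨B, fun x => ?_⟩
  have h1 : c x = c fun i => Int.fract (x i) := by
    rw [← hper (fun i => Int.fract (x i)) fun i => ⌊x i⌋]
    congr 1
    funext i
    exact (Int.fract_add_floor (x i)).symm
  rw [h1]
  apply hB
  rw [mem_Icc, Pi.le_def, Pi.le_def]
  exact ⟨fun i => Int.fract_nonneg _, fun i => (Int.fract_lt_one _).le⟩

theorem slope (g g' : ℝ → ℝ) (hg : ∀ t, HasDerivAt g (g' t) t) {T : ℝ} (hT : 0 < T) :
    ∃ s, 0 < s ∧ g' s * T = g T - g 0 := by
  have hc : ContinuousOn g (Icc 0 T) := fun t _ => (hg t).continuousAt.continuousWithinAt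
  obtain ⟨s, hs, hs2⟩ := exists_hasDerivAt_eq_slope g g' hT hc (fun t _ => hg t)
  refine ⟨s, hs.1, ?_⟩
  rw [hs2, sub_zero, div_mul_cancel₀ _ hT.ne']

end KRO_

open KRO_ in
theorem kro (h1 : T_COHF) : T_KRO := by
  intro d om y ε hom hε
  by_contra hcon
  push Not at hcon
  set e := min ε (1 / 4) with he
  have he0 : 0 < e := by rw [he]; positivity
  have he4 : e ≤ 1 / 4 := min_le_right _ _
  have heε : e ≤ ε := min_le_left _ _
  set b : (Fin d → ℝ) → ℝ := fun x => ∏ i, u e (y i) (x i) with hb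
  have hbC : ContDiff ℝ ∞ b := by
    apply contDiff_prod
    intro i _
    exact (u_contDiff e (y i)).comp (contDiff_apply ℝ ℝ i)
  have hb0 : ∀ x, 0 ≤ b x := fun x => Finset.prod_nonneg fun i _ => u_nonneg _ _ _
  have hbper : ∀ (x : Fin d → ℝ) (k : Fin d → ℤ), b (x + fun i => (k i : ℝ)) = b x := by
    intro x k
    simp only [hb, Pi.add_apply, u_per]
  have hby : b y ≠ 0 := by
    apply ne_of_gt
    exact Finset.prod_pos fun i _ => u_self he0 he4
  have hm := mean_pos b hbC.continuous hb0 hbper y hby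
  set m := ∫ x in Icc (0 : Fin d → ℝ) 1, b x with hmdef
  have hvan : ∀ t : ℝ, 0 ≤ t → b (t • om) = 0 := by
    intro t ht
    by_contra hne
    have h2 : ∀ i, ∃ k : ℤ, |t * om i - y i - k| < e := by
      intro i
      apply u_supp he0 he4
      have := Finset.prod_ne_zero_iff.mp hne i (Finset.mem_univ i)
      simpa only [Pi.smul_apply, smul_eq_mul] using this
    choose k hk using h2
    obtain ⟨i, hi⟩ := hcon t ht k
    exact absurd (hk i) (not_lt.mpr (heε.trans hi))
  obtain ⟨c, hc, hcper, hcder⟩ := h1 d om (fun x => b x - m) hom (hbC.sub contDiff_const)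
    (by intro x k; simp only [hbper x k]) (by
      have hint : IntegrableOn b (Icc (0 : Fin d → ℝ) 1) :=
        hbC.continuous.continuousOn.integrableOn_compact isCompact_Icc
      have hvol : volume (Icc (0 : Fin d → ℝ) 1) = 1 := by
        rw [Real.volume_Icc_pi]
        simp
      rw [integral_sub hint (by
        refine integrableOn_const (hs := ?_)
        rw [hvol]
        exact ENNReal.one_ne_top), setIntegral_const, Measure.real, hvol]
      simp [hmdef])
  obtain ⟨B, hB⟩ := bdd c hc.continuous hcper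
  have hg : ∀ t : ℝ, HasDerivAt (fun t : ℝ => c (t • om)) (b (t • om) - m) t := by
    intro t
    have h3 : HasDerivAt (fun t : ℝ => t • om) ((1 : ℝ) • om) t :=
      (hasDerivAt_id t).smul_const om
    rw [one_smul] at h3
    have h4 : HasFDerivAt c (fderiv ℝ c (t • om)) (t • om) :=
      (hc.contDiffAt.differentiableAt (by simp)).hasFDerivAt
    have h5 := h4.comp_hasDerivAt t h3
    rw [hcder] at h5
    exact h5
  have hB0 : 0 ≤ B := (abs_nonneg _).trans (hB 0)
  set T := (2 * B + 1) / m with hT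
  have hT0 : 0 < T := div_pos (by linarith) hm
  obtain ⟨s, hs, hs2⟩ := slope (fun t : ℝ => c (t • om)) (fun t => b (t • om) - m) hg hT0
  have hs3 : b (s • om) = 0 := hvan s hs.le
  rw [hs3, zero_sub] at hs2
  have h6 : m * T = 2 * B + 1 := mul_div_cancel₀ _ hm.ne'
  have h7 := hB (T • om)
  have h8 := hB ((0 : ℝ) • om)
  rw [abs_le] at h7 h8
  linarith [h7.1, h7.2, h8.1, h8.2]

end Pool.Agent.PalT
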