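import Pool.Agent.PalT.Targets
import Pool.Agent.PalT.H21Sum

set_option autoImplicit false

open Set MeasureTheory Filter Topology Metric
open scoped ContDiff

namespace Pool.Agent.PalT

namespace SER_

open H21Sum_

/-- The scalar exponential. -/
noncomputable def e1 (t : ℝ) : ℂ := Complex.exp (2 * Real.pi * Complex.I * (t : ℂ))

theorem e1_contDiff : ContDiff ℝ ∞ e1 := by
  unfold e1
  have h1 : ContDiff ℝ ∞ fun t : ℝ => (t : ℂ) := Complex.ofRealCLM.contDiff
  exact (contDiff_const.mul h1).cexp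

theorem iteratedDeriv_e1 (n : ℕ) :
    iteratedDeriv n e1 = fun t => (2 * Real.pi * Complex.I) ^ n * e1 t := by
  induction n with
  | zero => funext t; simp
  | succ n ih =>
    rw [iteratedDeriv_succ, ih]
    funext t
    have h0 : HasDerivAt (fun t : ℝ => (t : ℂ)) 1 t := Complex.ofRealCLM.hasDerivAt
    have h1 : HasDerivAt (fun t : ℝ => 2 * Real.pi * Complex.I * (t : ℂ))
        (2 * Real.pi * Complex.I * 1) t := h0.const_mul _
    have h2 := (h1.cexp).const_mul ((2 * Real.pi * Complex.I) ^ n)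
    have h3 : HasDerivAt (fun t => (2 * Real.pi * Complex.I) ^ n * e1 t)
      ((2 * Real.pi * Complex.I) ^ n *
        (Complex.exp (2 * Real.pi * Complex.I * (t : ℂ)) * (2 * Real.pi * Complex.I * 1))) t := h2
    rw [h3.deriv, pow_succ]
    unfold e1
    ring

theorem norm_iter_e1 (n : ℕ) (t : ℝ) : ‖iteratedFDeriv ℝ n e1 t‖ = (2 * Real.pi) ^ n := by
  rw [norm_iteratedFDeriv_eq_norm_iteratedDeriv, iteratedDeriv_e1]
  simp only [norm_mul, norm_pow]
  rw [show ‖e1 t‖ = 1 from norm_exp_I t]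
  simp [abs_of_pos Real.pi_pos]

/-- The linear form. -/
noncomputable def lf {d : ℕ} (k : Fin d → ℤ) : (Fin d → ℝ) →L[ℝ] ℝ :=
  ∑ i, (k i : ℝ) • (ContinuousLinearMap.proj i : (Fin d → ℝ) →L[ℝ] ℝ)

theorem lf_apply {d : ℕ} (k : Fin d → ℤ) (x : Fin d → ℝ) : lf k x = ∑ i, (k i : ℝ) * x i := by
  simp [lf]

theorem norm_lf {d : ℕ} (k : Fin d → ℤ) : ‖lf k‖ ≤ d * ‖k‖ := by
  refine ContinuousLinearMap.opNorm_le_bound _ (by positivity) fun x => ?_
  rw [lf_apply]
  calc ‖∑ i, (k i : ℝ) * x i‖ ≤ ∑ i, ‖(k i : ℝ) * x i‖ := norm_sum_le _ _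
    _ ≤ ∑ i : Fin d, ‖k‖ * ‖x‖ := by
        apply Finset.sum_le_sum
        intro i _
        rw [norm_mul]
        have h1 : ‖(k i : ℝ)‖ ≤ ‖k‖ := by
          rw [← norm_rv k]
          exact norm_le_pi_norm (rv k) i
        have h2 : ‖x i‖ ≤ ‖x‖ := norm_le_pi_norm x i
        gcongr
    _ = d * ‖k‖ * ‖x‖ := by simp; ring

theorem ex_eq {d : ℕ} (k : Fin d → ℤ) : (fun x => ex k x) = e1 ∘ lf k := by
  funext x
  simp only [Function.comp, lf_apply]
  rfl

theorem ex_contDiff {d : ℕ} (k : Fin d → ℤ) : ContDiff ℝ ∞ fun x => ex k x := by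
  rw [ex_eq]
  exact e1_contDiff.comp (lf k).contDiff

theorem norm_iter_ex {d : ℕ} (k : Fin d → ℤ) (n : ℕ) (x : Fin d → ℝ) :
    ‖iteratedFDeriv ℝ n (fun x => ex k x) x‖ ≤ (2 * Real.pi * d) ^ n * ‖k‖ ^ n := by
  rw [ex_eq, ContinuousLinearMap.iteratedFDeriv_comp_right (lf k) e1_contDiff x
    (by exact_mod_cast le_top)]
  refine (ContinuousMultilinearMap.norm_compContinuousLinearMap_le _ _).trans ?_
  rw [norm_iter_e1]
  simp only [Finset.prod_const, Finset.card_univ, Fintype.card_fin]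
  calc (2 * Real.pi) ^ n * ‖lf k‖ ^ n ≤ (2 * Real.pi) ^ n * (d * ‖k‖) ^ n := by
        have := norm_lf k
        have := Real.pi_pos
        gcongr
    _ = (2 * Real.pi * d) ^ n * ‖k‖ ^ n := by rw [mul_pow, mul_pow _ (d : ℝ)]; ring

end SER_

open SER_ H21Sum_ in
theorem ser : T_SER := by
  intro d β hβ
  have hsum : ∀ n : ℕ, Summable fun k => ‖k‖ ^ n * ‖β k‖ :=
    fun n => summable_rapid (fun k => norm_nonneg _) hβ n
  have hs : ∀ x : Fin d → ℝ, Summable fun k => β k * ex k x := by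
    intro x
    refine Summable.of_norm ?_
    refine (hsum 0).congr fun k => ?_
    rw [norm_mul, norm_ex, pow_zero, one_mul, mul_one]
  refine ⟨fun x => ∑' k, β k * ex k x, ?_, ?_, ?_⟩
  · apply contDiff_tsum (v := fun n k => (2 * Real.pi * d) ^ n * (‖k‖ ^ n * ‖β k‖))
    · intro k
      exact contDiff_const.mul (ex_contDiff k)
    · intro n _
      exact (hsum n).mul_left _
    · intro n k x _
      have h1 : (fun x => β k * ex k x) = β k • fun x => ex k x := by
        funext x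
        simp only [Pi.smul_apply, smul_eq_mul]
      rw [h1]
      have h3 : ContDiffAt ℝ n (fun x : Fin d → ℝ => ex k x) x :=
        ((ex_contDiff k).contDiffAt).of_le (by exact_mod_cast le_top)
      have h2 : iteratedFDeriv ℝ n (β k • fun x => ex k x) x =
          β k • iteratedFDeriv ℝ n (fun x => ex k x) x :=
        iteratedFDeriv_const_smul_apply (a := β k) h3
      rw [h2, norm_smul]
      calc ‖β k‖ * ‖iteratedFDeriv ℝ n (fun x => ex k x) x‖
          ≤ ‖β k‖ * ((2 * Real.pi * d) ^ n * ‖k‖ ^ n) := by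
            have := norm_iter_ex k n x
            gcongr
        _ = (2 * Real.pi * d) ^ n * (‖k‖ ^ n * ‖β k‖) := by ring
  · intro x l
    simp only
    apply tsum_congr
    intro k
    rw [ex_add, ex_int, mul_one]
  · intro x
    exact (hs x).hasSum

end Pool.Agent.PalT
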