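import Pool.Agent.PalT.PRE
import Pool.Agent.PalT.SER
import Pool.Agent.PalT.COHD
import Pool.Agent.PalT.COHF
import Pool.Agent.PalT.KRO

/-!
# Tori of codimension one: the theorems
-/

set_option autoImplicit false

namespace Pool.Agent.PalT

theorem tMAINT : T_MAINT := maintOf (cohd fou ser)

theorem tMAINF : T_MAINF := mainfOf (cohf fou ser) (kro (cohf fou ser))

end Pool.Agent.PalT
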