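import Pool.Agent.PalT.Targets

/-!
# FIRST: first order behaviour at the torus
-/

set_option autoImplicit false

open Set MeasureTheory Filter Topology Metric
open scoped Manifold ContDiff

namespace Pool.Agent.PalT

open Pool.Agent.Pal

namespace FIRST_

lemma isOpen_strip (d : ℕ) (w : ℝ) : IsOpen (Strip d w) := by
  have h : Continuous fun x : E (d + 1) => |x 0| := by fun_prop
  exact isOpen_lt h continuous_const

lemma lat_zero {d : ℕ} {v : E (d + 1)} (hv : v ∈ Lat d) : v 0 = 0 := hv.1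

lemma add_strip {d : ℕ} {w : ℝ} {x v : E (d + 1)} (hx : x ∈ Strip d w) (hv : v ∈ Lat d) :
    x + v ∈ Strip d w := by
  show |(x + v) 0| < w
  rw [PiLp.add_apply, hv.1, add_zero]
  exact hx

/-- periodic continuous functions are bounded in a smaller strip -/
lemma bdd {d : ℕ} {w : ℝ} (hw : 0 < w) {X : Type*} [NormedAddCommGroup X] {u : E (d + 1) → X}
    (hu : ContinuousOn u (Strip d w)) (hp : ∀ x ∈ Strip d w, ∀ v ∈ Lat d, u (x + v) = u x) :
    ∃ C : ℝ, 0 ≤ C ∧ ∀ x : E (d + 1), |x 0| ≤ w / 2 → ‖u x‖ ≤ C := by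
  set K : Set (E (d + 1)) := {x | |x 0| ≤ w / 2 ∧ ∀ i : Fin d, x i.succ ∈ Icc (0 : ℝ) 1} with hK
  have hKc : IsCompact K := by
    rw [Metric.isCompact_iff_isClosed_bounded]
    refine ⟨?_, ?_⟩
    · have h1 : IsClosed {x : E (d + 1) | |x 0| ≤ w / 2} := by
        have h : Continuous fun x : E (d + 1) => |x 0| := by fun_prop
        exact isClosed_le h continuous_const
      have h2 : ∀ i : Fin d, IsClosed {x : E (d + 1) | x i.succ ∈ Icc (0 : ℝ) 1} := by
        intro i
        have h : Continuous fun x : E (d + 1) => x i.succ := by fun_prop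
        exact isClosed_Icc.preimage h
      have h3 : K = {x : E (d + 1) | |x 0| ≤ w / 2} ∩
          ⋂ i : Fin d, {x : E (d + 1) | x i.succ ∈ Icc (0 : ℝ) 1} := by
        ext x
        simp [hK]
      rw [h3]
      exact h1.inter (isClosed_iInter h2)
    · rw [Metric.isBounded_iff_subset_closedBall 0]
      refine ⟨√((d + 1) * (w / 2 + 1) ^ 2), fun x hx => ?_⟩
      rw [mem_closedBall_zero_iff, EuclideanSpace.norm_eq]
      refine Real.sqrt_le_sqrt ?_
      have h4 : ∀ i : Fin (d + 1), ‖x i‖ ^ 2 ≤ (w / 2 + 1) ^ 2 := by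
        intro i
        refine pow_le_pow_left₀ (norm_nonneg _) ?_ 2
        rw [Real.norm_eq_abs]
        refine Fin.cases ?_ (fun j => ?_) i
        · have := hx.1
          linarith
        · have h5 := hx.2 j
          rw [abs_le]
          constructor <;> linarith [h5.1, h5.2]
      calc ∑ i, ‖x i‖ ^ 2 ≤ ∑ _i : Fin (d + 1), (w / 2 + 1) ^ 2 := Finset.sum_le_sum fun i _ => h4 i
        _ = (d + 1) * (w / 2 + 1) ^ 2 := by
          rw [Finset.sum_const, Finset.card_univ, Fintype.card_fin, nsmul_eq_mul]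
          push_cast
          ring
  have hKs : K ⊆ Strip d w := fun x hx => by
    have := hx.1
    show |x 0| < w
    linarith
  obtain ⟨C, hC⟩ := hKc.exists_bound_of_continuousOn (hu.mono hKs)
  refine ⟨max C 0, le_max_right _ _, fun x hx => ?_⟩
  set v : E (d + 1) := WithLp.toLp 2 (Fin.cons 0 fun i : Fin d => ((-⌊x i.succ⌋ : ℤ) : ℝ)) with hv
  have hv0 : v 0 = 0 := rfl
  have hvs : ∀ i : Fin d, v i.succ = ((-⌊x i.succ⌋ : ℤ) : ℝ) := fun i => rfl
  have hvL : v ∈ Lat d := by
    refine ⟨hv0, fun i => ?_⟩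
    refine Fin.cases ⟨0, by simpa using hv0⟩ (fun j => ⟨_, hvs j⟩) i
  have hxs : x ∈ Strip d w := by
    show |x 0| < w
    linarith
  have hxK : x + v ∈ K := by
    refine ⟨by rw [PiLp.add_apply, hv0, add_zero]; exact hx, fun i => ?_⟩
    rw [PiLp.add_apply, hvs]
    push_cast
    have h1 := Int.floor_le (x i.succ)
    have h2 := Int.lt_floor_add_one (x i.succ)
    constructor <;> linarith
  rw [← hp x hxs v hvL]
  exact (hC _ hxK).trans (le_max_left _ _)

/-- the derivative of an equivariant map is periodic -/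
lemma fderiv_per {d : ℕ} {w : ℝ} {X : Type*} [NormedAddCommGroup X] [NormedSpace ℝ X]
    {u : E (d + 1) → X} {c : E (d + 1) → X}
    (hp : ∀ x ∈ Strip d w, ∀ v ∈ Lat d, u (x + v) = u x + c v) :
    ∀ x ∈ Strip d w, ∀ v ∈ Lat d, fderiv ℝ u (x + v) = fderiv ℝ u x := by
  intro x hx v hv
  have h1 : (fun y => u (y + v)) =ᶠ[𝓝 x] fun y => u y + c v := by
    filter_upwards [(isOpen_strip d w).mem_nhds hx] with y hy
    exact hp y hy v hv
  rw [← fderiv_comp_add_right, h1.fderiv_eq, fderiv_add_const]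

/-- the determinant of a map which is the identity on `{v | v 0 = 0}` -/
lemma det_eq {d : ℕ} (A : E (d + 1) →L[ℝ] E (d + 1)) (h : ∀ v : E (d + 1), v 0 = 0 → A v = v) :
    A.det = A (EuclideanSpace.single 0 1) 0 := by
  set b := (EuclideanSpace.basisFun (Fin (d + 1)) ℝ).toBasis with hb
  have h1 : A.det = (LinearMap.toMatrix b b (A : E (d + 1) →ₗ[ℝ] E (d + 1))).det := by
    rw [LinearMap.det_toMatrix]
  have hM : ∀ i j, LinearMap.toMatrix b b (A : E (d + 1) →ₗ[ℝ] E (d + 1)) i j =
      A (EuclideanSpace.single j 1) i := by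
    intro i j
    rw [LinearMap.toMatrix_apply]
    simp [hb]
  have hdiag : ∀ j : Fin d, ∀ i, A (EuclideanSpace.single j.succ 1) i =
      if i = j.succ then 1 else 0 := by
    intro j i
    rw [h _ (by simp [(Fin.succ_ne_zero j).symm])]
    simp
  rw [h1, Matrix.det_of_isLowerTriangular]
  · rw [Fin.prod_univ_succ]
    have : ∏ i : Fin d, LinearMap.toMatrix b b (A : E (d + 1) →ₗ[ℝ] E (d + 1)) i.succ i.succ = 1 :=
      Finset.prod_eq_one fun i _ => by rw [hM, hdiag]; simp
    rw [this, mul_one, hM]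
  · intro i j hij
    rw [OrderDual.toDual_lt_toDual] at hij
    rw [hM]
    have hj : j ≠ 0 := (Fin.pos_of_ne_zero fun h0 => by
      rw [h0] at hij
      exact absurd hij (Fin.not_lt_zero _)).ne'
    obtain ⟨j', rfl⟩ := Fin.exists_succ_eq.2 hj
    rw [hdiag, if_neg hij.ne]

end FIRST_

open FIRST_ in
/-- FIRST: first order behaviour at the torus. -/
theorem first : T_FIRST := by
  intro d w α F hF
  have hw := hF.pos
  set e0 : E (d + 1) := EuclideanSpace.single 0 1 with he0
  have he00 : e0 0 = 1 := by simp [he0]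
  have he0n : ‖e0‖ = 1 := by simp [he0]
  have hop := isOpen_strip d w
  set Φ : E (d + 1) → (E (d + 1) →L[ℝ] E (d + 1)) := fderiv ℝ F with hΦ
  have hΦs : ContDiffOn ℝ ∞ Φ (Strip d w) := hF.smooth.fderiv_of_isOpen hop (by simp)
  have hΦd : ∀ x ∈ Strip d w, HasFDerivAt F (Φ x) x := fun x hx =>
    ((hF.smooth.contDiffAt (hop.mem_nhds hx)).differentiableAt (by simp)).hasFDerivAt
  have hΦd2 : ∀ x ∈ Strip d w, HasFDerivAt Φ (fderiv ℝ Φ x) x := fun x hx =>
    ((hΦs.contDiffAt (hop.mem_nhds hx)).differentiableAt (by simp)).hasFDerivAt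
  have hΦp : ∀ x ∈ Strip d w, ∀ v ∈ Lat d, Φ (x + v) = Φ x :=
    fderiv_per (c := fun v => v) hF.equi
  have hΦp2 : ∀ x ∈ Strip d w, ∀ v ∈ Lat d, fderiv ℝ Φ (x + v) = fderiv ℝ Φ x :=
    fderiv_per (c := fun _ => 0) (fun x hx v hv => by rw [add_zero]; exact hΦp x hx v hv)
  obtain ⟨C₁, hC₁0, hC₁⟩ := bdd hw hΦs.continuousOn hΦp
  obtain ⟨C₂, hC₂0, hC₂⟩ := bdd hw
    (hΦs.continuousOn_fderiv_of_isOpen hop (by simp)) hΦp2
  -- the sign
  have hz : ∀ x : E (d + 1), x 0 = 0 → x ∈ Strip d w := fun x hx => by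
    show |x 0| < w
    rw [hx, abs_zero]
    exact hw
  have hid : ∀ x : E (d + 1), x 0 = 0 → ∀ v : E (d + 1), v 0 = 0 → Φ x v = v := by
    intro x hx v hv
    have h1 : HasDerivAt (fun t : ℝ => F (x + t • v)) (Φ x v) 0 := by
      have h2 : HasDerivAt (fun t : ℝ => x + t • v) v 0 := by
        simpa using ((hasDerivAt_id (0 : ℝ)).smul_const v).const_add x
      have h3 : HasFDerivAt F (Φ x) (x + (0 : ℝ) • v) := by
        rw [zero_smul, add_zero]
        exact hΦd x (hz x hx)
      exact h3.comp_hasDerivAt 0 h2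
    have h4 : (fun t : ℝ => F (x + t • v)) = fun t : ℝ => (x + α) + t • v := by
      funext t
      rw [hF.zero _ (by simp [hx, hv])]
      abel
    have h5 : HasDerivAt (fun t : ℝ => F (x + t • v)) v 0 := by
      rw [h4]
      simpa using ((hasDerivAt_id (0 : ℝ)).smul_const v).const_add (x + α)
    exact h1.unique h5
  set f : E (d + 1) → ℝ := fun x => Φ x e0 0 with hf
  have hfabs : ∀ x : E (d + 1), x 0 = 0 → |f x| = 1 := by
    intro x hx
    have h1 := hF.det x (hz x hx)
    rw [det_eq (fderiv ℝ F x) (hid x hx)] at h1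
    exact h1
  have hfc : ContinuousOn f {x : E (d + 1) | x 0 = 0} := by
    have h1 : ContinuousOn Φ {x : E (d + 1) | x 0 = 0} := hΦs.continuousOn.mono hz
    have h2 : ContinuousOn (fun x => Φ x e0) {x : E (d + 1) | x 0 = 0} :=
      h1.clm_apply continuousOn_const
    have h3 : Continuous fun y : E (d + 1) => y 0 := by fun_prop
    exact h3.comp_continuousOn h2
  have hpre : IsPreconnected {x : E (d + 1) | x 0 = 0} := by
    refine Convex.isPreconnected ?_
    intro x hx y hy a b _ _ _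
    show (a • x + b • y) 0 = 0
    have hx' : x 0 = 0 := hx
    have hy' : y 0 = 0 := hy
    simp [hx', hy']
  have hcst : ∀ x : E (d + 1), x 0 = 0 → f x = f 0 := by
    have key : ∀ x y : E (d + 1), x 0 = 0 → y 0 = 0 → f x ≤ f y → f x = f y := by
      intro x y hx hy hle
      by_contra hne
      have h1 := hfabs x hx
      have h2 := hfabs y hy
      have h3 : f x = -1 ∧ f y = 1 := by
        rcases (abs_eq (by norm_num : (0 : ℝ) ≤ 1)).1 h1 with h | h <;>
        rcases (abs_eq (by norm_num : (0 : ℝ) ≤ 1)).1 h2 with h' | h'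
        · exact absurd (h.trans h'.symm) hne
        · rw [h, h'] at hle
          norm_num at hle
        · exact ⟨h, h'⟩
        · exact absurd (h.trans h'.symm) hne
      have h4 := hpre.intermediate_value (show x ∈ {x : E (d + 1) | x 0 = 0} from hx)
        (show y ∈ {x : E (d + 1) | x 0 = 0} from hy) hfc
      have h5 : (0 : ℝ) ∈ Icc (f x) (f y) := by
        rw [h3.1, h3.2]
        constructor <;> norm_num
      obtain ⟨z, hz1, hz2⟩ := h4 h5
      have h6 := hfabs z hz1
      rw [hz2, abs_zero] at h6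
      norm_num at h6
    intro x hx
    rcases le_total (f x) (f 0) with h | h
    · exact key x 0 hx rfl h
    · exact (key 0 x rfl hx h).symm
  -- estimates along the normal lines
  have hline : ∀ y : E (d + 1), y 0 = 0 → ∀ t : ℝ, |t| ≤ w / 2 →
      ‖F (y + t • e0) - (y + t • e0 + α)‖ ≤ (C₁ + 1) * |t| ∧
      |F (y + t • e0) 0 - f 0 * t| ≤ C₂ * t ^ 2 := by
    intro y hy t ht
    have hγ0 : ∀ r : ℝ, (y + r • e0) 0 = r := by
      intro r
      simp [hy, he00]
    have hγ : ∀ r : ℝ, HasDerivAt (fun r : ℝ => y + r • e0) e0 r := by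
      intro r
      simpa using ((hasDerivAt_id r).smul_const e0).const_add y
    have hin : ∀ r ∈ Icc (-|t|) |t|, |(y + r • e0) 0| ≤ w / 2 := by
      intro r hr
      rw [hγ0, abs_le]
      constructor <;> linarith [hr.1, hr.2]
    have hin' : ∀ r ∈ Icc (-|t|) |t|, y + r • e0 ∈ Strip d w := by
      intro r hr
      have := hin r hr
      show |(y + r • e0) 0| < w
      linarith
    have hcvx : Convex ℝ (Icc (-|t|) |t|) := convex_Icc _ _
    have h0m : (0 : ℝ) ∈ Icc (-|t|) |t| := by
      constructor <;> linarith [abs_nonneg t]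
    have htm : t ∈ Icc (-|t|) |t| := ⟨neg_abs_le t, le_abs_self t⟩
    have hFγ : ∀ r ∈ Icc (-|t|) |t|, HasDerivAt (fun r : ℝ => F (y + r • e0))
        (Φ (y + r • e0) e0) r := fun r hr =>
      (hΦd _ (hin' r hr)).comp_hasDerivAt r (hγ r)
    have hΦγ : ∀ r ∈ Icc (-|t|) |t|, HasDerivAt (fun r : ℝ => Φ (y + r • e0))
        (fderiv ℝ Φ (y + r • e0) e0) r := fun r hr =>
      (hΦd2 _ (hin' r hr)).comp_hasDerivAt r (hγ r)
    refine ⟨?_, ?_⟩
    · have h1 := hcvx.norm_image_sub_le_of_norm_hasDerivWithin_le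
        (f := fun r : ℝ => F (y + r • e0) - (y + r • e0 + α))
        (f' := fun r => Φ (y + r • e0) e0 - e0) (C := C₁ + 1)
        (fun r hr => ((hFγ r hr).sub ((hγ r).add_const α)).hasDerivWithinAt)
        (fun r hr => by
          refine (norm_sub_le _ _).trans ?_
          rw [he0n]
          have h2 := (Φ (y + r • e0)).le_opNorm e0
          rw [he0n, mul_one] at h2
          have h3 := hC₁ _ (hin r hr)
          linarith) h0m htm
      have h4 : F (y + (0 : ℝ) • e0) - (y + (0 : ℝ) • e0 + α) = 0 := by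
        rw [zero_smul, add_zero, hF.zero y hy, sub_self]
      simp only [h4, sub_zero, Real.norm_eq_abs] at h1
      exact h1
    · have hΦ0 : ∀ r ∈ Icc (-|t|) |t|, |Φ (y + r • e0) e0 0 - f 0| ≤ C₂ * |t| := by
        intro r hr
        have h1 := hcvx.norm_image_sub_le_of_norm_hasDerivWithin_le
          (f := fun r : ℝ => Φ (y + r • e0))
          (f' := fun r => fderiv ℝ Φ (y + r • e0) e0) (C := C₂)
          (fun r hr => (hΦγ r hr).hasDerivWithinAt)
          (fun r hr => by
            have h2 := (fderiv ℝ Φ (y + r • e0)).le_opNorm e0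
            rw [he0n, mul_one] at h2
            exact h2.trans (hC₂ _ (hin r hr))) h0m hr
        have h3 : f 0 = Φ (y + (0 : ℝ) • e0) e0 0 := by
          rw [zero_smul, add_zero, ← hcst y hy]
        have h4 : Φ (y + r • e0) e0 0 - f 0 =
            ((Φ (y + r • e0) - Φ (y + (0 : ℝ) • e0)) e0) 0 := by
          rw [h3, _root_.sub_apply, PiLp.sub_apply]
        rw [h4]
        have h5 : |((Φ (y + r • e0) - Φ (y + (0 : ℝ) • e0)) e0) 0| ≤
            ‖(Φ (y + r • e0) - Φ (y + (0 : ℝ) • e0)) e0‖ := by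
          rw [← Real.norm_eq_abs]
          exact PiLp.norm_apply_le _ _
        have h6 := (Φ (y + r • e0) - Φ (y + (0 : ℝ) • e0)).le_opNorm e0
        rw [he0n, mul_one] at h6
        have h7 : |r| ≤ |t| := abs_le.2 hr
        have h8 : C₂ * ‖r - 0‖ ≤ C₂ * |t| := by
          rw [sub_zero, Real.norm_eq_abs]
          exact mul_le_mul_of_nonneg_left h7 hC₂0
        linarith
      have hpr : ∀ r ∈ Icc (-|t|) |t|, HasDerivAt (fun r : ℝ => F (y + r • e0) 0)
          (Φ (y + r • e0) e0 0) r := by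
        intro r hr
        exact (EuclideanSpace.proj (𝕜 := ℝ)
          (0 : Fin (d + 1))).hasFDerivAt.comp_hasDerivAt r (hFγ r hr)
      have h1 := hcvx.norm_image_sub_le_of_norm_hasDerivWithin_le
        (f := fun r : ℝ => F (y + r • e0) 0 - f 0 * r)
        (f' := fun r => Φ (y + r • e0) e0 0 - f 0) (C := C₂ * |t|)
        (fun r hr => by
          have h2 := ((hasDerivAt_id r).const_mul (f 0))
          rw [mul_one] at h2
          exact ((hpr r hr).sub h2).hasDerivWithinAt)
        (fun r hr => by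
          rw [Real.norm_eq_abs]
          exact hΦ0 r hr) h0m htm
      have h4 : F (y + (0 : ℝ) • e0) 0 - f 0 * 0 = 0 := by
        rw [zero_smul, add_zero, hF.zero y hy, PiLp.add_apply, hy, hF.alpha]
        ring
      simp only [h4, sub_zero, Real.norm_eq_abs] at h1
      calc |F (y + t • e0) 0 - f 0 * t| ≤ C₂ * |t| * |t| := h1
        _ = C₂ * t ^ 2 := by rw [mul_assoc, abs_mul_abs_self]; ring
  refine ⟨f 0, w / 2, C₁ + C₂ + 1, (abs_eq (by norm_num)).1 (hfabs 0 rfl), by linarith,
    by linarith, by linarith, fun x hx => ?_⟩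
  have hx' : |x 0| < w / 2 := hx
  have h1 : (x - x 0 • e0) 0 = 0 := by simp [he00]
  have h2 := hline (x - x 0 • e0) h1 (x 0) hx'.le
  rw [sub_add_cancel] at h2
  refine ⟨h2.1.trans ?_, h2.2.trans ?_⟩
  · exact mul_le_mul_of_nonneg_right (by linarith) (abs_nonneg _)
  · exact mul_le_mul_of_nonneg_right (by linarith) (sq_nonneg _)

end Pool.Agent.PalT
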