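import Pool.Agent.PalT.TargetsF

set_option autoImplicit false

open scoped Manifold ContDiff Topology
open MeasureTheory Set Filter Bundle Asymptotics Metric

namespace Pool.Agent.PalT

open Pool.Agent.Pal Pool.Agent.Palis Pool.Agent.PalF

namespace FIRSTF_

variable {d : ℕ}

/-- the normal and the angular coordinates -/
noncomputable def sp (x : E (d + 1)) : ℝ × (Fin d → ℝ) := (x 0, th x)

/-- the same as a measurable equivalence -/
noncomputable def spe : E (d + 1) ≃ᵐ ℝ × (Fin d → ℝ) :=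
  (MeasurableEquiv.toLp 2 (Fin (d + 1) → ℝ)).symm.trans
    (MeasurableEquiv.piFinSuccAbove (fun _ : Fin (d + 1) => ℝ) 0)

lemma spe_apply (x : E (d + 1)) : spe x = (x 0, th x) := rfl

lemma spe_mp : MeasurePreserving (spe : E (d + 1) ≃ᵐ ℝ × (Fin d → ℝ)) volume volume :=
  (EuclideanSpace.volume_preserving_symm_measurableEquiv_toLp (Fin (d + 1))).trans
    (volume_preserving_piFinSuccAbove (fun _ : Fin (d + 1) => ℝ) 0)

lemma cell_eq (w : ℝ) : Cell d w =
    spe ⁻¹' ({t : ℝ | |t| < w} ×ˢ (Set.pi univ fun _ : Fin d => Ico (0 : ℝ) 1)) := by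
  ext x
  simp only [Cell, mem_ofPred_eq, mem_preimage, spe_apply, mem_prod, Set.mem_pi, mem_univ,
    forall_true_left, mem_Ico]
  rfl

lemma int_split (w : ℝ) (p : ℝ → ℝ) (q : (Fin d → ℝ) → ℝ) :
    ∫ x in Cell d w, p (x 0) * q (th x) =
      (∫ t in {t : ℝ | |t| < w}, p t) * ∫ y in Icc (0 : Fin d → ℝ) 1, q y := by
  have h1 := (spe_mp (d := d)).setIntegral_preimage_emb spe.measurableEmbedding
    (fun z : ℝ × (Fin d → ℝ) => p z.1 * q z.2)
    ({t : ℝ | |t| < w} ×ˢ (Set.pi univ fun _ : Fin d => Ico (0 : ℝ) 1))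
  rw [← cell_eq] at h1
  have h2 : ∫ x in Cell d w, p (x 0) * q (th x) =
      ∫ x in Cell d w, (fun z : ℝ × (Fin d → ℝ) => p z.1 * q z.2) (spe x) := rfl
  rw [h2, h1, Measure.volume_eq_prod, setIntegral_prod_mul]
  congr 1
  exact setIntegral_congr_set Measure.univ_pi_Ico_ae_eq_Icc

lemma cell_vol (w : ℝ) : volume (Cell d w) = ENNReal.ofReal (2 * w) := by
  rw [cell_eq, (spe_mp (d := d)).measure_preimage_equiv, Measure.volume_eq_prod,
    Measure.prod_prod]
  have h1 : {t : ℝ | |t| < w} = Ioo (-w) w := by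
    ext t
    simp [abs_lt]
  rw [h1, Real.volume_Ioo]
  have h2 : volume (Set.pi univ fun _ : Fin d => Ico (0 : ℝ) 1) = 1 := by
    rw [Real.volume_pi_Ico]
    simp
  rw [h2, mul_one]
  congr 1
  ring

/-- the integral of a directional derivative of a periodic function vanishes -/
lemma int_dir (b : (Fin d → ℝ) → ℝ) (hb : ContDiff ℝ ∞ b)
    (hper : ∀ (x : Fin d → ℝ) (k : Fin d → ℤ), b (x + fun i => (k i : ℝ)) = b x)
    (om : Fin d → ℝ) : ∫ y in Icc (0 : Fin d → ℝ) 1, fderiv ℝ b y om = 0 := by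
  cases d with
  | zero =>
    have h0 : om = 0 := Subsingleton.elim _ _
    have h1 : ∀ y, fderiv ℝ b y om = 0 := fun y => by rw [h0, map_zero]
    simp only [h1, integral_zero]
  | succ n =>
    have hdiff : Differentiable ℝ b := hb.differentiable (by simp)
    have hcf : Continuous (fun y => fderiv ℝ b y) := hb.continuous_fderiv (by simp)
    have hdir : ∀ y, fderiv ℝ b y om = ∑ i : Fin (n + 1),
        (fderiv ℝ (fun x => om i * b x) y) (Pi.single i 1) := by
      intro y
      have h1 : om = ∑ i : Fin (n + 1), om i • (Pi.single i (1 : ℝ) : Fin (n + 1) → ℝ) := by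
        funext j
        simp [Finset.sum_apply, Pi.single_apply]
      conv_lhs => rw [h1]
      rw [map_sum]
      refine Finset.sum_congr rfl fun i _ => ?_
      rw [fderiv_const_mul (hdiff y)]
      simp
    have hdiv := integral_divergence_of_hasFDerivAt_off_countable' (E := ℝ)
      (0 : Fin (n + 1) → ℝ) 1 zero_le_one
      (fun i x => om i * b x) (fun i x => fderiv ℝ (fun x => om i * b x) x) ∅ countable_empty
      (fun i => (continuous_const.mul hb.continuous).continuousOn)
      (fun x _ i => ((hdiff x).const_mul (om i)).hasFDerivAt)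
      (by
        refine Continuous.integrableOn_Icc ?_
        have : (fun x => ∑ i : Fin (n + 1), (fderiv ℝ (fun x => om i * b x) x) (Pi.single i 1)) =
            fun x => fderiv ℝ b x om := by
          funext y
          exact (hdir y).symm
        rw [this]
        exact hcf.clm_apply continuous_const)
    rw [setIntegral_congr_fun (g := fun y => ∑ i : Fin (n + 1),
      (fderiv ℝ (fun x => om i * b x) y) (Pi.single i 1)) measurableSet_Icc
      (fun y _ => hdir y), hdiv]
    refine Finset.sum_eq_zero fun i _ => ?_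
    rw [sub_eq_zero]
    refine setIntegral_congr_fun measurableSet_Icc fun x _ => ?_
    have h2 := hper (Fin.insertNth i (0 : ℝ) x) (fun j => if j = i then 1 else 0)
    have h3 : (Fin.insertNth i (0 : ℝ) x : Fin (n + 1) → ℝ) +
        (fun j => (((if j = i then 1 else 0 : ℤ)) : ℝ)) = Fin.insertNth i (1 : ℝ) x := by
      funext j
      refine Fin.succAboveCases i ?_ (fun k => ?_) j
      · simp
      · simp [Fin.succAbove_ne]
    rw [h3] at h2
    show om i * b (Fin.insertNth i (1 : ℝ) x) = om i * b (Fin.insertNth i (0 : ℝ) x)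
    rw [h2]

/-- bounded on a smaller strip -/
lemma bdd_strip (w : ℝ) (hw : 0 < w) (u : E (d + 1) → ℝ) (hu : ContinuousOn u (Strip d w))
    (hper : ∀ x ∈ Strip d w, ∀ v ∈ Lat d, u (x + v) = u x) :
    ∃ C : ℝ, ∀ x ∈ Strip d (w / 2), |u x| ≤ C := by
  set K : Set (E (d + 1)) := {x | |x 0| ≤ w / 2 ∧ ∀ i : Fin d, 0 ≤ x i.succ ∧ x i.succ ≤ 1}
    with hK
  have hcomp : IsCompact K := by
    have hKc : IsCompact ((WithLp.ofLp : E (d + 1) → (Fin (d + 1) → ℝ)) ''  K) := by
      have h1 : IsCompact (Set.pi univ (fun i : Fin (d + 1) =>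
          (Fin.cons (Icc (-(w / 2)) (w / 2)) (fun _ : Fin d => Icc (0 : ℝ) 1) :
            Fin (d + 1) → Set ℝ) i)) := by
        refine isCompact_univ_pi fun i => ?_
        refine Fin.cases ?_ (fun j => ?_) i
        · exact isCompact_Icc
        · exact isCompact_Icc
      refine h1.of_isClosed_subset ?_ ?_
      · have h2 : (WithLp.ofLp : E (d + 1) → (Fin (d + 1) → ℝ)) ''  K =
            {y | |y 0| ≤ w / 2 ∧ ∀ i : Fin d, 0 ≤ y i.succ ∧ y i.succ ≤ 1} := by
          ext y
          constructor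
          · rintro ⟨x, hx, rfl⟩
            exact hx
          · intro hy
            exact ⟨WithLp.toLp 2 y, hy, rfl⟩
        rw [h2]
        refine IsClosed.and ?_ ?_
        · exact isClosed_le ((continuous_apply 0).abs) continuous_const
        · have h6 : {y : Fin (d + 1) → ℝ | ∀ i : Fin d, 0 ≤ y i.succ ∧ y i.succ ≤ 1} =
              ⋂ i : Fin d, {y : Fin (d + 1) → ℝ | 0 ≤ y i.succ ∧ y i.succ ≤ 1} := by
            ext y
            simp
          rw [h6]
          exact isClosed_iInter fun i => IsClosed.and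
            (isClosed_le continuous_const (continuous_apply _))
            (isClosed_le (continuous_apply _) continuous_const)
      · rintro y ⟨x, hx, rfl⟩
        rw [Set.mem_pi]
        intro i _
        refine Fin.cases ?_ (fun j => ?_) i
        · exact abs_le.1 hx.1
        · exact hx.2 j
    have h3 := hKc.image (PiLp.continuous_toLp 2 (fun _ : Fin (d + 1) => ℝ))
    have h4 : (WithLp.toLp 2 : (Fin (d + 1) → ℝ) → E (d + 1)) ''
        ((WithLp.ofLp : E (d + 1) → (Fin (d + 1) → ℝ)) ''  K) = K := by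
      rw [← image_comp]
      have : (WithLp.toLp 2 : (Fin (d + 1) → ℝ) → E (d + 1)) ∘
          (WithLp.ofLp : E (d + 1) → (Fin (d + 1) → ℝ)) = id := rfl
      rw [this, image_id]
    rw [← h4]
    exact h3
  have hKs : K ⊆ Strip d w := by
    intro x hx
    show |x 0| < w
    have := hx.1
    linarith
  obtain ⟨C, hC⟩ := hcomp.exists_bound_of_continuousOn (hu.mono hKs)
  refine ⟨C, ?_⟩
  intro x hx
  have hx0 : |x 0| < w / 2 := hx
  set v : E (d + 1) := WithLp.toLp 2 (Fin.cons 0 (fun i : Fin d => -(⌊x i.succ⌋ : ℝ))) with hv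
  have hv0 : v 0 = 0 := rfl
  have hvs : ∀ i : Fin d, v i.succ = -(⌊x i.succ⌋ : ℝ) := fun i => rfl
  have hvL : v ∈ Lat d := by
    refine ⟨hv0, fun i => ?_⟩
    refine Fin.cases ?_ (fun j => ?_) i
    · exact ⟨0, by rw [hv0]; simp⟩
    · exact ⟨-⌊x j.succ⌋, by rw [hvs]; push_cast; rfl⟩
  have hxK : x + v ∈ K := by
    refine ⟨?_, fun i => ?_⟩
    · rw [PiLp.add_apply, hv0, add_zero]
      exact hx0.le
    · rw [PiLp.add_apply, hvs]
      have h1 := Int.floor_le (x i.succ)
      have h2 := Int.lt_floor_add_one (x i.succ)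
      constructor <;> linarith
  have hxS : x ∈ Strip d w := by
    show |x 0| < w
    linarith
  have h5 := hC _ hxK
  rw [hper x hxS v hvL, Real.norm_eq_abs] at h5
  exact h5

/-- the angular coordinates as a linear map -/
noncomputable def thL : E (d + 1) →L[ℝ] (Fin d → ℝ) :=
  ContinuousLinearMap.pi fun i : Fin d => (EuclideanSpace.proj i.succ : E (d + 1) →L[ℝ] ℝ)

lemma thL_apply (x : E (d + 1)) : thL x = th x := rfl

/-- the bump function -/
noncomputable def bp : ContDiffBump (0 : ℝ) := ⟨1 / 2, 1, by norm_num, by norm_num⟩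

lemma bp_zero (t : ℝ) (ht : 1 ≤ |t|) : bp t = 0 := by
  have h1 : t ∉ Function.support (bp : ℝ → ℝ) := by
    rw [ContDiffBump.support_eq, mem_ball_zero_iff, Real.norm_eq_abs]
    exact not_lt.2 ht
  exact Function.notMem_support.1 h1

lemma dbp_zero (t : ℝ) (ht : 1 ≤ |t|) : deriv (bp : ℝ → ℝ) t = 0 := by
  refine IsLocalMin.deriv_eq_zero ?_
  refine Filter.Eventually.of_forall fun y => ?_
  simp only [bp_zero t ht]
  exact bp.nonneg

lemma bp_cs : HasCompactSupport (bp : ℝ → ℝ) := bp.hasCompactSupport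

lemma bp_cd : ContDiff ℝ ∞ (bp : ℝ → ℝ) := bp.contDiff

lemma dbp_cont : Continuous (deriv (bp : ℝ → ℝ)) := bp_cd.continuous_deriv (by simp)

/-- `∫ t bp' t = - ∫ bp` -/
lemma int_psi : ∫ t, t * deriv (bp : ℝ → ℝ) t = - ∫ t, bp t := by
  have hcs : HasCompactSupport (deriv (bp : ℝ → ℝ)) := bp_cs.deriv
  have h := integral_mul_deriv_eq_deriv_mul_of_integrable (u := fun t : ℝ => t) (v := bp)
    (u' := fun _ => 1) (v' := deriv (bp : ℝ → ℝ))
    (fun x _ => hasDerivAt_id x) (fun x _ => (bp_cd.differentiable (by simp) x).hasDerivAt)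
    ((continuous_id.mul dbp_cont).integrable_of_hasCompactSupport (hcs.mul_left))
    ((continuous_const.mul bp_cd.continuous).integrable_of_hasCompactSupport (bp_cs.mul_left))
    ((continuous_id.mul bp_cd.continuous).integrable_of_hasCompactSupport (bp_cs.mul_left))
  rw [h]
  simp

lemma psi_scale (w s : ℝ) (hs : 0 < s) (hsw : s ≤ w) :
    ∫ t in {t : ℝ | |t| < w}, (t / s) * deriv (bp : ℝ → ℝ) (t / s) = -(s * ∫ t, bp t) := by
  have h1 : ∫ t in {t : ℝ | |t| < w}, (t / s) * deriv (bp : ℝ → ℝ) (t / s) =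
      ∫ t, (t / s) * deriv (bp : ℝ → ℝ) (t / s) := by
    refine setIntegral_eq_integral_of_forall_compl_eq_zero fun t ht => ?_
    have h2 : w ≤ |t| := not_lt.1 ht
    rw [dbp_zero, mul_zero]
    rw [abs_div, abs_of_pos hs, le_div_iff₀ hs]
    linarith
  rw [h1]
  have h3 := Measure.integral_comp_div (fun t : ℝ => t * deriv (bp : ℝ → ℝ) t) s
  rw [h3, int_psi, abs_of_pos hs, smul_eq_mul]
  ring

/-- the test function -/
noncomputable def tf (b : (Fin d → ℝ) → ℝ) (s : ℝ) (x : E (d + 1)) : ℝ :=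
  bp (x 0 / s) * b (th x)

lemma tf_cd (b : (Fin d → ℝ) → ℝ) (hb : ContDiff ℝ ∞ b) (s : ℝ) : ContDiff ℝ ∞ (tf b s) := by
  have h1 : ContDiff ℝ ∞ (fun x : E (d + 1) => x 0 / s) :=
    ((EuclideanSpace.proj (0 : Fin (d + 1)) : E (d + 1) →L[ℝ] ℝ).contDiff).div_const s
  have h2 : ContDiff ℝ ∞ (fun x : E (d + 1) => b (th x)) := hb.comp (thL (d := d)).contDiff
  exact (bp_cd.comp h1).mul h2

lemma tf_fderiv (b : (Fin d → ℝ) → ℝ) (hb : ContDiff ℝ ∞ b) (s : ℝ) (x v : E (d + 1)) :
    fderiv ℝ (tf b s) x v = deriv (bp : ℝ → ℝ) (x 0 / s) * (v 0 / s) * b (th x) +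
      bp (x 0 / s) * fderiv ℝ b (th x) (th v) := by
  have h1 : HasFDerivAt (fun x : E (d + 1) => x 0 / s)
      (s⁻¹ • (EuclideanSpace.proj (0 : Fin (d + 1)) : E (d + 1) →L[ℝ] ℝ)) x := by
    have h := ((EuclideanSpace.proj (0 : Fin (d + 1)) : E (d + 1) →L[ℝ] ℝ).hasFDerivAt
      (x := x)).const_smul s⁻¹
    refine h.congr_of_eventuallyEq (Filter.Eventually.of_forall fun y => ?_)
    simp [div_eq_inv_mul]
  have h2 : HasDerivAt (bp : ℝ → ℝ) (deriv (bp : ℝ → ℝ) (x 0 / s)) (x 0 / s) :=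
    (bp_cd.differentiable (by simp) _).hasDerivAt
  have h3 := h2.comp_hasFDerivAt x h1
  have h4 : HasFDerivAt (fun x : E (d + 1) => b (th x)) ((fderiv ℝ b (th x)).comp thL) x :=
    ((hb.differentiable (by simp) (th x)).hasFDerivAt).comp x (thL (d := d)).hasFDerivAt
  have h5 := h3.mul h4
  have h6 : fderiv ℝ (tf b s) x = _ := h5.fderiv
  rw [h6]
  simp only [add_apply, smul_apply,
    ContinuousLinearMap.comp_apply, smul_eq_mul, thL_apply, Function.comp_apply]
  have h7 : (EuclideanSpace.proj (0 : Fin (d + 1)) : E (d + 1) →L[ℝ] ℝ) v = v 0 := rfl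
  rw [h7]
  ring

lemma cell_meas (w : ℝ) : MeasurableSet (Cell d w) := by
  rw [cell_eq]
  refine spe.measurable ?_
  refine MeasurableSet.prod ?_ (MeasurableSet.univ_pi fun _ => measurableSet_Ico)
  have h1 : {t : ℝ | |t| < w} = Ioo (-w) w := by
    ext t
    simp [abs_lt]
  rw [h1]
  exact measurableSet_Ioo

lemma cell_th {w : ℝ} {x : E (d + 1)} (hx : x ∈ Cell d w) : th x ∈ Icc (0 : Fin d → ℝ) 1 :=
  ⟨fun i => (hx.2 i).1, fun i => (hx.2 i).2.le⟩

/-- continuous functions are integrable over cells, if they are bounded there -/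
lemma int_cell (w : ℝ) (f : E (d + 1) → ℝ) (hf : ContinuousOn f (Strip d w))
    (C : ℝ) (hC : ∀ x ∈ Cell d w, |f x| ≤ C) : IntegrableOn f (Cell d w) := by
  have h1 : ContinuousOn f (Cell d w) := hf.mono fun x hx => hx.1
  refine IntegrableOn.of_bound ?_ (h1.aestronglyMeasurable (cell_meas w)) C ?_
  · rw [cell_vol]
    exact ENNReal.ofReal_lt_top
  · refine (ae_restrict_mem (cell_meas w)).mono fun x hx => ?_
    rw [Real.norm_eq_abs]
    exact hC x hx

/-- a periodic function whose square has integral zero vanishes -/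
lemma per_zero (b : (Fin d → ℝ) → ℝ) (hb : Continuous b)
    (hper : ∀ (x : Fin d → ℝ) (k : Fin d → ℤ), b (x + fun i => (k i : ℝ)) = b x)
    (h0 : ∫ y in Icc (0 : Fin d → ℝ) 1, b y ^ 2 = 0) (y : Fin d → ℝ) : b y = 0 := by
  have h1 : (fun y => b y ^ 2) =ᵐ[volume.restrict (Icc (0 : Fin d → ℝ) 1)] 0 := by
    refine (setIntegral_eq_zero_iff_of_nonneg_ae ?_ ?_).1 h0
    · exact Filter.Eventually.of_forall fun y => sq_nonneg _
    · exact (hb.pow 2).integrableOn_Icc
  set O : Set (Fin d → ℝ) := Set.pi univ fun _ => Ioo (0 : ℝ) 1 with hO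
  have hOo : IsOpen O := isOpen_set_pi finite_univ fun _ _ => isOpen_Ioo
  have hOs : O ⊆ Icc (0 : Fin d → ℝ) 1 := by
    intro z hz
    rw [hO, Set.mem_pi] at hz
    exact ⟨fun i => (hz i (mem_univ i)).1.le, fun i => (hz i (mem_univ i)).2.le⟩
  have h2 : volume ({z | b z ≠ 0} ∩ O) = 0 := by
    have h3 : ∀ᵐ z ∂(volume : Measure (Fin d → ℝ)), z ∈ Icc (0 : Fin d → ℝ) 1 → b z ^ 2 = 0 :=
      (ae_restrict_iff' measurableSet_Icc).1 h1
    refine measure_mono_null ?_ h3
    rintro z ⟨hz1, hz2⟩ hz3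
    exact hz1 (pow_eq_zero_iff two_ne_zero |>.1 (hz3 (hOs hz2)))
  have h4 : IsOpen ({z | b z ≠ 0} ∩ O) := (isOpen_ne_fun hb continuous_const).inter hOo
  have h5 : ({z | b z ≠ 0} ∩ O) = ∅ := (h4.measure_eq_zero_iff (μ := volume)).1 h2
  have h6 : closure O ⊆ {z | b z = 0} := by
    refine closure_minimal ?_ (isClosed_eq hb continuous_const)
    intro z hz
    by_contra hcon
    have : z ∈ ({z | b z ≠ 0} ∩ O) := ⟨hcon, hz⟩
    rw [h5] at this
    exact this
  have h7 : closure O = Set.pi univ fun _ => Icc (0 : ℝ) 1 := by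
    rw [hO, closure_pi_set]
    simp
  have h8 : (fun i => Int.fract (y i)) ∈ closure O := by
    rw [h7, Set.mem_pi]
    exact fun i _ => ⟨Int.fract_nonneg _, (Int.fract_lt_one _).le⟩
  have h9 : b (fun i => Int.fract (y i)) = 0 := h6 h8
  have h10 := hper (fun i => Int.fract (y i)) (fun i => ⌊y i⌋)
  have h11 : (fun i => Int.fract (y i)) + (fun i => ((⌊y i⌋ : ℤ) : ℝ)) = y := by
    funext i
    exact Int.fract_add_floor _
  rw [h11, h9] at h10
  exact h10

lemma cell_mono {s w : ℝ} (h : s ≤ w) : Cell d s ⊆ Cell d w :=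
  fun _ hx => ⟨lt_of_lt_of_le hx.1 h, hx.2⟩

/-- the first normal Taylor coefficient of `Y x 0` vanishes -/
lemma b_zero (w w1 C1 : ℝ) (om : E (d + 1)) (Y : E (d + 1) → E (d + 1))
    (hY : LiftField d w om Y) (hw1 : 0 < w1) (hw1w : w1 ≤ w) (hC1 : 0 < C1)
    (b : (Fin d → ℝ) → ℝ) (hb : ContDiff ℝ ∞ b)
    (hper : ∀ (x : Fin d → ℝ) (k : Fin d → ℤ), b (x + fun i => (k i : ℝ)) = b x)
    (h1 : ∀ x ∈ Strip d w1, ‖Y x - om‖ ≤ C1 * |x 0|)
    (h2 : ∀ x ∈ Strip d w1, |Y x 0 - b (th x) * x 0| ≤ C1 * |x 0| ^ 2) (y : Fin d → ℝ) :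
    b y = 0 := by
  have hdb : Continuous (fun y => fderiv ℝ b y) := hb.continuous_fderiv (by simp)
  obtain ⟨B, hB⟩ := (isCompact_Icc (a := (0 : Fin d → ℝ)) (b := 1)).exists_bound_of_continuousOn
    hb.continuous.continuousOn
  obtain ⟨G, hG⟩ := (isCompact_Icc (a := (0 : Fin d → ℝ)) (b := 1)).exists_bound_of_continuousOn
    hdb.continuousOn
  have hB0 : 0 ≤ B := le_trans (norm_nonneg _) (hB 0 ⟨le_refl _, zero_le_one⟩)
  have hG0 : 0 ≤ G := le_trans (norm_nonneg _) (hG 0 ⟨le_refl _, zero_le_one⟩)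
  obtain ⟨D, hD⟩ := bp_cs.deriv.exists_bound_of_continuous dbp_cont
  have hD0 : 0 ≤ D := le_trans (norm_nonneg _) (hD 0)
  set g : (Fin d → ℝ) → ℝ := fun y => fderiv ℝ b y (th om) with hg
  have hgc : Continuous g := hdb.clm_apply continuous_const
  set K : ℝ := D * C1 * B + G * (‖(thL : E (d + 1) →L[ℝ] (Fin d → ℝ))‖ * C1) with hK
  have hK0 : 0 ≤ K := by positivity
  set J : ℝ := ∫ y in Icc (0 : Fin d → ℝ) 1, b y ^ 2 with hJ
  set P : ℝ := ∫ t, bp t with hP
  have hP0 : 0 < P := bp.integral_pos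
  have hJ0 : 0 ≤ J := integral_nonneg fun y => sq_nonneg _
  have hthc : Continuous (fun x : E (d + 1) => th x) := (thL (d := d)).continuous
  have hx0c : Continuous (fun x : E (d + 1) => x 0) :=
    (EuclideanSpace.proj (0 : Fin (d + 1)) : E (d + 1) →L[ℝ] ℝ).continuous
  -- the main estimate
  have key : ∀ s : ℝ, 0 < s → s < w1 → P * J ≤ 2 * K * s := by
    intro s hs hsw1
    have hsw : s < w := lt_of_lt_of_le hsw1 hw1w
    set I : E (d + 1) → ℝ := fun x => fderiv ℝ (tf b s) x (Y x) with hI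
    set A : E (d + 1) → ℝ := fun x => bp (x 0 / s) * g (th x) with hA
    set Q : E (d + 1) → ℝ := fun x => ((x 0 / s) * deriv (bp : ℝ → ℝ) (x 0 / s)) *
      (b (th x) ^ 2) with hQ
    set R : E (d + 1) → ℝ := fun x => I x - A x - Q x with hR
    have hIform : ∀ x, I x = deriv (bp : ℝ → ℝ) (x 0 / s) * (Y x 0 / s) * b (th x) +
        bp (x 0 / s) * fderiv ℝ b (th x) (th (Y x)) := fun x => tf_fderiv b hb s x (Y x)
    have hI0 : ∫ x in Cell d w, I x = 0 := by
      refine hY.div (tf b s) (tf_cd b hb s) ?_ ⟨s, hsw, ?_⟩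
      · intro x v hv
        obtain ⟨hv0, hv1⟩ := hv
        choose k hk using hv1
        have e1 : (x + v) 0 = x 0 := by rw [PiLp.add_apply, hv0, add_zero]
        have e2 : th (x + v) = th x + fun i => ((k i.succ : ℤ) : ℝ) := by
          funext i
          show (x + v) i.succ = x i.succ + _
          rw [PiLp.add_apply, hk]
        show bp ((x + v) 0 / s) * b (th (x + v)) = bp (x 0 / s) * b (th x)
        rw [e1, e2, hper]
      · intro x hx
        show bp (x 0 / s) * b (th x) = 0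
        rw [bp_zero, zero_mul]
        rw [abs_div, abs_of_pos hs, le_div_iff₀ hs]
        linarith
    have hAi : ∫ x in Cell d w, A x = 0 := by
      rw [hA, int_split w (fun t => bp (t / s)) g, int_dir b hb hper (th om), mul_zero]
    have hQi : ∫ x in Cell d w, Q x = -(s * P) * J := by
      rw [hQ, int_split w (fun t => (t / s) * deriv (bp : ℝ → ℝ) (t / s)) (fun y => b y ^ 2),
        psi_scale w s hs hsw.le]
    have hRout : ∀ x, s ≤ |x 0| → R x = 0 := by
      intro x hx
      have h3 : 1 ≤ |x 0 / s| := by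
        rw [abs_div, abs_of_pos hs, le_div_iff₀ hs]
        linarith
      show I x - A x - Q x = 0
      rw [hIform x, hA, hQ]
      simp only [bp_zero _ h3, dbp_zero _ h3]
      ring
    have hRin : ∀ x ∈ Cell d s, ‖R x‖ ≤ K * s := by
      intro x hx
      have hxs : |x 0| < s := hx.1
      have hxw1 : x ∈ Strip d w1 := lt_trans hxs hsw1
      have h3 := h1 x hxw1
      have h4 := h2 x hxw1
      have h5 : ‖b (th x)‖ ≤ B := hB _ (cell_th hx)
      have h6 : ‖fderiv ℝ b (th x)‖ ≤ G := hG _ (cell_th hx)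
      have h7 : ‖deriv (bp : ℝ → ℝ) (x 0 / s)‖ ≤ D := hD _
      have h8 : ‖bp (x 0 / s)‖ ≤ 1 := by
        rw [Real.norm_eq_abs, abs_of_nonneg bp.nonneg]
        exact bp.le_one
      have h9 : R x = deriv (bp : ℝ → ℝ) (x 0 / s) * ((Y x 0 - b (th x) * x 0) / s) * b (th x) +
          bp (x 0 / s) * fderiv ℝ b (th x) (thL (Y x - om)) := by
        show I x - A x - Q x = _
        rw [hIform x, hA, hQ, hg]
        simp only [map_sub, thL_apply]
        ring
      have h10 : ‖(Y x 0 - b (th x) * x 0) / s‖ ≤ C1 * s := by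
        rw [Real.norm_eq_abs, abs_div, abs_of_pos hs, div_le_iff₀ hs]
        have h11 : |x 0| ^ 2 ≤ s * s := by
          have := abs_nonneg (x 0)
          nlinarith
        nlinarith
      have h12 : ‖fderiv ℝ b (th x) (thL (Y x - om))‖ ≤
          G * (‖(thL : E (d + 1) →L[ℝ] (Fin d → ℝ))‖ * C1) * s := by
        refine (ContinuousLinearMap.le_opNorm _ _).trans ?_
        have h13 := ContinuousLinearMap.le_opNorm (thL : E (d + 1) →L[ℝ] (Fin d → ℝ)) (Y x - om)
        have h14 : ‖Y x - om‖ ≤ C1 * s := h3.trans (by nlinarith)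
        have h15 : ‖thL (Y x - om)‖ ≤ ‖(thL : E (d + 1) →L[ℝ] (Fin d → ℝ))‖ * (C1 * s) :=
          h13.trans (mul_le_mul_of_nonneg_left h14 (norm_nonneg _))
        calc ‖fderiv ℝ b (th x)‖ * ‖thL (Y x - om)‖
            ≤ G * (‖(thL : E (d + 1) →L[ℝ] (Fin d → ℝ))‖ * (C1 * s)) :=
              mul_le_mul h6 h15 (norm_nonneg _) hG0
          _ = _ := by ring
      rw [h9]
      refine (norm_add_le _ _).trans ?_
      have h16 : ‖deriv (bp : ℝ → ℝ) (x 0 / s) * ((Y x 0 - b (th x) * x 0) / s) * b (th x)‖ ≤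
          D * (C1 * s) * B := by
        rw [norm_mul, norm_mul]
        exact mul_le_mul (mul_le_mul h7 h10 (norm_nonneg _) hD0) h5 (norm_nonneg _)
          (by positivity)
      have h17 : ‖bp (x 0 / s) * fderiv ℝ b (th x) (thL (Y x - om))‖ ≤
          1 * (G * (‖(thL : E (d + 1) →L[ℝ] (Fin d → ℝ))‖ * C1) * s) := by
        rw [norm_mul]
        exact mul_le_mul h8 h12 (norm_nonneg _) zero_le_one
      calc _ ≤ D * (C1 * s) * B + 1 * (G * (‖(thL : E (d + 1) →L[ℝ] (Fin d → ℝ))‖ * C1) * s) :=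
            add_le_add h16 h17
        _ = K * s := by
          rw [hK]
          ring
    have hsplit : ∀ x ∈ Cell d w, x ∈ Cell d s ∨ s ≤ |x 0| := by
      intro x hx
      rcases lt_or_ge (|x 0|) s with h | h
      · exact Or.inl ⟨h, hx.2⟩
      · exact Or.inr h
    have hRb : ∀ x ∈ Cell d w, |R x| ≤ K * s := by
      intro x hx
      rcases hsplit x hx with h | h
      · exact hRin x h
      · rw [hRout x h, abs_zero]
        positivity
    have hAb : ∀ x ∈ Cell d w, |A x| ≤ G * ‖th om‖ := by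
      intro x hx
      have h6 : ‖fderiv ℝ b (th x)‖ ≤ G := hG _ (cell_th hx)
      have h8 : ‖bp (x 0 / s)‖ ≤ 1 := by
        rw [Real.norm_eq_abs, abs_of_nonneg bp.nonneg]
        exact bp.le_one
      have h9 : ‖g (th x)‖ ≤ G * ‖th om‖ :=
        (ContinuousLinearMap.le_opNorm _ _).trans (mul_le_mul_of_nonneg_right h6 (norm_nonneg _))
      have h10 : ‖bp (x 0 / s) * g (th x)‖ ≤ 1 * (G * ‖th om‖) := by
        rw [norm_mul]
        exact mul_le_mul h8 h9 (norm_nonneg _) zero_le_one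
      rw [one_mul] at h10
      exact h10
    have hQb : ∀ x ∈ Cell d w, |Q x| ≤ D * B ^ 2 := by
      intro x hx
      rcases hsplit x hx with h | h
      · have h5 : ‖b (th x)‖ ≤ B := hB _ (cell_th hx)
        have h7 : ‖deriv (bp : ℝ → ℝ) (x 0 / s)‖ ≤ D := hD _
        have h8 : ‖x 0 / s‖ ≤ 1 := by
          rw [Real.norm_eq_abs, abs_div, abs_of_pos hs, div_le_iff₀ hs, one_mul]
          exact h.1.le
        have h9 : ‖((x 0 / s) * deriv (bp : ℝ → ℝ) (x 0 / s)) * (b (th x) ^ 2)‖ ≤
            (1 * D) * B ^ 2 := by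
          rw [norm_mul, norm_mul, norm_pow]
          exact mul_le_mul (mul_le_mul h8 h7 (norm_nonneg _) zero_le_one)
            (pow_le_pow_left₀ (norm_nonneg _) h5 2) (by positivity) (by positivity)
        rw [one_mul] at h9
        exact h9
      · have h3 : 1 ≤ |x 0 / s| := by
          rw [abs_div, abs_of_pos hs, le_div_iff₀ hs]
          linarith
        have h4 : Q x = 0 := by
          rw [hQ]
          simp only [dbp_zero _ h3]
          ring
        rw [h4, abs_zero]
        positivity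
    have hAc : Continuous A := by
      rw [hA]
      exact (bp_cd.continuous.comp (hx0c.div_const s)).mul (hgc.comp hthc)
    have hQc : Continuous Q := by
      rw [hQ]
      exact ((hx0c.div_const s).mul (dbp_cont.comp (hx0c.div_const s))).mul
        ((hb.continuous.comp hthc).pow 2)
    have hYc : ContinuousOn Y (Strip d w) := hY.smooth.continuousOn
    have hIc : ContinuousOn I (Strip d w) := by
      have h3 : Continuous (fun x => fderiv ℝ (tf b s) x) :=
        (tf_cd b hb s).continuous_fderiv (by simp)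
      rw [hI]
      exact h3.continuousOn.clm_apply hYc
    have hRc : ContinuousOn R (Strip d w) := by
      rw [hR]
      exact (hIc.sub hAc.continuousOn).sub hQc.continuousOn
    have hAint := int_cell w A hAc.continuousOn _ hAb
    have hQint := int_cell w Q hQc.continuousOn _ hQb
    have hRint := int_cell w R hRc _ hRb
    have hIdec : I = fun x => (R x + A x) + Q x := by
      funext x
      show I x = (I x - A x - Q x + A x) + Q x
      ring
    have hRAint : IntegrableOn (fun x => R x + A x) (Cell d w) := hRint.add hAint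
    have hsum : (∫ x in Cell d w, R x) = s * P * J := by
      have h3 : ∫ x in Cell d w, I x = ((∫ x in Cell d w, R x) + ∫ x in Cell d w, A x) +
          ∫ x in Cell d w, Q x := by
        rw [hIdec, integral_add hRAint hQint, integral_add hRint hAint]
      rw [hI0, hAi, hQi] at h3
      linarith
    have hres : (∫ x in Cell d w, R x) = ∫ x in Cell d s, R x := by
      refine setIntegral_eq_of_subset_of_forall_sdiff_eq_zero (cell_meas w)
        (cell_mono hsw.le) ?_
      intro x hx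
      rcases hsplit x hx.1 with h | h
      · exact absurd h hx.2
      · exact hRout x h
    have hbd : ‖∫ x in Cell d s, R x‖ ≤ (K * s) * (2 * s) := by
      have h3 := norm_setIntegral_le_of_norm_le_const (μ := volume) (s := Cell d s)
        (by rw [cell_vol]; exact ENNReal.ofReal_lt_top) hRin
      have h4 : (volume : Measure (E (d + 1))).real (Cell d s) = 2 * s := by
        rw [Measure.real, cell_vol, ENNReal.toReal_ofReal (by positivity)]
      rw [h4] at h3
      exact h3
    rw [← hres, hsum, Real.norm_eq_abs, abs_of_nonneg (by positivity)] at hbd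
    have h18 : s * (P * J) ≤ s * (2 * K * s) := by
      calc s * (P * J) = s * P * J := by ring
        _ ≤ (K * s) * (2 * s) := hbd
        _ = s * (2 * K * s) := by ring
    exact le_of_mul_le_mul_left h18 hs
  have hJz : J = 0 := by
    by_contra hne
    have hJp : 0 < J := lt_of_le_of_ne hJ0 (Ne.symm hne)
    have hPJ : 0 < P * J := mul_pos hP0 hJp
    set s : ℝ := min (w1 / 2) (P * J / (2 * (2 * K + 1))) with hs
    have hs0 : 0 < s := lt_min (by positivity) (by positivity)
    have hsw : s < w1 := lt_of_le_of_lt (min_le_left _ _) (by linarith)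
    have h3 := key s hs0 hsw
    have h4 : s ≤ P * J / (2 * (2 * K + 1)) := min_le_right _ _
    rw [le_div_iff₀ (by positivity)] at h4
    nlinarith
  exact per_zero b hb.continuous hper hJz y

lemma norm_le_sum (v : E (d + 1)) : ‖v‖ ≤ ∑ i, |v i| := by
  have h1 := (EuclideanSpace.basisFun (Fin (d + 1)) ℝ).sum_repr v
  calc ‖v‖ = ‖∑ i, (EuclideanSpace.basisFun (Fin (d + 1)) ℝ).repr v i •
        (EuclideanSpace.basisFun (Fin (d + 1)) ℝ) i‖ := by rw [h1]
    _ ≤ ∑ i, ‖(EuclideanSpace.basisFun (Fin (d + 1)) ℝ).repr v i •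
        (EuclideanSpace.basisFun (Fin (d + 1)) ℝ) i‖ := norm_sum_le _ _
    _ = ∑ i, |v i| := by
      refine Finset.sum_congr rfl fun i _ => ?_
      rw [norm_smul, OrthonormalBasis.norm_eq_one, mul_one, Real.norm_eq_abs]
      rfl

/-- the coordinates of `Y - om` -/
lemma coord (h1 : T_TAYZ) (w : ℝ) (om : E (d + 1)) (Y : E (d + 1) → E (d + 1))
    (hY : LiftField d w om Y) (i : Fin (d + 1)) :
    ∃ w' C' : ℝ, 0 < w' ∧ w' ≤ w ∧ 0 < C' ∧ ∀ x ∈ Strip d w', |Y x i - om i| ≤ C' * |x 0| := by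
  have hw := hY.pos
  have hcd : ContDiffOn ℝ ∞ (fun x => Y x i - om i) (Strip d w) := by
    have h2 : ContDiffOn ℝ ∞ (fun x => Y x i) (Strip d w) :=
      (EuclideanSpace.proj i : E (d + 1) →L[ℝ] ℝ).contDiff.comp_contDiffOn hY.smooth
    exact h2.sub contDiffOn_const
  have hper : ∀ x ∈ Strip d w, ∀ v ∈ Lat d, (fun x => Y x i - om i) (x + v) =
      (fun x => Y x i - om i) x := by
    intro x hx v hv
    show Y (x + v) i - om i = Y x i - om i
    rw [hY.per x hx v hv]
  obtain ⟨C, hC⟩ := bdd_strip w hw (fun x => Y x i - om i) hcd.continuousOn hper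
  have hsub : Strip d (w / 2) ⊆ Strip d w := by
    intro x hx
    have hx' : |x 0| < w / 2 := hx
    show |x 0| < w
    linarith
  obtain ⟨b, w', C', hb, hw', hw'w, hC', hbper, hbx⟩ := h1 d 0 (w / 2) C
    (fun x => Y x i - om i) (by positivity) (hcd.mono hsub) (fun x hx => hper x (hsub hx))
    (by
      intro x hx
      rw [pow_zero, mul_one]
      exact hC x hx)
  refine ⟨w', C', hw', by linarith, hC', ?_⟩
  intro x hx
  have hx' : |x 0| < w' := hx
  have hb0 : b (th x) = 0 := by
    have h3 := hbx (WithLp.toLp 2 (Fin.cons 0 (th x)))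
      (by show |(0 : ℝ)| < w'; rw [abs_zero]; exact hw')
    have h4 : Y (WithLp.toLp 2 (Fin.cons 0 (th x))) = om := hY.zero _ rfl
    have h5 : th (WithLp.toLp 2 (Fin.cons 0 (th x)) : E (d + 1)) = th x := rfl
    simp only [h4, h5, Fin.cons_zero, abs_zero, pow_zero, mul_one, sub_self, zero_sub, abs_neg,
      zero_add, pow_one, mul_zero] at h3
    exact abs_eq_zero.1 (le_antisymm h3 (abs_nonneg _))
  have h7 := hbx x hx
  rw [hb0, zero_mul, sub_zero, zero_add, pow_one] at h7
  exact h7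

end FIRSTF_

open FIRSTF_ in
theorem firstf (h1 : T_TAYZ) : T_FIRSTF := by
  intro d w om Y hY
  have hw := hY.pos
  choose w₀ C₀ hw₀ hw₀w hC₀ hco using fun i => coord h1 w om Y hY i
  set w1 : ℝ := Finset.univ.inf' Finset.univ_nonempty w₀ with hw1
  have hw1p : 0 < w1 := (Finset.lt_inf'_iff _).2 fun i _ => hw₀ i
  have hw1i : ∀ i, w1 ≤ w₀ i := fun i => Finset.inf'_le _ (Finset.mem_univ i)
  have hw1w : w1 ≤ w := (hw1i 0).trans (hw₀w 0)
  set C1 : ℝ := ∑ i, C₀ i with hC1
  have hC1p : 0 < C1 := Finset.sum_pos (fun i _ => hC₀ i) Finset.univ_nonempty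
  have hn : ∀ x ∈ Strip d w1, ‖Y x - om‖ ≤ C1 * |x 0| := by
    intro x hx
    refine (norm_le_sum _).trans ?_
    rw [hC1, Finset.sum_mul]
    refine Finset.sum_le_sum fun i _ => ?_
    have hx' : |x 0| < w1 := hx
    exact hco i x (lt_of_lt_of_le hx' (hw1i i))
  have hsub : Strip d w1 ⊆ Strip d w := fun x hx => lt_of_lt_of_le hx hw1w
  have hcd : ContDiffOn ℝ ∞ (fun x => Y x 0) (Strip d w1) :=
    ((EuclideanSpace.proj (0 : Fin (d + 1)) : E (d + 1) →L[ℝ] ℝ).contDiff.comp_contDiffOn
      hY.smooth).mono hsub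
  have hper : ∀ x ∈ Strip d w1, ∀ v ∈ Lat d, (fun x => Y x 0) (x + v) = (fun x => Y x 0) x := by
    intro x hx v hv
    show Y (x + v) 0 = Y x 0
    rw [hY.per x (hsub hx) v hv]
  obtain ⟨b, w2, C2, hb, hw2, hw2w, hC2, hbper, hbx⟩ := h1 d 1 w1 C1 (fun x => Y x 0) hw1p hcd
    hper (by
      intro x hx
      rw [pow_one]
      have h2 := hn x hx
      have h3 : |Y x 0 - om 0| ≤ ‖Y x - om‖ := by
        have := PiLp.norm_apply_le (Y x - om) 0
        rw [Real.norm_eq_abs] at this
        exact this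
      rw [hY.omega, sub_zero] at h3
      exact h3.trans h2)
  have hbz : ∀ y, b y = 0 := by
    refine b_zero w w2 (max C1 C2) om Y hY hw2 (hw2w.trans hw1w) (lt_max_of_lt_left hC1p) b hb
      hbper ?_ ?_
    · intro x hx
      have hx' : |x 0| < w2 := hx
      exact (hn x (lt_of_lt_of_le hx' hw2w)).trans
        (mul_le_mul_of_nonneg_right (le_max_left _ _) (abs_nonneg _))
    · intro x hx
      have h4 := hbx x hx
      rw [pow_one] at h4
      exact h4.trans (mul_le_mul_of_nonneg_right (le_max_right _ _) (by positivity))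
  refine ⟨w2, max C1 C2, hw2, hw2w.trans hw1w, lt_max_of_lt_left hC1p, ?_⟩
  intro x hx
  have hx' : |x 0| < w2 := hx
  refine ⟨(hn x (lt_of_lt_of_le hx' hw2w)).trans
    (mul_le_mul_of_nonneg_right (le_max_left _ _) (abs_nonneg _)), ?_⟩
  have h4 := hbx x hx
  rw [hbz, zero_mul, sub_zero] at h4
  have h5 : |x 0| ^ (1 + 1) = x 0 ^ 2 := by
    rw [one_add_one_eq_two, sq_abs]
  rw [h5] at h4
  exact h4.trans (mul_le_mul_of_nonneg_right (le_max_right _ _) (sq_nonneg _))

end Pool.Agent.PalT
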