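import Pool.Agent.PalT.Targets

/-!
# FOU: Fourier series of smooth periodic functions of `d` variables
-/

set_option autoImplicit false

open Set MeasureTheory Filter Topology Metric Asymptotics
open scoped Manifold ContDiff

namespace Pool.Agent.PalT

namespace FOU_

/-- the exponential monomials -/
noncomputable def ek {d : ℕ} (k : Fin d → ℤ) (x : Fin d → ℝ) : ℂ :=
  Complex.exp (2 * Real.pi * Complex.I * ((∑ i, (k i : ℝ) * x i : ℝ) : ℂ))

/-- invariance under integer translations -/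
def PerZ {d : ℕ} {F : Type} (g : (Fin d → ℝ) → F) : Prop :=
  ∀ (x : Fin d → ℝ) (k : Fin d → ℤ), g (x + fun i => (k i : ℝ)) = g x

lemma ek_norm {d : ℕ} (k : Fin d → ℤ) (x : Fin d → ℝ) : ‖ek k x‖ = 1 := by
  unfold ek
  rw [show 2 * (Real.pi : ℂ) * Complex.I * ((∑ i, (k i : ℝ) * x i : ℝ) : ℂ) =
    ((2 * Real.pi * (∑ i, (k i : ℝ) * x i) : ℝ) : ℂ) * Complex.I by push_cast; ring]
  exact Complex.norm_exp_ofReal_mul_I _

lemma ek_per {d : ℕ} (k : Fin d → ℤ) : PerZ (ek k) := by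
  intro x m
  unfold ek
  have h : ((∑ i, (k i : ℝ) * (x + fun i => (m i : ℝ)) i : ℝ) : ℂ) =
      ((∑ i, (k i : ℝ) * x i : ℝ) : ℂ) + ((∑ i, k i * m i : ℤ) : ℂ) := by
    push_cast
    rw [← Finset.sum_add_distrib]
    refine Finset.sum_congr rfl fun i _ => ?_
    simp only [Pi.add_apply]
    push_cast
    ring
  rw [h, mul_add, Complex.exp_add]
  have h2 : Complex.exp (2 * Real.pi * Complex.I * ((∑ i, k i * m i : ℤ) : ℂ)) = 1 := by
    rw [Complex.exp_eq_one_iff]
    exact ⟨∑ i, k i * m i, by ring⟩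
  rw [h2, mul_one]

lemma ek_contDiff {d : ℕ} (k : Fin d → ℤ) : ContDiff ℝ ∞ (ek k) := by
  unfold ek
  have h1 : ContDiff ℝ ∞ (fun x : Fin d → ℝ => (∑ i, (k i : ℝ) * x i : ℝ)) := by fun_prop
  have h2 : ContDiff ℝ ∞ (fun x : Fin d → ℝ => ((∑ i, (k i : ℝ) * x i : ℝ) : ℂ)) :=
    Complex.ofRealCLM.contDiff.comp h1
  exact (contDiff_const.mul h2).cexp

lemma ek_hasFDerivAt {d : ℕ} (k : Fin d → ℤ) (x : Fin d → ℝ) (i : Fin d) :
    fderiv ℝ (ek k) x (Pi.single i 1) = 2 * Real.pi * Complex.I * (k i : ℂ) * ek k x := by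
  have hd : DifferentiableAt ℝ (ek k) x := (ek_contDiff k).differentiable (by simp) x
  have h1 : HasDerivAt (fun t : ℝ => ek k (x + t • (Pi.single i 1 : Fin d → ℝ)))
      (fderiv ℝ (ek k) x (Pi.single i 1)) 0 := by
    have h2 : HasFDerivAt (ek k) (fderiv ℝ (ek k) x) (x + (0 : ℝ) • (Pi.single i 1 : Fin d → ℝ)) := by
      rw [zero_smul, add_zero]; exact hd.hasFDerivAt
    have h3 : HasDerivAt (fun t : ℝ => x + t • (Pi.single i 1 : Fin d → ℝ)) (Pi.single i 1) 0 := by
      have := ((hasDerivAt_id (0 : ℝ)).smul_const (Pi.single i 1 : Fin d → ℝ)).const_add x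
      simpa using this
    exact h2.comp_hasDerivAt 0 h3
  have h4 : (fun t : ℝ => ek k (x + t • (Pi.single i 1 : Fin d → ℝ))) =
      fun t : ℝ => Complex.exp (2 * Real.pi * Complex.I * (k i : ℂ) * (t : ℂ)) * ek k x := by
    funext t
    unfold ek
    rw [← Complex.exp_add]
    congr 1
    have : (∑ j, (k j : ℝ) * (x + t • (Pi.single i 1 : Fin d → ℝ)) j : ℝ) =
        (∑ j, (k j : ℝ) * x j) + k i * t := by
      simp only [Pi.add_apply, Pi.smul_apply, smul_eq_mul, mul_add, Finset.sum_add_distrib]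
      congr 1
      rw [Finset.sum_eq_single i]
      · simp
      · intro j _ hj
        simp [hj]
      · simp
    rw [this]
    push_cast
    ring
  have h5 : HasDerivAt (fun t : ℝ => Complex.exp (2 * Real.pi * Complex.I * (k i : ℂ) * (t : ℂ)) *
      ek k x) (2 * Real.pi * Complex.I * (k i : ℂ) * ek k x) 0 := by
    have h6 : HasDerivAt (fun t : ℝ => 2 * Real.pi * Complex.I * (k i : ℂ) * (t : ℂ))
        (2 * Real.pi * Complex.I * (k i : ℂ)) 0 := by
      have := (Complex.ofRealCLM.hasDerivAt (x := (0 : ℝ))).const_mul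
        (2 * Real.pi * Complex.I * (k i : ℂ))
      simpa using this
    have h7 := (h6.cexp).mul_const (ek k x)
    simpa using h7
  rw [h4] at h1
  exact h1.unique h5

/-- the coefficients -/
noncomputable def cf {d : ℕ} (g : (Fin d → ℝ) → ℂ) (k : Fin d → ℤ) : ℂ :=
  ∫ x in Icc (0 : Fin d → ℝ) 1, ek (-k) x * g x

lemma vol_cube (d : ℕ) : volume (Icc (0 : Fin d → ℝ) 1) = 1 := by
  rw [Real.volume_Icc_pi]
  simp

lemma cf_le {d : ℕ} (g : (Fin d → ℝ) → ℂ) (k : Fin d → ℤ) (M : ℝ)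
    (h : ∀ x ∈ Icc (0 : Fin d → ℝ) 1, ‖g x‖ ≤ M) : ‖cf g k‖ ≤ M := by
  unfold cf
  have h1 := norm_setIntegral_le_of_norm_le_const (μ := volume) (s := Icc (0 : Fin d → ℝ) 1)
    (f := fun x => ek (-k) x * g x) (C := M) (by rw [vol_cube]; simp)
    (fun x hx => by rw [norm_mul, ek_norm, one_mul]; exact h x hx)
  have h2 : volume.real (Icc (0 : Fin d → ℝ) 1) = 1 := by
    rw [Measure.real, vol_cube]; simp
  rw [h2, mul_one] at h1
  exact h1

/-- the integral of a derivative of a periodic function -/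
lemma int_zero {n : ℕ} (h : (Fin (n + 1) → ℝ) → ℂ) (hs : ContDiff ℝ ∞ h) (hp : PerZ h)
    (i : Fin (n + 1)) :
    ∫ x in Icc (0 : Fin (n + 1) → ℝ) 1, fderiv ℝ h x (Pi.single i 1) = 0 := by
  classical
  have hd : Differentiable ℝ h := hs.differentiable (by simp)
  have hc1 : Continuous (fun x => fderiv ℝ h x (Pi.single i 1)) := by
    have h2 : ContDiff ℝ ∞ (fderiv ℝ h) := hs.fderiv_right (by simp)
    exact h2.continuous.clm_apply continuous_const
  have key := integral_divergence_of_hasFDerivAt_off_countable' (E := ℂ) (n := n)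
    (0 : Fin (n + 1) → ℝ) 1 (fun _ => zero_le_one)
    (fun j => if j = i then h else fun _ => 0)
    (fun j x => if j = i then fderiv ℝ h x else 0) ∅ countable_empty
    (fun j => by
      by_cases hj : j = i
      · simp only [hj, if_true]; exact hs.continuous.continuousOn
      · simp only [hj, if_false]; exact continuousOn_const)
    (fun x _ j => by
      by_cases hj : j = i
      · simp only [hj, if_true]; exact (hd x).hasFDerivAt
      · simp only [hj, if_false]; exact hasFDerivAt_const _ _)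
    (by
      have h3 : (fun x => ∑ j, (if j = i then fderiv ℝ h x else 0) (Pi.single j 1)) =
          fun x => fderiv ℝ h x (Pi.single i 1) := by
        funext x
        rw [Finset.sum_eq_single i]
        · simp
        · intro j _ hj; simp [hj]
        · simp
      show IntegrableOn (fun x => ∑ j, (if j = i then fderiv ℝ h x else 0) (Pi.single j 1)) _ _
      rw [h3]
      exact hc1.continuousOn.integrableOn_compact isCompact_Icc)
  have h4 : ∀ x, (∑ j, (if j = i then fderiv ℝ h x else 0) (Pi.single j 1)) =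
      fderiv ℝ h x (Pi.single i 1) := by
    intro x
    rw [Finset.sum_eq_single i]
    · simp
    · intro j _ hj; simp [hj]
    · simp
  simp only [h4] at key
  rw [key]
  refine Finset.sum_eq_zero fun j _ => ?_
  by_cases hj : j = i
  · subst hj
    simp only [if_true]
    rw [sub_eq_zero]
    refine setIntegral_congr_fun measurableSet_Icc fun x _ => ?_
    have h5 : (j.insertNth ((1 : Fin (n + 1) → ℝ) j) x : Fin (n + 1) → ℝ) =
        (j.insertNth ((0 : Fin (n + 1) → ℝ) j) x : Fin (n + 1) → ℝ) +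
          fun l => (((Pi.single j 1 : Fin (n + 1) → ℤ) l : ℤ) : ℝ) := by
      funext l
      refine Fin.succAboveCases j ?_ (fun l' => ?_) l
      · simp
      · simp
    rw [h5]
    exact hp _ _
  · simp [hj]

lemma cf_D {n : ℕ} (g : (Fin (n + 1) → ℝ) → ℂ) (hs : ContDiff ℝ ∞ g) (hp : PerZ g)
    (i : Fin (n + 1)) (k : Fin (n + 1) → ℤ) :
    cf (fun x => fderiv ℝ g x (Pi.single i 1)) k =
      2 * Real.pi * Complex.I * (k i : ℂ) * cf g k := by
  have he := ek_contDiff (-k)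
  have hm : ContDiff ℝ ∞ (fun x => ek (-k) x * g x) := he.mul hs
  have hmp : PerZ (fun x => ek (-k) x * g x) := fun x m => by
    simp only [ek_per (-k) x m, hp x m]
  have h0 := int_zero _ hm hmp i
  have h1 : ∀ x, fderiv ℝ (fun x => ek (-k) x * g x) x (Pi.single i 1) =
      ek (-k) x * fderiv ℝ g x (Pi.single i 1) -
        2 * Real.pi * Complex.I * (k i : ℂ) * (ek (-k) x * g x) := by
    intro x
    have hd1 : DifferentiableAt ℝ (ek (-k)) x := he.differentiable (by simp) x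
    have hd2 : DifferentiableAt ℝ g x := hs.differentiable (by simp) x
    have h2 := (hd1.hasFDerivAt.mul hd2.hasFDerivAt).fderiv
    have h3 : fderiv ℝ (fun x => ek (-k) x * g x) x = ek (-k) x • fderiv ℝ g x +
        g x • fderiv ℝ (ek (-k)) x := h2
    rw [h3, _root_.add_apply, _root_.smul_apply, _root_.smul_apply, ek_hasFDerivAt, smul_eq_mul,
      smul_eq_mul]
    simp only [Pi.neg_apply, Int.cast_neg]
    ring
  simp only [h1] at h0
  have hc1 : Continuous (fun x => fderiv ℝ g x (Pi.single i 1)) := by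
    have h2 : ContDiff ℝ ∞ (fderiv ℝ g) := hs.fderiv_right (by simp)
    exact h2.continuous.clm_apply continuous_const
  rw [integral_sub] at h0
  · rw [integral_const_mul] at h0
    unfold cf
    linear_combination h0
  · exact ((he.continuous.mul hc1).continuousOn.integrableOn_compact isCompact_Icc)
  · exact ((continuous_const.mul (he.continuous.mul hs.continuous)).continuousOn.integrableOn_compact
      isCompact_Icc)

/-- derivative in the direction `i` -/
noncomputable def DD {d : ℕ} (i : Fin d) (g : (Fin d → ℝ) → ℂ) : (Fin d → ℝ) → ℂ :=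
  fun x => fderiv ℝ g x (Pi.single i 1)

lemma DD_contDiff {d : ℕ} (i : Fin d) {g : (Fin d → ℝ) → ℂ} (hs : ContDiff ℝ ∞ g) :
    ContDiff ℝ ∞ (DD i g) := by
  have h2 : ContDiff ℝ ∞ (fderiv ℝ g) := hs.fderiv_right (by simp)
  exact h2.clm_apply contDiff_const

lemma DD_per {d : ℕ} (i : Fin d) {g : (Fin d → ℝ) → ℂ} (hp : PerZ g) : PerZ (DD i g) := by
  intro x k
  unfold DD
  have h1 : (fun y => g (y + fun i => (k i : ℝ))) = g := funext fun y => hp y k
  have h2 := fderiv_comp_add_right (𝕜 := ℝ) (f := g) (x := x) (fun i => (k i : ℝ))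
  rw [← h2, h1]

lemma iter {n : ℕ} (i : Fin (n + 1)) (p : ℕ) (g : (Fin (n + 1) → ℝ) → ℂ) (hs : ContDiff ℝ ∞ g)
    (hp : PerZ g) : ContDiff ℝ ∞ ((DD i)^[p] g) ∧ PerZ ((DD i)^[p] g) ∧
      ∀ k, cf ((DD i)^[p] g) k = (2 * Real.pi * Complex.I * (k i : ℂ)) ^ p * cf g k := by
  induction p with
  | zero => exact ⟨hs, hp, fun k => by simp⟩
  | succ p ih =>
    obtain ⟨h1, h2, h3⟩ := ih
    rw [Function.iterate_succ_apply']
    refine ⟨DD_contDiff i h1, DD_per i h2, fun k => ?_⟩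
    have := cf_D _ h1 h2 i k
    unfold DD at this ⊢
    rw [this]
    have h4 := h3 k
    unfold DD at h4
    rw [h4]
    ring

/-- rapid decay -/
lemma decay {d : ℕ} (g : (Fin d → ℝ) → ℂ) (hs : ContDiff ℝ ∞ g) (hp : PerZ g) (p : ℕ) :
    ∃ C : ℝ, ∀ k, ‖k‖ ^ p * ‖cf g k‖ ≤ C := by
  rcases d with _ | n
  · refine ⟨‖(0 : Fin 0 → ℤ)‖ ^ p * ‖cf g 0‖, fun k => ?_⟩
    rw [Subsingleton.elim k 0]
  · have hM : ∀ i : Fin (n + 1), ∃ M : ℝ, 0 ≤ M ∧ ∀ x ∈ Icc (0 : Fin (n + 1) → ℝ) 1,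
        ‖(DD i)^[p] g x‖ ≤ M := by
      intro i
      obtain ⟨M, hM⟩ := (isCompact_Icc (a := (0 : Fin (n + 1) → ℝ)) (b := 1)).exists_bound_of_continuousOn
        (iter i p g hs hp).1.continuous.continuousOn
      exact ⟨|M|, abs_nonneg _, fun x hx => (hM x hx).trans (le_abs_self _)⟩
    choose M hM0 hM using hM
    refine ⟨∑ i, M i, fun k => ?_⟩
    obtain ⟨i, hi⟩ : ∃ i, ‖k‖ = ‖k i‖ := by
      obtain ⟨i, _, hi⟩ := Finset.exists_mem_eq_sup' (s := Finset.univ)
        (Finset.univ_nonempty (α := Fin (n + 1))) (fun i => ‖k i‖₊)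
      refine ⟨i, ?_⟩
      rw [← coe_nnnorm, ← coe_nnnorm, Pi.nnnorm_def, ← hi, Finset.sup'_eq_sup]
    have h1 : ‖cf ((DD i)^[p] g) k‖ ≤ M i := cf_le _ k (M i) (hM i)
    rw [(iter i p g hs hp).2.2 k, norm_mul, norm_pow, norm_mul] at h1
    have h2 : ‖(2 * Real.pi * Complex.I : ℂ)‖ = 2 * Real.pi := by
      simp [abs_of_pos Real.pi_pos]
    have h3 : ‖((k i : ℤ) : ℂ)‖ = ‖k i‖ := by
      rw [Complex.norm_intCast, Int.norm_eq_abs]
    rw [h2, h3] at h1
    have h4 : ‖k i‖ ^ p ≤ (2 * Real.pi * ‖k i‖) ^ p := by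
      refine pow_le_pow_left₀ (norm_nonneg _) ?_ p
      have : (1 : ℝ) ≤ 2 * Real.pi := by linarith [Real.pi_gt_three]
      nlinarith [norm_nonneg (k i)]
    calc ‖k‖ ^ p * ‖cf g k‖ ≤ (2 * Real.pi * ‖k i‖) ^ p * ‖cf g k‖ := by
          rw [hi]; exact mul_le_mul_of_nonneg_right h4 (norm_nonneg _)
      _ ≤ M i := h1
      _ ≤ ∑ i, M i := Finset.single_le_sum (fun i _ => hM0 i) (Finset.mem_univ i)

/-! ### summability -/

lemma summable_prod (g : ℤ → ℝ) (hg0 : ∀ n, 0 ≤ g n) (hg : Summable g) (d : ℕ) :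
    Summable (fun k : Fin d → ℤ => ∏ i, g (k i)) := by
  classical
  refine summable_of_sum_le (c := (∑' n, g n) ^ d) (fun k => Finset.prod_nonneg fun i _ => hg0 _)
    fun S => ?_
  calc ∑ k ∈ S, ∏ i, g (k i)
      ≤ ∑ k ∈ Fintype.piFinset (fun i : Fin d => S.image fun k => k i), ∏ i, g (k i) := by
        refine Finset.sum_le_sum_of_subset_of_nonneg (fun k hk => ?_)
          fun k _ _ => Finset.prod_nonneg fun i _ => hg0 _
        rw [Fintype.mem_piFinset]
        exact fun i => Finset.mem_image_of_mem _ hk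
    _ = ∏ i : Fin d, ∑ n ∈ S.image (fun k => k i), g n := (Finset.prod_univ_sum _ _).symm
    _ ≤ ∏ _i : Fin d, ∑' n, g n :=
        Finset.prod_le_prod (fun i _ => Finset.sum_nonneg fun n _ => hg0 n)
          fun i _ => hg.sum_le_tsum _ fun n _ => hg0 n
    _ = (∑' n, g n) ^ d := by simp

/-- the comparison function -/
noncomputable def gg (n : ℤ) : ℝ := 1 / (n : ℝ) ^ 2 + if n = 0 then 1 else 0

lemma gg_nonneg (n : ℤ) : 0 ≤ gg n := by
  unfold gg
  split_ifs <;> positivity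

lemma gg_summable : Summable gg :=
  (Real.summable_one_div_int_pow.2 (by norm_num)).add (hasSum_ite_eq 0 1).summable

lemma gg_low (n : ℤ) (t : ℝ) (ht : |(n : ℝ)| ≤ t) : 1 ≤ gg n * (1 + t ^ 2) := by
  unfold gg
  by_cases hn : n = 0
  · subst hn
    simp
    positivity
  · simp only [hn, if_false, add_zero]
    have h1 : (n : ℝ) ≠ 0 := by exact_mod_cast hn
    have h2 : (n : ℝ) ^ 2 ≤ t ^ 2 := by
      rw [← sq_abs]; exact pow_le_pow_left₀ (abs_nonneg _) ht 2
    rw [div_mul_eq_mul_div, one_mul, le_div_iff₀ (by positivity)]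
    linarith

lemma summable_of_decay {d : ℕ} (β : (Fin d → ℤ) → ℂ)
    (h : ∀ p : ℕ, ∃ C : ℝ, ∀ k, ‖k‖ ^ p * ‖β k‖ ≤ C) : Summable β := by
  obtain ⟨C0, h0⟩ := h 0
  obtain ⟨C1, h1⟩ := h (2 * d)
  refine Summable.of_norm_bounded
    (g := fun k => (2 ^ (d - 1) * (C0 + C1)) * ∏ i, gg (k i))
    ((summable_prod gg gg_nonneg gg_summable d).mul_left _) fun k => ?_
  have h2 : 1 ≤ (∏ i, gg (k i)) * (1 + ‖k‖ ^ 2) ^ d := by
    have h3 : (∏ i, gg (k i)) * (1 + ‖k‖ ^ 2) ^ d = ∏ i : Fin d, (gg (k i) * (1 + ‖k‖ ^ 2)) := by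
      rw [Finset.prod_mul_distrib]; simp
    rw [h3]
    calc (1 : ℝ) = ∏ _i : Fin d, (1 : ℝ) := by simp
      _ ≤ _ := Finset.prod_le_prod (fun _ _ => zero_le_one) fun i _ => gg_low _ _ ?_
    have := norm_le_pi_norm k i
    rwa [Int.norm_eq_abs] at this
  have h4 : (1 + ‖k‖ ^ 2) ^ d ≤ 2 ^ (d - 1) * (1 ^ d + (‖k‖ ^ 2) ^ d) :=
    add_pow_le (by norm_num) (by positivity) d
  have h5 := h0 k
  have h6 := h1 k
  rw [pow_zero, one_mul] at h5
  have hG : 0 ≤ ∏ i, gg (k i) := Finset.prod_nonneg fun i _ => gg_nonneg _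
  calc ‖β k‖ = 1 * ‖β k‖ := (one_mul _).symm
    _ ≤ ((∏ i, gg (k i)) * (1 + ‖k‖ ^ 2) ^ d) * ‖β k‖ :=
        mul_le_mul_of_nonneg_right h2 (norm_nonneg _)
    _ ≤ ((∏ i, gg (k i)) * (2 ^ (d - 1) * (1 ^ d + (‖k‖ ^ 2) ^ d))) * ‖β k‖ :=
        mul_le_mul_of_nonneg_right (mul_le_mul_of_nonneg_left h4 hG) (norm_nonneg _)
    _ = (2 ^ (d - 1) * (‖β k‖ + ‖k‖ ^ (2 * d) * ‖β k‖)) * ∏ i, gg (k i) := by
        rw [one_pow, ← pow_mul]; ring
    _ ≤ (2 ^ (d - 1) * (C0 + C1)) * ∏ i, gg (k i) := by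
        refine mul_le_mul_of_nonneg_right ?_ hG
        exact mul_le_mul_of_nonneg_left (add_le_add h5 h6) (by positivity)

/-! ### the torus -/

/-- the projection to the torus -/
def pr (d : ℕ) : C(Fin d → ℝ, UnitAddTorus (Fin d)) where
  toFun x := fun i => (x i : UnitAddCircle)
  continuous_toFun := by
    refine continuous_pi fun i => ?_
    exact (AddCircle.continuous_mk' 1).comp (continuous_apply i)

lemma pr_quot (d : ℕ) : IsQuotientMap (pr d) := by
  have h1 : IsOpenQuotientMap (Pi.map fun _ : Fin d => fun x : ℝ => (x : UnitAddCircle)) :=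
    IsOpenQuotientMap.piMap fun i => QuotientAddGroup.isOpenQuotientMap_mk
  exact h1.isQuotientMap

lemma pr_eq {d : ℕ} {x y : Fin d → ℝ} (h : pr d x = pr d y) :
    ∃ k : Fin d → ℤ, y = x + fun i => (k i : ℝ) := by
  have h1 : ∀ i, ∃ k : ℤ, y i = x i + k := by
    intro i
    have h2 : (x i : UnitAddCircle) = (y i : UnitAddCircle) := congrFun h i
    rw [QuotientAddGroup.eq, AddSubgroup.mem_zmultiples_iff] at h2
    obtain ⟨k, hk⟩ := h2
    refine ⟨k, ?_⟩
    rw [zsmul_eq_mul, mul_one] at hk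
    linarith
  choose k hk using h1
  exact ⟨k, funext hk⟩

lemma mF_pr {d : ℕ} (k : Fin d → ℤ) (x : Fin d → ℝ) :
    UnitAddTorus.mFourier k (fun i => (x i : UnitAddCircle)) = ek k x := by
  unfold ek
  show ∏ i, fourier (k i) (x i : UnitAddCircle) = _
  simp only [fourier_coe_apply]
  rw [← Complex.exp_sum]
  congr 1
  push_cast
  rw [Finset.mul_sum]
  refine Finset.sum_congr rfl fun i _ => ?_
  ring

lemma set_eq (d : ℕ) : {x : Fin d → ℝ | ∀ i, x i ∈ Ioc ((0 : Fin d → ℝ) i) ((0 : Fin d → ℝ) i + 1)} =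
    Set.pi univ fun i => Ioc ((0 : Fin d → ℝ) i) ((1 : Fin d → ℝ) i) := by
  ext x
  simp [Set.mem_pi]

lemma coeff_eq {d : ℕ} (B : UnitAddTorus (Fin d) → ℂ) (g : (Fin d → ℝ) → ℂ)
    (h : ∀ x : Fin d → ℝ, B (fun i => (x i : UnitAddCircle)) = g x) (k : Fin d → ℤ) :
    UnitAddTorus.mFourierCoeff B k = cf g k := by
  rw [UnitAddTorus.mFourierCoeff_eq_integral B k 0, set_eq]
  unfold cf
  rw [volume_pi, setIntegral_congr_set Measure.univ_pi_Ioc_ae_eq_Icc]
  refine setIntegral_congr_fun measurableSet_Icc fun x _ => ?_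
  simp only [mF_pr, h, smul_eq_mul]

end FOU_

open FOU_ in
theorem fou : T_FOU := by
  intro d b hb hp
  set g : (Fin d → ℝ) → ℂ := fun x => (b x : ℂ) with hg
  have hgs : ContDiff ℝ ∞ g := Complex.ofRealCLM.contDiff.comp hb
  have hgp : PerZ g := fun x k => by simp only [hg, hp x k]
  set G : C(Fin d → ℝ, ℂ) := ⟨g, hgs.continuous⟩ with hG
  have hfac : Function.FactorsThrough G (pr d) := by
    intro x y hxy
    obtain ⟨k, rfl⟩ := pr_eq hxy
    exact (hgp x k).symm
  set B : C(UnitAddTorus (Fin d), ℂ) := (pr_quot d).lift G hfac with hB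
  have hBg : ∀ x : Fin d → ℝ, B (fun i => (x i : UnitAddCircle)) = g x := by
    intro x
    exact DFunLike.congr_fun ((pr_quot d).lift_comp G hfac) x
  have hc : ∀ k, UnitAddTorus.mFourierCoeff B k = cf g k := coeff_eq B g hBg
  have hdec := fun p => decay g hgs hgp p
  have hsum : Summable (UnitAddTorus.mFourierCoeff B) := by
    have h1 : UnitAddTorus.mFourierCoeff B = cf g := funext hc
    rw [h1]
    exact summable_of_decay _ hdec
  refine ⟨cf g, hdec, ?_, fun x => ?_⟩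
  · have h1 : ∫ x in Icc (0 : Fin d → ℝ) 1, ((b x : ℝ) : ℂ) =
        ((∫ x in Icc (0 : Fin d → ℝ) 1, b x : ℝ) : ℂ) := integral_ofReal
    rw [← h1]
    unfold cf
    refine setIntegral_congr_fun measurableSet_Icc fun x _ => ?_
    simp [ek, hg]
  · have h1 := UnitAddTorus.hasSum_mFourier_series_apply_of_summable hsum
      (fun i => (x i : UnitAddCircle))
    rw [hBg] at h1
    refine h1.congr_fun fun k => ?_
    rw [hc, mF_pr, smul_eq_mul]
    rfl

end Pool.Agent.PalT
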