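import Pool.Agent.PalT.Defs

/-!
# Tori of codimension one: the targets of the jobs
-/

set_option autoImplicit false

open Set MeasureTheory Filter Topology Metric Asymptotics
open scoped Manifold ContDiff

namespace Pool.Agent.PalT

open Pool.Agent.Pal

/-! ## Arithmetic and Fourier series -/

/-- Diophantine vectors are dense. -/
def T_DIO : Prop := ∀ (d : ℕ) (α : Fin d → ℝ) (ε : ℝ), 0 < ε →
  ∃ β : Fin d → ℝ, Dio d β ∧ ∀ i, |β i - α i| < ε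

/-- Fourier expansion of smooth periodic functions. -/
def T_FOU : Prop := ∀ (d : ℕ) (b : (Fin d → ℝ) → ℝ), ContDiff ℝ ∞ b →
  (∀ (x : Fin d → ℝ) (k : Fin d → ℤ), b (x + fun i => (k i : ℝ)) = b x) →
  ∃ β : (Fin d → ℤ) → ℂ, (∀ p : ℕ, ∃ C : ℝ, ∀ k, ‖k‖ ^ p * ‖β k‖ ≤ C) ∧
    β 0 = ((∫ x in Icc (0 : Fin d → ℝ) 1, b x : ℝ) : ℂ) ∧
    ∀ x : Fin d → ℝ, HasSum (fun k : Fin d → ℤ =>
      β k * Complex.exp (2 * Real.pi * Complex.I * ((∑ i, (k i : ℝ) * x i : ℝ) : ℂ))) (b x : ℂ)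

/-- Rapidly converging Fourier series are smooth. -/
def T_SER : Prop := ∀ (d : ℕ) (β : (Fin d → ℤ) → ℂ),
  (∀ p : ℕ, ∃ C : ℝ, ∀ k, ‖k‖ ^ p * ‖β k‖ ≤ C) →
  ∃ c : (Fin d → ℝ) → ℂ, ContDiff ℝ ∞ c ∧
    (∀ (x : Fin d → ℝ) (k : Fin d → ℤ), c (x + fun i => (k i : ℝ)) = c x) ∧
    ∀ x : Fin d → ℝ, HasSum (fun k : Fin d → ℤ =>
      β k * Complex.exp (2 * Real.pi * Complex.I * ((∑ i, (k i : ℝ) * x i : ℝ) : ℂ))) (c x)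

/-- The cohomological equation over a Diophantine translation. -/
def T_COHD : Prop := ∀ (d : ℕ) (α : Fin d → ℝ) (b : (Fin d → ℝ) → ℝ), Dio d α →
  ContDiff ℝ ∞ b → (∀ (x : Fin d → ℝ) (k : Fin d → ℤ), b (x + fun i => (k i : ℝ)) = b x) →
  ∫ x in Icc (0 : Fin d → ℝ) 1, b x = 0 →
  ∃ c : (Fin d → ℝ) → ℝ, ContDiff ℝ ∞ c ∧
    (∀ (x : Fin d → ℝ) (k : Fin d → ℤ), c (x + fun i => (k i : ℝ)) = c x) ∧
    ∀ x, c (x + α) - c x = b x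

/-! ## The almost invariant function -/

/-- The first term of the Taylor expansion in the normal direction. -/
def T_TAYZ : Prop := ∀ (d k : ℕ) (w C : ℝ) (u : E (d + 1) → ℝ), 0 < w →
  ContDiffOn ℝ ∞ u (Strip d w) → (∀ x ∈ Strip d w, ∀ v ∈ Lat d, u (x + v) = u x) →
  (∀ x ∈ Strip d w, |u x| ≤ C * |x 0| ^ k) →
  ∃ (b : (Fin d → ℝ) → ℝ) (w' C' : ℝ), ContDiff ℝ ∞ b ∧ 0 < w' ∧ w' ≤ w ∧ 0 < C' ∧
    (∀ (x : Fin d → ℝ) (k : Fin d → ℤ), b (x + fun i => (k i : ℝ)) = b x) ∧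
    ∀ x ∈ Strip d w', |u x - b (th x) * x 0 ^ k| ≤ C' * |x 0| ^ (k + 1)

/-- The leading coefficient has mean zero. -/
def T_MEANZ : Prop := ∀ (d N : ℕ) (w w' C : ℝ) (α : E (d + 1)) (F : E (d + 1) → E (d + 1))
  (z : E (d + 1) → ℝ) (b : (Fin d → ℝ) → ℝ), LiftMap d w α F → 1 ≤ N → 0 < w' → w' ≤ w →
  0 < C → ContDiff ℝ ∞ z → Per d z → Continuous b →
  (∀ x ∈ Strip d w', |z x - x 0| ≤ C * x 0 ^ 2) →
  (∀ x ∈ Strip d w', |F x 0 - x 0| ≤ C * x 0 ^ 2) →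
  (∀ x ∈ Strip d w', |z (F x) - z x - b (th x) * x 0 ^ (N + 1)| ≤ C * |x 0| ^ (N + 2)) →
  ∫ y in Icc (0 : Fin d → ℝ) 1, b y = 0

/-- Bounds that follow from the first order behaviour at the torus. -/
def T_FIRST : Prop := ∀ (d : ℕ) (w : ℝ) (α : E (d + 1)) (F : E (d + 1) → E (d + 1)),
  LiftMap d w α F → ∃ (s w' C : ℝ), (s = 1 ∨ s = -1) ∧ 0 < w' ∧ w' ≤ w ∧ 0 < C ∧
    ∀ x ∈ Strip d w', ‖F x - (x + α)‖ ≤ C * |x 0| ∧ |F x 0 - s * x 0| ≤ C * x 0 ^ 2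

/-- One step of the construction of the almost invariant function. -/
def T_ZSTEP : Prop := ∀ (d N : ℕ) (w w' C : ℝ) (α : E (d + 1)) (F : E (d + 1) → E (d + 1))
  (z : E (d + 1) → ℝ), LiftMap d w α F → Dio d (th α) → 1 ≤ N → w' ≤ w →
  AlmInv d N w' C 1 α F z → ∃ (w'' C' : ℝ) (z' : E (d + 1) → ℝ), w'' ≤ w ∧
    AlmInv d (N + 1) w'' C' 1 α F z'

/-- The second iterate of a lifted map. -/
def T_LIFT2 : Prop := ∀ (d : ℕ) (w : ℝ) (α : E (d + 1)) (F : E (d + 1) → E (d + 1)),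
  LiftMap d w α F → ∃ w' : ℝ, w' ≤ w ∧ (∀ x ∈ Strip d w', F x ∈ Strip d w) ∧
    LiftMap d w' (α + α) (F ∘ F)

/-- Almost invariant functions exist. -/
def T_ZEX : Prop := ∀ (d N : ℕ) (w : ℝ) (α : E (d + 1)) (F : E (d + 1) → E (d + 1)),
  LiftMap d w α F → Dio d (th α) → 1 ≤ N → ∃ (w' C s : ℝ) (z : E (d + 1) → ℝ), w' ≤ w ∧
    AlmInv d N w' C s α F z

/-! ## The perturbations in the strip -/

/-- Profiles exist. -/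
def T_PROFT : Prop := ∃ (a : ℝ → ℝ) (c κ₀ : ℝ), ProfT a c κ₀

/-- Size of the contraction. -/
def T_RADT : Prop := ∀ (d : ℕ) (a : ℝ → ℝ) (c κ₀ : ℝ), ProfT a c κ₀ →
  (∀ κ ρ : ℝ, 0 < ρ → ModT d (8 * ρ) (radT a κ ρ)) ∧
  ∀ r : ℕ, 1 ≤ r → ∃ B : ℝ, 0 < B ∧ ∀ ρ ε : ℝ, 0 < ρ → ρ ≤ 1 → 0 ≤ ε →
    Near r (B * ε) (radT (d := d) a (ε * ρ ^ (r - 1)) ρ)

/-- The translation near the torus. -/
def T_PUSH : Prop := ∀ (d : ℕ) (w : ℝ), 0 < w → ∃ L : E (d + 1) → E (d + 1) → E (d + 1),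
  ∀ v : E (d + 1), v 0 = 0 → ModT d w (L v) ∧ (∀ x, (fderiv ℝ (L v) x).det = 1) ∧
    (∀ x, |x 0| ≤ w / 2 → L v x = x + v) ∧
    ∀ (r : ℕ) (δ : ℝ), 0 < δ → ∃ t : ℝ, 0 < t ∧ ∀ v : E (d + 1), v 0 = 0 → ‖v‖ ≤ t →
      Near r δ (L v)

/-- Small Morse-Smale perturbations exist. -/
def T_MSM : Prop := ∀ (d r : ℕ) (α : E (d + 1)) (ρ δ : ℝ), 1 ≤ d → α 0 = 0 → 0 < ρ → 0 < δ →
  ∃ (q : Fin d → ℕ) (p : Fin d → ℤ) (η : ℝ) (Q : E (d + 1) → E (d + 1)),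
    MSMap d α ρ q p η Q ∧ Near r δ Q

/-- The contraction of `|z|` near the torus. -/
def T_TRAPZ : Prop := ∀ (d N : ℕ) (w C s : ℝ) (α : E (d + 1)) (F : E (d + 1) → E (d + 1))
  (z : E (d + 1) → ℝ) (a : ℝ → ℝ) (c κ₀ ε : ℝ), α 0 = 0 → 1 ≤ N → AlmInv d N w C s α F z →
  ProfT a c κ₀ → 0 < ε → ε ≤ κ₀ → ∃ ρ₀ : ℝ, 0 < ρ₀ ∧ ρ₀ ≤ 1 ∧ 16 * ρ₀ ≤ w ∧
    (∀ x, |x 0| ≤ 8 * ρ₀ → |x 0| ≤ 2 * |z x| ∧ |z x| ≤ 2 * |x 0|) ∧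
    ∀ ρ : ℝ, 0 < ρ → ρ ≤ ρ₀ →
    (∀ x, |x 0| ≤ 4 * ρ → |z x| ≤ 2 * ρ → |x 0| ≤ 3 * ρ ∧ |F x 0| < 4 * ρ) ∧
    (∀ x, |x 0| ≤ ρ → |z x| < 2 * ρ) ∧ (∀ x, |x 0| ≤ ρ / 8 → |F x 0| ≤ ρ / 4) ∧
    ∃ δ : ℝ, 0 < δ ∧ ∀ Q : E (d + 1) → E (d + 1), (∀ x, Q x 0 = x 0) → ModT d (ρ / 2) Q →
      Near 1 δ Q → ∀ x, |x 0| ≤ 4 * ρ → |z x| ≤ 2 * ρ →
        |z (radT a (ε * ρ ^ (N - 1)) ρ (Q (F x)))| ≤ (1 - c * (ε * ρ ^ (N - 1)) / 16) * |z x|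

/-- The trap in the strip. -/
def T_TRAPE : Prop := ∀ (d N : ℕ) (w C s : ℝ) (α : E (d + 1)) (F : E (d + 1) → E (d + 1))
  (z : E (d + 1) → ℝ) (a : ℝ → ℝ) (c κ₀ ε : ℝ), α 0 = 0 → 1 ≤ N → AlmInv d N w C s α F z →
  ProfT a c κ₀ → 0 < ε → ε ≤ κ₀ → ∃ ρ₀ : ℝ, 0 < ρ₀ ∧ ∀ ρ : ℝ, 0 < ρ → ρ ≤ ρ₀ →
    (∀ x, |x 0| ≤ 4 * ρ → |z x| ≤ 2 * ρ → |x 0| < 4 * ρ) ∧
    (∀ x, |x 0| ≤ ρ → |z x| < 2 * ρ) ∧
    ∃ δ : ℝ, 0 < δ ∧ ∀ (q : Fin d → ℕ) (p : Fin d → ℤ) (η : ℝ) (Q : E (d + 1) → E (d + 1)),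
      MSMap d α ρ q p η Q → Near 1 δ Q → ∃ B : ℝ, 0 < B ∧
        ∀ x, |x 0| ≤ 4 * ρ → |z x| ≤ 2 * ρ →
          |radT a (ε * ρ ^ (N - 1)) ρ (Q (F x)) 0| < 4 * ρ ∧
          |z (radT a (ε * ρ ^ (N - 1)) ρ (Q (F x)))| < 2 * ρ ∧
          (x ∉ MSPt d q →
            LyV d B z q (radT a (ε * ρ ^ (N - 1)) ρ (Q (F x))) < LyV d B z q x)

/-- The composition of the lifted map and its perturbations on the torus, with its derivative. -/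
def T_DER1 : Prop := ∀ (d : ℕ) (w s ρ κ : ℝ) (α : E (d + 1)) (F : E (d + 1) → E (d + 1))
  (a : ℝ → ℝ) (c κ₀ : ℝ) (q : Fin d → ℕ) (p : Fin d → ℤ) (η : ℝ) (Q : E (d + 1) → E (d + 1)),
  LiftMap d w α F → (s = 1 ∨ s = -1) →
  (∃ C w' : ℝ, 0 < w' ∧ ∀ x ∈ Strip d w', |F x 0 - s * x 0| ≤ C * x 0 ^ 2) →
  ProfT a c κ₀ → 0 < κ → κ ≤ κ₀ → 0 < ρ → MSMap d α ρ q p η Q →
  ∀ x : E (d + 1), x 0 = 0 → (radT a κ ρ (Q (F x))) 0 = 0 ∧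
    (∀ i : Fin d, (radT a κ ρ (Q (F x))) i.succ = x i.succ + p i / q i -
      η / (2 * Real.pi * q i) * Real.sin (2 * Real.pi * q i * x i.succ)) ∧
    ∃ (A : E (d + 1) →L[ℝ] E (d + 1)), HasFDerivAt (fun y => radT a κ ρ (Q (F y))) A x ∧
      Tri A (s * (1 - κ * a 0)) (fun i => 1 - η * Real.cos (2 * Real.pi * q i * x i.succ))

/-- The dynamics on the periodic points of the Morse-Smale map, and the derivative. -/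
def T_DERE : Prop := ∀ (d : ℕ) (w s ρ κ : ℝ) (α : E (d + 1)) (F : E (d + 1) → E (d + 1))
  (a : ℝ → ℝ) (c κ₀ : ℝ) (q : Fin d → ℕ) (p : Fin d → ℤ) (η : ℝ) (Q : E (d + 1) → E (d + 1)),
  LiftMap d w α F → (s = 1 ∨ s = -1) →
  (∃ C w' : ℝ, 0 < w' ∧ ∀ x ∈ Strip d w', |F x 0 - s * x 0| ≤ C * x 0 ^ 2) →
  ProfT a c κ₀ → 0 < κ → κ ≤ κ₀ → 0 < ρ → MSMap d α ρ q p η Q →
  ∀ G : E (d + 1) → E (d + 1), G = (fun x => radT a κ ρ (Q (F x))) →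
    ∀ x ∈ MSPt d q, G x ∈ MSPt d q ∧ (∃ v ∈ Lat d, G^[∏ i, q i] x = x + v) ∧
      (∀ k : ℕ, (G^[k] x) 0 = 0) ∧
      (∃ (A : E (d + 1) →L[ℝ] E (d + 1)) (lam : ℝ), HasFDerivAt G^[∏ i, q i] A x ∧ |lam| < 1 ∧
        Tri A lam (fun i => (1 - η * Real.cos (2 * Real.pi * q i * x i.succ)) ^ (∏ i, q i))) ∧
      ((∀ i : Fin d, Real.cos (2 * Real.pi * q i * x i.succ) = 1) →
        ∃ k : ℕ, G^[k] x ∈ Lat d)

/-- Linear algebra for triangular maps. -/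
def T_TRI : Prop := ∀ (d : ℕ) (A : E (d + 1) →L[ℝ] E (d + 1)) (lam : ℝ) (mu : Fin d → ℝ),
  Tri A lam mu → |lam| < 1 → (∀ i, 0 ≤ mu i) →
  ((∀ i, mu i < 1) → ∃ S : E (d + 1) ≃L[ℝ] E (d + 1),
    ‖(S : E (d + 1) →L[ℝ] E (d + 1)) ∘L A ∘L (S.symm : E (d + 1) →L[ℝ] E (d + 1))‖ < 1) ∧
  ((∀ i, mu i ≠ 1) → (∃ i, 1 < mu i) → HypU A)

/-! ## Collars -/

/-- Basic facts about collars. -/
def T_COLL : Prop := ∀ (d : ℕ) (M : Type) [TopologicalSpace M] [ChartedSpace (E (d + 1)) M]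
  [IsManifold 𝓘(ℝ, E (d + 1)) ∞ M] [T2Space M] (w : ℝ) (T : E (d + 1) → M), Collar w T →
  ContinuousOn T (Strip d w) ∧ (∀ O ⊆ Strip d w, IsOpen O → IsOpen (T '' O)) ∧
  (∀ w' : ℝ, w' < w → ∀ C : Set (E (d + 1)), IsClosed C → (∀ x ∈ C, |x 0| ≤ w') →
    (∀ x ∈ C, ∀ v ∈ Lat d, x + v ∈ C) → IsCompact (T '' C)) ∧
  ∀ w' : ℝ, w' < w → ∃ ε : ℝ, 0 < ε ∧ ∀ x : E (d + 1), |x 0| ≤ w' →
    ∃ e ∈ Ch (d + 1) M, e.target = ball x ε ∧ ball x ε ⊆ Strip d w ∧ ∀ z ∈ ball x ε, T z = e.symm z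

/-- The images of a thin collar are disjoint. -/
def T_SEP : Prop := ∀ (d : ℕ) (M : Type) [TopologicalSpace M] [ChartedSpace (E (d + 1)) M]
  [IsManifold 𝓘(ℝ, E (d + 1)) ∞ M] [T2Space M] (w : ℝ) (T : E (d + 1) → M) (f : M → M) (m : ℕ),
  Collar w T → Continuous f →
  (∀ i, 0 < i → i < m → ∀ x x' : E (d + 1), x 0 = 0 → x' 0 = 0 → f^[i] (T x) ≠ T x') →
  ∃ w' : ℝ, 0 < w' ∧ w' ≤ w ∧
    ∀ i, 0 < i → i < m → ∀ x ∈ Strip d w', ∀ x' ∈ Strip d w', f^[i] (T x) ≠ T x'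

/-- Small modifications in a collar are diffeomorphisms. -/
def T_EXTT : Prop := ∀ (d : ℕ) (M : Type) [TopologicalSpace M] [ChartedSpace (E (d + 1)) M]
  [IsManifold 𝓘(ℝ, E (d + 1)) ∞ M] [T2Space M] (w w' : ℝ) (T : E (d + 1) → M)
  (L : E (d + 1) → E (d + 1)), Collar w T → w' < w → ModT d w' L → Near 1 (1 / 2) L →
  IsDiffeo (d + 1) ⊤ (extT w T L) ∧
    (∀ x ∈ Strip d w, L x ∈ Strip d w ∧ extT w T L (T x) = T (L x)) ∧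
    ∀ y, y ∉ T '' {x | |x 0| ≤ w'} → extT w T L y = y

/-- Closeness in the `C^r` topology is robust under modifications in collars. -/
def T_ROBT : Prop := ∀ (d : ℕ) (M : Type) [TopologicalSpace M] [ChartedSpace (E (d + 1)) M]
  [IsManifold 𝓘(ℝ, E (d + 1)) ∞ M] [T2Space M] (s : ℕ∞) (r : ℕ) (f : M → M)
  (e e' : OpenPartialHomeomorph M (E (d + 1))) (K : Set M) (ε : ℝ), (r : ℕ∞) ≤ s →
  IsDiffeo (d + 1) s f → e ∈ Ch (d + 1) M → e' ∈ Ch (d + 1) M → IsCompact K → K ⊆ e.source →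
  MapsTo f K e'.source → RobT d s r {g | CrClose r f g e e' K ε}

/-- Volume of the image under a modification in a collar. -/
def T_VOLT : Prop := ∀ (d : ℕ) (M : Type) [TopologicalSpace M] [ChartedSpace (E (d + 1)) M]
  [IsManifold 𝓘(ℝ, E (d + 1)) ∞ M] [T2Space M] [MeasurableSpace M] [BorelSpace M]
  (μ : Measure M) (w w' : ℝ) (T : E (d + 1) → M) (L : E (d + 1) → E (d + 1)), Collar w T →
  UniT μ w T → w' < w → ModT d w' L → Near 1 (1 / 2) L →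
  (∀ A, MeasurableSet A → (∀ x ∈ Strip d w, T x ∈ A → 1 ≤ (fderiv ℝ L x).det) →
    μ A ≤ μ (extT w T L '' A)) ∧
  ((∀ x, (fderiv ℝ L x).det = 1) → MeasurePreserving (extT w T L) μ μ)

/-- Collars in which the volume is Lebesgue measure. -/
def T_NORM : Prop := ∀ (d : ℕ) (M : Type) [TopologicalSpace M] [ChartedSpace (E (d + 1)) M]
  [IsManifold 𝓘(ℝ, E (d + 1)) ∞ M] [T2Space M] [CompactSpace M] [MeasurableSpace M]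
  [BorelSpace M] (μ : Measure M) (w : ℝ) (T : E (d + 1) → M), IsVolume (d + 1) μ → Collar w T →
  ∃ (w' : ℝ) (T' : E (d + 1) → M), Collar w' T' ∧ UniT μ w' T' ∧ ∀ x, x 0 = 0 → T' x = T x

/-- Integrals over a collar. -/
def T_INTT : Prop := ∀ (d : ℕ) (M : Type) [TopologicalSpace M] [ChartedSpace (E (d + 1)) M]
  [IsManifold 𝓘(ℝ, E (d + 1)) ∞ M] [T2Space M] [CompactSpace M] [MeasurableSpace M]
  [BorelSpace M] (μ : Measure M) (w : ℝ) (T : E (d + 1) → M) (Φ : M → ℝ), Collar w T →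
  UniT μ w T → Continuous Φ → (∀ y, y ∉ T '' Strip d w → Φ y = 0) →
  ∫ y, Φ y ∂μ = ∫ x in Cell d w, Φ (T x)

/-- Continuous functions on a collar extend by zero. -/
def T_EXT0 : Prop := ∀ (d : ℕ) (M : Type) [TopologicalSpace M] [ChartedSpace (E (d + 1)) M]
  [IsManifold 𝓘(ℝ, E (d + 1)) ∞ M] [T2Space M] [CompactSpace M] (w w' : ℝ)
  (T : E (d + 1) → M) (φ : E (d + 1) → ℝ), Collar w T → w' < w → Continuous φ → Per d φ →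
  (∀ x, w' ≤ |x 0| → φ x = 0) → ∃ Φ : M → ℝ, Continuous Φ ∧
    (∀ y, y ∉ T '' Strip d w → Φ y = 0) ∧ (∀ x ∈ Strip d w, Φ (T x) = φ x) ∧
    (ContDiff ℝ ∞ φ → ContMDiff 𝓘(ℝ, E (d + 1)) 𝓘(ℝ, ℝ) ∞ Φ)

/-- The lift of a map that leaves the torus invariant. -/
def T_LIFTA : Prop := ∀ (d : ℕ) (M : Type) [TopologicalSpace M] [ChartedSpace (E (d + 1)) M]
  [IsManifold 𝓘(ℝ, E (d + 1)) ∞ M] [T2Space M] [CompactSpace M] (w : ℝ) (T : E (d + 1) → M)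
  (h : M → M) (α : E (d + 1)), Collar w T → IsDiffeo (d + 1) ⊤ h → α 0 = 0 →
  (∀ x, x 0 = 0 → h (T x) = T (x + α)) →
  ∃ (w' : ℝ) (F : E (d + 1) → E (d + 1)), 0 < w' ∧ w' ≤ w ∧ ContDiffOn ℝ ∞ F (Strip d w') ∧
    (∀ x ∈ Strip d w', ∀ v ∈ Lat d, F (x + v) = F x + v) ∧ (∀ x, x 0 = 0 → F x = x + α) ∧
    (∀ x ∈ Strip d w', F x ∈ Strip d w ∧ h (T x) = T (F x)) ∧
    ∃ c : ℝ, 0 < c ∧ ∀ x ∈ Strip d w', c * |x 0| ≤ |F x 0|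

/-- The lift of a conservative map preserves the volume. -/
def T_LIFTB : Prop := ∀ (d : ℕ) (M : Type) [TopologicalSpace M] [ChartedSpace (E (d + 1)) M]
  [IsManifold 𝓘(ℝ, E (d + 1)) ∞ M] [T2Space M] [CompactSpace M] [MeasurableSpace M]
  [BorelSpace M] (μ : Measure M) [IsFiniteMeasure μ] (w w' : ℝ) (T : E (d + 1) → M)
  (h : M → M) (F : E (d + 1) → E (d + 1)), Collar w T → UniT μ w T → IsDiffeo (d + 1) ⊤ h →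
  MeasurePreserving h μ μ → 0 < w' → w' ≤ w → ContDiffOn ℝ ∞ F (Strip d w') →
  (∀ x ∈ Strip d w', ∀ v ∈ Lat d, F (x + v) = F x + v) → h '' (T '' {x | x 0 = 0}) =
  T '' {x | x 0 = 0} → (∀ x ∈ Strip d w', F x ∈ Strip d w ∧ h (T x) = T (F x)) →
  (∀ x ∈ Strip d w', |(fderiv ℝ F x).det| = 1) ∧
  ∃ w₂ : ℝ, 0 < w₂ ∧ ∀ φ : E (d + 1) → ℝ, Continuous φ → Per d φ →
    (∀ x, w₂ ≤ |x 0| → φ x = 0) → ∫ x in Cell d w', φ (F x) = ∫ x in Cell d w', φ x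

/-- The lift of a conservative map that leaves the torus invariant. -/
def T_LIFT : Prop := ∀ (d : ℕ) (M : Type) [TopologicalSpace M] [ChartedSpace (E (d + 1)) M]
  [IsManifold 𝓘(ℝ, E (d + 1)) ∞ M] [T2Space M] [CompactSpace M] [MeasurableSpace M]
  [BorelSpace M] (μ : Measure M) [IsFiniteMeasure μ] (w : ℝ) (T : E (d + 1) → M) (h : M → M)
  (α : E (d + 1)), Collar w T → UniT μ w T → IsDiffeo (d + 1) ⊤ h → MeasurePreserving h μ μ →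
  α 0 = 0 → (∀ x, x 0 = 0 → h (T x) = T (x + α)) →
  ∃ (w' : ℝ) (F : E (d + 1) → E (d + 1)), w' ≤ w ∧ LiftMap d w' α F ∧
    ∀ x ∈ Strip d w', F x ∈ Strip d w ∧ h (T x) = T (F x)

/-! ## Persistence -/

/-- A trap around a compact set persists under small modifications that are trivial near the
orbit. -/
def T_PERST : Prop := ∀ (M : Type) [MetricSpace M] [CompactSpace M] (g : M → M) (m : ℕ)
  (Λ K Z P : Set M) (V : M → ℝ), Continuous g → IsCompact Λ → IsCompact K → IsOpen Z →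
  ContinuousOn V K → P ⊆ Λ → (∀ i ≤ m, ∀ x ∈ Λ, g^[i] x ∈ Z) → (∀ x ∈ K, g^[m] x ∈ interior K) →
  (∀ x ∈ K, x ∉ P → V (g^[m] x) < V x) →
  ∃ η : ℝ, 0 < η ∧ ∀ ψ : M → M, Continuous ψ → (∀ x, dist (ψ x) x < η) → (∀ x ∈ Z, ψ x = x) →
    (∀ x ∈ K, (ψ ∘ g)^[m] x ∈ interior K) ∧ ∀ x ∈ K, x ∉ P → V ((ψ ∘ g)^[m] x) < V x

/-- Points near the orbit of a compact set enter its neighbourhood `O`. -/
def T_NEART : Prop := ∀ (M : Type) [MetricSpace M] [CompactSpace M] (g : M → M) (m : ℕ)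
  (Λ O : Set M), Continuous g → IsCompact Λ → IsOpen O → Λ ⊆ O → (∀ x ∈ Λ, g^[m] x ∈ Λ) →
  ∃ d : ℝ, 0 < d ∧ ∃ η : ℝ, 0 < η ∧ ∀ g' : M → M, (∀ x, dist (g' x) (g x) < η) →
    ∀ i < m, ∀ x, ∀ y ∈ Λ, dist x (g^[i] y) < 2 * d → ∃ k, g'^[k] x ∈ O

/-! ## Morse-Smale traps -/

/-- Maps with a strict Lyapunov function: orbits of small perturbations end near fixed points. -/
def T_WANDER : Prop := ∀ (X : Type) [MetricSpace X] (K : Set X) (H : X → X) (V : X → ℝ)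
  (P : Finset X) (s : ℝ), IsCompact K → ContinuousOn H K → MapsTo H K K → ContinuousOn V K →
  (∀ p ∈ P, p ∈ K ∧ H p = p) → (∀ x ∈ K, x ∉ P → V (H x) < V x) → 0 < s →
  ∃ η : ℝ, 0 < η ∧ ∀ H' : X → X, MapsTo H' K K → (∀ x ∈ K, dist (H' x) (H x) < η) →
    ∀ x ∈ K, ∃ p ∈ P, ∃ k₀ : ℕ, ∀ k, k₀ ≤ k → dist (H'^[k] x) p < s

/-- Points whose orbits remain near a saddle form a null set. -/
def T_CONE : Prop := ∀ (n : ℕ) (A : E n →L[ℝ] E n), HypU A → ∃ ε : ℝ, 0 < ε ∧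
  ∀ (B : Set (E n)) (H : E n → E n), IsCompact B → ContinuousOn H B →
    (∀ x ∈ B, ∀ x' ∈ B, ‖H x - H x' - A (x - x')‖ ≤ ε * ‖x - x'‖) →
    volume {x | ∀ k : ℕ, H^[k] x ∈ B} = 0

/-- The same for diffeomorphisms of `M`. -/
def T_SADC : Prop := ∀ (n : ℕ) (M : Type) [MetricSpace M] [ChartedSpace (E n) M]
  [IsManifold 𝓘(ℝ, E n) ∞ M] [CompactSpace M] [MeasurableSpace M] [BorelSpace M]
  (μ : Measure M) (g : M → M) (N : ℕ) (p : M), IsVolume n μ → IsDiffeo n 1 g →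
  Saddle n g^[N] p → ∃ s : ℝ, 0 < s ∧
    Nbd n g {g' | μ {x | ∀ k : ℕ, dist (g'^[N * k] x) p < s} = 0}

/-- Diffeomorphisms preserve null sets. -/
def T_NULLP : Prop := ∀ (n : ℕ) (M : Type) [TopologicalSpace M] [ChartedSpace (E n) M]
  [IsManifold 𝓘(ℝ, E n) ∞ M] [CompactSpace M] [T2Space M] [MeasurableSpace M] [BorelSpace M]
  (μ : Measure M) (g : M → M) (k : ℕ) (S : Set M), IsVolume n μ → IsDiffeo n 1 g → μ S = 0 →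
  μ (g^[k] ⁻¹' S) = 0

/-- A Morse-Smale trap is robust: almost all points that enter it converge to one sink. -/
def T_MST : Prop := ∀ (n : ℕ) (M : Type) [MetricSpace M] [ChartedSpace (E n) M]
  [IsManifold 𝓘(ℝ, E n) ∞ M] [CompactSpace M] [MeasurableSpace M] [BorelSpace M]
  (μ : Measure M) (g : M → M) (N : ℕ) (K : Set M) (P : Finset M) (p₀ : M) (V : M → ℝ),
  IsVolume n μ → IsDiffeo n 1 g → 1 ≤ N → IsCompact K → ContinuousOn V K →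
  (∀ x ∈ K, g^[N] x ∈ interior K) → (∀ p ∈ P, p ∈ K ∧ g^[N] p = p) → p₀ ∈ P →
  (∀ x ∈ K, x ∉ P → V (g^[N] x) < V x) →
  (∃ e ∈ Ch n M, p₀ ∈ e.source ∧ ‖fderiv ℝ (e ∘ g^[N] ∘ e.symm) (e p₀)‖ < 1) →
  (∀ p ∈ P, (∃ i : ℕ, g^[i] p = p₀) ∨ Saddle n g^[N] p) →
  Nbd n g {g' | (∀ x ∈ K, g'^[N] x ∈ interior K) ∧ ∃ p', g'^[N] p' = p' ∧
    μ {x | (∃ k : ℕ, g'^[k] x ∈ K) ∧ x ∉ basin g' {y | ∃ i < N, y = g'^[i] p'}} = 0}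

end Pool.Agent.PalT
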