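import Mathlib
import Pool.Agent.PalT.Targets

/-!
# Tori of codimension one: integrals over a collar
-/

set_option autoImplicit false

open Set MeasureTheory Filter Topology Metric
open scoped Manifold ContDiff

namespace Pool.Agent.PalT

open Pool.Agent.Pal

namespace INTT_

theorem contAt {d : ℕ} {M : Type} [TopologicalSpace M] [ChartedSpace (E (d + 1)) M] {w : ℝ}
    {T : E (d + 1) → M} (hT : Collar w T) {x : E (d + 1)} (hx : x ∈ Strip d w) :
    ContinuousAt T x := by
  obtain ⟨e, _, hxe, he⟩ := hT.2.1 x hx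
  have h : ContinuousAt (fun z => e.symm z) x := e.symm.continuousAt hxe
  exact h.congr (he.mono fun z hz => hz.symm)

theorem cell_sub {d : ℕ} {w : ℝ} : Cell d w ⊆ Strip d w := fun _ hx => hx.1

theorem cell_meas (d : ℕ) (w : ℝ) : MeasurableSet (Cell d w) := by
  have h : Cell d w = {x : E (d + 1) | |x 0| < w} ∩ ⋂ i : Fin d,
      {x : E (d + 1) | 0 ≤ x i.succ ∧ x i.succ < 1} := by
    ext x
    simp only [Cell, mem_setOf_eq, mem_inter_iff, mem_iInter]
  have hc : ∀ i : Fin (d + 1), Continuous fun x : E (d + 1) => x i := fun i => by fun_prop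
  rw [h]
  refine MeasurableSet.inter ?_ (MeasurableSet.iInter fun i => MeasurableSet.inter ?_ ?_)
  · exact (isOpen_lt (hc 0).abs continuous_const).measurableSet
  · exact (isClosed_le continuous_const (hc i.succ)).measurableSet
  · exact (isOpen_lt (hc i.succ) continuous_const).measurableSet

theorem inj {d : ℕ} {M : Type} [TopologicalSpace M] [ChartedSpace (E (d + 1)) M] {w : ℝ}
    {T : E (d + 1) → M} (hT : Collar w T) : InjOn T (Cell d w) := by
  intro x hx x' hx' h
  have hl := (hT.2.2 x (cell_sub hx) x' (cell_sub hx')).1 h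
  have key : ∀ i : Fin (d + 1), x i = x' i := by
    intro i
    refine Fin.cases ?_ (fun j => ?_) i
    · have h0 : (x - x') 0 = 0 := hl.1
      rw [PiLp.sub_apply] at h0
      linarith
    · obtain ⟨k, hk⟩ := hl.2 j.succ
      rw [PiLp.sub_apply] at hk
      have h1 := hx.2 j
      have h2 := hx'.2 j
      have h3 : (k : ℝ) < 1 := by linarith [h1.1, h1.2, h2.1, h2.2]
      have h4 : (-1 : ℝ) < k := by linarith [h1.1, h1.2, h2.1, h2.2]
      have h5 : k < 1 := by exact_mod_cast h3
      have h6 : -1 < k := by exact_mod_cast h4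
      have h7 : k = 0 := by omega
      rw [h7, Int.cast_zero] at hk
      linarith
  ext i
  exact key i

theorem surj {d : ℕ} {M : Type} [TopologicalSpace M] [ChartedSpace (E (d + 1)) M] {w : ℝ}
    {T : E (d + 1) → M} (hT : Collar w T) {y : M} (hy : y ∈ T '' Strip d w) :
    y ∈ T '' Cell d w := by
  obtain ⟨x, hx, rfl⟩ := hy
  let x' : E (d + 1) := WithLp.toLp 2 (Fin.cons (x 0) fun i : Fin d => Int.fract (x i.succ))
  have h0 : x' 0 = x 0 := rfl
  have hs : ∀ i : Fin d, x' i.succ = Int.fract (x i.succ) := fun i => rfl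
  have hx' : x' ∈ Cell d w := by
    refine ⟨?_, fun i => ?_⟩
    · rw [h0]
      exact hx
    · rw [hs]
      exact ⟨Int.fract_nonneg _, Int.fract_lt_one _⟩
  refine ⟨x', hx', ((hT.2.2 x' (cell_sub hx') x hx).2 ⟨?_, fun i => ?_⟩)⟩
  · rw [PiLp.sub_apply, h0, sub_self]
  · refine Fin.cases ?_ (fun j => ?_) i
    · refine ⟨0, ?_⟩
      rw [PiLp.sub_apply, h0, sub_self, Int.cast_zero]
    · refine ⟨-⌊x j.succ⌋, ?_⟩
      rw [PiLp.sub_apply, hs, Int.cast_neg]
      have := Int.self_sub_floor (x j.succ)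
      linarith

end INTT_

open INTT_ in
theorem intt : T_INTT := by
  intro d M _ _ _ _ _ _ _ μ w T Φ hT hU hΦ hz
  have hc : ContinuousOn T (Cell d w) := fun x hx => (contAt hT (cell_sub hx)).continuousWithinAt
  have hm := cell_meas d w
  have hae : AEMeasurable T (volume.restrict (Cell d w)) := hc.aemeasurable hm
  have hmeas : μ.restrict (T '' Cell d w) = Measure.map T (volume.restrict (Cell d w)) := by
    ext B hB
    rw [Measure.restrict_apply hB, Measure.map_apply_of_aemeasurable hae hB,
      Measure.restrict_apply' hm]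
    have hA : MeasurableSet (T ⁻¹' B ∩ Cell d w) := by
      have h1 : Measurable ((Cell d w).restrict T) :=
        (continuousOn_iff_continuous_restrict.1 hc).measurable
      have h2 := MeasurableSet.subtype_image hm (h1 hB)
      have h3 : (Subtype.val '' ((Cell d w).restrict T ⁻¹' B)) = T ⁻¹' B ∩ Cell d w := by
        ext x
        constructor
        · rintro ⟨z, hz1, rfl⟩
          exact ⟨hz1, z.2⟩
        · rintro ⟨h4, h5⟩
          exact ⟨⟨x, h5⟩, h4, rfl⟩
      rw [h3] at h2
      exact h2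
    have hi : B ∩ T '' Cell d w = T '' (T ⁻¹' B ∩ Cell d w) := by
      ext y
      constructor
      · rintro ⟨h1, x, hx, rfl⟩
        exact ⟨x, ⟨h1, hx⟩, rfl⟩
      · rintro ⟨x, ⟨h1, hx⟩, rfl⟩
        exact ⟨h1, x, hx, rfl⟩
    rw [hi]
    exact hU _ (fun x hx => cell_sub hx.2) hA ((inj hT).mono inter_subset_right)
  have h1 : ∫ y in T '' Cell d w, Φ y ∂μ = ∫ y, Φ y ∂μ :=
    setIntegral_eq_integral_of_forall_compl_eq_zero fun y hy =>
      hz y fun h => hy (surj hT h)
  rw [← h1, hmeas, integral_map hae hΦ.aestronglyMeasurable]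

end Pool.Agent.PalT
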