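import Pool.Agent.PalT.Targets

/-!
# The lift of a conservative map that leaves the torus invariant
-/

set_option autoImplicit false

open Set MeasureTheory Filter Topology Metric Asymptotics
open scoped Manifold ContDiff

namespace Pool.Agent.PalT

open Pool.Agent.Pal

theorem lift (h1 : T_LIFTA) (h2 : T_LIFTB) : T_LIFT := by
  intro d M _ _ _ _ _ _ _ μ _ w T h α hT hu hd hp hα hα'
  obtain ⟨w', F, hw', hw'w, hs, he, hz, hF, hl⟩ := h1 d M w T h α hT hd hα hα'
  have himg : h '' (T '' {x : E (d + 1) | x 0 = 0}) = T '' {x : E (d + 1) | x 0 = 0} := by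
    apply Subset.antisymm
    · rintro _ ⟨_, ⟨x, hx, rfl⟩, rfl⟩
      rw [hα' x hx]
      refine ⟨x + α, ?_, rfl⟩
      have hx' : x 0 = 0 := hx
      simp [hx', hα]
    · rintro _ ⟨x, hx, rfl⟩
      have hx' : x 0 = 0 := hx
      refine ⟨T (x - α), ⟨x - α, by simp [hx', hα], rfl⟩, ?_⟩
      rw [hα' (x - α) (by simp [hx', hα]), sub_add_cancel]
  obtain ⟨h3, h4⟩ := h2 d M μ w w' T h F hT hu hd hp hw' hw'w hs he himg hF
  exact ⟨w', F, hw'w, ⟨hw', hs, he, hα, hz, h3, hl, h4⟩, hF⟩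

end Pool.Agent.PalT
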