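import Pool.Agent.PalT.Targets

/-!
# LIFT2: the second iterate of a lifted map
-/

set_option autoImplicit false

open Set MeasureTheory Filter Topology
open scoped Manifold ContDiff

namespace Pool.Agent.PalT

open Pool.Agent.Pal

namespace LIFT2_

theorem cont_coord {d : ℕ} (i : Fin (d + 1)) : Continuous fun x : E (d + 1) => x i := by
  fun_prop

theorem isOpen_strip (d : ℕ) (w : ℝ) : IsOpen (Strip d w) :=
  isOpen_lt (continuous_abs.comp (cont_coord 0)) continuous_const

theorem meas_cell (d : ℕ) (w : ℝ) : MeasurableSet (Cell d w) := by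
  have h1 : MeasurableSet {x : E (d + 1) | |x 0| < w} := (isOpen_strip d w).measurableSet
  have h2 : MeasurableSet {x : E (d + 1) | ∀ i : Fin d, 0 ≤ x i.succ ∧ x i.succ < 1} := by
    rw [Set.setOf_forall]
    refine MeasurableSet.iInter fun i => ?_
    refine MeasurableSet.inter ?_ ?_
    · exact (isClosed_le continuous_const (cont_coord i.succ)).measurableSet
    · exact (isOpen_lt (cont_coord i.succ) continuous_const).measurableSet
  exact h1.inter h2

/-- a small strip is mapped into the strip -/
theorem small {d : ℕ} {w : ℝ} {α : E (d + 1)} {F : E (d + 1) → E (d + 1)}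
    (h : LiftMap d w α F) : ∃ w' : ℝ, 0 < w' ∧ w' ≤ w ∧ ∀ x ∈ Strip d w', F x ∈ Strip d w := by
  have hw := h.pos
  set K : Set (E (d + 1)) := {x | |x 0| ≤ w / 2 ∧ ∀ i : Fin d, 0 ≤ x i.succ ∧ x i.succ ≤ 1} with hK
  have hKc : IsClosed K := by
    have h1 : IsClosed {x : E (d + 1) | |x 0| ≤ w / 2} :=
      isClosed_le (continuous_abs.comp (cont_coord 0)) continuous_const
    have h2 : IsClosed {x : E (d + 1) | ∀ i : Fin d, 0 ≤ x i.succ ∧ x i.succ ≤ 1} := by
      rw [Set.setOf_forall]
      refine isClosed_iInter fun i => ?_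
      exact (isClosed_le continuous_const (cont_coord i.succ)).inter
        (isClosed_le (cont_coord i.succ) continuous_const)
    exact h1.inter h2
  have hKb : Bornology.IsBounded K := by
    refine (Metric.isBounded_closedBall (x := (0 : E (d + 1)))
      (r := √(∑ _i : Fin (d + 1), (w + 1) ^ 2))).subset fun x hx => ?_
    rw [mem_closedBall_zero_iff, EuclideanSpace.norm_eq]
    refine Real.sqrt_le_sqrt (Finset.sum_le_sum fun i _ => ?_)
    have h3 : ‖x i‖ ≤ w + 1 := by
      rw [Real.norm_eq_abs]
      refine Fin.cases ?_ (fun j => ?_) i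
      · linarith [hx.1]
      · rw [abs_le]
        have := hx.2 j
        constructor <;> linarith
    exact pow_le_pow_left₀ (norm_nonneg _) h3 2
  have hKcomp : IsCompact K := Metric.isCompact_of_isClosed_isBounded hKc hKb
  have hKS : K ⊆ Strip d w := fun x hx => by
    have : |x 0| ≤ w / 2 := hx.1
    show |x 0| < w
    linarith
  have hcont : ContinuousOn (fun x => F x 0) K :=
    (cont_coord 0).comp_continuousOn (h.smooth.continuousOn.mono hKS)
  have hcl : IsClosed {y : ℝ | w ≤ |y|} := isClosed_le continuous_const continuous_abs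
  set K' : Set (E (d + 1)) := K ∩ (fun x => F x 0) ⁻¹' {y : ℝ | w ≤ |y|} with hK'
  have hK'c : IsCompact K' :=
    hKcomp.of_isClosed_subset (hcont.preimage_isClosed_of_isClosed hKc hcl) inter_subset_left
  -- the number m
  obtain ⟨m, hm0, hm⟩ : ∃ m : ℝ, 0 < m ∧ ∀ x ∈ K', m ≤ |x 0| := by
    rcases K'.eq_empty_or_nonempty with he | hne
    · exact ⟨1, one_pos, fun x hx => by rw [he] at hx; exact absurd hx (Set.notMem_empty x)⟩
    · obtain ⟨x₀, hx₀, hmin⟩ := hK'c.exists_isMinOn hne
        ((continuous_abs.comp (cont_coord (d := d) 0)).continuousOn)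
      refine ⟨|x₀ 0|, ?_, fun x hx => hmin hx⟩
      rw [abs_pos]
      intro h0
      have h1 : F x₀ 0 = 0 := by
        rw [h.zero x₀ h0]
        simp [h0, h.alpha]
      have h2 : w ≤ |F x₀ 0| := hx₀.2
      rw [h1, abs_zero] at h2
      linarith
  refine ⟨min (w / 2) m, lt_min (by linarith) hm0, (min_le_left _ _).trans (by linarith),
    fun x hx => ?_⟩
  have hx1 : |x 0| < w / 2 := lt_of_lt_of_le hx (min_le_left _ _)
  have hx2 : |x 0| < m := lt_of_lt_of_le hx (min_le_right _ _)
  -- translate to the fundamental domain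
  let v : E (d + 1) := WithLp.toLp 2 (Fin.cons 0 fun i : Fin d => -(⌊x i.succ⌋ : ℝ))
  have hv0 : v 0 = 0 := rfl
  have hvs : ∀ i : Fin d, v i.succ = -(⌊x i.succ⌋ : ℝ) := fun i => rfl
  have hv : v ∈ Lat d := by
    refine ⟨hv0, fun i => ?_⟩
    refine Fin.cases ⟨0, by rw [hv0]; simp⟩ (fun j => ⟨-⌊x j.succ⌋, ?_⟩) i
    rw [hvs]; push_cast; rfl
  have hxS : x ∈ Strip d w := by
    show |x 0| < w
    linarith
  have hF : F (x + v) 0 = F x 0 := by
    rw [h.equi x hxS v hv]
    simp [hv0]
  have hxv0 : (x + v) 0 = x 0 := by simp [hv0]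
  have hxK : x + v ∈ K := by
    refine ⟨by rw [hxv0]; exact hx1.le, fun i => ?_⟩
    have : (x + v) i.succ = Int.fract (x i.succ) := by
      rw [PiLp.add_apply, hvs, Int.fract]; ring
    rw [this]
    exact ⟨Int.fract_nonneg _, (Int.fract_lt_one _).le⟩
  show |F x 0| < w
  by_contra hcon
  push Not at hcon
  have hxK' : x + v ∈ K' := ⟨hxK, by
    show w ≤ |F (x + v) 0|
    rw [hF]; exact hcon⟩
  have := hm _ hxK'
  rw [hxv0] at this
  linarith

end LIFT2_

open LIFT2_ in
theorem lift2 : T_LIFT2 := by
  intro d w α F h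
  obtain ⟨w', hw'0, hw'w, hmap⟩ := small h
  have hsub : Strip d w' ⊆ Strip d w := fun x hx => lt_of_lt_of_le hx hw'w
  obtain ⟨c, hc, hlow⟩ := h.low
  refine ⟨w', hw'w, hmap, ?_⟩
  refine
    { pos := hw'0
      smooth := h.smooth.comp (h.smooth.mono hsub) hmap
      equi := ?_
      alpha := by simp [h.alpha]
      zero := ?_
      det := ?_
      low := ?_
      vol := ?_ }
  · intro x hx v hv
    show F (F (x + v)) = F (F x) + v
    rw [h.equi x (hsub hx) v hv, h.equi (F x) (hmap x hx) v hv]
  · intro x hx
    show F (F x) = x + (α + α)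
    rw [h.zero x hx, h.zero (x + α) (by simp [hx, h.alpha]), add_assoc]
  · intro x hx
    have hd1 : DifferentiableAt ℝ F x :=
      (h.smooth.contDiffAt ((isOpen_strip d w).mem_nhds (hsub hx))).differentiableAt (by simp)
    have hd2 : DifferentiableAt ℝ F (F x) :=
      (h.smooth.contDiffAt ((isOpen_strip d w).mem_nhds (hmap x hx))).differentiableAt (by simp)
    rw [fderiv_comp x hd2 hd1]
    have hdet : ((fderiv ℝ F (F x)).comp (fderiv ℝ F x)).det =
        (fderiv ℝ F (F x)).det * (fderiv ℝ F x).det := by
      simp only [ContinuousLinearMap.det]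
      exact LinearMap.det_comp _ _
    rw [hdet, abs_mul, h.det x (hsub hx), h.det (F x) (hmap x hx), mul_one]
  · refine ⟨c * c, by positivity, fun x hx => ?_⟩
    have h1 := hlow x (hsub hx)
    have h2 := hlow (F x) (hmap x hx)
    calc c * c * |x 0| = c * (c * |x 0|) := by ring
      _ ≤ c * |F x 0| := mul_le_mul_of_nonneg_left h1 hc.le
      _ ≤ |(F ∘ F) x 0| := h2
  · obtain ⟨w₂, hw₂, hvol⟩ := h.vol
    refine ⟨min (min w₂ w') (min (c * min w₂ (w / 2)) (c * (c * w'))), ?_, ?_⟩
    · have := h.pos
      positivity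
    · intro φ hφc hφp hφ0
      have hA : ∀ x : E (d + 1), w₂ ≤ |x 0| → φ x = 0 := fun x hx =>
        hφ0 x (((min_le_left _ _).trans (min_le_left _ _)).trans hx)
      have hB : ∀ x : E (d + 1), w' ≤ |x 0| → φ x = 0 := fun x hx =>
        hφ0 x (((min_le_left _ _).trans (min_le_right _ _)).trans hx)
      have hC : ∀ x : E (d + 1), c * min w₂ (w / 2) ≤ |x 0| → φ x = 0 := fun x hx =>
        hφ0 x (((min_le_right _ _).trans (min_le_left _ _)).trans hx)
      have hD : ∀ x : E (d + 1), c * (c * w') ≤ |x 0| → φ x = 0 := fun x hx =>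
        hφ0 x (((min_le_right _ _).trans (min_le_right _ _)).trans hx)
      classical
      set φ₁ : E (d + 1) → ℝ := fun x => if |x 0| < w then φ (F x) else 0 with hφ₁
      have hin : ∀ x ∈ Strip d w, φ₁ x = φ (F x) := fun x hx => by
        simp only [hφ₁]; exact if_pos hx
      have hout : ∀ x : E (d + 1), min w₂ (w / 2) ≤ |x 0| → φ₁ x = 0 := by
        intro x hx
        simp only [hφ₁]
        split_ifs with hxw
        · exact hC (F x) ((mul_le_mul_of_nonneg_left hx hc.le).trans (hlow x hxw))
        · rfl
      have hcont : Continuous φ₁ := by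
        rw [continuous_iff_continuousAt]
        intro x
        by_cases hxw : |x 0| < w
        · have hev : φ₁ =ᶠ[𝓝 x] fun y => φ (F y) := by
            filter_upwards [(isOpen_strip d w).mem_nhds hxw] with y hy
            exact hin y hy
          refine ContinuousAt.congr ?_ hev.symm
          exact hφc.continuousAt.comp
            (h.smooth.continuousOn.continuousAt ((isOpen_strip d w).mem_nhds hxw))
        · have hev : φ₁ =ᶠ[𝓝 x] fun _ => (0 : ℝ) := by
            have hop : IsOpen {y : E (d + 1) | w / 2 < |y 0|} :=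
              isOpen_lt continuous_const (continuous_abs.comp (cont_coord 0))
            have hx' : x ∈ {y : E (d + 1) | w / 2 < |y 0|} := by
              show w / 2 < |x 0|
              push Not at hxw
              have := h.pos
              linarith
            filter_upwards [hop.mem_nhds hx'] with y hy
            exact hout y ((min_le_right _ _).trans (le_of_lt hy))
          exact continuousAt_const.congr hev.symm
      have hper : Per d φ₁ := by
        intro x v hv
        have h0 : (x + v) 0 = x 0 := by simp [hv.1]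
        simp only [hφ₁]
        rw [h0]
        split_ifs with hxw
        · rw [h.equi x hxw v hv]
          exact hφp _ v hv
        · rfl
      have hv1 := hvol φ₁ hcont hper fun x hx => hout x ((min_le_left _ _).trans hx)
      have hv2 := hvol φ hφc hφp hA
      have hcs : Cell d w' ⊆ Cell d w := fun x hx => ⟨lt_of_lt_of_le hx.1 hw'w, hx.2⟩
      have e1 : ∫ x in Cell d w', φ ((F ∘ F) x) = ∫ x in Cell d w', φ₁ (F x) := by
        refine setIntegral_congr_fun (meas_cell d w') fun x hx => ?_
        exact (hin (F x) (hmap x hx.1)).symm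
      have e2 : ∫ x in Cell d w, φ₁ (F x) = ∫ x in Cell d w', φ₁ (F x) := by
        refine setIntegral_eq_of_subset_of_forall_diff_eq_zero (meas_cell d w) hcs fun x hx => ?_
        have hxw : |x 0| < w := hx.1.1
        have hxw' : w' ≤ |x 0| := by
          by_contra hcon
          push Not at hcon
          exact hx.2 ⟨hcon, hx.1.2⟩
        by_cases hFx : |F x 0| < w
        · rw [hin (F x) hFx]
          refine hD _ ?_
          calc c * (c * w') ≤ c * (c * |x 0|) := by
                refine mul_le_mul_of_nonneg_left ?_ hc.le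
                exact mul_le_mul_of_nonneg_left hxw' hc.le
            _ ≤ c * |F x 0| := mul_le_mul_of_nonneg_left (hlow x hxw) hc.le
            _ ≤ |F (F x) 0| := hlow (F x) hFx
        · simp only [hφ₁]
          rw [if_neg hFx]
      have e3 : ∫ x in Cell d w, φ₁ x = ∫ x in Cell d w, φ (F x) :=
        setIntegral_congr_fun (meas_cell d w) fun x hx => hin x hx.1
      have e4 : ∫ x in Cell d w, φ x = ∫ x in Cell d w', φ x := by
        refine setIntegral_eq_of_subset_of_forall_diff_eq_zero (meas_cell d w) hcs fun x hx => ?_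
        refine hB x ?_
        by_contra hcon
        push Not at hcon
        exact hx.2 ⟨hcon, hx.1.2⟩
      rw [e1, ← e2, hv1, e3, hv2, e4]

end Pool.Agent.PalT
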