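import Pool.Agent.PalT.Targets
import Pool.Agent.Pal.EXT

/-!
# KT-LIFTA: the lift of a map that leaves the torus invariant
-/

set_option autoImplicit false

open Set MeasureTheory Filter Topology Metric
open scoped Manifold ContDiff

namespace Pool.Agent.PalT

open Pool.Agent.Pal

namespace LIFTA_

variable {d : ℕ}

/-- The projection to the torus. -/
noncomputable def bar (x : E (d + 1)) : E (d + 1) :=
  x - (x 0) • EuclideanSpace.single (0 : Fin (d + 1)) (1 : ℝ)

theorem bar_zero (x : E (d + 1)) : bar x 0 = 0 := by simp [bar]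

theorem bar_succ (x : E (d + 1)) (i : Fin d) : bar x i.succ = x i.succ := by
  simp [bar]

theorem dist_bar (x : E (d + 1)) : dist x (bar x) = |x 0| := by
  rw [dist_eq_norm, bar, sub_sub_cancel, norm_smul, PiLp.norm_single]
  simp

theorem bar_of_zero (x : E (d + 1)) (h : x 0 = 0) : bar x = x := by simp [bar, h]

theorem bar_add (x v : E (d + 1)) : bar (x + v) = bar x + bar v := by
  simp only [bar, PiLp.add_apply, add_smul]
  abel

theorem bar_sub (x v : E (d + 1)) : bar (x - v) = bar x - bar v := by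
  simp only [bar, PiLp.sub_apply, sub_smul]
  abel

theorem norm_bar_le (x : E (d + 1)) : ‖bar x‖ ≤ ‖x‖ := by
  rw [EuclideanSpace.norm_eq, EuclideanSpace.norm_eq]
  apply Real.sqrt_le_sqrt
  apply Finset.sum_le_sum
  intro i _
  refine Fin.cases ?_ (fun j => ?_) i
  · rw [bar_zero]
    simp only [norm_zero, ne_eq, OfNat.ofNat_ne_zero, not_false_eq_true, zero_pow]
    exact sq_nonneg _
  · rw [bar_succ]

theorem dist_bar_bar (x y : E (d + 1)) : dist (bar x) (bar y) ≤ dist x y := by
  rw [dist_eq_norm, dist_eq_norm, ← bar_sub]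
  exact norm_bar_le _

/-- The fundamental domain of the torus. -/
def Dom (d : ℕ) : Set (E (d + 1)) := {x | x 0 = 0 ∧ ∀ i : Fin (d + 1), 0 ≤ x i ∧ x i ≤ 1}

theorem dom_compact : IsCompact (Dom d) := by
  have h1 : IsCompact (WithLp.toLp 2 '' (Icc (0 : Fin (d + 1) → ℝ) 1)) :=
    isCompact_Icc.image (PiLp.continuous_toLp 2 _)
  refine h1.of_isClosed_subset ?_ ?_
  · have h2 : Dom d = (fun x : E (d + 1) => x 0) ⁻¹' {0} ∩
        ⋂ i : Fin (d + 1), (fun x : E (d + 1) => x i) ⁻¹' (Icc 0 1) := by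
      ext x
      simp [Dom]
    rw [h2]
    refine IsClosed.inter (isClosed_singleton.preimage (by fun_prop)) ?_
    exact isClosed_iInter fun i => isClosed_Icc.preimage (by fun_prop)
  · intro x hx
    exact ⟨x.ofLp, ⟨fun i => (hx.2 i).1, fun i => (hx.2 i).2⟩, rfl⟩

theorem lat_floor (y : E (d + 1)) : ∃ v ∈ Lat d, bar y - v ∈ Dom d := by
  refine ⟨WithLp.toLp 2 (Fin.cons 0 (fun i : Fin d => ((⌊y i.succ⌋ : ℤ) : ℝ))), ⟨?_, ?_⟩, ?_, ?_⟩
  · simp
  · intro i
    refine Fin.cases ⟨0, by simp⟩ (fun j => ⟨⌊y j.succ⌋, by simp⟩) i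
  · simp [bar_zero]
  · intro i
    refine Fin.cases (by simp [bar_zero]) (fun j => ?_) i
    rw [PiLp.sub_apply, bar_succ]
    simp only [Fin.cons_succ]
    exact ⟨by linarith [Int.floor_le (y j.succ)], by linarith [Int.lt_floor_add_one (y j.succ)]⟩

theorem lat_neg {v : E (d + 1)} (h : v ∈ Lat d) : -v ∈ Lat d := by
  refine ⟨by simp [h.1], fun i => ?_⟩
  obtain ⟨k, hk⟩ := h.2 i
  exact ⟨-k, by simp [hk]⟩

/-- Local uniformity at the torus is global. -/
theorem spread (Q : ℝ → E (d + 1) → Prop) (hmono : ∀ K K' y, K ≤ K' → Q K y → Q K' y)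
    (hper : ∀ K y, ∀ v ∈ Lat d, Q K y → Q K (y + v))
    (hloc : ∀ a : E (d + 1), a 0 = 0 → ∃ K r : ℝ, 0 < r ∧ ∀ y, dist y a < r → Q K y) :
    ∃ K r : ℝ, 0 < r ∧ ∀ y ∈ Strip d r, Q K y := by
  have key : ∃ K r : ℝ, 0 < r ∧ ∀ a ∈ Dom d, ∀ y, dist y a < r → Q K y := by
    refine (dom_compact (d := d)).induction_on
      (p := fun s => ∃ K r : ℝ, 0 < r ∧ ∀ a ∈ s, ∀ y, dist y a < r → Q K y) ?_ ?_ ?_ ?_
    · exact ⟨0, 1, one_pos, fun a ha => absurd ha (notMem_empty a)⟩
    · rintro s t hst ⟨K, r, hr, h⟩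
      exact ⟨K, r, hr, fun a ha => h a (hst ha)⟩
    · rintro s t ⟨K, r, hr, h⟩ ⟨K', r', hr', h'⟩
      refine ⟨max K K', min r r', lt_min hr hr', ?_⟩
      rintro a (ha | ha) y hy
      · exact hmono _ _ _ (le_max_left _ _) (h a ha y (lt_of_lt_of_le hy (min_le_left _ _)))
      · exact hmono _ _ _ (le_max_right _ _) (h' a ha y (lt_of_lt_of_le hy (min_le_right _ _)))
    · intro a ha
      obtain ⟨K, r, hr, h⟩ := hloc a ha.1
      refine ⟨ball a (r / 2), mem_nhdsWithin_of_mem_nhds (ball_mem_nhds a (half_pos hr)), K,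
        r / 2, half_pos hr, ?_⟩
      intro a' ha' y hy
      refine h y ?_
      have h1 : dist a' a < r / 2 := ha'
      have h2 := dist_triangle y a' a
      linarith
  obtain ⟨K, r, hr, h⟩ := key
  refine ⟨K, r, hr, ?_⟩
  intro y hy
  obtain ⟨v, hv, hD⟩ := lat_floor y
  have h1 : Q K (y - v) := by
    refine h _ hD _ ?_
    rw [dist_sub_right, dist_bar]
    exact hy
  have h2 := hper K (y - v) v hv h1
  rwa [sub_add_cancel] at h2

/-- Uniform charts along the torus. -/
def Good {M : Type} [TopologicalSpace M] [ChartedSpace (E (d + 1)) M] (w ε : ℝ)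
    (T : E (d + 1) → M) : Prop :=
  0 < ε ∧ ∀ x : E (d + 1), x 0 = 0 → ∃ e ∈ Ch (d + 1) M, e.target = ball x ε ∧
    ball x ε ⊆ Strip d w ∧ ∀ z ∈ ball x ε, T z = e.symm z

section

variable {M : Type} [TopologicalSpace M] [ChartedSpace (E (d + 1)) M]
  [IsManifold 𝓘(ℝ, E (d + 1)) ∞ M]

omit [IsManifold 𝓘(ℝ, E (d + 1)) ∞ M] in
theorem good_inj {w ε : ℝ} {T : E (d + 1) → M} (hG : Good w ε T) {x : E (d + 1)} (hx : x 0 = 0)
    {y z : E (d + 1)} (hy : dist y x < ε) (hz : dist z x < ε) (h : T y = T z) : y = z := by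
  obtain ⟨e, -, he, -, hT⟩ := hG.2 x hx
  rw [hT y hy, hT z hz] at h
  exact e.symm.injOn (by simpa [he] using hy) (by simpa [he] using hz) h

theorem isOpen_strip (w : ℝ) : IsOpen (Strip d w) := by
  have h : Continuous fun x : E (d + 1) => |x 0| := by fun_prop
  exact isOpen_lt h continuous_const

/-- The lift, with control of the distance. -/
theorem core {w ε : ℝ} {T : E (d + 1) → M} (hT : Collar w T) (hG : Good w ε T)
    (hcont : ContinuousOn T (Strip d w)) (hopen : ∀ O ⊆ Strip d w, IsOpen O → IsOpen (T '' O))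
    (h : M → M) (hh : IsDiffeo (d + 1) ⊤ h) (α : E (d + 1)) (hα : α 0 = 0)
    (hinv : ∀ x, x 0 = 0 → h (T x) = T (x + α)) :
    ∃ (δ : ℝ) (F : E (d + 1) → E (d + 1)), 0 < δ ∧ δ ≤ w ∧ δ ≤ ε / 4 ∧
      ContDiffOn ℝ ∞ F (Strip d δ) ∧ (∀ x ∈ Strip d δ, ∀ v ∈ Lat d, F (x + v) = F x + v) ∧
      (∀ x, x 0 = 0 → F x = x + α) ∧ (∀ x ∈ Strip d δ, F x ∈ Strip d w ∧ h (T x) = T (F x)) ∧
      ∀ x ∈ Strip d δ, dist (F x) (bar x + α) < ε / 4 := by
  classical
  have hε := hG.1
  have hw := hT.1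
  have hhc : Continuous h := by
    obtain ⟨G, rfl⟩ := hh
    exact G.continuous
  have hTv : ∀ y, y ∈ Strip d w → ∀ v ∈ Lat d, T (y + v) = T y := by
    intro y hy v hv
    have hy' : y + v ∈ Strip d w := by
      simpa [Strip, hv.1] using hy
    refine (hT.2.2 (y + v) hy' y hy).2 ?_
    simpa using hv
  have hballs : ∀ x : E (d + 1), x 0 = 0 → ball x ε ⊆ Strip d w := by
    intro x hx
    obtain ⟨e, -, -, he, -⟩ := hG.2 x hx
    exact he
  have hz0 : ∀ y : E (d + 1), (bar y + α) 0 = 0 := by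
    intro y
    simp [bar_zero, hα]
  -- existence
  have hex : ∃ K r : ℝ, 0 < r ∧ ∀ y ∈ Strip d r, (fun (_ : ℝ) (y : E (d + 1)) =>
      y ∈ Strip d w → ∃ z, dist z (bar y + α) < ε / 4 ∧ T z = h (T y)) K y := by
    apply spread
    · intro K K' y _ h1
      exact h1
    · intro K y v hv h1 hyv
      have hy : y ∈ Strip d w := by
        simpa [Strip, hv.1] using hyv
      obtain ⟨z, hz1, hz2⟩ := h1 hy
      have hzs : z ∈ Strip d w := hballs _ (hz0 y) (lt_trans hz1 (by linarith))
      refine ⟨z + v, ?_, ?_⟩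
      · have : bar (y + v) + α = bar y + α + v := by
          rw [bar_add, bar_of_zero v hv.1]
          abel
        rw [this, dist_add_right]
        exact hz1
      · rw [hTv z hzs v hv, hTv y hy v hv, hz2]
    · intro a ha
      have haα : (a + α) 0 = 0 := by simp [ha, hα]
      have haS : a ∈ Strip d w := by simp [Strip, ha, hw]
      have hO : IsOpen (T '' ball (a + α) (ε / 8)) :=
        hopen _ ((ball_subset_ball (by linarith)).trans (hballs _ haα)) isOpen_ball
      have h1 : ContinuousAt (fun y => h (T y)) a :=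
        hhc.continuousAt.comp (hcont.continuousAt ((isOpen_strip w).mem_nhds haS))
      have h2 : h (T a) ∈ T '' ball (a + α) (ε / 8) := by
        rw [hinv a ha]
        exact ⟨a + α, mem_ball_self (by linarith), rfl⟩
      have h3 : ∀ᶠ y in 𝓝 a, h (T y) ∈ T '' ball (a + α) (ε / 8) :=
        h1.eventually_mem (hO.mem_nhds h2)
      obtain ⟨r, hr, h4⟩ := Metric.eventually_nhds_iff.1 h3
      refine ⟨0, min r (ε / 8), lt_min hr (by linarith), ?_⟩
      intro y hy _
      obtain ⟨z, hz, hz2⟩ := h4 (lt_of_lt_of_le hy (min_le_left _ _))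
      refine ⟨z, ?_, hz2⟩
      have h5 : dist z (a + α) < ε / 8 := hz
      have h6 : dist (a + α) (bar y + α) < ε / 8 := by
        rw [dist_add_right, dist_comm]
        calc dist (bar y) a = dist (bar y) (bar a) := by rw [bar_of_zero a ha]
          _ ≤ dist y a := dist_bar_bar y a
          _ < ε / 8 := lt_of_lt_of_le hy (min_le_right _ _)
      have h7 := dist_triangle z (a + α) (bar y + α)
      linarith
  obtain ⟨K₀, r, hr, hex⟩ := hex
  -- the map
  obtain ⟨F, hF⟩ : ∃ F : E (d + 1) → E (d + 1), ∀ y,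
      (∃ z, dist z (bar y + α) < ε / 4 ∧ T z = h (T y)) →
        dist (F y) (bar y + α) < ε / 4 ∧ T (F y) = h (T y) := by
    refine ⟨fun y => if H : ∃ z, dist z (bar y + α) < ε / 4 ∧ T z = h (T y) then
      Classical.choose H else 0, ?_⟩
    intro y H
    simp only [dif_pos H]
    exact Classical.choose_spec H
  have hδw : min r (min w (ε / 4)) ≤ w := (min_le_right _ _).trans (min_le_left _ _)
  have hδε : min r (min w (ε / 4)) ≤ ε / 4 := (min_le_right _ _).trans (min_le_right _ _)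
  have hδr : min r (min w (ε / 4)) ≤ r := min_le_left _ _
  generalize hδdef : min r (min w (ε / 4)) = δ at hδw hδε hδr
  have hδ : 0 < δ := by
    rw [← hδdef]
    exact lt_min hr (lt_min hw (by linarith))
  have hsub : ∀ y, y ∈ Strip d δ → y ∈ Strip d w := fun y hy => lt_of_lt_of_le hy hδw
  have hF1 : ∀ y ∈ Strip d δ, dist (F y) (bar y + α) < ε / 4 ∧ T (F y) = h (T y) := by
    intro y hy
    exact hF y (hex y (lt_of_lt_of_le hy hδr) (hsub y hy))
  have huniq : ∀ y ∈ Strip d δ, ∀ z, dist z (bar y + α) < ε → T z = h (T y) → F y = z := by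
    intro y hy z hz1 hz2
    refine good_inj hG (hz0 y) (lt_trans (hF1 y hy).1 (by linarith)) hz1 ?_
    rw [(hF1 y hy).2, hz2]
  have hFs : ∀ y ∈ Strip d δ, F y ∈ Strip d w := fun y hy =>
    hballs _ (hz0 y) (lt_trans (hF1 y hy).1 (by linarith))
  refine ⟨δ, F, hδ, hδw, hδε, ?_, ?_, ?_, fun y hy => ⟨hFs y hy, (hF1 y hy).2.symm⟩,
    fun y hy => (hF1 y hy).1⟩
  · -- smoothness
    intro y hy
    refine ContDiffAt.contDiffWithinAt ?_
    obtain ⟨e, he, het, hes, heT⟩ := hG.2 (bar y + α) (hz0 y)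
    obtain ⟨e', he', hye', hT'⟩ := hT.2.1 y (hsub y hy)
    have h1 : F y ∈ e.target := by
      rw [het]
      exact lt_trans (hF1 y hy).1 (by linarith)
    have h2 : h (e'.symm y) ∈ e.source := by
      have h3 : h (e'.symm y) = e.symm (F y) := by
        rw [← hT'.self_of_nhds, ← (hF1 y hy).2]
        exact heT _ (lt_trans (hF1 y hy).1 (by linarith))
      rw [h3]
      exact e.map_target h1
    have h4 : ContDiffAt ℝ ((⊤ : ℕ∞) : WithTop ℕ∞) (e ∘ h^[1] ∘ e'.symm) (e' (e'.symm y)) :=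
      (diff1 (d + 1) M ⊤).2.2.2 h 1 e' e (e'.symm y) hh he' he (e'.map_target hye') h2
    rw [e'.right_inv hye'] at h4
    refine h4.congr_of_eventuallyEq ?_
    have h5 : ∀ᶠ y' in 𝓝 y, dist (bar y' + α) (bar y + α) < ε / 4 := by
      have h6 : ∀ᶠ y' in 𝓝 y, dist y' y < ε / 4 := ball_mem_nhds y (by linarith)
      filter_upwards [h6] with y' hy'
      rw [dist_add_right]
      exact lt_of_le_of_lt (dist_bar_bar y' y) hy'
    filter_upwards [hT', h5, (isOpen_strip δ).mem_nhds hy] with y' h7 h8 h9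
    have h10 : F y' ∈ ball (bar y + α) ε := by
      have h11 := dist_triangle (F y') (bar y' + α) (bar y + α)
      have h12 := (hF1 y' h9).1
      show dist (F y') (bar y + α) < ε
      linarith
    show F y' = e (h (e'.symm y'))
    rw [← h7, ← (hF1 y' h9).2, heT _ h10]
    refine (e.right_inv ?_).symm
    rw [het]
    exact h10
  · intro y hy v hv
    have hyv : y + v ∈ Strip d δ := by
      simpa [Strip, hv.1] using hy
    refine huniq _ hyv _ ?_ ?_
    · have h1 : bar (y + v) + α = bar y + α + v := by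
        rw [bar_add, bar_of_zero v hv.1]
        abel
      rw [h1, dist_add_right]
      exact lt_trans (hF1 y hy).1 (by linarith)
    · rw [hTv _ (hFs y hy) v hv, hTv y (hsub y hy) v hv, (hF1 y hy).2]
  · intro x hx
    have hxs : x ∈ Strip d δ := by simp [Strip, hx, hδ]
    refine huniq x hxs _ ?_ (hinv x hx).symm
    rw [bar_of_zero x hx, dist_self]
    exact hε

end

end LIFTA_

open LIFTA_

theorem lifta (h1 : T_COLL) : T_LIFTA := by
  intro d M _ _ _ _ _ w T h α hT hh hα hinv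
  obtain ⟨hcont, hopen, -, hch⟩ := h1 d M w T hT
  have hw := hT.1
  obtain ⟨ε, hε, hch⟩ := hch 0 hw
  have hG : Good w ε T := ⟨hε, fun x hx => hch x (by simp [hx])⟩
  obtain ⟨G, hGh⟩ := hh
  have hinv' : ∀ x : E (d + 1), x 0 = 0 → G.symm (T x) = T (x + -α) := by
    intro x hx
    have h2 : (x + -α) 0 = 0 := by simp [hx, hα]
    have h3 := hinv (x + -α) h2
    rw [neg_add_cancel_right] at h3
    rw [← h3, ← hGh]
    exact G.symm_apply_apply _
  have hh' : IsDiffeo (d + 1) ⊤ (G.symm : M → M) := ⟨G.symm, rfl⟩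
  obtain ⟨δ, F, hδ, hδw, hδε, hFd, hFv, hF0, hFT, hFb⟩ :=
    core hT hG hcont hopen h ⟨G, hGh⟩ α hα hinv
  obtain ⟨δ', F', hδ', hδw', hδε', hFd', hFv', hF0', hFT', hFb'⟩ :=
    core hT hG hcont hopen (G.symm : M → M) hh' (-α) (by simp [hα]) hinv'
  -- the Lipschitz bound of the inverse
  have hlip : ∃ K r : ℝ, 0 < r ∧ ∀ y ∈ Strip d r, (fun (K : ℝ) (y : E (d + 1)) =>
      y ∈ Strip d δ' → |F' y 0| ≤ K * |y 0|) K y := by
    apply spread
    · intro K K' y hK h2 hy
      exact (h2 hy).trans (mul_le_mul_of_nonneg_right hK (abs_nonneg _))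
    · intro K y v hv h2 hyv
      have hy : y ∈ Strip d δ' := by
        simpa [Strip, hv.1] using hyv
      rw [hFv' y hy v hv]
      simpa [hv.1] using h2 hy
    · intro a ha
      have haS : a ∈ Strip d δ' := by simp [Strip, ha, hδ']
      have h2 : ContDiffAt ℝ 1 F' a :=
        ((hFd' a haS).contDiffAt ((isOpen_strip δ').mem_nhds haS)).of_le (by norm_cast)
      obtain ⟨K, t, ht, hL⟩ := h2.exists_lipschitzOnWith
      obtain ⟨r, hr, hrt⟩ := Metric.mem_nhds_iff.1 ht
      refine ⟨K, r, hr, ?_⟩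
      intro y hy _
      have hb : dist (bar y) a < r := by
        calc dist (bar y) a = dist (bar y) (bar a) := by rw [bar_of_zero a ha]
          _ ≤ dist y a := dist_bar_bar y a
          _ < r := hy
      have h3 := hL.dist_le_mul y (hrt hy) (bar y) (hrt hb)
      rw [dist_bar, hF0' (bar y) (bar_zero y)] at h3
      have h4 : |F' y 0| ≤ dist (F' y) (bar y + -α) := by
        rw [dist_eq_norm]
        have h5 := PiLp.norm_apply_le (F' y - (bar y + -α)) 0
        have h6 : (F' y - (bar y + -α)) 0 = F' y 0 := by simp [bar_zero, hα]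
        rw [h6, Real.norm_eq_abs] at h5
        exact h5
      exact h4.trans h3
  obtain ⟨K, r, hr, hK⟩ := hlip
  -- smallness of `F`
  have hsm : ∃ K₁ r₁ : ℝ, 0 < r₁ ∧ ∀ y ∈ Strip d r₁, (fun (_ : ℝ) (y : E (d + 1)) =>
      y ∈ Strip d δ → |F y 0| < min r δ') K₁ y := by
    apply spread
    · intro K K' y _ h2
      exact h2
    · intro K y v hv h2 hyv
      have hy : y ∈ Strip d δ := by
        simpa [Strip, hv.1] using hyv
      rw [hFv y hy v hv]
      simpa [hv.1] using h2 hy
    · intro a ha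
      have haS : a ∈ Strip d δ := by simp [Strip, ha, hδ]
      have h2 : ContinuousAt F a :=
        ((hFd a haS).contDiffAt ((isOpen_strip δ).mem_nhds haS)).continuousAt
      have h3 : ContinuousAt (fun y => |F y 0|) a := by
        have h4 : Continuous fun z : E (d + 1) => |z 0| := by fun_prop
        exact h4.continuousAt.comp h2
      have h5 : |F a 0| < min r δ' := by
        rw [hF0 a ha]
        simpa [ha, hα] using ⟨hr, hδ'⟩
      obtain ⟨ρ, hρ, h6⟩ := Metric.eventually_nhds_iff.1 (h3.eventually_lt_const h5)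
      exact ⟨0, ρ, hρ, fun y hy _ => h6 hy⟩
  obtain ⟨K₁, r₁, hr₁, hsm⟩ := hsm
  refine ⟨min r₁ δ, F, lt_min hr₁ hδ, (min_le_right _ _).trans hδw,
    hFd.mono (fun y hy => show |y 0| < δ from lt_of_lt_of_le hy (min_le_right _ _)),
    fun x hx => hFv x (show |x 0| < δ from lt_of_lt_of_le hx (min_le_right _ _)), hF0,
    fun x hx => hFT x (show |x 0| < δ from lt_of_lt_of_le hx (min_le_right _ _)),
    1 / (|K| + 1), by positivity, ?_⟩
  intro y hy
  have hyδ : y ∈ Strip d δ := show |y 0| < δ from lt_of_lt_of_le hy (min_le_right _ _)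
  have h2 : |F y 0| < min r δ' := hsm y (show |y 0| < r₁ from lt_of_lt_of_le hy (min_le_left _ _)) hyδ
  have h3 : F y ∈ Strip d δ' := show |F y 0| < δ' from lt_of_lt_of_le h2 (min_le_right _ _)
  have h4 : |F' (F y) 0| ≤ K * |F y 0| := hK _ (show |F y 0| < r from lt_of_lt_of_le h2 (min_le_left _ _)) h3
  have h5 : F' (F y) = y := by
    refine good_inj hG (bar_zero y) ?_ ?_ ?_
    · have h6 := hFb' (F y) h3
      have h7 : dist (bar (F y) + -α) (bar y) ≤ dist (F y) (bar y + α) := by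
        have h8 : bar (bar y + α) = bar y + α := bar_of_zero _ (by simp [bar_zero, hα])
        calc dist (bar (F y) + -α) (bar y) = dist (bar (F y)) (bar y + α) := by
              rw [dist_eq_norm, dist_eq_norm]
              congr 1
              abel
          _ = dist (bar (F y)) (bar (bar y + α)) := by rw [h8]
          _ ≤ dist (F y) (bar y + α) := dist_bar_bar _ _
      have h9 := hFb y hyδ
      have h10 := dist_triangle (F' (F y)) (bar (F y) + -α) (bar y)
      linarith
    · rw [dist_bar]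
      have h6 : |y 0| < δ := hyδ
      linarith
    · rw [← (hFT' (F y) h3).2, ← (hFT y hyδ).2, ← hGh]
      exact G.symm_apply_apply _
  rw [h5] at h4
  have h6 : |y 0| ≤ (|K| + 1) * |F y 0| := by
    refine h4.trans (mul_le_mul_of_nonneg_right ?_ (abs_nonneg _))
    linarith [le_abs_self K]
  rw [one_div, inv_mul_le_iff₀ (by positivity)]
  exact h6

end Pool.Agent.PalT
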