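import Pool.Agent.PalT.Targets
import Pool.Agent.Pal.VOLE

/-!
# The lift of a conservative map preserves the volume
-/

set_option autoImplicit false

open Set MeasureTheory Filter Topology Metric
open scoped Manifold ContDiff

namespace Pool.Agent.PalT

open Pool.Agent.Pal

namespace LIFTB_

theorem lat_zero {d : ℕ} {v : E (d + 1)} (hv : v ∈ Lat d) (h1 : ‖v‖ < 1) : v = 0 := by
  ext i
  obtain ⟨k, hk⟩ := hv.2 i
  have h2 : |v i| ≤ ‖v‖ := by
    have := PiLp.norm_apply_le v i
    rwa [Real.norm_eq_abs] at this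
  have h3 : |(k : ℝ)| < 1 := by rw [← hk]; linarith
  have h4 : |k| < 1 := by exact_mod_cast h3
  have h5 : k = 0 := Int.abs_lt_one_iff.mp h4
  rw [hk, h5]; simp

theorem isOpen_strip (d : ℕ) (w : ℝ) : IsOpen (Strip d w) := by
  have : Continuous fun x : E (d + 1) => |x 0| := by fun_prop
  exact isOpen_lt this continuous_const

theorem inj_ball {d : ℕ} {M : Type} [TopologicalSpace M] [ChartedSpace (E (d + 1)) M] {w : ℝ}
    {T : E (d + 1) → M} (hT : Collar w T) {a b : E (d + 1)} (ha : a ∈ Strip d w)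
    (hb : b ∈ Strip d w) (h1 : dist a b < 1) (h2 : T a = T b) : a = b := by
  have h3 := (hT.2.2 a ha b hb).mp h2
  have h4 := lat_zero h3 (by rwa [← dist_eq_norm])
  exact sub_eq_zero.mp h4

/-- A measure preserving homeomorphism does not change the measure of images. -/
theorem image_measure {M : Type} [TopologicalSpace M] [MeasurableSpace M] [BorelSpace M]
    (μ : Measure M) (h : M ≃ₜ M) (hm : MeasurePreserving h μ μ) {B : Set M}
    (hB : MeasurableSet B) : μ (h '' B) = μ B := by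
  have h1 : MeasurableSet (h '' B) := by
    rw [h.image_eq_preimage_symm]
    exact h.symm.continuous.measurable hB
  have h2 := hm.measure_preimage h1.nullMeasurableSet
  rw [← h2, preimage_image_eq _ h.injective]

theorem collar_mono {d : ℕ} {M : Type} [TopologicalSpace M] [ChartedSpace (E (d + 1)) M]
    {w w' : ℝ} {T : E (d + 1) → M} (hT : Collar w T) (h0 : 0 < w') (h1 : w' ≤ w) :
    Collar w' T := by
  have hs : Strip d w' ⊆ Strip d w := fun x hx => lt_of_lt_of_le hx h1
  exact ⟨h0, fun x hx => hT.2.1 x (hs hx), fun x hx x' hx' => hT.2.2 x (hs hx) x' (hs hx')⟩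

theorem det_one (h1 : T_COLL) (d : ℕ) (M : Type) [TopologicalSpace M] [ChartedSpace (E (d + 1)) M]
    [IsManifold 𝓘(ℝ, E (d + 1)) ∞ M] [T2Space M] [CompactSpace M] [MeasurableSpace M]
    [BorelSpace M] (μ : Measure M) (w w' : ℝ) (T : E (d + 1) → M)
    (h : M ≃ₜ M) (F : E (d + 1) → E (d + 1)) (hT : Collar w T) (hU : UniT μ w T)
    (hm : MeasurePreserving h μ μ) (hw : w' ≤ w) (hF : ContDiffOn ℝ ∞ F (Strip d w'))
    (hFT : ∀ x ∈ Strip d w', F x ∈ Strip d w ∧ h (T x) = T (F x)) :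
    ∀ x ∈ Strip d w', |(fderiv ℝ F x).det| = 1 := by
  intro x hx
  obtain ⟨hTc, -, -, -⟩ := h1 d M w T hT
  have hs : Strip d w' ⊆ Strip d w := fun x hx => lt_of_lt_of_le hx hw
  have hFc : ContinuousAt F x := (hF.continuousOn).continuousAt ((isOpen_strip d w').mem_nhds hx)
  obtain ⟨δ₁, hδ₁, hb₁⟩ := Metric.isOpen_iff.mp (isOpen_strip d w') x hx
  obtain ⟨δ₂, hδ₂, hb₂⟩ := Metric.continuousAt_iff.mp hFc (1 / 2) (by norm_num)
  set δ := min (min δ₁ δ₂) (1 / 2) with hδ
  have hδ0 : 0 < δ := by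
    rw [hδ]; positivity
  have hB1 : ball x δ ⊆ Strip d w' := (ball_subset_ball ((min_le_left _ _).trans
    (min_le_left _ _))).trans hb₁
  have hB2 : ∀ y ∈ ball x δ, dist (F y) (F x) < 1 / 2 := fun y hy =>
    hb₂ (lt_of_lt_of_le hy ((min_le_left _ _).trans (min_le_right _ _)))
  have hB3 : ∀ y ∈ ball x δ, ∀ y' ∈ ball x δ, dist y y' < 1 := by
    intro y hy y' hy'
    have h2 : dist y x < 1 / 2 := lt_of_lt_of_le hy (min_le_right _ _)
    have h3 : dist y' x < 1 / 2 := lt_of_lt_of_le hy' (min_le_right _ _)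
    have := dist_triangle_right y y' x
    linarith
  have hinj : InjOn F (ball x δ) := by
    intro a ha b hb hab
    have h2 : h (T a) = h (T b) := by
      rw [(hFT a (hB1 ha)).2, (hFT b (hB1 hb)).2, hab]
    exact inj_ball hT (hs (hB1 ha)) (hs (hB1 hb)) (hB3 a ha b hb) (h.injective h2)
  have hvol : ∀ A ⊆ ball x δ, MeasurableSet A → volume (F '' A) = volume A := by
    intro A hA hAm
    have hFA : MeasurableSet (F '' A) :=
      hAm.image_of_continuousOn_injOn (hF.continuousOn.mono (hA.trans hB1)) (hinj.mono hA)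
    have hFs : F '' A ⊆ Strip d w := by
      rintro _ ⟨a, ha, rfl⟩
      exact (hFT a (hB1 (hA ha))).1
    have hTinj : InjOn T (F '' A) := by
      rintro _ ⟨a, ha, rfl⟩ _ ⟨b, hb, rfl⟩ hab
      refine inj_ball hT (hFs ⟨a, ha, rfl⟩) (hFs ⟨b, hb, rfl⟩) ?_ hab
      have h2 := hB2 a (hA ha)
      have h3 := hB2 b (hA hb)
      have := dist_triangle_right (F a) (F b) (F x)
      linarith
    have hTinj' : InjOn T A := by
      intro a ha b hb hab
      exact inj_ball hT (hs (hB1 (hA ha))) (hs (hB1 (hA hb))) (hB3 a (hA ha) b (hA hb)) hab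
    have hTA : MeasurableSet (T '' A) :=
      hAm.image_of_continuousOn_injOn (hTc.mono (hA.trans (hB1.trans hs))) hTinj'
    have h4 : T '' (F '' A) = h '' (T '' A) := by
      rw [image_image, image_image]
      exact image_congr fun a ha => (hFT a (hB1 (hA ha))).2.symm
    rw [← hU _ hFs hFA hTinj, h4, image_measure μ h hm hTA,
      hU A (hA.trans (hB1.trans hs)) hAm hTinj']
  have hadd : (fun z : E (d + 1) => x + z) '' ball 0 δ ⊆ ball x δ := by
    rintro _ ⟨z, hz, rfl⟩
    rw [mem_ball, dist_self_add_left]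
    simpa using hz
  have key := jac (d + 1) (fun z => F (x + z)) (ball 0 δ) (ball_mem_nhds _ hδ0)
    (by
      have h5 : ContDiffAt ℝ 1 F (x + 0) := by
        rw [add_zero]
        exact ((hF.contDiffAt ((isOpen_strip d w').mem_nhds hx)).of_le (by exact_mod_cast le_top))
      exact h5.comp (0 : E (d + 1)) (contDiffAt_const.add contDiffAt_id))
    (by
      intro a ha b hb hab
      exact add_left_cancel (hinj (hadd ⟨a, ha, rfl⟩) (hadd ⟨b, hb, rfl⟩) hab))
    (by
      intro A hA hAm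
      have h6 : (fun z => F (x + z)) '' A = F '' ((fun z : E (d + 1) => x + z) '' A) := by
        rw [image_image]
      have h7 : MeasurableSet ((fun z : E (d + 1) => x + z) '' A) :=
        (measurableEmbedding_addLeft x).measurableSet_image.mpr hAm
      rw [h6, hvol _ ((image_mono hA).trans hadd) h7]
      simp)
  have h8 : fderiv ℝ (fun z => F (x + z)) 0 = fderiv ℝ F x := by
    rw [fderiv_comp_add_left, add_zero]
  rwa [h8] at key

theorem thin (h1 : T_COLL) (d : ℕ) (M : Type) [TopologicalSpace M] [ChartedSpace (E (d + 1)) M]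
    [IsManifold 𝓘(ℝ, E (d + 1)) ∞ M] [T2Space M] (w w' : ℝ) (T : E (d + 1) → M)
    (h : M ≃ₜ M) (hT : Collar w T) (h0 : 0 < w') (hw : w' ≤ w)
    (htor : h '' (T '' {x | x 0 = 0}) = T '' {x | x 0 = 0}) :
    ∃ w₂ : ℝ, 0 < w₂ ∧ w₂ < w' ∧ T '' {x | |x 0| ≤ w₂} ⊆ h '' (T '' Strip d w') := by
  obtain ⟨-, hop, hcp, -⟩ := h1 d M w T hT
  have hs : Strip d w' ⊆ Strip d w := fun x hx => lt_of_lt_of_le hx hw
  have hO : IsOpen (h '' (T '' Strip d w')) :=
    h.isOpenMap _ (hop _ hs (isOpen_strip d w'))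
  have hpos : ∀ n : ℕ, 0 < w' / (n + 2) := fun n => by positivity
  have hlt : ∀ n : ℕ, w' / (n + 2) < w' := fun n => by
    rw [div_lt_iff₀ (by positivity)]
    have : (0 : ℝ) ≤ n := Nat.cast_nonneg n
    nlinarith
  have hV : ∀ n : ℕ, IsCompact (T '' {x | |x 0| ≤ w' / (n + 2)}) := by
    intro n
    refine hcp (w' / (n + 2)) ((hlt n).trans_le hw) _ ?_ (fun x hx => hx) ?_
    · have : Continuous fun x : E (d + 1) => |x 0| := by fun_prop
      exact isClosed_le this continuous_const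
    · intro x hx v hv
      have h2 : (x + v) 0 = x 0 := by
        rw [PiLp.add_apply, hv.1, add_zero]
      change |(x + v) 0| ≤ _
      rw [h2]; exact hx
  have hstrip : ∀ n : ℕ, ∀ x : E (d + 1), |x 0| ≤ w' / (n + 2) → x ∈ Strip d w := fun n x hx =>
    lt_of_le_of_lt hx ((hlt n).trans_le hw)
  have hanti : Antitone (fun n : ℕ => T '' {x : E (d + 1) | |x 0| ≤ w' / (n + 2)}) := by
    intro m n hmn
    refine image_mono fun x hx => ?_
    have h2 : (m : ℝ) ≤ n := by exact_mod_cast hmn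
    have h3 : w' / ((n : ℝ) + 2) ≤ w' / (m + 2) :=
      div_le_div_of_nonneg_left h0.le (by positivity) (by linarith)
    exact le_trans (show |x 0| ≤ w' / ((n : ℝ) + 2) from hx) h3
  have hinter : ∀ y ∈ ⋂ n : ℕ, T '' {x : E (d + 1) | |x 0| ≤ w' / (n + 2)},
      h '' (T '' Strip d w') ∈ 𝓝 y := by
    intro y hy
    refine hO.mem_nhds ?_
    rw [mem_iInter] at hy
    obtain ⟨x, hx, rfl⟩ := hy 0
    have hx0 : x 0 = 0 := by
      by_contra hne
      have hap : 0 < |x 0| := abs_pos.mpr hne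
      obtain ⟨n, hn⟩ := exists_nat_gt (w' / |x 0|)
      obtain ⟨x', hx', hxx⟩ := hy n
      have h2 := (hT.2.2 x' (hstrip n x' hx') x (hstrip 0 x (by simpa using hx))).mp hxx
      have h3 : x' 0 = x 0 := by
        have := h2.1
        rw [PiLp.sub_apply] at this
        linarith
      have h4 : |x 0| ≤ w' / (n + 2) := by rw [← h3]; exact hx'
      have hn0 : (0 : ℝ) ≤ n := Nat.cast_nonneg n
      rw [le_div_iff₀ (by positivity)] at h4
      rw [div_lt_iff₀ hap] at hn
      nlinarith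
    have h5 : T x ∈ T '' {x | x 0 = 0} := ⟨x, hx0, rfl⟩
    rw [← htor] at h5
    exact image_mono (image_mono fun z hz => by
      change |z 0| < w'
      rw [show z 0 = 0 from hz, abs_zero]; exact h0) h5
  obtain ⟨n, hn⟩ := exists_subset_nhds_of_isCompact' hanti.directed_ge hV
    (fun n => (hV n).isClosed) hinter
  exact ⟨w' / (n + 2), hpos n, hlt n, hn⟩

end LIFTB_

open LIFTB_

/-- The lift of a conservative map preserves the volume. -/
theorem liftb (h1 : T_COLL) (h2 : T_INTT) (h3 : T_EXT0) : T_LIFTB := by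
  intro d M _ _ _ _ _ _ _ μ _ w w' T h F hT hU hh hm h0 hw hF _ htor hFT
  obtain ⟨G, rfl⟩ := hh
  set H : M ≃ₜ M := G.toHomeomorph with hH
  have hHG : (H : M → M) = G := rfl
  refine ⟨det_one h1 d M μ w w' T H F hT hU hm hw hF hFT, ?_⟩
  obtain ⟨w₂, hw₂, hlt, hsub⟩ := thin h1 d M w w' T H hT h0 hw htor
  refine ⟨w₂, hw₂, fun φ hφ hper hφ0 => ?_⟩
  have hs : Strip d w' ⊆ Strip d w := fun x hx => lt_of_lt_of_le hx hw
  obtain ⟨Φ, hΦ, hΦ0, hΦT, -⟩ := h3 d M w w₂ T φ hT (hlt.trans_le hw) hφ hper hφ0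
  have hT' : Collar w' T := collar_mono hT h0 hw
  have hU' : UniT μ w' T := fun A hA => hU A (hA.trans hs)
  have hsupp : ∀ y, Φ y ≠ 0 → ∃ x, |x 0| ≤ w₂ ∧ T x = y := by
    intro y hy
    have hy' : y ∈ T '' Strip d w := by
      by_contra hc
      exact hy (hΦ0 y hc)
    obtain ⟨x, hx, rfl⟩ := hy'
    refine ⟨x, ?_, rfl⟩
    by_contra hc
    rw [not_le] at hc
    exact hy ((hΦT x hx).trans (hφ0 x hc.le))
  have e1 : ∫ y, Φ y ∂μ = ∫ x in Cell d w', Φ (T x) := by
    refine h2 d M μ w' T Φ hT' hU' hΦ fun y hy => ?_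
    by_contra hc
    obtain ⟨x, hx, rfl⟩ := hsupp y hc
    exact hy ⟨x, lt_of_le_of_lt hx hlt, rfl⟩
  have e2 : ∫ y, Φ (G y) ∂μ = ∫ x in Cell d w', Φ (G (T x)) := by
    refine h2 d M μ w' T (fun y => Φ (G y)) hT' hU' (hΦ.comp H.continuous) fun y hy => ?_
    by_contra hc
    obtain ⟨x, hx, hxy⟩ := hsupp (G y) hc
    obtain ⟨z, hz, hzx⟩ := hsub ⟨x, hx, rfl⟩
    rw [hxy] at hzx
    have : z = y := H.injective hzx
    rw [← this] at hy
    exact hy hz
  have e3 : ∫ y, Φ (G y) ∂μ = ∫ y, Φ y ∂μ :=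
    hm.integral_comp H.measurableEmbedding Φ
  have hcell : ∀ x ∈ Cell d w', x ∈ Strip d w' := fun x hx => hx.1
  have hms : MeasurableSet (Cell d w') := by
    have hc0 : Continuous fun x : E (d + 1) => |x 0| := by fun_prop
    have h5 : Cell d w' = {x : E (d + 1) | |x 0| < w'} ∩
        ⋂ i : Fin d, ({x : E (d + 1) | 0 ≤ x i.succ} ∩ {x : E (d + 1) | x i.succ < 1}) := by
      ext x
      simp [Cell]
    rw [h5]
    refine (measurableSet_lt hc0.measurable measurable_const).inter
      (MeasurableSet.iInter fun i => ?_)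
    have hci : Continuous fun x : E (d + 1) => x i.succ := by fun_prop
    exact (measurableSet_le measurable_const hci.measurable).inter
      (measurableSet_lt hci.measurable measurable_const)
  calc ∫ x in Cell d w', φ (F x) = ∫ x in Cell d w', Φ (G (T x)) := by
        refine setIntegral_congr_fun hms fun x hx => ?_
        have hx' := hcell x hx
        have h6 : G (T x) = T (F x) := (hFT x hx').2
        change φ (F x) = Φ (G (T x))
        rw [h6, hΦT _ (hFT x hx').1]
    _ = ∫ y, Φ (G y) ∂μ := e2.symm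
    _ = ∫ y, Φ y ∂μ := e3
    _ = ∫ x in Cell d w', Φ (T x) := e1
    _ = ∫ x in Cell d w', φ x := by
        refine setIntegral_congr_fun hms fun x hx => ?_
        exact hΦT x (hs (hcell x hx))

end Pool.Agent.PalT
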