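import Pool.Agent.PalT.TargetsF

/-!
# The lift of a divergence free field
-/

set_option autoImplicit false

open scoped Manifold ContDiff Topology
open MeasureTheory Set Filter Bundle Asymptotics Metric

namespace Pool.Agent.PalT

open Pool.Agent.Pal Pool.Agent.Palis Pool.Agent.PalF

namespace LIFTF_

variable {d : ℕ} {M : Type} [TopologicalSpace M] [ChartedSpace (E (d + 1)) M]

lemma isOpen_strip (d : ℕ) (w : ℝ) : IsOpen (Strip d w) := by
  have h : Continuous fun x : E (d + 1) => |x 0| :=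
    (EuclideanSpace.proj (𝕜 := ℝ) (0 : Fin (d + 1))).continuous.abs
  exact h.isOpen_preimage _ isOpen_Iio

lemma add_mem_strip {w : ℝ} {x v : E (d + 1)} (hx : x ∈ Strip d w) (hv : v ∈ Lat d) :
    x + v ∈ Strip d w := by
  have : (x + v) 0 = x 0 := by
    simp [hv.1]
  show |(x + v) 0| < w
  rw [this]
  exact hx

lemma smoothAt {w : ℝ} {T : E (d + 1) → M} (hT : Collar w T) {x : E (d + 1)}
    (hx : x ∈ Strip d w) : ContMDiffAt 𝓘(ℝ, E (d + 1)) 𝓘(ℝ, E (d + 1)) ∞ T x := by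
  obtain ⟨e, he, hxe, hev⟩ := hT.2.1 x hx
  have h1 : ContMDiffAt 𝓘(ℝ, E (d + 1)) 𝓘(ℝ, E (d + 1)) ∞ e.symm x :=
    (contMDiffOn_symm_of_mem_maximalAtlas he x hxe).contMDiffAt (e.open_target.mem_nhds hxe)
  exact h1.congr_of_eventuallyEq hev

lemma invertible {w : ℝ} {T : E (d + 1) → M} (hT : Collar w T) {x : E (d + 1)}
    (hx : x ∈ Strip d w) :
    (mfderiv 𝓘(ℝ, E (d + 1)) 𝓘(ℝ, E (d + 1)) T x).IsInvertible := by
  obtain ⟨e, he, hxe, hev⟩ := hT.2.1 x hx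
  have hd : e.MDifferentiable 𝓘(ℝ, E (d + 1)) 𝓘(ℝ, E (d + 1)) :=
    ⟨(contMDiffOn_of_mem_maximalAtlas he).mdifferentiableOn (by simp),
      (contMDiffOn_symm_of_mem_maximalAtlas he).mdifferentiableOn (by simp)⟩
  have h1 : mfderiv 𝓘(ℝ, E (d + 1)) 𝓘(ℝ, E (d + 1)) T x =
      mfderiv 𝓘(ℝ, E (d + 1)) 𝓘(ℝ, E (d + 1)) e.symm x := Filter.EventuallyEq.mfderiv_eq hev
  rw [h1]
  exact ⟨hd.symm.mfderiv hxe, rfl⟩

/-- The lift. -/
noncomputable def Yl (T : E (d + 1) → M) (X : ∀ x : M, TangentSpace 𝓘(ℝ, E (d + 1)) x)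
    (x : E (d + 1)) : E (d + 1) :=
  VectorField.mpullback 𝓘(ℝ, E (d + 1)) 𝓘(ℝ, E (d + 1)) T X x

lemma dT_Yl {w : ℝ} {T : E (d + 1) → M} (X : ∀ x : M, TangentSpace 𝓘(ℝ, E (d + 1)) x)
    (hT : Collar w T) {x : E (d + 1)} (hx : x ∈ Strip d w) : X (T x) = dT T x (Yl T X x) := by
  obtain ⟨L, hL⟩ := invertible hT hx
  have h1 : Yl T X x = L.symm (X (T x)) := by
    show (mfderiv 𝓘(ℝ, E (d + 1)) 𝓘(ℝ, E (d + 1)) T x).inverse (X (T x)) = _
    rw [← hL, ContinuousLinearMap.inverse_equiv]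
    rfl
  show X (T x) = mfderiv 𝓘(ℝ, E (d + 1)) 𝓘(ℝ, E (d + 1)) T x (Yl T X x)
  rw [h1, ← hL]
  exact (L.apply_symm_apply (X (T x))).symm

lemma dT_inj {w : ℝ} {T : E (d + 1) → M} (hT : Collar w T) {x : E (d + 1)}
    (hx : x ∈ Strip d w) {u v : E (d + 1)} (h : dT T x u = dT T x v) : u = v := by
  obtain ⟨L, hL⟩ := invertible hT hx
  have h1 : mfderiv 𝓘(ℝ, E (d + 1)) 𝓘(ℝ, E (d + 1)) T x u =
    mfderiv 𝓘(ℝ, E (d + 1)) 𝓘(ℝ, E (d + 1)) T x v := h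
  rw [← hL] at h1
  exact L.injective h1

lemma X_congr (X : ∀ x : M, TangentSpace 𝓘(ℝ, E (d + 1)) x) {a b : M} (h : a = b) :
    (X a : E (d + 1)) = (X b : E (d + 1)) := by
  subst h; rfl

lemma smooth_Yl [IsManifold 𝓘(ℝ, E (d + 1)) ∞ M] {w : ℝ} {T : E (d + 1) → M} {X : ∀ x : M, TangentSpace 𝓘(ℝ, E (d + 1)) x}
    (hT : Collar w T) (hX : IsSmoothField (E (d + 1)) X) :
    ContDiffOn ℝ ∞ (Yl T X) (Strip d w) := by
  intro x hx
  have h1 : ContMDiffAt 𝓘(ℝ, E (d + 1)) 𝓘(ℝ, E (d + 1)).tangent ∞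
      (fun y : E (d + 1) => (⟨y, VectorField.mpullback 𝓘(ℝ, E (d + 1)) 𝓘(ℝ, E (d + 1)) T X y⟩ :
        TangentBundle 𝓘(ℝ, E (d + 1)) (E (d + 1)))) x :=
    ContMDiffAt.mpullback_vectorField_preimage (n := ∞) (m := ∞) (hX (T x)) (smoothAt hT hx)
      (invertible hT hx) (by norm_cast)
  exact (contMDiffAt_vectorSpace_iff_contDiffAt.1 h1).contDiffWithinAt

lemma dT_per {w : ℝ} {T : E (d + 1) → M} (hT : Collar w T) {x v : E (d + 1)}
    (hx : x ∈ Strip d w) (hv : v ∈ Lat d) (u : E (d + 1)) :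
    (dT T (x + v) u : E (d + 1)) = (dT T x u : E (d + 1)) := by
  have hxv := add_mem_strip hx hv
  have h1 : HasMFDerivAt 𝓘(ℝ, E (d + 1)) 𝓘(ℝ, E (d + 1)) T (x + v)
      (mfderiv 𝓘(ℝ, E (d + 1)) 𝓘(ℝ, E (d + 1)) T (x + v)) :=
    ((smoothAt hT hxv).mdifferentiableAt (by simp)).hasMFDerivAt
  have h2 : HasMFDerivAt 𝓘(ℝ, E (d + 1)) 𝓘(ℝ, E (d + 1)) (fun z : E (d + 1) => z + v) x
      (ContinuousLinearMap.id ℝ (E (d + 1))) :=
    ((hasFDerivAt_id x).add_const v).hasMFDerivAt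
  have h3 := h1.comp x h2
  have h4 : (T ∘ fun z : E (d + 1) => z + v) =ᶠ[𝓝 x] T := by
    filter_upwards [(isOpen_strip d w).mem_nhds hx] with z hz
    refine (hT.2.2 (z + v) (add_mem_strip hz hv) z hz).2 ?_
    simpa using hv
  have h5 := (h3.congr_of_eventuallyEq h4.symm).mfderiv
  show mfderiv 𝓘(ℝ, E (d + 1)) 𝓘(ℝ, E (d + 1)) T (x + v) u =
    mfderiv 𝓘(ℝ, E (d + 1)) 𝓘(ℝ, E (d + 1)) T x u
  rw [h5]
  rfl

lemma per_Yl {w : ℝ} {T : E (d + 1) → M} {X : ∀ x : M, TangentSpace 𝓘(ℝ, E (d + 1)) x}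
    (hT : Collar w T) {x v : E (d + 1)} (hx : x ∈ Strip d w) (hv : v ∈ Lat d) :
    Yl T X (x + v) = Yl T X x := by
  have hxv := add_mem_strip hx hv
  have hTe : T (x + v) = T x := by
    refine (hT.2.2 (x + v) hxv x hx).2 ?_
    simpa using hv
  refine dT_inj hT hx ?_
  have h1 : (dT T (x + v) (Yl T X (x + v)) : E (d + 1)) = dT T x (Yl T X (x + v)) :=
    dT_per hT hx hv _
  have h2 : (X (T (x + v)) : E (d + 1)) = dT T (x + v) (Yl T X (x + v)) := dT_Yl X hT hxv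
  have h3 : (X (T x) : E (d + 1)) = dT T x (Yl T X x) := dT_Yl X hT hx
  have h4 : (X (T (x + v)) : E (d + 1)) = (X (T x) : E (d + 1)) := X_congr X hTe
  show (dT T x (Yl T X (x + v)) : E (d + 1)) = (dT T x (Yl T X x) : E (d + 1))
  rw [← h1, ← h2, h4, h3]

end LIFTF_

open LIFTF_

theorem liftf (h1 : T_COLL) (h2 : T_INTT) (h3 : T_EXT0) : T_LIFTF := by
  intro d M _ _ _ _ _ _ _ μ _ w T X om hT hU hX hdiv hom htan
  refine ⟨Yl T X, ⟨hT.1, smooth_Yl hT hX, fun x hx v hv => per_Yl hT hx hv, hom, ?_, ?_⟩,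
    fun x hx => dT_Yl X hT hx⟩
  · intro x hx
    have hxs : x ∈ Strip d w := by
      show |x 0| < w
      rw [hx, abs_zero]; exact hT.1
    refine dT_inj hT hxs ?_
    rw [← dT_Yl X hT hxs, htan x hx]
  · rintro φ hφ hφp ⟨w', hw', hφ0⟩
    obtain ⟨Φ, hΦc, hΦ0, hΦT, hΦs⟩ := h3 d M w w' T φ hT hw' hφ.continuous hφp hφ0
    have hΦs := hΦs hφ
    have hint := hdiv Φ hΦs
    have hcont : Continuous (lieD Φ X) := (contMDiff_lieD hΦs (by norm_cast) hX).continuous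
    -- vanishing off the collar
    have hK : IsCompact (T '' {x | |x 0| ≤ w'}) := by
      refine (h1 d M w T hT).2.2.1 w' hw' {x | |x 0| ≤ w'} ?_ (fun x hx => hx) ?_
      · have h : Continuous fun x : E (d + 1) => |x 0| :=
          (EuclideanSpace.proj (𝕜 := ℝ) (0 : Fin (d + 1))).continuous.abs
        exact isClosed_le h continuous_const
      · intro x hx v hv
        have : (x + v) 0 = x 0 := by simp [hv.1]
        show |(x + v) 0| ≤ w'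
        rw [this]; exact hx
    have hzero : ∀ y, y ∉ T '' {x | |x 0| ≤ w'} → Φ y = 0 := by
      intro y hy
      by_cases hys : y ∈ T '' Strip d w
      · obtain ⟨x, hx, rfl⟩ := hys
        rw [hΦT x hx]
        refine hφ0 x ?_
        by_contra hlt
        exact hy ⟨x, (not_le.1 hlt).le, rfl⟩
      · exact hΦ0 y hys
    have hvan : ∀ y, y ∉ T '' Strip d w → lieD Φ X y = 0 := by
      intro y hy
      have hyK : y ∉ T '' {x | |x 0| ≤ w'} := fun h => hy (image_mono (fun x hx =>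
        lt_of_le_of_lt (show |x 0| ≤ w' from hx) hw') h)
      have hev : Φ =ᶠ[𝓝 y] fun _ => (0 : ℝ) := by
        filter_upwards [hK.isClosed.isOpen_compl.mem_nhds hyK] with z hz
        exact hzero z hz
      show mfderiv 𝓘(ℝ, E (d + 1)) 𝓘(ℝ, ℝ) Φ y (X y) = 0
      rw [hev.mfderiv_eq, mfderiv_const]
      rfl
    have hI := h2 d M μ w T (lieD Φ X) hT hU hcont hvan
    have hI' : ∫ y, lieD Φ X y ∂μ = 0 := hint
    rw [hI'] at hI
    rw [eq_comm, hI]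
    refine setIntegral_congr_fun ?_ ?_
    · have h0 : Continuous fun x : E (d + 1) => |x 0| :=
        (EuclideanSpace.proj (𝕜 := ℝ) (0 : Fin (d + 1))).continuous.abs
      have hi : ∀ i : Fin d, Continuous fun x : E (d + 1) => x i.succ := fun i =>
        (EuclideanSpace.proj (𝕜 := ℝ) (i.succ : Fin (d + 1))).continuous
      have e : Cell d w = {x : E (d + 1) | |x 0| < w} ∩
          ⋂ i : Fin d, ({x : E (d + 1) | 0 ≤ x i.succ} ∩ {x : E (d + 1) | x i.succ < 1}) := by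
        ext x; simp [Cell]
      rw [e]
      refine (isOpen_lt h0 continuous_const).measurableSet.inter ?_
      refine MeasurableSet.iInter fun i => ?_
      exact (isClosed_le continuous_const (hi i)).measurableSet.inter
        (isOpen_lt (hi i) continuous_const).measurableSet
    · intro x hx
      have hxs : x ∈ Strip d w := hx.1
      have hm : HasMFDerivAt 𝓘(ℝ, E (d + 1)) 𝓘(ℝ, E (d + 1)) T x
          (mfderiv 𝓘(ℝ, E (d + 1)) 𝓘(ℝ, E (d + 1)) T x) :=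
        ((smoothAt hT hxs).mdifferentiableAt (by simp)).hasMFDerivAt
      have hm2 : HasMFDerivAt 𝓘(ℝ, E (d + 1)) 𝓘(ℝ, ℝ) Φ (T x)
          (mfderiv 𝓘(ℝ, E (d + 1)) 𝓘(ℝ, ℝ) Φ (T x)) :=
        ((hΦs (T x)).mdifferentiableAt (by simp)).hasMFDerivAt
      have hm3 := hm2.comp x hm
      have hev : (Φ ∘ T) =ᶠ[𝓝 x] φ := by
        filter_upwards [(isOpen_strip d w).mem_nhds hxs] with z hz
        exact hΦT z hz
      have hm4 : HasFDerivAt φ (show E (d + 1) →L[ℝ] ℝ from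
          (mfderiv 𝓘(ℝ, E (d + 1)) 𝓘(ℝ, ℝ) Φ (T x)).comp
          (mfderiv 𝓘(ℝ, E (d + 1)) 𝓘(ℝ, E (d + 1)) T x)) x :=
        (hm3.congr_of_eventuallyEq hev.symm).hasFDerivAt
      show lieD Φ X (T x) = fderiv ℝ φ x (Yl T X x)
      rw [hm4.fderiv]
      show mfderiv 𝓘(ℝ, E (d + 1)) 𝓘(ℝ, ℝ) Φ (T x) (X (T x)) =
        mfderiv 𝓘(ℝ, E (d + 1)) 𝓘(ℝ, ℝ) Φ (T x)
          (mfderiv 𝓘(ℝ, E (d + 1)) 𝓘(ℝ, E (d + 1)) T x (Yl T X x))
      rw [dT_Yl X hT hxs]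
      rfl

end Pool.Agent.PalT
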