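import Pool.Agent.PalT.Targets
import Pool.Agent.Pal.FINAL

/-!
# The first step: Diophantine translations
-/

set_option autoImplicit false

open Set MeasureTheory Filter Topology Metric Asymptotics
open scoped Manifold ContDiff

namespace Pool.Agent.PalT

open Pool.Agent.Pal

def T_STEPA : Prop := ∀ (d : ℕ) (M : Type) [MetricSpace M] [ChartedSpace (E (d + 1)) M]
  [IsManifold 𝓘(ℝ, E (d + 1)) ∞ M] [CompactSpace M] [MeasurableSpace M]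
  [BorelSpace M] (μ : Measure M) (r : ℕ) (f : M → M) (U : Set (M → M)) (m : ℕ) (w : ℝ)
  (T : E (d + 1) → M) (α : E (d + 1)),
  IsVolume (d + 1) μ → IsDiffeo (d + 1) ⊤ f → MeasurePreserving f μ μ → RobT d ⊤ r U → f ∈ U →
  1 ≤ m → Collar w T → α 0 = 0 → (∀ x, x 0 = 0 → f^[m] (T x) = T (x + α)) →
  (∀ i, 0 < i → i < m → ∀ x x' : E (d + 1), x 0 = 0 → x' 0 = 0 → f^[i] (T x) ≠ T x') →
  ∃ (f₁ : M → M) (w₁ : ℝ) (T₁ : E (d + 1) → M) (α₁ : E (d + 1)), IsDiffeo (d + 1) ⊤ f₁ ∧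
    MeasurePreserving f₁ μ μ ∧ f₁ ∈ U ∧ Collar w₁ T₁ ∧ UniT μ w₁ T₁ ∧ α₁ 0 = 0 ∧
    Dio d (th α₁) ∧ (∀ x, x 0 = 0 → f₁^[m] (T₁ x) = T₁ (x + α₁)) ∧
    ∀ i, 0 < i → i < m → ∀ x ∈ Strip d w₁, ∀ x' ∈ Strip d w₁, f₁^[i] (T₁ x) ≠ T₁ x'

namespace STEPA_

theorem collar_mono {d : ℕ} {M : Type} [TopologicalSpace M] [ChartedSpace (E (d + 1)) M]
    {w w' : ℝ} {T : E (d + 1) → M} (h : Collar w T) (h0 : 0 < w') (hw : w' ≤ w) : Collar w' T :=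
  ⟨h0, fun x hx => h.2.1 x (lt_of_lt_of_le (show |x 0| < w' from hx) hw), fun x hx x' hx' =>
    h.2.2 x (lt_of_lt_of_le (show |x 0| < w' from hx) hw) x'
      (lt_of_lt_of_le (show |x' 0| < w' from hx') hw)⟩

theorem uniT_mono {d : ℕ} {M : Type} [MeasurableSpace M] {μ : Measure M}
    {w w' : ℝ} {T : E (d + 1) → M} (h : UniT μ w T) (hw : w' ≤ w) : UniT μ w' T :=
  fun A hA => h A (fun _ hx => lt_of_lt_of_le (show |_| < w' from hA hx) hw)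

theorem norm_le_of_coord {n : ℕ} {v : E n} {t : ℝ} (ht : 0 ≤ t) (h : ∀ i, |v i| ≤ t) :
    ‖v‖ ≤ Real.sqrt n * t := by
  rw [EuclideanSpace.norm_eq]
  rw [← Real.sqrt_sq ht, ← Real.sqrt_mul (Nat.cast_nonneg n)]
  apply Real.sqrt_le_sqrt
  calc ∑ i, ‖v i‖ ^ 2 ≤ ∑ _i : Fin n, t ^ 2 := Finset.sum_le_sum fun i _ => by
        rw [Real.norm_eq_abs]
        exact pow_le_pow_left₀ (abs_nonneg _) (h i) 2
    _ = n * t ^ 2 := by simp

/-- Iterates of a modification in the collar. -/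
theorem iter_collar {d : ℕ} {M : Type} {f ψ : M → M} {w : ℝ} {T : E (d + 1) → M} {m : ℕ}
    (hm : 1 ≤ m)
    (hsep : ∀ i, 0 < i → i < m → ∀ x ∈ Strip d w, ∀ x' ∈ Strip d w, f^[i] (T x) ≠ T x')
    (hψ : ∀ y, y ∉ T '' Strip d w → ψ y = y) {x : E (d + 1)} (hx : x ∈ Strip d w) :
    (∀ i < m, (ψ ∘ f)^[i] (T x) = f^[i] (T x)) ∧ (ψ ∘ f)^[m] (T x) = ψ (f^[m] (T x)) := by
  have h1 : ∀ i < m, (ψ ∘ f)^[i] (T x) = f^[i] (T x) := by
    intro i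
    induction i with
    | zero => intro _; rfl
    | succ i ih =>
      intro hi
      rw [Function.iterate_succ_apply', ih (by omega), Function.comp_apply,
        ← Function.iterate_succ_apply' f i (T x)]
      refine hψ _ ?_
      rintro ⟨x', hx', h⟩
      exact hsep (i + 1) (Nat.succ_pos i) hi x hx x' hx' h.symm
  refine ⟨h1, ?_⟩
  obtain ⟨m', rfl⟩ : ∃ m', m = m' + 1 := ⟨m - 1, by omega⟩
  rw [Function.iterate_succ_apply', h1 m' (Nat.lt_succ_self _), Function.comp_apply,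
    ← Function.iterate_succ_apply' f m' (T x)]

end STEPA_

open STEPA_ in
theorem stepa (hDIO : T_DIO) (hPUSH : T_PUSH) (hNORM : T_NORM) (hSEP : T_SEP) (hEXTT : T_EXTT)
    (hVOLT : T_VOLT) : T_STEPA := by
  intro d M _ _ _ _ _ _ μ r f U m w T α hμ hf hfμ hU hfU hm hT hα hfα hdis
  obtain ⟨w₀, T₁, hT₁, hu₁, hTT⟩ := hNORM d M μ w T hμ hT
  obtain ⟨hcomp, hmono, hhomeo, -⟩ := diff1 (d + 1) M ⊤
  obtain ⟨F, hF⟩ := hhomeo f hf
  have hfc : Continuous f := by rw [← hF]; exact F.continuous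
  have hadd : ∀ x : E (d + 1), x 0 = 0 → (x + α) 0 = 0 := fun x hx => by simp [hx, hα]
  have hfα₁ : ∀ x : E (d + 1), x 0 = 0 → f^[m] (T₁ x) = T₁ (x + α) := fun x hx => by
    rw [hTT x hx, hTT _ (hadd x hx), hfα x hx]
  have hdis₁ : ∀ i, 0 < i → i < m → ∀ x x' : E (d + 1), x 0 = 0 → x' 0 = 0 →
      f^[i] (T₁ x) ≠ T₁ x' := fun i h0 hi x x' hx hx' => by
    rw [hTT x hx, hTT x' hx']
    exact hdis i h0 hi x x' hx hx'
  obtain ⟨w₁, hw₁, hw₁w, hsep⟩ := hSEP d M w₀ T₁ f m hT₁ hfc hdis₁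
  have hT₁' : Collar w₁ T₁ := collar_mono hT₁ hw₁ hw₁w
  have hu₁' : UniT μ w₁ T₁ := uniT_mono hu₁ hw₁w
  obtain ⟨L, hL⟩ := hPUSH d (w₁ / 2) (half_pos hw₁)
  obtain ⟨δ, hδ, hrob⟩ := hU w₁ T₁ hT₁' (w₁ / 2) (half_lt_self hw₁) f hfU hf
  have hnear := (hL 0 rfl).2.2.2
  obtain ⟨t₁, ht₁, hn₁⟩ := hnear r δ hδ
  obtain ⟨t₂, ht₂, hn₂⟩ := hnear 1 (1 / 2) (by norm_num)
  have hsq : 0 < Real.sqrt ((d + 1 : ℕ) : ℝ) := Real.sqrt_pos.2 (by positivity)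
  set t : ℝ := min t₁ t₂ / Real.sqrt ((d + 1 : ℕ) : ℝ) with ht
  have htpos : 0 < t := div_pos (lt_min ht₁ ht₂) hsq
  obtain ⟨β, hβ, hβα⟩ := hDIO d (th α) t htpos
  set v : E (d + 1) := WithLp.toLp 2 (Fin.cons 0 (fun i => β i - th α i)) with hv
  have hv0 : v 0 = 0 := by simp [hv]
  have hvs : ∀ i : Fin d, v i.succ = β i - th α i := fun i => by simp [hv]
  have hvn : ‖v‖ ≤ min t₁ t₂ := by
    have h1 := norm_le_of_coord (v := v) htpos.le (fun i => by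
      refine Fin.cases ?_ (fun j => ?_) i
      · rw [hv0]; simpa using htpos.le
      · rw [hvs]; exact (hβα j).le)
    refine h1.trans (le_of_eq ?_)
    rw [ht]
    field_simp
  obtain ⟨hLm, hLd, hLx, -⟩ := hL v hv0
  have hLn : Near r δ (L v) := hn₁ v hv0 (hvn.trans (min_le_left _ _))
  have hLn' : Near 1 (1 / 2) (L v) := hn₂ v hv0 (hvn.trans (min_le_right _ _))
  obtain ⟨hPd, hPs, hPoff⟩ := hEXTT d M w₁ (w₁ / 2) T₁ (L v) hT₁' (half_lt_self hw₁) hLm hLn'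
  set P : M → M := extT w₁ T₁ (L v) with hP
  have hPμ : MeasurePreserving P μ μ :=
    (hVOLT d M μ w₁ (w₁ / 2) T₁ (L v) hT₁' hu₁' (half_lt_self hw₁) hLm hLn').2 hLd
  have hPoff' : ∀ y, y ∉ T₁ '' Strip d w₁ → P y = y := fun y hy => hPoff y (fun h => hy (by
    obtain ⟨x, hx, rfl⟩ := h
    exact ⟨x, lt_of_le_of_lt (show |x 0| ≤ w₁ / 2 from hx) (half_lt_self hw₁), rfl⟩))
  have hit : ∀ x ∈ Strip d w₁, (∀ i < m, (P ∘ f)^[i] (T₁ x) = f^[i] (T₁ x)) ∧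
      (P ∘ f)^[m] (T₁ x) = P (f^[m] (T₁ x)) := fun x hx => iter_collar hm hsep hPoff' hx
  have hS0 : ∀ x : E (d + 1), x 0 = 0 → x ∈ Strip d w₁ := fun x hx => by
    show |x 0| < w₁
    rw [hx, abs_zero]; exact hw₁
  refine ⟨P ∘ f, w₁, T₁, α + v, hcomp _ _ (hmono _ hPd) hf, hPμ.comp hfμ, hrob _ hLm hLn, hT₁',
    hu₁', by simp [hα, hv0], ?_, ?_, ?_⟩
  · have : th (α + v) = β := by
      funext i
      simp only [th, PiLp.add_apply, hvs]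
      ring
    rw [this]
    exact hβ
  · intro x hx
    rw [(hit x (hS0 x hx)).2, hfα₁ x hx]
    have h1 := hadd x hx
    rw [(hPs (x + α) (hS0 _ h1)).2, hLx (x + α) (by rw [h1, abs_zero]; positivity), add_assoc]
  · intro i h0 hi x hx x' hx'
    rw [(hit x hx).1 i hi]
    exact hsep i h0 hi x hx x' hx'

end Pool.Agent.PalT
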