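import Pool.Agent.PalT.TargetsF
import Pool.Agent.PalT.STEPA
import Pool.Agent.PalF.FINAL

/-!
# The theorem for vector fields
-/

set_option autoImplicit false

open scoped Manifold ContDiff Topology
open MeasureTheory Set Filter Bundle Asymptotics Metric

namespace Pool.Agent.PalT

open Pool.Agent.Pal Pool.Agent.Palis Pool.Agent.PalF

theorem dioF_of_dio {d : ℕ} {β : Fin d → ℝ} (h : Dio d β) : DioF d β := by
  obtain ⟨c, τ, hc, h⟩ := h
  refine ⟨c, τ, hc, fun k hk => ?_⟩
  have := h k hk 0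
  simpa using this

theorem dT_add {d : ℕ} {M : Type} [TopologicalSpace M] [ChartedSpace (E (d + 1)) M]
    (T : E (d + 1) → M) (x u v : E (d + 1)) : dT T x (u + v) = dT T x u + dT T x v :=
  (mfderiv 𝓘(ℝ, E (d + 1)) 𝓘(ℝ, E (d + 1)) T x).map_add u v

theorem dT_smul {d : ℕ} {M : Type} [TopologicalSpace M] [ChartedSpace (E (d + 1)) M]
    (T : E (d + 1) → M) (x : E (d + 1)) (c : ℝ) (v : E (d + 1)) : dT T x (c • v) = c • dT T x v :=
  (mfderiv 𝓘(ℝ, E (d + 1)) 𝓘(ℝ, E (d + 1)) T x).map_smul c v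

theorem dT_sum {d : ℕ} {M : Type} [TopologicalSpace M] [ChartedSpace (E (d + 1)) M]
    (T : E (d + 1) → M) (x u : E (d + 1)) (v : Fin d → ℝ) (b : Fin d → E (d + 1))
    (s : Finset (Fin d)) :
    dT T x (u + ∑ i ∈ s, v i • b i) = dT T x u + ∑ i ∈ s, v i • dT T x (b i) := by
  classical
  induction s using Finset.induction_on with
  | empty => simp
  | insert a s ha ih =>
    rw [Finset.sum_insert ha, Finset.sum_insert ha, add_left_comm, dT_add, dT_smul, ih,
      add_left_comm]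

open STEPA_ ORB_ ENG_ in
theorem mainf (hDIO : T_DIO) (hNORM : T_NORM) (hVOLC : T_VOLC) (hCURV : T_CURV)
    (hLIFTF : T_LIFTF) (hPUSHF : T_PUSHF) (hQMF : T_QMF) (hTORF : T_TORF) (hZEXF : T_ZEXF) :
    T_MAINF := by
  intro d M _ _ _ _ _ _ _ _ μ w₀ T₀ X om r₀ hμ hT₀ hX hdiv hom hcur₀
  obtain ⟨w, T, hT, hu, hTT⟩ := hNORM d M μ w₀ T₀ hμ hT₀
  have hμ' : IsSmoothVolume (E (d + 1)) μ := hVOLC (d + 1) M μ hμ
  obtain ⟨hfin, -, -⟩ := PalF.vol1 (E (d + 1)) M μ hμ'
  have hTor : Tor T = Tor T₀ := by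
    apply Subset.antisymm
    · rintro _ ⟨x, hx, rfl⟩
      exact ⟨x, hx, (hTT x hx).symm⟩
    · rintro _ ⟨x, hx, rfl⟩
      exact ⟨x, hx, hTT x hx⟩
  rw [← hTor]
  have hcur : ∀ x : E (d + 1), x 0 = 0 → IsMIntegralCurve (fun t : ℝ => T (x + t • om)) X := by
    intro x hx
    have h1 := hcur₀ x hx
    have h2 : (fun t : ℝ => T (x + t • om)) = fun t : ℝ => T₀ (x + t • om) := by
      funext t
      exact hTT _ (by simp [hx, hom])
    rw [h2]
    exact h1
  have hXT := (hCURV d M w T X om hT hom).1 hcur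
  obtain ⟨R, hR⟩ := hPUSHF d M μ w T hT hu
  apply approx_mono (Nat.le_succ r₀)
  set r : ℕ := r₀ + 1 with hr
  have hr1 : 1 ≤ r := by omega
  intro N x₀ K ε hK hε
  -- size of the push fields
  have hsize : ∃ B : ℝ, 0 < B ∧ ∀ (i : Fin d) (l : Fin N), ∀ x ∈ K l, ∀ k ≤ r,
      ‖iteratedFDeriv ℝ k (localRep (E (d + 1)) (R i) (x₀ l))
        (extChartAt 𝓘(ℝ, E (d + 1)) (x₀ l) x)‖ ≤ B := by
    choose B hB0 hB using fun (i : Fin d) (l : Fin N) =>
      size_bound (hR i).1 r (x₀ l) (hK l).1 (hK l).2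
    refine ⟨1 + ∑ i, ∑ l, B i l, ?_, fun i l x hx k hk => (hB i l x hx k hk).trans ?_⟩
    · have : 0 ≤ ∑ i, ∑ l, B i l :=
        Finset.sum_nonneg fun i _ => Finset.sum_nonneg fun l _ => hB0 i l
      linarith
    · have h1 : B i l ≤ ∑ l, B i l :=
        Finset.single_le_sum (f := fun l => B i l) (fun l _ => hB0 i l) (Finset.mem_univ l)
      have h2 : ∑ l, B i l ≤ ∑ i, ∑ l, B i l :=
        Finset.single_le_sum (f := fun i => ∑ l, B i l)
          (fun i _ => Finset.sum_nonneg fun l _ => hB0 i l) (Finset.mem_univ i)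
      linarith
  obtain ⟨B, hB, hBR⟩ := hsize
  set t : ℝ := ε / (4 * B * (d + 1)) with ht
  have htpos : 0 < t := by positivity
  obtain ⟨β, hβ, hβα⟩ := hDIO d (th om) t htpos
  set v : Fin d → ℝ := fun i => β i - th om i with hv
  -- the perturbed field
  set X₁ : ∀ x : M, TangentSpace 𝓘(ℝ, E (d + 1)) x := fun x => X x + ∑ i, v i • R i x with hX₁
  have hsum : ∀ s : Finset (Fin d), IsSmoothField (E (d + 1)) (fun x : M => ∑ i ∈ s, v i • R i x) ∧
      HasDiv (E (d + 1)) μ (fun x : M => ∑ i ∈ s, v i • R i x) (fun _ => 0) := by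
    intro s
    classical
    induction s using Finset.induction_on with
    | empty =>
      simp only [Finset.sum_empty]
      refine ⟨?_, continuous_const, fun η hη => ?_⟩
      · have h1 : IsSmoothField (E (d + 1)) (fun x : M => (0 : ℝ) • X x) :=
          ((dvr1 (E (d + 1)) M μ X X (fun _ => 0) (fun _ => 0) hX hX (hasDiv_of_divFree hdiv)
            (hasDiv_of_divFree hdiv)).2.2 (fun _ => (0 : ℝ)) contMDiff_const).1
        simpa using h1
      · have h0 : ∀ x : M, lieD η (fun x : M => (0 : TangentSpace 𝓘(ℝ, E (d + 1)) x)) x = 0 :=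
          fun x => map_zero _
        simp [h0]
    | insert a s ha ih =>
      have h1 := (dvr1 (E (d + 1)) M μ (R a) (R a) (fun _ => 0) (fun _ => 0) (hR a).1 (hR a).1
        (hasDiv_of_divFree (hR a).2.1) (hasDiv_of_divFree (hR a).2.1)).2.2 (fun _ => v a)
        contMDiff_const
      have h2 := dvr1 (E (d + 1)) M μ (fun x => v a • R a x) (fun x : M => ∑ i ∈ s, v i • R i x)
        _ _ h1.1 ih.1 h1.2 ih.2
      have h3 : (fun x : M => ∑ i ∈ insert a s, v i • R i x) =
          fun x => v a • R a x + ∑ i ∈ s, v i • R i x := by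
        funext x
        rw [Finset.sum_insert ha]
      rw [h3]
      refine ⟨h2.1, ?_⟩
      have h4 := h2.2.1
      have h5 : (fun x : M => v a * (0 : ℝ) + lieD (fun _ => v a) (R a) x + 0) = fun _ => 0 := by
        funext x
        have : lieD (fun _ : M => v a) (R a) x = 0 := by
          unfold lieD
          rw [mfderiv_const]
          rfl
        rw [this]
        ring
      rw [h5] at h4
      exact h4
  obtain ⟨hSs, hSd⟩ := hsum Finset.univ
  have hX₁s : IsSmoothField (E (d + 1)) X₁ ∧ HasDiv (E (d + 1)) μ X₁ (fun _ => 0 + 0) := by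
    have h := dvr1 (E (d + 1)) M μ X (fun x : M => ∑ i, v i • R i x) _ _ hX hSs
      (hasDiv_of_divFree hdiv) hSd
    exact ⟨h.1, h.2.1⟩
  have hX₁d : DivFree (E (d + 1)) μ X₁ := divFree_of_hasDiv hX₁s.2 (fun _ => by norm_num)
  -- closeness
  have hnear : ∀ l, CrNear (E (d + 1)) r X X₁ (x₀ l) (K l) (ε / 2) := by
    intro l x hx k hk
    have hfun : (fun z => X₁ z - X z) = fun z : M => ∑ i, v i • R i z := by
      funext z
      simp [hX₁]
    rw [hfun]
    have hy : extChartAt 𝓘(ℝ, E (d + 1)) (x₀ l) x ∈ (extChartAt 𝓘(ℝ, E (d + 1)) (x₀ l)).target :=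
      (extChartAt 𝓘(ℝ, E (d + 1)) (x₀ l)).map_source ((hK l).2 hx)
    let R' : Fin d → VField (E (d + 1)) M ⊤ := fun i => ⟨R i, (hR i).1⟩
    have e1 : iteratedFDeriv ℝ k (localRep (E (d + 1)) (fun z : M => ∑ i, v i • R i z) (x₀ l))
        (extChartAt 𝓘(ℝ, E (d + 1)) (x₀ l) x) =
        jetMap (x₀ l) (k := k) (r := ⊤) le_top hy (∑ i, v i • R' i) := by
      have : (fun z : M => ∑ i, v i • R i z) = ((∑ i, v i • R' i : VField (E (d + 1)) M ⊤) :
          ∀ x : M, TangentSpace 𝓘(ℝ, E (d + 1)) x) := by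
        funext z
        have hcoe : ∀ s : Finset (Fin d), ((∑ i ∈ s, v i • R' i : VField (E (d + 1)) M ⊤) :
            ∀ x : M, TangentSpace 𝓘(ℝ, E (d + 1)) x) z = ∑ i ∈ s, v i • R i z := by
          intro s
          classical
          induction s using Finset.induction_on with
          | empty => simp
          | insert a s ha ih =>
            rw [Finset.sum_insert ha, Finset.sum_insert ha, ← ih]
            rfl
        exact (hcoe Finset.univ).symm
      rw [this]
      rfl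
    rw [e1, map_sum]
    calc ‖∑ i, jetMap (x₀ l) (k := k) (r := ⊤) le_top hy (v i • R' i)‖
        ≤ ∑ i, ‖jetMap (x₀ l) (k := k) (r := ⊤) le_top hy (v i • R' i)‖ := norm_sum_le _ _
      _ ≤ ∑ _i : Fin d, t * B := by
          refine Finset.sum_le_sum fun i _ => ?_
          rw [map_smul, norm_smul, Real.norm_eq_abs]
          refine mul_le_mul (hβα i).le (hBR i l x hx k hk) (norm_nonneg _) htpos.le
      _ = d * (t * B) := by simp
      _ < ε / 2 := by
          have h1 : (d + 1) * (t * B) = ε / 4 := by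
            rw [ht]; field_simp
          have h2 : (d : ℝ) * (t * B) ≤ (d + 1) * (t * B) :=
            mul_le_mul_of_nonneg_right (by linarith) (by positivity)
          linarith
  -- the new frequency
  set om₁ : E (d + 1) := WithLp.toLp 2 (Fin.cons 0 β) with hom₁
  have hom₁0 : om₁ 0 = 0 := by simp [hom₁]
  have hom₁s : ∀ i : Fin d, om₁ i.succ = β i := fun i => by simp [hom₁]
  have hth : th om₁ = β := by
    funext i
    exact hom₁s i
  have homeq : om₁ = om + ∑ i, v i • EuclideanSpace.single i.succ (1 : ℝ) := by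
    ext i
    refine Fin.cases ?_ (fun j => ?_) i
    · simp [hom₁0, hom, Fin.succ_ne_zero]
    · have h1 : (∑ i, v i • (EuclideanSpace.single i.succ (1 : ℝ) : E (d + 1))) j.succ = v j := by
        rw [WithLp.ofLp_sum, Finset.sum_apply, Finset.sum_eq_single j]
        · simp
        · intro i _ hij
          have : j.succ ≠ i.succ := fun h => hij (Fin.succ_injective _ h).symm
          simp [this]
        · intro h
          exact absurd (Finset.mem_univ j) h
      rw [hom₁s, PiLp.add_apply, h1]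
      simp [hv, th]
  have hw := hT.1
  have hX₁T : ∀ x : E (d + 1), x 0 = 0 → X₁ (T x) = dT T x om₁ := by
    intro x hx
    have hxs : x ∈ Strip d (w / 4) := by
      show |x 0| < w / 4
      rw [hx, abs_zero]; positivity
    rw [homeq, dT_sum, ← hXT x hx]
    simp only [hX₁]
    congr 1
    refine Finset.sum_congr rfl fun i _ => ?_
    rw [(hR i).2.2 x hxs]
  have hDF : DioF d (th om₁) := by rw [hth]; exact dioF_of_dio hβ
  have hcur₁ := (hCURV d M w T X₁ om₁ hT hom₁0).2 hX₁T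
  obtain ⟨Y, hY, hYT⟩ := hLIFTF d M μ w T X₁ om₁ hT hu hX₁s.1 hX₁d hom₁0 hX₁T
  obtain ⟨w', C, z, hw'w, hz⟩ := hZEXF d r w om₁ Y hY hDF hr1
  obtain ⟨I, hI1, hI2⟩ := hQMF d M w w' C T X₁ om₁ Y z r hT hw'w hr1 hz hYT
  obtain ⟨hc, hn, hi, htr⟩ := hTORF d M w T X₁ om₁ hT hX₁s.1 hom₁0 hDF hcur₁
  obtain ⟨Y', ⟨hY's, -, hY'a⟩, hY'n⟩ := tENG (E (d + 1)) M μ X₁ r (Tor T) I hr1 hμ' hX₁s.1 hX₁d
    hc hn hi htr hI1 hI2 N x₀ K (ε / 2) hK (half_pos hε)
  refine ⟨Y', ⟨hY's, hY'a⟩, fun l => ?_⟩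
  have := crNear_trans hX hX₁s.1 hY's (hK l).2 (hnear l) (hY'n l)
  rw [add_halves] at this
  exact this

end Pool.Agent.PalT
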