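import Pool.Agent.PalT.Targets
import Pool.Agent.Pal.FINAL

/-!
# The last step: expansion off the trap
-/

set_option autoImplicit false

open Set MeasureTheory Filter Topology Metric Asymptotics
open scoped Manifold ContDiff

namespace Pool.Agent.PalT

open Pool.Agent.Pal

def T_STEPC : Prop := ∀ (n : ℕ) (M : Type) [MetricSpace M] [ChartedSpace (E n) M]
  [IsManifold 𝓘(ℝ, E n) ∞ M] [CompactSpace M] [ConnectedSpace M] [MeasurableSpace M]
  [BorelSpace M] (μ : Measure M) (s : ℕ∞) (r : ℕ) (f g₀ ψR : M → M) (U : Set (M → M))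
  (m j : ℕ) (Λ K Bs : Set M) (P : Finset M) (p₀ : M) (V : M → ℝ),
  (1 : ℕ∞) ≤ s → (r : ℕ∞) ≤ s → IsVolume n μ → IsDiffeo n s f → MeasurePreserving f μ μ →
  IsDiffeo n ⊤ ψR → g₀ = ψR ∘ f → g₀ ∈ U → Rob n s r U → 1 ≤ m → 1 ≤ j →
  IsCompact Λ → (∀ x ∈ Λ, g₀^[m] x ∈ Λ) → IsCompact K → Λ ⊆ interior K → ContinuousOn V K →
  (∀ x ∈ K, g₀^[m] x ∈ interior K) → (∀ x ∈ K, x ∉ P → V (g₀^[m] x) < V x) →
  (∀ p ∈ P, p ∈ Λ ∧ g₀^[m] p ∈ P ∧ g₀^[m * j] p = p) → p₀ ∈ P →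
  (∃ e ∈ Ch n M, p₀ ∈ e.source ∧ ‖fderiv ℝ (e ∘ g₀^[m * j] ∘ e.symm) (e p₀)‖ < 1) →
  (∀ p ∈ P, (∃ i : ℕ, g₀^[i] p = p₀) ∨ Saddle n g₀^[m * j] p) →
  IsCompact Bs → Bs ⊆ interior K → (∀ x ∈ Bs, ψR x ∈ Bs) →
  (∀ A, MeasurableSet A → Disjoint A Bs → μ A ≤ μ (ψR '' A)) →
  ∃ g ∈ U, IsDiffeo n s g ∧ Nbd n g {g' | OneSink μ g'}

namespace STEPC_

theorem iter_inv {M : Type} {g : M → M} {m : ℕ} {Λ : Set M} (h : ∀ x ∈ Λ, g^[m] x ∈ Λ) (k : ℕ) :
    ∀ x ∈ Λ, g^[m * k] x ∈ Λ := by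
  induction k with
  | zero => intro x hx; simpa using hx
  | succ k ih =>
    intro x hx
    rw [Nat.mul_succ, Nat.add_comm, Function.iterate_add_apply]
    exact h _ (ih x hx)

theorem iter_mod {M : Type} {g : M → M} {m : ℕ} (hm : 1 ≤ m) {Λ : Set M}
    (h : ∀ x ∈ Λ, g^[m] x ∈ Λ) (i : ℕ) {x : M} (hx : x ∈ Λ) :
    ∃ i' < m, ∃ y ∈ Λ, g^[i] x = g^[i'] y := by
  refine ⟨i % m, Nat.mod_lt _ (by omega), g^[m * (i / m)] x, iter_inv h _ x hx, ?_⟩
  rw [← Function.iterate_add_apply, Nat.mod_add_div]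

theorem fderiv_germ {n : ℕ} {M : Type} [TopologicalSpace M] [ChartedSpace (E n) M]
    {e : OpenPartialHomeomorph M (E n)} {p : M} (hp : p ∈ e.source) {g g₀ : M → M}
    (h : ∀ᶠ x in 𝓝 p, g x = g₀ x) :
    e ∘ g ∘ e.symm =ᶠ[𝓝 (e p)] e ∘ g₀ ∘ e.symm := by
  have h1 : Tendsto e.symm (𝓝 (e p)) (𝓝 p) := by
    have := e.continuousAt_symm (e.map_source hp)
    rw [ContinuousAt, e.left_inv hp] at this
    exact this
  filter_upwards [h1.eventually h] with y hy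
  simp only [Function.comp_apply]
  rw [hy]

end STEPC_

open STEPC_ in
theorem stepc (hPERST : T_PERST) (hNEART : T_NEART) (hMST : T_MST) : T_STEPC := by
  intro n M _ _ _ _ _ _ _ μ s r f g₀ ψR U m j Λ K Bs P p₀ V hs1 hrs hμ hf hfμ hψRd hg₀ hg₀U hU
    hm hj hΛc hΛm hKc hΛK hVc hgint hgV hP hp₀ hsink hsad hBsc hBsK hBsR hψRμ
  classical
  obtain ⟨hfin, hpos, -⟩ := vol n M μ hμ
  have := hfin
  obtain ⟨hcomp, hmono, hhomeo, -⟩ := diff1 n M s
  obtain ⟨F, hF⟩ := hhomeo f hf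
  have hfc : Continuous f := by rw [← hF]; exact F.continuous
  have hg₀d : IsDiffeo n s g₀ := by rw [hg₀]; exact hcomp _ _ (hmono _ hψRd) hf
  obtain ⟨G₀, hG₀⟩ := hhomeo g₀ hg₀d
  have hg₀c : Continuous g₀ := by rw [← hG₀]; exact G₀.continuous
  set N : ℕ := m * j with hN
  have hN1 : 1 ≤ N := Nat.one_le_iff_ne_zero.2 (by rw [hN]; positivity)
  have hΛne : Λ.Nonempty := ⟨p₀, (hP p₀ hp₀).1⟩
  -- the orbit of the compact set
  obtain ⟨d, hd, η₁, hη₁, hnear⟩ := hNEART M g₀ m Λ (interior K) hg₀c hΛc isOpen_interior hΛK hΛm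
  set Lo : Set M := ⋃ i ∈ Finset.range m, g₀^[i] '' Λ with hLo
  have hLoc : IsCompact Lo :=
    (Finset.range m).isCompact_biUnion fun i _ => hΛc.image (hg₀c.iterate i)
  obtain ⟨t, htLo, htfin, htcov⟩ := hLoc.elim_finite_subcover_image (b := Lo)
    (c := fun p => ball p (d / 4)) (fun _ _ => isOpen_ball)
    (fun x hx => mem_biUnion hx (mem_ball_self (by linarith)))
  set Pn : Finset M := htfin.toFinset with hPn
  have hmemPn : ∀ p, p ∈ Pn ↔ p ∈ t := fun p => by rw [hPn, Set.Finite.mem_toFinset]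
  set Z : Set M := ⋃ p ∈ Pn, ball p (d / 4) with hZ
  have hZo : IsOpen Z := isOpen_biUnion fun _ _ => isOpen_ball
  have hLoZ : Lo ⊆ Z := by
    intro x hx
    have h1 := htcov hx
    simp only [mem_iUnion, exists_prop] at h1
    obtain ⟨p, hp, hx⟩ := h1
    exact mem_biUnion ((hmemPn p).2 hp) hx
  have hZi : ∀ i : ℕ, ∀ x ∈ Λ, g₀^[i] x ∈ Z := by
    intro i x hx
    obtain ⟨i', hi', y, hy, h⟩ := iter_mod hm hΛm i hx
    rw [h]
    exact hLoZ (mem_biUnion (Finset.mem_coe.2 (Finset.mem_range.2 hi')) (mem_image_of_mem _ hy))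
  have hPnne : Pn.Nonempty := by
    obtain ⟨x, hx⟩ := hΛne
    have h1 : x ∈ Z := hZi 0 x hx
    simp only [hZ, mem_iUnion, exists_prop] at h1
    obtain ⟨p, hp, -⟩ := h1
    exact ⟨p, hp⟩
  obtain ⟨η₂, hη₂, hpers⟩ := hPERST M g₀ m Λ K Z (P : Set M) V hg₀c hΛc hKc hZo hVc
    (fun p hp => (hP p (Finset.mem_coe.1 hp)).1) (fun i _ x hx => hZi i x hx) hgint
    (fun x hx hxP => hgV x hx (fun h => hxP (Finset.mem_coe.2 h)))
  obtain ⟨η₃, hη₃, hthick⟩ := hBsc.exists_thickening_subset_open isOpen_interior hBsK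
  set η : ℝ := min (min (η₁ / 2) η₂) (min (η₃ / 2) (d / 2)) with hη
  have hηpos : 0 < η :=
    lt_min (lt_min (half_pos hη₁) hη₂) (lt_min (half_pos hη₃) (half_pos hd))
  obtain ⟨ψ, hψd, hψU, hψη, hψid, θ, hθ, hψexp⟩ := glo2 tGOODALL diff1 n M μ s r Pn d hrs hμ
    hPnne hd g₀ U η hg₀d hU hg₀U hηpos
  have hη1 : ∀ x, dist (ψ x) x < η₁ / 2 := fun x =>
    (hψη x).trans_le ((min_le_left _ _).trans (min_le_left _ _))
  have hη2 : ∀ x, dist (ψ x) x < η₂ := fun x =>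
    (hψη x).trans_le ((min_le_left _ _).trans (min_le_right _ _))
  have hη3 : ∀ x, dist (ψ x) x < η₃ / 2 := fun x =>
    (hψη x).trans_le ((min_le_right _ _).trans (min_le_left _ _))
  have hηd : ∀ x, dist (ψ x) x < d / 2 := fun x =>
    (hψη x).trans_le ((min_le_right _ _).trans (min_le_right _ _))
  obtain ⟨Gψ, hGψ⟩ := (diff1 n M ⊤).2.2.1 ψ hψd
  obtain ⟨GR, hGR⟩ := (diff1 n M ⊤).2.2.1 ψR hψRd
  have hψc : Continuous ψ := by rw [← hGψ]; exact Gψ.continuous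
  have hψZ : ∀ x ∈ Z, ψ x = x := by
    intro x hx
    simp only [hZ, mem_iUnion, exists_prop] at hx
    obtain ⟨p', hp', hx⟩ := hx
    exact hψid x ⟨p', hp', (mem_ball.1 hx).le⟩
  obtain ⟨hq2, hq3⟩ := hpers ψ hψc hη2 hψZ
  set g : M → M := ψ ∘ g₀ with hg
  have hgd : IsDiffeo n s g := hcomp _ _ (hmono _ hψd) hg₀d
  have hgd1 : IsDiffeo n 1 g := by
    obtain ⟨G, hG⟩ := hgd
    exact ⟨⟨G.toEquiv, G.contMDiff_toFun.of_le (by exact_mod_cast hs1),
      G.contMDiff_invFun.of_le (by exact_mod_cast hs1)⟩, hG⟩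
  have hgc : Continuous g := hψc.comp hg₀c
  obtain ⟨Gg, hGg⟩ := hhomeo g hgd
  have hginj : Function.Injective g := by rw [← hGg]; exact Gg.injective
  -- germs
  have hgerm : ∀ i : ℕ, ∀ p ∈ Λ, ∀ᶠ x in 𝓝 p, g^[i] x = g₀^[i] x := fun i p hp =>
    MAIN_.iter_germ hg₀c hZo (fun i' _ => hZi i' p hp) hψZ i le_rfl
  have hval : ∀ i : ℕ, ∀ p ∈ Λ, g^[i] p = g₀^[i] p := fun i p hp => (hgerm i p hp).self_of_nhds
  -- the Lyapunov function for `g^N`
  have hPm : ∀ x, g^[m] x ∈ P → x ∈ P := by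
    intro x hx
    have h1 : Set.MapsTo g^[m] (P : Set M) (P : Set M) := by
      intro p hp
      rw [hval m p (hP p (Finset.mem_coe.1 hp)).1]
      exact Finset.mem_coe.2 (hP p (Finset.mem_coe.1 hp)).2.1
    have h2 : Set.SurjOn g^[m] (P : Set M) (P : Set M) :=
      Finset.surjOn_of_injOn_of_card_le g^[m] h1 ((hginj.iterate m).injOn) le_rfl
    obtain ⟨p, hp, h3⟩ := h2 (Finset.mem_coe.2 hx)
    have := (hginj.iterate m) h3
    rw [← this]
    exact Finset.mem_coe.1 hp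
  have hiK : ∀ k : ℕ, ∀ x ∈ K, g^[m * (k + 1)] x ∈ interior K ∧
      (x ∉ P → V (g^[m * (k + 1)] x) < V x ∧ g^[m * (k + 1)] x ∉ P) := by
    intro k
    induction k with
    | zero =>
      intro x hx
      rw [zero_add, mul_one]
      exact ⟨hq2 x hx, fun hxP => ⟨hq3 x hx (fun h => hxP (Finset.mem_coe.1 h)),
        fun h => hxP (hPm x h)⟩⟩
    | succ k ih =>
      intro x hx
      obtain ⟨h1, h2⟩ := ih x hx
      rw [Nat.mul_succ m (k + 1), Nat.add_comm, Function.iterate_add_apply]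
      refine ⟨hq2 _ (interior_subset h1), fun hxP => ?_⟩
      obtain ⟨h3, h4⟩ := h2 hxP
      exact ⟨(hq3 _ (interior_subset h1) (fun h => h4 (Finset.mem_coe.1 h))).trans h3,
        fun h => h4 (hPm _ h)⟩
  obtain ⟨j', rfl⟩ : ∃ j', j = j' + 1 := ⟨j - 1, by omega⟩
  -- the robust trap
  have hV1 := hMST n M μ g N K P p₀ V hμ hgd1 hN1 hKc hVc (fun x hx => (hiK j' x hx).1)
    (fun p hp => ⟨interior_subset (hΛK (hP p hp).1), by
      rw [hval N p (hP p hp).1]; exact (hP p hp).2.2⟩) hp₀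
    (fun x hx hxP => ((hiK j' x hx).2 hxP).1) (by
      obtain ⟨e, he, hpe, hn⟩ := hsink
      refine ⟨e, he, hpe, ?_⟩
      rw [(fderiv_germ hpe (hgerm N p₀ (hP p₀ hp₀).1)).fderiv_eq]
      exact hn) (by
      intro p hp
      rcases hsad p hp with ⟨i, hi⟩ | ⟨h1, e, he, hpe, hh⟩
      · exact Or.inl ⟨i, by rw [hval i p (hP p hp).1]; exact hi⟩
      · refine Or.inr ⟨by rw [hval N p (hP p hp).1]; exact h1, e, he, hpe, ?_⟩
        rw [(fderiv_germ hpe (hgerm N p (hP p hp).1)).fderiv_eq]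
        exact hh)
  -- the neighbourhoods
  set δ' : ℝ := θ / (2 * (1 + θ)) with hδ'
  have hδ'0 : 0 < δ' := by positivity
  have hδ'1 : δ' < 1 := by
    rw [hδ', div_lt_one (by positivity)]
    linarith
  have hδ'2 : 1 < (1 - δ') * (1 + θ) := by
    have : δ' * (1 + θ) = θ / 2 := by rw [hδ']; field_simp
    nlinarith
  set η₄ : ℝ := min (η₁ / 2) (min (η₃ / 2) (d / 2)) with hη₄
  have hη₄pos : 0 < η₄ := lt_min (half_pos hη₁) (lt_min (half_pos hη₃) (half_pos hd))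
  obtain ⟨hN1', hN2, -, -⟩ := nbd n M g
  have hV0 : Nbd n g {g' | IsDiffeo n 1 g'} :=
    ⟨0, fun i => i.elim0, fun i => i.elim0, fun i => i.elim0, 1, one_pos, fun i => i.elim0,
      fun g' hg' _ => hg'⟩
  have hV2 := tC0C n M g η₄ hgc hη₄pos
  have hV3 := jacc nbd diff1 n M μ g δ' hμ hgd1 hδ'0 hδ'1
  refine ⟨g, hψU, hgd, hN2 _ _ (hN1' _ _ (hN1' _ _ hV0 hV1) (hN1' _ _ hV2 hV3)) ?_⟩
  rintro g' ⟨⟨hg'd, hK', p', hp'm, hbas0⟩, hC', hJ'⟩
  obtain ⟨Gg', hGg'⟩ := (diff1 n M 1).2.2.1 g' hg'd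
  have hg'c : Continuous g' := by rw [← hGg']; exact Gg'.continuous
  set Λ' : Set M := {y | ∃ i < N, y = g'^[i] p'} with hΛ'
  have hc1 : ∀ x, dist (g' x) (g x) < η₁ / 2 := fun x => (hC' x).trans_le (min_le_left _ _)
  have hc3 : ∀ x, dist (g' x) (g x) < η₃ / 2 := fun x =>
    (hC' x).trans_le ((min_le_right _ _).trans (min_le_left _ _))
  have hcd : ∀ x, dist (g' x) (g x) < d / 2 := fun x =>
    (hC' x).trans_le ((min_le_right _ _).trans (min_le_right _ _))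
  have hc0 : ∀ x, dist (g' x) (g₀ x) < η₁ := fun x => by
    calc dist (g' x) (g₀ x) ≤ dist (g' x) (g x) + dist (ψ (g₀ x)) (g₀ x) := dist_triangle _ _ _
      _ < η₁ := by linarith [hc1 x, hη1 (g₀ x)]
  set UU : Set M := ⋃ k : ℕ, (g'^[k]) ⁻¹' interior K with hUU
  have hUUo : IsOpen UU := isOpen_iUnion fun k => isOpen_interior.preimage (hg'c.iterate k)
  have hUUinv : ∀ x, g' x ∈ UU ↔ x ∈ UU := by
    intro x
    simp only [hUU, mem_iUnion, mem_preimage]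
    constructor
    · rintro ⟨k, hk⟩
      exact ⟨k + 1, by rw [Function.iterate_succ_apply]; exact hk⟩
    · rintro ⟨k, hk⟩
      rcases k with _ | k
      · refine ⟨N - 1, ?_⟩
        rw [← Function.iterate_succ_apply, Nat.succ_eq_add_one, Nat.sub_add_cancel hN1]
        exact hK' x (interior_subset hk)
      · exact ⟨k, by rw [Function.iterate_succ_apply] at hk; exact hk⟩
  have hnull : μ UUᶜ = 0 := by
    refine meas2 M μ Gg' F Gg GR Gψ UU Bs {y | ∃ p' ∈ Pn, dist y p' < d} θ δ' hUUo ?_ ?_ ?_ ?_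
      ?_ ?_ ?_ ?_ hθ hδ'0 hδ'1 hδ'2
    · intro x
      rw [hGg, hF, hGR, hGψ, hg, hg₀]
      rfl
    · intro x
      rw [hGg']
      exact hUUinv x
    · intro x hx
      rw [hF] at hx
      rw [← hUUinv]
      have h1 : ψR (f x) ∈ Bs := hBsR _ hx
      have h2 : g' x ∈ interior K := by
        refine hthick ?_
        rw [mem_thickening_iff]
        refine ⟨ψR (f x), h1, ?_⟩
        have h3 : g x = ψ (ψR (f x)) := by rw [hg, hg₀]; rfl
        calc dist (g' x) (ψR (f x)) ≤ dist (g' x) (g x) + dist (g x) (ψR (f x)) :=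
              dist_triangle _ _ _
          _ < η₃ := by rw [h3]; rw [h3.symm]; linarith [hc3 x, h3 ▸ hη3 (ψR (f x))]
      exact mem_iUnion.2 ⟨0, h2⟩
    · rintro x ⟨p'', hp'', hx⟩
      rw [hF, hGR] at hx
      rw [← hUUinv]
      have h3 : g x = ψ (ψR (f x)) := by rw [hg, hg₀]; rfl
      have h1 : dist (g' x) p'' < 2 * d := by
        calc dist (g' x) p'' ≤ dist (g' x) (g x) + dist (g x) p'' := dist_triangle _ _ _
          _ ≤ dist (g' x) (g x) + (dist (g x) (ψR (f x)) + dist (ψR (f x)) p'') := by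
                gcongr
                exact dist_triangle _ _ _
          _ < 2 * d := by linarith [hcd x, h3 ▸ hηd (ψR (f x))]
      have h4 : p'' ∈ Lo := htLo ((hmemPn p'').1 hp'')
      simp only [hLo, mem_iUnion, exists_prop] at h4
      obtain ⟨i, hi, y, hy, rfl⟩ := h4
      obtain ⟨k, hk⟩ := hnear g' hc0 i (Finset.mem_range.1 hi) (g' x) y hy h1
      exact mem_iUnion.2 ⟨k, hk⟩
    · intro A hA
      rw [hF]
      have h1 : MeasurableSet (f '' A) := by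
        rw [← hF]; exact (F.toMeasurableEquiv.measurableSet_image).2 hA
      have hinj : Function.Injective f := by rw [← hF]; exact F.injective
      rw [← hfμ.measure_preimage h1.nullMeasurableSet, preimage_image_eq _ hinj]
    · intro A hA hAB
      rw [hGR]
      exact hψRμ A hA hAB
    · intro A hA hAD
      rw [hGψ]
      refine hψexp A hA (fun x hx p' hp' => ?_)
      by_contra hlt
      exact Set.disjoint_left.1 hAD hx ⟨p', hp', not_le.1 hlt⟩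
    · intro A hA
      rw [hGg, hGg']
      exact hJ' A hA
  have hbasnull : μ (basin g' Λ')ᶜ = 0 := by
    refine measure_mono_null (t := UUᶜ ∪ {x | (∃ k : ℕ, g'^[k] x ∈ K) ∧ x ∉ basin g' Λ'}) ?_
      (measure_union_null hnull hbas0)
    intro x hx
    by_cases hxU : x ∈ UU
    · obtain ⟨k, hk⟩ := mem_iUnion.1 hxU
      exact Or.inr ⟨⟨k, interior_subset hk⟩, hx⟩
    · exact Or.inl hxU
  have hposb : 0 < μ (basin g' Λ') := by
    have h1 : 0 < μ univ := hpos univ isOpen_univ ⟨p₀, mem_univ _⟩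
    by_contra h0
    have h2 : μ (basin g' Λ') = 0 := nonpos_iff_eq_zero.1 (not_lt.1 h0)
    have h3 : μ univ ≤ 0 := by
      calc μ univ ≤ μ (basin g' Λ' ∪ (basin g' Λ')ᶜ) := by rw [union_compl_self]
        _ ≤ μ (basin g' Λ') + μ (basin g' Λ')ᶜ := measure_union_le _ _
        _ = 0 := by rw [h2, hbasnull, add_zero]
    exact absurd h1 (not_lt.2 h3)
  refine ⟨Λ', ?_, orb M μ g' N p' hN1 hp'm hposb, hbasnull⟩
  have : Λ' = (fun i => g'^[i] p') '' (Finset.range N : Set ℕ) := by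
    ext y
    simp only [hΛ', mem_ofPred_eq, mem_image, Finset.coe_range, mem_Iio]
    constructor
    · rintro ⟨i, hi, rfl⟩; exact ⟨i, hi, rfl⟩
    · rintro ⟨i, hi, rfl⟩; exact ⟨i, hi, rfl⟩
  rw [this]
  exact (Finset.finite_toSet _).image _

end Pool.Agent.PalT
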