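import Pool.Agent.PalT.MTOOL
import Pool.Agent.PalT.STEPC

/-!
# The theorem for diffeomorphisms
-/

set_option autoImplicit false

open Set MeasureTheory Filter Topology Metric Asymptotics
open scoped Manifold ContDiff

namespace Pool.Agent.PalT

open Pool.Agent.Pal

def T_MAINT : Prop := ∀ (d : ℕ) (M : Type) [MetricSpace M] [ChartedSpace (E (d + 1)) M]
  [IsManifold 𝓘(ℝ, E (d + 1)) ∞ M] [CompactSpace M] [ConnectedSpace M] [MeasurableSpace M]
  [BorelSpace M] (μ : Measure M) (r : ℕ) (f : M → M) (U : Set (M → M)) (m : ℕ) (w : ℝ)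
  (T : E (d + 1) → M) (α : E (d + 1)), 1 ≤ d → 1 ≤ r →
  IsVolume (d + 1) μ → IsDiffeo (d + 1) ⊤ f → MeasurePreserving f μ μ → Rob (d + 1) ⊤ r U →
  RobT d ⊤ r U → f ∈ U →
  1 ≤ m → Collar w T → α 0 = 0 → (∀ x, x 0 = 0 → f^[m] (T x) = T (x + α)) →
  (∀ i, 0 < i → i < m → ∀ x x' : E (d + 1), x 0 = 0 → x' 0 = 0 → f^[i] (T x) ≠ T x') →
  ∃ g ∈ U, IsDiffeo (d + 1) ⊤ g ∧ Nbd (d + 1) g {g' | OneSink μ g'}

namespace MAINT_

theorem isDiffeo_iter {n : ℕ} {M : Type} [TopologicalSpace M] [ChartedSpace (E n) M]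
    [IsManifold 𝓘(ℝ, E n) ∞ M] {s : ℕ∞} {f : M → M} (hf : IsDiffeo n s f) (m : ℕ) :
    IsDiffeo n s f^[m] := by
  induction m with
  | zero => exact MAIN_.isDiffeo_id s
  | succ m ih =>
    rw [Function.iterate_succ]
    exact (diff1 n M s).1 _ _ ih hf

theorem radT_zero {d : ℕ} (a : ℝ → ℝ) (κ ρ : ℝ) (x : E (d + 1)) :
    radT a κ ρ x 0 = (1 - κ * a (x 0 ^ 2 / ρ ^ 2)) * x 0 := by
  simp only [radT, PiLp.sub_apply, PiLp.smul_apply, EuclideanSpace.single_apply, smul_eq_mul]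
  simp
  ring

/-- The lifted dynamics. -/
theorem iter_lift {d : ℕ} {M : Type} {g : M → M} {m : ℕ} {T : E (d + 1) → M}
    {G : E (d + 1) → E (d + 1)} {S : Set (E (d + 1))} (h : ∀ x ∈ S, g^[m] (T x) = T (G x))
    (k : ℕ) (x : E (d + 1)) (hx : ∀ i < k, G^[i] x ∈ S) : g^[m * k] (T x) = T (G^[k] x) := by
  induction k with
  | zero => simp
  | succ k ih =>
    rw [Nat.mul_succ, Nat.add_comm, Function.iterate_add_apply,
      ih (fun i hi => hx i (by omega)), h _ (hx k (by omega)), Function.iterate_succ_apply']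

theorem cont_iter {d : ℕ} {G : E (d + 1) → E (d + 1)} (hG : ∀ x, x 0 = 0 → ContinuousAt G x)
    (h0 : ∀ x, x 0 = 0 → (G x) 0 = 0) (k : ℕ) :
    ∀ x : E (d + 1), x 0 = 0 → ContinuousAt G^[k] x ∧ (G^[k] x) 0 = 0 := by
  induction k with
  | zero => intro x hx; exact ⟨continuousAt_id, hx⟩
  | succ k ih =>
    intro x hx
    obtain ⟨h1, h2⟩ := ih (G x) (h0 x hx)
    exact ⟨h1.comp (hG x hx), h2⟩

end MAINT_

open MAINT_ STEPA_ in
theorem maint (hSTEPA : T_STEPA) (hSTEPC : T_STEPC) (hLIFT : T_LIFT) (hZEX : T_ZEX)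
    (hPROFT : T_PROFT) (hRADT : T_RADT) (hMSM : T_MSM) (hTRAPE : T_TRAPE) (hDERE : T_DERE)
    (hTRI : T_TRI) (hCOLL : T_COLL) (hEXTT : T_EXTT) (hVOLT : T_VOLT) : T_MAINT := by
  intro d M _ _ _ _ _ _ _ μ r f₀ U m w₀ T₀ α₀ hd hr hμ hf₀ hf₀μ hU hUT hf₀U hm hT₀ hα₀ hf₀α hdis
  classical
  obtain ⟨f, w, T, α, hf, hfμ, hfU, hT, huT, hα, hDio, hfα, hsep⟩ :=
    hSTEPA d M μ r f₀ U m w₀ T₀ α₀ hμ hf₀ hf₀μ hUT hf₀U hm hT₀ hα₀ hf₀α hdis
  obtain ⟨hfin, -, -⟩ := vol (d + 1) M μ hμ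
  have := hfin
  have hw : 0 < w := hT.1
  obtain ⟨hcomp, hmono, hhomeo, -⟩ := diff1 (d + 1) M ⊤
  obtain ⟨w₁, F, hw₁w, hF, hFT⟩ := hLIFT d M μ w T f^[m] α hT huT (isDiffeo_iter hf m)
    (hfμ.iterate m) hα hfα
  obtain ⟨w₂, C, s, z, hw₂w, hz⟩ := hZEX d r w₁ α F hF hDio hr
  obtain ⟨a, c, κ₀, hprof⟩ := hPROFT
  obtain ⟨hRmod, hRnear⟩ := hRADT d a c κ₀ hprof
  obtain ⟨B, hB, hRn⟩ := hRnear r hr
  obtain ⟨δ₁, hδ₁, hrob⟩ := hUT w T hT (w / 2) (half_lt_self hw) f hfU hf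
  set δ₂ : ℝ := min (δ₁ / 2) (1 / 4) with hδ₂
  have hδ₂pos : 0 < δ₂ := lt_min (half_pos hδ₁) (by norm_num)
  obtain ⟨ε, hε, hεκ, hεδ⟩ : ∃ ε : ℝ, 0 < ε ∧ ε ≤ κ₀ ∧ B * ε ≤ δ₂ := by
    refine ⟨min κ₀ (δ₂ / B), lt_min hprof.κ_pos (div_pos hδ₂pos hB), min_le_left _ _, ?_⟩
    calc B * min κ₀ (δ₂ / B) ≤ B * (δ₂ / B) :=
          mul_le_mul_of_nonneg_left (min_le_right _ _) hB.le
      _ = δ₂ := by field_simp
  obtain ⟨ρ₀, hρ₀, hρ₀'⟩ := hTRAPE d r w₂ C s α F z a c κ₀ ε hα hr hz hprof hε hεκ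
  obtain ⟨ρ, hρ, hρρ₀, hρ1, hρw, hρw₂⟩ : ∃ ρ : ℝ, 0 < ρ ∧ ρ ≤ ρ₀ ∧ ρ ≤ 1 ∧ 16 * ρ ≤ w ∧
      8 * ρ ≤ w₂ := by
    have hw₂ := hz.pos
    refine ⟨min (min ρ₀ 1) (min (w / 16) (w₂ / 8)), by positivity, ?_, ?_, ?_, ?_⟩
    · exact (min_le_left _ _).trans (min_le_left _ _)
    · exact (min_le_left _ _).trans (min_le_right _ _)
    · have : min (min ρ₀ 1) (min (w / 16) (w₂ / 8)) ≤ w / 16 :=
        (min_le_right _ _).trans (min_le_left _ _)
      linarith
    · have : min (min ρ₀ 1) (min (w / 16) (w₂ / 8)) ≤ w₂ / 8 :=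
        (min_le_right _ _).trans (min_le_right _ _)
      linarith
  obtain ⟨htr1, htr2, δ₃, hδ₃, htrap⟩ := hρ₀' ρ hρ hρρ₀
  set κ : ℝ := ε * ρ ^ (r - 1) with hκ
  have hκpos : 0 < κ := by positivity
  have hκκ : κ ≤ κ₀ := by
    calc ε * ρ ^ (r - 1) ≤ ε * 1 := mul_le_mul_of_nonneg_left (pow_le_one₀ hρ.le hρ1) hε.le
      _ ≤ κ₀ := by rw [mul_one]; exact hεκ
  set R : E (d + 1) → E (d + 1) := radT a κ ρ with hR
  have hRm : ModT d (8 * ρ) R := hRmod κ ρ hρ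
  obtain ⟨δ₄, hδ₄, hnc⟩ := ncomp d r (8 * ρ) (ρ / 2) R hRm δ₂ hδ₂pos
  obtain ⟨q, p, η, Q, hQ, hQn⟩ := hMSM d r α ρ (min δ₃ δ₄) hd hα hρ (lt_min hδ₃ hδ₄)
  have hQn3 : Near 1 δ₃ Q := fun j hj y => (hQn j (hj.trans hr) y).trans (min_le_left _ _)
  have hQn4 : Near r δ₄ Q := fun j hj y => (hQn j hj y).trans (min_le_right _ _)
  obtain ⟨Bv, hBv, hLy⟩ := htrap q p η Q hQ hQn3
  -- the modification
  set L : E (d + 1) → E (d + 1) := fun x => R (Q x) with hL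
  have hLmod : ModT d (w / 2) L := by
    refine ⟨hRm.1.comp hQ.mod.1, fun x v hv => ?_, fun x hx => ?_⟩
    · simp only [hL]
      rw [hQ.mod.2.1 x v hv, hRm.2.1 _ v hv]
    · simp only [hL]
      rw [hQ.mod.2.2 x (by linarith), hRm.2.2 x (by linarith)]
  have hLn : Near r (δ₂ + δ₂) L := by
    intro j hj y
    have h1 : iteratedFDeriv ℝ j (fun x => L x - x) y =
        iteratedFDeriv ℝ j (fun x => R (Q x) - R x) y +
          iteratedFDeriv ℝ j (fun x => R x - x) y := by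
      have h2 : (fun x => L x - x) = (fun x => (R (Q x) - R x)) + (fun x => (R x - x)) := by
        funext x; simp [hL]
      rw [h2]
      exact iteratedFDeriv_add_apply
        (((hRm.1.comp hQ.mod.1).sub hRm.1).contDiffAt.of_le (by exact_mod_cast le_top))
        ((hRm.1.sub contDiff_id).contDiffAt.of_le (by exact_mod_cast le_top))
    rw [h1]
    refine (norm_add_le _ _).trans (add_le_add (hnc Q hQ.mod hQn4 j hj y) ?_)
    exact (hRn ρ ε hρ hρ1 hε.le j hj y).trans hεδ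
  have hLn1 : Near r δ₁ L := fun j hj y => (hLn j hj y).trans (by
    linarith [min_le_left (δ₁ / 2) (1 / 4)])
  have hLn2 : Near 1 (1 / 2) L := fun j hj y => (hLn j (hj.trans hr) y).trans (by
    linarith [min_le_right (δ₁ / 2) (1 / 4)])
  obtain ⟨hψd, hψs, hψoff⟩ := hEXTT d M w (w / 2) T L hT (half_lt_self hw) hLmod hLn2
  set ψR : M → M := extT w T L with hψR
  have hg₀U : ψR ∘ f ∈ U := hrob L hLmod hLn1
  have hψoff' : ∀ y, y ∉ T '' Strip d w → ψR y = y := fun y hy => hψoff y (fun h => hy (by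
    obtain ⟨x, hx, rfl⟩ := h
    exact ⟨x, lt_of_le_of_lt (show |x 0| ≤ w / 2 from hx) (half_lt_self hw), rfl⟩))
  set G : E (d + 1) → E (d + 1) := fun x => R (Q (F x)) with hG
  set g₀ : M → M := ψR ∘ f with hg₀
  have hww₁ : Strip d w₁ ⊆ Strip d w := fun x hx => lt_of_lt_of_le (show |x 0| < w₁ from hx) hw₁w
  have hgG : ∀ x ∈ Strip d w₁, g₀^[m] (T x) = T (G x) := by
    intro x hx
    rw [(iter_collar hm hsep hψoff' (hww₁ hx)).2, (hFT x hx).2, (hψs _ (hFT x hx).1).2]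
  have hw₁ := hF.pos
  have hρw₁ : 8 * ρ ≤ w₁ := hρw₂.trans hw₂w
  have hS0 : ∀ x : E (d + 1), x 0 = 0 → x ∈ Strip d w₁ := fun x hx => by
    show |x 0| < w₁
    rw [hx, abs_zero]; exact hw₁
  -- the torus
  have hG0 : ∀ x : E (d + 1), x 0 = 0 → (G x) 0 = 0 := by
    intro x hx
    simp only [hG, hR]
    rw [radT_zero, hQ.zero, hF.zero x hx]
    simp [hx, hα]
  set Λ : Set M := T '' {x | x 0 = 0} with hΛ
  obtain ⟨hTc, hTo, hTK, hTe⟩ := hCOLL d M w T hT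
  have hΛc : IsCompact Λ := by
    refine hTK 0 hw _ ?_ (fun x hx => by rw [show x 0 = 0 from hx, abs_zero]) ?_
    · exact isClosed_eq (by fun_prop) continuous_const
    · intro x hx v hv
      show (x + v) 0 = 0
      simp [show x 0 = 0 from hx, hv.1]
  have hΛm : ∀ x ∈ Λ, g₀^[m] x ∈ Λ := by
    rintro _ ⟨x, hx, rfl⟩
    exact ⟨G x, hG0 x hx, (hgG x (hS0 x hx)).symm⟩
  -- the trap
  have hzc : Continuous z := hz.smooth.continuous
  set Kh : Set (E (d + 1)) := {x | |x 0| ≤ 4 * ρ ∧ |z x| ≤ 2 * ρ} with hKh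
  set Oh : Set (E (d + 1)) := {x | |x 0| < 4 * ρ ∧ |z x| < 2 * ρ} with hOh
  have hOo : IsOpen Oh := by
    have h1 : IsOpen {x : E (d + 1) | |x 0| < 4 * ρ} := isOpen_lt (by fun_prop) continuous_const
    have h2 : IsOpen {x : E (d + 1) | |z x| < 2 * ρ} := isOpen_lt hzc.abs continuous_const
    exact h1.inter h2
  have hOKh : Oh ⊆ Kh := fun x hx => ⟨hx.1.le, hx.2.le⟩
  have hKhS : ∀ x ∈ Kh, x ∈ Strip d w₁ := fun x hx =>
    lt_of_le_of_lt hx.1 (by linarith)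
  set K : Set M := T '' Kh with hK
  have hKc : IsCompact K := by
    refine hTK (4 * ρ) (by linarith) _ ?_ (fun x hx => hx.1) ?_
    · have h1 : IsClosed {x : E (d + 1) | |x 0| ≤ 4 * ρ} :=
        isClosed_le (by fun_prop) continuous_const
      have h2 : IsClosed {x : E (d + 1) | |z x| ≤ 2 * ρ} := isClosed_le hzc.abs continuous_const
      exact h1.inter h2
    · intro x hx v hv
      refine ⟨?_, ?_⟩
      · rw [PiLp.add_apply, hv.1, add_zero]; exact hx.1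
      · rw [hz.per x v hv]; exact hx.2
  have hOint : T '' Oh ⊆ interior K :=
    interior_maximal (image_mono hOKh) (hTo Oh (fun x hx => hww₁ (hKhS x (hOKh hx))) hOo)
  have hΛK : Λ ⊆ interior K := by
    rintro _ ⟨x, hx, rfl⟩
    refine hOint ⟨x, ⟨?_, ?_⟩, rfl⟩
    · rw [show x 0 = 0 from hx, abs_zero]; positivity
    · exact htr2 x (by rw [show x 0 = 0 from hx, abs_zero]; exact hρ.le)
  have hGK : ∀ x ∈ Kh, G x ∈ Oh ∧ (x ∉ MSPt d q → LyV d Bv z q (G x) < LyV d Bv z q x) := by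
    intro x hx
    obtain ⟨h1, h2, h3⟩ := hLy x hx.1 hx.2
    exact ⟨⟨h1, h2⟩, h3⟩
  -- the Lyapunov function
  have hLyc : Continuous (LyV d Bv z q) := by
    unfold LyV
    fun_prop
  have hLyp : Per d (LyV d Bv z q) := by
    intro x v hv
    unfold LyV
    rw [hz.per x v hv]
    congr 1
    refine Finset.sum_congr rfl fun i _ => ?_
    obtain ⟨k, hk⟩ := hv.2 i.succ
    rw [PiLp.add_apply, hk]
    have : 2 * Real.pi * (q i : ℝ) * (x i.succ + (k : ℝ)) =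
        2 * Real.pi * (q i : ℝ) * x i.succ + ((q i * k : ℤ) : ℝ) * (2 * Real.pi) := by
      push_cast; ring
    rw [this, Real.cos_add_int_mul_two_pi]
  obtain ⟨V, hVT, hVc⟩ := desc hCOLL hT hLyc hLyp
  have hVK : ContinuousOn V K := hVc.mono (image_mono fun x hx => hww₁ (hKhS x hx))
  -- the periodic points
  have hPf := mspt_finite hT q hQ.two_le
  set P : Finset M := hPf.toFinset with hP
  have hmemP : ∀ y, y ∈ P ↔ ∃ x ∈ MSPt d q, T x = y := fun y => by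
    rw [hP, Set.Finite.mem_toFinset]
    rfl
  set j : ℕ := ∏ i, q i with hj
  have hj1 : 1 ≤ j := Nat.one_le_iff_ne_zero.2 (Finset.prod_ne_zero_iff.2 fun i _ => by
    have := hQ.two_le i
    omega)
  have hder := hDERE d w₁ s ρ κ α F a c κ₀ q p η Q hF hz.sign
    ⟨C, w₂, hz.pos, fun x hx => hz.norm x hx⟩ hprof hκpos hκκ hρ hQ G rfl
  have hMS0 : ∀ x ∈ MSPt d q, x 0 = 0 := fun x hx => hx.1
  have hiter0 : ∀ x : E (d + 1), x 0 = 0 → ∀ k, (G^[k] x) 0 = 0 := by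
    intro x hx k
    induction k with
    | zero => exact hx
    | succ k ih => rw [Function.iterate_succ_apply']; exact hG0 _ ih
  have hgk : ∀ (k : ℕ) (x : E (d + 1)), x 0 = 0 → g₀^[m * k] (T x) = T (G^[k] x) :=
    fun k x hx => iter_lift hgG k x (fun i _ => hS0 _ (hiter0 x hx i))
  have hLat : ∀ x : E (d + 1), x 0 = 0 → ∀ v ∈ Lat d, T (x + v) = T x := by
    intro x hx v hv
    refine (hT.2.2 _ (hww₁ (hS0 _ ?_)) _ (hww₁ (hS0 x hx))).2 ?_
    · simp [hx, hv.1]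
    · rw [add_sub_cancel_left]; exact hv
  -- the derivative of the return map
  have hFc : ∀ x : E (d + 1), x 0 = 0 → ContinuousAt G x := by
    intro x hx
    have h1 : ContinuousAt F x := (hF.smooth.contDiffAt ((isOpen_lt (by fun_prop)
      continuous_const).mem_nhds (hS0 x hx))).continuousAt
    exact (hRm.1.continuous.comp hQ.mod.1.continuous).continuousAt.comp h1
  have hgerm : ∀ x ∈ MSPt d q, ∃ e ∈ Ch (d + 1) M, T x ∈ e.source ∧ e (T x) = x ∧
      ∃ (A : E (d + 1) →L[ℝ] E (d + 1)) (lam : ℝ),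
        HasFDerivAt (e ∘ g₀^[m * j] ∘ e.symm) A x ∧ |lam| < 1 ∧
        Tri A lam (fun i => (1 - η * Real.cos (2 * Real.pi * q i * x i.succ)) ^ j) := by
    intro x hx
    obtain ⟨-, ⟨v, hv, hjv⟩, -, ⟨A, lam, hA, hlam, hTri⟩, -⟩ := hder x hx
    have hx0 : x 0 = 0 := hMS0 x hx
    obtain ⟨e₀, he₀0, he₀⟩ := hTe 0 hw
    obtain ⟨e, heCh, hetar, hball, heT⟩ := he₀ x (by rw [hx0, abs_zero])
    have hxb : x ∈ ball x e₀ := mem_ball_self he₀0
    have hTx : T x = e.symm x := heT x hxb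
    have hxt : x ∈ e.target := by rw [hetar]; exact hxb
    have hsrc : T x ∈ e.source := by rw [hTx]; exact e.map_target hxt
    have heTx : e (T x) = x := by rw [hTx]; exact e.right_inv hxt
    refine ⟨e, heCh, hsrc, heTx, A, lam, ?_, hlam, hTri⟩
    have h1 : HasFDerivAt (fun y => G^[j] y - v) A x := hA.sub_const v
    refine h1.congr_of_eventuallyEq ?_
    have h2 : ∀ᶠ y in 𝓝 x, ∀ i < j, G^[i] y ∈ Strip d w₁ := by
      have h3 : ∀ i ∈ Finset.range j, ∀ᶠ y in 𝓝 x, G^[i] y ∈ Strip d w₁ := by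
        intro i _
        obtain ⟨hc, h0⟩ := cont_iter hFc hG0 i x hx0
        exact hc.eventually ((isOpen_lt (by fun_prop) continuous_const).mem_nhds (hS0 _ h0))
      have h4 := (Filter.eventually_all_finset (Finset.range j)).2 h3
      filter_upwards [h4] with y hy i hi
      exact hy i (Finset.mem_range.2 hi)
    have h5 : ∀ᶠ y in 𝓝 x, G^[j] y - v ∈ ball x e₀ := by
      have h6 : ContinuousAt (fun y => G^[j] y - v) x := h1.continuousAt
      refine h6.eventually (isOpen_ball.mem_nhds ?_)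
      have hjv' : G^[j] x = x + v := hjv
      show G^[j] x - v ∈ ball x e₀
      rw [hjv', add_sub_cancel_right]
      exact hxb
    filter_upwards [h2, h5, isOpen_ball.mem_nhds hxb] with y hy2 hy5 hyb
    simp only [Function.comp_apply]
    rw [← heT y hyb, iter_lift hgG j y hy2]
    have h7 : T (G^[j] y) = T (G^[j] y - v) := by
      have h8 : G^[j] y - v ∈ Strip d w := hball hy5
      have h9 : G^[j] y ∈ Strip d w := by
        have h10 : |(G^[j] y - v) 0| < w := h8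
        rw [PiLp.sub_apply, hv.1, sub_zero] at h10
        exact h10
      refine (hT.2.2 _ h9 _ h8).2 ?_
      rw [sub_sub_cancel]
      exact hv
    rw [h7, heT _ hy5]
    exact e.right_inv (by rw [hetar]; exact hy5)
  have hη0 := hQ.pos
  have hη1 := hQ.le
  -- the sink
  have h0MS : (0 : E (d + 1)) ∈ MSPt d q := ⟨rfl, fun i => ⟨0, by simp⟩⟩
  have hsink : ∃ e ∈ Ch (d + 1) M, T 0 ∈ e.source ∧
      ‖fderiv ℝ (e ∘ g₀^[m * j] ∘ e.symm) (e (T 0))‖ < 1 := by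
    obtain ⟨e, he, hs, he0, A, lam, hA, hlam, hTri⟩ := hgerm 0 h0MS
    obtain ⟨S, hS⟩ := (hTRI d A lam _ hTri hlam (fun i => by
      simp only [PiLp.zero_apply, mul_zero, Real.cos_zero, mul_one]
      exact pow_nonneg (by linarith) _)).1 (fun i => by
      simp only [PiLp.zero_apply, mul_zero, Real.cos_zero, mul_one]
      exact pow_lt_one₀ (by linarith) (by linarith) (by omega))
    set e₁ : OpenPartialHomeomorph M (E (d + 1)) := e.trans S.toHomeomorph.toOpenPartialHomeomorph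
      with he₁
    refine ⟨e₁, chs (d + 1) M e S he, by simp [he₁, hs], ?_⟩
    have he₁0 : e₁ (T 0) = 0 := by simp [he₁, he0]
    have h3 : HasFDerivAt ((e ∘ g₀^[m * j] ∘ e.symm) ∘ S.symm)
        (A ∘L (S.symm : E (d + 1) →L[ℝ] E (d + 1))) 0 := by
      refine HasFDerivAt.comp 0 ?_ S.symm.hasFDerivAt
      rw [map_zero]
      exact hA
    have hfd : HasFDerivAt (e₁ ∘ g₀^[m * j] ∘ e₁.symm)
        ((S : E (d + 1) →L[ℝ] E (d + 1)) ∘L A ∘L (S.symm : E (d + 1) →L[ℝ] E (d + 1)))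
        (e₁ (T 0)) := by
      rw [he₁0]
      exact S.hasFDerivAt.comp 0 h3
    rw [hfd.fderiv]
    exact hS
  -- the other periodic points
  have hsad : ∀ y ∈ P, (∃ i : ℕ, g₀^[i] y = T 0) ∨ Saddle (d + 1) g₀^[m * j] y := by
    intro y hy
    obtain ⟨x, hx, rfl⟩ := (hmemP y).1 hy
    obtain ⟨-, ⟨v, hv, hjv⟩, -, -, hcos⟩ := hder x hx
    have hx0 : x 0 = 0 := hMS0 x hx
    by_cases hall : ∀ i : Fin d, Real.cos (2 * Real.pi * q i * x i.succ) = 1
    · obtain ⟨k, hk⟩ := hcos hall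
      refine Or.inl ⟨m * k, ?_⟩
      rw [hgk k x hx0]
      have := hLat 0 rfl _ hk
      rw [zero_add] at this
      exact this
    · push Not at hall
      obtain ⟨i₀, hi₀⟩ := hall
      have hcos' : ∀ i : Fin d, Real.cos (2 * Real.pi * q i * x i.succ) = 1 ∨
          Real.cos (2 * Real.pi * q i * x i.succ) = -1 := by
        intro i
        obtain ⟨k, hk⟩ := hx.2 i
        have h1 : 2 * Real.pi * q i * x i.succ = k * Real.pi := by
          rw [← hk]; ring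
        rw [h1]
        rcases Int.even_or_odd k with ⟨l, hl⟩ | ⟨l, hl⟩
        · left
          have h2 : (k : ℝ) * Real.pi = l * (2 * Real.pi) := by rw [hl]; push_cast; ring
          rw [h2, Real.cos_int_mul_two_pi]
        · right
          have h2 : (k : ℝ) * Real.pi = Real.pi + l * (2 * Real.pi) := by rw [hl]; push_cast; ring
          rw [h2, Real.cos_add_int_mul_two_pi, Real.cos_pi]
      obtain ⟨e, he, hs, hex, A, lam, hA, hlam, hTri⟩ := hgerm x hx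
      refine Or.inr ⟨?_, e, he, hs, ?_⟩
      · rw [hgk j x hx0, hjv]
        exact hLat x hx0 v hv
      · rw [hex, hA.fderiv]
        refine (hTRI d A lam _ hTri hlam (fun i => ?_)).2 (fun i => ?_) ⟨i₀, ?_⟩
        · refine pow_nonneg ?_ _
          rcases hcos' i with h | h <;> rw [h] <;> linarith
        · rcases hcos' i with h | h
          · simp only [h, mul_one]
            exact (pow_lt_one₀ (by linarith) (by linarith) (by omega)).ne
          · simp only [h]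
            refine (one_lt_pow₀ (by linarith) (by omega)).ne'
        · have h : Real.cos (2 * Real.pi * q i₀ * x i₀.succ) = -1 := by
            rcases hcos' i₀ with h | h
            · exact absurd h hi₀
            · exact h
          simp only [h]
          exact one_lt_pow₀ (by linarith) (by omega)
  -- the ball
  set Bs : Set M := T '' {x | |x 0| ≤ ρ} with hBs
  have hBsc : IsCompact Bs := by
    refine hTK ρ (by linarith) _ (isClosed_le (by fun_prop) continuous_const) (fun x hx => hx) ?_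
    intro x hx v hv
    show |(x + v) 0| ≤ ρ
    rw [PiLp.add_apply, hv.1, add_zero]; exact hx
  have hBsK : Bs ⊆ interior K := by
    rintro _ ⟨x, hx, rfl⟩
    exact hOint ⟨x, ⟨lt_of_le_of_lt hx (by linarith), htr2 x hx⟩, rfl⟩
  have hBsR : ∀ y ∈ Bs, ψR y ∈ Bs := by
    rintro _ ⟨x, hx, rfl⟩
    have hx' : |x 0| ≤ ρ := hx
    have hxS : x ∈ Strip d w := lt_of_le_of_lt hx' (by linarith)
    rw [(hψs x hxS).2]
    refine ⟨L x, ?_, rfl⟩
    show |(R (Q x)) 0| ≤ ρ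
    rw [hR, radT_zero, hQ.zero, abs_mul]
    have h1 := hprof.nonneg (x 0 ^ 2 / ρ ^ 2)
    have h2 := hprof.le_one (x 0 ^ 2 / ρ ^ 2)
    have h3 := hprof.κ_le
    have h4 : |1 - κ * a (x 0 ^ 2 / ρ ^ 2)| ≤ 1 := by
      rw [abs_le]
      constructor <;> nlinarith
    calc |1 - κ * a (x 0 ^ 2 / ρ ^ 2)| * |x 0| ≤ 1 * |x 0| :=
          mul_le_mul_of_nonneg_right h4 (abs_nonneg _)
      _ ≤ ρ := by rw [one_mul]; exact hx'
  refine hSTEPC (d + 1) M μ ⊤ r f g₀ ψR U m j Λ K Bs P (T 0) V le_top le_top hμ hf hfμ hψd rfl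
    hg₀U hU hm hj1 hΛc hΛm hKc hΛK hVK ?_ ?_ ?_ ((hmemP _).2 ⟨0, h0MS, rfl⟩) hsink hsad hBsc hBsK
    hBsR ?_
  · rintro _ ⟨x, hx, rfl⟩
    rw [hgG x (hKhS x hx)]
    exact hOint ⟨G x, (hGK x hx).1, rfl⟩
  · rintro _ ⟨x, hx, rfl⟩ hxP
    have hxMS : x ∉ MSPt d q := fun h => hxP ((hmemP _).2 ⟨x, h, rfl⟩)
    rw [hgG x (hKhS x hx), hVT _ (hww₁ (hKhS _ (hOKh (hGK x hx).1))), hVT _ (hww₁ (hKhS x hx))]
    exact (hGK x hx).2 hxMS
  · intro y hy
    obtain ⟨x, hx, rfl⟩ := (hmemP y).1 hy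
    obtain ⟨hGx, ⟨v, hv, hjv⟩, -, -, -⟩ := hder x hx
    have hx0 : x 0 = 0 := hMS0 x hx
    refine ⟨⟨x, hx0, rfl⟩, ?_, ?_⟩
    · rw [hgG x (hS0 x hx0)]
      exact (hmemP _).2 ⟨G x, hGx, rfl⟩
    · rw [hgk j x hx0, hjv]
      exact hLat x hx0 v hv
  · intro A hA hAB
    refine (hVOLT d M μ w (w / 2) T L hT huT (half_lt_self hw) hLmod hLn2).1 A hA
      (fun x hx hxA => ?_)
    have hxρ : ρ < |x 0| := by
      by_contra hlt
      exact Set.disjoint_left.1 hAB hxA ⟨x, not_lt.1 hlt, rfl⟩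
    have h1 : L =ᶠ[𝓝 x] R := by
      have h2 : ∀ᶠ y in 𝓝 x, ρ < |y 0| :=
        (isOpen_lt continuous_const (by fun_prop)).mem_nhds hxρ
      filter_upwards [h2] with y hy
      simp only [hL]
      rw [hQ.mod.2.2 y (by linarith)]
    rw [h1.fderiv_eq]
    exact hprof.det d ρ κ hρ hκpos.le hκκ x hxρ.le

end Pool.Agent.PalT
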