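import Pool.Agent.PalT.TargetsF

/-!
# Fields: mean zero of the leading coefficient
-/

set_option autoImplicit false

open scoped Manifold ContDiff Topology
open MeasureTheory Set Filter Asymptotics Metric

namespace Pool.Agent.PalT

open Pool.Agent.Pal Pool.Agent.Palis Pool.Agent.PalF

/-- coordinates: the first coordinate and the angular coordinates -/
noncomputable def MEANF_e (d : ℕ) : E (d + 1) ≃ᵐ ℝ × (Fin d → ℝ) :=
  (MeasurableEquiv.toLp 2 (Fin (d + 1) → ℝ)).symm.trans
    (MeasurableEquiv.piFinSuccAbove (fun _ : Fin (d + 1) => ℝ) 0)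

lemma MEANF_mp (d : ℕ) : MeasurePreserving (MEANF_e d) volume volume :=
  (volume_preserving_piFinSuccAbove (fun _ : Fin (d + 1) => ℝ) 0).comp
    (EuclideanSpace.volume_preserving_symm_measurableEquiv_toLp (Fin (d + 1)))

lemma MEANF_symm (d : ℕ) (p : ℝ × (Fin d → ℝ)) :
    (MEANF_e d).symm p = WithLp.toLp 2 (Fin.cons p.1 p.2 : Fin (d + 1) → ℝ) := by
  apply (MEANF_e d).injective
  rw [MeasurableEquiv.apply_symm_apply]
  unfold MEANF_e
  rw [MeasurableEquiv.trans_apply]
  apply Prod.ext
  · simp [MeasurableEquiv.piFinSuccAbove, Fin.insertNthEquiv]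
  · funext i
    simp [MeasurableEquiv.piFinSuccAbove, Fin.insertNthEquiv]

lemma MEANF_zero (d : ℕ) (p : ℝ × (Fin d → ℝ)) : ((MEANF_e d).symm p) 0 = p.1 := by
  rw [MEANF_symm]; simp

lemma MEANF_succ (d : ℕ) (p : ℝ × (Fin d → ℝ)) : th ((MEANF_e d).symm p) = p.2 := by
  rw [MEANF_symm]
  funext i
  simp [th]

lemma MEANF_cont (d : ℕ) : Continuous (fun p : ℝ × (Fin d → ℝ) => (MEANF_e d).symm p) := by
  have h : (fun p : ℝ × (Fin d → ℝ) => (MEANF_e d).symm p)
      = fun p => WithLp.toLp 2 (Fin.cons p.1 p.2 : Fin (d + 1) → ℝ) := by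
    funext p; exact MEANF_symm d p
  rw [h]
  apply (PiLp.continuous_toLp 2 (fun _ : Fin (d + 1) => ℝ)).comp
  apply continuous_pi
  intro i
  refine Fin.cases ?_ (fun j => ?_) i
  · simpa using continuous_fst
  · have h2 : Continuous (fun p : ℝ × (Fin d → ℝ) => p.2 j) :=
      (continuous_apply j).comp continuous_snd
    simpa using h2

/-- the half-open cube -/
def MEANF_Q (d : ℕ) : Set (Fin d → ℝ) := {y | ∀ i, 0 ≤ y i ∧ y i < 1}

lemma MEANF_Q_eq (d : ℕ) : MEANF_Q d = Set.univ.pi (fun _ => Ico (0 : ℝ) 1) := by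
  ext y; simp [MEANF_Q, Set.mem_pi]

lemma MEANF_Q_meas (d : ℕ) : MeasurableSet (MEANF_Q d) := by
  rw [MEANF_Q_eq]
  exact MeasurableSet.univ_pi (fun _ => measurableSet_Ico)

lemma MEANF_Q_vol (d : ℕ) : volume (MEANF_Q d) = 1 := by
  rw [MEANF_Q_eq, Real.volume_pi_Ico]
  simp

/-- integrals over the cell in coordinates -/
lemma MEANF_int (d : ℕ) (w : ℝ) (G : E (d + 1) → ℝ) :
    ∫ x in Cell d w, G x = ∫ p in Ioo (-w) w ×ˢ MEANF_Q d, G ((MEANF_e d).symm p) := by
  have h := (MEANF_mp d).symm (MEANF_e d)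
  rw [← h.setIntegral_preimage_emb (MEANF_e d).symm.measurableEmbedding G (Cell d w)]
  congr 2
  ext p
  have h1 : ((MEANF_e d).symm p) 0 = p.1 := MEANF_zero d p
  have h2 : ∀ i : Fin d, ((MEANF_e d).symm p) i.succ = p.2 i := fun i => congrFun (MEANF_succ d p) i
  constructor
  · intro hp
    obtain ⟨ha, hb⟩ := hp
    rw [h1] at ha
    refine ⟨?_, ?_⟩
    · exact abs_lt.mp ha
    · intro i
      have := hb i
      rw [h2 i] at this
      exact this
  · intro hp
    obtain ⟨ha, hb⟩ := hp
    refine ⟨?_, ?_⟩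
    · rw [h1]; exact abs_lt.mpr ha
    · intro i
      rw [h2 i]
      exact hb i

lemma MEANF_intb (d : ℕ) (b : (Fin d → ℝ) → ℝ) :
    ∫ y in MEANF_Q d, b y = ∫ y in Icc (0 : Fin d → ℝ) 1, b y := by
  rw [MEANF_Q_eq]
  apply setIntegral_congr_set
  have h := Measure.univ_pi_Ico_ae_eq_Icc (μ := fun _ : Fin d => (volume : Measure ℝ))
    (f := (0 : Fin d → ℝ)) (g := (1 : Fin d → ℝ))
  exact h

/-- the bump function on `(1, 2)` -/
noncomputable def MEANF_b : ContDiffBump (3 / 2 : ℝ) :=
  ⟨1 / 4, 1 / 2, by norm_num, by norm_num⟩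

lemma MEANF_b_smooth : ContDiff ℝ ∞ (MEANF_b : ℝ → ℝ) := MEANF_b.contDiff

lemma MEANF_b_zero {t : ℝ} (h : ¬ (1 < t ∧ t < 2)) : MEANF_b t = 0 := by
  apply MEANF_b.zero_of_le_dist
  have : MEANF_b.rOut = 1 / 2 := rfl
  rw [this, Real.dist_eq]
  by_contra hc
  push Not at hc
  apply h
  rw [abs_lt] at hc
  constructor <;> linarith [hc.1, hc.2]

lemma MEANF_b_deriv {t : ℝ} (h : MEANF_b t = 0) : deriv (MEANF_b : ℝ → ℝ) t = 0 := by
  apply IsLocalMin.deriv_eq_zero
  apply Filter.Eventually.of_forall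
  intro y
  show MEANF_b t ≤ MEANF_b y
  rw [h]
  exact MEANF_b.nonneg

lemma MEANF_b_deriv' {t : ℝ} (h : ¬ (1 < t ∧ t < 2)) : deriv (MEANF_b : ℝ → ℝ) t = 0 :=
  MEANF_b_deriv (MEANF_b_zero h)

lemma MEANF_b_support {t : ℝ} (h : deriv (MEANF_b : ℝ → ℝ) t ≠ 0) : 1 < t ∧ t < 2 := by
  by_contra hc
  exact h (MEANF_b_deriv' hc)

lemma MEANF_d_smooth : ContDiff ℝ ∞ (deriv (MEANF_b : ℝ → ℝ)) :=
  MEANF_b_smooth.deriv' 

/-- the derivative of the bump function is bounded and Lipschitz -/
lemma MEANF_bound : ∃ K : ℝ, 0 < K ∧ (∀ t, |deriv (MEANF_b : ℝ → ℝ) t| ≤ K) ∧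
    ∀ t t', |deriv (MEANF_b : ℝ → ℝ) t - deriv (MEANF_b : ℝ → ℝ) t'| ≤ K * |t - t'| := by
  have hcs : HasCompactSupport (MEANF_b : ℝ → ℝ) := MEANF_b.hasCompactSupport
  have hcs1 : HasCompactSupport (deriv (MEANF_b : ℝ → ℝ)) := hcs.deriv
  have hcs2 : HasCompactSupport (deriv (deriv (MEANF_b : ℝ → ℝ))) := hcs1.deriv
  have hc1 : Continuous (deriv (MEANF_b : ℝ → ℝ)) := MEANF_d_smooth.continuous
  have hc2 : Continuous (deriv (deriv (MEANF_b : ℝ → ℝ))) :=
    (MEANF_d_smooth.deriv' : ContDiff ℝ ∞ _).continuous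
  obtain ⟨K1, h1⟩ := hc1.bounded_above_of_compact_support hcs1
  obtain ⟨K2, h2⟩ := hc2.bounded_above_of_compact_support hcs2
  have h10 : 0 ≤ K1 := le_trans (norm_nonneg _) (h1 0)
  have h20 : 0 ≤ K2 := le_trans (norm_nonneg _) (h2 0)
  refine ⟨K1 + K2 + 1, by linarith, ?_, ?_⟩
  · intro t
    have := h1 t
    rw [Real.norm_eq_abs] at this
    linarith
  · intro t t'
    have hd : ∀ x ∈ (univ : Set ℝ), DifferentiableAt ℝ (deriv (MEANF_b : ℝ → ℝ)) x :=
      fun x _ => (MEANF_d_smooth.differentiable (by simp)) x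
    have h3 := Convex.norm_image_sub_le_of_norm_deriv_le (C := K2) hd (fun x _ => h2 x)
      convex_univ (mem_univ t') (mem_univ t)
    rw [Real.norm_eq_abs, Real.norm_eq_abs] at h3
    refine le_trans h3 ?_
    exact mul_le_mul_of_nonneg_right (by linarith) (abs_nonneg _)

/-- the moment of the derivative is not zero -/
lemma MEANF_moment (N : ℕ) : ∫ t : ℝ, deriv (MEANF_b : ℝ → ℝ) t * t ^ (N + 1) ≠ 0 := by
  have hcs : HasCompactSupport (MEANF_b : ℝ → ℝ) := MEANF_b.hasCompactSupport
  have hb : Continuous (MEANF_b : ℝ → ℝ) := MEANF_b.continuous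
  have hd : Continuous (deriv (MEANF_b : ℝ → ℝ)) := MEANF_d_smooth.continuous
  have h1 : ∫ t : ℝ, t ^ (N + 1) * deriv (MEANF_b : ℝ → ℝ) t
      = - ∫ t : ℝ, ((N + 1 : ℕ) * t ^ N) * MEANF_b t := by
    apply integral_mul_deriv_eq_deriv_mul_of_integrable
      (u := fun t : ℝ => t ^ (N + 1)) (u' := fun t : ℝ => ((N + 1 : ℕ) * t ^ N))
      (v := (MEANF_b : ℝ → ℝ)) (v' := deriv (MEANF_b : ℝ → ℝ))
    · intro t _
      simpa using hasDerivAt_pow (N + 1) t
    · intro t _
      exact ((MEANF_b_smooth.differentiable (by simp)) t).hasDerivAt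
    · exact Continuous.integrable_of_hasCompactSupport ((continuous_pow (N + 1)).mul hd)
        (hcs.deriv.mul_left)
    · exact Continuous.integrable_of_hasCompactSupport
        ((continuous_const.mul (continuous_pow N)).mul hb) hcs.mul_left
    · exact Continuous.integrable_of_hasCompactSupport ((continuous_pow (N + 1)).mul hb)
        hcs.mul_left
  have h2 : 0 < ∫ t : ℝ, ((N + 1 : ℕ) * t ^ N) * MEANF_b t := by
    apply Continuous.integral_pos_of_hasCompactSupport_nonneg_nonzero (x := 3 / 2)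
    · exact (continuous_const.mul (continuous_pow N)).mul hb
    · exact hcs.mul_left
    · intro t
      by_cases h : 1 < t ∧ t < 2
      · have : 0 < t := by linarith [h.1]
        have h3 := MEANF_b.nonneg (x := t)
        show 0 ≤ ((N + 1 : ℕ) * t ^ N) * MEANF_b t
        positivity
      · show 0 ≤ ((N + 1 : ℕ) * t ^ N) * MEANF_b t
        rw [MEANF_b_zero h, mul_zero]
    · have h4 : MEANF_b (3 / 2 : ℝ) = 1 := MEANF_b.one_of_mem_closedBall
        (mem_closedBall_self MEANF_b.rIn_pos.le)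
      rw [h4]
      positivity
  have h5 : ∫ t : ℝ, deriv (MEANF_b : ℝ → ℝ) t * t ^ (N + 1)
      = ∫ t : ℝ, t ^ (N + 1) * deriv (MEANF_b : ℝ → ℝ) t := by
    congr 1; funext t; ring
  rw [h5, h1]
  linarith

/-- the value of the derivative of the test function along the field -/
lemma MEANF_fd {d : ℕ} {w w' C w4 s : ℝ} {Y : E (d + 1) → E (d + 1)}
    {z : E (d + 1) → ℝ} (χ : ContDiffBump (0 : ℝ)) (hin : χ.rIn = w4 / 2) (hout : χ.rOut = w4)
    (_hw4 : 0 < w4) (hw4' : w4 ≤ w' / 2) (hC4 : C * w4 ≤ 1 / 2) (_hww : w' ≤ w) (hs : 0 < s)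
    (hs4 : s ≤ w4 / 8) (hz : ContDiff ℝ ∞ z)
    (h1 : ∀ x ∈ Strip d w', |z x - x 0| ≤ C * x 0 ^ 2) (x : E (d + 1)) :
    fderiv ℝ (fun x => MEANF_b (z x / s) * χ (x 0)) x (Y x)
      = if |x 0| < 4 * s then deriv (MEANF_b : ℝ → ℝ) (z x / s) / s * fderiv ℝ z x (Y x)
        else 0 := by
  have hzero : ∀ y : E (d + 1), MEANF_b (z y / s) * χ (y 0) = 0 →
      fderiv ℝ (fun x => MEANF_b (z x / s) * χ (x 0)) y = 0 := by
    intro y hy
    apply IsLocalMin.fderiv_eq_zero
    apply Filter.Eventually.of_forall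
    intro y'
    show MEANF_b (z y / s) * χ (y 0) ≤ MEANF_b (z y' / s) * χ (y' 0)
    rw [hy]
    exact mul_nonneg MEANF_b.nonneg χ.nonneg
  split_ifs with hx
  · -- near the torus the cut-off is one
    have hx2 : |x 0| < w4 / 2 := by linarith
    have hopen : IsOpen {y : E (d + 1) | |y 0| < w4 / 2} := by
      apply isOpen_lt _ continuous_const
      exact (EuclideanSpace.proj (0 : Fin (d + 1)) : E (d + 1) →L[ℝ] ℝ).continuous.abs
    have hev : (fun x : E (d + 1) => MEANF_b (z x / s) * χ (x 0)) =ᶠ[𝓝 x]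
        fun x => MEANF_b (z x / s) := by
      filter_upwards [hopen.mem_nhds hx2] with y hy
      have : χ (y 0) = 1 := by
        apply χ.one_of_mem_closedBall
        rw [hin, mem_closedBall, dist_zero_right, Real.norm_eq_abs]
        exact le_of_lt hy
      rw [this, mul_one]
    rw [hev.fderiv_eq]
    have hzd : HasFDerivAt z (fderiv ℝ z x) x := (hz.differentiable (by simp) x).hasFDerivAt
    have hzs : HasFDerivAt (fun x => z x / s) ((1 / s) • fderiv ℝ z x) x := by
      have := hzd.const_mul (1 / s)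
      refine this.congr_of_eventuallyEq ?_
      apply Filter.Eventually.of_forall
      intro y
      show z y / s = 1 / s * z y
      ring
    have hb : HasDerivAt (MEANF_b : ℝ → ℝ) (deriv (MEANF_b : ℝ → ℝ) (z x / s)) (z x / s) :=
      ((MEANF_b_smooth.differentiable (by simp)) _).hasDerivAt
    have hcomp := hb.comp_hasFDerivAt x hzs
    have hcomp' : HasFDerivAt (fun x => MEANF_b (z x / s))
        (deriv (MEANF_b : ℝ → ℝ) (z x / s) • (1 / s) • fderiv ℝ z x) x := hcomp
    rw [hcomp'.fderiv]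
    simp only [_root_.smul_apply, smul_eq_mul]
    ring
  · -- far from the torus the test function vanishes
    push Not at hx
    have h0 : MEANF_b (z x / s) * χ (x 0) = 0 := by
      by_cases hx4 : w4 ≤ |x 0|
      · have : χ (x 0) = 0 := by
          apply χ.zero_of_le_dist
          rw [hout, dist_zero_right, Real.norm_eq_abs]
          exact hx4
        rw [this, mul_zero]
      · push Not at hx4
        have hxs : x ∈ Strip d w' := by
          show |x 0| < w'
          linarith
        have h2 := h1 x hxs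
        have h3 : C * x 0 ^ 2 ≤ |x 0| / 2 := by
          have h4 : 0 ≤ |x 0| := abs_nonneg _
          have h5 : x 0 ^ 2 = |x 0| * |x 0| := by rw [← sq, sq_abs]
          by_cases hCn : 0 ≤ C
          · have : C * |x 0| ≤ C * w4 := mul_le_mul_of_nonneg_left hx4.le hCn
            rw [h5]
            nlinarith
          · push Not at hCn
            rw [h5]
            nlinarith [mul_nonneg h4 h4]
        have h6 : |x 0| / 2 ≤ |z x| := by
          have := abs_sub_abs_le_abs_sub (x 0) (z x)
          rw [abs_sub_comm] at this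
          linarith
        have h7 : ¬ (1 < z x / s ∧ z x / s < 2) := by
          rintro ⟨ha, hb⟩
          rw [lt_div_iff₀ hs] at ha
          rw [div_lt_iff₀ hs] at hb
          have h8 : |z x| = z x := abs_of_pos (by linarith)
          rw [h8] at h6
          linarith
        rw [MEANF_b_zero h7, zero_mul]
    rw [hzero x h0]
    simp

theorem meanf : T_MEANF := by
  intro d N w w' C om Y z b hL hN hw' hww hC hz hper hb h1 h2
  obtain ⟨K, hK, hK1, hK2⟩ := MEANF_bound
  -- parameters
  set w4 : ℝ := min (w' / 2) (1 / (2 * C)) with hw4d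
  have hw4 : 0 < w4 := lt_min (by linarith) (by positivity)
  have hw4' : w4 ≤ w' / 2 := min_le_left _ _
  have hC4 : C * w4 ≤ 1 / 2 := by
    have h3 : w4 ≤ 1 / (2 * C) := min_le_right _ _
    have h4 : C * w4 ≤ C * (1 / (2 * C)) := mul_le_mul_of_nonneg_left h3 hC.le
    have h5 : C * (1 / (2 * C)) = 1 / 2 := by field_simp
    linarith
  set χ : ContDiffBump (0 : ℝ) := ⟨w4 / 2, w4, by linarith, by linarith⟩ with hχ
  have hin : χ.rIn = w4 / 2 := rfl
  have hout : χ.rOut = w4 := rfl
  -- bound of b on the cube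
  obtain ⟨B, hB⟩ : ∃ B : ℝ, ∀ y ∈ Icc (0 : Fin d → ℝ) 1, |b y| ≤ B := by
    obtain ⟨B, hB⟩ := (isCompact_Icc (a := (0 : Fin d → ℝ)) (b := 1)).exists_bound_of_continuousOn
      hb.continuousOn
    exact ⟨B, fun y hy => by simpa using hB y hy⟩
  have hB0 : 0 ≤ B := le_trans (abs_nonneg _) (hB 0 (by simp))
  set M : ℝ := K * C * 4 ^ (N + 2) + K * C * B * 4 ^ (N + 3) with hM
  have hM0 : 0 ≤ M := by positivity
  set J : ℝ := ∫ t : ℝ, deriv (MEANF_b : ℝ → ℝ) t * t ^ (N + 1) with hJ
  -- the estimate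
  have main : ∀ s : ℝ, 0 < s → s ≤ w4 / 8 →
      |J * ∫ y in Icc (0 : Fin d → ℝ) 1, b y| ≤ 8 * M * s := by
    intro s hs hs4
    set φ : E (d + 1) → ℝ := fun x => MEANF_b (z x / s) * χ (x 0) with hφ
    have hproj : ContDiff ℝ ∞ (fun x : E (d + 1) => x 0) :=
      (EuclideanSpace.proj (0 : Fin (d + 1)) : E (d + 1) →L[ℝ] ℝ).contDiff
    have hφs : ContDiff ℝ ∞ φ :=
      (MEANF_b_smooth.comp (hz.div_const s)).mul ((χ.contDiff (n := ⊤)).comp hproj)
    have hφp : Per d φ := by
      intro x v hv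
      simp only [hφ]
      rw [hper x v hv]
      have : (x + v) 0 = x 0 := by
        have := hv.1
        simp [this]
      rw [this]
    have hφ0 : ∃ w'' : ℝ, w'' < w ∧ ∀ x, w'' ≤ |x 0| → φ x = 0 := by
      refine ⟨w4, by linarith, ?_⟩
      intro x hx
      simp only [hφ]
      have : χ (x 0) = 0 := by
        apply χ.zero_of_le_dist
        rw [hout, dist_zero_right, Real.norm_eq_abs]
        exact hx
      rw [this, mul_zero]
    have hdiv := hL.div φ hφs hφp hφ0
    -- the two integrands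
    set F : E (d + 1) → ℝ := fun x => fderiv ℝ φ x (Y x) with hF
    set H : E (d + 1) → ℝ := fun x =>
      (deriv (MEANF_b : ℝ → ℝ) (x 0 / s) / s * x 0 ^ (N + 1)) * b (th x) with hH
    have hFf : ∀ x, F x = if |x 0| < 4 * s then
        deriv (MEANF_b : ℝ → ℝ) (z x / s) / s * fderiv ℝ z x (Y x) else 0 := fun x =>
      MEANF_fd (Y := Y) χ hin hout hw4 hw4' hC4 hww hs hs4 hz h1 x
    have hH0 : ∀ x : E (d + 1), 4 * s ≤ |x 0| → H x = 0 := by
      intro x hx
      simp only [hH]
      have : ¬ (1 < x 0 / s ∧ x 0 / s < 2) := by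
        rintro ⟨ha, hb'⟩
        rw [lt_div_iff₀ hs] at ha
        rw [div_lt_iff₀ hs] at hb'
        rw [abs_of_pos (by linarith)] at hx
        linarith
      rw [MEANF_b_deriv' this]
      ring
    have hFH : ∀ x : E (d + 1), 4 * s ≤ |x 0| → F x - H x = 0 := by
      intro x hx
      rw [hFf, if_neg (not_lt.mpr hx), hH0 x hx, sub_zero]
    have hbd : ∀ x : E (d + 1), th x ∈ Icc (0 : Fin d → ℝ) 1 → |F x - H x| ≤ M * s ^ (N + 1) := by
      intro x hx
      by_cases hx4 : |x 0| < 4 * s
      · rw [hFf, if_pos hx4]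
        simp only [hH]
        have hxs : x ∈ Strip d w' := by
          show |x 0| < w'
          linarith
        have e1 := h1 x hxs
        have e2 := h2 x hxs
        set η' := deriv (MEANF_b : ℝ → ℝ) with hη'
        have e3 : η' (z x / s) / s * fderiv ℝ z x (Y x)
            - (η' (x 0 / s) / s * x 0 ^ (N + 1)) * b (th x)
            = η' (z x / s) / s * (fderiv ℝ z x (Y x) - b (th x) * x 0 ^ (N + 1))
              + (η' (z x / s) - η' (x 0 / s)) / s * (b (th x) * x 0 ^ (N + 1)) := by ring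
        rw [e3]
        have e4 : |η' (z x / s) / s * (fderiv ℝ z x (Y x) - b (th x) * x 0 ^ (N + 1))|
            ≤ K * C * 4 ^ (N + 2) * s ^ (N + 1) := by
          rw [abs_mul, abs_div, abs_of_pos hs]
          have a1 : |η' (z x / s)| / s ≤ K / s := div_le_div_of_nonneg_right (hK1 _) hs.le
          have a2 : |x 0| ^ (N + 2) ≤ (4 * s) ^ (N + 2) :=
            pow_le_pow_left₀ (abs_nonneg _) hx4.le _
          have a3 : |fderiv ℝ z x (Y x) - b (th x) * x 0 ^ (N + 1)| ≤ C * (4 * s) ^ (N + 2) :=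
            le_trans e2 (mul_le_mul_of_nonneg_left a2 hC.le)
          calc |η' (z x / s)| / s * |fderiv ℝ z x (Y x) - b (th x) * x 0 ^ (N + 1)|
              ≤ K / s * (C * (4 * s) ^ (N + 2)) :=
                mul_le_mul a1 a3 (abs_nonneg _) (by positivity)
            _ = K * C * 4 ^ (N + 2) * s ^ (N + 1) := by
                field_simp
                ring
        have e5 : |(η' (z x / s) - η' (x 0 / s)) / s * (b (th x) * x 0 ^ (N + 1))|
            ≤ K * C * B * 4 ^ (N + 3) * s ^ (N + 1) := by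
          rw [abs_mul, abs_div, abs_of_pos hs, abs_mul, abs_pow]
          have a1 : |η' (z x / s) - η' (x 0 / s)| ≤ K * (C * (4 * s) ^ 2 / s) := by
            refine le_trans (hK2 _ _) (mul_le_mul_of_nonneg_left ?_ hK.le)
            have : z x / s - x 0 / s = (z x - x 0) / s := by ring
            rw [this, abs_div, abs_of_pos hs]
            apply div_le_div_of_nonneg_right _ hs.le
            refine le_trans e1 (mul_le_mul_of_nonneg_left ?_ hC.le)
            rw [← sq_abs]
            exact pow_le_pow_left₀ (abs_nonneg _) hx4.le _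
          have a2 : |x 0| ^ (N + 1) ≤ (4 * s) ^ (N + 1) :=
            pow_le_pow_left₀ (abs_nonneg _) hx4.le _
          have a3 : |b (th x)| * |x 0| ^ (N + 1) ≤ B * (4 * s) ^ (N + 1) :=
            mul_le_mul (hB _ hx) a2 (by positivity) hB0
          calc |η' (z x / s) - η' (x 0 / s)| / s * (|b (th x)| * |x 0| ^ (N + 1))
              ≤ K * (C * (4 * s) ^ 2 / s) / s * (B * (4 * s) ^ (N + 1)) :=
                mul_le_mul (div_le_div_of_nonneg_right a1 hs.le) a3 (by positivity)
                  (by positivity)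
            _ = K * C * B * 4 ^ (N + 3) * s ^ (N + 1) := by
                field_simp
                ring
        refine le_trans (abs_add_le _ _) ?_
        rw [hM]
        linarith
      · push Not at hx4
        rw [hFH x hx4, abs_zero]
        positivity
    -- transfer to coordinates
    set S : Set (ℝ × (Fin d → ℝ)) := Ioo (-w) w ×ˢ MEANF_Q d with hS
    set S4 : Set (ℝ × (Fin d → ℝ)) := Ioo (-(4 * s)) (4 * s) ×ˢ MEANF_Q d with hS4
    have hSm : MeasurableSet S := measurableSet_Ioo.prod (MEANF_Q_meas d)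
    have hS4m : MeasurableSet S4 := measurableSet_Ioo.prod (MEANF_Q_meas d)
    have hsub : S4 ⊆ S := by
      apply prod_mono _ (subset_refl _)
      apply Ioo_subset_Ioo <;> linarith
    have hQI : ∀ p ∈ S, th ((MEANF_e d).symm p) ∈ Icc (0 : Fin d → ℝ) 1 := by
      intro p hp
      rw [MEANF_succ]
      exact ⟨fun i => (hp.2 i).1, fun i => (hp.2 i).2.le⟩
    have hvS : volume S < ⊤ := by
      rw [hS, Measure.volume_eq_prod, Measure.prod_prod, MEANF_Q_vol, mul_one, Real.volume_Ioo]
      exact ENNReal.ofReal_lt_top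
    have hHc : Continuous H := by
      simp only [hH]
      have c1 : Continuous (fun x : E (d + 1) => x 0) := hproj.continuous
      have c2 : Continuous (fun x : E (d + 1) => th x) := by
        apply continuous_pi
        intro i
        exact (EuclideanSpace.proj (i.succ : Fin (d + 1)) : E (d + 1) →L[ℝ] ℝ).continuous
      exact (((MEANF_d_smooth.continuous.comp (c1.div_const s)).div_const s).mul
        (c1.pow (N + 1))).mul (hb.comp c2)
    have hFc : ContinuousOn F (Strip d w) := by
      simp only [hF]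
      have c1 : Continuous (fderiv ℝ φ) := hφs.continuous_fderiv (by simp)
      exact c1.continuousOn.clm_apply hL.smooth.continuousOn
    have hmaps : MapsTo (fun p => (MEANF_e d).symm p) S (Strip d w) := by
      intro p hp
      show |((MEANF_e d).symm p) 0| < w
      rw [MEANF_zero]
      exact abs_lt.mpr hp.1
    have hHm : AEStronglyMeasurable (fun p => H ((MEANF_e d).symm p)) (volume.restrict S) :=
      (hHc.comp (MEANF_cont d)).aestronglyMeasurable
    have hFm : AEStronglyMeasurable (fun p => F ((MEANF_e d).symm p)) (volume.restrict S) :=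
      (hFc.comp (MEANF_cont d).continuousOn hmaps).aestronglyMeasurable hSm
    haveI hfin : IsFiniteMeasure (volume.restrict S) := ⟨by
      rw [Measure.restrict_apply_univ]; exact hvS⟩
    have hHi : IntegrableOn (fun p => H ((MEANF_e d).symm p)) S volume := by
      apply Integrable.of_bound hHm (K / s * (4 * s) ^ (N + 1) * B)
      rw [ae_restrict_iff' hSm]
      apply Filter.Eventually.of_forall
      intro p hp
      rw [Real.norm_eq_abs]
      by_cases hx4 : |((MEANF_e d).symm p) 0| < 4 * s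
      · simp only [hH]
        rw [abs_mul, abs_mul, abs_div, abs_of_pos hs, abs_pow]
        apply mul_le_mul _ (hB _ (hQI p hp)) (abs_nonneg _) (by positivity)
        apply mul_le_mul _ (pow_le_pow_left₀ (abs_nonneg _) hx4.le _) (by positivity)
          (by positivity)
        exact div_le_div_of_nonneg_right (hK1 _) hs.le
      · push Not at hx4
        rw [hH0 _ hx4, abs_zero]
        positivity
    have hDi : IntegrableOn (fun p => F ((MEANF_e d).symm p) - H ((MEANF_e d).symm p)) S
        volume := by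
      apply Integrable.of_bound (hFm.sub hHm) (M * s ^ (N + 1))
      rw [ae_restrict_iff' hSm]
      apply Filter.Eventually.of_forall
      intro p hp
      rw [Real.norm_eq_abs]
      exact hbd _ (hQI p hp)
    have hFi : IntegrableOn (fun p => F ((MEANF_e d).symm p)) S volume := by
      have := hDi.add hHi
      refine this.congr_fun ?_ hSm
      intro p _
      simp
    have hF0 : ∫ p in S, F ((MEANF_e d).symm p) = 0 := by
      rw [hS, ← MEANF_int d w F]
      exact hdiv
    have hHI : ∫ p in S, H ((MEANF_e d).symm p)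
        = s ^ (N + 1) * (J * ∫ y in Icc (0 : Fin d → ℝ) 1, b y) := by
      have e1 : ∀ p : ℝ × (Fin d → ℝ), H ((MEANF_e d).symm p)
          = (deriv (MEANF_b : ℝ → ℝ) (p.1 / s) / s * p.1 ^ (N + 1)) * b p.2 := by
        intro p
        simp only [hH]
        rw [MEANF_zero, MEANF_succ]
      have e2 : ∫ p in S, H ((MEANF_e d).symm p)
          = ∫ p in S, (deriv (MEANF_b : ℝ → ℝ) (p.1 / s) / s * p.1 ^ (N + 1)) * b p.2 :=
        integral_congr_ae (Filter.Eventually.of_forall e1)
      rw [e2, hS]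
      have e3 := setIntegral_prod_mul (μ := (volume : Measure ℝ))
        (ν := (volume : Measure (Fin d → ℝ)))
        (fun t : ℝ => deriv (MEANF_b : ℝ → ℝ) (t / s) / s * t ^ (N + 1)) b
        (Ioo (-w) w) (MEANF_Q d)
      rw [Measure.volume_eq_prod]
      rw [e3, MEANF_intb]
      have e4 : ∫ t in Ioo (-w) w, deriv (MEANF_b : ℝ → ℝ) (t / s) / s * t ^ (N + 1)
          = ∫ t : ℝ, deriv (MEANF_b : ℝ → ℝ) (t / s) / s * t ^ (N + 1) := by
        apply setIntegral_eq_integral_of_forall_compl_eq_zero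
        intro t ht
        have : ¬ (1 < t / s ∧ t / s < 2) := by
          rintro ⟨ha, hb'⟩
          rw [lt_div_iff₀ hs] at ha
          rw [div_lt_iff₀ hs] at hb'
          apply ht
          constructor <;> linarith
        rw [MEANF_b_deriv' this]
        ring
      have e5 : ∫ t : ℝ, deriv (MEANF_b : ℝ → ℝ) (t / s) / s * t ^ (N + 1)
          = s ^ (N + 1) * J := by
        have e6 : ∀ t : ℝ, deriv (MEANF_b : ℝ → ℝ) (t / s) / s * t ^ (N + 1)
            = s ^ N * (fun u : ℝ => deriv (MEANF_b : ℝ → ℝ) u * u ^ (N + 1)) (t / s) := by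
          intro t
          show _ = s ^ N * (deriv (MEANF_b : ℝ → ℝ) (t / s) * (t / s) ^ (N + 1))
          rw [div_pow, pow_succ s N]
          have hsN : s ^ N ≠ 0 := (pow_pos hs N).ne'
          have hs' : s ≠ 0 := hs.ne'
          generalize t ^ (N + 1) = T
          generalize deriv (MEANF_b : ℝ → ℝ) (t / s) = D
          field_simp
        rw [integral_congr_ae (Filter.Eventually.of_forall e6)]
        rw [integral_const_mul]
        rw [Measure.integral_comp_div (fun u : ℝ => deriv (MEANF_b : ℝ → ℝ) u * u ^ (N + 1)) s]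
        rw [abs_of_pos hs, smul_eq_mul]
        rw [hJ]
        ring
      rw [e4, e5]
      ring
    -- conclusion
    have hDI : ∫ p in S, (F ((MEANF_e d).symm p) - H ((MEANF_e d).symm p))
        = - (s ^ (N + 1) * (J * ∫ y in Icc (0 : Fin d → ℝ) 1, b y)) := by
      rw [integral_sub hFi hHi, hF0, hHI]
      ring
    have hD4 : ∫ p in S, (F ((MEANF_e d).symm p) - H ((MEANF_e d).symm p))
        = ∫ p in S4, (F ((MEANF_e d).symm p) - H ((MEANF_e d).symm p)) := by
      apply setIntegral_eq_of_subset_of_forall_sdiff_eq_zero hSm hsub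
      intro p hp
      apply hFH
      rw [MEANF_zero]
      by_contra hcon
      push Not at hcon
      apply hp.2
      exact ⟨abs_lt.mp hcon, hp.1.2⟩
    have hv4 : volume S4 = ENNReal.ofReal (8 * s) := by
      rw [hS4, Measure.volume_eq_prod, Measure.prod_prod, MEANF_Q_vol, mul_one, Real.volume_Ioo]
      congr 1
      ring
    have hle : ‖∫ p in S4, (F ((MEANF_e d).symm p) - H ((MEANF_e d).symm p))‖
        ≤ M * s ^ (N + 1) * (volume : Measure (ℝ × (Fin d → ℝ))).real S4 := by
      apply norm_setIntegral_le_of_norm_le_const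
      · rw [hv4]; exact ENNReal.ofReal_lt_top
      · intro p hp
        rw [Real.norm_eq_abs]
        exact hbd _ (hQI p (hsub hp))
    have hr4 : (volume : Measure (ℝ × (Fin d → ℝ))).real S4 = 8 * s := by
      rw [Measure.real, hv4, ENNReal.toReal_ofReal (by positivity)]
    rw [← hD4, hDI, hr4, Real.norm_eq_abs, abs_neg, abs_mul, abs_of_pos (pow_pos hs _)] at hle
    have hsp : 0 < s ^ (N + 1) := pow_pos hs _
    have h9 : s ^ (N + 1) * |J * ∫ y in Icc (0 : Fin d → ℝ) 1, b y|
        ≤ s ^ (N + 1) * (8 * M * s) := by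
      refine le_trans hle (le_of_eq ?_)
      ring
    exact le_of_mul_le_mul_left h9 hsp
  -- limit
  have hzero : J * ∫ y in Icc (0 : Fin d → ℝ) 1, b y = 0 := by
    by_contra hne
    have hpos : 0 < |J * ∫ y in Icc (0 : Fin d → ℝ) 1, b y| := abs_pos.mpr hne
    set A := |J * ∫ y in Icc (0 : Fin d → ℝ) 1, b y| with hA
    set s : ℝ := min (w4 / 8) (A / (16 * (M + 1))) with hs
    have hs0 : 0 < s := lt_min (by linarith) (by positivity)
    have h3 := main s hs0 (min_le_left _ _)
    have h4 : s ≤ A / (16 * (M + 1)) := min_le_right _ _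
    rw [le_div_iff₀ (by positivity)] at h4
    nlinarith
  rcases mul_eq_zero.mp hzero with h | h
  · exact absurd h (MEANF_moment N)
  · exact h

end Pool.Agent.PalT
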