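import Pool.Agent.PalT.Targets

/-!
# The leading coefficient has mean zero
-/

set_option autoImplicit false

open Set MeasureTheory Filter Topology
open scoped Manifold ContDiff

namespace Pool.Agent.PalT

open Pool.Agent.Pal

namespace MEANZ_

/-- The splitting of the normal coordinate. -/
noncomputable def spl (d : ℕ) : E (d + 1) → ℝ × (Fin d → ℝ) := fun x =>
  MeasurableEquiv.piFinSuccAbove (fun _ : Fin (d + 1) => ℝ) 0 ((MeasurableEquiv.toLp 2
        (Fin (d + 1) → ℝ)).symm x)

lemma spl_eq {d : ℕ} (x : E (d + 1)) : spl d x = (x 0, th x) := by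
  refine Prod.ext rfl (funext fun i => ?_)
  show x (Fin.succAbove 0 i) = x i.succ
  rw [Fin.zero_succAbove]

lemma spl_mp (d : ℕ) : MeasurePreserving (spl d) :=
  (volume_preserving_piFinSuccAbove (fun _ : Fin (d + 1) => ℝ) 0).comp
      (EuclideanSpace.volume_preserving_symm_measurableEquiv_toLp (Fin (d + 1)))

lemma spl_emb (d : ℕ) : MeasurableEmbedding (spl d) :=
  (MeasurableEquiv.piFinSuccAbove (fun _ : Fin (d + 1) => ℝ) 0).measurableEmbedding.comp
      (MeasurableEquiv.toLp 2 (Fin (d + 1) → ℝ)).symm.measurableEmbedding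

lemma cell_eq (d : ℕ) (w : ℝ) : Cell d w = spl d ⁻¹' (Ioo (-w) w ×ˢ
    (Set.pi univ fun _ : Fin d => Ico (0 : ℝ) 1)) := by
  ext x
  rw [mem_preimage, spl_eq]
  simp only [Cell, mem_ofPred_eq, mem_prod, mem_Ioo, Set.mem_pi, mem_univ, mem_Ico,
      abs_lt, forall_const, th]

lemma cell_meas (d : ℕ) (w : ℝ) : MeasurableSet (Cell d w) := by
  rw [cell_eq]
  exact (spl_mp d).measurable
    (measurableSet_Ioo.prod (MeasurableSet.univ_pi fun _ => measurableSet_Ico))

/-- Fubini on the fundamental domain. -/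
lemma fub (d : ℕ) (w : ℝ) (f : ℝ → ℝ) (g : (Fin d → ℝ) → ℝ) :
    ∫ x in Cell d w, f (x 0) * g (th x) =
      (∫ r in Ioo (-w) w, f r) * ∫ y in Icc (0 : Fin d → ℝ) 1, g y := by
  have h4 := (spl_mp d).setIntegral_preimage_emb (spl_emb d)
    (fun p : ℝ × (Fin d → ℝ) => f p.1 * g p.2)
    (Ioo (-w) w ×ˢ (Set.pi univ fun _ : Fin d => Ico (0 : ℝ) 1))
  rw [← cell_eq] at h4
  have h5 : (Set.pi univ fun _ : Fin d => Ico (0 : ℝ) 1) =ᵐ[volume] Icc (0 : Fin d → ℝ) 1 :=
    Measure.univ_pi_Ico_ae_eq_Icc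
  rw [← setIntegral_congr_set h5, ← setIntegral_prod_mul]
  simp only [spl_eq] at h4
  exact h4

lemma cell_fin (d : ℕ) (w : ℝ) : volume (Cell d w) < ⊤ := by
  rw [cell_eq, (spl_mp d).measure_preimage_emb (spl_emb d)]
  have h1 : (volume : Measure (ℝ × (Fin d → ℝ))) = volume.prod volume := rfl
  rw [h1, Measure.prod_prod, Real.volume_Ioo, volume_pi_pi]
  simp

/-- The test function. -/
lemma bump (N : ℕ) : ∃ (η : ℝ → ℝ) (L : ℝ), ContDiff ℝ ∞ η ∧ 0 < L ∧ (∀ u, |η u| ≤ 1) ∧
    (∀ u, η u ≠ 0 → 1 < u ∧ u < 2) ∧ (∀ u, deriv η u ≠ 0 → |u| ≤ 2) ∧ (∀ u, |deriv η u| ≤ L) ∧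
    (∀ u v, |deriv η u - deriv η v| ≤ L * |u - v|) ∧
    (∀ u v, |η v - η u - deriv η u * (v - u)| ≤ L * |v - u| ^ 2) ∧
    ∫ t, deriv η t * t ^ (N + 1) ≠ 0 := by
  obtain ⟨f, hf⟩ : ∃ f : ContDiffBump (3 / 2 : ℝ), f.rOut = 1 / 2 :=
    ⟨⟨1 / 4, 1 / 2, by norm_num, by norm_num⟩, rfl⟩
  have h1 : ContDiff ℝ ∞ f := f.contDiff
  have h2 : HasCompactSupport f := f.hasCompactSupport
  have h3 : ∀ u, f u ≠ 0 → 1 < u ∧ u < 2 := by
    intro u hu
    have h4 : u ∈ Function.support f := hu
    rw [f.support_eq, Metric.mem_ball, Real.dist_eq, hf, abs_lt] at h4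
    constructor <;> linarith [h4.1, h4.2]
  have hd : Differentiable ℝ f := h1.differentiable (by simp)
  have h5 : ContDiff ℝ ∞ (deriv f) := by
    have : ContDiff ℝ (∞ + 1) f := by simpa using h1
    exact ContDiff.deriv' this
  have hd5 : Differentiable ℝ (deriv f) := h5.differentiable (by simp)
  have h6 : HasCompactSupport (deriv f) := h2.deriv
  have h7 : HasCompactSupport (deriv (deriv f)) := h6.deriv
  have h8 : Continuous (deriv (deriv f)) := h5.continuous_deriv (by simp)
  obtain ⟨A, hA⟩ := h6.exists_bound_of_continuous h5.continuous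
  obtain ⟨B, hB⟩ := h7.exists_bound_of_continuous h8
  have hL : ∀ u v, |deriv f u - deriv f v| ≤ (|A| + |B| + 1) * |u - v| := by
    intro u v
    have h9 := Convex.norm_image_sub_le_of_norm_deriv_le (f := deriv f) (s := univ) (x := v)
      (y := u) (fun x _ => hd5 x) (fun x _ => hB x) convex_univ trivial trivial
    simp only [Real.norm_eq_abs] at h9
    refine h9.trans (mul_le_mul_of_nonneg_right ?_ (abs_nonneg _))
    linarith [le_abs_self B, abs_nonneg A]
  refine ⟨f, |A| + |B| + 1, h1, by positivity, fun u => ?_, h3, ?_, ?_, hL, ?_, ?_⟩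
  · rw [abs_of_nonneg f.nonneg]
    exact f.le_one
  · intro u hu
    have h9 : u ∈ tsupport f := support_deriv_subset hu
    rw [f.tsupport_eq, Metric.mem_closedBall, Real.dist_eq, hf, abs_le] at h9
    rw [abs_le]
    constructor <;> linarith [h9.1, h9.2]
  · intro u
    have h9 := hA u
    rw [Real.norm_eq_abs] at h9
    linarith [le_abs_self A, abs_nonneg B]
  · intro u v
    have h9 : ∀ x ∈ uIcc u v, HasDerivWithinAt (fun y => f y - deriv f u * y)
        (deriv f x - deriv f u) (uIcc u v) x := by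
      intro x _
      have h10 := (hd x).hasDerivAt.sub ((hasDerivAt_id x).const_mul (deriv f u))
      exact (h10.congr_deriv (by rw [mul_one])).hasDerivWithinAt
    have h11 : ∀ x ∈ uIcc u v, ‖deriv f x - deriv f u‖ ≤ (|A| + |B| + 1) * |v - u| := by
      intro x hx
      refine (hL x u).trans (mul_le_mul_of_nonneg_left ?_ (by positivity))
      exact abs_sub_left_of_mem_uIcc hx
    have h12 := Convex.norm_image_sub_le_of_norm_hasDerivWithin_le h9 h11 (convex_uIcc u v)
      left_mem_uIcc right_mem_uIcc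
    rw [Real.norm_eq_abs, Real.norm_eq_abs] at h12
    have h13 : f v - deriv f u * v - (f u - deriv f u * u) = f v - f u - deriv f u * (v - u) := by
      ring
    rw [h13] at h12
    refine h12.trans (le_of_eq ?_)
    ring
  · have h9 : ∀ t, HasDerivAt (fun t => f t * t ^ (N + 1))
        (deriv f t * t ^ (N + 1) + f t * ((N + 1 : ℕ) * t ^ N)) t := by
      intro t
      have := (hd t).hasDerivAt.mul (hasDerivAt_pow (N + 1) t)
      exact this.congr_deriv (by rw [Nat.add_sub_cancel])
    have c1 : Continuous fun t => f t * t ^ (N + 1) := h1.continuous.mul (by fun_prop)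
    have i1 : Integrable fun t => f t * t ^ (N + 1) :=
      c1.integrable_of_hasCompactSupport h2.mul_right
    have i2 : Integrable fun t => deriv f t * t ^ (N + 1) :=
      (h5.continuous.mul (by fun_prop)).integrable_of_hasCompactSupport h6.mul_right
    have i3 : Integrable fun t => f t * ((N + 1 : ℕ) * t ^ N) :=
      (h1.continuous.mul (by fun_prop)).integrable_of_hasCompactSupport h2.mul_right
    have h10 := integral_eq_zero_of_hasDerivAt_of_integrable h9 (i2.add i3) i1
    rw [integral_add i2 i3] at h10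
    have h11 : 0 < ∫ t, f t * ((N + 1 : ℕ) * t ^ N) := by
      have c3 : Continuous fun t => f t * ((N + 1 : ℕ) * t ^ N) :=
        h1.continuous.mul (by fun_prop)
      refine c3.integral_pos_of_hasCompactSupport_nonneg_nonzero h2.mul_right ?_ (x := 3 / 2) ?_
      · intro t
        show 0 ≤ f t * ((N + 1 : ℕ) * t ^ N)
        by_cases ht : f t = 0
        · rw [ht, zero_mul]
        · have h12 : 0 < t := by linarith [(h3 t ht).1]
          have := f.nonneg (x := t)
          positivity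
      · have h12 : 0 < f (3 / 2) := f.pos_of_mem_ball (by
          rw [Metric.mem_ball, dist_self, hf]; norm_num)
        positivity
    intro h12
    rw [h12, zero_add] at h10
    exact h11.ne' h10

/-- The pointwise estimate. -/
lemma pw {η : ℝ → ℝ} {L C K₁ B s X Z Z' β : ℝ} {N : ℕ} (hN : 1 ≤ N) (hL : 0 < L)
    (hC : 0 < C) (hK : 0 < K₁) (hB : 0 ≤ B) (hs : 0 < s) (hs1 : s ≤ 1)
    (e3 : ∀ u, |deriv η u| ≤ L)
    (e4 : ∀ u v, |deriv η u - deriv η v| ≤ L * |u - v|)
    (e5 : ∀ u v, |η v - η u - deriv η u * (v - u)| ≤ L * |v - u| ^ 2)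
    (hX : |X| ≤ K₁ * s) (hβ : |β| ≤ B) (hZ : |Z - X| ≤ C * X ^ 2)
    (hZ' : |Z' - Z - β * X ^ (N + 1)| ≤ C * |X| ^ (N + 2)) :
    |η (Z' / s) - η (Z / s) - deriv η (X / s) * (β * X ^ (N + 1) / s)| ≤
      (L * (B * K₁ ^ (N + 1) + C * K₁ ^ (N + 2)) ^ 2 +
        L * (C * K₁ ^ 2) * (B * K₁ ^ (N + 1) + C * K₁ ^ (N + 2)) + L * (C * K₁ ^ (N + 2))) *
        s ^ (N + 1) := by
  obtain ⟨K₂, hK₂⟩ : ∃ K₂, K₂ = B * K₁ ^ (N + 1) + C * K₁ ^ (N + 2) := ⟨_, rfl⟩
  have hK₂0 : 0 ≤ K₂ := by rw [hK₂]; positivity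
  rw [← hK₂]
  have hp : ∀ m : ℕ, |X| ^ m ≤ K₁ ^ m * s ^ m := fun m => by
    rw [← mul_pow]
    exact pow_le_pow_left₀ (abs_nonneg _) hX m
  -- the first coordinate
  have b1 : |Z / s - X / s| ≤ C * K₁ ^ 2 * s := by
    rw [← sub_div, abs_div, abs_of_pos hs, div_le_iff₀ hs]
    refine hZ.trans ?_
    have h1 := mul_le_mul_of_nonneg_left (hp 2) hC.le
    rw [sq_abs] at h1
    refine h1.trans (le_of_eq ?_)
    ring
  have b2 : |Z' / s - Z / s - β * X ^ (N + 1) / s| ≤ C * K₁ ^ (N + 2) * s ^ (N + 1) := by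
    rw [← sub_div, ← sub_div, abs_div, abs_of_pos hs, div_le_iff₀ hs]
    refine hZ'.trans ?_
    refine (mul_le_mul_of_nonneg_left (hp (N + 2)) hC.le).trans (le_of_eq ?_)
    ring
  have b3 : |β * X ^ (N + 1) / s| ≤ B * K₁ ^ (N + 1) * s ^ N := by
    rw [abs_div, abs_of_pos hs, div_le_iff₀ hs, abs_mul, abs_pow]
    refine (mul_le_mul hβ (hp (N + 1)) (by positivity) hB).trans (le_of_eq ?_)
    ring
  have b4 : |Z' / s - Z / s| ≤ K₂ * s ^ N := by
    have h1 : |Z' / s - Z / s| ≤ |Z' / s - Z / s - β * X ^ (N + 1) / s| +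
        |β * X ^ (N + 1) / s| := by
      have := abs_add_le (Z' / s - Z / s - β * X ^ (N + 1) / s) (β * X ^ (N + 1) / s)
      rwa [sub_add_cancel] at this
    have h2 : s ^ (N + 1) ≤ s ^ N := pow_le_pow_of_le_one hs.le hs1 (Nat.le_succ N)
    have h3 := mul_le_mul_of_nonneg_left h2 (by positivity : 0 ≤ C * K₁ ^ (N + 2))
    rw [hK₂, add_mul]
    linarith
  have b5 : s ^ (2 * N) ≤ s ^ (N + 1) := pow_le_pow_of_le_one hs.le hs1 (by omega)
  generalize Z / s = u at *
  generalize Z' / s = v at *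
  generalize X / s = t at *
  generalize β * X ^ (N + 1) / s = y at *
  have h1 : η v - η u - deriv η t * y = (η v - η u - deriv η u * (v - u)) +
      (deriv η u - deriv η t) * (v - u) + deriv η t * (v - u - y) := by ring
  rw [h1]
  have c1 : |η v - η u - deriv η u * (v - u)| ≤ L * K₂ ^ 2 * s ^ (N + 1) := by
    refine (e5 u v).trans ?_
    have h2 : |v - u| ^ 2 ≤ (K₂ * s ^ N) ^ 2 := pow_le_pow_left₀ (abs_nonneg _) b4 2
    have h3 : (K₂ * s ^ N) ^ 2 = K₂ ^ 2 * s ^ (2 * N) := by
      rw [mul_pow, ← pow_mul, mul_comm N 2]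
    rw [mul_assoc]
    refine mul_le_mul_of_nonneg_left (h2.trans ?_) hL.le
    rw [h3]
    exact mul_le_mul_of_nonneg_left b5 (sq_nonneg _)
  have c2 : |(deriv η u - deriv η t) * (v - u)| ≤ L * (C * K₁ ^ 2) * K₂ * s ^ (N + 1) := by
    rw [abs_mul]
    have h2 : |deriv η u - deriv η t| ≤ L * (C * K₁ ^ 2 * s) :=
      (e4 u t).trans (mul_le_mul_of_nonneg_left b1 hL.le)
    refine (mul_le_mul h2 b4 (abs_nonneg _) (by positivity)).trans (le_of_eq ?_)
    ring
  have c3 : |deriv η t * (v - u - y)| ≤ L * (C * K₁ ^ (N + 2)) * s ^ (N + 1) := by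
    rw [abs_mul]
    refine (mul_le_mul (e3 t) b2 (abs_nonneg _) hL.le).trans (le_of_eq ?_)
    ring
  have c4 := abs_add_le ((η v - η u - deriv η u * (v - u)) +
      (deriv η u - deriv η t) * (v - u)) (deriv η t * (v - u - y))
  have c5 := abs_add_le (η v - η u - deriv η u * (v - u)) ((deriv η u - deriv η t) * (v - u))
  rw [add_mul, add_mul]
  linarith

end MEANZ_

open MEANZ_

theorem meanz : T_MEANZ := by
  intro d N w w' C α F z b hF hN hw' hww hC hz hzp hb h1 h2 h3
  obtain ⟨η, L, hη, hL, e0, e1, e2, e3, e4, e5, e6⟩ := bump N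
  obtain ⟨c, hc, hlow⟩ := hF.low
  obtain ⟨w₂, hw₂, hvol⟩ := hF.vol
  obtain ⟨B, hB⟩ : ∃ B : ℝ, ∀ y ∈ Icc (0 : Fin d → ℝ) 1, ‖b y‖ ≤ B :=
    isCompact_Icc.exists_bound_of_continuousOn hb.continuousOn
  obtain ⟨w₄, hw₄, a1, a2, a3⟩ : ∃ w₄ : ℝ, 0 < w₄ ∧ w₄ ≤ w' ∧ w₄ ≤ w₂ ∧ C * w₄ ≤ 1 / 2 := by
    refine ⟨min (min w' w₂) (1 / (2 * C)), by positivity, (min_le_left _ _).trans (min_le_left _ _),
      (min_le_left _ _).trans (min_le_right _ _), ?_⟩
    have := min_le_right (min w' w₂) (1 / (2 * C))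
    refine (mul_le_mul_of_nonneg_left this hC.le).trans (le_of_eq ?_)
    field_simp
  obtain ⟨K₁, hK₁⟩ : ∃ K₁, K₁ = 4 + 4 / c := ⟨_, rfl⟩
  have hK4 : 4 ≤ K₁ := by
    have : 0 < 4 / c := by positivity
    linarith
  have hK0 : 0 < K₁ := by linarith
  have hcK : 4 ≤ c * K₁ := by
    rw [hK₁, mul_add, mul_div_cancel₀ _ hc.ne']
    linarith
  obtain ⟨K₃, hK₃⟩ : ∃ K₃, K₃ = L * (|B| * K₁ ^ (N + 1) + C * K₁ ^ (N + 2)) ^ 2 +
        L * (C * K₁ ^ 2) * (|B| * K₁ ^ (N + 1) + C * K₁ ^ (N + 2)) + L * (C * K₁ ^ (N + 2)) :=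
    ⟨_, rfl⟩
  have hK₃0 : 0 ≤ K₃ := by rw [hK₃]; positivity
  have : IsFiniteMeasure (volume.restrict (Cell d w)) := ⟨by
    rw [Measure.restrict_apply_univ]; exact cell_fin d w⟩
  have hdη : Continuous (deriv η) := hη.continuous_deriv (by simp)
  -- the main estimate
  have main : ∀ s : ℝ, 0 < s → s ≤ 1 → K₁ * s ≤ w₄ / 2 →
      |(∫ t, deriv η t * t ^ (N + 1)) * ∫ y in Icc (0 : Fin d → ℝ) 1, b y| ≤
        K₃ * (2 * K₁) * s := by
    intro s hs hs1 hsw
    have h4s : 4 * s ≤ K₁ * s := mul_le_mul_of_nonneg_right hK4 hs.le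
    obtain ⟨φ, hφ⟩ : ∃ φ : E (d + 1) → ℝ, ∀ x, φ x = η (z x / s) *
        max 0 (min 1 (2 - 2 * |x 0| / w₄)) := ⟨_, fun _ => rfl⟩
    have hφe : φ = fun x => η (z x / s) * max 0 (min 1 (2 - 2 * |x 0| / w₄)) := funext hφ
    have cφ : Continuous φ := by
      rw [hφe]
      refine (hη.continuous.comp (hz.continuous.div_const s)).mul ?_
      fun_prop
    have bφ : ∀ x, |φ x| ≤ 1 := by
      intro x
      rw [hφ, abs_mul]
      have : |max 0 (min 1 (2 - 2 * |x 0| / w₄))| ≤ 1 := by
        rw [abs_of_nonneg (le_max_left _ _)]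
        exact max_le zero_le_one (min_le_left _ _)
      exact mul_le_one₀ (e0 _) (abs_nonneg _) this
    have z0 : ∀ x : E (d + 1), w₄ ≤ |x 0| → φ x = 0 := by
      intro x hx
      have : 2 - 2 * |x 0| / w₄ ≤ 0 := by
        rw [sub_nonpos, le_div_iff₀ hw₄]
        linarith
      rw [hφ, max_eq_left ((min_le_right _ _).trans this), mul_zero]
    have hzx : ∀ x : E (d + 1), |x 0| < w₄ → |x 0| ≤ 2 * |z x| := by
      intro x hx
      have h4 := h1 x (show |x 0| < w' from hx.trans_le a1)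
      have h5 : C * x 0 ^ 2 ≤ |x 0| / 2 := by
        rw [← sq_abs]
        have := mul_le_mul_of_nonneg_right (mul_le_mul_of_nonneg_left hx.le hC.le) (abs_nonneg (x 0))
        nlinarith [abs_nonneg (x 0)]
      have h6 := abs_sub_abs_le_abs_sub (x 0) (z x)
      rw [abs_sub_comm] at h6
      linarith
    have hη4 : ∀ x : E (d + 1), |x 0| < w₄ → 4 * s ≤ |x 0| → η (z x / s) = 0 := by
      intro x hx hx4
      by_contra h4
      obtain ⟨h5, h6⟩ := e1 _ h4
      rw [lt_div_iff₀ hs] at h5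
      rw [div_lt_iff₀ hs] at h6
      have h7 := hzx x hx
      rw [abs_of_pos (by linarith : 0 < z x)] at h7
      linarith
    have hA : ∀ x : E (d + 1), |x 0| < w₄ → φ x = η (z x / s) := by
      intro x hx
      rw [hφ]
      by_cases h4 : 4 * s ≤ |x 0|
      · rw [hη4 x hx h4, zero_mul]
      · push Not at h4
        have : 1 ≤ 2 - 2 * |x 0| / w₄ := by
          have h5 : 2 * |x 0| / w₄ ≤ 1 := by
            rw [div_le_one hw₄]
            linarith
          linarith
        rw [min_eq_left this, max_eq_right zero_le_one, mul_one]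
    have hZ : ∀ x : E (d + 1), 4 * s ≤ |x 0| → φ x = 0 := by
      intro x hx
      by_cases h4 : |x 0| < w₄
      · rw [hA x h4, hη4 x h4 hx]
      · exact z0 x (not_lt.1 h4)
    have hper : Per d φ := by
      intro x v hv
      rw [hφ, hφ, hzp x v hv]
      have : (x + v) 0 = x 0 := by
        rw [PiLp.add_apply, hv.1, add_zero]
      rw [this]
    have hv := hvol φ cφ hper (fun x hx => z0 x (a2.trans hx))
    -- the three integrands
    obtain ⟨T, hT⟩ : ∃ T : E (d + 1) → ℝ, ∀ x, T x = deriv η (x 0 / s) * (b (th x) *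
        x 0 ^ (N + 1) / s) := ⟨_, fun _ => rfl⟩
    have hTe : T = fun x => deriv η (x 0 / s) * (b (th x) * x 0 ^ (N + 1) / s) := funext hT
    have cth : Continuous (th : E (d + 1) → Fin d → ℝ) := by
      refine continuous_pi fun i => ?_
      exact (by fun_prop : Continuous fun x : E (d + 1) => x i.succ)
    have cT : Continuous T := by
      rw [hTe]
      have c1 : Continuous fun x : E (d + 1) => x 0 / s := by fun_prop
      have c2 : Continuous fun x : E (d + 1) => x 0 ^ (N + 1) := by fun_prop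
      exact (hdη.comp c1).mul (((hb.comp cth).mul c2).div_const s)
    have hcell : ∀ x ∈ Cell d w, ‖b (th x)‖ ≤ B := fun x hx =>
      hB _ ⟨fun i => (hx.2 i).1, fun i => (hx.2 i).2.le⟩
    have iT : IntegrableOn T (Cell d w) := by
      refine Integrable.of_bound cT.aestronglyMeasurable (L * (|B| * w ^ (N + 1) / s)) ?_
      refine (ae_restrict_iff' (cell_meas d w)).2 (Eventually.of_forall fun x hx => ?_)
      rw [hT, norm_mul, Real.norm_eq_abs, Real.norm_eq_abs]
      refine mul_le_mul (e3 _) ?_ (abs_nonneg _) hL.le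
      rw [abs_div, abs_mul, abs_pow, abs_of_pos hs]
      refine div_le_div_of_nonneg_right ?_ hs.le
      exact mul_le_mul ((hcell x hx).trans (le_abs_self _))
        (pow_le_pow_left₀ (abs_nonneg _) hx.1.le _) (by positivity) (abs_nonneg _)
    have iφ : IntegrableOn φ (Cell d w) := by
      refine Integrable.of_bound cφ.aestronglyMeasurable 1 ?_
      exact Eventually.of_forall fun x => bφ x
    have hsub : Cell d w ⊆ Strip d w := fun x hx => hx.1
    have iφF : IntegrableOn (fun x => φ (F x)) (Cell d w) := by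
      refine Integrable.of_bound ?_ 1 (Eventually.of_forall fun x => bφ _)
      exact (cφ.comp_continuousOn (hF.smooth.continuousOn.mono hsub)).aestronglyMeasurable
        (cell_meas d w)
    -- the integral of `T`
    have jT : ∫ x in Cell d w, T x = s ^ (N + 1) * ((∫ t, deriv η t * t ^ (N + 1)) *
        ∫ y in Icc (0 : Fin d → ℝ) 1, b y) := by
      have h4 := fub d w (fun r => deriv η (r / s) * (r ^ (N + 1) / s)) b
      have h5 : ∫ r in Ioo (-w) w, deriv η (r / s) * (r ^ (N + 1) / s) =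
          s ^ (N + 1) * ∫ t, deriv η t * t ^ (N + 1) := by
        rw [setIntegral_eq_integral_of_forall_compl_eq_zero]
        · have h6 := Measure.integral_comp_div (fun t => deriv η t * t ^ (N + 1)) s
          rw [abs_of_pos hs, smul_eq_mul] at h6
          rw [pow_succ, mul_assoc, ← h6, ← integral_const_mul]
          refine integral_congr_ae (Eventually.of_forall fun r => ?_)
          show deriv η (r / s) * (r ^ (N + 1) / s) = s ^ N * (deriv η (r / s) * (r / s) ^ (N + 1))
          rw [div_pow, pow_succ s]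
          field_simp
        · intro r hr
          have h6 : deriv η (r / s) = 0 := by
            by_contra h7
            have h8 := e2 _ h7
            rw [abs_div, abs_of_pos hs, div_le_iff₀ hs] at h8
            apply hr
            rw [mem_Ioo, ← abs_lt]
            linarith
          rw [h6, zero_mul]
      rw [h5] at h4
      rw [← mul_assoc, ← h4]
      refine integral_congr_ae (Eventually.of_forall fun x => ?_)
      show T x = _
      rw [hT]
      ring
    -- the difference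
    have key : ∀ x ∈ Cell d w, ‖φ (F x) - φ x - T x‖ ≤
        K₃ * s ^ (N + 1) * (Ioo (-(K₁ * s)) (K₁ * s)).indicator (fun _ => (1 : ℝ)) (x 0) := by
      intro x hx
      by_cases h4 : |x 0| < K₁ * s
      · rw [indicator_of_mem (by rw [mem_Ioo, ← abs_lt]; exact h4), mul_one]
        have h5 : |x 0| < w₄ := by linarith
        have h6 : x ∈ Strip d w' := h5.trans_le a1
        have h7 : |F x 0| < w₄ := by
          have h8 := h2 x h6
          have h9 : C * x 0 ^ 2 ≤ |x 0| / 2 := by
            rw [← sq_abs]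
            have := mul_le_mul_of_nonneg_right (mul_le_mul_of_nonneg_left h5.le hC.le)
              (abs_nonneg (x 0))
            nlinarith [abs_nonneg (x 0)]
          have h10 := abs_sub_abs_le_abs_sub (F x 0) (x 0)
          linarith [abs_nonneg (x 0)]
        rw [hA x h5, hA (F x) h7, hT, Real.norm_eq_abs, hK₃]
        exact pw hN hL hC hK0 (abs_nonneg B) hs hs1 e3 e4 e5 h4.le
          ((hcell x hx).trans (le_abs_self _)) (h1 x h6) (h3 x h6)
      · rw [indicator_of_notMem (by rw [mem_Ioo, ← abs_lt]; exact h4), mul_zero]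
        push Not at h4
        have h5 : φ (F x) = 0 := by
          apply hZ
          have h6 := hlow x (hsub hx)
          have h7 := mul_le_mul_of_nonneg_left h4 hc.le
          have h8 := mul_le_mul_of_nonneg_right hcK hs.le
          linarith
        have h6 : T x = 0 := by
          have h7 : deriv η (x 0 / s) = 0 := by
            by_contra h8
            have h9 := e2 _ h8
            rw [abs_div, abs_of_pos hs, div_le_iff₀ hs] at h9
            linarith
          rw [hT, h7, zero_mul]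
        rw [h5, hZ x (h4s.trans h4), h6, sub_zero, sub_zero, norm_zero]
    have hind : ∫ x in Cell d w, K₃ * s ^ (N + 1) *
        (Ioo (-(K₁ * s)) (K₁ * s)).indicator (fun _ => (1 : ℝ)) (x 0) ≤
          K₃ * s ^ (N + 1) * (2 * (K₁ * s)) := by
      rw [integral_const_mul]
      refine mul_le_mul_of_nonneg_left ?_ (by positivity)
      have h4 := fub d w (fun r => (Ioo (-(K₁ * s)) (K₁ * s)).indicator (fun _ => (1 : ℝ)) r)
        (fun _ => 1)
      simp only [mul_one] at h4
      rw [h4, setIntegral_indicator measurableSet_Ioo]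
      have h5 : Ioo (-w) w ∩ Ioo (-(K₁ * s)) (K₁ * s) = Ioo (-(K₁ * s)) (K₁ * s) := by
        refine inter_eq_right.2 (Ioo_subset_Ioo ?_ ?_) <;> linarith
      rw [h5]
      simp only [integral_const, smul_eq_mul, mul_one, measureReal_restrict_apply_univ]
      have h6 : volume.real (Ioo (-(K₁ * s)) (K₁ * s)) = 2 * (K₁ * s) := by
        rw [Real.volume_real_Ioo_of_le (by nlinarith)]
        ring
      have h7 : volume.real (Icc (0 : Fin d → ℝ) 1) = 1 := by
        rw [Measure.real, Real.volume_Icc_pi]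
        simp
      rw [h6, h7, mul_one]
    have hint : IntegrableOn (fun x : E (d + 1) => K₃ * s ^ (N + 1) *
        (Ioo (-(K₁ * s)) (K₁ * s)).indicator (fun _ => (1 : ℝ)) (x 0)) (Cell d w) := by
      refine Integrable.of_bound ?_ (K₃ * s ^ (N + 1)) (Eventually.of_forall fun x => ?_)
      · refine (Measurable.const_mul ?_ _).aestronglyMeasurable
        have m0 : Measurable fun x : E (d + 1) => x 0 := by fun_prop
        exact (measurable_const.indicator measurableSet_Ioo).comp m0
      · rw [norm_mul, Real.norm_eq_abs, abs_of_nonneg (by positivity)]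
        refine mul_le_of_le_one_right (by positivity) ?_
        unfold indicator
        split_ifs <;> simp
    have h4 := norm_integral_le_of_norm_le hint
      ((ae_restrict_iff' (cell_meas d w)).2 (Eventually.of_forall key))
    have i1 : Integrable (fun x => φ (F x) - φ x) (volume.restrict (Cell d w)) := iφF.sub iφ
    rw [integral_sub i1 iT, integral_sub iφF iφ, hv, sub_self, zero_sub, norm_neg, jT,
      Real.norm_eq_abs, abs_mul, abs_of_pos (pow_pos hs _)] at h4
    have h5 := h4.trans hind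
    have h6 : K₃ * s ^ (N + 1) * (2 * (K₁ * s)) = s ^ (N + 1) * (K₃ * (2 * K₁) * s) := by ring
    rw [h6] at h5
    exact le_of_mul_le_mul_left h5 (pow_pos hs _)
  -- let `s` tend to `0`
  have hfin : (∫ t, deriv η t * t ^ (N + 1)) * ∫ y in Icc (0 : Fin d → ℝ) 1, b y = 0 := by
    rw [← abs_eq_zero]
    refine le_antisymm (le_of_forall_pos_le_add fun ε hε => ?_) (abs_nonneg _)
    obtain ⟨s, hs, hs1, hs2, hs3⟩ : ∃ s : ℝ, 0 < s ∧ s ≤ 1 ∧ K₁ * s ≤ w₄ / 2 ∧
        K₃ * (2 * K₁) * s ≤ ε := by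
      refine ⟨min (min 1 (w₄ / 2 / K₁)) (ε / (K₃ * (2 * K₁) + 1)), by positivity,
        (min_le_left _ _).trans (min_le_left _ _), ?_, ?_⟩
      · have := (min_le_left (min 1 (w₄ / 2 / K₁)) (ε / (K₃ * (2 * K₁) + 1))).trans
          (min_le_right _ _)
        rwa [le_div_iff₀ hK0, mul_comm] at this
      · have := min_le_right (min 1 (w₄ / 2 / K₁)) (ε / (K₃ * (2 * K₁) + 1))
        have h0 : 0 ≤ K₃ * (2 * K₁) := by positivity
        refine (mul_le_mul_of_nonneg_left this h0).trans ?_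
        rw [mul_div_assoc', div_le_iff₀ (by positivity)]
        nlinarith
    rw [zero_add]
    exact (main s hs hs1 hs2).trans hs3
  exact (mul_eq_zero.1 hfin).resolve_left e6

end Pool.Agent.PalT
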