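import Pool.Agent.PalT.Targets

/-!
# Small Morse-Smale perturbations of a translation
-/

set_option autoImplicit false

open Set MeasureTheory Filter Topology Metric Asymptotics
open scoped Manifold ContDiff

namespace Pool.Agent.PalT

open Pool.Agent.Pal

namespace MSM_

/-- Smooth functions all of whose derivatives are bounded. -/
structure BD {E F : Type} [NormedAddCommGroup E] [NormedSpace ℝ E] [NormedAddCommGroup F]
    [NormedSpace ℝ F] (f : E → F) : Prop where
  smooth : ContDiff ℝ ∞ f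
  bdd : ∀ j : ℕ, ∃ K : ℝ, ∀ y, ‖iteratedFDeriv ℝ j f y‖ ≤ K

section

variable {E F G : Type} [NormedAddCommGroup E] [NormedSpace ℝ E] [NormedAddCommGroup F]
  [NormedSpace ℝ F] [NormedAddCommGroup G] [NormedSpace ℝ G]

lemma BD.at {f : E → F} (h : BD f) (j : ℕ) : ContDiff ℝ j f :=
  h.smooth.of_le (by exact_mod_cast le_top)

lemma BD.comp_clm {f : E → F} (h : BD f) (L : G →L[ℝ] E) : BD (fun x => f (L x)) := by
  refine ⟨h.smooth.comp L.contDiff, fun j => ?_⟩
  obtain ⟨K, hK⟩ := h.bdd j
  refine ⟨K * ‖L‖ ^ j, fun y => ?_⟩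
  have h1 := L.iteratedFDeriv_comp_right (h.at j) y le_rfl
  have h2 : (f ∘ L) = fun x => f (L x) := rfl
  rw [← h2, h1]
  refine (ContinuousMultilinearMap.norm_compContinuousLinearMap_le _ _).trans ?_
  rw [Finset.prod_const, Finset.card_univ, Fintype.card_fin]
  exact mul_le_mul_of_nonneg_right (hK _) (by positivity)

lemma BD.comp_sub {f : E → F} (h : BD f) (a : E) : BD (fun x => f (x - a)) := by
  refine ⟨h.smooth.comp (contDiff_id.sub contDiff_const), fun j => ?_⟩
  obtain ⟨K, hK⟩ := h.bdd j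
  refine ⟨K, fun y => ?_⟩
  rw [iteratedFDeriv_comp_sub]
  exact hK _

lemma BD.clm_comp {f : E → F} (h : BD f) (L : F →L[ℝ] G) : BD (fun x => L (f x)) := by
  refine ⟨L.contDiff.comp h.smooth, fun j => ?_⟩
  obtain ⟨K, hK⟩ := h.bdd j
  refine ⟨‖L‖ * K, fun y => ?_⟩
  have h1 := L.iteratedFDeriv_comp_left (h.at j).contDiffAt (x := y) le_rfl
  have h2 : (L ∘ f) = fun x => L (f x) := rfl
  rw [← h2, h1]
  refine (L.norm_compContinuousMultilinearMap_le _).trans ?_
  exact mul_le_mul_of_nonneg_left (hK _) (norm_nonneg _)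

lemma BD.mul {f g : E → ℝ} (h : BD f) (h' : BD g) : BD (fun x => f x * g x) := by
  refine ⟨h.smooth.mul h'.smooth, fun j => ?_⟩
  choose K hK using h.bdd
  choose K' hK' using h'.bdd
  refine ⟨∑ i ∈ Finset.range (j + 1), (j.choose i : ℝ) * K i * K' (j - i), fun y => ?_⟩
  refine (norm_iteratedFDeriv_mul_le (h.at j) (h'.at j) y le_rfl).trans ?_
  refine Finset.sum_le_sum fun i _ => ?_
  have h1 : 0 ≤ K i := (norm_nonneg _).trans (hK i y)
  exact mul_le_mul (mul_le_mul_of_nonneg_left (hK i y) (by positivity)) (hK' _ y) (norm_nonneg _)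
    (by positivity)

lemma BD.smul_const {f : E → ℝ} (h : BD f) (v : F) : BD (fun x => f x • v) := by
  have h1 := h.clm_comp ((ContinuousLinearMap.id ℝ ℝ).smulRight v)
  simpa using h1

lemma BD_compact {f : E → F} [FiniteDimensional ℝ E] (h : ContDiff ℝ ∞ f)
    (hc : HasCompactSupport f) : BD f := by
  refine ⟨h, fun j => ?_⟩
  refine (hc.iteratedFDeriv (𝕜 := ℝ) j).exists_bound_of_continuous ?_
  exact h.continuous_iteratedFDeriv (by exact_mod_cast le_top)

lemma BD_sin : BD Real.sin := by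
  refine ⟨Real.contDiff_sin, fun j => ⟨1, fun y => ?_⟩⟩
  rw [norm_iteratedFDeriv_eq_norm_iteratedDeriv, Real.norm_eq_abs]
  exact Real.abs_iteratedDeriv_sin_le_one j y

lemma BD_sum {m : ℕ} (r : ℕ) {f : Fin m → E → F} (h : ∀ i, BD (f i)) : ∃ K : ℝ, 0 < K ∧
    ∀ (c : Fin m → ℝ) (ε : ℝ), 0 ≤ ε → (∀ i, |c i| ≤ ε) → ∀ j ≤ r, ∀ y,
      ‖iteratedFDeriv ℝ j (fun x => ∑ i, c i • f i x) y‖ ≤ ε * K := by
  choose K hK using fun i => (h i).bdd
  have hK0 : ∀ i j, 0 ≤ K i j := fun i j => (norm_nonneg _).trans (hK i j 0)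
  refine ⟨1 + ∑ i, ∑ j ∈ Finset.range (r + 1), K i j, ?_, ?_⟩
  · have : 0 ≤ ∑ i, ∑ j ∈ Finset.range (r + 1), K i j :=
      Finset.sum_nonneg fun i _ => Finset.sum_nonneg fun j _ => hK0 i j
    linarith
  · intro c ε hε hc j hj y
    have h1 : iteratedFDeriv ℝ j (fun x => ∑ i, c i • f i x) y =
        ∑ i, iteratedFDeriv ℝ j (fun x => c i • f i x) y := by
      have h2 := iteratedFDeriv_sum (𝕜 := ℝ) (i := j) (u := Finset.univ)
        (f := fun (i : Fin m) x => c i • f i x)
        (fun i _ => contDiff_const.smul ((h i).at j))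
      have h3 := congrFun h2 y
      rw [Finset.sum_apply] at h3
      exact h3
    rw [h1]
    refine (norm_sum_le _ _).trans ?_
    have h4 : ∀ i, ‖iteratedFDeriv ℝ j (fun x => c i • f i x) y‖ ≤
        ε * ∑ j ∈ Finset.range (r + 1), K i j := by
      intro i
      rw [iteratedFDeriv_const_smul_apply' ((h i).at j).contDiffAt, norm_smul, Real.norm_eq_abs]
      refine mul_le_mul (hc i) ((hK i j y).trans ?_) (norm_nonneg _) hε
      exact Finset.single_le_sum (f := K i) (fun j _ => hK0 i j)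
        (Finset.mem_range.2 (by omega : j < r + 1))
    refine (Finset.sum_le_sum fun i _ => h4 i).trans ?_
    rw [← Finset.mul_sum]
    refine mul_le_mul_of_nonneg_left ?_ hε
    linarith

end

/-! ### arithmetic -/

lemma exists_num {q : ℕ} (hq : q.Prime) (t : ℝ) :
    ∃ p : ℤ, IsCoprime p (q : ℤ) ∧ |p / q - t| ≤ 1 / q := by
  have hq0 : (0 : ℝ) < q := by exact_mod_cast hq.pos
  have hq2 := hq.two_le
  have hqp : Prime (q : ℤ) := Nat.prime_iff_prime_int.1 hq
  have key : ∀ p : ℤ, ¬ (q : ℤ) ∣ p → IsCoprime p (q : ℤ) := by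
    intro p hp
    exact ((Prime.coprime_iff_not_dvd hqp).2 hp).symm
  by_cases h : (q : ℤ) ∣ ⌊q * t⌋
  · refine ⟨⌊q * t⌋ + 1, key _ ?_, ?_⟩
    · intro h'
      have h1 : (q : ℤ) ∣ 1 := by
        have := dvd_sub h' h
        simpa using this
      exact hqp.not_isUnit (isUnit_of_dvd_one h1)
    · have h1 := Int.floor_le (q * t)
      have h2 := Int.lt_floor_add_one (q * t)
      rw [abs_le]
      constructor
      · rw [neg_le_sub_iff_le_add, ← sub_le_iff_le_add, le_div_iff₀ hq0, sub_mul,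
          div_mul_cancel₀ _ hq0.ne']
        push_cast
        linarith
      · rw [sub_le_iff_le_add, div_le_iff₀ hq0, add_mul, div_mul_cancel₀ _ hq0.ne']
        push_cast
        linarith
  · refine ⟨⌊q * t⌋, key _ h, ?_⟩
    have h1 := Int.floor_le (q * t)
    have h2 := Int.lt_floor_add_one (q * t)
    rw [abs_le]
    constructor
    · rw [neg_le_sub_iff_le_add, ← sub_le_iff_le_add, le_div_iff₀ hq0, sub_mul,
        div_mul_cancel₀ _ hq0.ne']
      linarith
    · rw [sub_le_iff_le_add, div_le_iff₀ hq0, add_mul, div_mul_cancel₀ _ hq0.ne']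
      linarith

lemma exists_qs (d N : ℕ) : ∃ q : Fin d → ℕ, (∀ i, (q i).Prime) ∧ (∀ i, N ≤ q i) ∧
    ∀ i j, i ≠ j → Nat.Coprime (q i) (q j) := by
  have h : {q : ℕ | q.Prime ∧ N ≤ q}.Infinite := by
    refine Set.infinite_of_not_bddAbove ?_
    rintro ⟨B, hB⟩
    obtain ⟨p, hp, hpp⟩ := Nat.exists_infinite_primes (max N B + 1)
    have := hB (show p ∈ {q : ℕ | q.Prime ∧ N ≤ q} from
      ⟨hpp, by have := le_max_left N B; omega⟩)
    have h2 := le_max_right N B
    omega
  let e := h.natEmbedding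
  refine ⟨fun i => (e i : ℕ), fun i => (e i).2.1, fun i => (e i).2.2, fun i j hij => ?_⟩
  rw [Nat.coprime_primes (e i).2.1 (e j).2.1]
  intro h1
  exact hij (Fin.ext (e.injective (Subtype.ext h1)))

/-- the cut-off -/
noncomputable def chi : ContDiffBump (0 : ℝ) := ⟨1 / 4, 1 / 2, by norm_num, by norm_num⟩

end MSM_

open MSM_ in
theorem msm : T_MSM := by
  intro d r α ρ δ hd hα hρ hδ
  -- the functions
  let pr : Fin (d + 1) → E (d + 1) →L[ℝ] ℝ := fun i => EuclideanSpace.proj i
  have hpr : ∀ i x, pr i x = x i := fun i x => rfl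
  let X : E (d + 1) → ℝ := fun x => chi (ρ⁻¹ * x 0)
  have hX : BD X := by
    have h1 : BD (chi : ℝ → ℝ) := BD_compact chi.contDiff chi.hasCompactSupport
    have h2 := h1.comp_clm (ρ⁻¹ • pr 0)
    exact h2
  have hX1 : ∀ x : E (d + 1), |x 0| ≤ ρ / 4 → X x = 1 := by
    intro x hx
    apply chi.one_of_mem_closedBall
    rw [mem_closedBall_zero_iff, Real.norm_eq_abs, abs_mul, abs_inv, abs_of_pos hρ,
      inv_mul_le_iff₀ hρ]
    show |x 0| ≤ ρ * (1 / 4)
    linarith
  have hX0 : ∀ x : E (d + 1), ρ / 2 ≤ |x 0| → X x = 0 := by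
    intro x hx
    apply chi.zero_of_le_dist
    rw [dist_zero_right, Real.norm_eq_abs, abs_mul, abs_inv, abs_of_pos hρ]
    show 1 / 2 ≤ ρ⁻¹ * |x 0|
    rw [le_inv_mul_iff₀ hρ]
    linarith
  have hA : ∀ i : Fin d, BD (fun x : E (d + 1) => X x • (EuclideanSpace.single i.succ 1 :
      E (d + 1))) := fun i => hX.smul_const _
  obtain ⟨KA, hKA, hKA'⟩ := BD_sum r hA
  -- the rational numbers
  obtain ⟨N, hN⟩ := exists_nat_gt (2 * KA / δ)
  obtain ⟨q, hqp, hqN, hqc⟩ := exists_qs d N
  choose p hpc hp using fun i : Fin d => exists_num (hqp i) (α i.succ)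
  have hq0 : ∀ i, (0 : ℝ) < q i := fun i => by exact_mod_cast (hqp i).pos
  have hc : ∀ i, |(p i / q i - α i.succ : ℝ)| ≤ δ / (2 * KA) := by
    intro i
    refine (hp i).trans ?_
    have h1 : 2 * KA / δ < q i := lt_of_lt_of_le hN (by exact_mod_cast hqN i)
    rw [div_lt_iff₀ hδ] at h1
    rw [div_le_div_iff₀ (hq0 i) (by positivity)]
    linarith
  -- the sines
  let B : Fin d → E (d + 1) → E (d + 1) := fun i x =>
    (X x * (1 / (2 * Real.pi * q i) * Real.sin (2 * Real.pi * q i * (x i.succ - α i.succ)))) •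
      (EuclideanSpace.single i.succ 1 : E (d + 1))
  have hB : ∀ i : Fin d, BD (B i) := by
    intro i
    have h1 := (BD_sin.comp_sub (2 * Real.pi * q i * α i.succ)).comp_clm
      ((2 * Real.pi * q i) • pr i.succ)
    have h2 := h1.clm_comp ((1 / (2 * Real.pi * q i)) • ContinuousLinearMap.id ℝ ℝ)
    have h3 := (hX.mul h2).smul_const (EuclideanSpace.single i.succ 1 : E (d + 1))
    convert h3 using 1
    funext x
    have e1 : 2 * Real.pi * q i * (x i.succ - α i.succ) =
        ((2 * Real.pi * q i) • pr i.succ) x - 2 * Real.pi * q i * α i.succ := by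
      rw [smul_apply, hpr, smul_eq_mul]
      ring
    show (X x * (1 / (2 * Real.pi * q i) *
      Real.sin (2 * Real.pi * q i * (x i.succ - α i.succ)))) • _ = _
    rw [e1]
    rfl
  obtain ⟨KB, hKB, hKB'⟩ := BD_sum r hB
  set η : ℝ := min (1 / 4) (δ / (2 * KB)) with hη
  have hη0 : 0 < η := lt_min (by norm_num) (by positivity)
  let Q : E (d + 1) → E (d + 1) := fun x =>
    x + (∑ i, (p i / q i - α i.succ : ℝ) • (X x • (EuclideanSpace.single i.succ 1 : E (d + 1))) +
      ∑ i, (-η) • B i x)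
  have hQc : ∀ (x : E (d + 1)) (i : Fin d), Q x i.succ = x i.succ +
      X x * ((p i / q i - α i.succ) -
        η / (2 * Real.pi * q i) * Real.sin (2 * Real.pi * q i * (x i.succ - α i.succ))) := by
    intro x i
    have h1 : ∀ (c : Fin d → ℝ), (∑ k, c k • (EuclideanSpace.single k.succ 1 :
        E (d + 1))) i.succ = c i := by
      intro c
      simp only [WithLp.ofLp_sum, Finset.sum_apply, WithLp.ofLp_smul, Pi.smul_apply, smul_eq_mul,
        EuclideanSpace.single, PiLp.ofLp_single]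
      rw [Finset.sum_eq_single i]
      · rw [Pi.single_eq_same, mul_one]
      · intro k _ hk
        rw [Pi.single_eq_of_ne (fun h => hk (Fin.succ_injective _ h).symm), mul_zero]
      · intro h
        exact absurd (Finset.mem_univ i) h
    have h2 : Q x = x + (∑ k, ((p k / q k - α k.succ) * X x) •
        (EuclideanSpace.single k.succ 1 : E (d + 1)) + ∑ k, (-η * (X x *
          (1 / (2 * Real.pi * q k) * Real.sin (2 * Real.pi * q k * (x k.succ - α k.succ))))) •
            (EuclideanSpace.single k.succ 1 : E (d + 1))) := by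
      simp only [Q, B, smul_smul]
    rw [h2, PiLp.add_apply, PiLp.add_apply, h1, h1]
    ring
  have hQ0 : ∀ x : E (d + 1), Q x 0 = x 0 := by
    intro x
    have h1 : ∀ (c : Fin d → ℝ), (∑ k, c k • (EuclideanSpace.single k.succ 1 :
        E (d + 1))) 0 = 0 := by
      intro c
      simp [Fin.succ_ne_zero]
    have h2 : Q x = x + (∑ k, ((p k / q k - α k.succ) * X x) •
        (EuclideanSpace.single k.succ 1 : E (d + 1)) + ∑ k, (-η * (X x *
          (1 / (2 * Real.pi * q k) * Real.sin (2 * Real.pi * q k * (x k.succ - α k.succ))))) •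
            (EuclideanSpace.single k.succ 1 : E (d + 1))) := by
      simp only [Q, B, smul_smul]
    rw [h2, PiLp.add_apply, PiLp.add_apply, h1, h1]
    ring
  have hext : ∀ x y : E (d + 1), x 0 = y 0 → (∀ i : Fin d, x i.succ = y i.succ) → x = y := by
    intro x y h0 hs
    ext i
    refine Fin.cases ?_ ?_ i
    · exact h0
    · exact hs
  refine ⟨q, p, η, Q, ⟨fun i => (hqp i).two_le, hqc, hpc, hη0, min_le_left _ _, ⟨?_, ?_, ?_⟩,
    hQ0, ?_⟩, ?_⟩
  · -- smooth
    refine contDiff_id.add (ContDiff.add ?_ ?_)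
    · exact ContDiff.sum fun i _ => (hA i).smooth.const_smul _
    · exact ContDiff.sum fun i _ => (hB i).smooth.const_smul _
  · -- equivariance
    intro x v hv
    have hXv : X (x + v) = X x := by
      show chi (ρ⁻¹ * (x + v) 0) = chi (ρ⁻¹ * x 0)
      rw [PiLp.add_apply, hv.1, add_zero]
    refine hext _ _ ?_ fun i => ?_
    · rw [hQ0, PiLp.add_apply, PiLp.add_apply, hQ0]
    · rw [hQc, PiLp.add_apply, PiLp.add_apply, hQc, hXv]
      obtain ⟨k, hk⟩ := hv.2 i.succ
      have h1 : 2 * Real.pi * q i * (x i.succ + v i.succ - α i.succ) =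
          2 * Real.pi * q i * (x i.succ - α i.succ) + ((q i * k : ℤ) : ℝ) * (2 * Real.pi) := by
        rw [hk]
        push_cast
        ring
      rw [h1, Real.sin_add_int_mul_two_pi]
      ring
  · -- off the strip
    intro x hx
    refine hext _ _ (hQ0 x) fun i => ?_
    rw [hQc, hX0 x hx]
    ring
  · intro x hx i
    rw [hQc, hX1 x hx]
    ring
  · -- smallness
    intro j hj y
    have h1 : (fun z => Q z - z) = fun z =>
        (∑ i, (p i / q i - α i.succ : ℝ) • (X z • (EuclideanSpace.single i.succ 1 : E (d + 1)))) +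
        ∑ i, (-η) • B i z := by
      funext z
      simp only [Q]
      abel
    rw [h1, fun_iteratedFDeriv_add_apply]
    · refine (norm_add_le _ _).trans ?_
      have h2 := hKA' (fun i => (p i / q i - α i.succ : ℝ)) (δ / (2 * KA)) (by positivity) hc j hj y
      have h3 := hKB' (fun _ => -η) (δ / (2 * KB)) (by positivity) (fun i => by
        rw [abs_neg, abs_of_pos hη0]
        exact min_le_right _ _) j hj y
      have h4 : δ / (2 * KA) * KA = δ / 2 := by field_simp
      have h5 : δ / (2 * KB) * KB = δ / 2 := by field_simp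
      rw [h4] at h2
      rw [h5] at h3
      linarith
    · exact (ContDiff.sum fun i _ => ((hA i).at j).const_smul _).contDiffAt
    · exact (ContDiff.sum fun i _ => ((hB i).at j).const_smul _).contDiffAt

end Pool.Agent.PalT
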