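import Pool.Agent.PalT.Targets
import Pool.Agent.Pal.FINAL

/-!
# KT-MST: Morse-Smale traps are robust
-/

set_option autoImplicit false

open Set MeasureTheory Filter Topology Metric Asymptotics
open scoped Manifold ContDiff

namespace Pool.Agent.PalT

open Pool.Agent.Pal

namespace MST_

open Pool.Agent.Pal.SINKC_

/-- A small compact neighbourhood of a sink. -/
lemma sinkball {n : ℕ} {M : Type} [MetricSpace M] [ChartedSpace (E n) M]
    [IsManifold 𝓘(ℝ, E n) ∞ M] [CompactSpace M] (g : M → M) (m : ℕ) (p : M)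
    (e : OpenPartialHomeomorph M (E n)) (hg : IsDiffeo n 1 g) (hp : g^[m] p = p)
    (he : e ∈ Ch n M) (hpe : p ∈ e.source)
    (hder : ‖fderiv ℝ (e ∘ g^[m] ∘ e.symm) (e p)‖ < 1) :
    ∃ K : Set M, IsCompact K ∧ p ∈ interior K ∧ (∀ x ∈ K, g^[m] x ∈ interior K) ∧
      ∀ x ∈ K, Tendsto (fun k : ℕ => g^[m * k] x) atTop (𝓝 p) := by
  obtain ⟨-, -, hhom, hcd⟩ := diff1 n M 1
  have hgc : Continuous g := by
    obtain ⟨G, hG⟩ := hhom g hg
    rw [← hG]
    exact G.continuous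
  set h : M → M := g^[m] with hh
  have hhc : Continuous h := hgc.iterate m
  set F : E n → E n := e ∘ h ∘ e.symm with hFdef
  have hF1 : ContDiffAt ℝ 1 F (e p) := hcd g m e e p hg he he hpe (by rw [← hh, hp]; exact hpe)
  have hFp : F (e p) = e p := by
    rw [hFdef, Function.comp_apply, Function.comp_apply, e.left_inv hpe, hp]
  obtain ⟨l, hl1, hl2⟩ := exists_between hder
  have hl0 : 0 < l := (norm_nonneg _).trans_lt hl1
  have hpt : e p ∈ e.target := e.map_source hpe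
  have ev1 : ∀ᶠ y in 𝓝 (e p), y ∈ e.target := e.open_target.mem_nhds hpt
  have hsc : ContinuousAt e.symm (e p) := e.continuousAt_symm hpt
  have ev3 : ∀ᶠ y in 𝓝 (e p), h (e.symm y) ∈ e.source := by
    have : ContinuousAt (fun y => h (e.symm y)) (e p) := hhc.continuousAt.comp hsc
    refine this.eventually_mem ?_
    rw [e.left_inv hpe, hp]
    exact e.open_source.mem_nhds hpe
  have ev4 : ∀ᶠ y in 𝓝 (e p), ContDiffAt ℝ 1 F y := hF1.eventually (by simp)
  have ev5 : ∀ᶠ y in 𝓝 (e p), ‖fderiv ℝ F y‖ < l := by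
    have hc : ContinuousAt (fderiv ℝ F) (e p) := hF1.continuousAt_fderiv (by simp)
    exact hc.norm.eventually_lt_const hl1
  obtain ⟨r, hr, hball⟩ := Metric.nhds_basis_closedBall.mem_iff.mp
    ((ev1.and (ev3.and ev4)).and ev5)
  set B : Set (E n) := closedBall (e p) r with hBdef
  have hB1 : B ⊆ e.target := fun y hy => (hball hy).1.1
  have hB3 : ∀ y ∈ B, h (e.symm y) ∈ e.source := fun y hy => (hball hy).1.2.1
  have hB4 : ∀ y ∈ B, ContDiffAt ℝ 1 F y := fun y hy => (hball hy).1.2.2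
  have hB5 : ∀ y ∈ B, ‖fderiv ℝ F y‖ < l := fun y hy => (hball hy).2
  have hcb : IsCompact B := isCompact_closedBall _ _
  have hpB : e p ∈ B := mem_closedBall_self hr.le
  have hFl : ∀ y ∈ B, ‖F y - e p‖ ≤ l * ‖y - e p‖ := by
    intro y hy
    have := (convex_closedBall (e p) r).norm_image_sub_le_of_norm_fderiv_le (𝕜 := ℝ) (f := F)
      (C := l) (fun z hz => (hB4 z hz).differentiableAt (by simp)) (fun z hz => (hB5 z hz).le)
      hpB hy
    rwa [hFp] at this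
  set Kb : Set M := e.symm '' B with hKb
  have hKbc : IsCompact Kb := hcb.image_of_continuousOn (e.continuousOn_symm.mono hB1)
  have hKbm : MapsTo h Kb e.source := by
    rintro _ ⟨y, hy, rfl⟩
    exact hB3 y hy
  set U : Set M := e.source ∩ e ⁻¹' ball (e p) r with hU
  have hUo : IsOpen U := e.isOpen_inter_preimage isOpen_ball
  have hUKb : U ⊆ Kb := by
    intro x hx
    exact ⟨e x, ball_subset_closedBall hx.2, e.left_inv hx.1⟩
  have hUi : U ⊆ interior Kb := interior_maximal hUKb hUo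
  have hpU : p ∈ U := ⟨hpe, mem_ball_self hr⟩
  have hmapB : ∀ y ∈ B, F y ∈ B := by
    intro y hy
    have h2 := hFl y hy
    have h3 : ‖y - e p‖ ≤ r := by rw [← dist_eq_norm]; exact hy
    rw [hBdef, mem_closedBall, dist_eq_norm]
    have h5 : 0 ≤ ‖y - e p‖ := norm_nonneg _
    nlinarith
  obtain ⟨y', hy', hfix, hconv⟩ := contract F (e p) r l hr.le hl2
    (fun y hy => (hB4 y hy).differentiableAt (by simp)) (fun y hy => (hB5 y hy).le) hmapB
  have hy'p : y' = e p := by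
    have h1 := hconv (e p) hpB
    have h2 : ∀ k : ℕ, F^[k] (e p) = e p := fun k => Function.iterate_fixed hFp k
    simp only [h2] at h1
    exact tendsto_nhds_unique h1 tendsto_const_nhds
  obtain ⟨dyn1, dyn2⟩ := chart_dyn e h B hB1 hKbm hmapB
  refine ⟨Kb, hKbc, hUi hpU, ?_, ?_⟩
  · rintro _ ⟨y, hy, rfl⟩
    refine hUi ⟨hB3 y hy, ?_⟩
    have h2 : e (h (e.symm y)) = F y := rfl
    show e (h (e.symm y)) ∈ ball (e p) r
    rw [h2, mem_ball, dist_eq_norm]
    have h3 := hFl y hy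
    have h4 : ‖y - e p‖ ≤ r := by rw [← dist_eq_norm]; exact hy
    nlinarith
  · rintro _ ⟨y, hy, rfl⟩
    have h1 := hconv y hy
    rw [hy'p] at h1
    have h2 : Tendsto (fun k : ℕ => e.symm (F^[k] y)) atTop (𝓝 (e.symm (e p))) :=
      hsc.tendsto.comp h1
    rw [e.left_inv hpe] at h2
    refine h2.congr fun k => ?_
    rw [Function.iterate_mul, (dyn2 (e.symm y) ⟨y, hy, rfl⟩ k).1, e.right_inv (hB1 hy)]

end MST_

open Pool.Agent.Pal.SINKC_ Pool.Agent.Pal.C0C_ MST_ in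
theorem mst (h1 : T_WANDER) (h2 : T_SADC) (h3 : T_NULLP) : T_MST := by
  intro n M _ _ _ _ _ _ μ g N K P p₀ V hμ hg hN hK hV hKK hP hp₀ hVd hsink hPt
  obtain ⟨-, -, hhom, hcd⟩ := diff1 n M 1
  have hcont : ∀ f : M → M, IsDiffeo n 1 f → Continuous f := by
    intro f hf
    obtain ⟨G, rfl⟩ := hhom f hf
    exact G.continuous
  have hgc := hcont g hg
  obtain ⟨e, he, hpe, hder⟩ := hsink
  obtain ⟨K₀, hK₀, hpK₀, hK₀K, hK₀t⟩ := sinkball g N p₀ e hg (hP p₀ hp₀).2 he hpe hder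
  have nS := sinkc nbd tC0C tITC diff1 n M g N p₀ K₀ e hg hN (hP p₀ hp₀).2 he hpe hder hK₀ hpK₀
    hK₀K hK₀t
  -- the alternatives at the points of P
  have hW : ∀ p ∈ P, ∃ s : ℝ, 0 < s ∧ Nbd n g {g' |
      μ {x | ∀ k : ℕ, dist (g'^[N * k] x) p < s} = 0 ∨
        ∃ i : ℕ, ∀ x, dist x p < s → g'^[i] x ∈ K₀} := by
    intro p hp
    rcases hPt p hp with ⟨i, hi⟩ | hs
    · obtain ⟨ε, hε, hεK⟩ := Metric.isOpen_iff.1 isOpen_interior p₀ hpK₀
      obtain ⟨s, hs, hs'⟩ := Metric.continuous_iff.1 (hgc.iterate i) p (ε / 2) (by linarith)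
      obtain ⟨η, hη, hη'⟩ := iter_close g hgc i (ε / 2) (by linarith)
      refine ⟨s, hs, ?_⟩
      refine (nbd n M g).2.1 _ _ (tC0C n M g η hgc hη) fun g' hg' => Or.inr ⟨i, fun x hx => ?_⟩
      refine interior_subset (hεK ?_)
      have a1 := hη' g' hg' x
      have a2 := hs' x hx
      rw [hi] at a2
      rw [mem_ball]
      calc dist (g'^[i] x) p₀ ≤ dist (g'^[i] x) (g^[i] x) + dist (g^[i] x) p₀ :=
            dist_triangle _ _ _
        _ < ε := by linarith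
    · obtain ⟨s, hs, hn⟩ := h2 n M μ g N p hμ hg hs
      exact ⟨s, hs, (nbd n M g).2.1 _ _ hn fun g' hg' => Or.inl hg'⟩
  choose! sf hsf hsn using hW
  have hPne : P.Nonempty := ⟨p₀, hp₀⟩
  obtain ⟨s, hs, hsle⟩ : ∃ s : ℝ, 0 < s ∧ ∀ p ∈ P, s ≤ sf p :=
    ⟨P.inf' hPne sf, (Finset.lt_inf'_iff hPne).2 hsf, fun p hp => Finset.inf'_le _ hp⟩
  -- uniform closeness
  have hHc : Continuous g^[N] := hgc.iterate N
  obtain ⟨η₁, hη₁, hη₁'⟩ := h1 M K g^[N] V P s hK hHc.continuousOn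
    (fun x hx => interior_subset (hKK x hx)) hV hP hVd hs
  have c3 : IsCompact (g^[N] '' K) := hK.image hHc
  have c4 : g^[N] '' K ⊆ interior K := by
    rintro _ ⟨x, hx, rfl⟩
    exact hKK x hx
  obtain ⟨ε₂, hε₂, hε₂'⟩ := c3.exists_thickening_subset_open isOpen_interior c4
  obtain ⟨η, hη, hη'⟩ := iter_close g hgc N (min η₁ ε₂) (lt_min hη₁ hε₂)
  have n1 := tC0C n M g η hgc hη
  have n2 := nbd_finset nbd g P _ hsn
  refine (nbd n M g).2.1 _ _ (nbd_diffeo ((nbd n M g).1 _ _ nS ((nbd n M g).1 _ _ n1 n2))) ?_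
  rintro g' ⟨hg', ⟨-, p', hp', hfix, hconv⟩, hd, hWs⟩
  simp only [Set.mem_ofPred_eq] at hd hWs
  have hg'c := hcont g' hg'
  have hK' : ∀ x ∈ K, g'^[N] x ∈ interior K := by
    intro x hx
    apply hε₂'
    rw [Metric.mem_thickening_iff]
    exact ⟨g^[N] x, ⟨x, hx, rfl⟩, (hη' g' hd x).trans_le (min_le_right _ _)⟩
  refine ⟨hK', p', hfix, ?_⟩
  have hwan := hη₁' g'^[N] (fun x hx => interior_subset (hK' x hx))
    fun x _ => (hη' g' hd x).trans_le (min_le_left _ _)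
  -- the exceptional set
  refine measure_mono_null (t := ⋃ p ∈ {p | p ∈ P ∧
    μ {x | ∀ k : ℕ, dist (g'^[N * k] x) p < sf p} = 0}, ⋃ j : ℕ,
      g'^[j] ⁻¹' {x | ∀ k : ℕ, dist (g'^[N * k] x) p < sf p}) ?_ ?_
  · rintro x ⟨⟨k, hk⟩, hxb⟩
    obtain ⟨p, hp, k₀, hk₀⟩ := hwan _ hk
    rcases hWs p hp with hnull | ⟨i, hi⟩
    · refine Set.mem_iUnion₂.2 ⟨p, ⟨hp, hnull⟩, Set.mem_iUnion.2 ⟨N * k₀ + k, fun j => ?_⟩⟩
      have a1 := hk₀ (j + k₀) (Nat.le_add_left _ _)
      have a2 : g'^[N * j] (g'^[N * k₀ + k] x) = (g'^[N])^[j + k₀] (g'^[k] x) := by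
        rw [← Function.iterate_mul, ← Function.iterate_add_apply, ← Function.iterate_add_apply]
        congr 1
        ring
      rw [a2]
      exact a1.trans_le (hsle p hp)
    · refine absurd ?_ hxb
      refine bas M g' N p' K₀ hg'c hN hfix hconv x ⟨i + (N * k₀ + k), ?_⟩
      rw [Function.iterate_add_apply]
      refine hi _ ?_
      have a1 := hk₀ k₀ le_rfl
      rw [← Function.iterate_mul, ← Function.iterate_add_apply] at a1
      exact a1.trans_le (hsle p hp)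
  · have hfin : {p | p ∈ P ∧ μ {x | ∀ k : ℕ, dist (g'^[N * k] x) p < sf p} = 0}.Countable :=
      (P.finite_toSet.subset fun p hp => hp.1).countable
    refine (measure_biUnion_null_iff hfin).2 fun p hp => measure_iUnion_null fun j => ?_
    exact h3 n M μ g' j _ hμ hg' hp.2

end Pool.Agent.PalT
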