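import Pool.Agent.PalT.STEPA

/-!
# Tools for the assembly
-/

set_option autoImplicit false

open Set MeasureTheory Filter Topology Metric Asymptotics
open scoped Manifold ContDiff

namespace Pool.Agent.PalT

open Pool.Agent.Pal

/-- Composition with a small modification in a strip. -/
theorem ncomp (d r : ℕ) (w w' : ℝ) (R : E (d + 1) → E (d + 1)) (hR : ModT d w R) (ε : ℝ)
    (hε : 0 < ε) : ∃ δ : ℝ, 0 < δ ∧ ∀ Q, ModT d w' Q → Near r δ Q → ∀ j ≤ r, ∀ y,
      ‖iteratedFDeriv ℝ j (fun x => R (Q x) - R x) y‖ ≤ ε := by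
  set C : Set (E (d + 1)) := {x | |x 0| ≤ w' ∧ ∀ i : Fin d, 0 ≤ x i.succ ∧ x i.succ ≤ 1} with hC
  have hCcl : IsClosed C := by
    have h1 : IsClosed {x : E (d + 1) | |x 0| ≤ w'} :=
      isClosed_le (by fun_prop) continuous_const
    have h2 : IsClosed {x : E (d + 1) | ∀ i : Fin d, 0 ≤ x i.succ ∧ x i.succ ≤ 1} := by
      simp only [setOf_forall, setOf_and]
      exact isClosed_iInter fun i => (isClosed_le continuous_const (by fun_prop)).inter
        (isClosed_le (by fun_prop) continuous_const)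
    exact h1.inter h2
  have hCb : Bornology.IsBounded C := by
    refine (isBounded_closedBall (x := (0 : E (d + 1)))
      (r := Real.sqrt ((d + 1 : ℕ) : ℝ) * (|w'| + 1))).subset fun x hx => ?_
    rw [mem_closedBall_zero_iff]
    refine STEPA_.norm_le_of_coord (by positivity) fun i => ?_
    refine Fin.cases ?_ (fun j => ?_) i
    · exact (hx.1.trans (le_abs_self _)).trans (by linarith)
    · have := hx.2 j
      rw [abs_of_nonneg this.1]
      linarith [abs_nonneg w']
  have hCc : IsCompact C := Metric.isCompact_of_isClosed_isBounded hCcl hCb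
  obtain ⟨δ, hδ, h⟩ := rcomp (d + 1) r univ C R ε isOpen_univ hCc (subset_univ _)
    hR.1.contDiffOn hε
  refine ⟨δ, hδ, fun Q hQ hQn j hj y => ?_⟩
  have hRQ : ContDiff ℝ ∞ (R ∘ Q) := hR.1.comp hQ.1
  have key : ∀ y ∈ C, ‖iteratedFDeriv ℝ j (fun x => R (Q x) - R x) y‖ ≤ ε := by
    intro y hy
    have h1 := (h Q hQ.1 hQn y hy).2 j hj
    have h2 : iteratedFDeriv ℝ j (fun x => R (Q x) - R x) y =
        iteratedFDeriv ℝ j (R ∘ Q) y - iteratedFDeriv ℝ j R y :=
      iteratedFDeriv_sub_apply (hRQ.contDiffAt.of_le (by exact_mod_cast le_top))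
        (hR.1.contDiffAt.of_le (by exact_mod_cast le_top))
    rw [h2]
    exact h1
  by_cases hy : w' < |y 0|
  · have h3 : (fun x => R (Q x) - R x) =ᶠ[𝓝 y] fun _ => 0 := by
      have h4 : ∀ᶠ x in 𝓝 y, w' < |x 0| :=
        (isOpen_lt continuous_const (by fun_prop)).mem_nhds hy
      filter_upwards [h4] with x hx
      rw [hQ.2.2 x hx.le, sub_self]
    rw [(h3.iteratedFDeriv ℝ j).eq_of_nhds]
    simp only [iteratedFDeriv_zero_fun, Pi.zero_apply, norm_zero]
    exact hε.le
  · -- translate into the cell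
    push Not at hy
    set v : E (d + 1) := WithLp.toLp 2 (Fin.cons 0 (fun i => -(⌊y i.succ⌋ : ℝ))) with hv
    have hv0 : v 0 = 0 := by simp [hv]
    have hvs : ∀ i : Fin d, v i.succ = -(⌊y i.succ⌋ : ℝ) := fun i => by simp [hv]
    have hvL : v ∈ Lat d := by
      refine ⟨hv0, fun i => ?_⟩
      refine Fin.cases ⟨0, by rw [hv0]; simp⟩ (fun j => ⟨-⌊y j.succ⌋, by rw [hvs]; push_cast; rfl⟩) i
    have hyC : y + v ∈ C := by
      refine ⟨by simpa [hv0] using hy, fun i => ?_⟩
      have h1 := Int.floor_le (y i.succ)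
      have h2 := (Int.lt_floor_add_one (y i.succ)).le
      constructor
      · rw [PiLp.add_apply, hvs]; linarith
      · rw [PiLp.add_apply, hvs]; linarith
    have h5 := key (y + v) hyC
    have h6 : (fun x => R (Q (x + v)) - R (x + v)) = fun x => R (Q x) - R x := by
      funext x
      rw [hQ.2.1 x v hvL, hR.2.1 (Q x) v hvL, hR.2.1 x v hvL]
      abel
    have h7 : iteratedFDeriv ℝ j (fun x => R (Q (x + v)) - R (x + v)) y =
        iteratedFDeriv ℝ j (fun x => R (Q x) - R x) (y + v) :=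
      iteratedFDeriv_comp_add_right (f := fun x => R (Q x) - R x) j v y
    rw [h6] at h7
    rw [h7]
    exact h5

/-- Periodic functions descend to the collar. -/
theorem desc {d : ℕ} {M : Type} [TopologicalSpace M] [ChartedSpace (E (d + 1)) M]
    [IsManifold 𝓘(ℝ, E (d + 1)) ∞ M] [T2Space M] (hCOLL : T_COLL) {w : ℝ} {T : E (d + 1) → M}
    (hT : Collar w T) {u : E (d + 1) → ℝ} (hu : Continuous u) (hper : Per d u) :
    ∃ V : M → ℝ, (∀ x ∈ Strip d w, V (T x) = u x) ∧ ContinuousOn V (T '' Strip d w) := by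
  classical
  obtain ⟨-, hopen, -, -⟩ := hCOLL d M w T hT
  set V : M → ℝ := fun y => if h : ∃ x ∈ Strip d w, T x = y then u (Classical.choose h) else 0
    with hV
  have h1 : ∀ x ∈ Strip d w, V (T x) = u x := by
    intro x hx
    have h : ∃ x' ∈ Strip d w, T x' = T x := ⟨x, hx, rfl⟩
    have h2 : V (T x) = u (Classical.choose h) := by simp only [hV, dif_pos h]
    rw [h2]
    obtain ⟨h3, h4⟩ := Classical.choose_spec h
    have h5 := (hT.2.2 _ h3 x hx).1 h4
    have h6 := hper x _ h5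
    rw [add_sub_cancel] at h6
    exact h6
  refine ⟨V, h1, ?_⟩
  rintro _ ⟨x, hx, rfl⟩
  apply ContinuousAt.continuousWithinAt
  intro O hO
  rw [h1 x hx] at hO
  have hSo : IsOpen (Strip d w) := isOpen_lt (by fun_prop) continuous_const
  obtain ⟨O', hO'O, hO'o, hxO'⟩ := _root_.mem_nhds_iff.1 hO
  have h2 : IsOpen (T '' (Strip d w ∩ u ⁻¹' O')) :=
    hopen _ inter_subset_left (hSo.inter (hO'o.preimage hu))
  rw [Filter.mem_map]
  refine Filter.mem_of_superset (h2.mem_nhds ⟨x, ⟨hx, hxO'⟩, rfl⟩) ?_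
  rintro _ ⟨x', ⟨hx', hx'O⟩, rfl⟩
  show V (T x') ∈ O
  rw [h1 x' hx']
  exact hO'O hx'O

/-- The periodic points of the Morse-Smale map are finitely many modulo `Lat`. -/
theorem mspt_finite {d : ℕ} {M : Type} [TopologicalSpace M] [ChartedSpace (E (d + 1)) M]
    {w : ℝ} {T : E (d + 1) → M} (hT : Collar w T) (q : Fin d → ℕ) (hq : ∀ i, 2 ≤ q i) :
    (T '' MSPt d q).Finite := by
  set S : Set (E (d + 1)) := (fun k : (i : Fin d) → Fin (2 * q i) =>
    (WithLp.toLp 2 (Fin.cons 0 (fun i => ((k i : ℕ) : ℝ) / (2 * q i))) : E (d + 1))) '' univ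
    with hS
  have hSf : S.Finite := finite_univ.image _
  refine (hSf.image T).subset ?_
  rintro _ ⟨x, ⟨hx0, hx⟩, rfl⟩
  choose k hk using hx
  have hq0 : ∀ i, (0 : ℝ) < 2 * q i := fun i => by
    have := hq i
    positivity
  have hqz : ∀ i, (0 : ℤ) < 2 * q i := fun i => by
    have := hq i
    positivity
  set k' : (i : Fin d) → Fin (2 * q i) := fun i =>
    ⟨(k i % (2 * q i)).toNat, by
      have h1 := Int.emod_nonneg (k i) (hqz i).ne'
      have h2 := Int.emod_lt_of_pos (k i) (hqz i)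
      omega⟩ with hk'
  refine ⟨_, ⟨k', mem_univ _, rfl⟩, ?_⟩
  set x' : E (d + 1) := (WithLp.toLp 2 (Fin.cons 0 (fun i => ((k' i : ℕ) : ℝ) / (2 * q i))) :
    E (d + 1)) with hx'
  have hx'0 : x' 0 = 0 := by simp [hx']
  have hx's : ∀ i : Fin d, x' i.succ = ((k' i : ℕ) : ℝ) / (2 * q i) := fun i => by simp [hx']
  have hw := hT.1
  refine (hT.2.2 x' (by show |x' 0| < w; rw [hx'0, abs_zero]; exact hw) x
    (by show |x 0| < w; rw [hx0, abs_zero]; exact hw)).2 ?_
  refine ⟨by simp [hx'0, hx0], fun i => ?_⟩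
  refine Fin.cases ⟨0, by simp [hx'0, hx0]⟩ (fun j => ⟨-(k j / (2 * q j)), ?_⟩) i
  have h1 : ((k' j : ℕ) : ℤ) = k j % (2 * q j) := by
    simp only [hk']
    exact Int.toNat_of_nonneg (Int.emod_nonneg (k j) (hqz j).ne')
  have h2 : ((k' j : ℕ) : ℝ) = (k j : ℝ) - (2 * q j) * ((k j / (2 * q j) : ℤ) : ℝ) := by
    have h3 := Int.emod_add_mul_ediv (k j) (2 * q j)
    have h4 : ((k' j : ℕ) : ℤ) = k j - (2 * q j) * (k j / (2 * q j)) := by
      rw [h1]; linarith
    have h5 := congrArg (fun t : ℤ => (t : ℝ)) h4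
    push_cast at h5
    exact_mod_cast h5
  have h6 : x j.succ = (k j : ℝ) / (2 * q j) := by
    rw [eq_div_iff (hq0 j).ne', mul_comm]
    exact hk j
  rw [PiLp.sub_apply, hx's, h6, h2]
  have h7 := (hq0 j).ne'
  rw [div_sub_div_same, div_eq_iff h7]
  push_cast
  ring

end Pool.Agent.PalT
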