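import Pool.Agent.PalT.Targets

/-!
# NEART: points near the orbit of a compact set enter its neighbourhood
-/

set_option autoImplicit false

open Metric Set

namespace Pool.Agent.PalT

namespace NEART_

theorem iter_close {M : Type} [MetricSpace M] [CompactSpace M] {g : M → M} (hg : Continuous g)
    (k : ℕ) : ∀ ε : ℝ, 0 < ε → ∃ η : ℝ, 0 < η ∧ ∀ g' : M → M,
      (∀ x, dist (g' x) (g x) < η) → ∀ x, dist (g'^[k] x) (g^[k] x) < ε := by
  induction k with
  | zero =>
    intro ε hε
    refine ⟨1, one_pos, fun g' _ x => ?_⟩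
    simpa using hε
  | succ k ih =>
    intro ε hε
    have hu := CompactSpace.uniformContinuous_of_continuous hg
    rw [Metric.uniformContinuous_iff] at hu
    obtain ⟨δ, hδ, hgδ⟩ := hu (ε / 2) (half_pos hε)
    obtain ⟨η, hη, h⟩ := ih δ hδ
    refine ⟨min η (ε / 2), lt_min hη (half_pos hε), fun g' hg' x => ?_⟩
    have h1 := h g' (fun x => (hg' x).trans_le (min_le_left _ _)) x
    have h2 := hgδ h1
    have h3 := (hg' (g'^[k] x)).trans_le (min_le_right _ _)
    rw [Function.iterate_succ_apply', Function.iterate_succ_apply']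
    calc dist (g' (g'^[k] x)) (g (g^[k] x)) ≤ dist (g' (g'^[k] x)) (g (g'^[k] x)) +
          dist (g (g'^[k] x)) (g (g^[k] x)) := dist_triangle _ _ _
      _ < ε := by linarith

end NEART_

open NEART_ in
theorem neart : T_NEART := by
  intro M _ _ g m Λ O hg hΛ hO hΛO hmap
  obtain ⟨ε, hε, hεO⟩ := hΛ.exists_thickening_subset_open hO hΛO
  have key : ∀ j ≤ m, ∃ d : ℝ, 0 < d ∧ ∃ η : ℝ, 0 < η ∧ ∀ g' : M → M,
      (∀ x, dist (g' x) (g x) < η) → ∀ i < j, ∀ x, ∀ y ∈ Λ, dist x (g^[i] y) < 2 * d →
      ∃ k, g'^[k] x ∈ O := by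
    intro j
    induction j with
    | zero => intro _; exact ⟨1, one_pos, 1, one_pos, fun g' _ i hi => absurd hi (Nat.not_lt_zero i)⟩
    | succ j ih =>
      intro hj
      obtain ⟨d, hd, η, hη, h⟩ := ih (by omega)
      have hu := CompactSpace.uniformContinuous_of_continuous (hg.iterate (m - j))
      rw [Metric.uniformContinuous_iff] at hu
      obtain ⟨δ, hδ, hgδ⟩ := hu (ε / 2) (half_pos hε)
      obtain ⟨η', hη', hψ⟩ := iter_close hg (m - j) (ε / 2) (half_pos hε)
      refine ⟨min d (δ / 2), lt_min hd (half_pos hδ), min η η', lt_min hη hη', ?_⟩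
      intro g' hg' i hi x y hy hx
      rcases Nat.lt_succ_iff_lt_or_eq.1 hi with hi | rfl
      · exact h g' (fun x => (hg' x).trans_le (min_le_left _ _)) i hi x y hy
          (hx.trans_le (by linarith [min_le_left d (δ / 2)]))
      · refine ⟨m - i, hεO ?_⟩
        have h1 := hψ g' (fun x => (hg' x).trans_le (min_le_right _ _)) x
        have h2 : dist x (g^[i] y) < δ := hx.trans_le (by linarith [min_le_right d (δ / 2)])
        have h3 := hgδ h2
        rw [← Function.iterate_add_apply, Nat.sub_add_cancel (by omega)] at h3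
        rw [mem_thickening_iff]
        refine ⟨g^[m] y, hmap y hy, ?_⟩
        calc dist (g'^[m - i] x) (g^[m] y) ≤ dist (g'^[m - i] x) (g^[m - i] x)
              + dist (g^[m - i] x) (g^[m] y) := dist_triangle _ _ _
          _ < ε := by linarith
  obtain ⟨d, hd, η, hη, h⟩ := key m le_rfl
  exact ⟨d, hd, η, hη, h⟩

end Pool.Agent.PalT
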