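import Pool.Agent.PalT.Targets
import Pool.Agent.Pal.PROF
import Pool.Agent.Pal.VOLM
import Pool.Agent.Pal.VOLE
import Pool.Agent.Pal.EXT
import Pool.Agent.Pal.JACC
import Pool.Agent.PalF.PIN

/-!
# KT-NORM: collars in which the volume is Lebesgue measure
-/

set_option autoImplicit false
set_option linter.unusedSectionVars false

open Set MeasureTheory Filter Topology Metric Asymptotics
open scoped Manifold ContDiff

namespace Pool.Agent.PalT

open Pool.Agent.Pal

namespace NORM_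

variable {d : ℕ}

/-- The normal direction. -/
noncomputable def e0 (d : ℕ) : E (d + 1) := EuclideanSpace.single 0 1

@[simp] lemma e0_zero : e0 d 0 = 1 := by simp [e0]

@[simp] lemma e0_succ (i : Fin d) : e0 d i.succ = 0 := by simp [e0]

lemma ext' {x y : E (d + 1)} (h0 : x 0 = y 0) (h : ∀ i : Fin d, x i.succ = y i.succ) : x = y := by
  ext i
  refine Fin.cases h0 h i

section Straight

variable (H : E (d + 1) → ℝ)

/-- The new normal coordinate. -/
noncomputable def Y (x : E (d + 1)) : ℝ := ∫ t in (0 : ℝ)..(x 0), H (x + (t - x 0) • e0 d)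

/-- The change of coordinates. -/
noncomputable def Ph (x : E (d + 1)) : E (d + 1) := x + (Y H x - x 0) • e0 d

lemma Ph_zero (x : E (d + 1)) : Ph H x 0 = Y H x := by simp [Ph]

lemma Ph_succ (x : E (d + 1)) (i : Fin d) : Ph H x i.succ = x i.succ := by simp [Ph]

lemma coord0_smooth : ContDiff ℝ ∞ (fun x : E (d + 1) => x 0) :=
  contDiff_euclidean.1 contDiff_id 0

lemma Y_eq (x : E (d + 1)) :
    Y H x = x 0 * ∫ s in (0 : ℝ)..1, H (x + (x 0 * s - x 0) • e0 d) := by
  have := intervalIntegral.mul_integral_comp_mul_left (a := 0) (b := 1)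
    (f := fun t => H (x + (t - x 0) • e0 d)) (x 0)
  rw [mul_zero, mul_one] at this
  exact this.symm

variable {H}

lemma Y_smooth (hH : ContDiff ℝ ∞ H) : ContDiff ℝ ∞ (Y H) := by
  have h1 : Y H = fun x => x 0 * ∫ s in (0 : ℝ)..1, H (x + (x 0 * s - x 0) • e0 d) :=
    funext (Y_eq H)
  rw [h1]
  refine coord0_smooth.mul ?_
  refine PalF.PIN_.contDiff_param_infty 0 1
    (F := fun p : E (d + 1) × ℝ => H (p.1 + (p.1 0 * p.2 - p.1 0) • e0 d)) ?_
  refine hH.comp ?_
  have h0 : ContDiff ℝ ∞ (fun p : E (d + 1) × ℝ => p.1 0) := coord0_smooth.comp contDiff_fst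
  exact contDiff_fst.add (((h0.mul contDiff_snd).sub h0).smul contDiff_const)

lemma Ph_smooth (hH : ContDiff ℝ ∞ H) : ContDiff ℝ ∞ (Ph H) :=
  contDiff_id.add (((Y_smooth hH).sub coord0_smooth).smul contDiff_const)

/-- The integral along the fibre. -/
noncomputable def yf (H : E (d + 1) → ℝ) (x : E (d + 1)) (s : ℝ) : ℝ :=
  ∫ t in (0 : ℝ)..s, H (x + (t - x 0) • e0 d)

lemma Y_fibre (x : E (d + 1)) (r : ℝ) : Y H (x + r • e0 d) = yf H x (x 0 + r) := by
  have h1 : (x + r • e0 d) 0 = x 0 + r := by simp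
  unfold Y yf
  rw [h1]
  refine intervalIntegral.integral_congr fun t _ => ?_
  show H (x + r • e0 d + (t - (x 0 + r)) • e0 d) = H (x + (t - x 0) • e0 d)
  congr 1
  rw [add_assoc, ← add_smul]
  congr 2
  ring

lemma yf_deriv (hH : Continuous H) (x : E (d + 1)) (s : ℝ) :
    HasDerivAt (yf H x) (H (x + (s - x 0) • e0 d)) s := by
  have hc : Continuous fun t : ℝ => H (x + (t - x 0) • e0 d) := by fun_prop
  exact intervalIntegral.integral_hasDerivAt_right (hc.intervalIntegrable _ _)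
    hc.aestronglyMeasurable.stronglyMeasurableAtFilter hc.continuousAt

lemma yf_mono (hH : Continuous H) (hp : ∀ x, 0 < H x) (x : E (d + 1)) :
    StrictMono (yf H x) :=
  strictMono_of_deriv_pos fun s => by
    rw [(yf_deriv hH x s).deriv]
    exact hp _

lemma yf_zero (x : E (d + 1)) : yf H x 0 = 0 := by simp [yf]

lemma yf_lower (hH : Continuous H) {m : ℝ} (hm : ∀ x, m ≤ H x) (x : E (d + 1)) :
    Monotone fun s => yf H x s - m * s := by
  refine monotone_of_deriv_nonneg ?_ ?_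
  · intro s
    exact ((yf_deriv hH x s).differentiableAt).sub (by fun_prop)
  · intro s
    have h1 : HasDerivAt (fun s => yf H x s - m * s) (H (x + (s - x 0) • e0 d) - m * 1) s :=
      (yf_deriv hH x s).sub ((hasDerivAt_id s).const_mul m)
    rw [h1.deriv]
    linarith [hm (x + (s - x 0) • e0 d)]

lemma Y_eq_yf (x : E (d + 1)) : Y H x = yf H x (x 0) := rfl

lemma Y_lower (hH : Continuous H) {m : ℝ} (hm : ∀ x, m ≤ H x) (x : E (d + 1)) :
    m * |x 0| ≤ |Y H x| := by
  have h := yf_lower hH hm x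
  rw [Y_eq_yf]
  rcases le_total 0 (x 0) with h0 | h0
  · have h1 := h h0
    simp only [yf_zero, mul_zero, sub_zero] at h1
    rw [abs_of_nonneg h0]
    exact le_trans (by linarith) (le_abs_self _)
  · have h1 := h h0
    simp only [yf_zero, mul_zero, sub_zero] at h1
    rw [abs_of_nonpos h0]
    exact le_trans (by linarith) (neg_le_abs _)

lemma yf_surj (hH : Continuous H) {m : ℝ} (hm0 : 0 < m) (hm : ∀ x, m ≤ H x) (x : E (d + 1)) :
    Function.Surjective (yf H x) := by
  have h := yf_lower hH hm x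
  refine Continuous.surjective ?_ ?_ ?_
  · exact continuous_iff_continuousAt.2 fun s => (yf_deriv hH x s).continuousAt
  · refine tendsto_atTop_mono' _ ?_ (tendsto_id.const_mul_atTop hm0)
    filter_upwards [eventually_ge_atTop 0] with s hs
    have h1 := h hs
    simp only [yf_zero, mul_zero, sub_zero] at h1
    simp only [id]
    linarith
  · refine tendsto_atBot_mono' _ ?_ (tendsto_id.const_mul_atBot hm0)
    filter_upwards [eventually_le_atBot 0] with s hs
    have h1 := h hs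
    simp only [yf_zero, mul_zero, sub_zero] at h1
    simp only [id]
    linarith

lemma Ph_inj (hH : Continuous H) (hp : ∀ x, 0 < H x) : Function.Injective (Ph H) := by
  intro x x' hx
  have hs : ∀ i : Fin d, x i.succ = x' i.succ := fun i => by
    rw [← Ph_succ H x i, hx, Ph_succ]
  have hx' : x' = x + (x' 0 - x 0) • e0 d := by
    refine ext' (by simp) fun i => by simp [hs i]
  have h0 : Y H x = Y H x' := by rw [← Ph_zero, hx, Ph_zero]
  rw [hx', Y_fibre, Y_eq_yf] at h0
  have h1 := (yf_mono hH hp x).injective h0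
  rw [hx']
  have : x' 0 - x 0 = 0 := by linarith
  rw [this]
  simp

lemma Ph_surj (hH : Continuous H) {m : ℝ} (hm0 : 0 < m) (hm : ∀ x, m ≤ H x) :
    Function.Surjective (Ph H) := by
  intro z
  obtain ⟨s, hs⟩ := yf_surj hH hm0 hm z (z 0)
  refine ⟨z + (s - z 0) • e0 d, ?_⟩
  refine ext' ?_ fun i => ?_
  · rw [Ph_zero, Y_fibre]
    rw [show z 0 + (s - z 0) = s by ring, hs]
  · rw [Ph_succ]
    simp

lemma Y_fderiv (hH : ContDiff ℝ ∞ H) (x : E (d + 1)) : fderiv ℝ (Y H) x (e0 d) = H x := by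
  have h1 : HasFDerivAt (Y H) (fderiv ℝ (Y H) x) x :=
    ((Y_smooth hH).differentiable (by simp) x).hasFDerivAt
  have h2 : HasDerivAt (fun r : ℝ => x + r • e0 d) (e0 d) 0 := by
    have := ((hasDerivAt_id (0 : ℝ)).smul_const (e0 d)).const_add x
    simpa using this
  have h3 : HasDerivAt (fun r : ℝ => Y H (x + r • e0 d)) (fderiv ℝ (Y H) x (e0 d)) 0 := by
    have h1' : HasFDerivAt (Y H) (fderiv ℝ (Y H) x) (x + (0 : ℝ) • e0 d) := by simpa using h1
    exact h1'.comp_hasDerivAt 0 h2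
  have h4 : HasDerivAt (fun r : ℝ => Y H (x + r • e0 d)) (H x) 0 := by
    have h5 : (fun r : ℝ => Y H (x + r • e0 d)) = fun r => yf H x (x 0 + r) :=
      funext (Y_fibre x)
    rw [h5]
    have h6 : HasDerivAt (yf H x) (H x) (x 0 + 0) := by
      have := yf_deriv hH.continuous x (x 0 + 0)
      simpa using this
    exact HasDerivAt.comp_const_add (x 0) 0 h6
  exact h3.unique h4

lemma Ph_fderiv (hH : ContDiff ℝ ∞ H) (x : E (d + 1)) :
    HasFDerivAt (Ph H) (ContinuousLinearMap.id ℝ (E (d + 1)) +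
      (fderiv ℝ (Y H) x - EuclideanSpace.proj 0).smulRight (e0 d)) x := by
  have h1 : HasFDerivAt (Y H) (fderiv ℝ (Y H) x) x :=
    ((Y_smooth hH).differentiable (by simp) x).hasFDerivAt
  have h2 : HasFDerivAt (fun x : E (d + 1) => x 0)
      (EuclideanSpace.proj 0 : E (d + 1) →L[ℝ] ℝ) x :=
    (EuclideanSpace.proj 0 : E (d + 1) →L[ℝ] ℝ).hasFDerivAt
  exact (hasFDerivAt_id x).add ((h1.sub h2).smul_const (e0 d))

lemma Ph_det (hH : ContDiff ℝ ∞ H) (x : E (d + 1)) : (fderiv ℝ (Ph H) x).det = H x := by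
  rw [(Ph_fderiv hH x).fderiv]
  have h := PROF_.det_rank_one (n := d + 1) (by omega) 1 one_ne_zero
    (fderiv ℝ (Y H) x - EuclideanSpace.proj 0) (e0 d)
  rw [one_smul, one_pow, one_mul] at h
  rw [h, sub_apply, Y_fderiv hH]
  simp

/-- The change of coordinates as a homeomorphism with smooth inverse. -/
lemma exists_homeo (hH : ContDiff ℝ ∞ H) {m : ℝ} (hm0 : 0 < m) (hm : ∀ x, m ≤ H x) :
    ∃ G : E (d + 1) ≃ₜ E (d + 1), (∀ x, G x = Ph H x) ∧ ContDiff ℝ ∞ G.symm := by
  have hp : ∀ x, 0 < H x := fun x => hm0.trans_le (hm x)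
  have hbij : Function.Bijective (Ph H) :=
    ⟨Ph_inj hH.continuous hp, Ph_surj hH.continuous hm0 hm⟩
  have hdet : ∀ x, (fderiv ℝ (Ph H) x).det ≠ 0 := fun x => by
    rw [Ph_det hH]
    exact (hp x).ne'
  set F : ∀ x : E (d + 1), E (d + 1) ≃L[ℝ] E (d + 1) := fun x =>
    (fderiv ℝ (Ph H) x).toContinuousLinearEquivOfDetNeZero (hdet x) with hF
  have hFe : ∀ x, (F x : E (d + 1) →L[ℝ] E (d + 1)) = fderiv ℝ (Ph H) x := fun x => by
    rw [hF]
    exact ContinuousLinearMap.coe_toContinuousLinearEquivOfDetNeZero _ _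
  have hd : ∀ x, HasFDerivAt (Ph H) (F x : E (d + 1) →L[ℝ] E (d + 1)) x := fun x => by
    rw [hFe]
    exact ((Ph_smooth hH).differentiable (by simp) x).hasFDerivAt
  have hopen : IsOpenMap (Ph H) := by
    refine isOpenMap_iff_nhds_le.2 fun x => ?_
    have hs : HasStrictFDerivAt (Ph H) (F x : E (d + 1) →L[ℝ] E (d + 1)) x :=
      (Ph_smooth hH).contDiffAt.hasStrictFDerivAt' (hd x) (by simp)
    exact (hs.map_nhds_eq_of_equiv).ge
  refine ⟨(Equiv.ofBijective _ hbij).toHomeomorphOfContinuousOpen (Ph_smooth hH).continuous hopen,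
    fun x => rfl, ?_⟩
  exact Homeomorph.contDiff_symm _ (f₀' := F) hd (Ph_smooth hH)

lemma Y_per (hper : Per d H) (x : E (d + 1)) {v : E (d + 1)} (hv : v ∈ Lat d) :
    Y H (x + v) = Y H x := by
  have h0 : (x + v) 0 = x 0 := by
    have := hv.1
    simp [this]
  unfold Y
  rw [h0]
  refine intervalIntegral.integral_congr fun t _ => ?_
  show H (x + v + (t - x 0) • e0 d) = H (x + (t - x 0) • e0 d)
  rw [add_right_comm]
  exact hper _ v hv

lemma Ph_per (hper : Per d H) (x : E (d + 1)) {v : E (d + 1)} (hv : v ∈ Lat d) :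
    Ph H (x + v) = Ph H x + v := by
  have h0 : (x + v) 0 = x 0 := by
    have := hv.1
    simp [this]
  unfold Ph
  rw [Y_per hper x hv, h0]
  abel

end Straight

section Cut

/-- A positive continuous periodic function that is `1` far away is bounded below. -/
lemma lower_bound {H : E (d + 1) → ℝ} (hc : Continuous H) (hp : ∀ x, 0 < H x) (hper : Per d H)
    {w : ℝ} (h1 : ∀ x : E (d + 1), w ≤ |x 0| → H x = 1) : ∃ m : ℝ, 0 < m ∧ ∀ x, m ≤ H x := by
  set K : Set (E (d + 1)) := {x | ∀ i, x i ∈ Icc (-(|w| + 1)) (|w| + 1)} with hK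
  have hKc : IsCompact K := by
    have h2 : IsCompact (Set.pi univ fun _ : Fin (d + 1) => Icc (-(|w| + 1)) (|w| + 1)) :=
      isCompact_univ_pi fun _ => isCompact_Icc
    have h3 : K = (EuclideanSpace.equiv (Fin (d + 1)) ℝ) ⁻¹'
        (Set.pi univ fun _ : Fin (d + 1) => Icc (-(|w| + 1)) (|w| + 1)) := by
      ext x
      exact ⟨fun hx i _ => hx i, fun hx i => hx i (mem_univ _)⟩
    rw [h3]
    exact (EuclideanSpace.equiv (Fin (d + 1)) ℝ).toHomeomorph.isCompact_preimage.2 h2
  have hne : K.Nonempty := ⟨0, fun i => by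
    have := abs_nonneg w
    constructor <;> simp <;> linarith⟩
  obtain ⟨x₀, -, hx₀⟩ := hKc.exists_isMinOn hne hc.continuousOn
  refine ⟨min (H x₀) 1, lt_min (hp _) one_pos, fun x => ?_⟩
  by_cases hx : w ≤ |x 0|
  · rw [h1 x hx]
    exact min_le_right _ _
  push Not at hx
  set v : E (d + 1) := WithLp.toLp 2 (Fin.cons 0 fun i : Fin d => -(⌊x i.succ⌋ : ℝ)) with hv
  have hv0 : v 0 = 0 := by simp [hv]
  have hvs : ∀ i : Fin d, v i.succ = -(⌊x i.succ⌋ : ℝ) := fun i => by simp [hv]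
  have hvL : v ∈ Lat d := by
    refine ⟨hv0, fun i => ?_⟩
    refine Fin.cases ⟨0, by simp [hv0]⟩ (fun j => ⟨-⌊x j.succ⌋, by simp [hvs]⟩) i
  rw [← hper x v hvL]
  refine (min_le_left _ _).trans (hx₀ ?_)
  intro i
  refine Fin.cases ?_ (fun j => ?_) i
  · have h4 : (x + v) 0 = x 0 := by simp [hv0]
    rw [h4]
    have h5 := abs_lt.1 hx
    have h6 := le_abs_self w
    constructor <;> linarith
  · have h4 : (x + v) j.succ = x j.succ - ⌊x j.succ⌋ := by
      simp [hvs, sub_eq_add_neg]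
    rw [h4]
    have h5 := Int.floor_le (x j.succ)
    have h6 := Int.lt_floor_add_one (x j.succ)
    have h7 := abs_nonneg w
    constructor <;> linarith

/-- Extension of a positive periodic function from the strip. -/
lemma exists_ext {h : E (d + 1) → ℝ} {w : ℝ} (hw : 0 < w)
    (hs : ∀ x ∈ Strip d w, ContDiffAt ℝ ∞ h x) (hp : ∀ x ∈ Strip d w, 0 < h x)
    (hper : ∀ x ∈ Strip d w, ∀ v ∈ Lat d, h (x + v) = h x) :
    ∃ (H : E (d + 1) → ℝ) (m : ℝ), ContDiff ℝ ∞ H ∧ 0 < m ∧ (∀ x, m ≤ H x) ∧ Per d H ∧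
      ∀ x ∈ Strip d (w / 2), H x = h x := by
  set f : ContDiffBump (0 : ℝ) := ⟨w / 2, 3 * w / 4, by linarith, by linarith⟩ with hf
  set H : E (d + 1) → ℝ := fun x => f (x 0) * h x + (1 - f (x 0)) with hH
  have hf0 : ∀ t : ℝ, 3 * w / 4 ≤ |t| → f t = 0 := fun t ht => by
    refine f.zero_of_le_dist ?_
    rw [Real.dist_eq, sub_zero]
    exact ht
  have hf1 : ∀ t : ℝ, |t| ≤ w / 2 → f t = 1 := fun t ht => by
    refine f.one_of_mem_closedBall ?_
    rw [mem_closedBall, Real.dist_eq, sub_zero]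
    exact ht
  have hout : ∀ x : E (d + 1), 3 * w / 4 ≤ |x 0| → H x = 1 := fun x hx => by
    rw [hH]
    simp [hf0 _ hx]
  have hfs : ContDiff ℝ ∞ (fun x : E (d + 1) => f (x 0)) := f.contDiff.comp coord0_smooth
  have hHs : ContDiff ℝ ∞ H := by
    refine contDiff_iff_contDiffAt.2 fun x => ?_
    by_cases hx : x ∈ Strip d w
    · exact (hfs.contDiffAt.mul (hs x hx)).add (contDiffAt_const.sub hfs.contDiffAt)
    · have hx' : w ≤ |x 0| := not_lt.1 hx
      have hc : Continuous fun y : E (d + 1) => |y 0| := (coord0_smooth.continuous).abs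
      have hev : H =ᶠ[𝓝 x] fun _ => 1 := by
        filter_upwards [hc.continuousAt.eventually_const_lt
          (show 3 * w / 4 < |x 0| by linarith)] with y hy
        exact hout y hy.le
      exact contDiffAt_const.congr_of_eventuallyEq hev
  have hHp : ∀ x, 0 < H x := by
    intro x
    by_cases hx : x ∈ Strip d w
    · have h1 := hp x hx
      have h2 : 0 ≤ f (x 0) := f.nonneg
      have h3 : f (x 0) ≤ 1 := f.le_one
      show 0 < f (x 0) * h x + (1 - f (x 0))
      rcases h2.eq_or_lt with h4 | h4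
      · rw [← h4]
        simp
      · have := mul_pos h4 h1
        linarith
    · rw [hout x (by
        have hx' : w ≤ |x 0| := not_lt.1 hx
        linarith)]
      exact one_pos
  have hHper : Per d H := by
    intro x v hv
    have h0 : (x + v) 0 = x 0 := by
      have := hv.1
      simp [this]
    by_cases hx : x ∈ Strip d w
    · show f ((x + v) 0) * h (x + v) + (1 - f ((x + v) 0)) = f (x 0) * h x + (1 - f (x 0))
      rw [h0, hper x hx v hv]
    · have hx' : w ≤ |x 0| := not_lt.1 hx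
      rw [hout x (by linarith), hout (x + v) (by rw [h0]; linarith)]
  obtain ⟨m, hm0, hm⟩ := lower_bound hHs.continuous hHp hHper (w := 3 * w / 4) hout
  refine ⟨H, m, hHs, hm0, hm, hHper, fun x hx => ?_⟩
  have hx' : |x 0| < w / 2 := hx
  show f (x 0) * h x + (1 - f (x 0)) = h x
  rw [hf1 _ hx'.le]
  ring

end Cut

lemma image_meas' {X Z : Type} [TopologicalSpace X] [MeasurableSpace X] [BorelSpace X]
    [TopologicalSpace Z] [MeasurableSpace Z] [BorelSpace Z] (e : OpenPartialHomeomorph X Z)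
    {A : Set X} (hA : MeasurableSet A) (hAe : A ⊆ e.source) : MeasurableSet (e '' A) := by
  have h1 : e '' A =
      Subtype.val '' (e.toHomeomorphSourceTarget '' (Subtype.val ⁻¹' A : Set e.source)) := by
    ext y
    constructor
    · rintro ⟨x, hx, rfl⟩
      exact ⟨e.toHomeomorphSourceTarget ⟨x, hAe hx⟩, ⟨⟨x, hAe hx⟩, hx, rfl⟩, rfl⟩
    · rintro ⟨_, ⟨⟨x, hxs⟩, hxA, rfl⟩, rfl⟩
      exact ⟨x, hxA, rfl⟩
  rw [h1]
  refine MeasurableSet.subtype_image e.open_target.measurableSet ?_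
  exact e.toHomeomorphSourceTarget.measurableEmbedding.measurableSet_image.mpr
    (measurable_subtype_coe hA)

section Density

variable {n : ℕ} {M : Type} [TopologicalSpace M] [ChartedSpace (E n) M]
  [IsManifold 𝓘(ℝ, E n) ∞ M]

lemma tr_smooth {e e' : OpenPartialHomeomorph M (E n)} (he : e ∈ Ch n M) (he' : e' ∈ Ch n M)
    {x : M} (hx : x ∈ e.source) (hx' : x ∈ e'.source) :
    ContDiffAt ℝ ∞ (e' ∘ e.symm) (e x) :=
  (diff1 n M ⊤).2.2.2 id 1 e e' x ⟨Diffeomorph.refl _ M _, rfl⟩ he he' hx hx'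

lemma tr_ne {e e' : OpenPartialHomeomorph M (E n)} (he : e ∈ Ch n M) (he' : e' ∈ Ch n M)
    {x : M} (hx : x ∈ e.source) (hx' : x ∈ e'.source) :
    (fderiv ℝ (e' ∘ e.symm) (e x)).det ≠ 0 :=
  JACC_.det_ne diff1 he he' (h := id) ⟨Diffeomorph.refl _ M _, rfl⟩ hx hx'

lemma tr_det [MeasurableSpace M] [BorelSpace M] {μ : Measure M}
    {e e' : OpenPartialHomeomorph M (E n)} (he : Uni μ e) (he' : Uni μ e') {p : M}
    (hp : p ∈ e.source) (hp' : p ∈ e'.source) :
    |(fderiv ℝ (e' ∘ e.symm) (e p)).det| = 1 := by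
  set a : E n := e p with ha
  set U : Set (E n) := {z | z + a ∈ e.symm.source ∩ e.symm ⁻¹' e'.source} with hU
  have hUo : IsOpen U := (e.symm.isOpen_inter_preimage e'.open_source).preimage
    (continuous_id.add continuous_const)
  have h0U : (0 : E n) ∈ U := by
    show 0 + a ∈ e.symm.source ∩ e.symm ⁻¹' e'.source
    rw [zero_add]
    refine ⟨e.map_source hp, ?_⟩
    show e.symm (e p) ∈ e'.source
    rw [e.left_inv hp]
    exact hp'
  have h1 := jac n (fun z => (e' ∘ e.symm) (z + a)) U (hUo.mem_nhds h0U) ?_ ?_ ?_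
  · rw [fderiv_comp_add_right, zero_add] at h1
    exact h1
  · have h2 : ContDiffAt ℝ 1 (e' ∘ e.symm) (0 + a) := by
      rw [zero_add]
      exact (tr_smooth he.1 he'.1 hp hp').of_le (by simp)
    exact ContDiffAt.comp (g := e' ∘ e.symm) (f := fun z : E n => z + a) (0 : E n) h2
      (contDiffAt_id.add contDiffAt_const)
  · intro z hz z' hz' hzz
    have h3 : e.symm (z + a) = e.symm (z' + a) := e'.injOn hz.2 hz'.2 hzz
    have h4 := e.symm.injOn hz.1 hz'.1 h3
    exact add_right_cancel h4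
  · intro A hA hAm
    have hAm' : MeasurableSet ((fun z => z + a) '' A) :=
      (MeasurableEquiv.addRight a).measurableSet_image.2 hAm
    have hsub : (fun z => z + a) '' A ⊆ e.symm.source := by
      rintro _ ⟨z, hz, rfl⟩
      exact (hA hz).1
    have hBm : MeasurableSet (e.symm '' ((fun z => z + a) '' A)) :=
      image_meas' e.symm hAm' hsub
    have hB1 : e.symm '' ((fun z => z + a) '' A) ⊆ e.source := by
      rintro _ ⟨y, hy, rfl⟩
      exact e.symm.map_source (hsub hy)
    have hB2 : e.symm '' ((fun z => z + a) '' A) ⊆ e'.source := by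
      rintro _ ⟨_, ⟨z, hz, rfl⟩, rfl⟩
      exact (hA hz).2
    have e1 := he.2 _ hB1 hBm
    have e2 := he'.2 _ hB2 hBm
    have e3 : e '' (e.symm '' ((fun z => z + a) '' A)) = (fun z => z + a) '' A := by
      rw [image_image]
      conv_rhs => rw [← image_id ((fun z => z + a) '' A)]
      exact image_congr fun y hy => e.right_inv (hsub hy)
    have e4 : (fun z => (e' ∘ e.symm) (z + a)) '' A =
        e' '' (e.symm '' ((fun z => z + a) '' A)) := by
      rw [image_image, image_image]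
      rfl
    rw [e4, ← e2, e1, e3]
    simp

/-- The determinant is smooth. -/
lemma det_smooth : ContDiff ℝ ∞ (fun A : E n →L[ℝ] E n => A.det) := by
  have h1 : (fun A : E n →L[ℝ] E n => A.det) = fun A : E n →L[ℝ] E n =>
      ∑ σ : Equiv.Perm (Fin n), (Equiv.Perm.sign σ : ℤ) • ∏ i,
        (A (EuclideanSpace.basisFun (Fin n) ℝ i)) (σ i) := by
    funext A
    rw [ContinuousLinearMap.det, ← LinearMap.det_toMatrix (EuclideanSpace.basisFun (Fin n) ℝ).toBasis,
      Matrix.det_apply]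
    refine Finset.sum_congr rfl fun σ _ => ?_
    simp [LinearMap.toMatrix_apply, Units.smul_def]
  rw [h1]
  refine ContDiff.sum fun σ _ => ?_
  refine ContDiff.const_smul _ ?_
  refine contDiff_prod fun i _ => ?_
  exact (contDiff_euclidean.1 (contDiff_id (E := E n)) (σ i)).comp
    ((ContinuousLinearMap.apply ℝ (E n) (EuclideanSpace.basisFun (Fin n) ℝ i)).contDiff)

end Density

section Collar

variable {M : Type} [TopologicalSpace M] [ChartedSpace (E (d + 1)) M]
  [IsManifold 𝓘(ℝ, E (d + 1)) ∞ M] {w : ℝ} {T : E (d + 1) → M}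

lemma strip_open (w : ℝ) : IsOpen (Strip d w) :=
  isOpen_lt (coord0_smooth.continuous).abs continuous_const

omit [IsManifold 𝓘(ℝ, E (d + 1)) ∞ M] in
lemma T_cont (hT : Collar w T) {x : E (d + 1)} (hx : x ∈ Strip d w) : ContinuousAt T x := by
  obtain ⟨e₁, he₁, hxe, hev⟩ := hT.2.1 x hx
  exact (e₁.continuousAt_symm hxe).congr (hev.mono fun z hz => hz.symm)

lemma eT_smooth (hT : Collar w T) {x : E (d + 1)} (hx : x ∈ Strip d w)
    {e : OpenPartialHomeomorph M (E (d + 1))} (he : e ∈ Ch (d + 1) M) (hxe : T x ∈ e.source) :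
    ContDiffAt ℝ ∞ (e ∘ T) x ∧ (fderiv ℝ (e ∘ T) x).det ≠ 0 := by
  obtain ⟨e₁, he₁, hx1, hev⟩ := hT.2.1 x hx
  have h0 : T x = e₁.symm x := hev.self_of_nhds
  have hs : e₁.symm x ∈ e₁.source := e₁.map_target hx1
  have hs' : e₁.symm x ∈ e.source := h0 ▸ hxe
  have h1 := tr_smooth he₁ he hs hs'
  have h2 := tr_ne he₁ he hs hs'
  rw [e₁.right_inv hx1] at h1 h2
  have hev' : e ∘ T =ᶠ[𝓝 x] e ∘ e₁.symm := hev.mono fun z hz => by
    show e (T z) = e (e₁.symm z)
    rw [hz]
  refine ⟨h1.congr_of_eventuallyEq hev', ?_⟩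
  rw [hev'.fderiv_eq]
  exact h2

lemma J_indep [MeasurableSpace M] [BorelSpace M] {μ : Measure M} (hT : Collar w T)
    {x : E (d + 1)} (hx : x ∈ Strip d w) {e e' : OpenPartialHomeomorph M (E (d + 1))}
    (he : Uni μ e) (he' : Uni μ e') (hxe : T x ∈ e.source) (hxe' : T x ∈ e'.source) :
    |(fderiv ℝ (e' ∘ T) x).det| = |(fderiv ℝ (e ∘ T) x).det| := by
  have hev : e' ∘ T =ᶠ[𝓝 x] (e' ∘ e.symm) ∘ (e ∘ T) := by
    filter_upwards [(T_cont hT hx).eventually_mem (e.open_source.mem_nhds hxe)] with z hz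
    show e' (T z) = e' (e.symm (e (T z)))
    rw [e.left_inv hz]
  have h1 : DifferentiableAt ℝ (e ∘ T) x := (eT_smooth hT hx he.1 hxe).1.differentiableAt (by simp)
  have h2 : DifferentiableAt ℝ (e' ∘ e.symm) ((e ∘ T) x) :=
    (tr_smooth he.1 he'.1 hxe hxe').differentiableAt (by simp)
  rw [hev.fderiv_eq, fderiv_comp x h2 h1, JACC_.det_comp', abs_mul]
  have h3 : |(fderiv ℝ (e' ∘ e.symm) ((e ∘ T) x)).det| = 1 := tr_det he he' hxe hxe'
  rw [h3, one_mul]

/-- The density of the volume in the collar. -/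
lemma exists_density [MeasurableSpace M] [BorelSpace M] {μ : Measure M}
    (hμ : IsVolume (d + 1) μ) (hT : Collar w T) :
    ∃ h : E (d + 1) → ℝ, (∀ x ∈ Strip d w, ContDiffAt ℝ ∞ h x) ∧ (∀ x ∈ Strip d w, 0 < h x) ∧
      (∀ x ∈ Strip d w, ∀ v ∈ Lat d, h (x + v) = h x) ∧
      ∀ x ∈ Strip d w, ∃ O : Set (E (d + 1)), IsOpen O ∧ x ∈ O ∧ O ⊆ Strip d w ∧
        ∀ A ⊆ O, MeasurableSet A → MeasurableSet (T '' A) ∧
          μ (T '' A) = ∫⁻ y in A, ENNReal.ofReal (h y) := by
  choose c hc using hμ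
  have hU : ∀ q, Uni μ (c q) := fun q => ⟨(hc q).1, (hc q).2.2⟩
  have hq : ∀ q, q ∈ (c q).source := fun q => (hc q).2.1
  set h : E (d + 1) → ℝ := fun x => |(fderiv ℝ (c (T x) ∘ T) x).det| with hh
  have hJ : ∀ x ∈ Strip d w, ∀ e : OpenPartialHomeomorph M (E (d + 1)), Uni μ e →
      T x ∈ e.source → h x = |(fderiv ℝ (e ∘ T) x).det| := fun x hx e he hxe =>
    J_indep hT hx he (hU _) hxe (hq _)
  refine ⟨h, ?_, ?_, ?_, ?_⟩
  · intro x hx
    obtain ⟨h1, h2⟩ := eT_smooth hT hx (hU (T x)).1 (hq _)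
    have hev : h =ᶠ[𝓝 x] fun y => |(fderiv ℝ (c (T x) ∘ T) y).det| := by
      filter_upwards [(T_cont hT hx).eventually_mem ((c (T x)).open_source.mem_nhds (hq _)),
        (strip_open w).mem_nhds hx] with y hy hys
      exact hJ y hys _ (hU _) hy
    refine ContDiffAt.congr_of_eventuallyEq ?_ hev
    refine ContDiffAt.abs ?_ h2
    have h3 : ContDiffAt ℝ ∞ (fderiv ℝ (c (T x) ∘ T)) x := h1.fderiv_right (by simp)
    exact det_smooth.contDiffAt.comp x h3
  · intro x hx
    exact abs_pos.2 (eT_smooth hT hx (hU (T x)).1 (hq _)).2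
  · intro x hx v hv
    have hxv : x + v ∈ Strip d w := by
      show |(x + v) 0| < w
      have h0 : (x + v) 0 = x 0 := by simp [hv.1]
      rw [h0]
      exact hx
    have hTv : ∀ y ∈ Strip d w, T (y + v) = T y := fun y hy => by
      have hyv : y + v ∈ Strip d w := by
        show |(y + v) 0| < w
        have h0 : (y + v) 0 = y 0 := by simp [hv.1]
        rw [h0]
        exact hy
      refine (hT.2.2 _ hyv _ hy).2 ?_
      rw [add_sub_cancel_left]
      exact hv
    have h1 : T (x + v) = T x := hTv x hx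
    have h2 : h (x + v) = |(fderiv ℝ (c (T x) ∘ T) (x + v)).det| := by
      refine hJ _ hxv _ (hU _) ?_
      rw [h1]
      exact hq _
    rw [h2]
    have h3 : fderiv ℝ (c (T x) ∘ T) (x + v) = fderiv ℝ (fun y => (c (T x) ∘ T) (y + v)) x := by
      rw [fderiv_comp_add_right]
    have h4 : (fun y => (c (T x) ∘ T) (y + v)) =ᶠ[𝓝 x] c (T x) ∘ T := by
      filter_upwards [(strip_open w).mem_nhds hx] with y hy
      show c (T x) (T (y + v)) = c (T x) (T y)
      rw [hTv y hy]
    rw [h3, h4.fderiv_eq]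
  · intro x hx
    obtain ⟨e₁, he₁, hx1, hev⟩ := hT.2.1 x hx
    have hn1 : ∀ᶠ y in 𝓝 x, y ∈ Strip d w := (strip_open w).mem_nhds hx
    have hn2 : ∀ᶠ y in 𝓝 x, y ∈ e₁.target := e₁.open_target.mem_nhds hx1
    have h1 := (hev.and ((T_cont hT hx).eventually_mem ((c (T x)).open_source.mem_nhds (hq _)))).and
      (hn1.and hn2)
    obtain ⟨O, hO, hOo, hxO⟩ := _root_.eventually_nhds_iff.1 h1
    refine ⟨O, hOo, hxO, fun y hy => (hO y hy).2.1, ?_⟩
    intro A hA hAm
    have hAt : A ⊆ e₁.symm.source := fun y hy => (hO y (hA hy)).2.2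
    have hTe : T '' A = e₁.symm '' A := image_congr fun y hy => (hO y (hA hy)).1.1
    have hTm : MeasurableSet (T '' A) := by
      rw [hTe]
      exact image_meas' e₁.symm hAm hAt
    refine ⟨hTm, ?_⟩
    have hTs : T '' A ⊆ (c (T x)).source := by
      rintro _ ⟨y, hy, rfl⟩
      exact (hO y (hA hy)).1.2
    rw [(hU (T x)).2 _ hTs hTm]
    have e1 : (c (T x)) '' (T '' A) = (c (T x) ∘ T) '' A := by
      rw [image_image]
      rfl
    rw [e1, ← lintegral_abs_det_fderiv_eq_addHaar_image volume hAm (f := c (T x) ∘ T)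
      (f' := fun y => fderiv ℝ (c (T x) ∘ T) y)]
    · refine setLIntegral_congr_fun hAm fun y hy => ?_
      rw [hJ y (hO y (hA hy)).2.1 _ (hU _) (hO y (hA hy)).1.2]
    · intro y hy
      exact ((eT_smooth hT (hO y (hA hy)).2.1 (hU (T x)).1
        (hO y (hA hy)).1.2).1.differentiableAt (by simp)).hasFDerivAt.hasFDerivWithinAt
    · intro y hy y' hy' hyy
      have h2 : T y = T y' := (c (T x)).injOn (hO y (hA hy)).1.2 (hO y' (hA hy')).1.2 hyy
      rw [(hO y (hA hy)).1.1, (hO y' (hA hy')).1.1] at h2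
      exact e₁.symm.injOn (hAt hy) (hAt hy') h2

omit [ChartedSpace (E (d + 1)) M] [IsManifold 𝓘(ℝ, E (d + 1)) ∞ M] in
/-- From small sets to all sets on which `T` is injective. -/
lemma density_all [MeasurableSpace M] {μ : Measure M} {h : E (d + 1) → ℝ}
    (hloc : ∀ x ∈ Strip d w, ∃ O : Set (E (d + 1)), IsOpen O ∧ x ∈ O ∧ O ⊆ Strip d w ∧
        ∀ A ⊆ O, MeasurableSet A → MeasurableSet (T '' A) ∧
          μ (T '' A) = ∫⁻ y in A, ENNReal.ofReal (h y))
    {B : Set (E (d + 1))} (hB : B ⊆ Strip d w) (hBm : MeasurableSet B) (hinj : InjOn T B) :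
    μ (T '' B) = ∫⁻ y in B, ENNReal.ofReal (h y) := by
  choose! O hO hxO hOs hA using hloc
  obtain ⟨t, hts, htc, hcov⟩ := TopologicalSpace.countable_cover_nhdsWithin (f := O)
    (s := Strip d w) (fun x hx => mem_nhdsWithin_of_mem_nhds ((hO x hx).mem_nhds (hxO x hx)))
  rcases t.eq_empty_or_nonempty with rfl | hne
  · have : B = ∅ := by
      refine eq_empty_iff_forall_notMem.2 fun x hx => ?_
      simpa using hcov (hB hx)
    rw [this]
    simp
  obtain ⟨q, hq⟩ := htc.exists_eq_range hne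
  have hqs : ∀ i, q i ∈ Strip d w := fun i => hts (hq ▸ mem_range_self i)
  set D : ℕ → Set (E (d + 1)) := fun i => B ∩ disjointed (fun i => O (q i)) i with hD
  have hDm : ∀ i, MeasurableSet (D i) := fun i =>
    hBm.inter (MeasurableSet.disjointed (fun j => (hO _ (hqs j)).measurableSet) i)
  have hDO : ∀ i, D i ⊆ O (q i) := fun i =>
    inter_subset_right.trans (disjointed_subset _ _)
  have hdis : Pairwise (Function.onFun Disjoint D) := by
    intro i j hij
    exact (disjoint_disjointed (fun i => O (q i)) hij).mono inter_subset_right inter_subset_right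
  have hun : B = ⋃ i, D i := by
    rw [hD, ← inter_iUnion, iUnion_disjointed]
    refine (inter_eq_left.2 ?_).symm
    refine hB.trans (hcov.trans ?_)
    intro x hx
    obtain ⟨y, hy, hxy⟩ := mem_iUnion₂.1 hx
    rw [hq] at hy
    obtain ⟨i, rfl⟩ := hy
    exact mem_iUnion.2 ⟨i, hxy⟩
  have hT : T '' B = ⋃ i, T '' D i := by
    conv_lhs => rw [hun]
    rw [image_iUnion]
  have hTd : Pairwise (Function.onFun Disjoint fun i => T '' D i) := by
    intro i j hij
    refine disjoint_left.2 ?_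
    rintro _ ⟨x, hx, rfl⟩ ⟨y, hy, hxy⟩
    have := hinj hy.1 hx.1 hxy
    rw [this] at hy
    exact disjoint_left.1 (hdis hij) hx hy
  rw [hT, measure_iUnion hTd fun i => (hA _ (hqs i) _ (hDO i) (hDm i)).1]
  conv_rhs => rw [hun]
  rw [lintegral_iUnion hDm hdis]
  exact tsum_congr fun i => (hA _ (hqs i) _ (hDO i) (hDm i)).2

end Collar

variable {n : ℕ} {M : Type} [TopologicalSpace M] [ChartedSpace (E n) M] in
lemma ch_comp {e : OpenPartialHomeomorph M (E n)} (he : e ∈ Ch n M)
    {g : OpenPartialHomeomorph (E n) (E n)} (hg : g ∈ contDiffGroupoid ∞ 𝓘(ℝ, E n)) :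
    e.trans g ∈ Ch n M := by
  intro e' he'
  obtain ⟨h1, h2⟩ := mem_maximalAtlas_iff.1 he e' he'
  constructor
  · rw [OpenPartialHomeomorph.trans_symm_eq_symm_trans_symm, OpenPartialHomeomorph.trans_assoc]
    exact (contDiffGroupoid ∞ 𝓘(ℝ, E n)).trans ((contDiffGroupoid ∞ 𝓘(ℝ, E n)).symm hg) h1
  · rw [← OpenPartialHomeomorph.trans_assoc]
    exact (contDiffGroupoid ∞ 𝓘(ℝ, E n)).trans h2 hg

lemma homeo_mem {n : ℕ} (G : E n ≃ₜ E n) (h1 : ContDiff ℝ ∞ G) (h2 : ContDiff ℝ ∞ G.symm) :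
    G.toOpenPartialHomeomorph ∈ contDiffGroupoid ∞ 𝓘(ℝ, E n) := by
  rw [contDiffGroupoid, mem_groupoid_of_pregroupoid]
  constructor
  · refine h1.contDiffOn.congr ?_
    intro x _
    simp
  · refine h2.contDiffOn.congr ?_
    intro x _
    simp

end NORM_

open NORM_ in
theorem norm (_ : T_COLL) : T_NORM := by
  intro d M _ _ _ _ _ _ _ μ w T hμ hT
  obtain ⟨h, hs, hp, hper, hloc⟩ := exists_density hμ hT
  obtain ⟨H, m, hHs, hm0, hm, hHper, hHh⟩ := exists_ext hT.1 hs hp hper
  obtain ⟨G, hG, hGs⟩ := exists_homeo hHs hm0 hm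
  have hGc : ContDiff ℝ ∞ G := by
    have : (G : E (d + 1) → E (d + 1)) = Ph H := funext hG
    rw [this]
    exact Ph_smooth hHs
  have hw := hT.1
  have hin : ∀ y ∈ Strip d (m * w / 2), G.symm y ∈ Strip d (w / 2) := by
    intro y hy
    have h2 := Y_lower hHs.continuous hm (G.symm y)
    have h3 : Y H (G.symm y) = y 0 := by
      rw [← Ph_zero, ← hG, G.apply_symm_apply]
    rw [h3] at h2
    have hy' : |y 0| < m * w / 2 := hy
    show |(G.symm y) 0| < w / 2
    by_contra hcon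
    push Not at hcon
    have h4 := mul_le_mul_of_nonneg_left hcon hm0.le
    linarith
  have hsub : Strip d (w / 2) ⊆ Strip d w := fun y hy => by
    have hy' : |y 0| < w / 2 := hy
    show |y 0| < w
    linarith
  have hGv : ∀ x, ∀ v ∈ Lat d, G (x + v) = G x + v := fun x v hv => by
    rw [hG, hG, Ph_per hHper x hv]
  have hGsv : ∀ y, ∀ v ∈ Lat d, G.symm (y + v) = G.symm y + v := fun y v hv => by
    rw [G.symm_apply_eq, hGv _ v hv, G.apply_symm_apply]
  refine ⟨m * w / 2, fun y => T (G.symm y), ⟨by positivity, ?_, ?_⟩, ?_, ?_⟩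
  · intro y hy
    obtain ⟨e, he, hye, hev⟩ := hT.2.1 (G.symm y) (hsub (hin y hy))
    refine ⟨e.trans G.toOpenPartialHomeomorph, ch_comp he (homeo_mem G hGc hGs), ?_, ?_⟩
    · simpa using hye
    · have hc : Tendsto G.symm (𝓝 y) (𝓝 (G.symm y)) := G.symm.continuous.continuousAt
      filter_upwards [hc.eventually hev] with z hz
      rw [hz]
      rfl
  · intro x hx x' hx'
    refine (hT.2.2 _ (hsub (hin x hx)) _ (hsub (hin x' hx'))).trans ?_
    constructor
    · intro hv
      have h2 := hGv (G.symm x') _ hv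
      rw [add_sub_cancel, G.apply_symm_apply, G.apply_symm_apply] at h2
      have h3 : x - x' = G.symm x - G.symm x' := sub_eq_iff_eq_add'.2 h2
      rw [h3]
      exact hv
    · intro hv
      have h2 := hGsv x' _ hv
      rw [add_sub_cancel] at h2
      have h3 : G.symm x - G.symm x' = x - x' := sub_eq_iff_eq_add'.2 h2
      rw [h3]
      exact hv
  · intro A hA hAm hinj
    set B : Set (E (d + 1)) := G.symm '' A with hB
    have hBm : MeasurableSet B := G.symm.toMeasurableEquiv.measurableSet_image.2 hAm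
    have hBs : B ⊆ Strip d (w / 2) := by
      rintro _ ⟨y, hy, rfl⟩
      exact hin y (hA hy)
    have hTB : (fun y => T (G.symm y)) '' A = T '' B := by
      rw [hB, image_image]
    have hBi : InjOn T B := by
      rintro _ ⟨y, hy, rfl⟩ _ ⟨y', hy', rfl⟩ hyy
      rw [hinj hy hy' hyy]
    have hAB : A = Ph H '' B := by
      rw [hB, image_image]
      have : ∀ y, Ph H (G.symm y) = y := fun y => by
        rw [← hG, G.apply_symm_apply]
      simp [this]
    rw [hTB, density_all hloc (hBs.trans hsub) hBm hBi, hAB,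
      VOLM_.vol_image (Ph_smooth hHs) (Ph_inj hHs.continuous fun x => hm0.trans_le (hm x)) hBm]
    refine setLIntegral_congr_fun hBm fun y hy => ?_
    rw [Ph_det hHs, hHh y (hBs hy), abs_of_pos (hp y (hsub (hBs hy)))]
  · intro x hx
    have h2 : G x = x := by
      rw [hG]
      refine ext' ?_ fun i => Ph_succ H x i
      rw [Ph_zero, Y_eq_yf, hx, yf_zero]
    have h3 : G.symm x = x := by
      rw [G.symm_apply_eq, h2]
    show T (G.symm x) = T x
    rw [h3]

end Pool.Agent.PalT
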