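import Pool.Agent.PalT.Targets

/-!
# KT-NULLP: diffeomorphisms preserve null sets
-/

set_option autoImplicit false

open Set MeasureTheory Filter Topology Metric
open scoped Manifold ContDiff

namespace Pool.Agent.PalT

open Pool.Agent.Pal

namespace NULLP_

variable {n : ℕ} {M : Type} [TopologicalSpace M] [ChartedSpace (E n) M]
  [IsManifold 𝓘(ℝ, E n) ∞ M] [CompactSpace M] [T2Space M] [MeasurableSpace M] [BorelSpace M]

omit [IsManifold 𝓘(ℝ, E n) ∞ M] [CompactSpace M] [T2Space M] in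
/-- Locally the preimage of a measurable null set is null. -/
lemma local_null (μ : Measure M) (G : Diffeomorph 𝓘(ℝ, E n) 𝓘(ℝ, E n) M M 1) (S : Set M)
    (hS : MeasurableSet S) (hμ : IsVolume n μ) (h0 : μ S = 0) (q : M) :
    ∃ U ∈ 𝓝 q, μ (U ∩ G ⁻¹' S) = 0 := by
  obtain ⟨e, he, hq, hv⟩ := hμ q
  obtain ⟨e', he', hq', hv'⟩ := hμ (G q)
  have hGc : Continuous G := G.continuous
  have hN : IsOpen (e.source ∩ G ⁻¹' e'.source) :=
    e.open_source.inter (e'.open_source.preimage hGc)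
  refine ⟨e.source ∩ G ⁻¹' e'.source, hN.mem_nhds ⟨hq, hq'⟩, ?_⟩
  have hA : MeasurableSet ((e.source ∩ G ⁻¹' e'.source) ∩ G ⁻¹' S) :=
    hN.measurableSet.inter (hGc.measurable hS)
  rw [hv _ (fun x hx => hx.1.1) hA]
  have hle : ((1 : ℕ∞) : WithTop ℕ∞) ≤ (∞ : WithTop ℕ∞) := by exact_mod_cast le_top
  -- the image of `A` under `G`
  set A : Set M := (e.source ∩ G ⁻¹' e'.source) ∩ G ⁻¹' S with hAdef
  have hZ0 : μ (G '' A) = 0 := by
    refine measure_mono_null ?_ h0
    rintro _ ⟨x, hx, rfl⟩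
    exact hx.2
  have hGA : MeasurableSet (G '' A) := by
    have : G '' A = G.symm ⁻¹' A := by
      ext x
      constructor
      · rintro ⟨y, hy, rfl⟩
        show G.symm (G y) ∈ A
        rw [G.symm_apply_apply]
        exact hy
      · intro hx
        exact ⟨G.symm x, hx, G.apply_symm_apply x⟩
    rw [this]
    exact G.symm.continuous.measurable hA
  have hGs : G '' A ⊆ e'.source := by
    rintro _ ⟨x, hx, rfl⟩
    exact hx.1.2
  rw [hv' _ hGs hGA] at hZ0
  have him : e '' A = (e ∘ G.symm ∘ e'.symm) '' (e' '' (G '' A)) := by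
    rw [image_image, image_image]
    refine image_congr fun x hx => ?_
    simp only [Function.comp_apply]
    rw [e'.left_inv hx.1.2, G.symm_apply_apply]
  rw [him]
  refine addHaar_image_eq_zero_of_differentiableOn_of_addHaar_eq_zero volume ?_ hZ0
  rintro _ ⟨_, ⟨x, hx, rfl⟩, rfl⟩
  have h1 : ContMDiffAt 𝓘(ℝ, E n) 𝓘(ℝ, E n) 1 e'.symm (e' (G x)) :=
    (contMDiffAt_symm_of_mem_maximalAtlas he' (e'.map_source hx.1.2)).of_le hle
  have h2 : ContMDiffAt 𝓘(ℝ, E n) 𝓘(ℝ, E n) 1 G.symm (e'.symm (e' (G x))) := G.symm.contMDiff _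
  have h3 : ContMDiffAt 𝓘(ℝ, E n) 𝓘(ℝ, E n) 1 e (G.symm (e'.symm (e' (G x)))) := by
    rw [e'.left_inv hx.1.2, G.symm_apply_apply]
    exact (contMDiffAt_of_mem_maximalAtlas he hx.1.1).of_le hle
  have h4 : ContMDiffAt 𝓘(ℝ, E n) 𝓘(ℝ, E n) 1 (e ∘ G.symm ∘ e'.symm) (e' (G x)) :=
    ContMDiffAt.comp (e' (G x)) h3 (ContMDiffAt.comp (e' (G x)) h2 h1)
  exact (h4.contDiffAt.differentiableAt (by simp)).differentiableWithinAt

/-- The preimage of a null set is null. -/
lemma null (μ : Measure M) (G : Diffeomorph 𝓘(ℝ, E n) 𝓘(ℝ, E n) M M 1) (S : Set M)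
    (hμ : IsVolume n μ) (h0 : μ S = 0) : μ (G ⁻¹' S) = 0 := by
  have hS' : MeasurableSet (toMeasurable μ S) := measurableSet_toMeasurable μ S
  have h0' : μ (toMeasurable μ S) = 0 := by rw [measure_toMeasurable]; exact h0
  refine measure_mono_null (preimage_mono (subset_toMeasurable μ S)) ?_
  set S' := toMeasurable μ S
  have hGc : Continuous G := G.continuous
  have hm : MeasurableSet (G ⁻¹' S') := hGc.measurable hS'
  have key : (μ.restrict (G ⁻¹' S')) univ = 0 := by
    refine isCompact_univ.measure_zero_of_nhdsWithin fun q _ => ?_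
    obtain ⟨U, hU, hU0⟩ := local_null μ G S' hS' hμ h0' q
    refine ⟨U, mem_nhdsWithin_of_mem_nhds hU, ?_⟩
    rw [Measure.restrict_apply' hm]
    exact hU0
  rwa [Measure.restrict_apply_univ] at key

end NULLP_

open NULLP_

theorem nullp : T_NULLP := by
  rintro n M _ _ _ _ _ _ _ μ g k S hμ ⟨G, rfl⟩ h0
  induction k with
  | zero => simpa using h0
  | succ k ih =>
    have : (G : M → M)^[k + 1] ⁻¹' S = G ⁻¹' ((G : M → M)^[k] ⁻¹' S) := by
      rw [← preimage_comp, ← Function.iterate_succ]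
    rw [this]
    exact null μ G _ hμ ih

end Pool.Agent.PalT
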