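import Pool.Agent.PalT.Targets

/-!
# T_PERST: a trap around a compact set persists under small modifications that are trivial near
the orbit of the set
-/

set_option autoImplicit false

open Set MeasureTheory Filter Topology Metric

namespace Pool.Agent.PalT

open Pool.Agent.Pal

namespace PERST_

variable {M : Type} [MetricSpace M]

lemma iter_close [CompactSpace M] (g : M → M) (hg : Continuous g) (m : ℕ) :
    ∀ ε : ℝ, 0 < ε → ∃ η : ℝ, 0 < η ∧ ∀ ψ : M → M, (∀ x, dist (ψ x) x < η) →
      ∀ x, dist ((ψ ∘ g)^[m] x) (g^[m] x) < ε := by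
  have huc : UniformContinuous g := CompactSpace.uniformContinuous_of_continuous hg
  induction m with
  | zero =>
    intro ε hε
    refine ⟨1, one_pos, fun ψ _ x => ?_⟩
    rw [Function.iterate_zero, Function.iterate_zero, id, dist_self]
    exact hε
  | succ m ih =>
    intro ε hε
    obtain ⟨δ, hδ, hδ'⟩ := Metric.uniformContinuous_iff.mp huc (ε / 2) (by linarith)
    obtain ⟨η, hη, hη'⟩ := ih δ hδ
    refine ⟨min η (ε / 2), lt_min hη (by linarith), fun ψ hψ x => ?_⟩
    rw [Function.iterate_succ_apply', Function.iterate_succ_apply']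
    have h1 := hη' ψ (fun y => (hψ y).trans_le (min_le_left _ _)) x
    have h2 := hδ' h1
    have h3 := (hψ (g ((ψ ∘ g)^[m] x))).trans_le (min_le_right _ _)
    calc dist ((ψ ∘ g) ((ψ ∘ g)^[m] x)) (g (g^[m] x))
        ≤ dist (ψ (g ((ψ ∘ g)^[m] x))) (g ((ψ ∘ g)^[m] x)) +
          dist (g ((ψ ∘ g)^[m] x)) (g (g^[m] x)) := dist_triangle _ _ _
      _ < ε := by linarith

omit [MetricSpace M] in
lemma iter_eq (g ψ : M → M) (Z : Set M) (hψ : ∀ x ∈ Z, ψ x = x) (m : ℕ) (x : M)
    (hx : ∀ i ≤ m, g^[i] x ∈ Z) : ∀ i ≤ m, (ψ ∘ g)^[i] x = g^[i] x := by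
  intro i
  induction i with
  | zero =>
    intro _
    rfl
  | succ i ih =>
    intro hi
    rw [Function.iterate_succ_apply', ih (by omega), Function.comp_apply,
      ← Function.iterate_succ_apply' g i x]
    exact hψ _ (hx (i + 1) hi)

end PERST_

open PERST_ in
theorem perst : T_PERST := by
  intro M _ _ g m Λ K Z P V hg _ hK hZ hV hPΛ hΛZ hint hVlt
  have hgi : ∀ i, Continuous g^[i] := fun i => hg.iterate i
  -- the neighbourhood of the compact set
  set N : Set M := {x | ∀ i ≤ m, g^[i] x ∈ Z} with hN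
  have hNo : IsOpen N := by
    have : N = ⋂ i ∈ Finset.range (m + 1), g^[i] ⁻¹' Z := by
      ext x
      simp only [hN, Set.mem_ofPred_eq, Set.mem_iInter, Set.mem_preimage, Finset.mem_range]
      constructor
      · intro h i hi
        exact h i (by omega)
      · intro h i hi
        exact h i (by omega)
    rw [this]
    exact isOpen_biInter_finset fun i _ => hZ.preimage (hgi i)
  have hPN : P ⊆ N := fun x hx i hi => hΛZ i hi x (hPΛ hx)
  -- the gap
  have hKN : IsCompact (K \ N) := hK.diff hNo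
  have hW : ContinuousOn (fun x => V x - V (g^[m] x)) K := by
    refine hV.sub (hV.comp (hgi m).continuousOn fun x hx => interior_subset (hint x hx))
  obtain ⟨γ, hγ, hγ'⟩ : ∃ γ : ℝ, 0 < γ ∧ ∀ x ∈ K \ N, V (g^[m] x) + γ ≤ V x := by
    rcases (K \ N).eq_empty_or_nonempty with h | h
    · exact ⟨1, one_pos, fun x hx => by rw [h] at hx; exact absurd hx (Set.notMem_empty x)⟩
    · obtain ⟨x₀, hx₀, hmin⟩ := hKN.exists_isMinOn h (hW.mono Set.sdiff_subset)
      refine ⟨V x₀ - V (g^[m] x₀), ?_, fun x hx => ?_⟩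
      · have : x₀ ∉ P := fun h' => hx₀.2 (hPN h')
        linarith [hVlt x₀ hx₀.1 this]
      · have h1 : V x₀ - V (g^[m] x₀) ≤ V x - V (g^[m] x) := hmin hx
        linarith
  have hVu := hK.uniformContinuousOn_of_continuous hV
  obtain ⟨δ, hδ, hδ'⟩ := Metric.uniformContinuousOn_iff.mp hVu γ hγ
  have himg : IsCompact (g^[m] '' K) := hK.image (hgi m)
  have hsub : g^[m] '' K ⊆ interior K := by
    rintro _ ⟨x, hx, rfl⟩
    exact hint x hx
  obtain ⟨ε, hε, hε'⟩ := himg.exists_thickening_subset_open isOpen_interior hsub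
  obtain ⟨η, hη, hη'⟩ := iter_close g hg m (min δ ε) (lt_min hδ hε)
  refine ⟨η, hη, fun ψ _ hψ hψZ => ?_⟩
  have hclose := hη' ψ hψ
  have hmem : ∀ x ∈ K, (ψ ∘ g)^[m] x ∈ interior K := by
    intro x hx
    apply hε'
    rw [Metric.mem_thickening_iff]
    exact ⟨g^[m] x, ⟨x, hx, rfl⟩, (hclose x).trans_le (min_le_right _ _)⟩
  refine ⟨hmem, fun x hx hxp => ?_⟩
  by_cases hxN : x ∈ N
  · rw [iter_eq g ψ Z hψZ m x hxN m (le_refl m)]
    exact hVlt x hx hxp
  · have h1 := hδ' _ (interior_subset (hmem x hx)) _ (interior_subset (hint x hx))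
      ((hclose x).trans_le (min_le_left _ _))
    rw [Real.dist_eq, abs_lt] at h1
    have h2 := hγ' x ⟨hx, hxN⟩
    linarith [h1.2]

end Pool.Agent.PalT
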