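import Pool.Agent.PalT.Targets
import Pool.Agent.Pal.PROF

/-!
# The profile of the contraction towards a torus
-/

set_option autoImplicit false

open Set MeasureTheory Filter Topology Metric Asymptotics
open scoped Manifold ContDiff

namespace Pool.Agent.PalT

open Pool.Agent.Pal

namespace PROFT_

/-- The first coordinate as a continuous linear map. -/
noncomputable def p0 (d : ℕ) : E (d + 1) →L[ℝ] ℝ := EuclideanSpace.proj 0

theorem p0_apply (d : ℕ) (x : E (d + 1)) : p0 d x = x 0 := rfl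

theorem radT_deriv (d : ℕ) (N C κ ρ : ℝ) (x : E (d + 1)) :
    HasFDerivAt (radT (d := d) (PROF_.pr N C) κ ρ)
      ((1 : ℝ) • ContinuousLinearMap.id ℝ (E (d + 1)) +
        ((-(κ * (PROF_.pr N C (x 0 ^ 2 / ρ ^ 2) - 2 * (x 0 ^ 2 / ρ ^ 2) *
          (1 / C * ((N ^ 2 - x 0 ^ 2 / ρ ^ 2) / C)⁻¹ ^ 2 * PROF_.pr N C (x 0 ^ 2 / ρ ^ 2))))) •
          p0 d).smulRight (EuclideanSpace.single 0 1)) x := by
  have h0 : HasFDerivAt (fun y : E (d + 1) => y 0) (p0 d) x := (p0 d).hasFDerivAt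
  have h1 : HasDerivAt (fun t : ℝ => t ^ 2 / ρ ^ 2) (2 * x 0 / ρ ^ 2) (x 0) := by
    simpa using (hasDerivAt_pow 2 (x 0)).div_const (ρ ^ 2)
  have h2 : HasDerivAt (fun t : ℝ => PROF_.pr N C (t ^ 2 / ρ ^ 2))
      (-(1 / C * ((N ^ 2 - x 0 ^ 2 / ρ ^ 2) / C)⁻¹ ^ 2 * PROF_.pr N C (x 0 ^ 2 / ρ ^ 2)) *
        (2 * x 0 / ρ ^ 2)) (x 0) :=
    HasDerivAt.comp (h₂ := PROF_.pr N C) (x 0) (PROF_.pr_deriv N C (x 0 ^ 2 / ρ ^ 2)) h1
  have h3 : HasDerivAt (fun t : ℝ => κ * PROF_.pr N C (t ^ 2 / ρ ^ 2) * t)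
      (κ * (-(1 / C * ((N ^ 2 - x 0 ^ 2 / ρ ^ 2) / C)⁻¹ ^ 2 * PROF_.pr N C (x 0 ^ 2 / ρ ^ 2)) *
        (2 * x 0 / ρ ^ 2)) * x 0 + κ * PROF_.pr N C (x 0 ^ 2 / ρ ^ 2) * 1) (x 0) :=
    (h2.const_mul κ).mul (hasDerivAt_id (x 0))
  have h4 := HasDerivAt.comp_hasFDerivAt (h₂ := fun t : ℝ => κ * PROF_.pr N C (t ^ 2 / ρ ^ 2) * t)
    x h3 h0
  have h5 := (hasFDerivAt_id x).sub (h4.smul_const (EuclideanSpace.single (0 : Fin (d + 1)) (1 : ℝ)))
  refine h5.congr_fderiv ?_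
  ext v i
  simp only [add_apply, sub_apply, smul_apply, ContinuousLinearMap.id_apply,
    ContinuousLinearMap.smulRight_apply, one_smul, PiLp.add_apply, PiLp.sub_apply,
    PiLp.smul_apply, smul_eq_mul]
  ring

end PROFT_

open PROFT_ in
/-- Profiles exist. -/
theorem proft : T_PROFT := by
  set C : ℝ := ((0 : ℕ) + 1) * (8 : ℝ) ^ 4 / 2 with hC
  have hC0 : 0 < C := by rw [hC]; norm_num
  refine ⟨PROF_.pr 8 C, PROF_.pr 8 C 16, 1 / 2, ?_⟩
  refine ⟨?_, ?_, ?_, ?_, ?_, ?_, ?_, ?_, ?_⟩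
  · unfold PROF_.pr
    apply expNegInvGlue.contDiff.comp
    fun_prop
  · intro t
    exact expNegInvGlue.nonneg _
  · exact PROF_.pr_le_one 8 C
  · intro t ht
    apply expNegInvGlue.zero_of_nonpos
    exact div_nonpos_of_nonpos_of_nonneg (by linarith) hC0.le
  · apply expNegInvGlue.pos_of_pos
    apply div_pos _ hC0
    norm_num
  · intro t ht
    apply expNegInvGlue.monotone
    gcongr
  · norm_num
  · norm_num
  · intro d ρ κ hρ hκ hκ0 x hx
    rw [(radT_deriv d 8 C κ ρ x).fderiv]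
    set t : ℝ := x 0 ^ 2 / ρ ^ 2 with ht
    have ht1 : 1 ≤ t := by
      rw [ht, le_div_iff₀ (by positivity), one_mul, ← sq_abs (x 0)]
      exact pow_le_pow_left₀ hρ.le hx 2
    rw [PROF_.det_rank_one (by omega) _ one_ne_zero]
    have hk := PROF_.key 0 8 (by norm_num) t ht1
    rw [← hC] at hk
    simp only [one_pow, one_mul, smul_apply, p0_apply, smul_eq_mul,
      PiLp.single_apply, if_true, mul_one]
    have := mul_le_mul_of_nonneg_left hk hκ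
    simp only [Nat.cast_zero, zero_add, one_mul] at this
    nlinarith

end Pool.Agent.PalT
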