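import Pool.Agent.PalT.Targets
import Pool.Agent.Pal.PROF

/-!
# PUSH: the translation near the torus
-/

set_option autoImplicit false

open Set MeasureTheory Filter Topology
open scoped Manifold ContDiff

namespace Pool.Agent.PalT

open Pool.Agent.Pal

namespace PUSH_

/-- The first coordinate. -/
noncomputable def pr (d : ℕ) : E (d + 1) →L[ℝ] ℝ := EuclideanSpace.proj (0 : Fin (d + 1))

theorem pr_apply {d : ℕ} (x : E (d + 1)) : pr d x = x 0 := rfl

/-- The push along the torus. -/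
noncomputable def L {d : ℕ} (χ : ℝ → ℝ) (v x : E (d + 1)) : E (d + 1) := x + χ (x 0) • v

theorem L_smooth {d : ℕ} {χ : ℝ → ℝ} (h : ContDiff ℝ ∞ χ) (v : E (d + 1)) :
    ContDiff ℝ ∞ (L χ v) := by
  have h1 : ContDiff ℝ ∞ fun x : E (d + 1) => χ (x 0) := h.comp (pr d).contDiff
  exact contDiff_id.add (h1.smul contDiff_const)

theorem L_det {d : ℕ} {χ : ℝ → ℝ} (h : ContDiff ℝ ∞ χ) (v : E (d + 1)) (hv : v 0 = 0)
    (x : E (d + 1)) : (fderiv ℝ (L χ v) x).det = 1 := by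
  have h1 : HasDerivAt χ (deriv χ (x 0)) (x 0) :=
    (h.differentiable (by simp) (x 0)).hasDerivAt
  have h2 : HasFDerivAt (fun x : E (d + 1) => χ (x 0)) (deriv χ (x 0) • pr d) x :=
    h1.comp_hasFDerivAt x (pr d).hasFDerivAt
  have h3 : HasFDerivAt (L χ v) (ContinuousLinearMap.id ℝ (E (d + 1)) +
      (deriv χ (x 0) • pr d).smulRight v) x :=
    (hasFDerivAt_id x).add (h2.smul_const v)
  have h4 := PROF_.det_rank_one (n := d + 1) (by omega) 1 one_ne_zero (deriv χ (x 0) • pr d) v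
  rw [h3.fderiv]
  rw [one_smul] at h4
  rw [h4]
  simp [pr_apply, hv]

theorem L_near {d : ℕ} {χ : ℝ → ℝ} (h : ContDiff ℝ ∞ χ) (hs : HasCompactSupport χ) (r : ℕ) :
    ∃ C : ℝ, 0 < C ∧ ∀ v : E (d + 1), Near r (C * ‖v‖) (L χ v) := by
  have hbd : ∀ j : ℕ, ∃ C : ℝ, ∀ z, ‖iteratedFDeriv ℝ j χ z‖ ≤ C := by
    intro j
    refine (hs.iteratedFDeriv (𝕜 := ℝ) j).exists_bound_of_continuous ?_
    exact h.continuous_iteratedFDeriv (by exact_mod_cast le_top)
  choose C hC using hbd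
  have hC0 : ∀ j, 0 ≤ C j := fun j => (norm_nonneg _).trans (hC j 0)
  set K : ℝ := 1 + ∑ j ∈ Finset.range (r + 1), C j * ‖pr d‖ ^ j with hK
  have hsum : ∀ j ∈ Finset.range (r + 1), 0 ≤ C j * ‖pr d‖ ^ j := fun j _ =>
    mul_nonneg (hC0 j) (by positivity)
  refine ⟨K, ?_, fun v j hj y => ?_⟩
  · have := Finset.sum_nonneg hsum
    linarith
  · set g : ℝ →L[ℝ] E (d + 1) := (ContinuousLinearMap.id ℝ ℝ).smulRight v with hg
    have e1 : (fun z : E (d + 1) => L χ v z - z) = g ∘ (χ ∘ pr d) := by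
      funext z
      simp [L, hg, pr_apply]
    have hcd : ContDiff ℝ ∞ (χ ∘ pr d) := h.comp (pr d).contDiff
    have e2 : ‖iteratedFDeriv ℝ j (g ∘ (χ ∘ pr d)) y‖ ≤
        ‖g‖ * ‖iteratedFDeriv ℝ j (χ ∘ pr d) y‖ :=
      g.norm_iteratedFDeriv_comp_left (hcd.contDiffAt) (by exact_mod_cast le_top)
    have e3 : iteratedFDeriv ℝ j (χ ∘ pr d) y =
        (iteratedFDeriv ℝ j χ (pr d y)).compContinuousLinearMap fun _ => pr d :=
      (pr d).iteratedFDeriv_comp_right h y (by exact_mod_cast le_top)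
    have e4 : ‖iteratedFDeriv ℝ j (χ ∘ pr d) y‖ ≤ C j * ‖pr d‖ ^ j := by
      rw [e3]
      refine (ContinuousMultilinearMap.norm_compContinuousLinearMap_le _ _).trans ?_
      rw [Finset.prod_const, Finset.card_univ, Fintype.card_fin]
      exact mul_le_mul_of_nonneg_right (hC j _) (by positivity)
    have e5 : ‖g‖ ≤ ‖v‖ := by
      refine g.opNorm_le_bound (norm_nonneg _) fun t => ?_
      rw [hg, ContinuousLinearMap.smulRight_apply, norm_smul, mul_comm]
      rfl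
    have e6 : C j * ‖pr d‖ ^ j ≤ K := by
      have := Finset.single_le_sum hsum (Finset.mem_range.2 (by omega : j < r + 1))
      rw [hK]
      linarith
    rw [e1]
    calc ‖iteratedFDeriv ℝ j (g ∘ (χ ∘ pr d)) y‖
        ≤ ‖g‖ * ‖iteratedFDeriv ℝ j (χ ∘ pr d) y‖ := e2
      _ ≤ ‖v‖ * K := mul_le_mul e5 (e4.trans e6) (norm_nonneg _) (norm_nonneg _)
      _ = K * ‖v‖ := mul_comm _ _

end PUSH_

open PUSH_ in
/-- The translation near the torus. -/
theorem push : T_PUSH := by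
  intro d w hw
  let f : ContDiffBump (0 : ℝ) := ⟨w / 2, w, by linarith, by linarith⟩
  have hf : ContDiff ℝ ∞ (f : ℝ → ℝ) := f.contDiff
  have hfs : HasCompactSupport (f : ℝ → ℝ) := f.hasCompactSupport
  have hf1 : ∀ t : ℝ, |t| ≤ w / 2 → f t = 1 := fun t ht =>
    f.one_of_mem_closedBall (by
      rw [Metric.mem_closedBall, dist_zero_right]
      exact ht)
  have hf0 : ∀ t : ℝ, w ≤ |t| → f t = 0 := fun t ht =>
    f.zero_of_le_dist (by
      rw [dist_zero_right]
      exact ht)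
  refine ⟨fun v => L f v, fun v hv => ⟨⟨L_smooth hf v, ?_, ?_⟩, L_det hf v hv, ?_, ?_⟩⟩
  · intro x u hu
    have h1 : (x + u) 0 = x 0 := by
      show x 0 + u 0 = x 0
      rw [hu.1, add_zero]
    show x + u + f ((x + u) 0) • v = x + f (x 0) • v + u
    rw [h1]
    abel
  · intro x hx
    show x + f (x 0) • v = x
    rw [hf0 _ hx, zero_smul, add_zero]
  · intro x hx
    show x + f (x 0) • v = x + v
    rw [hf1 _ hx, one_smul]
  · intro r δ hδ
    obtain ⟨C, hC, hCn⟩ := L_near (d := d) hf hfs r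
    refine ⟨δ / C, by positivity, fun v' _ hv' j hj y => (hCn v' j hj y).trans ?_⟩
    rw [le_div_iff₀ hC] at hv'
    linarith

end Pool.Agent.PalT
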