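import Pool.Agent.PalT.TargetsF
import Pool.Agent.PalF.PUL

/-!
# KT-PUSHF: divergence free fields that are constant near the torus
-/

set_option autoImplicit false
set_option linter.unusedSectionVars false

open scoped Manifold ContDiff Topology
open MeasureTheory Set Filter Bundle Asymptotics Metric

namespace Pool.Agent.PalT

open Pool.Agent.Pal Pool.Agent.Palis Pool.Agent.PalF

namespace PUSHF_

theorem strip_open (d : ℕ) (w : ℝ) : IsOpen (Strip d w) := by
  have h : Continuous fun x : E (d + 1) => |x 0| := by fun_prop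
  exact isOpen_lt h continuous_const

/-- the unit vector in the direction of the coordinate `i + 1` -/
noncomputable abbrev ev {d : ℕ} (i : Fin d) : E (d + 1) := EuclideanSpace.single i.succ (1 : ℝ)

theorem ev_lat {d : ℕ} (i : Fin d) : ev i ∈ Lat d := by
  refine ⟨?_, ?_⟩
  · simp [ev]
  · intro j
    by_cases h : j = i.succ
    · exact ⟨1, by simp [ev, h]⟩
    · exact ⟨0, by simp [ev, h]⟩

/-- the lower corner of the box -/
def ba (d : ℕ) (w : ℝ) : Fin (d + 1) → ℝ := Fin.cons (-w) (fun _ => 0)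

/-- the upper corner of the box -/
def bb (d : ℕ) (w : ℝ) : Fin (d + 1) → ℝ := Fin.cons w (fun _ => 1)

theorem mem_box {d : ℕ} {w : ℝ} {y : Fin (d + 1) → ℝ} :
    y ∈ Icc (ba d w) (bb d w) ↔ (-w ≤ y 0 ∧ y 0 ≤ w) ∧ ∀ i : Fin d, 0 ≤ y i.succ ∧ y i.succ ≤ 1 := by
  rw [mem_Icc, Pi.le_def, Pi.le_def, Fin.forall_fin_succ, Fin.forall_fin_succ]
  simp only [ba, bb, Fin.cons_zero, Fin.cons_succ]
  constructor
  · rintro ⟨⟨a1, a2⟩, a3, a4⟩
    exact ⟨⟨a1, a3⟩, fun i => ⟨a2 i, a4 i⟩⟩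
  · rintro ⟨⟨a1, a3⟩, a2⟩
    exact ⟨⟨a1, fun i => (a2 i).1⟩, a3, fun i => (a2 i).2⟩

/-- the cell and the box -/
theorem cell_box {d : ℕ} {w : ℝ} (g : E (d + 1) → ℝ) :
    ∫ x in Cell d w, g x = ∫ y in Icc (ba d w) (bb d w), g (WithLp.toLp 2 y) := by
  have hmp := PiLp.volume_preserving_toLp (ι := Fin (d + 1))
  have hme : MeasurableEmbedding (WithLp.toLp 2 : (Fin (d + 1) → ℝ) → E (d + 1)) :=
    (MeasurableEquiv.toLp 2 (Fin (d + 1) → ℝ)).measurableEmbedding
  rw [← hmp.setIntegral_preimage_emb hme g (Cell d w)]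
  refine setIntegral_congr_set ?_
  have h1 : (Set.pi univ fun i => Ioo (ba d w i) (bb d w i)) ⊆
      (WithLp.toLp 2 : (Fin (d + 1) → ℝ) → E (d + 1)) ⁻¹' Cell d w := by
    intro y hy
    have h0 := hy 0 (mem_univ _)
    refine ⟨?_, ?_⟩
    · show |y 0| < w
      rw [abs_lt]
      exact h0
    · intro i
      have h2 := hy i.succ (mem_univ _)
      simp only [ba, bb, Fin.cons_succ] at h2
      exact ⟨h2.1.le, h2.2⟩
  have h2 : (WithLp.toLp 2 : (Fin (d + 1) → ℝ) → E (d + 1)) ⁻¹' Cell d w ⊆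
      Icc (ba d w) (bb d w) := by
    rintro y ⟨hy0, hy⟩
    rw [mem_box]
    have h3 : |y 0| < w := hy0
    rw [abs_lt] at h3
    exact ⟨⟨h3.1.le, h3.2.le⟩, fun i => ⟨(hy i).1, (hy i).2.le⟩⟩
  have h3 : (Set.pi univ fun i => Ioo (ba d w i) (bb d w i)) =ᵐ[volume] Icc (ba d w) (bb d w) :=
    Measure.univ_pi_Ioo_ae_eq_Icc
  refine Filter.EventuallyLE.antisymm (LE.le.eventuallyLE h2) ?_
  exact h3.symm.le.trans (LE.le.eventuallyLE h1)

theorem cell_meas (d : ℕ) (w : ℝ) : MeasurableSet (Cell d w) := by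
  have h0 : Measurable fun x : E (d + 1) => |x 0| := by fun_prop
  have h1 : MeasurableSet {x : E (d + 1) | |x 0| < w} := measurableSet_lt h0 measurable_const
  have h2 : ∀ j : Fin d, MeasurableSet {x : E (d + 1) | 0 ≤ x j.succ ∧ x j.succ < 1} := by
    intro j
    have h3 : Measurable fun x : E (d + 1) => x j.succ := by fun_prop
    exact (measurableSet_le measurable_const h3).inter (measurableSet_lt h3 measurable_const)
  have h3 : Cell d w = {x : E (d + 1) | |x 0| < w} ∩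
      ⋂ j : Fin d, {x : E (d + 1) | 0 ≤ x j.succ ∧ x j.succ < 1} := by
    ext x
    simp [Cell]
  rw [h3]
  exact h1.inter (MeasurableSet.iInter h2)

/-- the integral of a derivative along the torus -/
theorem int_zero {d : ℕ} {w : ℝ} (hw : 0 < w) (i : Fin d) (u : E (d + 1) → ℝ)
    (hu : ContDiffOn ℝ 1 u (Strip d w))
    (hper : ∀ x ∈ Strip d w, u (x + ev i) = u x)
    (hz : ∀ x ∈ Strip d w, w / 2 < |x 0| → u x = 0) :
    ∫ x in Cell d w, fderiv ℝ u x (ev i) = 0 := by
  set w₁ : ℝ := 3 * w / 4 with hw₁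
  have hw₁0 : 0 < w₁ := by positivity
  have hw₁w : w₁ < w := by rw [hw₁]; linarith
  have hso := strip_open d w
  -- shrink the cell
  have hsub : Cell d w₁ ⊆ Cell d w := fun x hx => ⟨hx.1.trans hw₁w, hx.2⟩
  have hmeas : MeasurableSet (Cell d w) := cell_meas d w
  have hstep : ∫ x in Cell d w₁, fderiv ℝ u x (ev i) = ∫ x in Cell d w, fderiv ℝ u x (ev i) := by
    refine (setIntegral_eq_of_subset_of_forall_sdiff_eq_zero hmeas hsub ?_).symm
    intro x hx
    have hxs : x ∈ Strip d w := hx.1.1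
    have hx0 : w / 2 < |x 0| := by
      have h1 : ¬ |x 0| < w₁ := fun h => hx.2 ⟨h, hx.1.2⟩
      push Not at h1
      rw [hw₁] at h1
      linarith
    have h2 : u =ᶠ[𝓝 x] fun _ => 0 := by
      have h3 : Continuous fun x : E (d + 1) => |x 0| := by fun_prop
      filter_upwards [hso.mem_nhds hxs, (isOpen_lt continuous_const h3).mem_nhds hx0]
        with z hz1 hz2
      exact hz z hz1 hz2
    rw [h2.fderiv_eq]
    simp
  rw [← hstep, cell_box]
  -- the divergence theorem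
  have hle : ba d w₁ ≤ bb d w₁ := by
    rw [Pi.le_def, Fin.forall_fin_succ]
    simp only [ba, bb, Fin.cons_zero, Fin.cons_succ]
    exact ⟨by linarith, fun _ => zero_le_one⟩
  have hLs : ∀ y ∈ Icc (ba d w₁) (bb d w₁), (WithLp.toLp 2 y : E (d + 1)) ∈ Strip d w := by
    intro y hy
    rw [mem_box] at hy
    show |y 0| < w
    rw [abs_lt]
    constructor <;> linarith [hy.1.1, hy.1.2]
  let L : (Fin (d + 1) → ℝ) ≃L[ℝ] E (d + 1) := (EuclideanSpace.equiv (Fin (d + 1)) ℝ).symm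
  have hLdef : ∀ y, L y = WithLp.toLp 2 y := fun y => rfl
  have hud : ∀ y ∈ Icc (ba d w₁) (bb d w₁),
      HasFDerivAt (fun y => u (L y)) ((fderiv ℝ u (L y)).comp (L : (Fin (d + 1) → ℝ) →L[ℝ] E (d + 1)))
        y := by
    intro y hy
    have h1 : HasFDerivAt u (fderiv ℝ u (L y)) (L y) :=
      (((hu _ (hLs y hy)).contDiffAt (hso.mem_nhds (hLs y hy))).differentiableAt
        (by norm_num)).hasFDerivAt
    exact h1.comp y L.hasFDerivAt
  have hfc : ContinuousOn (fun x => fderiv ℝ u x) (Strip d w) :=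
    hu.continuousOn_fderiv_of_isOpen hso (by norm_num)
  have hLc : Continuous fun y : Fin (d + 1) → ℝ => L y := L.continuous
  let f : Fin (d + 1) → (Fin (d + 1) → ℝ) → ℝ := fun j y => if j = i.succ then u (L y) else 0
  let f' : Fin (d + 1) → (Fin (d + 1) → ℝ) → (Fin (d + 1) → ℝ) →L[ℝ] ℝ := fun j y =>
    if j = i.succ then (fderiv ℝ u (L y)).comp (L : (Fin (d + 1) → ℝ) →L[ℝ] E (d + 1)) else 0
  have hsum : ∀ y, ∑ j, f' j y (Pi.single j 1) = fderiv ℝ u (L y) (ev i) := by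
    intro y
    rw [Finset.sum_eq_single i.succ]
    · simp only [f', if_true]
      show fderiv ℝ u (L y) (L (Pi.single i.succ 1)) = _
      congr 1
    · intro j _ hj
      simp [f', hj]
    · intro h
      exact absurd (Finset.mem_univ _) h
  have hdiv := integral_divergence_of_hasFDerivAt_off_countable' (ba d w₁) (bb d w₁) hle f f' ∅
    countable_empty ?_ ?_ ?_
  · have h1 : ∫ y in Icc (ba d w₁) (bb d w₁), fderiv ℝ u (WithLp.toLp 2 y) (ev i) =
        ∫ y in Icc (ba d w₁) (bb d w₁), ∑ j, f' j y (Pi.single j 1) := by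
      refine integral_congr_ae (Filter.Eventually.of_forall fun y => ?_)
      exact (hsum y).symm
    rw [h1, hdiv]
    refine Finset.sum_eq_zero fun j _ => ?_
    by_cases hj : j = i.succ
    · subst hj
      rw [sub_eq_zero]
      refine setIntegral_congr_fun measurableSet_Icc fun x hx => ?_
      simp only [f, if_true]
      have hb : (i.succ.insertNth (bb d w₁ i.succ) x : Fin (d + 1) → ℝ) =
          i.succ.insertNth (ba d w₁ i.succ) x + Pi.single i.succ 1 := by
        funext l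
        refine Fin.succAboveCases i.succ ?_ ?_ l
        · simp [ba, bb]
        · intro l'
          simp [Fin.succAbove_ne]
      rw [hb]
      have h2 : L (i.succ.insertNth (ba d w₁ i.succ) x + Pi.single i.succ 1) =
          L (i.succ.insertNth (ba d w₁ i.succ) x) + ev i := by
        rw [map_add]
        rfl
      rw [h2]
      apply hper
      apply hLs
      rw [mem_Icc]
      constructor
      · rw [Fin.le_insertNth_iff]
        exact ⟨le_rfl, hx.1⟩
      · rw [Fin.insertNth_le_iff]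
        exact ⟨hle _, hx.2⟩
    · simp [f, hj]
  · intro j
    by_cases hj : j = i.succ
    · simp only [f, hj, if_true]
      exact (hu.continuousOn.comp hLc.continuousOn fun y hy => hLs y hy)
    · simp only [f, hj, if_false]
      exact continuousOn_const
  · rintro y ⟨hy, -⟩ j
    have hy' : y ∈ Icc (ba d w₁) (bb d w₁) := by
      rw [mem_Icc, Pi.le_def, Pi.le_def]
      exact ⟨fun l => (hy l (mem_univ _)).1.le, fun l => (hy l (mem_univ _)).2.le⟩
    by_cases hj : j = i.succ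
    · simp only [f, f', hj, if_true]
      exact hud y hy'
    · simp only [f, f', hj, if_false]
      exact hasFDerivAt_const _ _
  · have h1 : ContinuousOn (fun y => ∑ j, f' j y (Pi.single j 1)) (Icc (ba d w₁) (bb d w₁)) := by
      have h2 : ContinuousOn (fun y => fderiv ℝ u (L y) (ev i)) (Icc (ba d w₁) (bb d w₁)) := by
        have h3 : ContinuousOn (fun y => fderiv ℝ u (L y)) (Icc (ba d w₁) (bb d w₁)) :=
          hfc.comp hLc.continuousOn fun y hy => hLs y hy
        exact h3.clm_apply continuousOn_const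
      exact h2.congr fun y _ => hsum y
    exact h1.integrableOn_compact isCompact_Icc

/-- the cut off function -/
noncomputable def chi (w t : ℝ) : ℝ :=
  Real.smoothTransition ((w ^ 2 / 4 - t ^ 2) / (3 * w ^ 2 / 16))

theorem chi_contDiff (w : ℝ) : ContDiff ℝ ∞ (chi w) := by
  unfold chi
  refine Real.smoothTransition.contDiff.comp ?_
  fun_prop

theorem chi_one {w t : ℝ} (hw : 0 < w) (ht : |t| ≤ w / 4) : chi w t = 1 := by
  unfold chi
  refine Real.smoothTransition.one_of_one_le ?_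
  rw [le_div_iff₀ (by positivity)]
  have h : t ^ 2 ≤ (w / 4) ^ 2 := sq_le_sq' (by linarith [neg_abs_le t]) ((le_abs_self t).trans ht)
  nlinarith

theorem chi_zero {w t : ℝ} (hw : 0 < w) (ht : w / 2 ≤ |t|) : chi w t = 0 := by
  unfold chi
  refine Real.smoothTransition.zero_of_nonpos ?_
  refine div_nonpos_of_nonpos_of_nonneg ?_ (by positivity)
  have h : (w / 2) ^ 2 ≤ |t| ^ 2 := pow_le_pow_left₀ (by positivity) ht 2
  rw [sq_abs] at h
  nlinarith

section Mfd

variable {d : ℕ} {M : Type} [TopologicalSpace M] [ChartedSpace (E (d + 1)) M]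

open scoped Classical in
/-- the field -/
noncomputable def Rf (w : ℝ) (T : E (d + 1) → M) (i : Fin d) (p : M) :
    TangentSpace 𝓘(ℝ, E (d + 1)) p :=
  if h : ∃ x ∈ Strip d w, T x = p then
    (chi w ((Classical.choose h) 0) • (mfderiv 𝓘(ℝ, E (d + 1)) 𝓘(ℝ, E (d + 1)) T
      (Classical.choose h) (ev i) : E (d + 1)) : E (d + 1))
  else (0 : E (d + 1))

/-- the map of the collar is smooth -/
theorem T_smooth [IsManifold 𝓘(ℝ, E (d + 1)) ∞ M] {w : ℝ} {T : E (d + 1) → M} (hT : Collar w T)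
    {x : E (d + 1)} (hx : x ∈ Strip d w) :
    ContMDiffAt 𝓘(ℝ, E (d + 1)) 𝓘(ℝ, E (d + 1)) ∞ T x := by
  obtain ⟨e, he, hxe, hev⟩ := hT.2.1 x hx
  have h1 : ContMDiffOn 𝓘(ℝ, E (d + 1)) 𝓘(ℝ, E (d + 1)) ∞ e.symm e.target :=
    contMDiffOn_symm_of_mem_maximalAtlas he
  exact ((h1 x hxe).contMDiffAt (e.open_target.mem_nhds hxe)).congr_of_eventuallyEq hev

/-- the derivative of the map of the collar is periodic -/
theorem dT_eq [IsManifold 𝓘(ℝ, E (d + 1)) ∞ M] {w : ℝ} {T : E (d + 1) → M} (hT : Collar w T)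
    {x x' : E (d + 1)} (hx : x ∈ Strip d w) (hx' : x' ∈ Strip d w) (h : T x = T x')
    (v : E (d + 1)) :
    (mfderiv 𝓘(ℝ, E (d + 1)) 𝓘(ℝ, E (d + 1)) T x v : E (d + 1)) =
      (mfderiv 𝓘(ℝ, E (d + 1)) 𝓘(ℝ, E (d + 1)) T x' v : E (d + 1)) := by
  have hL : x' - x ∈ Lat d := (hT.2.2 x' hx' x hx).1 h.symm
  have hper : ∀ z ∈ Strip d w, T (z + (x' - x)) = T z := by
    intro z hz
    refine (hT.2.2 _ ?_ z hz).2 ?_
    · show |(z + (x' - x)) 0| < w
      have h1 : (z + (x' - x)) 0 = z 0 := by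
        have := hL.1
        simp only [PiLp.add_apply, this, add_zero]
      rw [h1]
      exact hz
    · rw [add_sub_cancel_left]
      exact hL
  have h2 : (fun z => T (z + (x' - x))) =ᶠ[𝓝 x] T := by
    filter_upwards [(strip_open d w).mem_nhds hx] with z hz
    exact hper z hz
  have h3 : HasMFDerivAt 𝓘(ℝ, E (d + 1)) 𝓘(ℝ, E (d + 1)) (fun z : E (d + 1) => z + (x' - x)) x
      (ContinuousLinearMap.id ℝ (E (d + 1))) :=
    hasMFDerivAt_iff_hasFDerivAt.2 ((hasFDerivAt_id x).add_const _)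
  have hxx : x + (x' - x) = x' := by abel
  have h4 : HasMFDerivAt 𝓘(ℝ, E (d + 1)) 𝓘(ℝ, E (d + 1)) T (x + (x' - x))
      (mfderiv 𝓘(ℝ, E (d + 1)) 𝓘(ℝ, E (d + 1)) T (x + (x' - x))) := by
    refine MDifferentiableAt.hasMFDerivAt ?_
    rw [hxx]
    exact (T_smooth hT hx').mdifferentiableAt (by simp)
  have h5 := h4.comp x h3
  have h6 : HasMFDerivAt 𝓘(ℝ, E (d + 1)) 𝓘(ℝ, E (d + 1)) T x
      (mfderiv 𝓘(ℝ, E (d + 1)) 𝓘(ℝ, E (d + 1)) T x) :=
    ((T_smooth hT hx).mdifferentiableAt (by simp)).hasMFDerivAt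
  have h7 : HasMFDerivAt 𝓘(ℝ, E (d + 1)) 𝓘(ℝ, E (d + 1)) (T ∘ fun z : E (d + 1) => z + (x' - x)) x
      (mfderiv 𝓘(ℝ, E (d + 1)) 𝓘(ℝ, E (d + 1)) T x) := h6.congr_of_eventuallyEq h2
  have h8 := hasMFDerivAt_unique h7 h5
  have h9 : (mfderiv 𝓘(ℝ, E (d + 1)) 𝓘(ℝ, E (d + 1)) T x v : E (d + 1)) =
      (mfderiv 𝓘(ℝ, E (d + 1)) 𝓘(ℝ, E (d + 1)) T (x + (x' - x)) v : E (d + 1)) := by
    have := congrArg (fun A : E (d + 1) →L[ℝ] E (d + 1) => A v) h8
    exact this
  rw [h9, hxx]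

theorem Rf_T [IsManifold 𝓘(ℝ, E (d + 1)) ∞ M] {w : ℝ} {T : E (d + 1) → M} (hT : Collar w T)
    (i : Fin d) {x : E (d + 1)} (hx : x ∈ Strip d w) :
    (Rf w T i (T x) : E (d + 1)) = chi w (x 0) •
      (mfderiv 𝓘(ℝ, E (d + 1)) 𝓘(ℝ, E (d + 1)) T x (ev i) : E (d + 1)) := by
  have h : ∃ x' ∈ Strip d w, T x' = T x := ⟨x, hx, rfl⟩
  have h1 : (Rf w T i (T x) : E (d + 1)) = (chi w ((Classical.choose h) 0) •
      (mfderiv 𝓘(ℝ, E (d + 1)) 𝓘(ℝ, E (d + 1)) T (Classical.choose h) (ev i) : E (d + 1))) := by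
    unfold Rf
    exact dif_pos h
  obtain ⟨h2, h3⟩ := Classical.choose_spec h
  have h4 : (Classical.choose h) - x ∈ Lat d := (hT.2.2 _ h2 x hx).1 h3
  have h5 : (Classical.choose h) 0 = x 0 := by
    have := h4.1
    simp only [PiLp.sub_apply] at this
    linarith
  rw [h1, h5, dT_eq hT h2 hx h3]
  rfl

theorem Rf_zero {w : ℝ} {T : E (d + 1) → M} (i : Fin d) {p : M} (hp : p ∉ T '' Strip d w) :
    Rf w T i p = 0 := by
  unfold Rf
  refine dif_neg ?_
  rintro ⟨x, hx, h⟩
  exact hp ⟨x, hx, h⟩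

end Mfd

end PUSHF_

open PUSHF_ PUL_ in
/-- Divergence free fields that are constant near the torus. -/
theorem pushf (h1 : T_COLL) (h2 : T_INTT) : T_PUSHF := by
  intro d M _ _ _ _ _ _ _ μ _ w T hT hU
  have hw : 0 < w := hT.1
  have hchi := chi_contDiff w
  refine ⟨fun i => Rf w T i, fun i => ?_⟩
  -- the support
  set K : Set M := T '' {x : E (d + 1) | |x 0| ≤ w / 2} with hK
  have hKc : IsCompact K := by
    refine (h1 d M w T hT).2.2.1 (w / 2) (by linarith) _ ?_ (fun x hx => hx) ?_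
    · exact isClosed_le (by fun_prop) continuous_const
    · intro x hx v hv
      have h3 : (x + v) 0 = x 0 := by simp only [PiLp.add_apply, hv.1, add_zero]
      show |(x + v) 0| ≤ w / 2
      rw [h3]
      exact hx
  have hRK : ∀ p, p ∉ K → Rf w T i p = 0 := by
    intro p hp
    by_cases h : p ∈ T '' Strip d w
    · obtain ⟨x, hx, rfl⟩ := h
      have h3 : ¬ |x 0| ≤ w / 2 := fun h4 => hp ⟨x, h4, rfl⟩
      push Not at h3
      have h4 := Rf_T hT i hx
      rw [chi_zero hw h3.le, zero_smul] at h4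
      exact h4
    · exact Rf_zero i h
  have hsm : IsSmoothField (E (d + 1)) (Rf w T i) := by
    intro p
    by_cases h : p ∈ T '' Strip d w
    · obtain ⟨x, hx, rfl⟩ := h
      obtain ⟨e, he, hxe, hev⟩ := hT.2.1 x hx
      obtain ⟨O, hO1, hOo, hxO⟩ := _root_.mem_nhds_iff.1 (Filter.inter_mem (Filter.inter_mem
        (e.open_target.mem_nhds hxe) ((strip_open d w).mem_nhds hx)) hev)
      have hes : ContMDiffOn 𝓘(ℝ, E (d + 1)) 𝓘(ℝ, E (d + 1)) ∞ e e.source :=
        contMDiffOn_of_mem_maximalAtlas he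
      have het : ContMDiffOn 𝓘(ℝ, E (d + 1)) 𝓘(ℝ, E (d + 1)) ∞ e.symm e.target :=
        contMDiffOn_symm_of_mem_maximalAtlas he
      set U : Set M := e.source ∩ e ⁻¹' O with hU'
      have hUo : IsOpen U := e.isOpen_inter_preimage hOo
      have hxU : T x ∈ U := by
        have h3 : T x = e.symm x := (hO1 hxO).2
        rw [h3]
        refine ⟨e.map_target hxe, ?_⟩
        show e (e.symm x) ∈ O
        rw [e.right_inv hxe]
        exact hxO
      set Z : E (d + 1) → E (d + 1) := fun y => chi w (y 0) • ev i with hZ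
      have hZs : ContDiff ℝ ∞ Z := by
        have h3 : ContDiff ℝ ∞ fun y : E (d + 1) => y 0 := by fun_prop
        exact (hchi.comp h3).smul contDiff_const
      have h11 : ContMDiffOn 𝓘(ℝ, E (d + 1)).tangent 𝓘(ℝ, E (d + 1)).tangent ∞
          (tangentMapWithin 𝓘(ℝ, E (d + 1)) 𝓘(ℝ, E (d + 1)) e.symm e.target)
          (TotalSpace.proj ⁻¹' e.target) :=
        het.contMDiffOn_tangentMapWithin le_rfl e.open_target.uniqueMDiffOn
      have h12 : ContMDiff 𝓘(ℝ, E (d + 1)) 𝓘(ℝ, E (d + 1)).tangent ∞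
          (fun y : E (d + 1) => (⟨y, Z y⟩ : TangentBundle 𝓘(ℝ, E (d + 1)) (E (d + 1)))) :=
        contMDiff_vectorSpace_iff_contDiff.2 hZs
      have h13 : ContMDiffOn 𝓘(ℝ, E (d + 1)) 𝓘(ℝ, E (d + 1)).tangent ∞
          (fun x : M => (⟨e x, Z (e x)⟩ : TangentBundle 𝓘(ℝ, E (d + 1)) (E (d + 1)))) e.source :=
        h12.comp_contMDiffOn hes
      have h14 := h11.comp h13 (fun x hx => e.map_source hx)
      have h15 : ContMDiffOn 𝓘(ℝ, E (d + 1)) 𝓘(ℝ, E (d + 1)).tangent ∞
          (fun x => (⟨x, Rf w T i x⟩ : TangentBundle 𝓘(ℝ, E (d + 1)) M)) U := by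
        refine (h14.mono inter_subset_left).congr fun z hz => ?_
        simp only [Function.comp_apply, tangentMapWithin]
        rw [mfderivWithin_of_isOpen e.open_target (e.map_source hz.1)]
        have hzO : e z ∈ O := hz.2
        have hzS : e z ∈ Strip d w := (hO1 hzO).1.2
        have hzT : T (e z) = z := by
          have h3 : T (e z) = e.symm (e z) := (hO1 hzO).2
          rw [h3, e.left_inv hz.1]
        have h16 := Rf_T hT i hzS
        have h17 : T =ᶠ[𝓝 (e z)] e.symm := by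
          filter_upwards [hOo.mem_nhds hzO] with y hy
          exact (hO1 hy).2
        have h18 : (mfderiv 𝓘(ℝ, E (d + 1)) 𝓘(ℝ, E (d + 1)) T (e z) (ev i) : E (d + 1)) =
            (mfderiv 𝓘(ℝ, E (d + 1)) 𝓘(ℝ, E (d + 1)) e.symm (e z) (ev i) : E (d + 1)) := by
          have h19 := h17.mfderiv_eq (I := 𝓘(ℝ, E (d + 1))) (I' := 𝓘(ℝ, E (d + 1)))
          exact congrArg (fun A : E (d + 1) →L[ℝ] E (d + 1) => A (ev i)) h19
        have h20 : (Rf w T i z : E (d + 1)) =
            (mfderiv 𝓘(ℝ, E (d + 1)) 𝓘(ℝ, E (d + 1)) e.symm (e z) (Z (e z)) : E (d + 1)) := by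
          have h21 : (Rf w T i z : E (d + 1)) = (Rf w T i (T (e z)) : E (d + 1)) := by
            rw [hzT]
          rw [h21, h16, h18]
          exact (ContinuousLinearMap.map_smul (mfderiv 𝓘(ℝ, E (d + 1)) 𝓘(ℝ, E (d + 1)) e.symm (e z))
            (chi w ((e z) 0)) (ev i)).symm
        rw [h20]
        exact mk_eq (e.left_inv hz.1).symm _
      exact (h15 _ hxU).contMDiffAt (hUo.mem_nhds hxU)
    · have hpK : p ∉ K := by
        rintro ⟨x, hx, rfl⟩
        have h7 : |x 0| ≤ w / 2 := hx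
        exact h ⟨x, show |x 0| < w by linarith, rfl⟩
      have h6 : ContMDiffAt 𝓘(ℝ, E (d + 1)) 𝓘(ℝ, E (d + 1)).tangent ∞
          (zeroSection (E (d + 1)) (TangentSpace 𝓘(ℝ, E (d + 1)) : M → Type)) p :=
        Bundle.contMDiff_zeroSection ℝ (TangentSpace 𝓘(ℝ, E (d + 1)) : M → Type) p
      refine h6.congr_of_eventuallyEq ?_
      filter_upwards [hKc.isClosed.isOpen_compl.mem_nhds hpK] with z hz
      rw [hRK z hz]
      rfl
  refine ⟨hsm, ?_, ?_⟩
  · intro η hη
    have hcont : Continuous (lieD η (Rf w T i)) :=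
      (contMDiff_lieD hη (k := ∞) (by simp) hsm).continuous
    have h3 := h2 d M μ w T (lieD η (Rf w T i)) hT hU hcont (by
      intro y hy
      show mfderiv 𝓘(ℝ, E (d + 1)) 𝓘(ℝ, ℝ) η y (Rf w T i y) = 0
      rw [Rf_zero i hy]
      exact map_zero (mfderiv 𝓘(ℝ, E (d + 1)) 𝓘(ℝ, ℝ) η y))
    show ∫ x, lieD η (Rf w T i) x ∂μ = 0
    rw [h3]
    set u : E (d + 1) → ℝ := fun x => chi w (x 0) * η (T x) with hu
    have hηT : ∀ x ∈ Strip d w, ContDiffAt ℝ ∞ (fun x => η (T x)) x := by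
      intro x hx
      have h4 : ContMDiffAt 𝓘(ℝ, E (d + 1)) 𝓘(ℝ, ℝ) ∞ (fun x => η (T x)) x :=
        (hη (T x)).comp x (T_smooth hT hx)
      exact h4.contDiffAt
    have hc0 : ContDiff ℝ ∞ fun x : E (d + 1) => chi w (x 0) := by
      have h4 : ContDiff ℝ ∞ fun y : E (d + 1) => y 0 := by fun_prop
      exact hchi.comp h4
    have hus : ContDiffOn ℝ 1 u (Strip d w) := by
      intro x hx
      exact ((hc0.contDiffAt.mul (hηT x hx)).of_le (by simp)).contDiffWithinAt
    have huper : ∀ x ∈ Strip d w, u (x + ev i) = u x := by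
      intro x hx
      have h4 : (x + ev i) 0 = x 0 := by
        have := (ev_lat i).1
        simp only [PiLp.add_apply, this, add_zero]
      have h5 : T (x + ev i) = T x := by
        refine (hT.2.2 _ ?_ x hx).2 ?_
        · show |(x + ev i) 0| < w
          rw [h4]
          exact hx
        · rw [add_sub_cancel_left]
          exact ev_lat i
      simp only [hu, h4, h5]
    have huz : ∀ x ∈ Strip d w, w / 2 < |x 0| → u x = 0 := by
      intro x _ hx0
      simp only [hu, chi_zero hw hx0.le, zero_mul]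
    have h5 := int_zero hw i u hus huper huz
    rw [← h5]
    have hmeas : MeasurableSet (Cell d w) := cell_meas d w
    refine setIntegral_congr_fun hmeas fun x hx => ?_
    have hxS : x ∈ Strip d w := hx.1
    -- the pointwise identity
    have h6 : lieD η (Rf w T i) (T x) = chi w (x 0) * fderiv ℝ (fun x => η (T x)) x (ev i) := by
      have h7 : lieD η (Rf w T i) (T x) =
          mfderiv 𝓘(ℝ, E (d + 1)) 𝓘(ℝ, ℝ) η (T x) (chi w (x 0) •
            (mfderiv 𝓘(ℝ, E (d + 1)) 𝓘(ℝ, E (d + 1)) T x (ev i) : E (d + 1))) := by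
        unfold lieD
        exact congrArg (mfderiv 𝓘(ℝ, E (d + 1)) 𝓘(ℝ, ℝ) η (T x)) (Rf_T hT i hxS)
      rw [h7]
      have h8 := ContinuousLinearMap.map_smul (mfderiv 𝓘(ℝ, E (d + 1)) 𝓘(ℝ, ℝ) η (T x))
        (chi w (x 0)) (mfderiv 𝓘(ℝ, E (d + 1)) 𝓘(ℝ, E (d + 1)) T x (ev i))
      refine h8.trans ?_
      have h9 : HasMFDerivAt 𝓘(ℝ, E (d + 1)) 𝓘(ℝ, ℝ) (fun x => η (T x)) x
          ((mfderiv 𝓘(ℝ, E (d + 1)) 𝓘(ℝ, ℝ) η (T x)).comp
            (mfderiv 𝓘(ℝ, E (d + 1)) 𝓘(ℝ, E (d + 1)) T x)) :=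
        (((hη (T x)).mdifferentiableAt (by simp)).hasMFDerivAt).comp x
          (((T_smooth hT hxS).mdifferentiableAt (by simp)).hasMFDerivAt)
      have h10 : fderiv ℝ (fun x => η (T x)) x =
          ((mfderiv 𝓘(ℝ, E (d + 1)) 𝓘(ℝ, ℝ) η (T x)).comp
            (mfderiv 𝓘(ℝ, E (d + 1)) 𝓘(ℝ, E (d + 1)) T x)) := by
        rw [← mfderiv_eq_fderiv]
        exact h9.mfderiv
      exact congrArg (fun A : E (d + 1) →L[ℝ] ℝ => chi w (x 0) * A (ev i)) h10.symm
    have h11 : fderiv ℝ u x (ev i) = chi w (x 0) * fderiv ℝ (fun x => η (T x)) x (ev i) := by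
      have h12 : HasFDerivAt (fun x => η (T x)) (fderiv ℝ (fun x => η (T x)) x) x :=
        ((hηT x hxS).differentiableAt (by simp)).hasFDerivAt
      have h13 : HasFDerivAt (fun x : E (d + 1) => chi w (x 0))
          (deriv (chi w) (x 0) • (EuclideanSpace.proj (𝕜 := ℝ) (0 : Fin (d + 1)))) x := by
        have h14 : HasDerivAt (chi w) (deriv (chi w) (x 0)) (x 0) :=
          (hchi.differentiable (by simp) (x 0)).hasDerivAt
        have h15 : HasFDerivAt (fun x : E (d + 1) => x 0)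
            (EuclideanSpace.proj (𝕜 := ℝ) (0 : Fin (d + 1))) x :=
          (EuclideanSpace.proj (𝕜 := ℝ) (0 : Fin (d + 1))).hasFDerivAt
        have h16 := HasDerivAt.comp_hasFDerivAt (h₂ := chi w) x h14 h15
        exact h16
      rw [hu, (h13.fun_mul h12).fderiv]
      have h16 : (ev i : E (d + 1)) 0 = 0 := (ev_lat i).1
      simp only [_root_.add_apply, _root_.smul_apply, smul_eq_mul]
      have h18 : ∀ a b c e : ℝ, e = 0 → a + b * (c * e) = a := by
        rintro a b c e rfl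
        ring
      exact h18 _ _ _ _ h16
    show lieD η (Rf w T i) (T x) = fderiv ℝ u x (ev i)
    rw [h6, h11]
  · intro x hx
    have hxS : x ∈ Strip d w := by
      show |x 0| < w
      have : |x 0| < w / 4 := hx
      linarith
    have h3 := Rf_T hT i hxS
    rw [chi_one hw (le_of_lt hx), one_smul] at h3
    exact h3

end Pool.Agent.PalT
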