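import Pool.Agent.PalT.TargetsF

/-!
# KT-QMF: the almost invariant function on the manifold
-/

set_option autoImplicit false

open scoped Manifold ContDiff Topology
open MeasureTheory Set Filter Bundle Asymptotics Metric

namespace Pool.Agent.PalT

open Pool.Agent.Pal Pool.Agent.Palis Pool.Agent.PalF

namespace QMF_

variable {d : ℕ}

lemma isOpen_strip (w : ℝ) : IsOpen (Strip d w) := by
  have h : Continuous fun x : E (d + 1) => |x 0| :=
    (PiLp.continuous_apply (p := 2) (β := fun _ : Fin (d + 1) => ℝ) 0).abs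
  exact isOpen_lt h continuous_const

lemma strip_mono {w w' : ℝ} (h : w' ≤ w) : Strip d w' ⊆ Strip d w := fun x hx =>
  lt_of_lt_of_le (show |x 0| < w' from hx) h

/-- The projection to the torus. -/
noncomputable def pr (x : E (d + 1)) : E (d + 1) := x - EuclideanSpace.single 0 (x 0)

lemma pr_zero (x : E (d + 1)) : pr x 0 = 0 := by
  simp [pr]

lemma pr_succ (x : E (d + 1)) (i : Fin d) : pr x i.succ = x i.succ := by
  simp [pr]

lemma dist_pr (x : E (d + 1)) : dist x (pr x) = |x 0| := by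
  rw [dist_eq_norm]
  have : x - pr x = EuclideanSpace.single 0 (x 0) := by
    simp [pr]
  rw [this, PiLp.norm_single, Real.norm_eq_abs]

lemma dist_pr_le (x y : E (d + 1)) (hy : y 0 = 0) : dist (pr x) y ≤ dist x y := by
  rw [EuclideanSpace.dist_eq, EuclideanSpace.dist_eq]
  apply Real.sqrt_le_sqrt
  refine Finset.sum_le_sum fun i _ => ?_
  refine Fin.cases ?_ (fun i => ?_) i
  · rw [pr_zero, hy]
    simp
    positivity
  · rw [pr_succ]

section manifold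

variable {M : Type} [TopologicalSpace M] [ChartedSpace (E (d + 1)) M]
  [IsManifold 𝓘(ℝ, E (d + 1)) ∞ M]

omit [IsManifold 𝓘(ℝ, E (d + 1)) ∞ M] in
lemma smooth_T {w : ℝ} {T : E (d + 1) → M} (hT : Collar w T) {x : E (d + 1)}
    (hx : x ∈ Strip d w) : ContMDiffAt 𝓘(ℝ, E (d + 1)) 𝓘(ℝ, E (d + 1)) ∞ T x := by
  obtain ⟨e, he, hxe, hT'⟩ := hT.2.1 x hx
  have h1 : ContMDiffAt 𝓘(ℝ, E (d + 1)) 𝓘(ℝ, E (d + 1)) ∞ e.symm x :=
    contMDiffAt_symm_of_mem_maximalAtlas he hxe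
  exact h1.congr_of_eventuallyEq hT'

lemma lip_chart {w : ℝ} {T : E (d + 1) → M} (hT : Collar w T) {x : E (d + 1)}
    (hx : x ∈ Strip d w) : ∃ K : NNReal, ∃ t ∈ 𝓝 x,
      LipschitzOnWith K (fun y => extChartAt 𝓘(ℝ, E (d + 1)) (T x) (T y)) t := by
  have h1 := smooth_T hT hx
  have h2 : ContMDiffAt 𝓘(ℝ, E (d + 1)) 𝓘(ℝ, E (d + 1)) ∞
      (extChartAt 𝓘(ℝ, E (d + 1)) (T x)) (T x) := contMDiffAt_extChartAt
  have h3 : ContMDiffAt 𝓘(ℝ, E (d + 1)) 𝓘(ℝ, E (d + 1)) ∞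
      (fun y => extChartAt 𝓘(ℝ, E (d + 1)) (T x) (T y)) x := ContMDiffAt.comp x h2 h1
  have h4 : ContDiffAt ℝ ∞ (fun y => extChartAt 𝓘(ℝ, E (d + 1)) (T x) (T y)) x :=
    contMDiffAt_iff_contDiffAt.1 h3
  have h5 : ContDiffAt ℝ 1 (fun y => extChartAt 𝓘(ℝ, E (d + 1)) (T x) (T y)) x :=
    h4.of_le (by norm_cast)
  exact h5.exists_lipschitzOnWith

lemma diff_eq {w : ℝ} {T : E (d + 1) → M} (hT : Collar w T) {x : E (d + 1)}
    (hx : x ∈ Strip d w) {Φ : M → ℝ} {φ : E (d + 1) → ℝ}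
    (hΦ : ContMDiff 𝓘(ℝ, E (d + 1)) 𝓘(ℝ, ℝ) ∞ Φ)
    (h : ∀ x ∈ Strip d w, Φ (T x) = φ x) (v : E (d + 1)) :
    diff (E (d + 1)) Φ (T x) (dT T x v) = fderiv ℝ φ x v := by
  have h1 : MDifferentiableAt 𝓘(ℝ, E (d + 1)) 𝓘(ℝ, E (d + 1)) T x :=
    (smooth_T hT hx).mdifferentiableAt (by simp)
  have h2 : MDifferentiableAt 𝓘(ℝ, E (d + 1)) 𝓘(ℝ, ℝ) Φ (T x) :=
    (hΦ (T x)).mdifferentiableAt (by simp)
  have h3 : mfderiv 𝓘(ℝ, E (d + 1)) 𝓘(ℝ, ℝ) (Φ ∘ T) x =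
      (mfderiv 𝓘(ℝ, E (d + 1)) 𝓘(ℝ, ℝ) Φ (T x)).comp
        (mfderiv 𝓘(ℝ, E (d + 1)) 𝓘(ℝ, E (d + 1)) T x) := mfderiv_comp x h2 h1
  have h4 : (Φ ∘ T) =ᶠ[𝓝 x] φ := by
    filter_upwards [(isOpen_strip w).mem_nhds hx] with y hy
    exact h y hy
  have h5 : mfderiv 𝓘(ℝ, E (d + 1)) 𝓘(ℝ, ℝ) (Φ ∘ T) x = fderiv ℝ φ x := by
    rw [mfderiv_eq_fderiv]
    exact h4.fderiv_eq
  have h6 := congrArg (fun A : E (d + 1) →L[ℝ] ℝ => A v) (h3.symm.trans h5)
  exact h6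

end manifold

end QMF_

open QMF_

theorem qmf (h1 : T_COLL) (h2 : T_EXT0) : T_QMF := by
  intro d M _ _ _ _ _ w w' C T X om Y z r hT hw hr h hX
  obtain ⟨-, hopen, -, -⟩ := h1 d M w T hT
  have hC := h.C_pos
  have hw' := h.pos
  -- the radius
  obtain ⟨w₁, hw₁, hw₁w, hw₁C⟩ : ∃ w₁ : ℝ, 0 < w₁ ∧ w₁ < w' ∧ C * w₁ ≤ 1 / 2 := by
    refine ⟨min (w' / 2) (1 / (2 * C)), by positivity, ?_, ?_⟩
    · exact lt_of_le_of_lt (min_le_left _ _) (by linarith)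
    · calc C * min (w' / 2) (1 / (2 * C)) ≤ C * (1 / (2 * C)) :=
            mul_le_mul_of_nonneg_left (min_le_right _ _) hC.le
        _ = 1 / 2 := by field_simp
  have hzb : ∀ x : E (d + 1), |x 0| < w₁ → |x 0| / 2 ≤ |z x| ∧ |z x| ≤ 2 * |x 0| := by
    intro x hx
    have h3 := h.first x (show |x 0| < w' from hx.trans hw₁w)
    have h4 : C * x 0 ^ 2 ≤ |x 0| / 2 := by
      rw [← sq_abs]
      have h5 : C * |x 0| ≤ 1 / 2 := by
        have := mul_le_mul_of_nonneg_left hx.le hC.le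
        linarith
      have h6 := abs_nonneg (x 0)
      nlinarith [mul_le_mul_of_nonneg_right h5 h6]
    have h5 := abs_sub_abs_le_abs_sub (x 0) (z x)
    have h6 := abs_sub_abs_le_abs_sub (z x) (x 0)
    rw [abs_sub_comm (x 0) (z x)] at h5
    constructor
    · linarith
    · linarith [abs_nonneg (x 0)]
  -- the cut-off
  let b : ContDiffBump (0 : ℝ) := ⟨w₁ / 2, w₁, by positivity, by linarith⟩
  set χ : ℝ → ℝ := fun t => b t with hχ
  have hχs : ContDiff ℝ ∞ χ := b.contDiff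
  have hχ1 : ∀ t : ℝ, |t| ≤ w₁ / 2 → χ t = 1 := by
    intro t ht
    apply b.one_of_mem_closedBall
    rw [mem_closedBall, dist_zero_right]
    exact ht
  have hχ0 : ∀ t : ℝ, w₁ ≤ |t| → χ t = 0 := by
    intro t ht
    apply b.zero_of_le_dist
    rw [dist_zero_right]
    exact ht
  have hcoord : ContDiff ℝ ∞ (fun x : E (d + 1) => x 0) := by fun_prop
  set φ : E (d + 1) → ℝ := fun x => z x ^ 2 * χ (x 0) with hφ
  have hφs : ContDiff ℝ ∞ φ := (h.smooth.pow 2).mul (hχs.comp hcoord)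
  have hφp : Per d φ := by
    intro x v hv
    have h3 : (x + v) 0 = x 0 := by
      have : v 0 = 0 := hv.1
      simp [this]
    simp only [hφ]
    rw [h.per x v hv, h3]
  have hφ0 : ∀ x : E (d + 1), w₁ ≤ |x 0| → φ x = 0 := by
    intro x hx
    simp only [hφ]
    rw [hχ0 _ hx, mul_zero]
  have hφ1 : ∀ x : E (d + 1), |x 0| ≤ w₁ / 2 → φ x = z x ^ 2 := by
    intro x hx
    simp only [hφ]
    rw [hχ1 _ hx, mul_one]
  obtain ⟨Φ, -, -, hΦT, hΦs⟩ := h2 d M w w₁ T φ hT (hw₁w.trans_le hw) hφs.continuous hφp hφ0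
  have hΦs := hΦs hφs
  have hww : w₁ / 2 < w := by linarith
  have hs : ∀ {δ : ℝ}, δ ≤ w₁ / 2 → Strip d δ ⊆ Strip d w := fun hδ =>
    strip_mono (hδ.trans hww.le)
  refine ⟨Φ, ⟨hΦs, ?_⟩, ?_⟩
  · -- quadratic minimum
    rintro q ⟨x₀, hx₀, rfl⟩
    have hx₀ : x₀ 0 = 0 := hx₀
    have hx₀s : x₀ ∈ Strip d w := by
      show |x₀ 0| < w
      rw [hx₀, abs_zero]
      linarith
    have hx₀w : |x₀ 0| ≤ w₁ / 2 := by rw [hx₀, abs_zero]; positivity
    constructor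
    · rw [hΦT x₀ hx₀s, hφ1 x₀ hx₀w]
      have h3 := (hzb x₀ (by rw [hx₀, abs_zero]; exact hw₁)).2
      rw [hx₀, abs_zero, mul_zero] at h3
      have h4 : z x₀ = 0 := abs_eq_zero.1 (le_antisymm h3 (abs_nonneg _))
      rw [h4]
      norm_num
    · obtain ⟨K, t, ht, hK⟩ := lip_chart hT hx₀s
      have hsrc : ∀ᶠ y in 𝓝 x₀, T y ∈ (extChartAt 𝓘(ℝ, E (d + 1)) (T x₀)).source :=
        (smooth_T hT hx₀s).continuousAt.eventually (extChartAt_source_mem_nhds (T x₀))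
      have hst : ∀ᶠ y in 𝓝 x₀, y ∈ Strip d (w₁ / 2) := by
        apply (isOpen_strip (w₁ / 2)).mem_nhds
        show |x₀ 0| < w₁ / 2
        rw [hx₀, abs_zero]
        positivity
      obtain ⟨δ, hδ, hδs⟩ := Metric.eventually_nhds_iff_ball.1
        ((hsrc.and hst).and (show ∀ᶠ y in 𝓝 x₀, y ∈ t from ht))
      refine ⟨1 / (4 * ((K : ℝ) ^ 2 + 1)), by positivity, ?_⟩
      have hb : ball x₀ δ ⊆ Strip d w := fun y hy => hs le_rfl (hδs y hy).1.2
      have hop := hopen _ hb isOpen_ball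
      filter_upwards [hop.mem_nhds (mem_image_of_mem T (mem_ball_self hδ))] with q hq
      obtain ⟨x, hx, rfl⟩ := hq
      have hpx : pr x ∈ ball x₀ δ := by
        rw [mem_ball] at hx ⊢
        exact lt_of_le_of_lt (dist_pr_le x x₀ hx₀) hx
      obtain ⟨⟨hx1, hx2⟩, hx3⟩ := hδs x hx
      obtain ⟨⟨hp1, hp2⟩, hp3⟩ := hδs _ hpx
      have hx2' : |x 0| < w₁ / 2 := hx2
      rw [hΦT x (hb hx), hφ1 x hx2'.le]
      have h3 : Metric.infDist (extChartAt 𝓘(ℝ, E (d + 1)) (T x₀) (T x))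
          (extChartAt 𝓘(ℝ, E (d + 1)) (T x₀) ''
            (Tor T ∩ (extChartAt 𝓘(ℝ, E (d + 1)) (T x₀)).source)) ≤ K * |x 0| := by
        have h4 : extChartAt 𝓘(ℝ, E (d + 1)) (T x₀) (T (pr x)) ∈
            extChartAt 𝓘(ℝ, E (d + 1)) (T x₀) ''
            (Tor T ∩ (extChartAt 𝓘(ℝ, E (d + 1)) (T x₀)).source) :=
          mem_image_of_mem _ ⟨mem_image_of_mem T (pr_zero x), hp1⟩
        refine (Metric.infDist_le_dist_of_mem h4).trans ?_
        have h5 := hK.dist_le_mul x hx3 (pr x) hp3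
        rw [dist_pr] at h5
        exact h5
      have h4 : 0 ≤ Metric.infDist (extChartAt 𝓘(ℝ, E (d + 1)) (T x₀) (T x))
          (extChartAt 𝓘(ℝ, E (d + 1)) (T x₀) ''
            (Tor T ∩ (extChartAt 𝓘(ℝ, E (d + 1)) (T x₀)).source)) := Metric.infDist_nonneg
      have h5 := (hzb x (by linarith)).1
      have h6 : x 0 ^ 2 / 4 ≤ z x ^ 2 := by
        rw [← sq_abs (x 0), ← sq_abs (z x)]
        nlinarith [abs_nonneg (x 0)]
      refine le_trans ?_ h6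
      have h7 := pow_le_pow_left₀ h4 h3 2
      rw [mul_pow, sq_abs] at h7
      rw [one_div, inv_mul_le_iff₀ (by positivity)]
      refine h7.trans ?_
      nlinarith [sq_nonneg (x 0), sq_nonneg (K : ℝ)]
  · -- almost invariance
    intro ε hε
    obtain ⟨η, hη, hηw, hηε⟩ : ∃ η : ℝ, 0 < η ∧ η ≤ w₁ / 2 ∧ 4 * C * η ≤ ε / 2 ^ (r + 1) := by
      refine ⟨min (w₁ / 2) (ε / 2 ^ (r + 1) / (4 * C)), by positivity, min_le_left _ _, ?_⟩
      calc 4 * C * min (w₁ / 2) (ε / 2 ^ (r + 1) / (4 * C))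
          ≤ 4 * C * (ε / 2 ^ (r + 1) / (4 * C)) :=
            mul_le_mul_of_nonneg_left (min_le_right _ _) (by positivity)
        _ = ε / 2 ^ (r + 1) := by field_simp
    have hop := hopen (Strip d η) (hs hηw) (isOpen_strip η)
    have hmem : T '' Strip d η ∈ 𝓝ˢ (Tor T) := by
      rw [hop.mem_nhdsSet]
      refine image_mono fun x hx => ?_
      show |x 0| < η
      rw [show x 0 = 0 from hx, abs_zero]
      exact hη
    filter_upwards [hmem] with q hq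
    obtain ⟨x, hx, rfl⟩ := hq
    have hx0 : |x 0| < η := hx
    have hxs := hs hηw hx
    rw [hX x hxs, diff_eq hT hxs hΦs hΦT, hΦT x hxs, hφ1 x (hx0.le.trans hηw)]
    have h3 : φ =ᶠ[𝓝 x] fun y => z y ^ 2 := by
      filter_upwards [(isOpen_strip η).mem_nhds hx] with y hy
      exact hφ1 y ((show |y 0| < η from hy).le.trans hηw)
    have hzd : HasFDerivAt z (fderiv ℝ z x) x :=
      (h.smooth.differentiable (by simp) x).hasFDerivAt
    have h4 : fderiv ℝ φ x (Y x) = 2 * z x * fderiv ℝ z x (Y x) := by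
      rw [h3.fderiv_eq, (hzd.pow 2).fderiv]
      simp
    rw [h4, abs_mul, abs_mul, abs_two]
    obtain ⟨h5, h6⟩ := hzb x (by linarith)
    have h7 := h.inv x (show |x 0| < w' by linarith)
    have h8 : |z x ^ 2| ^ (((r : ℝ) + 1) / 2) = |z x| ^ (r + 1) := by
      rw [abs_pow, ← Real.rpow_natCast |z x| 2, ← Real.rpow_mul (abs_nonneg _),
        ← Real.rpow_natCast |z x| (r + 1)]
      congr 1
      push_cast
      ring
    rw [h8]
    have h0 := abs_nonneg (x 0)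
    calc 2 * |z x| * |fderiv ℝ z x (Y x)| ≤ 2 * (2 * |x 0|) * (C * |x 0| ^ (r + 1)) := by
          gcongr
      _ = (4 * C * |x 0|) * |x 0| ^ (r + 1) := by ring
      _ ≤ (4 * C * η) * |x 0| ^ (r + 1) := by gcongr
      _ ≤ (ε / 2 ^ (r + 1)) * |x 0| ^ (r + 1) := by gcongr
      _ = ε * (|x 0| / 2) ^ (r + 1) := by rw [div_pow]; ring
      _ ≤ ε * |z x| ^ (r + 1) := by gcongr

end Pool.Agent.PalT
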