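import Pool.Agent.PalT.Targets

/-!
# RADT: the size of the contraction towards the torus
-/

set_option autoImplicit false

open Set MeasureTheory Filter Topology Metric
open scoped ContDiff

namespace Pool.Agent.PalT

open Pool.Agent.Pal

namespace RADT_

variable {d : ℕ}

/-- the model function of one variable -/
noncomputable def f (d : ℕ) (a : ℝ → ℝ) (s : ℝ) : E (d + 1) :=
  (a (s ^ 2) * s) • EuclideanSpace.single 0 1

/-- the model field -/
noncomputable def A (d : ℕ) (a : ℝ → ℝ) (z : E (d + 1)) : E (d + 1) := f d a (z 0)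

lemma f_smooth {a : ℝ → ℝ} (ha : ContDiff ℝ ∞ a) : ContDiff ℝ ∞ (f d a) := by
  unfold f
  exact ((ha.comp (contDiff_id.pow 2)).mul contDiff_id).smul contDiff_const

lemma f_supp {a : ℝ → ℝ} (ha : ∀ t, 64 ≤ t → a t = 0) : HasCompactSupport (f d a) := by
  refine HasCompactSupport.intro (isCompact_closedBall (0 : ℝ) 8) ?_
  intro z hz
  rw [mem_closedBall_zero_iff, not_le, Real.norm_eq_abs] at hz
  unfold f
  have h1 : (64 : ℝ) ≤ z ^ 2 := by
    rw [← sq_abs]
    nlinarith [abs_nonneg z]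
  rw [ha _ h1, zero_mul, zero_smul]

lemma A_eq (a : ℝ → ℝ) : A d a = f d a ∘ (EuclideanSpace.proj (0 : Fin (d + 1)) :
    E (d + 1) →L[ℝ] ℝ) := rfl

lemma A_smooth {a : ℝ → ℝ} (ha : ContDiff ℝ ∞ a) : ContDiff ℝ ∞ (A d a) := by
  rw [A_eq]
  exact (f_smooth ha).comp (EuclideanSpace.proj (0 : Fin (d + 1)) : E (d + 1) →L[ℝ] ℝ).contDiff

lemma A_bound {a : ℝ → ℝ} (ha : ContDiff ℝ ∞ a) (h0 : ∀ t, 64 ≤ t → a t = 0) (j : ℕ) :
    ∃ C : ℝ, ∀ z, ‖iteratedFDeriv ℝ j (A d a) z‖ ≤ C := by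
  obtain ⟨C, hC⟩ := ((f_supp (d := d) h0).iteratedFDeriv (𝕜 := ℝ) j).exists_bound_of_continuous
    ((f_smooth ha).continuous_iteratedFDeriv (by exact_mod_cast le_top))
  refine ⟨C * ∏ _i : Fin j,
    ‖(EuclideanSpace.proj (0 : Fin (d + 1)) : E (d + 1) →L[ℝ] ℝ)‖, ?_⟩
  intro z
  have hcd : ContDiff ℝ j (f d a) := (f_smooth ha).of_le (by exact_mod_cast le_top)
  rw [A_eq, ContinuousLinearMap.iteratedFDeriv_comp_right _ hcd z le_rfl]
  refine (ContinuousMultilinearMap.norm_compContinuousLinearMap_le _ _).trans ?_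
  exact mul_le_mul_of_nonneg_right (hC _) (Finset.prod_nonneg fun _ _ => norm_nonneg _)

lemma rad_sub (a : ℝ → ℝ) (κ : ℝ) {ρ : ℝ} (hρ : 0 < ρ) :
    (fun z : E (d + 1) => radT a κ ρ z - z) = fun z => (-(κ * ρ)) • A d a (ρ⁻¹ • z) := by
  funext z
  unfold radT A f
  have h1 : (ρ⁻¹ • z) 0 = z 0 / ρ := by
    rw [PiLp.smul_apply, smul_eq_mul]
    field_simp
  rw [h1, smul_smul, div_pow]
  have h2 : -(κ * ρ) * (a (z 0 ^ 2 / ρ ^ 2) * (z 0 / ρ)) = -(κ * a (z 0 ^ 2 / ρ ^ 2) * z 0) := by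
    field_simp
  rw [h2, neg_smul]
  abel

end RADT_

open RADT_ in
theorem radt : T_RADT := by
  intro d a c κ₀ hP
  constructor
  · intro κ ρ hρ
    refine ⟨?_, ?_, ?_⟩
    · have h0 : (radT a κ ρ : E (d + 1) → E (d + 1)) =
          fun z => z + (-(κ * ρ)) • A d a (ρ⁻¹ • z) := by
        funext z
        have := congrFun (rad_sub (d := d) a κ hρ) z
        rw [← this]
        abel
      rw [h0]
      exact contDiff_id.add (((A_smooth hP.smooth).comp (contDiff_const_smul ρ⁻¹)).const_smul _)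
    · intro x v hv
      have hv0 : v 0 = 0 := hv.1
      unfold radT
      have h1 : (x + v) 0 = x 0 := by rw [PiLp.add_apply, hv0, add_zero]
      rw [h1]
      abel
    · intro x hx
      unfold radT
      have h1 : 64 ≤ x 0 ^ 2 / ρ ^ 2 := by
        rw [le_div_iff₀ (by positivity), ← sq_abs (x 0)]
        have : (8 * ρ) ^ 2 ≤ |x 0| ^ 2 := pow_le_pow_left₀ (by positivity) hx 2
        nlinarith
      rw [hP.off _ h1]
      simp
  · intro r hr
    have hA : ContDiff ℝ ∞ (A d a) := A_smooth hP.smooth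
    choose C hC using fun j => A_bound (d := d) hP.smooth hP.off j
    have hC0 : ∀ j, 0 ≤ C j := fun j => (norm_nonneg _).trans (hC j 0)
    refine ⟨1 + ∑ j ∈ Finset.range (r + 1), C j, ?_, ?_⟩
    · have := Finset.sum_nonneg (s := Finset.range (r + 1)) (fun j _ => hC0 j)
      linarith
    · intro ρ ε hρ hρ1 hε j hj y
      rw [rad_sub a _ hρ]
      have hcd : ContDiff ℝ j (A d a) := hA.of_le (by exact_mod_cast le_top)
      have hcd2 : ContDiffAt ℝ j (fun z : E (d + 1) => A d a (ρ⁻¹ • z)) y :=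
        (hcd.comp (contDiff_const_smul ρ⁻¹)).contDiffAt
      rw [iteratedFDeriv_const_smul_apply' hcd2, iteratedFDeriv_comp_const_smul ρ⁻¹ hcd, norm_smul,
        norm_smul]
      have e1 : ‖-(ε * ρ ^ (r - 1) * ρ)‖ = ε * ρ ^ r := by
        rw [norm_neg, Real.norm_of_nonneg (by positivity), mul_assoc, ← pow_succ,
          Nat.sub_add_cancel hr]
      have e2 : ‖(ρ⁻¹) ^ j‖ = (ρ ^ j)⁻¹ := by
        rw [Real.norm_of_nonneg (by positivity), inv_pow]
      rw [e1, e2]
      have e3 : ρ ^ r = ρ ^ (r - j) * ρ ^ j := by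
        rw [← pow_add, Nat.sub_add_cancel hj]
      have hpj : 0 < ρ ^ j := by positivity
      have e4 : C j ≤ 1 + ∑ j ∈ Finset.range (r + 1), C j := by
        have := Finset.single_le_sum (f := C) (s := Finset.range (r + 1)) (fun j _ => hC0 j)
          (Finset.mem_range.2 (by omega : j < r + 1))
        linarith
      calc ε * ρ ^ r * ((ρ ^ j)⁻¹ * ‖iteratedFDeriv ℝ j (A d a) (ρ⁻¹ • y)‖)
          = ε * ρ ^ (r - j) * ‖iteratedFDeriv ℝ j (A d a) (ρ⁻¹ • y)‖ := by
            rw [e3]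
            field_simp
        _ ≤ ε * 1 * C j := by
            refine mul_le_mul (mul_le_mul_of_nonneg_left (pow_le_one₀ hρ.le hρ1) hε) (hC j _)
              (norm_nonneg _) (by positivity)
        _ ≤ ε * 1 * (1 + ∑ j ∈ Finset.range (r + 1), C j) :=
            mul_le_mul_of_nonneg_left e4 (by positivity)
        _ = _ := by ring

end Pool.Agent.PalT
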