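import Pool.Agent.PalT.Targets
import Pool.Agent.Pal.NBD
import Pool.Agent.Pal.ITC
import Pool.Agent.Pal.EXT
import Pool.Agent.Pal.SINKC

/-!
# Robust null sets at saddles
-/

set_option autoImplicit false

open Set MeasureTheory Filter Topology Metric Asymptotics
open scoped Manifold ContDiff

namespace Pool.Agent.PalT

open Pool.Agent.Pal

namespace SADC_

variable {n : ℕ} {M : Type}

/-- A set whose image in one chart is a null set is a null set for a smooth volume. -/
lemma null_of_chart [MetricSpace M] [ChartedSpace (E n) M] [IsManifold 𝓘(ℝ, E n) ∞ M]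
    [CompactSpace M] [MeasurableSpace M] [BorelSpace M] {μ : Measure M} (hμ : IsVolume n μ)
    {g : M → M} (hg : IsDiffeo n 1 g) {e : OpenPartialHomeomorph M (E n)} (he : e ∈ Ch n M)
    {X : Set M} (hX : MeasurableSet X) (hXe : X ⊆ e.source) (h0 : volume (e '' X) = 0) :
    μ X = 0 := by
  obtain ⟨-, -, -, hcd⟩ := diff1 n M 1
  choose c hc hqc hcv using hμ
  obtain ⟨t, ht⟩ := isCompact_univ.elim_nhds_subcover (fun q : M => (c q).source)
    (fun q _ => (c q).open_source.mem_nhds (hqc q))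
  have hpiece : ∀ q : M, μ (X ∩ (c q).source) = 0 := by
    intro q
    rw [hcv q _ inter_subset_right (hX.inter (c q).open_source.measurableSet)]
    have h1 : c q '' (X ∩ (c q).source) ⊆ (c q ∘ e.symm) '' (e '' (X ∩ (c q).source)) := by
      rintro _ ⟨x, hx, rfl⟩
      refine ⟨e x, ⟨x, hx, rfl⟩, ?_⟩
      rw [Function.comp_apply, e.left_inv (hXe hx.1)]
    refine measure_mono_null h1 ?_
    refine addHaar_image_eq_zero_of_differentiableOn_of_addHaar_eq_zero volume ?_
      (measure_mono_null (image_mono inter_subset_left) h0)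
    rintro _ ⟨x, hx, rfl⟩
    have h2 := hcd g 0 e (c q) x hg he (hc q) (hXe hx.1) (by simpa using hx.2)
    have h3 : DifferentiableAt ℝ (c q ∘ g^[0] ∘ e.symm) (e x) := h2.differentiableAt (by simp)
    have h4 : (c q ∘ g^[0] ∘ e.symm) = c q ∘ e.symm := by
      ext1 y
      simp
    rw [h4] at h3
    exact h3.differentiableWithinAt
  have hcov : X ⊆ ⋃ q ∈ t, (X ∩ (c q).source) := by
    intro x hx
    obtain ⟨q, hq, hxq⟩ := Set.mem_iUnion₂.1 (ht.2 (mem_univ x))
    exact Set.mem_iUnion₂.2 ⟨q, hq, hx, hxq⟩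
  refine measure_mono_null hcov ?_
  exact (measure_biUnion_null_iff t.countable_toSet).2 fun q _ => hpiece q

end SADC_

open SADC_

theorem sadc (hCone : T_CONE) : T_SADC := by
  intro n M _ _ _ _ _ _ μ g N p hμ hg hS
  obtain ⟨hp, e, he, hpe, hHyp⟩ := hS
  obtain ⟨-, -, hhom, hcd⟩ := diff1 n M 1
  have hcont : ∀ f : M → M, IsDiffeo n 1 f → Continuous f := by
    intro f hf
    obtain ⟨G, rfl⟩ := hhom f hf
    exact G.continuous
  have hgc := hcont g hg
  set h : M → M := g^[N] with hh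
  have hhc : Continuous h := hgc.iterate N
  set F : E n → E n := e ∘ h ∘ e.symm with hFdef
  have hF1 : ContDiffAt ℝ 1 F (e p) := hcd g N e e p hg he he hpe (by rw [← hh, hp]; exact hpe)
  set A : E n →L[ℝ] E n := fderiv ℝ F (e p) with hA
  obtain ⟨ε, hε, hcone⟩ := hCone n A hHyp
  have hpt : e p ∈ e.target := e.map_source hpe
  have ev1 : ∀ᶠ y in 𝓝 (e p), y ∈ e.target := e.open_target.mem_nhds hpt
  have hsc : ContinuousAt e.symm (e p) := e.continuousAt_symm hpt
  have ev3 : ∀ᶠ y in 𝓝 (e p), h (e.symm y) ∈ e.source := by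
    have : ContinuousAt (fun y => h (e.symm y)) (e p) := hhc.continuousAt.comp hsc
    refine this.eventually_mem ?_
    rw [e.left_inv hpe, hp]
    exact e.open_source.mem_nhds hpe
  have ev4 : ∀ᶠ y in 𝓝 (e p), ContDiffAt ℝ 1 F y := hF1.eventually (by simp)
  have ev5 : ∀ᶠ y in 𝓝 (e p), ‖fderiv ℝ F y - A‖ < ε / 2 := by
    have hc : ContinuousAt (fun y => fderiv ℝ F y - A) (e p) :=
      (hF1.continuousAt_fderiv (by simp)).sub continuousAt_const
    refine hc.norm.eventually_lt_const ?_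
    show ‖fderiv ℝ F (e p) - A‖ < ε / 2
    rw [← hA, sub_self, norm_zero]
    linarith
  obtain ⟨r, hr, hball⟩ := Metric.nhds_basis_closedBall.mem_iff.mp
    ((ev1.and (ev3.and ev4)).and ev5)
  set B : Set (E n) := closedBall (e p) r with hBdef
  have hB1 : B ⊆ e.target := fun y hy => (hball hy).1.1
  have hB3 : ∀ y ∈ B, h (e.symm y) ∈ e.source := fun y hy => (hball hy).1.2.1
  have hB5 : ∀ y ∈ B, ‖fderiv ℝ F y - A‖ < ε / 2 := fun y hy => (hball hy).2
  have hcb : IsCompact B := isCompact_closedBall _ _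
  -- the compact set in M
  set Kb : Set M := e.symm '' B with hKb
  have hKbc : IsCompact Kb := hcb.image_of_continuousOn (e.continuousOn_symm.mono hB1)
  have hKbs : Kb ⊆ e.source := by
    rintro _ ⟨y, hy, rfl⟩
    exact e.map_target (hB1 hy)
  have hKbm : MapsTo h Kb e.source := by
    rintro _ ⟨y, hy, rfl⟩
    exact hB3 y hy
  -- the open set
  set U : Set M := e.source ∩ e ⁻¹' ball (e p) r with hU
  have hUo : IsOpen U := e.isOpen_inter_preimage isOpen_ball
  have hpU : p ∈ U := ⟨hpe, mem_ball_self hr⟩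
  obtain ⟨s, hs, hsU⟩ := Metric.isOpen_iff.1 hUo p hpU
  refine ⟨s, hs, ?_⟩
  have n2 := itc nbd diff1 n M g N e e Kb (ε / 2) hg he he hKbc hKbs hKbm (by linarith)
  refine (nbd n M g).2.1 _ _ (SINKC_.nbd_diffeo n2) ?_
  rintro g' ⟨hg', hcr⟩
  simp only [Set.mem_ofPred_eq] at hcr ⊢
  set h' : M → M := g'^[N] with hh'
  set F' : E n → E n := e ∘ h' ∘ e.symm with hF'def
  have hm' : MapsTo h' Kb e.source := hcr.1
  have hd1 : ∀ y ∈ B, ‖fderiv ℝ F' y - fderiv ℝ F y‖ < ε / 2 := by
    intro y hy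
    have := hcr.2 (e.symm y) ⟨y, hy, rfl⟩ 1 (le_refl 1)
    rwa [SINKC_.norm_sub_one, e.right_inv (hB1 hy)] at this
  have hdF' : ∀ y ∈ B, DifferentiableAt ℝ F' y := by
    intro y hy
    have hys : e.symm y ∈ e.source := e.map_target (hB1 hy)
    have := hcd g' N e e (e.symm y) hg' he he hys (hm' ⟨y, hy, rfl⟩)
    rw [e.right_inv (hB1 hy)] at this
    exact this.differentiableAt (by simp)
  have hnull := hcone B F' hcb (fun y hy => (hdF' y hy).continuousAt.continuousWithinAt) (by
    intro y hy y' hy'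
    have hb : ∀ z ∈ B, ‖fderiv ℝ F' z - A‖ ≤ ε := by
      intro z hz
      have h1 := hd1 z hz
      have h2 := hB5 z hz
      have h3 : ‖fderiv ℝ F' z - A‖ ≤ ‖fderiv ℝ F' z - fderiv ℝ F z‖ + ‖fderiv ℝ F z - A‖ := by
        have := norm_add_le (fderiv ℝ F' z - fderiv ℝ F z) (fderiv ℝ F z - A)
        rwa [sub_add_sub_cancel] at this
      linarith
    exact (convex_closedBall (e p) r).norm_image_sub_le_of_norm_fderiv_le' (𝕜 := ℝ) hdF' hb
      hy' hy)
  -- the set on the manifold
  have hg'c := hcont g' hg'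
  set X : Set M := {x | ∀ k : ℕ, dist (g'^[N * k] x) p < s} with hX
  have hXm : MeasurableSet X := by
    have : X = ⋂ k : ℕ, (g'^[N * k]) ⁻¹' ball p s := by
      ext x
      simp [hX, mem_ball]
    rw [this]
    exact MeasurableSet.iInter fun k =>
      (isOpen_ball.preimage (hg'c.iterate (N * k))).measurableSet
  have hXU : ∀ x ∈ X, ∀ k : ℕ, h'^[k] x ∈ U := by
    intro x hx k
    refine hsU ?_
    rw [hh', ← Function.iterate_mul]
    exact hx k
  have hXe : X ⊆ e.source := fun x hx => (hXU x hx 0).1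
  refine null_of_chart hμ hg he hXm hXe (measure_mono_null ?_ hnull)
  rintro _ ⟨x, hx, rfl⟩
  show ∀ k : ℕ, F'^[k] (e x) ∈ B
  have hit : ∀ k : ℕ, F'^[k] (e x) = e (h'^[k] x) := by
    intro k
    induction k with
    | zero => rfl
    | succ k ih =>
      rw [Function.iterate_succ_apply', Function.iterate_succ_apply', ih, hF'def,
        Function.comp_apply, Function.comp_apply, e.left_inv (hXU x hx k).1]
  intro k
  rw [hit k]
  exact ball_subset_closedBall (hXU x hx k).2

end Pool.Agent.PalT
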