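import Pool.Agent.PalT.Targets

/-!
# The images of a thin collar are disjoint
-/

set_option autoImplicit false

open Set MeasureTheory Filter Topology Metric
open scoped Manifold ContDiff

namespace Pool.Agent.PalT

open Pool.Agent.Pal

/-- The compact box over which a thin strip is covered by lattice translations. -/
def sepBox (d : ℕ) (w : ℝ) : Set (E (d + 1)) :=
  {x | |x 0| ≤ w / 2 ∧ ∀ i : Fin d, x i.succ ∈ Icc (0 : ℝ) 1}

lemma sepBox_compact (d : ℕ) (w : ℝ) : IsCompact (sepBox d w) := by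
  have h1 : IsCompact (Set.pi univ fun i : Fin (d + 1) =>
      Icc ((Fin.cons (-(w / 2)) (fun _ => 0) : Fin (d + 1) → ℝ) i)
        ((Fin.cons (w / 2) (fun _ => 1) : Fin (d + 1) → ℝ) i)) :=
    isCompact_univ_pi fun i => isCompact_Icc
  have h2 := (EuclideanSpace.equiv (Fin (d + 1)) ℝ).toHomeomorph.isCompact_preimage.2 h1
  convert h2 using 1
  ext x
  simp only [sepBox, mem_ofPred_eq, mem_preimage, Set.mem_pi, mem_univ, true_implies, mem_Icc]
  constructor
  · rintro ⟨h0, h1⟩ i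
    refine Fin.cases ?_ (fun j => ?_) i
    · simpa [abs_le] using abs_le.1 h0
    · simpa using h1 j
  · intro h
    refine ⟨?_, fun j => ?_⟩
    · have := h 0
      simpa [abs_le] using this
    · have := h j.succ
      simpa using this

/-- Reduction to the box. -/
lemma sepBox_red {d : ℕ} (w : ℝ) (x : E (d + 1)) (hx : |x 0| ≤ w / 2) :
    ∃ y ∈ sepBox d w, x - y ∈ Lat d ∧ y 0 = x 0 := by
  let v : E (d + 1) := WithLp.toLp 2 (Fin.cons 0 (fun i : Fin d => (⌊x i.succ⌋ : ℝ)))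
  have hv0 : v 0 = 0 := rfl
  have hvs : ∀ i : Fin d, v i.succ = (⌊x i.succ⌋ : ℝ) := fun i => rfl
  have hy0 : (x - v) 0 = x 0 := by
    change x 0 - v 0 = x 0
    rw [hv0, sub_zero]
  refine ⟨x - v, ⟨?_, fun i => ?_⟩, ⟨?_, fun i => ?_⟩, hy0⟩
  · rw [hy0]
    exact hx
  · have : (x - v) i.succ = x i.succ - (⌊x i.succ⌋ : ℝ) := by
      change x i.succ - v i.succ = _
      rw [hvs]
    rw [this]
    have h1 := Int.floor_le (x i.succ)
    have h2 := Int.lt_floor_add_one (x i.succ)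
    constructor <;> linarith
  · rw [sub_sub_cancel, hv0]
  · rw [sub_sub_cancel]
    refine Fin.cases ⟨0, ?_⟩ (fun j => ⟨⌊x j.succ⌋, ?_⟩) i
    · rw [hv0]; simp
    · rw [hvs]

theorem sep (h1 : T_COLL) : T_SEP := by
  intro d M _ _ _ _ w T f m hT hf hne
  obtain ⟨hcont, -⟩ := h1 d M w T hT
  have hw : 0 < w := hT.1
  have hTeq : ∀ x ∈ Strip d w, ∀ x' ∈ Strip d w, (T x = T x' ↔ x - x' ∈ Lat d) := hT.2.2
  have hKsub : sepBox d w ⊆ Strip d w := fun x hx => by
    have := hx.1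
    change |x 0| < w
    linarith
  have key : ∀ i, 0 < i → i < m → ∃ δ : ℝ, 0 < δ ∧
      ∀ x ∈ Strip d δ, ∀ x' ∈ Strip d δ, f^[i] (T x) ≠ T x' := by
    intro i hi0 him
    have hfi : Continuous (f^[i]) := hf.iterate i
    let K : Set (E (d + 1) × E (d + 1)) := sepBox d w ×ˢ sepBox d w
    have hK : IsCompact K := (sepBox_compact d w).prod (sepBox_compact d w)
    let Φ : E (d + 1) × E (d + 1) → M × M := fun p => (f^[i] (T p.1), T p.2)
    have hΦ : ContinuousOn Φ K := by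
      refine ContinuousOn.prodMk ?_ ?_
      · exact hfi.comp_continuousOn (hcont.comp continuousOn_fst fun p hp => hKsub hp.1)
      · exact hcont.comp continuousOn_snd fun p hp => hKsub hp.2
    have hB : IsCompact (K ∩ Φ ⁻¹' (diagonal M)) :=
      hK.of_isClosed_subset (hΦ.preimage_isClosed_of_isClosed hK.isClosed isClosed_diagonal)
        inter_subset_left
    have hred : ∀ δ : ℝ, δ ≤ w / 2 → ∀ x ∈ Strip d δ, ∀ x' ∈ Strip d δ, f^[i] (T x) = T x' →
        ∃ p ∈ K ∩ Φ ⁻¹' (diagonal M), |p.1 0| < δ ∧ |p.2 0| < δ := by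
      intro δ hδ x hx x' hx' heq
      have hx1 : |x 0| < δ := hx
      have hx1' : |x' 0| < δ := hx'
      obtain ⟨y, hy, hyl, hy0⟩ := sepBox_red w x (by linarith)
      obtain ⟨y', hy', hyl', hy0'⟩ := sepBox_red w x' (by linarith)
      have e1 : T x = T y := (hTeq x (by change |x 0| < w; linarith) y (hKsub hy)).2 hyl
      have e2 : T x' = T y' := (hTeq x' (by change |x' 0| < w; linarith) y' (hKsub hy')).2 hyl'
      refine ⟨(y, y'), ⟨⟨hy, hy'⟩, ?_⟩, ?_, ?_⟩
      · change f^[i] (T y) = T y'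
        rw [← e1, ← e2]
        exact heq
      · change |y 0| < δ
        rw [hy0]
        exact hx1
      · change |y' 0| < δ
        rw [hy0']
        exact hx1'
    rcases (K ∩ Φ ⁻¹' (diagonal M)).eq_empty_or_nonempty with hemp | hnon
    · refine ⟨w / 2, by linarith, fun x hx x' hx' heq => ?_⟩
      obtain ⟨p, hp, -⟩ := hred (w / 2) le_rfl x hx x' hx' heq
      rw [hemp] at hp
      exact hp
    · have hg : Continuous fun p : E (d + 1) × E (d + 1) => max |p.1 0| |p.2 0| := by fun_prop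
      obtain ⟨p₀, hp₀, hmin⟩ := hB.exists_isMinOn hnon hg.continuousOn
      have hpos : 0 < max |p₀.1 0| |p₀.2 0| := by
        by_contra hcon
        have h0 : max |p₀.1 0| |p₀.2 0| ≤ 0 := not_lt.1 hcon
        have ha : p₀.1 0 = 0 := abs_nonpos_iff.1 ((le_max_left _ _).trans h0)
        have hb : p₀.2 0 = 0 := abs_nonpos_iff.1 ((le_max_right _ _).trans h0)
        exact hne i hi0 him p₀.1 p₀.2 ha hb hp₀.2
      refine ⟨min (w / 2) (max |p₀.1 0| |p₀.2 0|), lt_min (by linarith) hpos,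
        fun x hx x' hx' heq => ?_⟩
      obtain ⟨p, hp, hp1, hp2⟩ := hred _ (min_le_left _ _) x hx x' hx' heq
      have h3 : max |p₀.1 0| |p₀.2 0| ≤ max |p.1 0| |p.2 0| := hmin hp
      have h4 : max |p.1 0| |p.2 0| < max |p₀.1 0| |p₀.2 0| :=
        max_lt (hp1.trans_le (min_le_right _ _)) (hp2.trans_le (min_le_right _ _))
      exact absurd h4 (not_lt.2 h3)
  have hall : ∀ᶠ δ in 𝓝[>] (0 : ℝ), ∀ i ∈ Finset.Ioo 0 m,
      ∀ x ∈ Strip d δ, ∀ x' ∈ Strip d δ, f^[i] (T x) ≠ T x' := by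
    rw [Filter.eventually_all_finset]
    intro i hi
    obtain ⟨hi0, him⟩ := Finset.mem_Ioo.1 hi
    obtain ⟨δ, hδ, hP⟩ := key i hi0 him
    filter_upwards [Ioo_mem_nhdsGT hδ] with t ht x hx x' hx'
    exact hP x (lt_trans hx ht.2) x' (lt_trans hx' ht.2)
  obtain ⟨w', hP, hw0, hww⟩ := (hall.and (Ioo_mem_nhdsGT hw)).exists
  exact ⟨w', hw0, hww.le, fun i hi0 him => hP i (Finset.mem_Ioo.2 ⟨hi0, him⟩)⟩

end Pool.Agent.PalT
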