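import Pool.Agent.PalT.Targets

/-!
# TAYZ: Taylor expansion in the normal direction
-/

set_option autoImplicit false

open Set MeasureTheory Filter Topology Metric Asymptotics
open scoped Manifold ContDiff Nat

namespace Pool.Agent.PalT

open Pool.Agent.Pal

namespace TAYZ_

/-- Taylor's formula with the Lagrange remainder on both sides -/
theorem tay (k : ℕ) (g : ℝ → ℝ) (hg : ContDiff ℝ ∞ g) (t : ℝ) : ∃ ξ : ℝ, |ξ| ≤ |t| ∧
    g t = ∑ j ∈ Finset.range (k + 1), iteratedDeriv j g 0 * t ^ j / (j ! : ℝ) +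
      iteratedDeriv (k + 1) g ξ * t ^ (k + 1) / ((k + 1)! : ℝ) := by
  rcases eq_or_ne t 0 with rfl | ht
  · refine ⟨0, le_rfl, ?_⟩
    rw [Finset.sum_range_succ']
    simp
  · have hgk : ContDiff ℝ ((k + 1 : ℕ) : WithTop ℕ∞) g := hg.of_le (by exact_mod_cast le_top)
    obtain ⟨ξ, hξ, h⟩ := taylor_mean_remainder_lagrange_iteratedDeriv (f := g) (n := k)
      (x := t) (x₀ := 0) ht.symm (by exact_mod_cast hgk.contDiffOn)
    refine ⟨ξ, ?_, ?_⟩
    · rcases le_total 0 t with h0 | h0
      · rw [uIoo_of_le h0] at hξ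
        rw [abs_of_pos hξ.1, abs_of_nonneg h0]; exact hξ.2.le
      · rw [uIoo_of_ge h0] at hξ
        rw [abs_of_neg hξ.2, abs_of_nonpos h0]; linarith [hξ.1]
    · have hu : UniqueDiffOn ℝ (uIcc 0 t) := uniqueDiffOn_uIcc ht.symm
      rw [sub_zero] at h
      rw [← h, taylor_within_apply]
      have h2 : ∀ j ∈ Finset.range (k + 1),
          ((j ! : ℝ)⁻¹ * (t - 0) ^ j) • iteratedDerivWithin j g (uIcc 0 t) 0 =
            iteratedDeriv j g 0 * t ^ j / (j ! : ℝ) := by
        intro j hj
        have h3 : iteratedDerivWithin j g (uIcc 0 t) 0 = iteratedDeriv j g 0 := by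
          rw [iteratedDeriv_eq_iteratedFDeriv, iteratedDerivWithin_eq_iteratedFDerivWithin,
            iteratedFDerivWithin_eq_iteratedFDeriv hu _ left_mem_uIcc]
          exact (hg.of_le (by exact_mod_cast le_top)).contDiffAt
        rw [h3, sub_zero, smul_eq_mul]
        field_simp
      rw [Finset.sum_congr rfl h2]
      ring

/-- vanishing of the lower derivatives -/
theorem lower (k : ℕ) (w C : ℝ) (g : ℝ → ℝ) (hw : 0 < w) (hg : ContDiff ℝ ∞ g)
    (hb : ∀ t, |t| ≤ w → |g t| ≤ C * |t| ^ k) : ∀ j < k, iteratedDeriv j g 0 = 0 := by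
  intro j
  induction j using Nat.strong_induction_on with
  | _ j ih =>
    intro hj
    -- bound of the next derivative on `[-w, w]`
    have hcont : Continuous (iteratedDeriv (j + 1) g) :=
      hg.continuous_iteratedDeriv (j + 1) (by exact_mod_cast le_top)
    obtain ⟨M, hM⟩ := (isCompact_Icc (a := -w) (b := w)).exists_bound_of_continuousOn
      hcont.continuousOn
    set a := iteratedDeriv j g 0 with ha
    have hC : 0 ≤ |C| := abs_nonneg C
    have key : ∀ t, 0 < t → t ≤ min w 1 → |a| / (j ! : ℝ) ≤ (|M| + |C|) * t := by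
      intro t ht htw
      have htw1 : t ≤ w := htw.trans (min_le_left _ _)
      have ht1 : t ≤ 1 := htw.trans (min_le_right _ _)
      obtain ⟨ξ, hξ, h⟩ := tay j g hg t
      rw [Finset.sum_range_succ, Finset.sum_eq_zero, zero_add] at h
      · have hξ' : |iteratedDeriv (j + 1) g ξ| ≤ |M| := by
          have h1 : ξ ∈ Icc (-w) w := by
            rw [mem_Icc, ← abs_le]
            exact hξ.trans (by rw [abs_of_pos ht]; exact htw1)
          exact (hM ξ h1).trans (le_abs_self M)
        have hgt := hb t (by rw [abs_of_pos ht]; exact htw1)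
        rw [abs_of_pos ht] at hgt
        have h3 : a * t ^ j / (j ! : ℝ) = g t -
            iteratedDeriv (j + 1) g ξ * t ^ (j + 1) / ((j + 1)! : ℝ) := by rw [h]; ring
        have h4 : |a| / (j ! : ℝ) * t ^ j ≤ |C| * t ^ k + |M| * t ^ (j + 1) := by
          calc |a| / (j ! : ℝ) * t ^ j = |a * t ^ j / (j ! : ℝ)| := by
                rw [abs_div, abs_mul, abs_of_pos (pow_pos ht j),
                  abs_of_pos (by positivity : (0 : ℝ) < (j ! : ℝ))]
                ring
            _ ≤ |g t| + |iteratedDeriv (j + 1) g ξ * t ^ (j + 1) / ((j + 1)! : ℝ)| := by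
                rw [h3]; exact abs_sub _ _
            _ ≤ |C| * t ^ k + |M| * t ^ (j + 1) := by
                refine add_le_add (hgt.trans ?_) ?_
                · exact mul_le_mul_of_nonneg_right (le_abs_self C) (pow_nonneg ht.le _)
                · rw [abs_div, abs_mul, abs_of_pos (pow_pos ht (j + 1)),
                    abs_of_pos (by positivity : (0 : ℝ) < ((j + 1)! : ℝ))]
                  rw [div_le_iff₀ (by positivity)]
                  have h5 : (1 : ℝ) ≤ ((j + 1)! : ℝ) := by
                    exact_mod_cast Nat.succ_le_of_lt (Nat.factorial_pos _)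
                  have h6 : 0 ≤ |M| * t ^ (j + 1) := by positivity
                  calc |iteratedDeriv (j + 1) g ξ| * t ^ (j + 1) ≤ |M| * t ^ (j + 1) :=
                        mul_le_mul_of_nonneg_right hξ' (pow_nonneg ht.le _)
                    _ ≤ |M| * t ^ (j + 1) * ((j + 1)! : ℝ) := le_mul_of_one_le_right h6 h5
        have h7 : t ^ k ≤ t ^ (j + 1) := pow_le_pow_of_le_one ht.le ht1 hj
        have h8 : |a| / (j ! : ℝ) * t ^ j ≤ ((|M| + |C|) * t) * t ^ j := by
          calc |a| / (j ! : ℝ) * t ^ j ≤ |C| * t ^ k + |M| * t ^ (j + 1) := h4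
            _ ≤ |C| * t ^ (j + 1) + |M| * t ^ (j + 1) := by gcongr
            _ = ((|M| + |C|) * t) * t ^ j := by ring
        exact le_of_mul_le_mul_right h8 (pow_pos ht j)
      · intro i hi
        rw [ih i (Finset.mem_range.1 hi) ((Finset.mem_range.1 hi).trans hj)]
        simp
    by_contra hne
    have hpos : 0 < |a| / (j ! : ℝ) := by positivity
    have hMC : 0 < |M| + |C| + 1 := by positivity
    set t := min (min w 1) (|a| / (j ! : ℝ) / (2 * (|M| + |C| + 1))) with ht
    have ht0 : 0 < t := by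
      refine lt_min (lt_min hw one_pos) (by positivity)
    have h1 := key t ht0 (min_le_left _ _)
    have h2 : t ≤ |a| / (j ! : ℝ) / (2 * (|M| + |C| + 1)) := min_le_right _ _
    have h3 : (|M| + |C|) * t ≤ (|M| + |C| + 1) * (|a| / (j ! : ℝ) / (2 * (|M| + |C| + 1))) := by
      refine mul_le_mul (by linarith) h2 ht0.le hMC.le
    have h4 : (|M| + |C| + 1) * (|a| / (j ! : ℝ) / (2 * (|M| + |C| + 1))) =
        |a| / (j ! : ℝ) / 2 := by field_simp
    linarith

/-- the first basis vector -/
noncomputable def e0 (d : ℕ) : E (d + 1) := EuclideanSpace.single 0 1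

/-- the embedding of the angular coordinates -/
noncomputable def io {d : ℕ} (y : Fin d → ℝ) : E (d + 1) :=
  (WithLp.toLp 2 (Fin.cons 0 y : Fin (d + 1) → ℝ))

theorem io_contDiff (d : ℕ) : ContDiff ℝ ∞ (io (d := d)) := by
  have h1 : ContDiff ℝ ∞ (fun y : Fin d → ℝ => (Fin.cons 0 y : Fin (d + 1) → ℝ)) := by
    rw [contDiff_pi]
    intro i
    refine Fin.cases ?_ (fun j => ?_) i
    · simpa using contDiff_const
    · simpa using contDiff_apply ℝ ℝ j
  exact (PiLp.contDiff_toLp (𝕜 := ℝ) (p := 2)).comp h1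

theorem split {d : ℕ} (x : E (d + 1)) : x = x 0 • e0 d + io (th x) := by
  ext i
  refine Fin.cases ?_ (fun j => ?_) i
  · simp [e0, io]
  · simp [e0, io, th]

theorem io_zero {d : ℕ} (y : Fin d → ℝ) : (io y) 0 = 0 := by simp [io]

theorem line_zero {d : ℕ} (y : Fin d → ℝ) (t : ℝ) : (t • e0 d + io y) 0 = t := by
  simp [io, e0]

/-- the derivatives in the normal direction -/
noncomputable def Dn {d : ℕ} (f : E (d + 1) → ℝ) (j : ℕ) (x : E (d + 1)) : ℝ :=
  iteratedFDeriv ℝ j f x (fun _ => e0 d)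

theorem line_deriv {d : ℕ} (f : E (d + 1) → ℝ) (hf : ContDiff ℝ ∞ f) (y : Fin d → ℝ) (j : ℕ)
    (t : ℝ) : iteratedDeriv j (fun t : ℝ => f (t • e0 d + io y)) t = Dn f j (t • e0 d + io y) := by
  set L : ℝ →L[ℝ] E (d + 1) := ContinuousLinearMap.toSpanSingleton ℝ (e0 d) with hL
  have hF : ContDiff ℝ ∞ (fun z : E (d + 1) => f (z + io y)) :=
    hf.comp (contDiff_id.add contDiff_const)
  have h1 : (fun t : ℝ => f (t • e0 d + io y)) = (fun z : E (d + 1) => f (z + io y)) ∘ L := by
    funext t
    simp [hL]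
  rw [iteratedDeriv_eq_iteratedFDeriv, h1, L.iteratedFDeriv_comp_right hF t
    (i := j) (by exact_mod_cast le_top)]
  rw [iteratedFDeriv_comp_add_right]
  simp [Dn, hL]

theorem Dn_contDiff {d : ℕ} (f : E (d + 1) → ℝ) (hf : ContDiff ℝ ∞ f) (j : ℕ) :
    ContDiff ℝ ∞ (Dn f j) := by
  have h1 : ContDiff ℝ ∞ (iteratedFDeriv ℝ j f) := by
    rw [contDiff_iff_contDiffAt]
    intro x
    exact hf.contDiffAt.iteratedFDeriv_right (n := ∞) (by exact_mod_cast le_top)
  exact (ContinuousMultilinearMap.apply ℝ (fun _ : Fin j => E (d + 1)) ℝ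
    (fun _ => e0 d)).contDiff.comp h1

theorem Dn_per {d : ℕ} (f : E (d + 1) → ℝ) (hf : ∀ x, ∀ v ∈ Lat d, f (x + v) = f x) (j : ℕ)
    (x v : E (d + 1)) (hv : v ∈ Lat d) : Dn f j (x + v) = Dn f j x := by
  rw [Dn, Dn, ← iteratedFDeriv_comp_add_right]
  have : (fun z => f (z + v)) = f := funext fun z => hf z v hv
  rw [this]

theorem bounded {d : ℕ} (w : ℝ) (G : E (d + 1) → ℝ) (hG : Continuous G)
    (hper : ∀ x, ∀ v ∈ Lat d, G (x + v) = G x) :
    ∃ M : ℝ, 0 ≤ M ∧ ∀ x : E (d + 1), |x 0| ≤ w → |G x| ≤ M := by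
  set K : Set (E (d + 1)) := (fun p : ℝ × (Fin d → ℝ) => p.1 • e0 d + io p.2) ''
    (Icc (-w) w ×ˢ Icc 0 1) with hK
  have hKc : IsCompact K := by
    refine (isCompact_Icc.prod isCompact_Icc).image ?_
    exact (continuous_fst.smul continuous_const).add
      ((io_contDiff d).continuous.comp continuous_snd)
  obtain ⟨M, hM⟩ := hKc.exists_bound_of_continuousOn hG.continuousOn
  refine ⟨|M|, abs_nonneg M, fun x hx => ?_⟩
  set v : E (d + 1) := io (fun i => -(⌊th x i⌋ : ℝ)) with hv
  have hvL : v ∈ Lat d := by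
    refine ⟨io_zero _, fun i => ?_⟩
    refine Fin.cases ⟨0, by simp [hv, io]⟩ (fun j => ⟨-⌊th x j⌋, by simp [hv, io]⟩) i
  have hmem : x + v ∈ K := by
    refine ⟨(x 0, fun i => Int.fract (th x i)), ⟨?_, ?_⟩, ?_⟩
    · exact abs_le.1 hx
    · exact ⟨fun i => Int.fract_nonneg _, fun i => (Int.fract_lt_one _).le⟩
    · ext i
      refine Fin.cases ?_ (fun j => ?_) i
      · simp [e0, io, hv]
      · have h1 : Int.fract (x j.succ) = x j.succ - ⌊x j.succ⌋ := rfl
        simp [e0, io, hv, th, h1, sub_eq_add_neg, -Int.self_sub_floor]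
  rw [← hper x v hvL]
  exact (hM _ hmem).trans (le_abs_self M)

/-- the cut-off function -/
theorem cutoff {d : ℕ} (w : ℝ) (hw : 0 < w) (u : E (d + 1) → ℝ)
    (hu : ContDiffOn ℝ ∞ u (Strip d w)) (hper : ∀ x ∈ Strip d w, ∀ v ∈ Lat d, u (x + v) = u x) :
    ∃ f : E (d + 1) → ℝ, ContDiff ℝ ∞ f ∧ (∀ x, ∀ v ∈ Lat d, f (x + v) = f x) ∧
      ∀ x : E (d + 1), |x 0| ≤ w / 2 → f x = u x := by
  let χ : ContDiffBump (0 : ℝ) := ⟨w / 2, 3 * w / 4, by positivity, by linarith⟩
  have hop : IsOpen (Strip d w) := by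
    have : Continuous fun x : E (d + 1) => |x 0| := by fun_prop
    exact isOpen_lt this continuous_const
  refine ⟨fun x => χ (x 0) * u x, ?_, ?_, ?_⟩
  · rw [contDiff_iff_contDiffAt]
    intro x
    by_cases hx : |x 0| < w
    · refine ContDiffAt.mul ?_ (hu.contDiffAt (hop.mem_nhds hx))
      have h0 : ContDiff ℝ ∞ fun x : E (d + 1) => x 0 := by fun_prop
      exact (χ.contDiff.comp h0).contDiffAt
    · have h1 : (fun x : E (d + 1) => χ (x 0) * u x) =ᶠ[𝓝 x] fun _ => 0 := by
        have hc : Continuous fun x : E (d + 1) => |x 0| := by fun_prop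
        have h2 : ∀ᶠ z in 𝓝 x, 3 * w / 4 < |z 0| := by
          refine hc.continuousAt.eventually (lt_mem_nhds ?_)
          push Not at hx
          linarith
        filter_upwards [h2] with z hz
        have h3 : χ (z 0) = 0 := by
          apply χ.zero_of_le_dist
          rw [Real.dist_eq, sub_zero]
          exact hz.le
        rw [h3, zero_mul]
      exact (contDiffAt_const.congr_of_eventuallyEq h1)
  · intro x v hv
    have h1 : (x + v) 0 = x 0 := by
      have := hv.1
      simp [this]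
    simp only [h1]
    by_cases hx : |x 0| < w
    · rw [hper x hx v hv]
    · have h3 : χ (x 0) = 0 := by
        apply χ.zero_of_le_dist
        rw [Real.dist_eq, sub_zero]
        push Not at hx
        change 3 * w / 4 ≤ |x 0|
        linarith
      rw [h3, zero_mul, zero_mul]
  · intro x hx
    have h1 : χ (x 0) = 1 := by
      apply χ.one_of_mem_closedBall
      rw [Metric.mem_closedBall, Real.dist_eq, sub_zero]
      exact hx
    simp only [h1, one_mul]

end TAYZ_

open TAYZ_ in
/-- TAYZ: the first term of the Taylor expansion in the normal direction -/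
theorem tayz : T_TAYZ := by
  intro d k w C u hw hu hper hb
  obtain ⟨f, hf, hfper, hfu⟩ := cutoff w hw u hu hper
  obtain ⟨M, hM0, hM⟩ := bounded (w / 2) (Dn f (k + 1)) (Dn_contDiff f hf _).continuous
    (fun x v hv => Dn_per f hfper _ x v hv)
  refine ⟨fun y => Dn f k (io y) / (k ! : ℝ), w / 2, M + 1, ?_, by positivity, by linarith,
    by positivity, ?_, ?_⟩
  · exact ((Dn_contDiff f hf k).comp (io_contDiff d)).div_const _
  · intro x m
    have h1 : io (x + fun i => (m i : ℝ)) = io x + io (fun i => (m i : ℝ)) := by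
      ext i
      refine Fin.cases ?_ (fun j => ?_) i
      · simp [io]
      · simp [io]
    have h2 : io (fun i => (m i : ℝ)) ∈ Lat d := by
      refine ⟨io_zero _, fun i => ?_⟩
      refine Fin.cases ⟨0, by simp [io]⟩ (fun j => ⟨m j, by simp [io]⟩) i
    simp only [h1]
    rw [Dn_per f hfper k _ _ h2]
  · intro x hx
    have hx' : |x 0| < w / 2 := hx
    set g : ℝ → ℝ := fun t => f (t • e0 d + io (th x)) with hg
    have hgc : ContDiff ℝ ∞ g :=
      hf.comp ((contDiff_id.smul contDiff_const).add contDiff_const)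
    have hlow : ∀ j < k, iteratedDeriv j g 0 = 0 := by
      refine lower k (w / 2) C g (by positivity) hgc fun t ht => ?_
      have h1 : (t • e0 d + io (th x)) 0 = t := line_zero _ _
      rw [hg]
      simp only []
      rw [hfu _ (by rw [h1]; exact ht)]
      have h2 : t • e0 d + io (th x) ∈ Strip d w := by
        change |(t • e0 d + io (th x)) 0| < w
        rw [h1]; linarith
      have h3 := hb _ h2
      rw [h1] at h3
      exact h3
    obtain ⟨ξ, hξ, h⟩ := tay k g hgc (x 0)
    rw [Finset.sum_range_succ, Finset.sum_eq_zero, zero_add] at h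
    · have h1 : g (x 0) = u x := by
        rw [hg]
        simp only []
        rw [← split x]
        exact hfu x hx'.le
      have h2 : iteratedDeriv k g 0 = Dn f k (io (th x)) := by
        rw [hg, line_deriv f hf]
        simp
      have h3 : |iteratedDeriv (k + 1) g ξ| ≤ M := by
        rw [hg, line_deriv f hf]
        apply hM
        rw [line_zero]
        exact hξ.trans hx'.le
      rw [← h1, h, h2]
      have h4 : Dn f k (io (th x)) * x 0 ^ k / (k ! : ℝ) +
          iteratedDeriv (k + 1) g ξ * x 0 ^ (k + 1) / ((k + 1)! : ℝ) -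
          Dn f k (io (th x)) / (k ! : ℝ) * x 0 ^ k =
          iteratedDeriv (k + 1) g ξ * x 0 ^ (k + 1) / ((k + 1)! : ℝ) := by ring
      rw [h4, abs_div, abs_mul, abs_pow, abs_of_pos (by positivity : (0 : ℝ) < ((k + 1)! : ℝ)),
        div_le_iff₀ (by positivity)]
      have h5 : (1 : ℝ) ≤ ((k + 1)! : ℝ) := by
        exact_mod_cast Nat.succ_le_of_lt (Nat.factorial_pos _)
      have h6 : 0 ≤ (M + 1) * |x 0| ^ (k + 1) := by positivity
      calc |iteratedDeriv (k + 1) g ξ| * |x 0| ^ (k + 1) ≤ (M + 1) * |x 0| ^ (k + 1) := by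
            gcongr; linarith
        _ ≤ (M + 1) * |x 0| ^ (k + 1) * ((k + 1)! : ℝ) := le_mul_of_one_le_right h6 h5
    · intro i hi
      rw [hlow i (Finset.mem_range.1 hi)]
      simp

end Pool.Agent.PalT
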