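import Pool.Agent.PalT.TargetsF
import Pool.Agent.PalF.ENG

/-!
# T_TORF: the torus is a transitive invariant compact set of the field
-/

set_option autoImplicit false

open scoped Manifold ContDiff Topology
open MeasureTheory Set Filter Bundle Asymptotics Metric

namespace Pool.Agent.PalT

open Pool.Agent.Pal Pool.Agent.Palis Pool.Agent.PalF

namespace TORF_

/-- The point with normal coordinate `0` and angles `z`. -/
noncomputable def pt {d : ℕ} (z : Fin d → ℝ) : E (d + 1) := WithLp.toLp 2 (Fin.cons 0 z)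

lemma pt_zero {d : ℕ} (z : Fin d → ℝ) : pt z 0 = 0 := rfl

lemma pt_succ {d : ℕ} (z : Fin d → ℝ) (i : Fin d) : pt z i.succ = z i := rfl

lemma pt_th {d : ℕ} (x : E (d + 1)) (hx : x 0 = 0) : pt (th x) = x := by
  ext i
  refine Fin.cases ?_ (fun i => ?_) i
  · rw [pt_zero, hx]
  · rw [pt_succ]
    rfl

lemma pt_cont {d : ℕ} : Continuous (pt (d := d)) := by
  unfold pt
  refine (PiLp.continuous_toLp 2 _).comp ?_
  refine continuous_pi fun i => ?_
  refine Fin.cases ?_ (fun i => ?_) i
  · simpa using continuous_const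
  · simpa using continuous_apply i

end TORF_

open TORF_ in
theorem torf (h1 : T_COLL) (h2 : T_KRO) (_h3 : T_CURV) : T_TORF := by
  intro d M _ _ _ _ _ w T X om hT hX hom hdio hcurve
  obtain ⟨hcont, -, hcomp, -⟩ := h1 d M w T hT
  have hw : 0 < w := hT.1
  have hstrip : ∀ x : E (d + 1), x 0 = 0 → x ∈ Strip d w := by
    intro x hx
    change |x 0| < w
    rw [hx, abs_zero]
    exact hw
  have hline : ∀ (x : E (d + 1)) (t : ℝ), x 0 = 0 → (x + t • om) 0 = 0 := by
    intro x t hx
    rw [PiLp.add_apply, PiLp.smul_apply, hx, hom, smul_zero, add_zero]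
  have hperT : ∀ x x' : E (d + 1), x 0 = 0 → x' 0 = 0 → x - x' ∈ Lat d → T x = T x' :=
    fun x x' hx hx' h => (hT.2.2 x (hstrip x hx) x' (hstrip x' hx')).mpr h
  refine ⟨?_, ?_, ?_, ?_⟩
  · -- compact
    have hcl : IsClosed {x : E (d + 1) | x 0 = 0} :=
      isClosed_eq (by fun_prop) continuous_const
    refine hcomp 0 hw {x | x 0 = 0} hcl (fun x hx => ?_) (fun x hx v hv => ?_)
    · have hx' : x 0 = 0 := hx
      rw [hx', abs_zero]
    · have hx' : x 0 = 0 := hx
      change (x + v) 0 = 0
      rw [PiLp.add_apply, hx', hv.1, add_zero]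
  · exact ⟨T 0, 0, rfl, rfl⟩
  · -- invariant
    intro γ hγ h0 t
    obtain ⟨x, hx, hx0⟩ := h0
    have hx' : x 0 = 0 := hx
    have heq : γ = fun t : ℝ => T (x + t • om) := by
      refine ENG_.curve_uniq hX hγ (hcurve x hx') ?_
      rw [zero_smul, add_zero, hx0]
    rw [heq]
    exact ⟨x + t • om, hline x t hx', rfl⟩
  · -- transitive
    refine ⟨fun t : ℝ => T (0 + t • om), hcurve 0 rfl, ?_, ?_⟩
    · change T (0 + (0 : ℝ) • om) ∈ Tor T
      exact ⟨0 + (0 : ℝ) • om, hline 0 0 rfl, rfl⟩
    · rintro y ⟨x, hx, rfl⟩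
      have hx' : x 0 = 0 := hx
      rw [mem_closure_iff_nhds]
      intro U hU
      have hca : ContinuousAt T x := by
        refine hcont.continuousAt ?_
        refine IsOpen.mem_nhds ?_ (hstrip x hx')
        exact isOpen_lt (by fun_prop) continuous_const
      have hc2 : ContinuousAt (fun z => T (pt z)) (th x) := by
        have h : ContinuousAt T (pt (th x)) := by
          rw [pt_th x hx']
          exact hca
        exact h.comp pt_cont.continuousAt
      have hU' : (fun z => T (pt z)) ⁻¹' U ∈ 𝓝 (th x) := by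
        apply hc2
        change U ∈ 𝓝 (T (pt (th x)))
        rw [pt_th x hx']
        exact hU
      obtain ⟨ε, hε, hball⟩ := Metric.mem_nhds_iff.mp hU'
      obtain ⟨t, ht0, k, hk⟩ := h2 d (th om) (th x) ε hdio hε
      have hz : (fun i => t * th om i - (k i : ℝ)) ∈ ball (th x) ε := by
        rw [mem_ball, dist_pi_lt_iff hε]
        intro i
        rw [Real.dist_eq]
        have := hk i
        have heq : t * th om i - (k i : ℝ) - th x i = t * th om i - th x i - k i := by ring
        rw [heq]
        exact this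
      have hmem := hball hz
      have heqT : T (pt fun i => t * th om i - (k i : ℝ)) = T (0 + t • om) := by
        refine hperT _ _ rfl (hline 0 t rfl) ⟨?_, fun i => ?_⟩
        · rw [PiLp.sub_apply, hline 0 t rfl, pt_zero, sub_zero]
        · refine Fin.cases ⟨0, ?_⟩ (fun i => ⟨-k i, ?_⟩) i
          · rw [PiLp.sub_apply, hline 0 t rfl, pt_zero, sub_zero, Int.cast_zero]
          · rw [PiLp.sub_apply, pt_succ, PiLp.add_apply, PiLp.smul_apply, PiLp.zero_apply,
              smul_eq_mul]
            change t * om i.succ - (k i : ℝ) - (0 + t * om i.succ) = ((-k i : ℤ) : ℝ)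
            push_cast
            ring
      have hmem' : T (pt fun i => t * th om i - (k i : ℝ)) ∈ U := hmem
      rw [heqT] at hmem'
      exact ⟨T (0 + t • om), hmem', t, ht0, rfl⟩

end Pool.Agent.PalT
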