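import Pool.Agent.PalT.Targets

/-!
# Strict Lyapunov function of the Morse-Smale trap
-/

set_option autoImplicit false

open Set MeasureTheory Filter Topology Metric Asymptotics
open scoped Manifold ContDiff

namespace Pool.Agent.PalT

open Pool.Agent.Pal

namespace TRAPE_

/-- the first coordinate of the contraction -/
lemma radT_zero {d : ℕ} (a : ℝ → ℝ) (κ ρ : ℝ) (x : E (d + 1)) :
    radT a κ ρ x 0 = x 0 * (1 - κ * a (x 0 ^ 2 / ρ ^ 2)) := by
  unfold radT
  simp
  ring

lemma radT_succ {d : ℕ} (a : ℝ → ℝ) (κ ρ : ℝ) (x : E (d + 1)) (i : Fin d) :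
    radT a κ ρ x i.succ = x i.succ := by
  unfold radT
  simp

lemma mono1 : Monotone (fun x : ℝ => x - Real.sin x) := by
  refine monotone_of_deriv_nonneg (by fun_prop) fun x => ?_
  have h : HasDerivAt (fun x : ℝ => x - Real.sin x) (1 - Real.cos x) x :=
    (hasDerivAt_id x).sub (Real.hasDerivAt_sin x)
  rw [h.deriv]
  linarith [Real.cos_le_one x]

lemma mono2 : Monotone (fun x : ℝ => x + Real.sin x) := by
  refine monotone_of_deriv_nonneg (by fun_prop) fun x => ?_
  have h : HasDerivAt (fun x : ℝ => x + Real.sin x) (1 + Real.cos x) x :=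
    (hasDerivAt_id x).add (Real.hasDerivAt_sin x)
  rw [h.deriv]
  linarith [Real.neg_one_le_cos x]

lemma sin_lip (a b : ℝ) : |Real.sin a - Real.sin b| ≤ |a - b| := by
  rcases le_total b a with h | h
  · have h1 := mono1 h
    have h2 := mono2 h
    simp only at h1 h2
    rw [abs_of_nonneg (sub_nonneg.2 h), abs_le]
    constructor <;> linarith
  · have h1 := mono1 h
    have h2 := mono2 h
    simp only at h1 h2
    rw [abs_of_nonpos (sub_nonpos.2 h), abs_le]
    constructor <;> linarith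

lemma cos_taylor_nonneg (φ : ℝ) {D : ℝ} (hD : 0 ≤ D) :
    Real.cos φ - Real.cos (φ + D) ≤ D * Real.sin φ + D ^ 2 / 2 := by
  have h : ∀ D : ℝ, HasDerivAt (fun D : ℝ => D * Real.sin φ + D ^ 2 / 2 + Real.cos (φ + D))
      (Real.sin φ + D - Real.sin (φ + D)) D := by
    intro D
    have h1 : HasDerivAt (fun D : ℝ => D * Real.sin φ) (Real.sin φ) D := by
      simpa using (hasDerivAt_id D).mul_const (Real.sin φ)
    have h2 : HasDerivAt (fun D : ℝ => D ^ 2 / 2) D D := by
      have := (hasDerivAt_pow 2 D).div_const 2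
      simpa using this
    have h3 : HasDerivAt (fun D : ℝ => Real.cos (φ + D)) (-Real.sin (φ + D)) D := by
      have := (Real.hasDerivAt_cos (φ + D)).comp_const_add φ D
      exact this
    have h4 := (h1.add h2).add h3
    rw [← sub_eq_add_neg] at h4
    exact h4
  have hm : MonotoneOn (fun D : ℝ => D * Real.sin φ + D ^ 2 / 2 + Real.cos (φ + D)) (Ici 0) := by
    refine monotoneOn_of_deriv_nonneg (convex_Ici 0)
      (fun D _ => (h D).continuousAt.continuousWithinAt)
      (fun D _ => (h D).differentiableAt.differentiableWithinAt) fun D hD => ?_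
    rw [interior_Ici, mem_Ioi] at hD
    rw [(h D).deriv]
    have h1 := mono1 (show φ ≤ φ + D by linarith)
    simp only at h1
    linarith
  have h1 := hm (mem_Ici.2 le_rfl) (mem_Ici.2 hD) hD
  simp only [zero_mul, add_zero] at h1
  have h2 : (0 : ℝ) ^ 2 / 2 = 0 := by norm_num
  rw [h2] at h1
  linarith

/-- Taylor inequality for the cosine -/
lemma cos_taylor (φ D : ℝ) : Real.cos φ - Real.cos (φ + D) ≤ D * Real.sin φ + D ^ 2 / 2 := by
  rcases le_total 0 D with h | h
  · exact cos_taylor_nonneg φ h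
  · have h1 := cos_taylor_nonneg (-φ) (neg_nonneg.2 h)
    rw [← neg_add, Real.cos_neg, Real.cos_neg, Real.sin_neg] at h1
    linarith [h1, sq_nonneg D, neg_sq D]

/-- the estimate for one angle -/
lemma angle {η φ D E : ℝ} (h0 : 0 < η) (h1 : η ≤ 1 / 4) (hD : D = -η * Real.sin φ + E) :
    Real.cos φ - Real.cos (φ + D) ≤ -(η / 2) * Real.sin φ ^ 2 + (1 + 1 / η) * E ^ 2 := by
  refine (cos_taylor φ D).trans ?_
  set s := Real.sin φ with hs
  rw [hD]
  have h2 : (1 + 1 / η) * E ^ 2 = E ^ 2 + E ^ 2 / η := by ring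
  rw [h2]
  -- `E s ≤ (η / 4) s ^ 2 + E ^ 2 / η`
  have h3 : E * s ≤ η / 4 * s ^ 2 + E ^ 2 / η := by
    have h4 : E ^ 2 / η = η * (E / η) ^ 2 := by
      field_simp
    have h5 : E * s = η * ((E / η) * s) := by
      field_simp
    rw [h4, h5]
    nlinarith [sq_nonneg (s / 2 - E / η)]
  have h6 : (-η * s + E) ^ 2 / 2 ≤ η ^ 2 * s ^ 2 + E ^ 2 := by
    nlinarith [sq_nonneg (-η * s - E)]
  have h7 : η ^ 2 * s ^ 2 ≤ η / 4 * s ^ 2 := by
    have : η ^ 2 ≤ η / 4 := by nlinarith
    exact mul_le_mul_of_nonneg_right this (sq_nonneg s)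
  nlinarith

end TRAPE_

open TRAPE_

theorem trape (h1 : T_TRAPZ) : T_TRAPE := by
  intro d N w C s α F z a c κ₀ ε hα hN hz ha hε hεκ
  obtain ⟨ρ₀, hρ₀, hρ₀1, hρ₀w, hzz, hmain⟩ := h1 d N w C s α F z a c κ₀ ε hα hN hz ha hε hεκ
  refine ⟨ρ₀, hρ₀, fun ρ hρ hρρ => ?_⟩
  obtain ⟨hA, hB, hC, δ, hδ, hQ⟩ := hmain ρ hρ hρρ
  refine ⟨fun x hx1 hx2 => by linarith [(hA x hx1 hx2).1], hB, δ, hδ, ?_⟩
  intro q p η Q hMS hnear
  set κ : ℝ := ε * ρ ^ (N - 1) with hκ
  have hρ1 : ρ ≤ 1 := hρρ.trans hρ₀1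
  have hκ0 : 0 < κ := mul_pos hε (pow_pos hρ _)
  have hκκ : κ ≤ κ₀ := by
    have : ρ ^ (N - 1) ≤ 1 := pow_le_one₀ hρ.le hρ1
    calc κ ≤ ε * 1 := mul_le_mul_of_nonneg_left this hε.le
      _ ≤ κ₀ := by rw [mul_one]; exact hεκ
  have hκ2 : κ ≤ 1 / 2 := hκκ.trans ha.κ_le
  have hc1 : c ≤ 1 := (ha.low 0 (by norm_num)).trans (ha.le_one 0)
  have hc0 := ha.c_pos
  have hck : 0 < c * κ := mul_pos hc0 hκ0
  have hck1 : c * κ ≤ 1 := by nlinarith
  have hlam0 : 0 ≤ 1 - c * κ / 16 := by linarith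
  have hlam1 : 1 - c * κ / 16 ≤ 1 := by linarith
  have hdec : ∀ x, |x 0| ≤ 4 * ρ → |z x| ≤ 2 * ρ →
      |z (radT a κ ρ (Q (F x)))| ≤ (1 - c * κ / 16) * |z x| :=
    hQ Q hMS.zero hMS.mod hnear
  have hC0 := hz.C_pos
  -- the constants
  set K : ℝ := ∑ i : Fin d, (1 + 1 / η) * (4 * Real.pi * q i * C) ^ 2 with hK
  have hη := hMS.pos
  have hη4 := hMS.le
  have hK0 : 0 ≤ K := Finset.sum_nonneg fun i _ => by positivity
  obtain ⟨B, hB0, hB1, hB2⟩ : ∃ B : ℝ, 0 < B ∧ 2 * (d : ℝ) < B * (c * κ * ρ ^ 2 / 4096) ∧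
      K + 1 ≤ B * (c * κ / 64) := by
    have e1 : 0 < c * κ * ρ ^ 2 / 4096 := by positivity
    have e2 : 0 < c * κ / 64 := by positivity
    refine ⟨(2 * (d : ℝ) + 1) / (c * κ * ρ ^ 2 / 4096) + (K + 1) / (c * κ / 64), by positivity, ?_,
      ?_⟩
    · rw [add_mul, div_mul_cancel₀ _ e1.ne']
      have : 0 ≤ (K + 1) / (c * κ / 64) * (c * κ * ρ ^ 2 / 4096) := by positivity
      linarith
    · rw [add_mul, div_mul_cancel₀ _ e2.ne']
      have : 0 ≤ (2 * (d : ℝ) + 1) / (c * κ * ρ ^ 2 / 4096) * (c * κ / 64) := by positivity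
      linarith
  refine ⟨B, hB0, fun x hx1 hx2 => ?_⟩
  set y : E (d + 1) := radT a κ ρ (Q (F x)) with hy
  have hd := hdec x hx1 hx2
  rw [← hy] at hd
  -- the squares
  have hsq : z y ^ 2 ≤ (1 - c * κ / 16) * z x ^ 2 := by
    have e1 : z y ^ 2 = |z y| ^ 2 := (sq_abs _).symm
    have e2 : z x ^ 2 = |z x| ^ 2 := (sq_abs _).symm
    rw [e1, e2]
    calc |z y| ^ 2 ≤ ((1 - c * κ / 16) * |z x|) ^ 2 := pow_le_pow_left₀ (abs_nonneg _) hd 2
      _ = (1 - c * κ / 16) * ((1 - c * κ / 16) * |z x| ^ 2) := by ring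
      _ ≤ (1 - c * κ / 16) * (1 * |z x| ^ 2) := by
        refine mul_le_mul_of_nonneg_left (mul_le_mul_of_nonneg_right hlam1 (sq_nonneg _)) hlam0
      _ = (1 - c * κ / 16) * |z x| ^ 2 := by ring
  have hzx : |x 0| ≤ 2 * |z x| := (hzz x (hx1.trans (by linarith))).1
  have hzx2 : x 0 ^ 2 ≤ 4 * z x ^ 2 := by
    have := pow_le_pow_left₀ (abs_nonneg _) hzx 2
    rw [mul_pow, sq_abs, sq_abs] at this
    linarith
  refine ⟨?_, ?_, ?_⟩
  · rw [hy, radT_zero, hMS.zero, abs_mul]
    have e1 : 0 ≤ κ * a (F x 0 ^ 2 / ρ ^ 2) := mul_nonneg hκ0.le (ha.nonneg _)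
    have e2 : κ * a (F x 0 ^ 2 / ρ ^ 2) ≤ 1 := by
      have := ha.le_one (F x 0 ^ 2 / ρ ^ 2)
      have h0 := ha.nonneg (F x 0 ^ 2 / ρ ^ 2)
      nlinarith
    have e3 : |1 - κ * a (F x 0 ^ 2 / ρ ^ 2)| ≤ 1 := by
      rw [abs_of_nonneg (by linarith)]
      linarith
    calc |F x 0| * |1 - κ * a (F x 0 ^ 2 / ρ ^ 2)| ≤ |F x 0| * 1 :=
          mul_le_mul_of_nonneg_left e3 (abs_nonneg _)
      _ < 4 * ρ := by rw [mul_one]; exact (hA x hx1 hx2).2
  · rcases eq_or_lt_of_le (abs_nonneg (z x)) with h0 | h0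
    · rw [← h0, mul_zero] at hd
      linarith
    · have : (1 - c * κ / 16) * |z x| < |z x| := by
        have : (1 - c * κ / 16) * |z x| < 1 * |z x| :=
          mul_lt_mul_of_pos_right (by linarith) h0
        linarith
      linarith
  · intro hxP
    unfold LyV
    rcases le_total (ρ / 8) |x 0| with hcase | hcase
    · -- far from the torus
      have e1 : ρ ^ 2 / 256 ≤ z x ^ 2 := by
        have h8 : (ρ / 8) ^ 2 ≤ |x 0| ^ 2 := pow_le_pow_left₀ (by positivity) hcase 2
        rw [sq_abs] at h8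
        nlinarith
      have e2 : ∑ i : Fin d, (1 - Real.cos (2 * Real.pi * q i * y i.succ)) ≤
          ∑ i : Fin d, (1 - Real.cos (2 * Real.pi * q i * x i.succ)) + 2 * d := by
        have : ∀ i : Fin d, (1 - Real.cos (2 * Real.pi * q i * y i.succ)) ≤
            (1 - Real.cos (2 * Real.pi * q i * x i.succ)) + 2 := fun i => by
          linarith [Real.neg_one_le_cos (2 * Real.pi * q i * y i.succ),
            Real.cos_le_one (2 * Real.pi * q i * x i.succ)]
        calc ∑ i : Fin d, (1 - Real.cos (2 * Real.pi * q i * y i.succ)) ≤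
            ∑ i : Fin d, ((1 - Real.cos (2 * Real.pi * q i * x i.succ)) + 2) :=
              Finset.sum_le_sum fun i _ => this i
          _ = _ := by
            rw [Finset.sum_add_distrib]
            simp
            ring
      have e3 : B * z y ^ 2 ≤ B * z x ^ 2 - B * (c * κ / 16 * z x ^ 2) := by
        have := mul_le_mul_of_nonneg_left hsq hB0.le
        linarith
      have e4 : B * (c * κ * ρ ^ 2 / 4096) ≤ B * (c * κ / 16 * z x ^ 2) := by
        refine mul_le_mul_of_nonneg_left ?_ hB0.le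
        have : c * κ / 16 * (ρ ^ 2 / 256) ≤ c * κ / 16 * z x ^ 2 :=
          mul_le_mul_of_nonneg_left e1 (by positivity)
        linarith
      linarith
    · -- near the torus
      have hFx : |F x 0| ≤ ρ / 4 := hC x hcase
      have hxw : x ∈ Strip d w := by
        show |x 0| < w
        linarith
      have hlip := hz.lip x hxw
      -- one angle
      have hang : ∀ i : Fin d, Real.cos (2 * Real.pi * q i * x i.succ) -
          Real.cos (2 * Real.pi * q i * y i.succ) ≤
          -(η / 2) * Real.sin (2 * Real.pi * q i * x i.succ) ^ 2 +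
            (1 + 1 / η) * (4 * Real.pi * q i * C) ^ 2 * x 0 ^ 2 := by
        intro i
        have hqi : (0 : ℝ) < q i := by
          have := hMS.two_le i
          exact_mod_cast (by omega : 0 < q i)
        set φ : ℝ := 2 * Real.pi * q i * x i.succ with hφ
        set ζ : ℝ := F x i.succ - x i.succ - α i.succ with hζ
        have hζ1 : |ζ| ≤ C * |x 0| := by
          have e1 : |(F x - (x + α)) i.succ| ≤ ‖F x - (x + α)‖ := by
            have := PiLp.norm_apply_le (F x - (x + α)) i.succ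
            simpa using this
          have e2 : (F x - (x + α)) i.succ = ζ := by
            simp [hζ]
            ring
          rw [e2] at e1
          exact e1.trans hlip
        have hy1 : y i.succ = x i.succ + p i / q i + ζ -
            η / (2 * Real.pi * q i) * Real.sin (φ + 2 * Real.pi * q i * ζ) := by
          rw [hy, radT_succ, hMS.near (F x) hFx i]
          have e1 : 2 * Real.pi * q i * (F x i.succ - α i.succ) = φ + 2 * Real.pi * q i * ζ := by
            rw [hφ, hζ]
            ring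
          rw [e1, hζ]
          ring
        set e : ℝ := Real.sin (φ + 2 * Real.pi * q i * ζ) - Real.sin φ with he
        have he1 : |e| ≤ 2 * Real.pi * q i * |ζ| := by
          have := sin_lip (φ + 2 * Real.pi * q i * ζ) φ
          have e3 : φ + 2 * Real.pi * q i * ζ - φ = 2 * Real.pi * q i * ζ := by ring
          rw [e3, abs_mul, abs_of_pos (by positivity : 0 < 2 * Real.pi * (q i : ℝ))] at this
          exact this
        set Er : ℝ := 2 * Real.pi * q i * ζ - η * e with hEr
        have hEr1 : |Er| ≤ 4 * Real.pi * q i * C * |x 0| := by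
          have e3 : |Er| ≤ 2 * Real.pi * q i * |ζ| + η * |e| := by
            rw [hEr]
            refine (abs_sub _ _).trans ?_
            rw [abs_mul (2 * Real.pi * (q i : ℝ)) ζ, abs_mul η e,
              abs_of_pos (by positivity : 0 < 2 * Real.pi * (q i : ℝ)), abs_of_pos hη]
          have e4 : η * |e| ≤ 1 * (2 * Real.pi * q i * |ζ|) :=
            mul_le_mul (by linarith) he1 (abs_nonneg _) (by norm_num)
          have e5 : 2 * Real.pi * q i * |ζ| ≤ 2 * Real.pi * q i * (C * |x 0|) :=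
            mul_le_mul_of_nonneg_left hζ1 (by positivity)
          linarith
        have hy2 : 2 * Real.pi * q i * y i.succ =
            φ + (-η * Real.sin φ + Er) + p i * (2 * Real.pi) := by
          rw [hy1, hEr, he, hφ]
          have hpi := Real.pi_pos
          field_simp
          ring
        rw [hy2, Real.cos_add_int_mul_two_pi]
        refine (angle hη hη4 rfl).trans ?_
        have e6 : Er ^ 2 ≤ (4 * Real.pi * q i * C) ^ 2 * x 0 ^ 2 := by
          have := pow_le_pow_left₀ (abs_nonneg _) hEr1 2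
          rw [sq_abs, mul_pow, sq_abs] at this
          exact this
        have e7 : (1 + 1 / η) * Er ^ 2 ≤
            (1 + 1 / η) * ((4 * Real.pi * q i * C) ^ 2 * x 0 ^ 2) :=
          mul_le_mul_of_nonneg_left e6 (by positivity)
        linarith
      have hsum : ∑ i : Fin d, (1 - Real.cos (2 * Real.pi * q i * y i.succ)) ≤
          ∑ i : Fin d, (1 - Real.cos (2 * Real.pi * q i * x i.succ)) -
            (η / 2) * ∑ i : Fin d, Real.sin (2 * Real.pi * q i * x i.succ) ^ 2 + K * x 0 ^ 2 := by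
        rw [hK, Finset.mul_sum, Finset.sum_mul, ← Finset.sum_sub_distrib,
          ← Finset.sum_add_distrib]
        refine Finset.sum_le_sum fun i _ => ?_
        have := hang i
        linarith
      have e3 : B * z y ^ 2 ≤ B * z x ^ 2 - B * (c * κ / 16 * z x ^ 2) := by
        have := mul_le_mul_of_nonneg_left hsq hB0.le
        linarith
      have e4 : (K + 1) * x 0 ^ 2 ≤ B * (c * κ / 16 * z x ^ 2) := by
        have e5 : (K + 1) * x 0 ^ 2 ≤ B * (c * κ / 64) * x 0 ^ 2 :=
          mul_le_mul_of_nonneg_right hB2 (sq_nonneg _)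
        have e6 : B * (c * κ / 64) * x 0 ^ 2 ≤ B * (c * κ / 64) * (4 * z x ^ 2) :=
          mul_le_mul_of_nonneg_left hzx2 (by positivity)
        linarith
      have e7 : 0 ≤ ∑ i : Fin d, Real.sin (2 * Real.pi * q i * x i.succ) ^ 2 :=
        Finset.sum_nonneg fun i _ => sq_nonneg _
      -- strictness
      have hstrict : 0 < x 0 ^ 2 +
          (η / 2) * ∑ i : Fin d, Real.sin (2 * Real.pi * q i * x i.succ) ^ 2 := by
        by_contra hcon
        have h8 : x 0 ^ 2 = 0 := by nlinarith [sq_nonneg (x 0)]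
        have h9 : ∑ i : Fin d, Real.sin (2 * Real.pi * q i * x i.succ) ^ 2 = 0 := by
          rw [h8, zero_add, not_lt] at hcon
          have h10 : 0 < η / 2 := by positivity
          nlinarith
        refine hxP ⟨pow_eq_zero_iff (two_ne_zero) |>.1 h8, fun i => ?_⟩
        have h11 : Real.sin (2 * Real.pi * q i * x i.succ) ^ 2 = 0 :=
          (Finset.sum_eq_zero_iff_of_nonneg fun i _ => sq_nonneg _).1 h9 i (Finset.mem_univ i)
        have h12 : Real.sin (2 * Real.pi * q i * x i.succ) = 0 :=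
          pow_eq_zero_iff (two_ne_zero) |>.1 h11
        obtain ⟨k, hk⟩ := Real.sin_eq_zero_iff.1 h12
        refine ⟨k, ?_⟩
        have h13 : Real.pi * (2 * q i * x i.succ - k) = 0 := by linarith
        rcases mul_eq_zero.1 h13 with h | h
        · exact absurd h Real.pi_pos.ne'
        · linarith
      nlinarith

end Pool.Agent.PalT
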