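import Pool.Agent.PalT.Targets

/-!
# TRAPZ: contraction of the almost invariant function near the torus
-/

set_option autoImplicit false

open Set MeasureTheory Filter Topology Metric Asymptotics
open scoped Manifold ContDiff

namespace Pool.Agent.PalT

open Pool.Agent.Pal

namespace TRAPZ_

/-- every point is equivalent to a point with angles in `[0,1)` -/
lemma exists_lat {d : ℕ} (x : E (d + 1)) :
    ∃ v ∈ Lat d, (x + v) 0 = x 0 ∧ ∀ i : Fin d, 0 ≤ (x + v) i.succ ∧ (x + v) i.succ < 1 := by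
  refine ⟨WithLp.toLp 2 (Fin.cons 0 fun i => -(⌊x i.succ⌋ : ℝ)), ⟨by simp, ?_⟩, by simp, ?_⟩
  · intro i
    refine Fin.cases ⟨0, by simp⟩ (fun i => ⟨-⌊x i.succ⌋, by simp⟩) i
  · intro i
    have h1 : (x + WithLp.toLp 2 (Fin.cons 0 fun i => -(⌊x i.succ⌋ : ℝ) : Fin (d + 1) → ℝ)) i.succ =
        Int.fract (x i.succ) := by
      simp [Int.fract, sub_eq_add_neg]
    rw [h1]
    exact ⟨Int.fract_nonneg _, Int.fract_lt_one _⟩

lemma norm_le_of_coord {n : ℕ} {x : E n} (h : ∀ i, |x i| ≤ 1) : ‖x‖ ≤ √n := by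
  rw [EuclideanSpace.norm_eq]
  apply Real.sqrt_le_sqrt
  calc ∑ i, ‖x i‖ ^ 2 ≤ ∑ _i : Fin n, (1 : ℝ) := by
        refine Finset.sum_le_sum fun i _ => ?_
        rw [Real.norm_eq_abs]
        have := h i
        have := abs_nonneg (x i)
        nlinarith
    _ = n := by simp

/-- continuous periodic functions are bounded on the strip of width one -/
lemma bdd_strip {d : ℕ} {G : Type} [NormedAddCommGroup G] {g : E (d + 1) → G}
    (hg : Continuous g) (hp : ∀ x, ∀ v ∈ Lat d, g (x + v) = g x) :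
    ∃ K : ℝ, 0 < K ∧ ∀ x : E (d + 1), |x 0| ≤ 1 → ‖g x‖ ≤ K := by
  obtain ⟨K, hK⟩ := (isCompact_closedBall (0 : E (d + 1)) (√((d + 1 : ℕ) : ℝ))).exists_bound_of_continuousOn
    hg.continuousOn
  refine ⟨max K 1, lt_max_of_lt_right one_pos, fun x hx => ?_⟩
  obtain ⟨v, hv, h0, hi⟩ := exists_lat x
  rw [← hp x v hv]
  refine (hK _ ?_).trans (le_max_left _ _)
  rw [mem_closedBall_zero_iff]
  refine norm_le_of_coord fun i => ?_
  refine Fin.cases ?_ (fun i => ?_) i
  · rw [h0]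
    exact hx
  · rw [abs_le]
    have := hi i
    constructor <;> linarith

/-- the derivative of the function is close to the first coordinate -/
lemma der_bound {d : ℕ} {w C : ℝ} {z : E (d + 1) → ℝ} (hw : 0 < w) (hz : ContDiff ℝ ∞ z)
    (hp : Per d z) (hf : ∀ x ∈ Strip d w, |z x - x 0| ≤ C * x 0 ^ 2) :
    ∃ K : ℝ, 0 < K ∧ ∀ x : E (d + 1), |x 0| ≤ 1 →
      ‖fderiv ℝ (fun x : E (d + 1) => z x - x 0) x‖ ≤ K * |x 0| := by
  set g : E (d + 1) → ℝ := fun x => z x - x 0 with hg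
  have hx0 : ContDiff ℝ ∞ fun x : E (d + 1) => x 0 := by fun_prop
  have hgs : ContDiff ℝ ∞ g := hz.sub hx0
  have hgp : ∀ x, ∀ v ∈ Lat d, g (x + v) = g x := by
    intro x v hv
    show z (x + v) - (x + v) 0 = z x - x 0
    rw [hp x v hv, PiLp.add_apply, hv.1, add_zero]
  have hf1 : ContDiff ℝ ∞ (fderiv ℝ g) := hgs.fderiv_right (by simp)
  have hf1p : ∀ x, ∀ v ∈ Lat d, fderiv ℝ g (x + v) = fderiv ℝ g x := by
    intro x v hv
    have h4 : (fun x => g (x + v)) = g := funext fun x => hgp x v hv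
    rw [← fderiv_comp_add_right, h4]
  have hf2 : Continuous (fderiv ℝ (fderiv ℝ g)) := hf1.continuous_fderiv (by simp)
  have hf2p : ∀ x, ∀ v ∈ Lat d, fderiv ℝ (fderiv ℝ g) (x + v) = fderiv ℝ (fderiv ℝ g) x := by
    intro x v hv
    have h4 : (fun x => fderiv ℝ g (x + v)) = fderiv ℝ g := funext fun x => hf1p x v hv
    rw [← fderiv_comp_add_right, h4]
  obtain ⟨K, hK, hKb⟩ := bdd_strip hf2 hf2p
  refine ⟨K, hK, fun x hx => ?_⟩
  set x' : E (d + 1) := x - x 0 • EuclideanSpace.single 0 (1 : ℝ) with hx'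
  have hx'0 : x' 0 = 0 := by simp [hx']
  have h0 : fderiv ℝ g x' = 0 := by
    have h1 : g =O[𝓝 x'] fun y => ‖y - x'‖ ^ 2 := by
      refine IsBigO.of_bound (max C 0) ?_
      have h2 : ∀ᶠ y in 𝓝 x', y ∈ Strip d w := by
        have h3 : IsOpen (Strip d w) := by
          have h : Continuous fun x : E (d + 1) => |x 0| := by fun_prop
          exact isOpen_lt h continuous_const
        refine h3.mem_nhds ?_
        show |x' 0| < w
        rw [hx'0, abs_zero]
        exact hw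
      filter_upwards [h2] with y hy
      rw [Real.norm_eq_abs, norm_pow, norm_norm]
      refine (hf y hy).trans ?_
      have h3 : |y 0| ≤ ‖y - x'‖ := by
        have h4 := PiLp.norm_apply_le (y - x') 0
        rw [PiLp.sub_apply, hx'0, sub_zero, Real.norm_eq_abs] at h4
        exact h4
      have h4 : y 0 ^ 2 ≤ ‖y - x'‖ ^ 2 := by
        rw [← sq_abs]
        exact pow_le_pow_left₀ (abs_nonneg _) h3 2
      calc C * y 0 ^ 2 ≤ max C 0 * y 0 ^ 2 :=
            mul_le_mul_of_nonneg_right (le_max_left _ _) (sq_nonneg _)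
        _ ≤ max C 0 * ‖y - x'‖ ^ 2 := mul_le_mul_of_nonneg_left h4 (le_max_right _ _)
    exact (h1.hasFDerivAt (by norm_num : (1 : ℕ) < 2)).fderiv
  have hconv : Convex ℝ {y : E (d + 1) | |y 0| ≤ 1} := by
    have h1 : {y : E (d + 1) | |y 0| ≤ 1} =
        (EuclideanSpace.proj (0 : Fin (d + 1)) : E (d + 1) →L[ℝ] ℝ) ⁻¹' (Icc (-1) 1) := by
      ext y
      simp [abs_le]
    rw [h1]
    exact (convex_Icc (-1 : ℝ) 1).affine_preimage
      (EuclideanSpace.proj (0 : Fin (d + 1)) : E (d + 1) →L[ℝ] ℝ).toLinearMap.toAffineMap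
  have h1 : ‖fderiv ℝ g x - fderiv ℝ g x'‖ ≤ K * ‖x - x'‖ :=
    hconv.norm_image_sub_le_of_norm_fderiv_le
      (fun y _ => (hf1.differentiable (by simp)) y) (fun y hy => hKb y hy)
      (show |x' 0| ≤ 1 by rw [hx'0, abs_zero]; exact zero_le_one) hx
  rw [h0, sub_zero] at h1
  have h2 : ‖x - x'‖ = |x 0| := by
    rw [hx', sub_sub_cancel, norm_smul]
    simp
  rwa [h2] at h1

/-- change of the function between points of the strip -/
lemma change {d : ℕ} {K : ℝ} {z : E (d + 1) → ℝ} (hz : ContDiff ℝ ∞ z) (hK : 0 < K)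
    (hb : ∀ x : E (d + 1), |x 0| ≤ 1 →
      ‖fderiv ℝ (fun x : E (d + 1) => z x - x 0) x‖ ≤ K * |x 0|) {t : ℝ} (ht : t ≤ 1)
    {x y : E (d + 1)} (hx : |x 0| ≤ t) (hy : |y 0| ≤ t) :
    |z y - y 0 - (z x - x 0)| ≤ K * t * ‖y - x‖ := by
  have hconv : Convex ℝ {y : E (d + 1) | |y 0| ≤ t} := by
    have h1 : {y : E (d + 1) | |y 0| ≤ t} =
        (EuclideanSpace.proj (0 : Fin (d + 1)) : E (d + 1) →L[ℝ] ℝ) ⁻¹' (Icc (-t) t) := by
      ext y
      simp [abs_le]
    rw [h1]
    exact (convex_Icc (-t : ℝ) t).affine_preimage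
      (EuclideanSpace.proj (0 : Fin (d + 1)) : E (d + 1) →L[ℝ] ℝ).toLinearMap.toAffineMap
  have hx0 : ContDiff ℝ ∞ fun x : E (d + 1) => x 0 := by fun_prop
  have hgs : ContDiff ℝ ∞ (fun x : E (d + 1) => z x - x 0) := hz.sub hx0
  have h1 := hconv.norm_image_sub_le_of_norm_fderiv_le (f := fun x : E (d + 1) => z x - x 0)
    (C := K * t) (fun y _ => (hgs.differentiable (by simp)) y)
    (fun y hy => (hb y ((show |y 0| ≤ t from hy).trans ht)).trans
      (mul_le_mul_of_nonneg_left hy hK.le)) hx hy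
  rwa [Real.norm_eq_abs] at h1

lemma radT_zero {d : ℕ} (a : ℝ → ℝ) (κ ρ : ℝ) (x : E (d + 1)) :
    (radT a κ ρ x) 0 = x 0 - κ * a (x 0 ^ 2 / ρ ^ 2) * x 0 := by
  simp [radT]

end TRAPZ_

open TRAPZ_

theorem trapz : T_TRAPZ := by
  intro d N w C s α F z a c κ₀ ε hα hN hz hP hε hεκ
  have hC := hz.C_pos
  have hw := hz.pos
  have hc := hP.c_pos
  have hκ₀ := hP.κ_le
  obtain ⟨K, hK, hKb⟩ := der_bound hw hz.smooth hz.per hz.first
  have hs : |s| = 1 := by rcases hz.sign with h | h <;> simp [h]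
  obtain ⟨ρ₀, hρ₀, h1, h2, h3, h4, h5⟩ : ∃ ρ₀ : ℝ, 0 < ρ₀ ∧ 16 * ρ₀ ≤ 1 ∧ 17 * ρ₀ ≤ w ∧
      16 * C * ρ₀ ≤ 1 ∧ 16 * K * ρ₀ ≤ 1 ∧ 8 * C * 3 ^ N * ρ₀ ≤ ε * c := by
    refine ⟨min (1 / 16) (min (w / 17) (min (1 / (16 * C)) (min (1 / (16 * K))
      (ε * c / (8 * C * 3 ^ N))))), by positivity, ?_, ?_, ?_, ?_, ?_⟩
    · have := min_le_left (1 / 16 : ℝ) (min (w / 17) (min (1 / (16 * C)) (min (1 / (16 * K))
        (ε * c / (8 * C * 3 ^ N)))))
      linarith
    · have := (min_le_right (1 / 16 : ℝ) (min (w / 17) (min (1 / (16 * C)) (min (1 / (16 * K))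
        (ε * c / (8 * C * 3 ^ N)))))).trans (min_le_left _ _)
      linarith
    · have := ((min_le_right (1 / 16 : ℝ) (min (w / 17) (min (1 / (16 * C)) (min (1 / (16 * K))
        (ε * c / (8 * C * 3 ^ N)))))).trans (min_le_right _ _)).trans (min_le_left _ _)
      rw [le_div_iff₀ (by positivity)] at this
      linarith
    · have := (((min_le_right (1 / 16 : ℝ) (min (w / 17) (min (1 / (16 * C)) (min (1 / (16 * K))
        (ε * c / (8 * C * 3 ^ N)))))).trans (min_le_right _ _)).trans (min_le_right _ _)).trans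
          (min_le_left _ _)
      rw [le_div_iff₀ (by positivity)] at this
      linarith
    · have := (((min_le_right (1 / 16 : ℝ) (min (w / 17) (min (1 / (16 * C)) (min (1 / (16 * K))
        (ε * c / (8 * C * 3 ^ N)))))).trans (min_le_right _ _)).trans (min_le_right _ _)).trans
          (min_le_right _ _)
      rw [le_div_iff₀ (by positivity)] at this
      linarith
  -- comparison of `z` and the first coordinate
  have hstrip : ∀ x : E (d + 1), |x 0| ≤ 8 * ρ₀ → x ∈ Strip d w := fun x hx => by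
    show |x 0| < w
    linarith
  have hzx : ∀ x : E (d + 1), |x 0| ≤ 8 * ρ₀ → |z x - x 0| ≤ |x 0| / 2 := by
    intro x hx
    refine (hz.first x (hstrip x hx)).trans ?_
    rw [← sq_abs]
    have : 0 ≤ |x 0| := abs_nonneg _
    nlinarith
  have hFx : ∀ x : E (d + 1), |x 0| ≤ 8 * ρ₀ → |F x 0 - s * x 0| ≤ |x 0| / 2 := by
    intro x hx
    refine (hz.norm x (hstrip x hx)).trans ?_
    rw [← sq_abs]
    have : 0 ≤ |x 0| := abs_nonneg _
    nlinarith
  have hcmp : ∀ x : E (d + 1), |x 0| ≤ 8 * ρ₀ → |x 0| ≤ 2 * |z x| ∧ |z x| ≤ 2 * |x 0| := by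
    intro x hx
    have h6 := hzx x hx
    have h7 : |x 0| ≤ |z x| + |z x - x 0| := by
      have := abs_sub_abs_le_abs_sub (x 0) (z x)
      rw [abs_sub_comm (x 0) (z x)] at this
      linarith
    have h8 : |z x| ≤ |x 0| + |z x - x 0| := by
      have := abs_sub_abs_le_abs_sub (z x) (x 0)
      linarith
    have : 0 ≤ |x 0| := abs_nonneg _
    constructor <;> linarith
  refine ⟨ρ₀, hρ₀, by linarith, by linarith, hcmp, ?_⟩
  intro ρ hρ hρρ
  have hsx : ∀ x : E (d + 1), |s * x 0| = |x 0| := fun x => by rw [abs_mul, hs, one_mul]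
  have hA : ∀ x : E (d + 1), |x 0| ≤ 4 * ρ → |z x| ≤ 2 * ρ → |x 0| ≤ 3 * ρ ∧ |F x 0| < 4 * ρ := by
    intro x hx hzρ
    have h6 := hz.first x (hstrip x (by linarith))
    have h7 := hz.norm x (hstrip x (by linarith))
    have h8 : |x 0| ≤ |z x| + |z x - x 0| := by
      have := abs_sub_abs_le_abs_sub (x 0) (z x)
      rw [abs_sub_comm (x 0) (z x)] at this
      linarith
    have h9 : C * x 0 ^ 2 ≤ ρ := by
      rw [← sq_abs]
      have h10 : |x 0| ^ 2 ≤ (4 * ρ) ^ 2 := pow_le_pow_left₀ (abs_nonneg _) hx 2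
      have h11 : C * |x 0| ^ 2 ≤ C * (4 * ρ) ^ 2 := mul_le_mul_of_nonneg_left h10 hC.le
      have h12 : C * (4 * ρ) ^ 2 = 16 * C * ρ * ρ := by ring
      have h13 : 16 * C * ρ ≤ 1 := (mul_le_mul_of_nonneg_left hρρ (by positivity)).trans h3
      nlinarith
    have h10 : |x 0| ≤ 3 * ρ := by linarith
    refine ⟨h10, ?_⟩
    have h11 : |F x 0| ≤ |x 0| + |F x 0 - s * x 0| := by
      have := abs_sub_abs_le_abs_sub (F x 0) (s * x 0)
      rw [hsx] at this
      linarith
    have h12 : C * x 0 ^ 2 < ρ := by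
      rw [← sq_abs]
      have h10' : |x 0| ^ 2 ≤ (3 * ρ) ^ 2 := pow_le_pow_left₀ (abs_nonneg _) h10 2
      have h11' : C * |x 0| ^ 2 ≤ C * (3 * ρ) ^ 2 := mul_le_mul_of_nonneg_left h10' hC.le
      have h12' : C * (3 * ρ) ^ 2 = 9 * (C * ρ * ρ) := by ring
      have h13 : 16 * C * ρ ≤ 1 := (mul_le_mul_of_nonneg_left hρρ (by positivity)).trans h3
      nlinarith
    linarith
  refine ⟨hA, ?_, ?_, ?_⟩
  · intro x hx
    have h6 := hzx x (by linarith)
    have h8 : |z x| ≤ |x 0| + |z x - x 0| := by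
      have := abs_sub_abs_le_abs_sub (z x) (x 0)
      linarith
    linarith
  · intro x hx
    have h6 := hFx x (by linarith)
    have h11 : |F x 0| ≤ |x 0| + |F x 0 - s * x 0| := by
      have := abs_sub_abs_le_abs_sub (F x 0) (s * x 0)
      rw [hsx] at this
      linarith
    linarith
  · set κ : ℝ := ε * ρ ^ (N - 1) with hκ
    have hρ1 : ρ ≤ 1 := by linarith
    have hκ0 : 0 < κ := by positivity
    have hκ1 : κ ≤ 1 / 2 := by
      have h6 : ρ ^ (N - 1) ≤ 1 := pow_le_one₀ hρ.le hρ1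
      have h7 : κ ≤ ε * 1 := mul_le_mul_of_nonneg_left h6 hε.le
      linarith
    refine ⟨κ * c / (16 * K), by positivity, ?_⟩
    intro Q hQ0 _ hQn x hx hzρ
    obtain ⟨hx3, hF4⟩ := hA x hx hzρ
    set y := F x with hy
    set t : ℝ := y 0 with ht
    have hQy : ‖Q y - y‖ ≤ κ * c / (16 * K) := by
      have h6 := hQn 0 (by norm_num) y
      rwa [norm_iteratedFDeriv_zero] at h6
    -- the size of the first coordinate
    have hxt : |x 0| ≤ 2 * |t| ∧ |t| ≤ 2 * |x 0| := by
      have h6 := hFx x (by linarith)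
      have h11 : |F x 0| ≤ |x 0| + |F x 0 - s * x 0| := by
        have := abs_sub_abs_le_abs_sub (F x 0) (s * x 0)
        rw [hsx] at this
        linarith
      have h12 : |x 0| ≤ |F x 0| + |F x 0 - s * x 0| := by
        have := abs_sub_abs_le_abs_sub (s * x 0) (F x 0)
        rw [hsx, abs_sub_comm] at this
        linarith
      have h13 : 0 ≤ |x 0| := abs_nonneg _
      constructor
      · show |x 0| ≤ 2 * |F x 0|
        linarith
      · show |F x 0| ≤ 2 * |x 0|
        linarith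
    have ht1 : |t| ≤ 1 := by
      have : |t| < 4 * ρ := hF4
      linarith
    -- first step
    have e1 : |z y| ≤ |z x| + C * |x 0| ^ (N + 1) := by
      have h6 := hz.inv x (hstrip x (by linarith))
      have h7 := abs_sub_abs_le_abs_sub (z (F x)) (s * z x)
      rw [abs_mul, hs, one_mul] at h7
      show |z (F x)| ≤ _
      linarith
    -- second step
    have e2 : |z (Q y)| ≤ |z y| + K * |t| * (κ * c / (16 * K)) := by
      have h6 := change hz.smooth hK hKb ht1 (x := y) (y := Q y) le_rfl (by rw [hQ0])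
      rw [hQ0] at h6
      have h7 : z (Q y) - y 0 - (z y - y 0) = z (Q y) - z y := by ring
      rw [h7] at h6
      have h8 := abs_sub_abs_le_abs_sub (z (Q y)) (z y)
      have h9 : K * |t| * ‖Q y - y‖ ≤ K * |t| * (κ * c / (16 * K)) :=
        mul_le_mul_of_nonneg_left hQy (by positivity)
      linarith
    -- third step
    set A : ℝ := a ((Q y) 0 ^ 2 / ρ ^ 2) with hAdef
    have hA0 : c ≤ A := by
      apply hP.low
      rw [hQ0, div_le_iff₀ (by positivity)]
      have h6 : |y 0| ^ 2 ≤ (4 * ρ) ^ 2 := pow_le_pow_left₀ (abs_nonneg _) hF4.le 2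
      rw [sq_abs] at h6
      calc y 0 ^ 2 ≤ (4 * ρ) ^ 2 := h6
        _ = 16 * ρ ^ 2 := by ring
    have hA1 : A ≤ 1 := hP.le_one _
    have hApos : 0 < A := hc.trans_le hA0
    have hκA : κ * A ≤ 1 / 2 := by nlinarith
    have hr0 : (radT a κ ρ (Q y)) 0 = t - κ * A * t := by
      rw [radT_zero, hQ0]
      rw [hAdef, hQ0]
    have hrt : |(radT a κ ρ (Q y)) 0| ≤ |t| := by
      rw [hr0]
      have h6 : t - κ * A * t = (1 - κ * A) * t := by ring
      rw [h6, abs_mul, abs_of_nonneg (by linarith)]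
      have h7 : 0 ≤ |t| := abs_nonneg _
      have h8 : 0 < κ * A := by positivity
      nlinarith
    have e3 : |z (radT a κ ρ (Q y))| ≤ |z (Q y)| - 3 / 4 * (κ * A * |t|) := by
      have h6 := change hz.smooth hK hKb ht1 (x := Q y) (y := radT a κ ρ (Q y)) (by rw [hQ0]) hrt
      have h7 : ‖radT a κ ρ (Q y) - Q y‖ = κ * A * |t| := by
        have h8 : radT a κ ρ (Q y) - Q y =
            -((κ * A * t) • (EuclideanSpace.single 0 (1 : ℝ) : E (d + 1))) := by
          unfold radT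
          rw [← hAdef, hQ0]
          abel
        rw [h8, norm_neg, norm_smul, EuclideanSpace.norm_single, norm_one, mul_one,
          Real.norm_eq_abs, abs_mul, abs_of_nonneg (by positivity : 0 ≤ κ * A)]
      rw [h7, hr0, hQ0] at h6
      have h8 : K * |t| ≤ 1 / 4 := by
        have h9 : |t| < 4 * ρ := hF4
        have h10 : K * |t| ≤ K * (4 * ρ) := mul_le_mul_of_nonneg_left h9.le hK.le
        have h11 : 16 * K * ρ ≤ 1 := (mul_le_mul_of_nonneg_left hρρ (by positivity)).trans h4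
        linarith
      have h9 : K * |t| * (κ * A * |t|) ≤ 1 / 4 * (κ * A * |t|) :=
        mul_le_mul_of_nonneg_right h8 (by positivity)
      have h10 : |z (radT a κ ρ (Q y)) - (z (Q y) - κ * A * t)| ≤ 1 / 4 * (κ * A * |t|) := by
        have h11 : z (radT a κ ρ (Q y)) - (t - κ * A * t) - (z (Q y) - y 0) =
            z (radT a κ ρ (Q y)) - (z (Q y) - κ * A * t) := by
          rw [← ht]
          ring
        rw [h11] at h6
        exact h6.trans h9
      have h11 : |z (Q y) - κ * A * t| = |z (Q y)| - κ * A * |t| := by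
        have h12 := hzx (Q y) (by rw [hQ0]; linarith [show |y 0| < 4 * ρ from hF4])
        rw [hQ0, ← ht, abs_le] at h12
        rcases le_total 0 t with htt | htt
        · rw [abs_of_nonneg htt] at h12 ⊢
          have h13 : κ * A * t ≤ 1 / 2 * t := mul_le_mul_of_nonneg_right hκA htt
          rw [abs_of_nonneg (by linarith), abs_of_nonneg (by linarith)]
        · rw [abs_of_nonpos htt] at h12 ⊢
          have h13 : κ * A * (-t) ≤ 1 / 2 * (-t) := mul_le_mul_of_nonneg_right hκA (by linarith)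
          rw [abs_of_nonpos (by linarith), abs_of_nonpos (by linarith)]
          ring
      have h12 := abs_sub_abs_le_abs_sub (z (radT a κ ρ (Q y))) (z (Q y) - κ * A * t)
      linarith
    -- sum
    have e4 : C * |x 0| ^ (N + 1) ≤ κ * c / 8 * |x 0| := by
      have h6 : |x 0| ^ N ≤ (3 * ρ) ^ N := pow_le_pow_left₀ (abs_nonneg _) hx3 N
      have h7 : C * |x 0| ^ (N + 1) = C * |x 0| ^ N * |x 0| := by ring
      rw [h7]
      refine mul_le_mul_of_nonneg_right ?_ (abs_nonneg _)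
      have h8 : C * |x 0| ^ N ≤ C * (3 * ρ) ^ N := mul_le_mul_of_nonneg_left h6 hC.le
      have h9 : (3 * ρ) ^ N = 3 ^ N * ρ * ρ ^ (N - 1) := by
        obtain ⟨M, rfl⟩ : ∃ M, N = M + 1 := ⟨N - 1, by omega⟩
        rw [Nat.add_sub_cancel]
        ring
      have h10 : 8 * C * 3 ^ N * ρ ≤ ε * c :=
        (mul_le_mul_of_nonneg_left hρρ (by positivity)).trans h5
      have h11 : 0 < ρ ^ (N - 1) := by positivity
      have h12 : 8 * C * 3 ^ N * ρ * ρ ^ (N - 1) ≤ ε * c * ρ ^ (N - 1) :=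
        mul_le_mul_of_nonneg_right h10 h11.le
      rw [h9] at h8
      have h13 : κ * c / 8 = ε * c * ρ ^ (N - 1) / 8 := by
        rw [hκ]
        ring
      rw [h13]
      nlinarith
    have e5 : K * |t| * (κ * c / (16 * K)) = κ * c * |t| / 16 := by
      field_simp
    have e6 : κ * c * |t| ≤ κ * A * |t| :=
      mul_le_mul_of_nonneg_right (mul_le_mul_of_nonneg_left hA0 hκ0.le) (abs_nonneg _)
    have e7 : κ * c * |x 0| ≤ 2 * (κ * c * |t|) := by
      have h6 := mul_le_mul_of_nonneg_left hxt.1 (by positivity : 0 ≤ κ * c)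
      linarith
    have e8 : κ * c * |z x| ≤ 2 * (κ * c * |x 0|) := by
      have h6 := mul_le_mul_of_nonneg_left (hcmp x (by linarith)).2 (by positivity : 0 ≤ κ * c)
      linarith
    have e9 : (1 - c * κ / 16) * |z x| = |z x| - κ * c * |z x| / 16 := by ring
    rw [e9]
    rw [e5] at e2
    have e10 : κ * c / 8 * |x 0| = κ * c * |x 0| / 8 := by ring
    rw [e10] at e4
    have e11 : 0 ≤ κ * c * |t| := by positivity
    linarith

end Pool.Agent.PalT
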