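import Pool.Agent.PalT.Targets

/-!
# TRI: linear algebra of triangular maps
-/

set_option autoImplicit false

open Set MeasureTheory Filter Topology
open scoped Manifold ContDiff

namespace Pool.Agent.PalT

open Pool.Agent.Pal

namespace TRI_

/-- diagonal maps -/
noncomputable def dg {n : ℕ} (w : Fin n → ℝ) : E n →L[ℝ] E n :=
  LinearMap.toContinuousLinearMap
    { toFun := fun v => WithLp.toLp 2 (fun i => w i * v i)
      map_add' := fun x y => by
        ext i
        simp [mul_add]
      map_smul' := fun m x => by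
        ext i
        simp only [PiLp.smul_apply, smul_eq_mul, RingHom.id_apply]
        ring }

theorem dg_apply {n : ℕ} (w : Fin n → ℝ) (v : E n) (i : Fin n) : dg w v i = w i * v i := rfl

theorem norm_le_of {n : ℕ} {x y : E n} {m : ℝ} (hm : 0 ≤ m) (h : ∀ i, |x i| ≤ m * |y i|) :
    ‖x‖ ≤ m * ‖y‖ := by
  have h1 : m * ‖y‖ = ‖m • y‖ := by rw [norm_smul, Real.norm_of_nonneg hm]
  rw [h1, EuclideanSpace.norm_eq, EuclideanSpace.norm_eq]
  refine Real.sqrt_le_sqrt (Finset.sum_le_sum fun i _ => ?_)
  refine pow_le_pow_left₀ (norm_nonneg _) ?_ 2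
  rw [PiLp.smul_apply, norm_smul, Real.norm_of_nonneg hm]
  exact h i

theorem coord_le {n : ℕ} (x : E n) (i : Fin n) : |x i| ≤ ‖x‖ := by
  rw [← Real.norm_eq_abs]
  exact PiLp.norm_apply_le x i

theorem exm {ι : Type} [Finite ι] (f : ι → ℝ) (a : ℝ) (h : ∀ i, f i < a) :
    ∃ m < a, ∀ i, f i ≤ m := by
  rcases isEmpty_or_nonempty ι with h0 | h0
  · exact ⟨a - 1, by linarith, fun i => (h0.false i).elim⟩
  · obtain ⟨i0, h1⟩ := Finite.exists_max f
    exact ⟨f i0, h i0, h1⟩

/-- the off-diagonal column -/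
noncomputable def col {d : ℕ} (c : Fin d → ℝ) : E (d + 1) := WithLp.toLp 2 (Fin.cons 0 c)

theorem col_zero {d : ℕ} (c : Fin d → ℝ) : col c 0 = 0 := rfl

theorem col_succ {d : ℕ} (c : Fin d → ℝ) (i : Fin d) : col c i.succ = c i := rfl

theorem A_eq {d : ℕ} {A : E (d + 1) →L[ℝ] E (d + 1)} {lam : ℝ} {mu c : Fin d → ℝ}
    (h : ∀ v : E (d + 1), A v 0 = lam * v 0 ∧ ∀ i : Fin d, A v i.succ = mu i * v i.succ + c i * v 0)
    (v : E (d + 1)) : A v = dg (Fin.cons lam mu) v + v 0 • col c := by
  ext i
  rw [PiLp.add_apply, PiLp.smul_apply, dg_apply, smul_eq_mul]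
  refine Fin.cases ?_ (fun j => ?_) i
  · rw [(h v).1, col_zero, Fin.cons_zero]
    ring
  · rw [(h v).2, col_succ, Fin.cons_succ]
    ring

theorem exW (K m : ℝ) (hm : m < 1) : ∃ W : ℝ, 1 ≤ W ∧ K < W * (1 - m) := by
  refine ⟨1 + |K| / (1 - m), ?_, ?_⟩
  · have : 0 ≤ |K| / (1 - m) := div_nonneg (abs_nonneg _) (by linarith)
    linarith
  · have h1 : (1 - m) ≠ 0 := by linarith
    have h2 : (1 + |K| / (1 - m)) * (1 - m) = (1 - m) + |K| := by field_simp
    rw [h2]
    linarith [le_abs_self K]

end TRI_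

open TRI_ in
theorem tri : T_TRI := by
  intro d A lam mu hT hlam hmu
  obtain ⟨c, hA⟩ := hT
  have hAe := A_eq hA
  refine ⟨?_, ?_⟩
  · intro hmu1
    obtain ⟨m, hm1, hm⟩ := exm (fun i : Fin (d + 1) => |(Fin.cons lam mu : Fin (d + 1) → ℝ) i|) 1
      (fun i => by
        refine Fin.cases ?_ (fun j => ?_) i
        · exact hlam
        · show |mu j| < 1
          rw [abs_of_nonneg (hmu j)]
          exact hmu1 j)
    have hm0 : 0 ≤ m := (abs_nonneg _).trans (hm 0)
    obtain ⟨W, hW1, hW⟩ := exW ‖col c‖ m hm1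
    have hW0 : 0 < W := by linarith
    let S : E (d + 1) ≃L[ℝ] E (d + 1) :=
      ContinuousLinearEquiv.equivOfInverse (dg (Fin.cons W (fun _ => 1)))
        (dg (Fin.cons W⁻¹ (fun _ => 1)))
        (fun x => by
          ext i
          rw [dg_apply, dg_apply, ← mul_assoc]
          refine Fin.cases ?_ (fun j => ?_) i
          · rw [Fin.cons_zero, Fin.cons_zero, inv_mul_cancel₀ hW0.ne', one_mul]
          · rw [Fin.cons_succ, Fin.cons_succ, one_mul, one_mul])
        (fun x => by
          ext i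
          rw [dg_apply, dg_apply, ← mul_assoc]
          refine Fin.cases ?_ (fun j => ?_) i
          · rw [Fin.cons_zero, Fin.cons_zero, mul_inv_cancel₀ hW0.ne', one_mul]
          · rw [Fin.cons_succ, Fin.cons_succ, one_mul, one_mul])
    have hS : ∀ x, S x = dg (Fin.cons W (fun _ => 1)) x := fun x => rfl
    have hS' : ∀ x, S.symm x = dg (Fin.cons W⁻¹ (fun _ => 1)) x := fun x => rfl
    refine ⟨S, ?_⟩
    have hb : ‖(S : E (d + 1) →L[ℝ] E (d + 1)) ∘L A ∘L (S.symm : E (d + 1) →L[ℝ] E (d + 1))‖ ≤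
        m + ‖col c‖ / W := by
      refine ContinuousLinearMap.opNorm_le_bound _
        (add_nonneg hm0 (div_nonneg (norm_nonneg _) hW0.le)) fun v => ?_
      have h1 : ((S : E (d + 1) →L[ℝ] E (d + 1)) ∘L A ∘L
          (S.symm : E (d + 1) →L[ℝ] E (d + 1))) v =
          dg (Fin.cons lam mu) v + (v 0 / W) • col c := by
        show S (A (S.symm v)) = _
        rw [hAe, hS, hS']
        ext i
        rw [dg_apply, PiLp.add_apply, PiLp.add_apply, PiLp.smul_apply, PiLp.smul_apply, dg_apply,
          dg_apply, dg_apply, dg_apply, smul_eq_mul, smul_eq_mul]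
        refine Fin.cases ?_ (fun j => ?_) i
        · rw [Fin.cons_zero, Fin.cons_zero, Fin.cons_zero, col_zero]
          field_simp
          ring
        · rw [Fin.cons_succ, Fin.cons_succ, Fin.cons_succ, Fin.cons_zero, col_succ]
          field_simp
      rw [h1, add_mul]
      refine (norm_add_le _ _).trans (add_le_add ?_ ?_)
      · refine norm_le_of hm0 fun i => ?_
        rw [dg_apply, abs_mul]
        exact mul_le_mul_of_nonneg_right (hm i) (abs_nonneg _)
      · rw [norm_smul, norm_div, Real.norm_eq_abs, Real.norm_eq_abs, abs_of_pos hW0]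
        have h2 := coord_le v 0
        calc |v 0| / W * ‖col c‖ = |v 0| * (‖col c‖ / W) := by ring
          _ ≤ ‖v‖ * (‖col c‖ / W) :=
            mul_le_mul_of_nonneg_right h2 (div_nonneg (norm_nonneg _) hW0.le)
          _ = ‖col c‖ / W * ‖v‖ := by ring
    refine hb.trans_lt ?_
    have h3 : ‖col c‖ / W < 1 - m := by
      rw [div_lt_iff₀ hW0, mul_comm]
      exact hW
    linarith
  · intro hmu1 hex
    obtain ⟨i0, hi0⟩ := hex
    obtain ⟨ms, hms1, hms⟩ := exm (fun i : Fin (d + 1) =>
      (Fin.cons |lam| (fun i => if 1 < mu i then 0 else mu i) : Fin (d + 1) → ℝ) i) 1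
      (fun i => by
        refine Fin.cases ?_ (fun j => ?_) i
        · exact hlam
        · show (if 1 < mu j then 0 else mu j) < 1
          split_ifs with h
          · exact one_pos
          · exact lt_of_le_of_ne (not_lt.1 h) (hmu1 j))
    have hms0 : |lam| ≤ ms := hms 0
    have hms2 : ∀ j, ¬ 1 < mu j → mu j ≤ ms := by
      intro j hj
      have h1 : (if 1 < mu j then 0 else mu j) ≤ ms := hms j.succ
      rwa [if_neg hj] at h1
    have hms3 : 0 ≤ ms := (abs_nonneg _).trans hms0
    obtain ⟨mn, hmn1, hmn⟩ := exm (fun i : Fin d => if 1 < mu i then -mu i else -2) (-1)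
      (fun i => by
        show (if 1 < mu i then -mu i else -2) < -1
        split_ifs with h
        · linarith
        · norm_num)
    have hmn2 : ∀ j, 1 < mu j → -mn ≤ mu j := by
      intro j hj
      have h1 : (if 1 < mu j then -mu j else -2) ≤ mn := hmn j
      rw [if_pos hj] at h1
      linarith
    obtain ⟨W1, hW11, hW12⟩ := exW ‖col c‖ ms hms1
    obtain ⟨W2, hW21, hW22⟩ := exW ‖col c‖ (2 + mn) (by linarith)
    obtain ⟨W, hWW⟩ : ∃ W, W = max W1 W2 := ⟨_, rfl⟩
    have hW1 : 1 ≤ W := hWW ▸ hW11.trans (le_max_left _ _)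
    have hW0 : 0 < W := by linarith
    have hK1 : ‖col c‖ / W < 1 - ms := by
      rw [div_lt_iff₀ hW0]
      refine hW12.trans_le ?_
      rw [mul_comm]
      exact mul_le_mul_of_nonneg_left (hWW ▸ le_max_left _ _) (by linarith)
    have hK2 : ‖col c‖ / W < -mn - 1 := by
      rw [div_lt_iff₀ hW0]
      refine hW22.trans_le ?_
      have h1 : (1 - (2 + mn)) = -mn - 1 := by ring
      rw [h1, mul_comm]
      exact mul_le_mul_of_nonneg_left (hWW ▸ le_max_right _ _) (by linarith)
    obtain ⟨pu, hpu⟩ : ∃ pu : Fin (d + 1) → ℝ,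
      pu = Fin.cons 0 (fun i => if 1 < mu i then 1 else 0) := ⟨_, rfl⟩
    obtain ⟨ps, hps⟩ : ∃ ps : Fin (d + 1) → ℝ,
      ps = Fin.cons W (fun i => if 1 < mu i then 0 else 1) := ⟨_, rfl⟩
    have hpu0 : pu 0 = 0 := by rw [hpu]; rfl
    have hps0 : ps 0 = W := by rw [hps]; rfl
    have hpus : ∀ j : Fin d, pu j.succ = if 1 < mu j then 1 else 0 := fun j => by rw [hpu]; rfl
    have hpss : ∀ j : Fin d, ps j.succ = if 1 < mu j then 0 else 1 := fun j => by rw [hps]; rfl
    have hv0 : ∀ v : E (d + 1), |v 0| * ‖col c‖ ≤ ‖col c‖ / W * ‖dg ps v‖ := by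
      intro v
      have h1 := coord_le (dg ps v) 0
      rw [dg_apply, hps0, abs_mul, abs_of_pos hW0] at h1
      have h2 : |v 0| * ‖col c‖ = ‖col c‖ / W * (W * |v 0|) := by
        field_simp
      rw [h2]
      exact mul_le_mul_of_nonneg_left h1 (div_nonneg (norm_nonneg _) hW0.le)
    refine ⟨dg pu, dg ps, 1, -mn, ms + ‖col c‖ / W, ‖col c‖ / W, EuclideanSpace.single i0.succ 1,
      one_pos, div_nonneg (norm_nonneg _) hW0.le, by linarith, by linarith, ?_, ?_, ?_, ?_, ?_⟩
    · intro h0
      have h1 : (EuclideanSpace.single i0.succ (1 : ℝ)) i0.succ = (0 : E (d + 1)) i0.succ := by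
        rw [h0]
      rw [PiLp.single_apply, if_pos rfl] at h1
      exact one_ne_zero h1
    · ext i
      rw [dg_apply, PiLp.single_apply]
      refine Fin.cases ?_ (fun j => ?_) i
      · rw [if_neg (Fin.succ_ne_zero i0).symm, mul_zero]
        rfl
      · rw [hpss]
        by_cases h : j = i0
        · rw [h, if_pos hi0, zero_mul]
          rfl
        · rw [if_neg (fun h' => h (Fin.succ_injective _ h')), mul_zero]
          rfl
    · intro v
      have h1 : v = dg pu v + (v - dg pu v) := by abel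
      have h2 : ‖v - dg pu v‖ ≤ 1 * ‖dg ps v‖ := by
        refine norm_le_of zero_le_one fun i => ?_
        rw [PiLp.sub_apply, dg_apply, dg_apply, one_mul]
        refine Fin.cases ?_ (fun j => ?_) i
        · rw [hpu0, hps0, zero_mul, sub_zero, abs_mul, abs_of_pos hW0]
          nlinarith [abs_nonneg (v 0)]
        · rw [hpus, hpss]
          split_ifs with h
          · simp
          · simp
      calc 1 * ‖v‖ = ‖dg pu v + (v - dg pu v)‖ := by rw [one_mul, ← h1]
        _ ≤ ‖dg pu v‖ + ‖v - dg pu v‖ := norm_add_le _ _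
        _ ≤ ‖dg pu v‖ + ‖dg ps v‖ := by rw [one_mul] at h2; linarith
    · intro v
      have h1 : -mn * ‖dg pu v‖ ≤ ‖dg pu (dg (Fin.cons lam mu) v)‖ := by
        have h2 : ‖dg pu v‖ ≤ (-mn)⁻¹ * ‖dg pu (dg (Fin.cons lam mu) v)‖ := by
          refine norm_le_of (inv_nonneg.2 (by linarith)) fun i => ?_
          rw [dg_apply, dg_apply, dg_apply]
          refine Fin.cases ?_ (fun j => ?_) i
          · rw [hpu0, zero_mul, zero_mul, abs_zero, mul_zero]
          · rw [hpus, Fin.cons_succ]
            split_ifs with h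
            · rw [one_mul, one_mul, abs_mul, abs_of_pos (by linarith : (0 : ℝ) < mu j),
                ← mul_assoc]
              have h3 : 1 ≤ (-mn)⁻¹ * mu j := by
                rw [inv_mul_eq_div, le_div_iff₀ (by linarith), one_mul]
                exact hmn2 j h
              nlinarith [abs_nonneg (v j.succ)]
            · simp
        rw [inv_mul_eq_div, le_div_iff₀ (by linarith)] at h2
        linarith
      have h2 : ‖v 0 • dg pu (col c)‖ ≤ ‖col c‖ / W * ‖dg ps v‖ := by
        rw [norm_smul, Real.norm_eq_abs]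
        refine le_trans (mul_le_mul_of_nonneg_left ?_ (abs_nonneg _)) (hv0 v)
        have h3 : ‖dg pu (col c)‖ ≤ 1 * ‖col c‖ := by
          refine norm_le_of zero_le_one fun i => ?_
          rw [dg_apply, one_mul, abs_mul]
          refine mul_le_of_le_one_left (abs_nonneg _) ?_
          refine Fin.cases ?_ (fun j => ?_) i
          · rw [hpu0]; simp
          · rw [hpus]
            split_ifs <;> simp
        linarith
      have h3 : dg pu (A v) = dg pu (dg (Fin.cons lam mu) v) + v 0 • dg pu (col c) := by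
        rw [hAe v, map_add, map_smul]
      rw [h3]
      have h4 := norm_sub_norm_le (dg pu (dg (Fin.cons lam mu) v)) (-(v 0 • dg pu (col c)))
      rw [sub_neg_eq_add, norm_neg] at h4
      linarith
    · intro v
      have h1 : ‖dg ps (dg (Fin.cons lam mu) v)‖ ≤ ms * ‖dg ps v‖ := by
        refine norm_le_of hms3 fun i => ?_
        rw [dg_apply, dg_apply, dg_apply]
        refine Fin.cases ?_ (fun j => ?_) i
        · rw [hps0, Fin.cons_zero, abs_mul, abs_mul, abs_mul, abs_of_pos hW0]
          have h2 : 0 ≤ W * |v 0| := mul_nonneg hW0.le (abs_nonneg _)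
          nlinarith
        · rw [hpss, Fin.cons_succ]
          split_ifs with h
          · simp
          · rw [one_mul, one_mul, abs_mul, abs_of_nonneg (hmu j)]
            exact mul_le_mul_of_nonneg_right (hms2 j h) (abs_nonneg _)
      have h2 : ‖v 0 • dg ps (col c)‖ ≤ ‖col c‖ / W * ‖dg ps v‖ := by
        rw [norm_smul, Real.norm_eq_abs]
        refine le_trans (mul_le_mul_of_nonneg_left ?_ (abs_nonneg _)) (hv0 v)
        have h3 : ‖dg ps (col c)‖ ≤ 1 * ‖col c‖ := by
          refine norm_le_of zero_le_one fun i => ?_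
          rw [dg_apply, one_mul]
          refine Fin.cases ?_ (fun j => ?_) i
          · rw [col_zero, mul_zero]
          · rw [hpss]
            split_ifs
            · simp
            · rw [one_mul]
        linarith
      have h3 : dg ps (A v) = dg ps (dg (Fin.cons lam mu) v) + v 0 • dg ps (col c) := by
        rw [hAe v, map_add, map_smul]
      rw [h3, add_mul]
      exact (norm_add_le _ _).trans (add_le_add h1 h2)

end Pool.Agent.PalT
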