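import Pool.Agent.PalT.TargetsF
import Pool.Agent.Pal.EXT
import Pool.Agent.Pal.VOLE
import Pool.Agent.Pal.VOLM

/-!
# KT-VOLC: a smooth volume given by unimodular charts has smooth densities
-/

set_option autoImplicit false

open Set MeasureTheory Filter Topology Metric
open scoped Manifold ContDiff

namespace Pool.Agent.PalT

open Pool.Agent.Pal Pool.Agent.PalF

namespace VOLC_

theorem contDiff_det {F : Type} [NormedAddCommGroup F] [NormedSpace ℝ F] [FiniteDimensional ℝ F] :
    ContDiff ℝ ∞ (fun A : F →L[ℝ] F => A.det) := by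
  classical
  let b := Module.finBasis ℝ F
  have h1 : (fun A : F →L[ℝ] F => A.det) = fun A : F →L[ℝ] F =>
      ∑ σ : Equiv.Perm (Fin (Module.finrank ℝ F)), Equiv.Perm.sign σ •
        ∏ i, (b.coord (σ i)).toContinuousLinearMap (A (b i)) := by
    funext A
    rw [ContinuousLinearMap.det, ← LinearMap.det_toMatrix b, Matrix.det_apply]
    simp only [LinearMap.toMatrix_apply]
    rfl
  rw [h1]
  refine ContDiff.sum fun σ _ => ?_
  have h2 : ContDiff ℝ ∞ (fun A : F →L[ℝ] F =>
      ∏ i, (b.coord (σ i)).toContinuousLinearMap (A (b i))) := by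
    refine contDiff_prod fun i _ => ?_
    exact ((b.coord (σ i)).toContinuousLinearMap.contDiff).comp (contDiff_id.clm_apply contDiff_const)
  have h3 : ∀ r : ℝ, Equiv.Perm.sign σ • r = ((Equiv.Perm.sign σ : ℤ) : ℝ) * r := by
    intro r
    rw [Units.smul_def, zsmul_eq_mul]
  simp only [h3]
  exact contDiff_const.mul h2

theorem det_comp' {n : ℕ} (A B : E n →L[ℝ] E n) : (A.comp B).det = A.det * B.det :=
  LinearMap.det_comp (A : E n →ₗ[ℝ] E n) (B : E n →ₗ[ℝ] E n)

variable {n : ℕ} {M : Type} [TopologicalSpace M]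

theorem symm_meas [MeasurableSpace M] [BorelSpace M] (e : OpenPartialHomeomorph M (E n))
    {A : Set (E n)} (hA : MeasurableSet A) : MeasurableSet (e.symm '' (A ∩ e.target)) := by
  have h1 : e.symm '' (A ∩ e.target) =
      Subtype.val '' (e.toHomeomorphSourceTarget.symm '' (Subtype.val ⁻¹' A : Set e.target)) := by
    ext y
    constructor
    · rintro ⟨x, ⟨hxA, hxs⟩, rfl⟩
      exact ⟨e.toHomeomorphSourceTarget.symm ⟨x, hxs⟩, ⟨⟨x, hxs⟩, hxA, rfl⟩, rfl⟩
    · rintro ⟨_, ⟨⟨x, hxs⟩, hxA, rfl⟩, rfl⟩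
      exact ⟨x, ⟨hxA, hxs⟩, rfl⟩
  rw [h1]
  refine MeasurableSet.subtype_image e.open_source.measurableSet ?_
  exact e.toHomeomorphSourceTarget.symm.measurableEmbedding.measurableSet_image.mpr
    (measurable_subtype_coe hA)

variable [ChartedSpace (E n) M]

/-- transition maps are smooth -/
theorem trans_smooth [IsManifold 𝓘(ℝ, E n) ∞ M] {e e' : OpenPartialHomeomorph M (E n)}
    (he : e ∈ Ch n M) (he' : e' ∈ Ch n M) {x : M} (hx : x ∈ e.source) (hx' : x ∈ e'.source) :
    ContDiffAt ℝ ∞ (e' ∘ e.symm) (e x) :=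
  (diff1 n M ⊤).2.2.2 id 0 e e' x ⟨Diffeomorph.refl _ _ _, rfl⟩ he he' hx hx'

/-- the transition maps between unimodular charts preserve the volume infinitesimally -/
theorem det_one [IsManifold 𝓘(ℝ, E n) ∞ M] [MeasurableSpace M] [BorelSpace M] {μ : Measure M}
    {e e' : OpenPartialHomeomorph M (E n)} (he : Uni μ e) (he' : Uni μ e') {p : M}
    (hp : p ∈ e.source) (hp' : p ∈ e'.source) :
    |(fderiv ℝ (e' ∘ e.symm) (e p)).det| = 1 := by
  set Φ : E n → E n := fun z => (e' ∘ e.symm) (z + e p) with hΦ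
  set O : Set (E n) := e.target ∩ e.symm ⁻¹' e'.source with hO
  have hOo : IsOpen O := e.isOpen_inter_preimage_symm e'.open_source
  have hpO : e p ∈ O := ⟨e.map_source hp, by
    change e.symm (e p) ∈ e'.source
    rwa [e.left_inv hp]⟩
  have hder : fderiv ℝ Φ 0 = fderiv ℝ (e' ∘ e.symm) (e p) := by
    rw [hΦ, fderiv_comp_add_right, zero_add]
  rw [← hder]
  refine jac n Φ ((fun z => z + e p) ⁻¹' O) ?_ ?_ ?_ ?_
  · refine (hOo.preimage (continuous_id.add continuous_const)).mem_nhds ?_
    change (0 : E n) + e p ∈ O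
    rwa [zero_add]
  · have h1 : ContDiffAt ℝ 1 (e' ∘ e.symm) (0 + e p) := by
      rw [zero_add]
      exact (trans_smooth he.1 he'.1 hp hp').of_le (by exact_mod_cast le_top)
    have h2 : ContDiffAt ℝ 1 (fun z : E n => z + e p) 0 := contDiffAt_id.add contDiffAt_const
    exact ContDiffAt.comp (g := e' ∘ e.symm) (0 : E n) h1 h2
  · intro z hz z' hz' h
    have h1 : e.symm (z + e p) = e.symm (z' + e p) := e'.injOn hz.2 hz'.2 h
    have h2 : z + e p = z' + e p := e.symm.injOn hz.1 hz'.1 h1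
    exact add_right_cancel h2
  · intro A hA hAm
    set A' : Set (E n) := (fun z => z + e p) '' A with hA'
    have hA'm : MeasurableSet A' :=
      (Homeomorph.addRight (e p)).measurableEmbedding.measurableSet_image.2 hAm
    have hA'O : A' ⊆ O := by
      rintro _ ⟨z, hz, rfl⟩
      exact hA hz
    set B : Set M := e.symm '' A' with hB
    have hBm : MeasurableSet B := by
      have := symm_meas e hA'm
      rwa [inter_eq_left.2 (fun z hz => (hA'O hz).1)] at this
    have h1 : Φ '' A = e' '' B := by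
      rw [hB, hA', image_image, image_image]
      rfl
    have h2 : e '' B = A' := by
      rw [hB, image_image]
      refine (image_congr fun z hz => ?_).trans (image_id' A')
      exact e.right_inv (hA'O hz).1
    have h3 : B ⊆ e.source := by
      rintro _ ⟨z, hz, rfl⟩
      exact e.map_target (hA'O hz).1
    have h4 : B ⊆ e'.source := by
      rintro _ ⟨z, hz, rfl⟩
      exact (hA'O hz).2
    rw [h1, ← he'.2 B h4 hBm, he.2 B h3 hBm, h2, hA']
    rw [image_add_right, measure_preimage_add_right]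

/-- the density in the chart `φ` does not depend on the unimodular chart -/
theorem det_indep [IsManifold 𝓘(ℝ, E n) ∞ M] [MeasurableSpace M] [BorelSpace M] {μ : Measure M}
    {e e' φ : OpenPartialHomeomorph M (E n)} (he : Uni μ e) (he' : Uni μ e') (hφ : φ ∈ Ch n M)
    {p : M} (hp : p ∈ e.source) (hp' : p ∈ e'.source) (hpφ : p ∈ φ.source) :
    |(fderiv ℝ (e' ∘ φ.symm) (φ p)).det| = |(fderiv ℝ (e ∘ φ.symm) (φ p)).det| := by
  have hev : e' ∘ φ.symm =ᶠ[𝓝 (φ p)] (e' ∘ e.symm) ∘ (e ∘ φ.symm) := by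
    have h1 : ∀ᶠ y in 𝓝 (φ p), φ.symm y ∈ e.source := by
      have c : ContinuousAt φ.symm (φ p) := φ.continuousAt_symm (φ.map_source hpφ)
      apply c.eventually_mem
      rw [φ.left_inv hpφ]
      exact e.open_source.mem_nhds hp
    filter_upwards [h1] with y hy
    change e' (φ.symm y) = e' (e.symm (e (φ.symm y)))
    rw [e.left_inv hy]
  have hy : (e ∘ φ.symm) (φ p) = e p := by
    change e (φ.symm (φ p)) = e p
    rw [φ.left_inv hpφ]
  have d1 : DifferentiableAt ℝ (e ∘ φ.symm) (φ p) :=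
    (trans_smooth hφ he.1 hpφ hp).differentiableAt (by simp)
  have d2 : DifferentiableAt ℝ (e' ∘ e.symm) ((e ∘ φ.symm) (φ p)) := by
    rw [hy]
    exact (trans_smooth he.1 he'.1 hp hp').differentiableAt (by simp)
  rw [hev.fderiv_eq, fderiv_comp (φ p) d2 d1, det_comp', abs_mul, hy, det_one he he' hp hp',
    one_mul]

/-- the density does not vanish -/
theorem det_ne [IsManifold 𝓘(ℝ, E n) ∞ M] {e φ : OpenPartialHomeomorph M (E n)}
    (he : e ∈ Ch n M) (hφ : φ ∈ Ch n M) {p : M} (hp : p ∈ e.source) (hpφ : p ∈ φ.source) :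
    (fderiv ℝ (e ∘ φ.symm) (φ p)).det ≠ 0 := by
  have hev : (φ ∘ e.symm) ∘ (e ∘ φ.symm) =ᶠ[𝓝 (φ p)] id := by
    have h1 : ∀ᶠ y in 𝓝 (φ p), φ.symm y ∈ e.source := by
      have c : ContinuousAt φ.symm (φ p) := φ.continuousAt_symm (φ.map_source hpφ)
      apply c.eventually_mem
      rw [φ.left_inv hpφ]
      exact e.open_source.mem_nhds hp
    have h2 : ∀ᶠ y in 𝓝 (φ p), y ∈ φ.target := φ.open_target.mem_nhds (φ.map_source hpφ)
    filter_upwards [h1, h2] with y hy hy2
    change φ (e.symm (e (φ.symm y))) = y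
    rw [e.left_inv hy, φ.right_inv hy2]
  have hy : (e ∘ φ.symm) (φ p) = e p := by
    change e (φ.symm (φ p)) = e p
    rw [φ.left_inv hpφ]
  have d1 : DifferentiableAt ℝ (e ∘ φ.symm) (φ p) :=
    (trans_smooth hφ he hpφ hp).differentiableAt (by simp)
  have d2 : DifferentiableAt ℝ (φ ∘ e.symm) ((e ∘ φ.symm) (φ p)) := by
    rw [hy]
    exact (trans_smooth he hφ hp hpφ).differentiableAt (by simp)
  intro h0
  have h3 := congrArg (fun T : E n →L[ℝ] E n => T.det) (hev.fderiv_eq (𝕜 := ℝ))
  rw [fderiv_comp (φ p) d2 d1, det_comp', h0, mul_zero, fderiv_id] at h3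
  have h4 : (ContinuousLinearMap.id ℝ (E n)).det = 1 := by
    show LinearMap.det _ = 1
    rw [ContinuousLinearMap.coe_id, LinearMap.det_id]
  rw [h4] at h3
  exact zero_ne_one h3

/-- the change of variables formula -/
theorem area' [IsManifold 𝓘(ℝ, E n) ∞ M] [MeasurableSpace M] [BorelSpace M] {μ : Measure M}
    {e φ : OpenPartialHomeomorph M (E n)} (he : Uni μ e) (hφ : φ ∈ Ch n M) {A : Set M}
    (hA : MeasurableSet A) (hAe : A ⊆ e.source) (hAφ : A ⊆ φ.source) :
    μ A = ∫⁻ y in φ '' A, ENNReal.ofReal |(fderiv ℝ (e ∘ φ.symm) y).det| := by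
  have hS : MeasurableSet (φ '' A) := by
    have := VOLM_.image_meas φ hA
    rwa [inter_eq_left.mpr hAφ] at this
  rw [he.2 A hAe hA]
  have e1 : e '' A = (e ∘ φ.symm) '' (φ '' A) := by
    rw [image_image]
    refine image_congr fun x hx => ?_
    show e x = e (φ.symm (φ x))
    rw [φ.left_inv (hAφ hx)]
  rw [e1, ← lintegral_abs_det_fderiv_eq_addHaar_image volume hS (f := e ∘ φ.symm)
    (f' := fun y => fderiv ℝ (e ∘ φ.symm) y)]
  · rintro _ ⟨x, hx, rfl⟩
    exact ((trans_smooth hφ he.1 (hAφ hx) (hAe hx)).differentiableAt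
      (by simp)).hasFDerivAt.hasFDerivWithinAt
  · rintro _ ⟨x, hx, rfl⟩ _ ⟨x', hx', rfl⟩ hxx
    have h2 : e (φ.symm (φ x)) = e (φ.symm (φ x')) := hxx
    rw [φ.left_inv (hAφ hx), φ.left_inv (hAφ hx')] at h2
    rw [e.injOn (hAe hx) (hAe hx') h2]

/-- gluing of a formula for the measure -/
theorem glue {n : ℕ} {M : Type} [TopologicalSpace M] [MeasurableSpace M] [BorelSpace M]
    {μ : Measure M} (φ : OpenPartialHomeomorph M (E n)) (h : E n → ENNReal) (ν : Measure (E n))
    (K : M → Set M) (t : Finset M) (hK : ∀ q ∈ t, MeasurableSet (K q))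
    (H : ∀ q ∈ t, ∀ A : Set M, MeasurableSet A → A ⊆ φ.source → A ⊆ K q →
      μ A = ∫⁻ y in φ '' A, h y ∂ν) :
    ∀ A : Set M, MeasurableSet A → A ⊆ φ.source → A ⊆ ⋃ q ∈ t, K q →
      μ A = ∫⁻ y in φ '' A, h y ∂ν := by
  classical
  induction t using Finset.induction_on with
  | empty =>
    intro A _ _ hAK
    have : A = ∅ := by
      rw [eq_empty_iff_forall_notMem]
      intro x hx
      simpa using hAK hx
    rw [this]
    simp
  | insert a t ha ih =>
    intro A hA hAφ hAK
    have ih' := ih (fun q hq => hK q (Finset.mem_insert_of_mem hq))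
      (fun q hq => H q (Finset.mem_insert_of_mem hq))
    have hKa := hK a (Finset.mem_insert_self a t)
    have h1 := H a (Finset.mem_insert_self a t) (A ∩ K a) (hA.inter hKa)
      (inter_subset_left.trans hAφ) inter_subset_right
    have h2 := ih' (A \ K a) (hA.diff hKa) (sdiff_subset.trans hAφ) (by
      intro x hx
      have h3 := hAK hx.1
      simp only [Finset.mem_insert, mem_iUnion, exists_prop] at h3 ⊢
      obtain ⟨q, hq, hxq⟩ := h3
      rcases hq with rfl | hq
      · exact absurd hxq hx.2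
      · exact ⟨q, hq, hxq⟩)
    have hm : MeasurableSet (φ '' (A \ K a)) := by
      have := VOLM_.image_meas φ (hA.diff hKa)
      rwa [inter_eq_left.mpr (sdiff_subset.trans hAφ)] at this
    have hd : Disjoint (φ '' (A ∩ K a)) (φ '' (A \ K a)) := by
      rw [Set.disjoint_left]
      rintro _ ⟨x, hx, rfl⟩ ⟨x', hx', hxx⟩
      have : x' = x := φ.injOn (hAφ hx'.1) (hAφ hx.1) hxx
      subst this
      exact hx'.2 hx.2
    have e1 : μ A = μ (A ∩ K a) + μ (A \ K a) := (measure_inter_add_sdiff A hKa).symm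
    have e2 : φ '' A = φ '' (A ∩ K a) ∪ φ '' (A \ K a) := by
      rw [← image_union, inter_union_sdiff]
    rw [e1, e2, lintegral_union hm hd, h1, h2]

end VOLC_

open VOLC_ in
theorem pVOLC : T_VOLC := by
  classical
  intro n M _ _ _ _ _ _ _ μ hμ x₀
  set φ : OpenPartialHomeomorph M (E n) := chartAt (E n) x₀ with hφdef
  have hφ : φ ∈ Ch n M := IsManifold.chart_mem_maximalAtlas x₀
  have hsrc : (extChartAt 𝓘(ℝ, E n) x₀).source = φ.source := extChartAt_source _ _
  have htgt : (extChartAt 𝓘(ℝ, E n) x₀).target = φ.target := by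
    simp [extChartAt, hφdef]
  have himg : ∀ A : Set M, extChartAt 𝓘(ℝ, E n) x₀ '' A = φ '' A := by
    intro A
    simp [extChartAt, hφdef]
  choose e he hqe hvol using hμ
  have hU : ∀ q, Uni μ (e q) := fun q => ⟨he q, hvol q⟩
  obtain ⟨a, ha, hvh⟩ : ∃ a : NNReal, 0 < a ∧
      (volume : Measure (E n)) = a • (Measure.addHaar : Measure (E n)) :=
    ⟨_, Measure.addHaarScalarFactor_pos_of_isAddHaarMeasure (volume : Measure (E n))
      (Measure.addHaar : Measure (E n)), Measure.isAddLeftInvariant_eq_smul _ _⟩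
  set g : E n → ℝ := fun y => a * |(fderiv ℝ (e (φ.symm y) ∘ φ.symm) y).det| with hg
  -- near a point the density is given by one chart
  have hloc : ∀ q : M, ∀ y ∈ φ.target, φ.symm y ∈ (e q).source →
      g y = a * |(fderiv ℝ (e q ∘ φ.symm) y).det| := by
    intro q y hy hyq
    have h1 := det_indep (hU q) (hU (φ.symm y)) hφ hyq (hqe _) (φ.map_target hy)
    rw [φ.right_inv hy] at h1
    rw [hg]
    change (a : ℝ) * |(fderiv ℝ (e (φ.symm y) ∘ φ.symm) y).det| = _
    rw [h1]
  refine ⟨g, ?_, ?_, ?_⟩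
  · intro y hy
    rw [htgt] at hy
    apply ContDiffAt.contDiffWithinAt
    set q := φ.symm y with hq
    have hev : g =ᶠ[𝓝 y] fun z => a * |(fderiv ℝ (e q ∘ φ.symm) z).det| := by
      have h1 : ∀ᶠ z in 𝓝 y, φ.symm z ∈ (e q).source := by
        have c : ContinuousAt φ.symm y := φ.continuousAt_symm hy
        exact c.eventually_mem ((e q).open_source.mem_nhds (hqe q))
      have h2 : ∀ᶠ z in 𝓝 y, z ∈ φ.target := φ.open_target.mem_nhds hy
      filter_upwards [h1, h2] with z hz hz2
      exact hloc q z hz2 hz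
    have hs : ContDiffAt ℝ ∞ (e q ∘ φ.symm) y := by
      have := trans_smooth hφ (he q) (φ.map_target hy) (hqe q)
      rwa [φ.right_inv hy] at this
    have hd : ContDiffAt ℝ ∞ (fun z => (fderiv ℝ (e q ∘ φ.symm) z).det) y :=
      contDiff_det.contDiffAt.comp y (hs.fderiv_right (by simp))
    have hne : (fderiv ℝ (e q ∘ φ.symm) y).det ≠ 0 := by
      have := det_ne (he q) hφ (hqe q) (φ.map_target hy)
      rwa [φ.right_inv hy] at this
    refine ContDiffAt.congr_of_eventuallyEq ?_ hev
    exact contDiffAt_const.mul (hd.abs hne)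
  · intro y hy
    rw [htgt] at hy
    have hne : (fderiv ℝ (e (φ.symm y) ∘ φ.symm) y).det ≠ 0 := by
      have := det_ne (he (φ.symm y)) hφ (hqe _) (φ.map_target hy)
      rwa [φ.right_inv hy] at this
    exact mul_pos (by exact_mod_cast ha) (abs_pos.2 hne)
  · intro A hA hAm
    rw [hsrc] at hA
    rw [himg]
    obtain ⟨t, ht⟩ := isCompact_univ.elim_nhds_subcover (fun q : M => (e q).source)
      (fun q _ => (e q).open_source.mem_nhds (hqe q))
    refine glue φ (fun y => ENNReal.ofReal (g y)) (Measure.addHaar : Measure (E n))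
      (fun q => (e q).source) t (fun q _ => (e q).open_source.measurableSet) ?_ A hAm hA ?_
    · intro q _ B hB hBφ hBq
      have hS : MeasurableSet (φ '' B) := by
        have := VOLM_.image_meas φ hB
        rwa [inter_eq_left.mpr hBφ] at this
      rw [area' (hU q) hφ hB hBq hBφ, hvh, Measure.restrict_smul, lintegral_smul_measure]
      have h1 : ∀ y ∈ φ '' B, ENNReal.ofReal (g y) =
          (a : ENNReal) * ENNReal.ofReal |(fderiv ℝ (e q ∘ φ.symm) y).det| := by
        rintro _ ⟨x, hx, rfl⟩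
        rw [hloc q (φ x) (φ.map_source (hBφ hx)) (by
          rw [φ.left_inv (hBφ hx)]
          exact hBq hx), ENNReal.ofReal_mul (by positivity), ENNReal.ofReal_coe_nnreal]
      rw [setLIntegral_congr_fun hS h1, lintegral_const_mul' _ _ ENNReal.coe_ne_top]
      rfl
    · exact (subset_univ A).trans ht.2

end Pool.Agent.PalT
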