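import Pool.Agent.PalT.Targets
import Pool.Agent.Pal.VOLM
import Pool.Agent.Pal.VOLE

/-!
# Volumes of images under modifications in a collar
-/

set_option autoImplicit false

open Set MeasureTheory Filter Topology Metric
open scoped Manifold ContDiff

namespace Pool.Agent.PalT

open Pool.Agent.Pal

namespace VOLT_

variable {d : ℕ}

lemma coord_cont (i : Fin (d + 1)) : Continuous (fun x : E (d + 1) => x i) := by
  fun_prop

lemma strip_open (w : ℝ) : IsOpen (Strip d w) :=
  isOpen_lt (continuous_abs.comp (coord_cont 0)) continuous_const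

lemma cell_meas (w : ℝ) : MeasurableSet (Cell d w) := by
  have h1 : Cell d w = Strip d w ∩ ⋂ i : Fin d,
      ({x : E (d + 1) | 0 ≤ x i.succ} ∩ {x : E (d + 1) | x i.succ < 1}) := by
    ext x
    simp only [Cell, Strip, mem_inter_iff, mem_iInter]
    rfl
  rw [h1]
  refine (strip_open w).measurableSet.inter (MeasurableSet.iInter fun i => ?_)
  exact (isClosed_le continuous_const (coord_cont i.succ)).measurableSet.inter
    (isOpen_lt (coord_cont i.succ) continuous_const).measurableSet

lemma cell_sub (w : ℝ) : Cell d w ⊆ Strip d w := fun _ hx => hx.1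

lemma cell_eq {w : ℝ} {x x' : E (d + 1)} (hx : x ∈ Cell d w) (hx' : x' ∈ Cell d w)
    (h : x - x' ∈ Lat d) : x = x' := by
  obtain ⟨h0, h1⟩ := h
  ext i
  refine Fin.cases ?_ (fun i => ?_) i
  · have h2 : x 0 - x' 0 = 0 := h0
    linarith
  · obtain ⟨k, hk⟩ := h1 i.succ
    have h2 : x i.succ - x' i.succ = k := hk
    have h3 := hx.2 i
    have h4 := hx'.2 i
    have h5 : (k : ℝ) < 1 := by linarith
    have h6 : (-1 : ℝ) < k := by linarith
    have h7 : k < 1 := by exact_mod_cast h5
    have h8 : -1 < k := by exact_mod_cast h6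
    have h9 : k = 0 := by omega
    rw [h9, Int.cast_zero] at h2
    linarith

lemma cell_ex {w : ℝ} {x : E (d + 1)} (hx : x ∈ Strip d w) :
    ∃ v ∈ Lat d, x - v ∈ Cell d w := by
  refine ⟨WithLp.toLp 2 (Fin.cons 0 (fun i : Fin d => (⌊x i.succ⌋ : ℝ))), ⟨?_, ?_⟩, ?_, ?_⟩
  · simp
  · intro i
    refine Fin.cases ⟨0, by simp⟩ (fun i => ⟨⌊x i.succ⌋, by simp⟩) i
  · have h1 : |x 0| < w := hx
    simpa using h1
  · intro i
    have h1 := Int.floor_le (x i.succ)
    have h2 := Int.lt_floor_add_one (x i.succ)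
    constructor
    · simp
    · simp only [PiLp.sub_apply, Fin.cons_succ]
      linarith

lemma inj_of_near {n : ℕ} {L : E n → E n} (hL : ContDiff ℝ ∞ L) (hN : Near 1 (1 / 2) L) :
    Function.Injective L := by
  intro x y hxy
  have hds : ContDiff ℝ ∞ (fun z => L z - z) := hL.sub contDiff_id
  have hb : ∀ z, ‖fderiv ℝ (fun z => L z - z) z‖ ≤ 1 / 2 := by
    intro z
    have := hN 1 le_rfl z
    rwa [norm_iteratedFDeriv_one] at this
  have h1 := (convex_univ).norm_image_sub_le_of_norm_fderiv_le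
    (fun z _ => (hds.differentiable (by simp)) z) (fun z _ => hb z) (mem_univ x) (mem_univ y)
  simp only [hxy] at h1
  have h2 : L y - y - (L y - x) = x - y := by abel
  rw [h2, ← norm_neg (y - x), neg_sub] at h1
  have h3 : ‖x - y‖ ≤ 0 := by linarith [norm_nonneg (x - y)]
  exact sub_eq_zero.1 (norm_le_zero_iff.1 h3)

section main

variable {M : Type} [TopologicalSpace M] [ChartedSpace (E (d + 1)) M]
  [IsManifold 𝓘(ℝ, E (d + 1)) ∞ M] [T2Space M] [MeasurableSpace M] [BorelSpace M]

/-- the part of the cell over `A` -/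
def Cl (w : ℝ) (T : E (d + 1) → M) (A : Set M) : Set (E (d + 1)) := {x | x ∈ Cell d w ∧ T x ∈ A}

omit [ChartedSpace (E (d + 1)) M] [IsManifold 𝓘(ℝ, E (d + 1)) ∞ M] [T2Space M] in
lemma cl_meas {w : ℝ} {T : E (d + 1) → M} (hc : ContinuousOn T (Strip d w)) {A : Set M}
    (hA : MeasurableSet A) : MeasurableSet (Cl w T A) := by
  have h1 : Cl w T A = Cell d w ∩
      Subtype.val '' ((fun x : Strip d w => T x) ⁻¹' A : Set (Strip d w)) := by
    ext x
    constructor
    · rintro ⟨hx, hT⟩
      exact ⟨hx, ⟨⟨x, hx.1⟩, hT, rfl⟩⟩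
    · rintro ⟨hx, ⟨y, hy, rfl⟩⟩
      exact ⟨hx, hy⟩
  rw [h1]
  refine (cell_meas w).inter (MeasurableSet.subtype_image (strip_open w).measurableSet ?_)
  have h2 : Continuous (fun x : Strip d w => T x) := continuousOn_iff_continuous_domRestrict.1 hc
  exact h2.measurable hA

lemma key (h1 : T_COLL) (h2 : T_EXTT) {μ : Measure M} {w w' : ℝ} {T : E (d + 1) → M}
    {L : E (d + 1) → E (d + 1)} (hT : Collar w T) (hU : UniT μ w T) (hw : w' < w)
    (hL : ModT d w' L) (hN : Near 1 (1 / 2) L) {A : Set M} (hA : MeasurableSet A) :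
    MeasurableSet (Cl w T A) ∧
    μ A = volume (Cl w T A) + μ (A \ T '' Strip d w) ∧
    μ (extT w T L '' A) = volume (L '' Cl w T A) + μ (A \ T '' Strip d w) := by
  obtain ⟨hTc, hTo, -, -⟩ := h1 d M w T hT
  obtain ⟨-, hmap, hout⟩ := h2 d M w w' T L hT hw hL hN
  have hLi : Function.Injective L := inj_of_near hL.1 hN
  have hSo : IsOpen (T '' Strip d w) := hTo _ subset_rfl (strip_open w)
  have hCm : MeasurableSet (Cl w T A) := cl_meas hTc hA
  have hCs : Cl w T A ⊆ Strip d w := fun x hx => hx.1.1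
  have hTi : InjOn T (Cl w T A) := fun x hx x' hx' he =>
    cell_eq hx.1 hx'.1 ((hT.2.2 x hx.1.1 x' hx'.1.1).1 he)
  have hTC : T '' Cl w T A = A ∩ T '' Strip d w := by
    ext y
    constructor
    · rintro ⟨x, hx, rfl⟩
      exact ⟨hx.2, ⟨x, hx.1.1, rfl⟩⟩
    · rintro ⟨hy, x, hx, rfl⟩
      obtain ⟨v, hv, hxv⟩ := cell_ex hx
      have he : T x = T (x - v) := by
        refine (hT.2.2 x hx (x - v) hxv.1).2 ?_
        rwa [sub_sub_cancel]
      exact ⟨x - v, ⟨hxv, he ▸ hy⟩, he.symm⟩
  have hA2 : MeasurableSet (A \ T '' Strip d w) := hA.diff hSo.measurableSet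
  refine ⟨hCm, ?_, ?_⟩
  · rw [← measure_inter_add_sdiff A hSo.measurableSet, ← hTC, hU _ hCs hCm hTi]
  · have hfix : ∀ y, y ∉ T '' Strip d w → extT w T L y = y := by
      intro y hy
      refine hout y fun hy' => hy ?_
      obtain ⟨x, hx, rfl⟩ := hy'
      exact ⟨x, lt_of_le_of_lt hx hw, rfl⟩
    have himg : extT w T L '' (A ∩ T '' Strip d w) = T '' (L '' Cl w T A) := by
      rw [← hTC, image_image, image_image]
      exact image_congr fun x hx => (hmap x (hCs hx)).2
    have hsub : T '' (L '' Cl w T A) ⊆ T '' Strip d w := by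
      refine image_mono ?_
      rintro _ ⟨x, hx, rfl⟩
      exact (hmap x (hCs hx)).1
    have e1 : extT w T L '' A = T '' (L '' Cl w T A) ∪ (A \ T '' Strip d w) := by
      conv_lhs => rw [← inter_union_sdiff A (T '' Strip d w)]
      rw [image_union, himg]
      congr 1
      ext y
      constructor
      · rintro ⟨x, hx, rfl⟩
        rw [hfix x hx.2]
        exact hx
      · intro hy
        exact ⟨y, hy, hfix y hy.2⟩
    have hdisj : Disjoint (T '' (L '' Cl w T A)) (A \ T '' Strip d w) :=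
      Set.disjoint_left.mpr fun x hx hx' => hx'.2 (hsub hx)
    have hLs : L '' Cl w T A ⊆ Strip d w := by
      rintro _ ⟨x, hx, rfl⟩
      exact (hmap x (hCs hx)).1
    have hLm : MeasurableSet (L '' Cl w T A) :=
      hCm.image_of_continuousOn_injOn hL.1.continuous.continuousOn hLi.injOn
    have hLTi : InjOn T (L '' Cl w T A) := by
      rintro _ ⟨x, hx, rfl⟩ _ ⟨x', hx', rfl⟩ he
      have hv : L x - L x' ∈ Lat d :=
        (hT.2.2 _ (hmap x (hCs hx)).1 _ (hmap x' (hCs hx')).1).1 he
      have h3 : L x = L (x' + (L x - L x')) := by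
        rw [hL.2.1 x' _ hv]
        abel
      have h4 : x = x' + (L x - L x') := hLi h3
      have h5 : x - x' ∈ Lat d := by
        have h6 : x - x' = L x - L x' := sub_eq_of_eq_add' h4
        rwa [h6]
      rw [cell_eq hx.1 hx'.1 h5]
    rw [e1, measure_union hdisj hA2, hU _ hLs hLm hLTi]

end main

end VOLT_

open VOLT_ in
theorem volt (h1 : T_COLL) (h2 : T_EXTT) : T_VOLT := by
  intro d M _ _ _ _ _ _ μ w w' T L hT hU hw hL hN
  have hLi : Function.Injective L := inj_of_near hL.1 hN
  refine ⟨?_, ?_⟩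
  · intro A hA hdet
    obtain ⟨hm, e1, e2⟩ := key h1 h2 hT hU hw hL hN hA
    rw [e1, e2]
    refine add_le_add ?_ le_rfl
    have h3 := vole (d + 1) L (Cl w T A) 1 hL.1 hLi hm zero_le_one
      (fun y hy => (hdet y hy.1.1 hy.2).trans (le_abs_self _))
    rwa [ENNReal.ofReal_one, one_mul] at h3
  · intro hdet
    have hkey : ∀ A, MeasurableSet A → μ (extT w T L '' A) = μ A := by
      intro A hA
      obtain ⟨hm, e1, e2⟩ := key h1 h2 hT hU hw hL hN hA
      rw [e1, e2, VOLM_.vol_image hL.1 hLi hm]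
      simp only [hdet, abs_one, ENNReal.ofReal_one, lintegral_const, one_mul,
        Measure.restrict_apply_univ]
    obtain ⟨⟨G, hG⟩, -, -⟩ := h2 d M w w' T L hT hw hL hN
    have hme : MeasurableEmbedding (extT w T L) := by
      rw [← hG]
      exact G.toHomeomorph.measurableEmbedding
    refine ⟨hme.measurable, ?_⟩
    ext B hB
    rw [Measure.map_apply hme.measurable hB, ← hkey _ (hme.measurable hB)]
    congr 1
    refine image_preimage_eq _ ?_
    rw [← hG]
    exact G.surjective

end Pool.Agent.PalT
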