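import Pool.Agent.PalT.Targets

/-!
# Lyapunov argument for small perturbations
-/

set_option autoImplicit false

open Set Filter Topology

namespace Pool.Agent.PalT

namespace WANDER_

variable {X : Type} [MetricSpace X]

lemma drop {K : Set X} {H : X → X} {V : X → ℝ} {P : Finset X} (hK : IsCompact K)
    (hH : ContinuousOn H K) (hm : MapsTo H K K) (hV : ContinuousOn V K)
    (hd : ∀ x ∈ K, x ∉ P → V (H x) < V x) {σ : ℝ} (hσ : 0 < σ) :
    ∃ a : ℝ, 0 < a ∧ ∀ x ∈ K, (∀ p ∈ P, σ ≤ dist x p) → a ≤ V x - V (H x) := by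
  have hcl : IsClosed {x : X | ∀ p ∈ P, σ ≤ dist x p} := by
    have : {x : X | ∀ p ∈ P, σ ≤ dist x p} = ⋂ p ∈ P, {x : X | σ ≤ dist x p} := by
      ext x
      simp
    rw [this]
    exact isClosed_biInter fun p _ => isClosed_le continuous_const (by fun_prop)
  have hKc : IsCompact (K ∩ {x : X | ∀ p ∈ P, σ ≤ dist x p}) := hK.inter_right hcl
  rcases (K ∩ {x : X | ∀ p ∈ P, σ ≤ dist x p}).eq_empty_or_nonempty with he | hne
  · refine ⟨1, one_pos, fun x hx hp => ?_⟩
    have : x ∈ K ∩ {x : X | ∀ p ∈ P, σ ≤ dist x p} := ⟨hx, hp⟩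
    rw [he] at this
    exact absurd this (notMem_empty x)
  · have hc : ContinuousOn (fun x => V x - V (H x)) (K ∩ {x : X | ∀ p ∈ P, σ ≤ dist x p}) :=
      (hV.sub (hV.comp hH hm)).mono inter_subset_left
    obtain ⟨x₀, hx₀, hmin⟩ := hKc.exists_isMinOn hne hc
    refine ⟨V x₀ - V (H x₀), ?_, fun x hx hp => hmin ⟨hx, hp⟩⟩
    have : x₀ ∉ P := by
      intro hP
      have := hx₀.2 x₀ hP
      rw [dist_self] at this
      linarith
    linarith [hd x₀ hx₀.1 this]

lemma sep (P : Finset X) {s : ℝ} (hs : 0 < s) :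
    ∃ s' : ℝ, 0 < s' ∧ s' ≤ s ∧ ∀ p ∈ P, ∀ q ∈ P, p ≠ q → 2 * s' ≤ dist p q := by
  classical
  rcases P.offDiag.eq_empty_or_nonempty with he | hne
  · refine ⟨s, hs, le_rfl, fun p hp q hq hpq => ?_⟩
    have : (p, q) ∈ P.offDiag := Finset.mem_offDiag.2 ⟨hp, hq, hpq⟩
    rw [he] at this
    exact absurd this (Finset.notMem_empty _)
  · obtain ⟨z, hz, hmin⟩ := P.offDiag.exists_min_image (fun z => dist z.1 z.2) hne
    have hz0 : 0 < dist z.1 z.2 := dist_pos.2 (Finset.mem_offDiag.1 hz).2.2
    refine ⟨min s (dist z.1 z.2 / 2), lt_min hs (by positivity), min_le_left _ _,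
      fun p hp q hq hpq => ?_⟩
    have h1 := hmin (p, q) (Finset.mem_offDiag.2 ⟨hp, hq, hpq⟩)
    have h2 := min_le_right s (dist z.1 z.2 / 2)
    simp only at h1
    linarith

end WANDER_

open WANDER_ in
theorem wander : T_WANDER := by
  classical
  intro X _ K H V P s hK hH hm hV hP hd hs
  obtain ⟨s', hs'0, hs's, hsep⟩ := sep P hs
  -- s1
  have hHu := Metric.uniformContinuousOn_iff.1 (hK.uniformContinuousOn_of_continuous hH)
  have hVu := Metric.uniformContinuousOn_iff.1 (hK.uniformContinuousOn_of_continuous hV)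
  obtain ⟨δ₁, hδ₁, hH1⟩ := hHu (s' / 2) (by positivity)
  set s₁ := min δ₁ s' with hs₁
  have hs₁0 : 0 < s₁ := lt_min hδ₁ hs'0
  obtain ⟨a, ha, hda⟩ := drop hK hH hm hV hd hs₁0
  obtain ⟨δ₂, hδ₂, hV1⟩ := hVu (a / 16) (by positivity)
  set s₂ := min δ₂ s₁ with hs₂
  have hs₂0 : 0 < s₂ := lt_min hδ₂ hs₁0
  obtain ⟨a₂, ha₂, hda₂⟩ := drop hK hH hm hV hd hs₂0
  obtain ⟨δ₃, hδ₃, hV2⟩ := hVu (min (a / 16) (a₂ / 2)) (lt_min (by positivity) (by positivity))
  refine ⟨min δ₃ (s' / 2), lt_min hδ₃ (by positivity), ?_⟩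
  intro H' hm' hclose x hx
  have hVc : ∀ y ∈ K, |V (H' y) - V (H y)| < min (a / 16) (a₂ / 2) := by
    intro y hy
    exact hV2 _ (hm' hy) _ (hm hy) (lt_of_lt_of_le (hclose y hy) (min_le_left _ _))
  have f1 : ∀ y ∈ K, (∀ p ∈ P, s₁ ≤ dist y p) → V (H' y) < V y - a / 2 := by
    intro y hy hp
    have h1 := (abs_lt.1 (hVc y hy)).2
    have h2 := min_le_left (a / 16) (a₂ / 2)
    have h3 := hda y hy hp
    linarith
  have f2 : ∀ y ∈ K, (∀ p ∈ P, s₂ ≤ dist y p) → V (H' y) < V y - a₂ / 2 := by
    intro y hy hp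
    have h1 := (abs_lt.1 (hVc y hy)).2
    have h2 := min_le_right (a / 16) (a₂ / 2)
    have h3 := hda₂ y hy hp
    linarith
  have f3 : ∀ y ∈ K, V (H' y) < V y + a / 16 := by
    intro y hy
    have h1 := (abs_lt.1 (hVc y hy)).2
    have h2 := min_le_left (a / 16) (a₂ / 2)
    have h3 : V (H y) ≤ V y := by
      by_cases hyP : y ∈ P
      · rw [(hP y hyP).2]
      · exact (hd y hy hyP).le
    linarith
  have f4 : ∀ y ∈ K, ∀ p ∈ P, dist y p < s₁ → dist (H' y) p < s' := by
    intro y hy p hp hyp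
    have h1 := hH1 y hy p (hP p hp).1 (lt_of_lt_of_le hyp (min_le_left _ _))
    rw [(hP p hp).2] at h1
    have h2 := lt_of_lt_of_le (hclose y hy) (min_le_right _ _)
    linarith [dist_triangle (H' y) (H y) p]
  set o : ℕ → X := fun k => H'^[k] x with ho
  have hoK : ∀ k, o k ∈ K := by
    intro k
    induction k with
    | zero => exact hx
    | succ k ih =>
      rw [ho]
      simp only [Function.iterate_succ_apply']
      exact hm' ih
  have hos : ∀ k, o (k + 1) = H' (o k) := by
    intro k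
    rw [ho]
    simp only [Function.iterate_succ_apply']
  -- infinitely many visits
  obtain ⟨B, hB⟩ := (hK.image_of_continuousOn hV).bddBelow
  have hBk : ∀ k, B ≤ V (o k) := fun k => hB (mem_image_of_mem V (hoK k))
  have hA : ∀ m, ∃ l, m ≤ l ∧ ∃ p ∈ P, dist (o l) p < s₂ := by
    intro m
    by_contra hcon
    push Not at hcon
    have h1 : ∀ i : ℕ, V (o (m + i)) ≤ V (o m) - i * (a₂ / 2) := by
      intro i
      induction i with
      | zero => simp
      | succ i ih =>
        have h2 := f2 (o (m + i)) (hoK _) fun p hp => hcon (m + i) (by omega) p hp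
        rw [← hos] at h2
        rw [← add_assoc]
        push_cast
        linarith
    obtain ⟨i, hi⟩ := exists_nat_gt ((V (o m) - B) / (a₂ / 2))
    rw [div_lt_iff₀ (by positivity)] at hi
    linarith [h1 i, hBk (m + i)]
  -- an exit lowers the value
  have hexit : ∀ p ∈ P, ∀ k, dist (o k) p < s₂ → (∃ j, k ≤ j ∧ s' ≤ dist (o j) p) →
      ∃ l, ∃ q ∈ P, dist (o l) q < s₂ ∧ V q < V p := by
    intro p hp k hk hj
    have hsv : ∀ y ∈ K, ∀ q ∈ P, dist y q < s₂ → |V y - V q| < a / 16 := by
      intro y hy q hq hyq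
      exact hV1 y hy q (hP q hq).1 (lt_of_lt_of_le hyq (min_le_left _ _))
    have hs21 : s₂ ≤ s₁ := min_le_right _ _
    have hs1' : s₁ ≤ s' := min_le_right _ _
    set k' := Nat.find hj with hk'
    obtain ⟨hkk, hout⟩ : k ≤ k' ∧ s' ≤ dist (o k') p := Nat.find_spec hj
    have hin : ∀ j, k ≤ j → j < k' → dist (o j) p < s' := by
      intro j h1 h2
      have := Nat.find_min hj h2
      push Not at this
      exact this h1
    have hkk' : k < k' := by
      rcases lt_or_eq_of_le hkk with h1 | h1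
      · exact h1
      · rw [← h1] at hout
        linarith
    -- the others are far
    have hfar : ∀ j, dist (o j) p < s' → ∀ q ∈ P, q ≠ p → s' ≤ dist (o j) q := by
      intro j h1 q hq hqp
      have h2 := hsep p hp q hq (Ne.symm hqp)
      have h3 := dist_triangle_left p q (o j)
      linarith
    have hb : ∀ i, k + i < k' → V (o (k + i)) < V p + a / 8 := by
      intro i
      induction i with
      | zero =>
        intro _
        have := (abs_lt.1 (hsv _ (hoK k) p hp hk)).2
        simp only [add_zero]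
        linarith
      | succ i ih =>
        intro h1
        have h2 := ih (by omega)
        have h3 := hin (k + i) (by omega) (by omega)
        rw [← add_assoc, hos]
        by_cases h4 : dist (o (k + i)) p < s₂
        · have h5 := (abs_lt.1 (hsv _ (hoK (k + i)) p hp h4)).2
          have h6 := f3 _ (hoK (k + i))
          linarith
        · have h5 := f2 _ (hoK (k + i)) fun q hq => by
            by_cases hqp : q = p
            · rw [hqp]
              exact not_lt.1 h4
            · exact le_trans (hs21.trans hs1') (hfar _ h3 q hq hqp)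
          linarith
    obtain ⟨i, hi⟩ : ∃ i, k' = k + i + 1 := ⟨k' - k - 1, by omega⟩
    have h1 := hb i (by omega)
    have h2 := hin (k + i) (by omega) (by omega)
    have h3 : s₁ ≤ dist (o (k + i)) p := by
      by_contra hcon
      have := f4 _ (hoK (k + i)) p hp (not_le.1 hcon)
      rw [← hos, ← hi] at this
      linarith
    have h4 := f1 _ (hoK (k + i)) fun q hq => by
      by_cases hqp : q = p
      · rw [hqp]
        exact h3
      · exact le_trans hs1' (hfar _ h2 q hq hqp)
    rw [← hos, ← hi] at h4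
    -- the next visit
    have hex : ∃ l, k' ≤ l ∧ ∃ q ∈ P, dist (o l) q < s₂ := hA k'
    set l := Nat.find hex with hl
    obtain ⟨hkl, q, hq, hlq⟩ : k' ≤ l ∧ ∃ q ∈ P, dist (o l) q < s₂ := Nat.find_spec hex
    have hno : ∀ j, k' ≤ j → j < l → ∀ q ∈ P, s₂ ≤ dist (o j) q := by
      intro j h5 h6 q hq
      have := Nat.find_min hex h6
      push Not at this
      exact this h5 q hq
    have hdec : ∀ i, k' + i ≤ l → V (o (k' + i)) ≤ V (o k') := by
      intro i
      induction i with
      | zero => intro _; simp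
      | succ i ih =>
        intro h5
        have h6 := ih (by omega)
        have h7 := f2 _ (hoK (k' + i)) (hno (k' + i) (by omega) (by omega))
        rw [← add_assoc, hos]
        linarith
    have h5 := hdec (l - k') (by omega)
    rw [Nat.add_sub_cancel' hkl] at h5
    have h6 := (abs_lt.1 (hsv _ (hoK l) q hq hlq)).1
    exact ⟨l, q, hq, hlq, by linarith⟩
  -- the induction
  have hmain : ∀ N : ℕ, ∀ p ∈ P, (P.filter fun q => V q < V p).card = N →
      ∀ k, dist (o k) p < s₂ → ∃ p' ∈ P, ∃ k₀ : ℕ, ∀ j, k₀ ≤ j → dist (o j) p' < s' := by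
    intro N
    induction N using Nat.strong_induction_on with
    | _ N ih =>
      intro p hp hcard k hk
      by_cases hall : ∀ j, k ≤ j → dist (o j) p < s'
      · exact ⟨p, hp, k, hall⟩
      · push Not at hall
        obtain ⟨l, q, hq, hlq, hVq⟩ := hexit p hp k hk hall
        refine ih _ ?_ q hq rfl l hlq
        rw [← hcard]
        refine Finset.card_lt_card ?_
        rw [Finset.ssubset_iff_of_subset]
        · refine ⟨q, Finset.mem_filter.2 ⟨hq, hVq⟩, fun h => ?_⟩
          exact lt_irrefl _ (Finset.mem_filter.1 h).2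
        · intro z hz
          rw [Finset.mem_filter] at hz ⊢
          exact ⟨hz.1, hz.2.trans hVq⟩
  obtain ⟨l, -, p, hp, hl⟩ := hA 0
  obtain ⟨p', hp', k₀, hk₀⟩ := hmain _ p hp rfl l hl
  exact ⟨p', hp', k₀, fun j hj => lt_of_lt_of_le (hk₀ j hj) hs's⟩

end Pool.Agent.PalT
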