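import Pool.Agent.PalT.Targets

/-!
# Almost invariant functions exist
-/

set_option autoImplicit false

open Set MeasureTheory Filter Topology Metric Asymptotics
open scoped Manifold ContDiff

namespace Pool.Agent.PalT

open Pool.Agent.Pal

namespace ZEX_

theorem contDiff_zero (d : ℕ) : ContDiff ℝ ∞ (fun x : E (d + 1) => x 0) := by
  exact (contDiff_euclidean.1 (contDiff_id : ContDiff ℝ ∞ (fun x : E (d + 1) => x))) 0

/-- the case `s = 1` -/
theorem pos_case (h2 : T_ZSTEP) (d : ℕ) (w : ℝ) (α : E (d + 1)) (F : E (d + 1) → E (d + 1))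
    (hF : LiftMap d w α F) (hD : Dio d (th α)) (w' C : ℝ) (hw' : 0 < w') (hw : w' ≤ w)
    (hC : 0 < C) (hb : ∀ x ∈ Strip d w', ‖F x - (x + α)‖ ≤ C * |x 0| ∧
      |F x 0 - 1 * x 0| ≤ C * x 0 ^ 2) (N : ℕ) (hN : 1 ≤ N) :
    ∃ (w'' C' : ℝ) (z : E (d + 1) → ℝ), w'' ≤ w ∧ AlmInv d N w'' C' 1 α F z := by
  induction N, hN using Nat.le_induction with
  | base =>
    refine ⟨w', C, fun x => x 0, hw, ?_⟩
    refine
      { sign := Or.inl rfl
        pos := hw'
        C_pos := hC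
        smooth := contDiff_zero d
        per := ?_
        first := ?_
        inv := ?_
        lip := fun x hx => (hb x hx).1
        norm := fun x hx => (hb x hx).2 }
    · intro x v hv
      show (x + v) 0 = x 0
      rw [PiLp.add_apply, hv.1, add_zero]
    · intro x _
      show |x 0 - x 0| ≤ _
      rw [sub_self, abs_zero]
      positivity
    · intro x hx
      have := (hb x hx).2
      rw [← sq_abs (x 0)] at this
      exact this
  | succ N hN ih =>
    obtain ⟨w'', C', z, hle, hz⟩ := ih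
    obtain ⟨w₃, C₃, z₃, hle₃, hz₃⟩ := h2 d N w w'' C' α F z hF hD hN hle hz
    exact ⟨w₃, C₃, z₃, hle₃, hz₃⟩

/-- the double of a Diophantine vector -/
theorem dio_double (d : ℕ) (α : E (d + 1)) (hD : Dio d (th α)) : Dio d (th (α + α)) := by
  obtain ⟨c, τ, hc, h⟩ := hD
  refine ⟨c / 2 ^ τ, τ, by positivity, ?_⟩
  intro k hk l
  have hk2 : (2 : ℤ) • k ≠ 0 := by
    intro h0
    apply hk
    funext i
    have := congrFun h0 i
    simpa using this
  have h1 := h ((2 : ℤ) • k) hk2 l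
  have h2 : ‖(2 : ℤ) • k‖ = 2 * ‖k‖ := by
    rw [norm_smul, Int.norm_eq_abs]
    norm_num
  have h3 : (∑ i, (((2 : ℤ) • k) i : ℝ) * th α i) = ∑ i, (k i : ℝ) * th (α + α) i := by
    apply Finset.sum_congr rfl
    intro i _
    show (((2 : ℤ) • k) i : ℝ) * α i.succ = (k i : ℝ) * (α + α) i.succ
    rw [PiLp.add_apply, Pi.smul_apply, smul_eq_mul]
    push_cast
    ring
  rw [h2, h3, mul_pow] at h1
  rw [div_le_iff₀ (by positivity)]
  calc c ≤ 2 ^ τ * ‖k‖ ^ τ * |∑ i, (k i : ℝ) * th (α + α) i - l| := h1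
    _ = ‖k‖ ^ τ * |∑ i, (k i : ℝ) * th (α + α) i - l| * 2 ^ τ := by ring

end ZEX_

open ZEX_

theorem zex (h1 : T_FIRST) (h2 : T_ZSTEP) (h3 : T_LIFT2) : T_ZEX := by
  intro d N w α F hF hD hN
  obtain ⟨s, w', C, hs, hw', hw'w, hC, hb⟩ := h1 d w α F hF
  rcases hs with rfl | rfl
  · obtain ⟨w'', C', z, hle, hz⟩ := pos_case h2 d w α F hF hD w' C hw' hw'w hC hb N hN
    exact ⟨w'', C', 1, z, hle, hz⟩
  obtain ⟨w₁, hw₁w, hst, hFF⟩ := h3 d w α F hF
  have hw₁ : 0 < w₁ := hFF.pos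
  set K : ℝ := 1 + C * w' with hK
  have hK1 : 1 ≤ K := by rw [hK]; nlinarith [mul_pos hC hw']
  have hK0 : 0 < K := by linarith
  have hFx : ∀ x ∈ Strip d w', |F x 0| ≤ K * |x 0| := by
    intro x hx
    have h := (hb x hx).2
    have hx' : |x 0| < w' := hx
    have e1 : F x 0 = (F x 0 - -1 * x 0) + (- x 0) := by ring
    have e2 : |F x 0| ≤ |F x 0 - -1 * x 0| + |x 0| := by
      conv_lhs => rw [e1]
      refine (abs_add_le _ _).trans ?_
      rw [abs_neg]
    have e3 : C * x 0 ^ 2 ≤ C * w' * |x 0| := by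
      rw [← sq_abs (x 0)]
      have : |x 0| * |x 0| ≤ w' * |x 0| := mul_le_mul_of_nonneg_right hx'.le (abs_nonneg _)
      nlinarith
    rw [hK]
    nlinarith
  -- the bounds for the second iterate
  set w₂ : ℝ := min w₁ (w' / K) with hw₂
  have hw₂0 : 0 < w₂ := lt_min hw₁ (by positivity)
  have hw₂' : w₂ ≤ w' := (min_le_right _ _).trans (div_le_self hw'.le hK1)
  have hFw : ∀ x ∈ Strip d w₂, F x ∈ Strip d w' := by
    intro x hx
    have hx' : |x 0| < w₂ := hx
    have h1 : |x 0| < w' / K := hx'.trans_le (min_le_right _ _)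
    have h2 := hFx x (show |x 0| < w' from hx'.trans_le hw₂')
    rw [lt_div_iff₀ hK0] at h1
    show |F x 0| < w'
    linarith
  have hb2 : ∀ x ∈ Strip d w₂, ‖(F ∘ F) x - (x + (α + α))‖ ≤ (C * K ^ 2 + C) * |x 0| ∧
      |(F ∘ F) x 0 - 1 * x 0| ≤ (C * K ^ 2 + C) * x 0 ^ 2 := by
    intro x hx
    have hxw : x ∈ Strip d w' := show |x 0| < w' from lt_of_lt_of_le hx hw₂'
    have a1 := hb x hxw
    have a2 := hb (F x) (hFw x hx)
    have a3 := hFx x hxw
    constructor
    · have e1 : (F ∘ F) x - (x + (α + α)) = (F (F x) - (F x + α)) + (F x - (x + α)) := by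
        simp only [Function.comp_apply]
        abel
      rw [e1]
      refine (norm_add_le _ _).trans ?_
      have e2 : C * |F x 0| ≤ C * K ^ 2 * |x 0| := by
        have : K * |x 0| ≤ K ^ 2 * |x 0| := by
          apply mul_le_mul_of_nonneg_right _ (abs_nonneg _)
          nlinarith
        nlinarith
      nlinarith [a1.1, a2.1]
    · have e1 : (F ∘ F) x 0 - 1 * x 0 = (F (F x) 0 - -1 * F x 0) - (F x 0 - -1 * x 0) := by
        simp only [Function.comp_apply]
        ring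
      rw [e1]
      refine (abs_sub _ _).trans ?_
      have e2 : C * F x 0 ^ 2 ≤ C * K ^ 2 * x 0 ^ 2 := by
        have h4 : |F x 0| ^ 2 ≤ (K * |x 0|) ^ 2 := pow_le_pow_left₀ (abs_nonneg _) a3 2
        rw [sq_abs, mul_pow, sq_abs] at h4
        nlinarith
      nlinarith [a1.2, a2.2]
  obtain ⟨w₃, C₃, z₁, hw₃, hz⟩ := pos_case h2 d w₁ (α + α) (F ∘ F) hFF (dio_double d α hD) w₂
    (C * K ^ 2 + C) hw₂0 (min_le_left _ _) (by positivity) hb2 N hN
  have hw₃0 := hz.pos
  have hC₃ := hz.C_pos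
  set w₄ : ℝ := min w₃ w' with hw₄
  have hw₄0 : 0 < w₄ := lt_min hw₃0 hw'
  let χ : ContDiffBump (0 : ℝ) := ⟨w₄ / 4, w₄ / 2, by positivity, by linarith⟩
  have hχ1 : ∀ t : ℝ, |t| ≤ w₄ / 4 → χ t = 1 := by
    intro t ht
    apply χ.one_of_mem_closedBall
    rw [mem_closedBall, Real.dist_eq, sub_zero]
    exact ht
  have hχ0 : ∀ t : ℝ, w₄ / 2 ≤ |t| → χ t = 0 := by
    intro t ht
    apply χ.zero_of_le_dist
    rw [Real.dist_eq, sub_zero]
    exact ht
  have hw₄w : w₄ ≤ w := (min_le_right _ _).trans hw'w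
  have hsm : ContDiff ℝ ∞ (fun x : E (d + 1) => χ (x 0) * z₁ (F x)) := by
    rw [contDiff_iff_contDiffAt]
    intro x
    by_cases hx : |x 0| < w
    · have ho : IsOpen (Strip d w) :=
        isOpen_lt ((contDiff_zero d).continuous.abs) continuous_const
      have hFat : ContDiffAt ℝ ∞ F x := hF.smooth.contDiffAt (ho.mem_nhds hx)
      exact (χ.contDiff.contDiffAt.comp x (contDiff_zero d).contDiffAt).mul
        (hz.smooth.contDiffAt.comp x hFat)
    · have hx := not_lt.1 hx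
      have ho : IsOpen {y : E (d + 1) | w₄ / 2 < |y 0|} :=
        isOpen_lt continuous_const ((contDiff_zero d).continuous.abs)
      have he : (fun x : E (d + 1) => χ (x 0) * z₁ (F x)) =ᶠ[𝓝 x] fun _ => 0 := by
        filter_upwards [ho.mem_nhds (show w₄ / 2 < |x 0| by linarith)] with y hy
        rw [hχ0 _ (le_of_lt hy), zero_mul]
      exact contDiffAt_const.congr_of_eventuallyEq he
  set wf : ℝ := w₄ / (4 * K) with hwf
  have hwf0 : 0 < wf := by positivity
  have hwf4 : wf ≤ w₄ / 4 := by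
    rw [hwf]
    apply div_le_div_of_nonneg_left hw₄0.le (by norm_num)
    linarith
  have hin : ∀ x ∈ Strip d wf, |x 0| < w₄ / 4 ∧ |F x 0| < w₄ / 4 := by
    intro x hx
    have hx' : |x 0| < wf := hx
    have b1 : |x 0| < w₄ / 4 := hx'.trans_le hwf4
    refine ⟨b1, ?_⟩
    have b2 := hFx x (show |x 0| < w' by linarith [min_le_right w₃ w'])
    have b3 : K * |x 0| < K * wf := mul_lt_mul_of_pos_left hx' hK0
    have b4 : K * wf = w₄ / 4 := by
      rw [hwf]
      field_simp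
    linarith
  refine ⟨wf, C + C₃ * (1 + K ^ 2), -1, fun x => (z₁ x - χ (x 0) * z₁ (F x)) / 2, by linarith, ?_⟩
  have h34 : w₄ ≤ w₃ := min_le_left _ _
  have h4' : w₄ ≤ w' := min_le_right _ _
  refine
    { sign := Or.inr rfl
      pos := hwf0
      C_pos := by positivity
      smooth := (hz.smooth.sub hsm).div_const 2
      per := ?_
      first := ?_
      inv := ?_
      lip := ?_
      norm := ?_ }
  · intro x v hv
    show (z₁ (x + v) - χ ((x + v) 0) * z₁ (F (x + v))) / 2 = (z₁ x - χ (x 0) * z₁ (F x)) / 2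
    have e0 : (x + v) 0 = x 0 := by rw [PiLp.add_apply, hv.1, add_zero]
    rw [e0, hz.per x v hv]
    by_cases hx : |x 0| < w
    · rw [hF.equi x hx v hv, hz.per (F x) v hv]
    · have hx := not_lt.1 hx
      rw [hχ0 _ (by linarith : w₄ / 2 ≤ |x 0|), zero_mul, zero_mul]
  · intro x hx
    obtain ⟨c1, c2⟩ := hin x hx
    show |(z₁ x - χ (x 0) * z₁ (F x)) / 2 - x 0| ≤ _
    rw [hχ1 _ c1.le, one_mul]
    have d1 := hz.first x (show |x 0| < w₃ by linarith)
    have d2 := hz.first (F x) (show |F x 0| < w₃ by linarith)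
    have d3 := (hb x (show |x 0| < w' by linarith)).2
    have d4 := hFx x (show |x 0| < w' by linarith)
    have d5 : F x 0 ^ 2 ≤ K ^ 2 * x 0 ^ 2 := by
      have h4 : |F x 0| ^ 2 ≤ (K * |x 0|) ^ 2 := pow_le_pow_left₀ (abs_nonneg _) d4 2
      rwa [sq_abs, mul_pow, sq_abs] at h4
    have d6 : C₃ * F x 0 ^ 2 ≤ C₃ * (K ^ 2 * x 0 ^ 2) := mul_le_mul_of_nonneg_left d5 hC₃.le
    have d7 : 0 ≤ C₃ * K ^ 2 * x 0 ^ 2 := by positivity
    have d8 : 0 ≤ C₃ * x 0 ^ 2 := by positivity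
    have d9 : 0 ≤ C * x 0 ^ 2 := by positivity
    rw [abs_le] at d1 d2 d3 ⊢
    constructor <;> nlinarith [d1.1, d1.2, d2.1, d2.2, d3.1, d3.2]
  · intro x hx
    obtain ⟨c1, c2⟩ := hin x hx
    show |(z₁ (F x) - χ (F x 0) * z₁ (F (F x))) / 2 -
      -1 * ((z₁ x - χ (x 0) * z₁ (F x)) / 2)| ≤ _
    rw [hχ1 _ c1.le, hχ1 _ c2.le, one_mul, one_mul]
    have d1 := hz.inv x (show |x 0| < w₃ by linarith)
    simp only [Function.comp_apply, one_mul] at d1
    have e1 : (z₁ (F x) - z₁ (F (F x))) / 2 - -1 * ((z₁ x - z₁ (F x)) / 2) =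
        -((z₁ (F (F x)) - z₁ x) / 2) := by ring
    rw [e1, abs_neg, abs_div]
    have d2 : 0 ≤ |x 0| ^ (N + 1) := by positivity
    have d3 : 0 ≤ C₃ * |x 0| ^ (N + 1) := by positivity
    have d4 : 0 ≤ C * |x 0| ^ (N + 1) := by positivity
    have d5 : 0 ≤ C₃ * K ^ 2 * |x 0| ^ (N + 1) := by positivity
    have d6 : |(2 : ℝ)| = 2 := by norm_num
    rw [d6]
    nlinarith
  · intro x hx
    obtain ⟨c1, c2⟩ := hin x hx
    have d1 := (hb x (show |x 0| < w' by linarith)).1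
    have d2 : 0 ≤ C₃ * (1 + K ^ 2) * |x 0| := by positivity
    nlinarith
  · intro x hx
    obtain ⟨c1, c2⟩ := hin x hx
    have d1 := (hb x (show |x 0| < w' by linarith)).2
    have d2 : 0 ≤ C₃ * (1 + K ^ 2) * x 0 ^ 2 := by positivity
    nlinarith

end Pool.Agent.PalT
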