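import Pool.Agent.PalT.TargetsF

/-!
# ZEXF: almost invariant functions for vector fields exist
-/

set_option autoImplicit false

open scoped Manifold ContDiff Topology
open MeasureTheory Set Filter Bundle Asymptotics Metric

namespace Pool.Agent.PalT

open Pool.Agent.Pal Pool.Agent.Palis Pool.Agent.PalF

theorem zexf (h1 : T_FIRSTF) (h2 : T_ZSTEPF) : T_ZEXF := by
  intro d N w om Y hY hD hN
  induction N, hN using Nat.le_induction with
  | base =>
    obtain ⟨w', C, hw', hw, hC, hb⟩ := h1 d w om Y hY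
    refine ⟨w', C, fun x => x 0, hw, ?_⟩
    have hd : ∀ x : E (d + 1), HasFDerivAt (fun x : E (d + 1) => x 0)
        (EuclideanSpace.proj (0 : Fin (d + 1)) : E (d + 1) →L[ℝ] ℝ) x := fun x =>
      (EuclideanSpace.proj (0 : Fin (d + 1)) : E (d + 1) →L[ℝ] ℝ).hasFDerivAt
    refine ⟨hw', hC, by fun_prop, ?_, ?_, ?_, fun x hx => (hb x hx).1, fun x hx => (hb x hx).2⟩
    · intro x v hv
      show (x + v) 0 = x 0
      rw [PiLp.add_apply, hv.1, add_zero]
    · intro x _
      rw [sub_self, abs_zero]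
      positivity
    · intro x hx
      rw [(hd x).fderiv]
      show |Y x 0| ≤ C * |x 0| ^ 2
      rw [sq_abs]
      exact (hb x hx).2
  | succ N hN ih =>
    obtain ⟨w', C, z, hw, hz⟩ := ih
    obtain ⟨w'', C', z', hw'', hz'⟩ := h2 d N w w' C om Y z hY hD hN hw hz
    exact ⟨w'', C', z', hw'', hz'⟩

end Pool.Agent.PalT
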