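import Mathlib
import Pool.Agent.PalT.Targets

/-!
# Tori of codimension one: one step of the construction of the almost invariant function
-/

set_option autoImplicit false

open Set MeasureTheory Filter Topology
open scoped Manifold ContDiff

namespace Pool.Agent.PalT

open Pool.Agent.Pal

namespace ZSTEP_

/-- continuous periodic functions are bounded -/
theorem per_bdd {d : ℕ} {G : Type} [NormedAddCommGroup G] (f : (Fin d → ℝ) → G)
    (hf : Continuous f) (hp : ∀ (x : Fin d → ℝ) (k : Fin d → ℤ), f (x + fun i => (k i : ℝ)) = f x) :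
    ∃ M : ℝ, 0 ≤ M ∧ ∀ x, ‖f x‖ ≤ M := by
  obtain ⟨M, hM⟩ := (isCompact_Icc (a := (0 : Fin d → ℝ)) (b := 1)).exists_bound_of_continuousOn
    hf.continuousOn
  have h0 : ∀ x, ‖f x‖ ≤ M := by
    intro x
    have h1 := hp (fun i => Int.fract (x i)) (fun i => ⌊x i⌋)
    have h2 : ((fun i => Int.fract (x i)) + fun i => ((⌊x i⌋ : ℤ) : ℝ)) = x := by
      funext i
      exact Int.fract_add_floor (x i)
    rw [h2] at h1
    rw [h1]
    refine hM _ ⟨fun i => Int.fract_nonneg _, fun i => (Int.fract_lt_one _).le⟩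
  exact ⟨M, (norm_nonneg (f 0)).trans (h0 0), h0⟩

/-- smooth periodic functions are Lipschitz -/
theorem per_lip {d : ℕ} (c : (Fin d → ℝ) → ℝ) (hc : ContDiff ℝ ∞ c)
    (hp : ∀ (x : Fin d → ℝ) (k : Fin d → ℤ), c (x + fun i => (k i : ℝ)) = c x) :
    ∃ L : ℝ, 0 ≤ L ∧ ∀ x y, |c x - c y| ≤ L * ‖x - y‖ := by
  have hcd : Differentiable ℝ c := hc.differentiable (by simp)
  have hfd : Continuous (fderiv ℝ c) := hc.continuous_fderiv (by simp)
  obtain ⟨L, hL0, hL⟩ := per_bdd (fderiv ℝ c) hfd (fun x k => by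
    rw [← fderiv_comp_add_right]
    congr 1
    funext y
    exact hp y k)
  refine ⟨L, hL0, fun x y => ?_⟩
  exact convex_univ.norm_image_sub_le_of_norm_fderiv_le (fun z _ => hcd z) (fun z _ => hL z)
    (mem_univ y) (mem_univ x)

theorem th_contDiff {d : ℕ} : ContDiff ℝ ∞ (th : E (d + 1) → Fin d → ℝ) := by
  rw [contDiff_pi]
  intro i
  exact (EuclideanSpace.proj (𝕜 := ℝ) i.succ).contDiff

theorem zero_contDiff {d : ℕ} : ContDiff ℝ ∞ (fun x : E (d + 1) => x 0) :=
  (EuclideanSpace.proj (𝕜 := ℝ) (0 : Fin (d + 1))).contDiff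

theorem th_add {d : ℕ} (x y : E (d + 1)) : th (x + y) = th x + th y := rfl

theorem th_norm {d : ℕ} (x : E (d + 1)) : ‖th x‖ ≤ ‖x‖ := by
  rw [pi_norm_le_iff_of_nonneg (norm_nonneg x)]
  intro i
  exact PiLp.norm_apply_le x i.succ

/-- the angles of a lattice vector are integers -/
theorem th_lat {d : ℕ} {v : E (d + 1)} (hv : v ∈ Lat d) : ∃ k : Fin d → ℤ,
    th v = fun i => (k i : ℝ) := by
  choose k hk using hv.2
  exact ⟨fun i => k i.succ, funext fun i => hk i.succ⟩

/-- differences of powers -/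
theorem pow_diff (N : ℕ) (a b M : ℝ) (ha : |a| ≤ M) (hb : |b| ≤ M) :
    |a ^ (N + 1) - b ^ (N + 1)| ≤ (N + 1) * |a - b| * M ^ N := by
  have hM : 0 ≤ M := (abs_nonneg a).trans ha
  induction N with
  | zero => simp
  | succ N ih =>
    have e : a ^ (N + 1 + 1) - b ^ (N + 1 + 1) =
        a * (a ^ (N + 1) - b ^ (N + 1)) + (a - b) * b ^ (N + 1) := by ring
    rw [e]
    refine (abs_add_le _ _).trans ?_
    rw [abs_mul, abs_mul, abs_pow]
    have h1 : |a| * |a ^ (N + 1) - b ^ (N + 1)| ≤ M * ((N + 1) * |a - b| * M ^ N) :=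
      mul_le_mul ha ih (abs_nonneg _) hM
    have h2 : |a - b| * |b| ^ (N + 1) ≤ |a - b| * M ^ (N + 1) :=
      mul_le_mul_of_nonneg_left (pow_le_pow_left₀ (abs_nonneg b) hb _) (abs_nonneg _)
    push_cast
    calc |a| * |a ^ (N + 1) - b ^ (N + 1)| + |a - b| * |b| ^ (N + 1) ≤
          M * ((N + 1) * |a - b| * M ^ N) + |a - b| * M ^ (N + 1) := add_le_add h1 h2
      _ = ((N : ℝ) + 1 + 1) * |a - b| * M ^ (N + 1) := by ring

end ZSTEP_

open ZSTEP_ in
theorem zstep (h1 : T_TAYZ) (h2 : T_MEANZ) (h3 : T_COHD) : T_ZSTEP := by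
  intro d N w w' C α F z hF hD hN hw hz
  have hsub : ∀ x ∈ Strip d w', x ∈ Strip d w := fun x hx => lt_of_lt_of_le hx hw
  -- the Taylor coefficient
  obtain ⟨b, w₁, C₁, hb, hw1, hw1w, hC1, hbp, hbu⟩ := h1 d (N + 1) w' C
    (fun x => z (F x) - z x) hz.pos
    ((hz.smooth.comp_contDiffOn (hF.smooth.mono hsub)).sub hz.smooth.contDiffOn)
    (fun x hx v hv => by
      rw [hF.equi x (hsub x hx) v hv, hz.per _ v hv, hz.per _ v hv])
    (fun x hx => by
      have := hz.inv x hx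
      rwa [one_mul] at this)
  have hsub1 : ∀ x ∈ Strip d w₁, x ∈ Strip d w' := fun x hx => lt_of_lt_of_le hx hw1w
  -- its mean
  have hmean := h2 d N w w₁ (max C C₁) α F z b hF hN hw1 (hw1w.trans hw)
    (lt_of_lt_of_le hC1 (le_max_right _ _)) hz.smooth hz.per hb.continuous
    (fun x hx => (hz.first x (hsub1 x hx)).trans
      (mul_le_mul_of_nonneg_right (le_max_left _ _) (sq_nonneg _)))
    (fun x hx => by
      have := hz.norm x (hsub1 x hx)
      rw [one_mul] at this
      exact this.trans (mul_le_mul_of_nonneg_right (le_max_left _ _) (sq_nonneg _)))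
    (fun x hx => (hbu x hx).trans
      (mul_le_mul_of_nonneg_right (le_max_right _ _) (pow_nonneg (abs_nonneg _) _)))
  -- the cohomological equation
  obtain ⟨c, hc, hcp, hcb⟩ := h3 d (th α) (fun y => -b y) hD hb.neg
    (fun x k => by rw [hbp]) (by
      rw [integral_neg, hmean, neg_zero])
  obtain ⟨M, hM0, hM⟩ := per_bdd c hc.continuous hcp
  obtain ⟨L, hL0, hL⟩ := per_lip c hc hcp
  have hC := hz.C_pos
  set K : ℝ := M * ((N + 1) * C * (1 + C) ^ N) with hK
  have hK0 : 0 ≤ K := by positivity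
  refine ⟨min w₁ 1, C + M + C₁ + K + L * C, fun x => z x + c (th x) * x 0 ^ (N + 1),
    (min_le_left _ _).trans (hw1w.trans hw), ?_⟩
  have hS1 : ∀ x ∈ Strip d (min w₁ 1), x ∈ Strip d w₁ ∧ |x 0| ≤ 1 := by
    intro x hx
    have hx' : |x 0| < min w₁ 1 := hx
    exact ⟨show |x 0| < w₁ from lt_of_lt_of_le hx' (min_le_left _ _),
      (lt_of_lt_of_le hx' (min_le_right _ _)).le⟩
  have hLC : 0 ≤ L * C := by positivity
  have hbig : ∀ t : ℝ, 0 ≤ t → C * t ≤ (C + M + C₁ + K + L * C) * t := fun t ht =>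
    mul_le_mul_of_nonneg_right (by linarith) ht
  refine ⟨Or.inl rfl, lt_min hw1 one_pos, by positivity, ?_, ?_, ?_, ?_, ?_, ?_⟩
  · exact hz.smooth.add ((hc.comp th_contDiff).mul (zero_contDiff.pow (N + 1)))
  · intro x v hv
    obtain ⟨k, hk⟩ := th_lat hv
    have e1 : (x + v) 0 = x 0 := by
      show x 0 + v 0 = x 0
      rw [hv.1, add_zero]
    show z (x + v) + c (th (x + v)) * (x + v) 0 ^ (N + 1) = _
    rw [hz.per x v hv, th_add, hk, hcp, e1]
  · intro x hx
    obtain ⟨hx1, hx2⟩ := hS1 x hx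
    have e : z x + c (th x) * x 0 ^ (N + 1) - x 0 = (z x - x 0) + c (th x) * x 0 ^ (N + 1) := by
      ring
    show |z x + c (th x) * x 0 ^ (N + 1) - x 0| ≤ _
    rw [e]
    refine (abs_add_le _ _).trans ?_
    have h4 := hz.first x (hsub1 x hx1)
    have h5 : |c (th x) * x 0 ^ (N + 1)| ≤ M * x 0 ^ 2 := by
      rw [abs_mul, abs_pow]
      have h6 : |x 0| ^ (N + 1) ≤ |x 0| ^ 2 :=
        pow_le_pow_of_le_one (abs_nonneg _) hx2 (by omega)
      rw [sq_abs] at h6
      exact mul_le_mul (hM _) h6 (pow_nonneg (abs_nonneg _) _) hM0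
    calc |z x - x 0| + |c (th x) * x 0 ^ (N + 1)| ≤ C * x 0 ^ 2 + M * x 0 ^ 2 := add_le_add h4 h5
      _ = (C + M) * x 0 ^ 2 := by ring
      _ ≤ (C + M + C₁ + K + L * C) * x 0 ^ 2 :=
        mul_le_mul_of_nonneg_right (by linarith) (sq_nonneg _)
  · intro x hx
    obtain ⟨hx1, hx2⟩ := hS1 x hx
    have hxw := hsub1 x hx1
    set t : ℝ := |x 0| with ht
    have ht0 : 0 ≤ t := abs_nonneg _
    have hcx := hcb (th x)
    have e : z (F x) + c (th (F x)) * F x 0 ^ (N + 1) - 1 * (z x + c (th x) * x 0 ^ (N + 1)) =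
        (z (F x) - z x - b (th x) * x 0 ^ (N + 1)) +
        c (th (F x)) * (F x 0 ^ (N + 1) - x 0 ^ (N + 1)) +
        (c (th (F x)) - c (th x + th α)) * x 0 ^ (N + 1) := by
      have h4 : c (th x) = c (th x + th α) + b (th x) := by linarith
      rw [h4]
      ring
    show |z (F x) + c (th (F x)) * F x 0 ^ (N + 1) - 1 * (z x + c (th x) * x 0 ^ (N + 1))| ≤ _
    rw [e]
    have hnorm := hz.norm x hxw
    rw [one_mul] at hnorm
    have hsq : x 0 ^ 2 = t ^ 2 := (sq_abs _).symm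
    have hF0 : |F x 0| ≤ (1 + C) * t := by
      have h4 : |F x 0| ≤ |F x 0 - x 0| + |x 0| := by
        have := abs_add_le (F x 0 - x 0) (x 0)
        rwa [sub_add_cancel] at this
      have h5 : C * t ^ 2 ≤ C * t := by
        have : t ^ 2 ≤ t := by nlinarith
        exact mul_le_mul_of_nonneg_left this hC.le
      rw [hsq] at hnorm
      calc |F x 0| ≤ C * t ^ 2 + t := h4.trans (add_le_add hnorm le_rfl)
        _ ≤ C * t + t := by linarith
        _ = (1 + C) * t := by ring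
    have hx0 : |x 0| ≤ (1 + C) * t := by
      rw [← ht]
      nlinarith
    have hA : |z (F x) - z x - b (th x) * x 0 ^ (N + 1)| ≤ C₁ * t ^ (N + 1 + 1) := hbu x hx1
    have hB : |c (th (F x)) * (F x 0 ^ (N + 1) - x 0 ^ (N + 1))| ≤ K * t ^ (N + 1 + 1) := by
      rw [abs_mul]
      have h4 := pow_diff N (F x 0) (x 0) ((1 + C) * t) hF0 hx0
      have h5 : ((N : ℝ) + 1) * |F x 0 - x 0| * ((1 + C) * t) ^ N ≤
          ((N : ℝ) + 1) * (C * t ^ 2) * ((1 + C) * t) ^ N := by
        rw [hsq] at hnorm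
        exact mul_le_mul_of_nonneg_right (mul_le_mul_of_nonneg_left hnorm (by positivity))
          (by positivity)
      calc |c (th (F x))| * |F x 0 ^ (N + 1) - x 0 ^ (N + 1)| ≤
            M * (((N : ℝ) + 1) * (C * t ^ 2) * ((1 + C) * t) ^ N) :=
            mul_le_mul (hM _) (h4.trans h5) (abs_nonneg _) hM0
        _ = K * t ^ (N + 1 + 1) := by
            rw [hK, mul_pow]
            ring
    have hC' : |(c (th (F x)) - c (th x + th α)) * x 0 ^ (N + 1)| ≤ L * C * t ^ (N + 1 + 1) := by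
      rw [abs_mul, abs_pow, ← ht]
      have h4 := hL (th (F x)) (th x + th α)
      have h5 : ‖th (F x) - (th x + th α)‖ ≤ C * t := by
        have h6 : th (F x) - (th x + th α) = th (F x - (x + α)) := rfl
        rw [h6]
        exact (th_norm _).trans (hz.lip x hxw)
      calc |c (th (F x)) - c (th x + th α)| * t ^ (N + 1) ≤ (L * (C * t)) * t ^ (N + 1) :=
            mul_le_mul_of_nonneg_right (h4.trans (mul_le_mul_of_nonneg_left h5 hL0))
              (by positivity)
        _ = L * C * t ^ (N + 1 + 1) := by ring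
    have hsum := (abs_add_le (z (F x) - z x - b (th x) * x 0 ^ (N + 1) +
      c (th (F x)) * (F x 0 ^ (N + 1) - x 0 ^ (N + 1)))
      ((c (th (F x)) - c (th x + th α)) * x 0 ^ (N + 1))).trans
      (add_le_add ((abs_add_le _ _).trans (add_le_add hA hB)) hC')
    refine hsum.trans ?_
    have h7 : 0 ≤ t ^ (N + 1 + 1) := by positivity
    nlinarith [mul_nonneg (add_nonneg hC.le hM0) h7]
  · intro x hx
    exact (hz.lip x (hsub1 x (hS1 x hx).1)).trans (hbig _ (abs_nonneg _))
  · intro x hx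
    exact (hz.norm x (hsub1 x (hS1 x hx).1)).trans (hbig _ (sq_nonneg _))

end Pool.Agent.PalT
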