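import Pool.Agent.PalT.TargetsF

/-!
# ZSTEPF: one step of the construction of the almost invariant function, for vector fields
-/

set_option autoImplicit false

open scoped Manifold ContDiff Topology
open MeasureTheory Set Filter Bundle Asymptotics Metric

namespace Pool.Agent.PalT

open Pool.Agent.Pal Pool.Agent.Palis Pool.Agent.PalF

namespace ZSTEPF_

lemma strip_open (d : ℕ) (w : ℝ) : IsOpen (Strip d w) := by
  have h : Continuous fun x : E (d + 1) => |x 0| := by fun_prop
  exact isOpen_lt h continuous_const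

/-- continuous periodic functions are bounded -/
lemma per_bdd {d : ℕ} {G : Type} [NormedAddCommGroup G] {g : (Fin d → ℝ) → G}
    (hg : Continuous g)
    (hp : ∀ (x : Fin d → ℝ) (k : Fin d → ℤ), g (x + fun i => (k i : ℝ)) = g x) :
    ∃ K : ℝ, 0 < K ∧ ∀ x, ‖g x‖ ≤ K := by
  obtain ⟨K, hK⟩ := (isCompact_Icc (a := (0 : Fin d → ℝ)) (b := 1)).exists_bound_of_continuousOn
    hg.continuousOn
  refine ⟨max K 1, lt_max_of_lt_right one_pos, fun x => ?_⟩
  have h1 : g x = g fun i => Int.fract (x i) := by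
    rw [← hp (fun i => Int.fract (x i)) fun i => ⌊x i⌋]
    congr 1
    funext i
    exact (Int.fract_add_floor (x i)).symm
  rw [h1]
  refine (hK _ ⟨fun i => Int.fract_nonneg _, fun i => (Int.fract_lt_one _).le⟩).trans
    (le_max_left _ _)

/-- the angular coordinates as a linear map -/
noncomputable def thL (d : ℕ) : E (d + 1) →L[ℝ] (Fin d → ℝ) :=
  ContinuousLinearMap.pi fun i => (EuclideanSpace.proj i.succ : E (d + 1) →L[ℝ] ℝ)

lemma thL_apply {d : ℕ} (x : E (d + 1)) : thL d x = th x := rfl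

lemma norm_th {d : ℕ} (x : E (d + 1)) : ‖th x‖ ≤ ‖x‖ := by
  rw [pi_norm_le_iff_of_nonneg (norm_nonneg _)]
  intro i
  exact PiLp.norm_apply_le x i.succ

end ZSTEPF_

open ZSTEPF_

theorem zstepf (h1 : T_TAYZ) (h2 : T_MEANF) (h3 : T_COHF) : T_ZSTEPF := by
  intro d N w w' C om Y z hY hD hN hw hz
  have hC := hz.C_pos
  have hzd : Differentiable ℝ z := hz.smooth.differentiable (by simp)
  set u : E (d + 1) → ℝ := fun x => fderiv ℝ z x (Y x) with hu
  have hYs : ContDiffOn ℝ ∞ Y (Strip d w') :=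
    hY.smooth.mono fun x hx => lt_of_lt_of_le (show |x 0| < w' from hx) hw
  have hfz : ContDiff ℝ ∞ (fderiv ℝ z) := hz.smooth.fderiv_right (by simp)
  have hus : ContDiffOn ℝ ∞ u (Strip d w') := hfz.contDiffOn.clm_apply hYs
  have hfper : ∀ x, ∀ v ∈ Lat d, fderiv ℝ z (x + v) = fderiv ℝ z x := by
    intro x v hv
    have h4 : (fun x => z (x + v)) = z := funext fun x => hz.per x v hv
    rw [← fderiv_comp_add_right, h4]
  have huper : ∀ x ∈ Strip d w', ∀ v ∈ Lat d, u (x + v) = u x := by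
    intro x hx v hv
    show fderiv ℝ z (x + v) (Y (x + v)) = fderiv ℝ z x (Y x)
    rw [hfper x v hv, hY.per x (lt_of_lt_of_le (show |x 0| < w' from hx) hw) v hv]
  obtain ⟨b, w₁, C₁, hb, hw₁, hw₁', hC₁, hbper, hbu⟩ :=
    h1 d (N + 1) w' C u hz.pos hus huper hz.inv
  have hmean : ∫ y in Icc (0 : Fin d → ℝ) 1, b y = 0 := by
    refine h2 d N w w₁ (max C C₁) om Y z b hY hN hw₁ (hw₁'.trans hw) (lt_max_of_lt_left hC)
      hz.smooth hz.per hb.continuous ?_ ?_
    · intro x hx
      refine (hz.first x (lt_of_lt_of_le (show |x 0| < w₁ from hx) hw₁')).trans ?_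
      exact mul_le_mul_of_nonneg_right (le_max_left _ _) (sq_nonneg _)
    · intro x hx
      refine (hbu x hx).trans ?_
      exact mul_le_mul_of_nonneg_right (le_max_right _ _) (by positivity)
  obtain ⟨c, hc, hcper, hcb⟩ := h3 d (th om) (fun x => -b x) hD hb.neg
    (fun x k => by rw [hbper]) (by rw [integral_neg, hmean, neg_zero])
  have hcd : Differentiable ℝ c := hc.differentiable (by simp)
  have hdper : ∀ (x : Fin d → ℝ) (k : Fin d → ℤ),
      fderiv ℝ c (x + fun i => (k i : ℝ)) = fderiv ℝ c x := by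
    intro x k
    have h4 : (fun x => c (x + fun i => (k i : ℝ))) = c := funext fun x => hcper x k
    rw [← fderiv_comp_add_right, h4]
  obtain ⟨K, hK, hcK⟩ := per_bdd hc.continuous hcper
  obtain ⟨K', hK', hdK⟩ := per_bdd (hc.continuous_fderiv (by simp)) hdper
  set w'' : ℝ := min w₁ 1 with hw''
  have hw''0 : 0 < w'' := lt_min hw₁ one_pos
  set C' : ℝ := C₁ + K' * C + K * (N + 1) * C + C + K with hC'
  have hsub : ∀ x ∈ Strip d w'', x ∈ Strip d w₁ ∧ x ∈ Strip d w' ∧ |x 0| ≤ 1 := by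
    intro x hx
    have h4 : |x 0| < min w₁ 1 := hx
    have h5 := lt_of_lt_of_le h4 (min_le_left _ _)
    exact ⟨h5, lt_of_lt_of_le h5 hw₁', (lt_of_lt_of_le h4 (min_le_right _ _)).le⟩
  have hNK : 0 ≤ K * (N + 1) * C := by positivity
  have hKC : 0 ≤ K' * C := by positivity
  refine ⟨w'', C', fun x => z x + c (th x) * x 0 ^ (N + 1),
    (min_le_left _ _).trans (hw₁'.trans hw), ?_⟩
  have hcth : ContDiff ℝ ∞ fun x : E (d + 1) => c (th x) := hc.comp (thL d).contDiff
  have hx0 : ContDiff ℝ ∞ fun x : E (d + 1) => x 0 := by fun_prop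
  refine ⟨hw''0, by positivity, ?_, ?_, ?_, ?_, ?_, ?_⟩
  · exact hz.smooth.add (hcth.mul (hx0.pow _))
  · intro x v hv
    have hv' : (x + v) 0 = x 0 := by rw [PiLp.add_apply, hv.1, add_zero]
    have hth : ∃ k : Fin d → ℤ, th (x + v) = th x + fun i => (k i : ℝ) := by
      have h4 : ∀ i : Fin d, ∃ k : ℤ, v i.succ = k := fun i => hv.2 _
      choose k hk using h4
      refine ⟨k, funext fun i => ?_⟩
      show (x + v) i.succ = x i.succ + (k i : ℝ)
      rw [PiLp.add_apply, hk]
    obtain ⟨k, hk⟩ := hth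
    show z (x + v) + c (th (x + v)) * (x + v) 0 ^ (N + 1) = z x + c (th x) * x 0 ^ (N + 1)
    rw [hz.per x v hv, hv', hk, hcper]
  · intro x hx
    obtain ⟨hx1, hx2, hx3⟩ := hsub x hx
    have h4 := hz.first x hx2
    have h5 : |c (th x) * x 0 ^ (N + 1)| ≤ K * x 0 ^ 2 := by
      rw [abs_mul, abs_pow]
      have h6 : |x 0| ^ (N + 1) ≤ |x 0| ^ 2 :=
        pow_le_pow_of_le_one (abs_nonneg _) hx3 (by omega)
      rw [sq_abs] at h6
      have h7 := hcK (th x)
      rw [Real.norm_eq_abs] at h7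
      exact mul_le_mul h7 h6 (by positivity) hK.le
    have h6 : |z x + c (th x) * x 0 ^ (N + 1) - x 0| ≤ C * x 0 ^ 2 + K * x 0 ^ 2 := by
      have h7 : z x + c (th x) * x 0 ^ (N + 1) - x 0 =
          (z x - x 0) + c (th x) * x 0 ^ (N + 1) := by ring
      rw [h7]
      exact (abs_add_le _ _).trans (add_le_add h4 h5)
    refine h6.trans ?_
    rw [← add_mul]
    refine mul_le_mul_of_nonneg_right ?_ (sq_nonneg _)
    rw [hC']
    linarith
  · intro x hx
    obtain ⟨hx1, hx2, hx3⟩ := hsub x hx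
    have hYn := hz.lip x hx2
    have hY0 := hz.norm x hx2
    -- the derivative
    have hdc : HasFDerivAt (fun x : E (d + 1) => c (th x))
        ((fderiv ℝ c (th x)).comp (thL d)) x :=
      (hcd (th x)).hasFDerivAt.comp x (thL d).hasFDerivAt
    have hd0 : HasFDerivAt (fun x : E (d + 1) => x 0)
        (EuclideanSpace.proj (0 : Fin (d + 1)) : E (d + 1) →L[ℝ] ℝ) x :=
      (EuclideanSpace.proj (0 : Fin (d + 1)) : E (d + 1) →L[ℝ] ℝ).hasFDerivAt
    have hdz := ((hzd x).hasFDerivAt).add (hdc.mul (hd0.pow (N + 1)))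
    have he : fderiv ℝ (fun x : E (d + 1) => z x + c (th x) * x 0 ^ (N + 1)) x (Y x) =
        u x + (c (th x) * ((N + 1) * x 0 ^ N * Y x 0) +
          x 0 ^ (N + 1) * fderiv ℝ c (th x) (th (Y x))) := by
      have h4 : fderiv ℝ (fun x : E (d + 1) => z x + c (th x) * x 0 ^ (N + 1)) x = _ := hdz.fderiv
      rw [h4]
      simp [thL_apply, hu]
    have h5 : fderiv ℝ c (th x) (th (Y x)) =
        -b (th x) + fderiv ℝ c (th x) (th (Y x - om)) := by
      have h6 : th (Y x) = th om + th (Y x - om) := by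
        rw [← thL_apply, ← thL_apply, ← thL_apply, map_sub]
        abel
      rw [h6, map_add, hcb]
    rw [he, h5]
    have h6 : u x + (c (th x) * ((N + 1) * x 0 ^ N * Y x 0) +
        x 0 ^ (N + 1) * (-b (th x) + fderiv ℝ c (th x) (th (Y x - om)))) =
        (u x - b (th x) * x 0 ^ (N + 1)) + c (th x) * ((N + 1) * x 0 ^ N * Y x 0) +
        x 0 ^ (N + 1) * fderiv ℝ c (th x) (th (Y x - om)) := by ring
    rw [h6]
    have h7 : |c (th x) * ((N + 1) * x 0 ^ N * Y x 0)| ≤ K * (N + 1) * C * |x 0| ^ (N + 2) := by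
      rw [abs_mul, abs_mul, abs_mul, abs_pow, abs_of_nonneg (by positivity : (0 : ℝ) ≤ N + 1)]
      have h8 := hcK (th x)
      rw [Real.norm_eq_abs] at h8
      calc |c (th x)| * ((N + 1) * |x 0| ^ N * |Y x 0|)
          ≤ K * ((N + 1) * |x 0| ^ N * (C * x 0 ^ 2)) := by
            refine mul_le_mul h8 ?_ (by positivity) hK.le
            exact mul_le_mul_of_nonneg_left hY0 (by positivity)
        _ = K * (N + 1) * C * |x 0| ^ (N + 2) := by
            rw [← sq_abs (x 0)]
            ring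
    have h8 : |x 0 ^ (N + 1) * fderiv ℝ c (th x) (th (Y x - om))| ≤
        K' * C * |x 0| ^ (N + 2) := by
      rw [abs_mul, abs_pow]
      have h9 : |fderiv ℝ c (th x) (th (Y x - om))| ≤ K' * (C * |x 0|) := by
        refine ((fderiv ℝ c (th x)).le_opNorm _).trans ?_
        exact mul_le_mul (hdK _) ((norm_th _).trans hYn) (norm_nonneg _) hK'.le
      calc |x 0| ^ (N + 1) * |fderiv ℝ c (th x) (th (Y x - om))|
          ≤ |x 0| ^ (N + 1) * (K' * (C * |x 0|)) := mul_le_mul_of_nonneg_left h9 (by positivity)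
        _ = K' * C * |x 0| ^ (N + 2) := by ring
    have h9 : |u x - b (th x) * x 0 ^ (N + 1)| ≤ C₁ * |x 0| ^ (N + 2) := hbu x hx1
    have h10 := (abs_add_le ((u x - b (th x) * x 0 ^ (N + 1)) +
      c (th x) * ((N + 1) * x 0 ^ N * Y x 0)) (x 0 ^ (N + 1) *
        fderiv ℝ c (th x) (th (Y x - om)))).trans (add_le_add ((abs_add_le _ _).trans
          (add_le_add h9 h7)) h8)
    refine h10.trans ?_
    have h11 : (0 : ℝ) ≤ |x 0| ^ (N + 2) := by positivity
    show _ ≤ C' * |x 0| ^ (N + 2)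
    have h12 : C₁ + K * (N + 1) * C + K' * C ≤ C' := by
      rw [hC']
      linarith
    nlinarith
  · intro x hx
    obtain ⟨hx1, hx2, hx3⟩ := hsub x hx
    refine (hz.lip x hx2).trans (mul_le_mul_of_nonneg_right ?_ (abs_nonneg _))
    rw [hC']
    linarith
  · intro x hx
    obtain ⟨hx1, hx2, hx3⟩ := hsub x hx
    refine (hz.norm x hx2).trans (mul_le_mul_of_nonneg_right ?_ (sq_nonneg _))
    rw [hC']
    linarith

end Pool.Agent.PalT
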