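import Pool.Agent.PalT.MAINT
import Pool.Agent.PalT.MAINF
import Pool.Agent.PalT.COLL
import Pool.Agent.PalT.CONE
import Pool.Agent.PalT.CURV
import Pool.Agent.PalT.DER1
import Pool.Agent.PalT.DERE
import Pool.Agent.PalT.DIO
import Pool.Agent.PalT.EXT0
import Pool.Agent.PalT.EXTT
import Pool.Agent.PalT.FIRST
import Pool.Agent.PalT.FIRSTF
import Pool.Agent.PalT.FOU
import Pool.Agent.PalT.INTT
import Pool.Agent.PalT.LIFT
import Pool.Agent.PalT.LIFT2
import Pool.Agent.PalT.LIFTA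
import Pool.Agent.PalT.LIFTB
import Pool.Agent.PalT.LIFTF
import Pool.Agent.PalT.MEANF
import Pool.Agent.PalT.MEANZ
import Pool.Agent.PalT.MSM
import Pool.Agent.PalT.MST
import Pool.Agent.PalT.MTOOL
import Pool.Agent.PalT.NEART
import Pool.Agent.PalT.NORM
import Pool.Agent.PalT.NULLP
import Pool.Agent.PalT.PERST
import Pool.Agent.PalT.PROFT
import Pool.Agent.PalT.PUSH
import Pool.Agent.PalT.PUSHF
import Pool.Agent.PalT.QMF
import Pool.Agent.PalT.RADT
import Pool.Agent.PalT.ROBT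
import Pool.Agent.PalT.SADC
import Pool.Agent.PalT.SEP
import Pool.Agent.PalT.STEPA
import Pool.Agent.PalT.STEPC
import Pool.Agent.PalT.TAYZ
import Pool.Agent.PalT.TORF
import Pool.Agent.PalT.TRAPE
import Pool.Agent.PalT.TRAPZ
import Pool.Agent.PalT.TRI
import Pool.Agent.PalT.VOLC
import Pool.Agent.PalT.VOLT
import Pool.Agent.PalT.WANDER
import Pool.Agent.PalT.ZEX
import Pool.Agent.PalT.ZEXF
import Pool.Agent.PalT.ZSTEP
import Pool.Agent.PalT.ZSTEPF

/-!
# Tori of codimension one: the assembly up to the Fourier series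
-/

set_option autoImplicit false

open Set MeasureTheory Filter Topology Metric Asymptotics
open scoped Manifold ContDiff

namespace Pool.Agent.PalT

open Pool.Agent.Pal

theorem liftAll : T_LIFT := lift (lifta coll) (liftb coll intt (ext0 coll))

theorem mstAll : T_MST := mst wander (sadc cone) nullp

theorem zexOf (h : T_COHD) : T_ZEX := zex first (zstep tayz meanz h) lift2

theorem zexfOf (h : T_COHF) : T_ZEXF := zexf (firstf tayz) (zstepf tayz meanf h)

theorem maintOf (h : T_COHD) : T_MAINT :=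
  maint (stepa dio push (norm coll) (sep coll) (extt coll) (volt coll (extt coll)))
    (stepc perst neart mstAll) liftAll (zexOf h) proft radt msm (trape trapz)
    (dere der1) tri coll (extt coll) (volt coll (extt coll))

theorem mainfOf (h : T_COHF) (h' : T_KRO) : T_MAINF :=
  mainf dio (norm coll) pVOLC (curv coll) (liftf coll intt (ext0 coll)) (pushf coll intt)
    (qmf coll (ext0 coll)) (torf coll h' (curv coll)) (zexfOf h)

/-- Finitely many closeness conditions are robust. -/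
theorem robT_all (d : ℕ) (M : Type) [TopologicalSpace M] [ChartedSpace (E (d + 1)) M]
    [IsManifold 𝓘(ℝ, E (d + 1)) ∞ M] [T2Space M] (s : ℕ∞) (r : ℕ) (f : M → M)
    (hrs : (r : ℕ∞) ≤ s) (hf : IsDiffeo (d + 1) s f) (N : ℕ)
    (e e' : Fin N → OpenPartialHomeomorph M (E (d + 1))) (K : Fin N → Set M) (ε : ℝ)
    (h : ∀ i, e i ∈ Ch (d + 1) M ∧ e' i ∈ Ch (d + 1) M ∧ IsCompact (K i) ∧
      K i ⊆ (e i).source ∧ MapsTo f (K i) (e' i).source) :
    RobT d s r {g | ∀ i, CrClose r f g (e i) (e' i) (K i) ε} := by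
  intro w T hT w' hw' g hg hgd
  have h1 : ∀ i, ∃ δ : ℝ, 0 < δ ∧ ∀ L, ModT d w' L → Near r δ L →
      CrClose r f (extT w T L ∘ g) (e i) (e' i) (K i) ε := fun i =>
    robt coll d M s r f (e i) (e' i) (K i) ε hrs hf (h i).1 (h i).2.1 (h i).2.2.1
      (h i).2.2.2.1 (h i).2.2.2.2 w T hT w' hw' g (hg i) hgd
  choose δ hδ hL using h1
  obtain ⟨δ₀, hδ₀, hle⟩ : ∃ δ₀ : ℝ, 0 < δ₀ ∧ ∀ i, δ₀ ≤ δ i := by
    have : ∀ t : Finset (Fin N), ∃ δ₀ : ℝ, 0 < δ₀ ∧ ∀ i ∈ t, δ₀ ≤ δ i := by
      intro t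
      induction t using Finset.induction_on with
      | empty => exact ⟨1, one_pos, fun i hi => absurd hi (Finset.notMem_empty i)⟩
      | insert a t _ ih =>
        obtain ⟨δ₁, h1, h2⟩ := ih
        refine ⟨min δ₁ (δ a), lt_min h1 (hδ a), fun i hi => ?_⟩
        rcases Finset.mem_insert.1 hi with rfl | hi
        · exact min_le_right _ _
        · exact (min_le_left _ _).trans (h2 i hi)
    obtain ⟨δ₀, h1, h2⟩ := this Finset.univ
    exact ⟨δ₀, h1, fun i => h2 i (Finset.mem_univ i)⟩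
  exact ⟨δ₀, hδ₀, fun L hLm hLn i => hL i L hLm (near_mono (hle i) hLn)⟩

end Pool.Agent.PalT
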