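import Pool.Agent.PalT.Targets
import Pool.Agent.Pal.ROB
import Pool.Agent.Pal.RCOMP
import Pool.Agent.Pal.LCOMP
import Pool.Agent.Pal.EXT

/-!
# ROBT: closeness in the `C^r` topology is robust under modifications in collars
-/

set_option autoImplicit false

open Set MeasureTheory Filter Topology Metric Asymptotics
open scoped Manifold ContDiff

namespace Pool.Agent.PalT

open Pool.Agent.Pal

namespace ROBT_

open ROB_

theorem loc {n : ℕ} {M : Type} [TopologicalSpace M] [ChartedSpace (E n) M]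
    [IsManifold 𝓘(ℝ, E n) ∞ M] {s : ℕ∞} {r : ℕ} {f g : M → M}
    {e e' e₀ : OpenPartialHomeomorph M (E n)} {K K₁ : Set M} {ε : ℝ} (hrs : (r : ℕ∞) ≤ s)
    (hf : IsDiffeo n s f) (hgd : IsDiffeo n s g) (he : e ∈ Ch n M) (he' : e' ∈ Ch n M)
    (he₀ : e₀ ∈ Ch n M) (hK : IsCompact K) (hKe : K ⊆ e.source) (hfK : MapsTo f K e'.source)
    (hg : CrClose r f g e e' K ε) (cK₁ : IsCompact K₁) (hK₁K : K₁ ⊆ K)
    (hgK₁' : MapsTo g K₁ e₀.source) :
    ∃ δ : ℝ, 0 < δ ∧ ∀ L : E n → E n, ContDiff ℝ ∞ L → Near r δ L → ∀ ψ : M → M, ∀ x ∈ K₁,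
      (∀ᶠ p in 𝓝 (g x), ψ p = e₀.symm (L (e₀ p))) → ψ (g x) ∈ e'.source ∧ ∀ j ≤ r,
        ‖iteratedFDeriv ℝ j (e' ∘ (ψ ∘ g) ∘ e.symm) (e x) -
          iteratedFDeriv ℝ j (e' ∘ f ∘ e.symm) (e x)‖ < ε := by
  have h1 : T_RCOMP := rcomp
  have h2 : T_LCOMP := lcomp
  have h3 : T_DIFF := diff1
  have hgc : Continuous g := by
    obtain ⟨G, rfl⟩ := hgd
    exact G.continuous
  obtain ⟨hgK, hgε⟩ := hg
  have sg : ∀ (a a' : OpenPartialHomeomorph M (E n)) (x : M), a ∈ Ch n M → a' ∈ Ch n M →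
      x ∈ a.source → g x ∈ a'.source → ContDiffAt ℝ s (a' ∘ g ∘ a.symm) (a x) := by
    intro a a' x ha ha' hx hgx
    exact (h3 n M s).2.2.2 g 1 a a' x hgd ha ha' hx hgx
  have sf : ∀ (a a' : OpenPartialHomeomorph M (E n)) (x : M), a ∈ Ch n M → a' ∈ Ch n M →
      x ∈ a.source → f x ∈ a'.source → ContDiffAt ℝ s (a' ∘ f ∘ a.symm) (a x) := by
    intro a a' x ha ha' hx hgx
    exact (h3 n M s).2.2.2 f 1 a a' x hf ha ha' hx hgx
  have sτ : ∀ (a a' : OpenPartialHomeomorph M (E n)) (x : M), a ∈ Ch n M → a' ∈ Ch n M →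
      x ∈ a.source → x ∈ a'.source → ContDiffAt ℝ ∞ (a' ∘ a.symm) (a x) := by
    intro a a' x ha ha' hx hx'
    exact (h3 n M ⊤).2.2.2 id 0 a a' x ⟨Diffeomorph.refl _ _ _, rfl⟩ ha ha' hx hx'
  obtain ⟨ε₁, hε₁, hle⟩ := uniform_lt hK r
    (fun j x => ‖iteratedFDeriv ℝ j (e' ∘ g ∘ e.symm) (e x) -
      iteratedFDeriv ℝ j (e' ∘ f ∘ e.symm) (e x)‖) (by
      intro j hj x hx
      apply ContinuousAt.continuousWithinAt
      have hjs : (j : ℕ∞) ≤ s := le_trans (by exact_mod_cast hj) hrs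
      have c1 := cont_of_contDiffAt (sg e e' x he he' (hKe hx) (hgK hx)) hjs
      have c2 := cont_of_contDiffAt (sf e e' x he he' (hKe hx) (hfK hx)) hjs
      have c3 : ContinuousAt e x := e.continuousAt (hKe hx)
      exact ((c1.comp c3).sub (c2.comp c3)).norm) hgε
  have hK₁e : K₁ ⊆ e.source := fun x hx => hKe (hK₁K hx)
  have hgK₁ : g '' K₁ ⊆ e₀.source ∩ e'.source := by
    rintro _ ⟨x, hx, rfl⟩
    exact ⟨hgK₁' hx, hgK (hK₁K hx)⟩
  set v : E n → E n := e₀ ∘ g ∘ e.symm with hv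
  set τ : E n → E n := e' ∘ e₀.symm with hτ
  set Ω₀ : Set (E n) := e.target ∩ e.symm ⁻¹' (g ⁻¹' (e₀.source ∩ e'.source)) with hΩ₀
  have oΩ₀ : IsOpen Ω₀ := e.isOpen_inter_preimage_symm
    ((e₀.open_source.inter e'.open_source).preimage hgc)
  set Ωτ : Set (E n) := e₀.target ∩ e₀.symm ⁻¹' e'.source with hΩτ
  have oΩτ : IsOpen Ωτ := e₀.isOpen_inter_preimage_symm e'.open_source
  have cτ : ContDiffOn ℝ ∞ τ Ωτ := by
    intro y hy
    have h := sτ e₀ e' (e₀.symm y) he₀ he' (e₀.map_target hy.1) hy.2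
    rw [e₀.right_inv hy.1] at h
    exact h.contDiffWithinAt
  have cv : ContDiffOn ℝ r v Ω₀ := by
    intro y hy
    have h := sg e e₀ (e.symm y) he he₀ (e.map_target hy.1) hy.2.1
    rw [e.right_inv hy.1] at h
    exact (h.of_le (by exact_mod_cast hrs)).contDiffWithinAt
  have hKΩ : e '' K₁ ⊆ Ω₀ := by
    rintro _ ⟨x, hx, rfl⟩
    refine ⟨e.map_source (hK₁e hx), ?_⟩
    show g (e.symm (e x)) ∈ e₀.source ∩ e'.source
    rw [e.left_inv (hK₁e hx)]
    exact hgK₁ ⟨x, hx, rfl⟩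
  have cKe : IsCompact (e '' K₁) := cK₁.image_of_continuousOn (e.continuousOn.mono hK₁e)
  obtain ⟨δ₂, hδ₂, hl⟩ := h2 n r Ω₀ (e '' K₁) v ((ε - ε₁) / 2) oΩ₀ cKe hKΩ cv (by linarith)
  have hCΩ : e₀ '' (g '' K₁) ⊆ Ωτ := by
    rintro _ ⟨y, hy, rfl⟩
    refine ⟨e₀.map_source (hgK₁ hy).1, ?_⟩
    show e₀.symm (e₀ y) ∈ e'.source
    rw [e₀.left_inv (hgK₁ hy).1]
    exact (hgK₁ hy).2
  have cC₁ : IsCompact (e₀ '' (g '' K₁)) :=
    (cK₁.image hgc).image_of_continuousOn (e₀.continuousOn.mono fun y hy => (hgK₁ hy).1)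
  obtain ⟨δ, hδ, hr⟩ := h1 n r Ωτ (e₀ '' (g '' K₁)) τ δ₂ oΩτ cC₁ hCΩ cτ hδ₂
  refine ⟨δ, hδ, fun L hL hN ψ x hx₁ hψ => ?_⟩
  have hL' := hr L hL hN
  have hx : x ∈ K := hK₁K hx₁
  have hmem : e₀ (g x) ∈ e₀ '' (g '' K₁) := ⟨g x, ⟨x, hx₁, rfl⟩, rfl⟩
  refine ⟨?_, ?_⟩
  · have h5 := (hL' (e₀ (g x)) hmem).1
    rw [hψ.self_of_nhds]
    exact h5.2
  · intro j hj
    have hxe : x ∈ e.source := hKe hx
    have cat : ContinuousAt e.symm (e x) := e.continuousAt_symm (e.map_source hxe)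
    have cat2 : ContinuousAt (fun y => g (e.symm y)) (e x) := hgc.continuousAt.comp cat
    have hvx : v (e x) = e₀ (g x) := by
      show e₀ (g (e.symm (e x))) = e₀ (g x)
      rw [e.left_inv hxe]
    have hexΩ : e x ∈ Ω₀ := hKΩ ⟨x, hx₁, rfl⟩
    -- the difference
    set w : E n → E n := τ ∘ L - τ with hw
    set W : Set (E n) := Ωτ ∩ L ⁻¹' Ωτ with hW
    have oW : IsOpen W := oΩτ.inter (oΩτ.preimage hL.continuous)
    have cτL : ContDiffOn ℝ ∞ (τ ∘ L) W := cτ.comp hL.contDiffOn fun y hy => hy.2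
    have cw : ContDiffOn ℝ ∞ w W := cτL.sub (cτ.mono inter_subset_left)
    have hmW : ∀ y ∈ e '' K₁, v y ∈ W := by
      rintro _ ⟨z, hz, rfl⟩
      have hvz : v (e z) = e₀ (g z) := by
        show e₀ (g (e.symm (e z))) = e₀ (g z)
        rw [e.left_inv (hK₁e hz)]
      rw [hvz]
      have hz' : e₀ (g z) ∈ e₀ '' (g '' K₁) := ⟨g z, ⟨z, hz, rfl⟩, rfl⟩
      exact ⟨hCΩ hz', (hL' _ hz').1⟩
    have hbd : ∀ y ∈ e '' K₁, ∀ i ≤ r, ‖iteratedFDeriv ℝ i w (v y)‖ ≤ δ₂ := by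
      rintro y hy i hi
      have hvy := hmW y hy
      obtain ⟨z, hz, rfl⟩ := hy
      have hvz : v (e z) = e₀ (g z) := by
        show e₀ (g (e.symm (e z))) = e₀ (g z)
        rw [e.left_inv (hK₁e hz)]
      have hz' : e₀ (g z) ∈ e₀ '' (g '' K₁) := ⟨g z, ⟨z, hz, rfl⟩, rfl⟩
      have b1 : ContDiffAt ℝ i (τ ∘ L) (v (e z)) :=
        ((cτL.contDiffAt (oW.mem_nhds hvy)).of_le (by exact_mod_cast le_top))
      have b2 : ContDiffAt ℝ i τ (v (e z)) :=
        ((cτ.contDiffAt (oΩτ.mem_nhds hvy.1)).of_le (by exact_mod_cast le_top))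
      rw [hw, iteratedFDeriv_sub_apply b1 b2, hvz]
      exact (hL' _ hz').2 i hi
    have hfin := hl W w oW (cw.of_le (by exact_mod_cast le_top)) hmW hbd (e x)
      ⟨x, hx₁, rfl⟩ j hj
    have hev : e' ∘ (ψ ∘ g) ∘ e.symm =ᶠ[𝓝 (e x)] w ∘ v + e' ∘ g ∘ e.symm := by
      have hψ' : ∀ᶠ y in 𝓝 (e x), ψ (g (e.symm y)) = e₀.symm (L (e₀ (g (e.symm y)))) := by
        have h6 : Tendsto (fun y => g (e.symm y)) (𝓝 (e x)) (𝓝 (g x)) := by
          have := cat2.tendsto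
          simp only [e.left_inv hxe] at this
          exact this
        exact h6.eventually hψ
      filter_upwards [oΩ₀.mem_nhds hexΩ, hψ'] with y hy hy2
      have hy1 : g (e.symm y) ∈ e₀.source := hy.2.1
      show e' (ψ (g (e.symm y))) = (e' (e₀.symm (L (e₀ (g (e.symm y))))) -
        e' (e₀.symm (e₀ (g (e.symm y))))) + e' (g (e.symm y))
      rw [hy2, e₀.left_inv hy1, sub_add_cancel]
    have b3 : ContDiffAt ℝ j (w ∘ v) (e x) := by
      have b4 : ContDiffAt ℝ r v (e x) := cv.contDiffAt (oΩ₀.mem_nhds hexΩ)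
      have b5 : ContDiffAt ℝ r w (v (e x)) :=
        (cw.contDiffAt (oW.mem_nhds (hmW _ ⟨x, hx₁, rfl⟩))).of_le (by exact_mod_cast le_top)
      exact (b5.comp _ b4).of_le (by exact_mod_cast hj)
    have b6 : ContDiffAt ℝ j (e' ∘ g ∘ e.symm) (e x) :=
      (sg e e' x he he' hxe (hgK hx)).of_le (by
        exact_mod_cast le_trans (by exact_mod_cast hj) hrs)
    rw [(hev.iteratedFDeriv (𝕜 := ℝ) j).self_of_nhds, iteratedFDeriv_add_apply b3 b6, add_sub_assoc]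
    refine (norm_add_le _ _).trans_lt ?_
    have := hle x hx j hj
    linarith

theorem abs_coord {d : ℕ} (x : E (d + 1)) (i : Fin (d + 1)) : |x i| ≤ ‖x‖ :=
  PiLp.norm_apply_le x i

theorem near_zero {n r : ℕ} {δ : ℝ} {L : E n → E n} (h : Near r δ L) (y : E n) :
    ‖L y - y‖ ≤ δ := by
  have := h 0 (Nat.zero_le _) y
  rwa [norm_iteratedFDeriv_zero] at this

theorem near_mono {n r : ℕ} {δ δ' : ℝ} (h : δ ≤ δ') {L : E n → E n} (hL : Near r δ L) :
    Near r δ' L := fun j hj y => (hL j hj y).trans h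

theorem strip_map {d : ℕ} {w w' δ : ℝ} {L : E (d + 1) → E (d + 1)} (hL : ModT d w' L)
    (hN : ∀ y, ‖L y - y‖ ≤ δ) (hδ : δ ≤ (w - w') / 2) (hw : w' < w) {z : E (d + 1)}
    (hz : z ∈ Strip d w) : L z ∈ Strip d w := by
  by_cases h : w' ≤ |z 0|
  · rw [hL.2.2 z h]
    exact hz
  · push Not at h
    have h1 := abs_coord (L z - z) 0
    have h2 := hN z
    have h3 : L z 0 = z 0 + (L z - z) 0 := by
      simp
    show |L z 0| < w
    rw [h3]
    calc |z 0 + (L z - z) 0| ≤ |z 0| + |(L z - z) 0| := abs_add_le _ _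
      _ < w := by linarith

theorem extT_on {d : ℕ} {M : Type} [TopologicalSpace M] [ChartedSpace (E (d + 1)) M]
    {w w' δ : ℝ} {T : E (d + 1) → M} (hT : Collar w T) {L : E (d + 1) → E (d + 1)}
    (hL : ModT d w' L) (hN : ∀ y, ‖L y - y‖ ≤ δ) (hδ : δ ≤ (w - w') / 2) (hw : w' < w)
    {z : E (d + 1)} (hz : z ∈ Strip d w) : extT w T L (T z) = T (L z) := by
  have h : ∃ x ∈ Strip d w, T x = T z := ⟨z, hz, rfl⟩
  unfold extT
  rw [dif_pos h]
  obtain ⟨h1, h2⟩ := Classical.choose_spec h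
  set z' := Classical.choose h
  have h3 : z' - z ∈ Lat d := (hT.2.2 z' h1 z hz).1 h2
  have h4 : L z' = L z + (z' - z) := by
    have := hL.2.1 z (z' - z) h3
    rwa [add_sub_cancel] at this
  refine (hT.2.2 _ (strip_map hL hN hδ hw h1) _ (strip_map hL hN hδ hw hz)).2 ?_
  rw [h4, add_sub_cancel_left]
  exact h3

theorem extT_off {d : ℕ} {M : Type} {w w' : ℝ} {T : E (d + 1) → M}
    {L : E (d + 1) → E (d + 1)} (hL : ModT d w' L) {p : M}
    (hp : p ∉ T '' {x | |x 0| ≤ w'}) : extT w T L p = p := by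
  unfold extT
  split_ifs with h
  · obtain ⟨h1, h2⟩ := Classical.choose_spec h
    set z' := Classical.choose h
    have h3 : w' ≤ |z' 0| := by
      by_contra h4
      push Not at h4
      exact hp ⟨z', h4.le, h2⟩
    rw [hL.2.2 z' h3, h2]
  · rfl

end ROBT_

open ROBT_ in
theorem robt (h1 : T_COLL) : T_ROBT := by
  intro d M _ _ _ _ s r f e e' K ε hrs hf he he' hK hKe hfK w T hT w' hw' g hg hgd
  obtain ⟨hTc, hTo, hTk, hTe⟩ := h1 d M w T hT
  have hgc : Continuous g := by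
    obtain ⟨G, rfl⟩ := hgd
    exact G.continuous
  set C : Set (E (d + 1)) := {x | |x 0| ≤ w'} with hC
  have hc0 : Continuous fun x : E (d + 1) => |x 0| := by fun_prop
  have hCk : IsCompact (T '' C) := by
    refine hTk w' hw' C (isClosed_le hc0 continuous_const) (fun x hx => hx) ?_
    intro x hx v hv
    show |(x + v) 0| ≤ w'
    have : (x + v) 0 = x 0 := by
      have h := hv.1
      simp [h]
    rw [this]
    exact hx
  obtain ⟨ε₀, hε₀, hch⟩ := hTe w' hw'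
  set K₁ : Set M := K ∩ g ⁻¹' (T '' C) with hK₁
  have cK₁ : IsCompact K₁ := hK.inter_right (hCk.isClosed.preimage hgc)
  have key : ∃ δ : ℝ, 0 < δ ∧ ∀ L, ModT d w' L → Near r δ L → ∀ x ∈ K₁,
      extT w T L (g x) ∈ e'.source ∧ ∀ j ≤ r,
        ‖iteratedFDeriv ℝ j (e' ∘ (extT w T L ∘ g) ∘ e.symm) (e x) -
          iteratedFDeriv ℝ j (e' ∘ f ∘ e.symm) (e x)‖ < ε := by
    refine cK₁.induction_on (p := fun S => ∃ δ : ℝ, 0 < δ ∧ ∀ L, ModT d w' L → Near r δ L →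
      ∀ x ∈ S, extT w T L (g x) ∈ e'.source ∧ ∀ j ≤ r,
        ‖iteratedFDeriv ℝ j (e' ∘ (extT w T L ∘ g) ∘ e.symm) (e x) -
          iteratedFDeriv ℝ j (e' ∘ f ∘ e.symm) (e x)‖ < ε) ?_ ?_ ?_ ?_
    · exact ⟨1, one_pos, fun L _ _ x hx => absurd hx (notMem_empty x)⟩
    · rintro S S' hSS ⟨δ, hδ, h⟩
      exact ⟨δ, hδ, fun L hL hN x hx => h L hL hN x (hSS hx)⟩
    · rintro S S' ⟨δ, hδ, h⟩ ⟨δ', hδ', h'⟩
      refine ⟨min δ δ', lt_min hδ hδ', fun L hL hN x hx => ?_⟩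
      rcases hx with hx | hx
      · exact h L hL (near_mono (min_le_left _ _) hN) x hx
      · exact h' L hL (near_mono (min_le_right _ _) hN) x hx
    · intro y hy
      obtain ⟨x₀, hx₀, hgy⟩ := hy.2
      obtain ⟨e₀, he₀, het, hes, heT⟩ := hch x₀ hx₀
      have hcb : closedBall x₀ (ε₀ / 4) ⊆ e₀.target := by
        rw [het]
        exact closedBall_subset_ball (by linarith)
      have hb4 : ball x₀ (ε₀ / 4) ⊆ e₀.target := ball_subset_closedBall.trans hcb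
      have hb2 : ball x₀ (ε₀ / 2) ⊆ e₀.target := by
        rw [het]
        exact ball_subset_ball (by linarith)
      set K₂ : Set M := K₁ ∩ g ⁻¹' (e₀.symm '' closedBall x₀ (ε₀ / 4)) with hK₂
      have cB : IsCompact (e₀.symm '' closedBall x₀ (ε₀ / 4)) :=
        (isCompact_closedBall x₀ (ε₀ / 4)).image_of_continuousOn (e₀.continuousOn_symm.mono hcb)
      have cK₂ : IsCompact K₂ := cK₁.inter_right (cB.isClosed.preimage hgc)
      have hgK₂ : MapsTo g K₂ e₀.source := by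
        rintro x ⟨-, z, hz, hzx⟩
        rw [← hzx]
        exact e₀.map_target (hcb hz)
      obtain ⟨δ₁, hδ₁, hloc⟩ := loc hrs hf hgd he he' he₀ hK hKe hfK hg cK₂
        (fun x hx => hx.1.1) hgK₂
      refine ⟨K₂, ?_, min δ₁ (min (ε₀ / 4) ((w - w') / 2)),
        lt_min hδ₁ (lt_min (by linarith) (by linarith)), ?_⟩
      · have ho : IsOpen (e₀.symm '' ball x₀ (ε₀ / 4)) :=
          e₀.isOpen_image_symm_of_subset_target isOpen_ball hb4
        have hyo : y ∈ g ⁻¹' (e₀.symm '' ball x₀ (ε₀ / 4)) := by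
          refine ⟨x₀, mem_ball_self (by linarith), ?_⟩
          rw [← hgy]
          exact (heT x₀ (mem_ball_self hε₀)).symm
        have h5 : g ⁻¹' (e₀.symm '' ball x₀ (ε₀ / 4)) ∈ 𝓝 y :=
          (ho.preimage hgc).mem_nhds hyo
        refine mem_of_superset (inter_mem self_mem_nhdsWithin (mem_nhdsWithin_of_mem_nhds h5)) ?_
        rintro x ⟨hx1, hx2⟩
        exact ⟨hx1, image_mono ball_subset_closedBall hx2⟩
      · intro L hL hN x hx
        have hN0 : ∀ z, ‖L z - z‖ ≤ min δ₁ (min (ε₀ / 4) ((w - w') / 2)) := near_zero hN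
        have hN1 : ∀ z, ‖L z - z‖ ≤ ε₀ / 4 := fun z =>
          (hN0 z).trans ((min_le_right _ _).trans (min_le_left _ _))
        have hδw : min δ₁ (min (ε₀ / 4) ((w - w') / 2)) ≤ (w - w') / 2 :=
          (min_le_right _ _).trans (min_le_right _ _)
        refine hloc L hL.1 (near_mono (min_le_left _ _) hN) _ x hx ?_
        obtain ⟨z₁, hz₁, hz₁x⟩ := hx.2
        have ho : IsOpen (e₀.symm '' ball x₀ (ε₀ / 2)) :=
          e₀.isOpen_image_symm_of_subset_target isOpen_ball hb2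
        have hmem : g x ∈ e₀.symm '' ball x₀ (ε₀ / 2) :=
          ⟨z₁, closedBall_subset_ball (by linarith) hz₁, hz₁x⟩
        filter_upwards [ho.mem_nhds hmem] with p hp
        obtain ⟨z, hz, rfl⟩ := hp
        have hzb : z ∈ ball x₀ ε₀ := ball_subset_ball (by linarith) hz
        have hLz : L z ∈ ball x₀ ε₀ := by
          rw [mem_ball] at hz ⊢
          calc dist (L z) x₀ ≤ dist (L z) z + dist z x₀ := dist_triangle _ _ _
            _ < ε₀ := by
              rw [dist_eq_norm]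
              linarith [hN1 z]
        rw [e₀.right_inv (hb2 hz), ← heT z hzb, ← heT (L z) hLz]
        exact extT_on hT hL hN0 hδw hw' (hes hzb)
  obtain ⟨δ, hδ, hkey⟩ := key
  refine ⟨δ, hδ, fun L hL hN => ⟨?_, ?_⟩⟩
  · intro x hx
    show extT w T L (g x) ∈ e'.source
    by_cases hx1 : g x ∈ T '' C
    · exact (hkey L hL hN x ⟨hx, hx1⟩).1
    · rw [extT_off hL hx1]
      exact hg.1 hx
  · intro x hx j hj
    by_cases hx1 : g x ∈ T '' C
    · exact (hkey L hL hN x ⟨hx, hx1⟩).2 j hj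
    · have hxe : x ∈ e.source := hKe hx
      have cat : ContinuousAt e.symm (e x) := e.continuousAt_symm (e.map_source hxe)
      have cat2 : ContinuousAt (fun y => g (e.symm y)) (e x) := hgc.continuousAt.comp cat
      have hev : e' ∘ (extT w T L ∘ g) ∘ e.symm =ᶠ[𝓝 (e x)] e' ∘ g ∘ e.symm := by
        have h6 : ∀ᶠ y in 𝓝 (e x), g (e.symm y) ∈ (T '' C)ᶜ := by
          apply cat2.eventually_mem
          apply hCk.isClosed.isOpen_compl.mem_nhds
          show g (e.symm (e x)) ∈ (T '' C)ᶜ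
          rw [e.left_inv hxe]
          exact hx1
        filter_upwards [h6] with y hy
        show e' (extT w T L (g (e.symm y))) = e' (g (e.symm y))
        rw [extT_off hL hy]
      rw [(hev.iteratedFDeriv (𝕜 := ℝ) j).self_of_nhds]
      exact hg.2 x hx j hj

end Pool.Agent.PalT
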