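import Pool.Agent.PalT.Targets
import Pool.Agent.PalF.Targets

/-!
# Tori of codimension one: the targets of the jobs for vector fields
-/

set_option autoImplicit false

open scoped Manifold ContDiff Topology
open MeasureTheory Set Filter Bundle Asymptotics Metric

namespace Pool.Agent.PalT

open Pool.Agent.Pal Pool.Agent.Palis Pool.Agent.PalF

/-! ## Working definitions -/

/-- Diophantine frequency vectors. -/
def DioF (d : ℕ) (om : Fin d → ℝ) : Prop :=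
  ∃ (c : ℝ) (τ : ℕ), 0 < c ∧ ∀ k : Fin d → ℤ, k ≠ 0 → c ≤ ‖k‖ ^ τ * |∑ i, (k i : ℝ) * om i|

/-- A divergence free field near the torus, lifted to the strip. -/
structure LiftField (d : ℕ) (w : ℝ) (om : E (d + 1)) (Y : E (d + 1) → E (d + 1)) : Prop where
  pos : 0 < w
  smooth : ContDiffOn ℝ ∞ Y (Strip d w)
  per : ∀ x ∈ Strip d w, ∀ v ∈ Lat d, Y (x + v) = Y x
  omega : om 0 = 0
  zero : ∀ x, x 0 = 0 → Y x = om
  div : ∀ φ : E (d + 1) → ℝ, ContDiff ℝ ∞ φ → Per d φ →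
    (∃ w' : ℝ, w' < w ∧ ∀ x, w' ≤ |x 0| → φ x = 0) → ∫ x in Cell d w, fderiv ℝ φ x (Y x) = 0

/-- A function `z` that is almost constant along the field. -/
structure AlmInvF (d N : ℕ) (w C : ℝ) (om : E (d + 1)) (Y : E (d + 1) → E (d + 1))
    (z : E (d + 1) → ℝ) : Prop where
  pos : 0 < w
  C_pos : 0 < C
  smooth : ContDiff ℝ ∞ z
  per : Per d z
  first : ∀ x ∈ Strip d w, |z x - x 0| ≤ C * x 0 ^ 2
  inv : ∀ x ∈ Strip d w, |fderiv ℝ z x (Y x)| ≤ C * |x 0| ^ (N + 1)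
  lip : ∀ x ∈ Strip d w, ‖Y x - om‖ ≤ C * |x 0|
  norm : ∀ x ∈ Strip d w, |Y x 0| ≤ C * x 0 ^ 2

/-- The image of the vector `v` at `x` under the derivative of `T`. -/
noncomputable def dT {d : ℕ} {M : Type} [TopologicalSpace M] [ChartedSpace (E (d + 1)) M]
    (T : E (d + 1) → M) (x v : E (d + 1)) : TangentSpace 𝓘(ℝ, E (d + 1)) (T x) :=
  mfderiv 𝓘(ℝ, E (d + 1)) 𝓘(ℝ, E (d + 1)) T x v

/-- The torus of a collar. -/
def Tor {d : ℕ} {M : Type} (T : E (d + 1) → M) : Set M := T '' {x | x 0 = 0}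

/-! ## Fourier series -/

/-- The cohomological equation over a Diophantine linear flow. -/
def T_COHF : Prop := ∀ (d : ℕ) (om : Fin d → ℝ) (b : (Fin d → ℝ) → ℝ), DioF d om →
  ContDiff ℝ ∞ b → (∀ (x : Fin d → ℝ) (k : Fin d → ℤ), b (x + fun i => (k i : ℝ)) = b x) →
  ∫ x in Icc (0 : Fin d → ℝ) 1, b x = 0 →
  ∃ c : (Fin d → ℝ) → ℝ, ContDiff ℝ ∞ c ∧
    (∀ (x : Fin d → ℝ) (k : Fin d → ℤ), c (x + fun i => (k i : ℝ)) = c x) ∧
    ∀ x, fderiv ℝ c x om = b x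

/-- Diophantine linear flows are dense in the torus. -/
def T_KRO : Prop := ∀ (d : ℕ) (om y : Fin d → ℝ) (ε : ℝ), DioF d om → 0 < ε →
  ∃ t : ℝ, 0 ≤ t ∧ ∃ k : Fin d → ℤ, ∀ i, |t * om i - y i - k i| < ε

/-! ## The almost invariant function -/

def T_FIRSTF : Prop := ∀ (d : ℕ) (w : ℝ) (om : E (d + 1)) (Y : E (d + 1) → E (d + 1)),
  LiftField d w om Y → ∃ (w' C : ℝ), 0 < w' ∧ w' ≤ w ∧ 0 < C ∧
    ∀ x ∈ Strip d w', ‖Y x - om‖ ≤ C * |x 0| ∧ |Y x 0| ≤ C * x 0 ^ 2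

def T_MEANF : Prop := ∀ (d N : ℕ) (w w' C : ℝ) (om : E (d + 1)) (Y : E (d + 1) → E (d + 1))
  (z : E (d + 1) → ℝ) (b : (Fin d → ℝ) → ℝ), LiftField d w om Y → 1 ≤ N → 0 < w' → w' ≤ w →
  0 < C → ContDiff ℝ ∞ z → Per d z → Continuous b →
  (∀ x ∈ Strip d w', |z x - x 0| ≤ C * x 0 ^ 2) →
  (∀ x ∈ Strip d w', |fderiv ℝ z x (Y x) - b (th x) * x 0 ^ (N + 1)| ≤ C * |x 0| ^ (N + 2)) →
  ∫ y in Icc (0 : Fin d → ℝ) 1, b y = 0

def T_ZSTEPF : Prop := ∀ (d N : ℕ) (w w' C : ℝ) (om : E (d + 1)) (Y : E (d + 1) → E (d + 1))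
  (z : E (d + 1) → ℝ), LiftField d w om Y → DioF d (th om) → 1 ≤ N → w' ≤ w →
  AlmInvF d N w' C om Y z → ∃ (w'' C' : ℝ) (z' : E (d + 1) → ℝ), w'' ≤ w ∧
    AlmInvF d (N + 1) w'' C' om Y z'

def T_ZEXF : Prop := ∀ (d N : ℕ) (w : ℝ) (om : E (d + 1)) (Y : E (d + 1) → E (d + 1)),
  LiftField d w om Y → DioF d (th om) → 1 ≤ N → ∃ (w' C : ℝ) (z : E (d + 1) → ℝ), w' ≤ w ∧
    AlmInvF d N w' C om Y z

/-! ## The manifold -/

/-- A smooth volume given by unimodular charts has smooth densities. -/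
def T_VOLC : Prop := ∀ (n : ℕ) (M : Type) [TopologicalSpace M] [ChartedSpace (E n) M]
  [IsManifold 𝓘(ℝ, E n) ∞ M] [T2Space M] [CompactSpace M] [MeasurableSpace M] [BorelSpace M]
  (μ : Measure M), IsVolume n μ → IsSmoothVolume (E n) μ

/-- The field moves the points of the torus along straight lines. -/
def T_CURV : Prop := ∀ (d : ℕ) (M : Type) [TopologicalSpace M] [ChartedSpace (E (d + 1)) M]
  [IsManifold 𝓘(ℝ, E (d + 1)) ∞ M] [T2Space M] (w : ℝ) (T : E (d + 1) → M)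
  (X : ∀ x : M, TangentSpace 𝓘(ℝ, E (d + 1)) x) (om : E (d + 1)), Collar w T → om 0 = 0 →
  ((∀ x : E (d + 1), x 0 = 0 → IsMIntegralCurve (fun t : ℝ => T (x + t • om)) X) ↔
    ∀ x : E (d + 1), x 0 = 0 → X (T x) = dT T x om)

/-- The lift of a divergence free field that is tangent to the torus. -/
def T_LIFTF : Prop := ∀ (d : ℕ) (M : Type) [TopologicalSpace M] [ChartedSpace (E (d + 1)) M]
  [IsManifold 𝓘(ℝ, E (d + 1)) ∞ M] [T2Space M] [CompactSpace M] [MeasurableSpace M]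
  [BorelSpace M] (μ : Measure M) [IsFiniteMeasure μ] (w : ℝ) (T : E (d + 1) → M)
  (X : ∀ x : M, TangentSpace 𝓘(ℝ, E (d + 1)) x) (om : E (d + 1)), Collar w T → UniT μ w T →
  IsSmoothField (E (d + 1)) X → DivFree (E (d + 1)) μ X → om 0 = 0 →
  (∀ x : E (d + 1), x 0 = 0 → X (T x) = dT T x om) →
  ∃ Y : E (d + 1) → E (d + 1), LiftField d w om Y ∧ ∀ x ∈ Strip d w, X (T x) = dT T x (Y x)

/-- Divergence free fields that are constant near the torus. -/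
def T_PUSHF : Prop := ∀ (d : ℕ) (M : Type) [TopologicalSpace M] [ChartedSpace (E (d + 1)) M]
  [IsManifold 𝓘(ℝ, E (d + 1)) ∞ M] [T2Space M] [CompactSpace M] [MeasurableSpace M]
  [BorelSpace M] (μ : Measure M) [IsFiniteMeasure μ] (w : ℝ) (T : E (d + 1) → M), Collar w T →
  UniT μ w T → ∃ R : Fin d → ∀ x : M, TangentSpace 𝓘(ℝ, E (d + 1)) x, ∀ i : Fin d,
    IsSmoothField (E (d + 1)) (R i) ∧ DivFree (E (d + 1)) μ (R i) ∧
      ∀ x ∈ Strip d (w / 4), R i (T x) = dT T x (EuclideanSpace.single i.succ (1 : ℝ))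

/-- The almost invariant function on the manifold. -/
def T_QMF : Prop := ∀ (d : ℕ) (M : Type) [TopologicalSpace M] [ChartedSpace (E (d + 1)) M]
  [IsManifold 𝓘(ℝ, E (d + 1)) ∞ M] [T2Space M] [CompactSpace M] (w w' C : ℝ)
  (T : E (d + 1) → M) (X : ∀ x : M, TangentSpace 𝓘(ℝ, E (d + 1)) x) (om : E (d + 1))
  (Y : E (d + 1) → E (d + 1)) (z : E (d + 1) → ℝ) (r : ℕ), Collar w T → w' ≤ w → 1 ≤ r →
  AlmInvF d r w' C om Y z → (∀ x ∈ Strip d w, X (T x) = dT T x (Y x)) →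
  ∃ I : M → ℝ, QuadMin (E (d + 1)) I (Tor T) ∧ AlmostInvariant (E (d + 1)) r X I (Tor T)

/-- The torus is a transitive invariant compact set. -/
def T_TORF : Prop := ∀ (d : ℕ) (M : Type) [TopologicalSpace M] [ChartedSpace (E (d + 1)) M]
  [IsManifold 𝓘(ℝ, E (d + 1)) ∞ M] [T2Space M] [CompactSpace M] (w : ℝ) (T : E (d + 1) → M)
  (X : ∀ x : M, TangentSpace 𝓘(ℝ, E (d + 1)) x) (om : E (d + 1)), Collar w T →
  IsSmoothField (E (d + 1)) X → om 0 = 0 → DioF d (th om) →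
  (∀ x : E (d + 1), x 0 = 0 → IsMIntegralCurve (fun t : ℝ => T (x + t • om)) X) →
  IsCompact (Tor T) ∧ (Tor T).Nonempty ∧ Invariant (E (d + 1)) X (Tor T) ∧
    Transitive (E (d + 1)) X (Tor T)

/-- The theorem for vector fields. -/
def T_MAINF : Prop := ∀ (d : ℕ) (M : Type) [TopologicalSpace M] [ChartedSpace (E (d + 1)) M]
  [IsManifold 𝓘(ℝ, E (d + 1)) ∞ M] [T2Space M] [CompactSpace M] [ConnectedSpace M]
  [MeasurableSpace M] [BorelSpace M] (μ : Measure M) (w : ℝ) (T : E (d + 1) → M)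
  (X : ∀ x : M, TangentSpace 𝓘(ℝ, E (d + 1)) x) (om : E (d + 1)) (r : ℕ), IsVolume (d + 1) μ →
  Collar w T → IsSmoothField (E (d + 1)) X → DivFree (E (d + 1)) μ X → om 0 = 0 →
  (∀ x : E (d + 1), x 0 = 0 → IsMIntegralCurve (fun t : ℝ => T (x + t • om)) X) →
  Approx (E (d + 1)) r X {Y | IsSmoothField (E (d + 1)) Y ∧
    AttractsAlmostAll (E (d + 1)) Y (Tor T)}

end Pool.Agent.PalT
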